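import Mathlib

open MeasureTheory Set Filter Topology Metric
open scoped ENNReal NNReal

namespace Pool.Agent.Helper311.Nev

namespace CJS

/-- data of a C¹ graph -/
structure Gr where
  A : ℝ → ℝ
  M : ℝ
  h : ℝ
  hM : 1 ≤ M
  hA : ContDiff ℝ 1 A
  hA' : ∀ x, |deriv A x| ≤ M
  hh : 0 < h

variable (G : Gr)

noncomputable def Gr.z (t : ℝ) : ℂ := ⟨t, G.A t⟩
noncomputable def Gr.b (t : ℝ) : ℂ := 1 + Complex.I * ((deriv G.A t : ℝ) : ℂ)
noncomputable def Gr.W (τ : ℝ) (p t : ℝ) : ℂ := (τ : ℂ) * (G.z t - G.z p) - Complex.I * (G.h : ℂ)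

lemma Gr.z_eq (t : ℝ) : G.z t = (t : ℂ) + Complex.I * (G.A t : ℂ) := by
  apply Complex.ext <;> simp [Gr.z]

lemma Gr.hasDerivAt_z (t : ℝ) : HasDerivAt G.z (G.b t) t := by
  have h1 : HasDerivAt (fun t : ℝ => (t : ℂ)) 1 t := Complex.ofRealCLM.hasDerivAt
  have h2 : HasDerivAt G.A (deriv G.A t) t :=
    ((G.hA.differentiable (by norm_num)) t).hasDerivAt
  have h3 : HasDerivAt (fun t : ℝ => (G.A t : ℂ)) ((deriv G.A t : ℝ) : ℂ) t := h2.ofReal_comp
  have h4 := h1.add (h3.const_mul Complex.I)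
  refine h4.congr_of_eventuallyEq ?_
  filter_upwards with s
  simp [G.z_eq]

lemma Gr.norm_b (t : ℝ) : ‖G.b t‖ ≤ 2 * G.M := by
  unfold Gr.b
  refine (norm_add_le _ _).trans ?_
  rw [norm_mul, Complex.norm_I, Complex.norm_real, norm_one, Real.norm_eq_abs]
  have := G.hA' t
  have := G.hM
  linarith

lemma Gr.A_lip (s t : ℝ) : |G.A s - G.A t| ≤ G.M * |s - t| := by
  have := Convex.norm_image_sub_le_of_norm_hasDerivWithin_le (f := G.A) (f' := deriv G.A)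
    (s := univ) (C := G.M) (x := t) (y := s)
    (fun x _ => (((G.hA.differentiable (by norm_num)) x).hasDerivAt).hasDerivWithinAt)
    (fun x _ => by rw [Real.norm_eq_abs]; exact G.hA' x) convex_univ (mem_univ _) (mem_univ _)
  simpa [Real.norm_eq_abs] using this

lemma Gr.z_lip (s t : ℝ) : ‖G.z s - G.z t‖ ≤ 2 * G.M * |s - t| := by
  have h0 : G.z s - G.z t = ((s - t : ℝ) : ℂ) + Complex.I * ((G.A s - G.A t : ℝ) : ℂ) := by
    rw [G.z_eq, G.z_eq]; push_cast; ring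
  rw [h0]
  refine (norm_add_le _ _).trans ?_
  rw [norm_mul, Complex.norm_I, Complex.norm_real, Complex.norm_real, Real.norm_eq_abs,
    Real.norm_eq_abs]
  have h1 := G.A_lip s t
  have h2 := G.hM
  have h3 := abs_nonneg (s - t)
  nlinarith

variable {τ : ℝ} (hτ : τ = 1 ∨ τ = -1)

include hτ in
lemma Gr.abs_tau : |τ| = 1 := by
  rcases hτ with h | h <;> simp [h]

lemma Gr.W_re (p t : ℝ) : (G.W τ p t).re = τ * (t - p) := by
  simp [Gr.W, Gr.z]

lemma Gr.W_im (p t : ℝ) : (G.W τ p t).im = τ * (G.A t - G.A p) - G.h := by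
  simp [Gr.W, Gr.z]

include hτ in
lemma Gr.N1 (p t : ℝ) : |t - p| ≤ ‖G.W τ p t‖ := by
  have h1 := Complex.abs_re_le_norm (G.W τ p t)
  rw [G.W_re, abs_mul, Gr.abs_tau hτ, one_mul] at h1
  exact h1

include hτ in
lemma Gr.N2 (p t : ℝ) : G.h ≤ 2 * G.M * ‖G.W τ p t‖ := by
  have h1 := Complex.abs_im_le_norm (G.W τ p t)
  rw [G.W_im] at h1
  have h2 := G.N1 hτ p t
  have h3 : |τ * (G.A t - G.A p)| ≤ G.M * |t - p| := by
    rw [abs_mul, Gr.abs_tau hτ, one_mul]; exact G.A_lip t p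
  have h4 : G.h ≤ |τ * (G.A t - G.A p) - G.h| + |τ * (G.A t - G.A p)| := by
    have := abs_sub_abs_le_abs_sub G.h (τ * (G.A t - G.A p))
    rw [abs_sub_comm G.h, abs_of_pos G.hh] at this
    linarith
  have h5 := G.hM
  have h6 := norm_nonneg (G.W τ p t)
  nlinarith

include hτ in
lemma Gr.N3 (p t : ℝ) : ‖G.W τ p t‖ ≤ 2 * G.M * |t - p| + G.h := by
  unfold Gr.W
  refine (norm_sub_le _ _).trans ?_
  rw [norm_mul, norm_mul, Complex.norm_I, Complex.norm_real, Complex.norm_real,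
    Real.norm_eq_abs, Real.norm_eq_abs, Gr.abs_tau hτ, abs_of_pos G.hh]
  have := G.z_lip t p
  linarith

include hτ in
lemma Gr.W_pos (p t : ℝ) : 0 < ‖G.W τ p t‖ := by
  have h1 := G.N2 hτ p t
  have h2 := G.hh
  have h3 := G.hM
  by_contra hcon
  have h4 : ‖G.W τ p t‖ = 0 := le_antisymm (not_lt.1 hcon) (norm_nonneg _)
  rw [h4] at h1
  linarith

include hτ in
lemma Gr.W_slit (p t : ℝ) : Complex.I * G.W τ p t ∈ Complex.slitPlane := by
  rw [Complex.mem_slitPlane_iff]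
  by_cases htp : t = p
  · left
    simp [Gr.W_im, htp, G.hh]
  · right
    have : (Complex.I * G.W τ p t).im = τ * (t - p) := by simp [Gr.W_re]
    rw [this]
    have h1 : τ ≠ 0 := by rcases hτ with h | h <;> simp [h]
    exact mul_ne_zero h1 (sub_ne_zero.2 htp)

/-- branch of the logarithm -/
noncomputable def Lg (w : ℂ) : ℂ := Complex.log (Complex.I * w)

/-- its primitive -/
noncomputable def La (w : ℂ) : ℂ := w * Lg w - w

lemma hasDerivAt_W_t (p t : ℝ) : HasDerivAt (fun t => G.W τ p t) ((τ : ℂ) * G.b t) t := by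
  unfold Gr.W
  have h1 := ((G.hasDerivAt_z t).sub_const (G.z p)).const_mul (τ : ℂ)
  exact h1.sub_const _

lemma hasDerivAt_W_p (p t : ℝ) : HasDerivAt (fun p => G.W τ p t) (-((τ : ℂ) * G.b p)) p := by
  unfold Gr.W
  have h1 := ((G.hasDerivAt_z p).const_sub (G.z t)).const_mul (τ : ℂ)
  have h2 := h1.sub_const (Complex.I * (G.h : ℂ))
  exact h2.congr_deriv (by ring)

lemma hasDerivAt_Lg {w : ℂ} (hw : Complex.I * w ∈ Complex.slitPlane) :
    HasDerivAt Lg w⁻¹ w := by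
  have h1 : HasDerivAt (fun w : ℂ => Complex.I * w) Complex.I w := by
    simpa using (hasDerivAt_id w).const_mul Complex.I
  have h2 := (Complex.hasDerivAt_log hw).comp w h1
  have hw0 : w ≠ 0 := by
    rintro rfl
    simp at hw
  exact h2.congr_deriv (by rw [mul_inv]; field_simp)

lemma hasDerivAt_La {w : ℂ} (hw : Complex.I * w ∈ Complex.slitPlane) :
    HasDerivAt La (Lg w) w := by
  have hw0 : w ≠ 0 := by
    rintro rfl
    simp at hw
  have h1 := ((hasDerivAt_id w).mul (hasDerivAt_Lg hw)).sub (hasDerivAt_id w)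
  refine h1.congr_deriv ?_
  rw [id, mul_inv_cancel₀ hw0]
  ring

include hτ in
lemma hasDerivAt_LgW_t (p t : ℝ) :
    HasDerivAt (fun t => Lg (G.W τ p t)) ((τ : ℂ) * G.b t * (G.W τ p t)⁻¹) t := by
  have h1 := (hasDerivAt_Lg (G.W_slit hτ p t)).comp t (hasDerivAt_W_t G (τ := τ) p t)
  exact h1.congr_deriv (by ring)

include hτ in
lemma hasDerivAt_LaW_t (p t : ℝ) :
    HasDerivAt (fun t => La (G.W τ p t)) ((τ : ℂ) * G.b t * Lg (G.W τ p t)) t := by
  have h1 := (hasDerivAt_La (G.W_slit hτ p t)).comp t (hasDerivAt_W_t G (τ := τ) p t)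
  exact h1.congr_deriv (by ring)

include hτ in
lemma hasDerivAt_LaW_p (p t : ℝ) :
    HasDerivAt (fun p => La (G.W τ p t)) (-((τ : ℂ) * G.b p * Lg (G.W τ p t))) p := by
  have h1 := (hasDerivAt_La (G.W_slit hτ p t)).comp p (hasDerivAt_W_p G (τ := τ) p t)
  exact h1.congr_deriv (by ring)

/-- mean value inequality on an interval -/
lemma mvt (F F' : ℝ → ℂ) (a c C : ℝ) (hF : ∀ t ∈ uIcc a c, HasDerivAt F (F' t) t)
    (hC : ∀ t ∈ uIcc a c, ‖F' t‖ ≤ C) : ‖F c - F a‖ ≤ C * |c - a| := by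
  have := Convex.norm_image_sub_le_of_norm_hasDerivWithin_le (f := F) (f' := F')
    (s := uIcc a c) (C := C) (x := a) (y := c)
    (fun x hx => (hF x hx).hasDerivWithinAt) hC (convex_uIcc a c) left_mem_uIcc right_mem_uIcc
  simpa [Real.norm_eq_abs] using this

end CJS
end Pool.Agent.Helper311.Nev

namespace Pool.Agent.Helper311.Nev
namespace CJS
variable (G : Gr)
variable {τ : ℝ} (hτ : τ = 1 ∨ τ = -1)

/-- potential of a two-valued step function -/
noncomputable def Psi (τ y0 δ : ℝ) (vl vr : ℂ) (p : ℝ) : ℂ :=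
  vl * (La (G.W τ p (y0 + δ)) - La (G.W τ p y0))
    + vr * (La (G.W τ p (y0 + 2 * δ)) - La (G.W τ p (y0 + δ)))

lemma W_sub (p s t : ℝ) : G.W τ p s - G.W τ p t = (τ : ℂ) * (G.z s - G.z t) := by
  unfold Gr.W; ring

include hτ in
lemma norm_W_sub_le (p s t : ℝ) : ‖G.W τ p s - G.W τ p t‖ ≤ 2 * G.M * |s - t| := by
  rw [W_sub, norm_mul, Complex.norm_real, Real.norm_eq_abs, Gr.abs_tau hτ, one_mul]
  exact G.z_lip s t

include hτ in
lemma norm_tb (t : ℝ) : ‖(τ : ℂ) * G.b t‖ ≤ 2 * G.M := by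
  rw [norm_mul, Complex.norm_real, Real.norm_eq_abs, Gr.abs_tau hτ, one_mul]
  exact G.norm_b t

lemma uIcc_sub {y0 δ y : ℝ} (hδ : 0 ≤ δ) (hy : y ∈ Icc y0 (y0 + 2 * δ)) :
    ∀ t ∈ uIcc (y0 + δ) y, t ∈ Icc y0 (y0 + 2 * δ) ∧ |t - (y0 + δ)| ≤ δ := by
  intro t ht
  rw [mem_uIcc] at ht
  obtain ⟨h1, h2⟩ := hy
  rcases ht with ⟨h3, h4⟩ | ⟨h3, h4⟩
  · refine ⟨⟨by linarith, by linarith⟩, abs_le.2 ⟨by linarith, by linarith⟩⟩
  · refine ⟨⟨by linarith, by linarith⟩, abs_le.2 ⟨by linarith, by linarith⟩⟩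

lemma abs_sub_le_of_mem {y0 δ y : ℝ} (hy : y ∈ Icc y0 (y0 + 2 * δ)) : |y - (y0 + δ)| ≤ δ := by
  obtain ⟨h1, h2⟩ := hy
  exact abs_le.2 ⟨by linarith, by linarith⟩

include hτ in
lemma Psi_taylor (y0 δ p D V : ℝ) (vl vr : ℂ) (hδ : 0 < δ) (hD : 0 < D) (hV : 0 ≤ V)
    (hvl : ‖vl‖ ≤ V) (hvr : ‖vr‖ ≤ V)
    (hcan : vl * (G.z (y0 + δ) - G.z y0) + vr * (G.z (y0 + 2 * δ) - G.z (y0 + δ)) = 0)
    (hW : ∀ y ∈ Icc y0 (y0 + 2 * δ), D ≤ ‖G.W τ p y‖) :
    ‖Psi G τ y0 δ vl vr p‖ ≤ 8 * G.M ^ 2 * V * δ ^ 2 / D := by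
  have hM := G.hM
  set y1 := y0 + δ with hy1
  set c := Lg (G.W τ p y1) with hc
  have hbL : ∀ y ∈ Icc y0 (y0 + 2 * δ), ‖Lg (G.W τ p y) - c‖ ≤ 2 * G.M / D * δ := by
    intro y hy
    have h1 := mvt (fun t => Lg (G.W τ p t)) (fun t => (τ : ℂ) * G.b t * (G.W τ p t)⁻¹)
      y1 y (2 * G.M / D) (fun t _ => hasDerivAt_LgW_t G hτ p t) (fun t ht => by
        rw [norm_mul, norm_inv]
        have h2 := hW t (uIcc_sub hδ.le hy t ht).1
        have h3 := norm_tb G hτ t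
        rw [div_eq_mul_inv]
        exact mul_le_mul h3 (inv_anti₀ hD h2) (inv_nonneg.2 (norm_nonneg _)) (by positivity))
    refine h1.trans ?_
    have := abs_sub_le_of_mem hy
    exact mul_le_mul_of_nonneg_left this (by positivity)
  have hR : ∀ y ∈ Icc y0 (y0 + 2 * δ),
      ‖(La (G.W τ p y) - c * G.W τ p y) - (La (G.W τ p y1) - c * G.W τ p y1)‖
        ≤ 4 * G.M ^ 2 * δ ^ 2 / D := by
    intro y hy
    have h1 := mvt (fun t => La (G.W τ p t) - c * G.W τ p t)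
      (fun t => (τ : ℂ) * G.b t * (Lg (G.W τ p t) - c))
      y1 y (2 * G.M * (2 * G.M / D * δ)) (fun t _ => by
        have h2 := (hasDerivAt_LaW_t G hτ p t).sub ((hasDerivAt_W_t G (τ := τ) p t).const_mul c)
        exact h2.congr_deriv (by ring)) (fun t ht => by
        rw [norm_mul]
        exact mul_le_mul (norm_tb G hτ t) (hbL t (uIcc_sub hδ.le hy t ht).1) (norm_nonneg _)
          (by positivity))
    refine h1.trans ?_
    have h3 := abs_sub_le_of_mem hy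
    calc 2 * G.M * (2 * G.M / D * δ) * |y - y1| ≤ 2 * G.M * (2 * G.M / D * δ) * δ :=
          mul_le_mul_of_nonneg_left h3 (by positivity)
      _ = 4 * G.M ^ 2 * δ ^ 2 / D := by ring
  have h0 := hR y0 ⟨le_refl _, by linarith⟩
  have h2 := hR (y0 + 2 * δ) ⟨by linarith, le_refl _⟩
  have hexp : Psi G τ y0 δ vl vr p
      = vl * (-((La (G.W τ p y0) - c * G.W τ p y0) - (La (G.W τ p y1) - c * G.W τ p y1)))
        + vr * ((La (G.W τ p (y0 + 2 * δ)) - c * G.W τ p (y0 + 2 * δ))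
          - (La (G.W τ p y1) - c * G.W τ p y1)) := by
    have h3 : vl * (G.W τ p y1 - G.W τ p y0)
        + vr * (G.W τ p (y0 + 2 * δ) - G.W τ p y1) = 0 := by
      rw [W_sub, W_sub]
      linear_combination (τ : ℂ) * hcan
    unfold Psi
    linear_combination c * h3
  rw [hexp]
  refine (norm_add_le _ _).trans ?_
  rw [norm_mul, norm_mul, norm_neg]
  have h4 : ‖vl‖ * ‖(La (G.W τ p y0) - c * G.W τ p y0) - (La (G.W τ p y1) - c * G.W τ p y1)‖
      ≤ V * (4 * G.M ^ 2 * δ ^ 2 / D) := mul_le_mul hvl h0 (norm_nonneg _) hV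
  have h5 : ‖vr‖ * ‖(La (G.W τ p (y0 + 2 * δ)) - c * G.W τ p (y0 + 2 * δ))
      - (La (G.W τ p y1) - c * G.W τ p y1)‖
      ≤ V * (4 * G.M ^ 2 * δ ^ 2 / D) := mul_le_mul hvr h2 (norm_nonneg _) hV
  calc _ ≤ V * (4 * G.M ^ 2 * δ ^ 2 / D) + V * (4 * G.M ^ 2 * δ ^ 2 / D) := add_le_add h4 h5
    _ = 8 * G.M ^ 2 * V * δ ^ 2 / D := by ring

lemma u_log_bound {u : ℝ} (hu : 0 < u) : u * |Real.log u| ≤ 1 + u ^ 2 := by
  rcases le_or_gt u 1 with h1 | h1
  · rw [abs_of_nonpos (Real.log_nonpos hu.le h1)]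
    have h2 := Real.log_le_sub_one_of_pos (inv_pos.2 hu)
    rw [Real.log_inv] at h2
    have h3 : u * -Real.log u ≤ u * (u⁻¹ - 1) := mul_le_mul_of_nonneg_left h2 hu.le
    have h4 : u * (u⁻¹ - 1) = 1 - u := by field_simp
    nlinarith
  · rw [abs_of_nonneg (Real.log_nonneg h1.le)]
    have h2 := Real.log_le_sub_one_of_pos hu
    nlinarith

/-- bound of w (Lg w - log δ) -/
lemma near_term {w : ℂ} {δ M : ℝ} (hδ : 0 < δ) (hM : 1 ≤ M) (hw : 0 < ‖w‖)
    (hw2 : ‖w‖ ≤ 7 * M * δ) :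
    ‖w * (Lg w - (Real.log δ : ℂ))‖ ≤ 78 * M ^ 2 * δ := by
  have h1 : ‖Lg w - (Real.log δ : ℂ)‖ ≤ |Real.log (‖w‖ / δ)| + Real.pi := by
    have h2 : Lg w - (Real.log δ : ℂ)
        = ((Real.log (‖w‖ / δ) : ℝ) : ℂ) + Complex.I * ((Complex.arg (Complex.I * w) : ℝ) : ℂ) := by
      unfold Lg
      rw [Complex.log, norm_mul, Complex.norm_I, one_mul, Real.log_div hw.ne' hδ.ne']
      push_cast
      ring
    rw [h2]
    refine (norm_add_le _ _).trans ?_
    rw [norm_mul, Complex.norm_I, one_mul, Complex.norm_real, Complex.norm_real,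
      Real.norm_eq_abs, Real.norm_eq_abs]
    have := Complex.abs_arg_le_pi (Complex.I * w)
    linarith
  rw [norm_mul]
  set u := ‖w‖ / δ with hu
  have hu0 : 0 < u := div_pos hw hδ
  have hwu : ‖w‖ = δ * u := by rw [hu]; field_simp
  have hu7 : u ≤ 7 * M := by rw [hu, div_le_iff₀ hδ]; exact hw2
  have h3 := u_log_bound hu0
  have h4 := Real.pi_lt_four
  have h5 := Real.pi_pos
  calc ‖w‖ * ‖Lg w - (Real.log δ : ℂ)‖ ≤ ‖w‖ * (|Real.log u| + Real.pi) :=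
        mul_le_mul_of_nonneg_left h1 hw.le
    _ = δ * (u * |Real.log u| + u * Real.pi) := by rw [hwu]; ring
    _ ≤ δ * (1 + u ^ 2 + u * 4) := by
        apply mul_le_mul_of_nonneg_left _ hδ.le
        nlinarith
    _ ≤ δ * (78 * M ^ 2) := by
        apply mul_le_mul_of_nonneg_left _ hδ.le
        nlinarith
    _ = 78 * M ^ 2 * δ := by ring

include hτ in
lemma Psi_near (y0 δ p V : ℝ) (vl vr : ℂ) (hδ : 0 < δ) (hV : 0 ≤ V)
    (hvl : ‖vl‖ ≤ V) (hvr : ‖vr‖ ≤ V)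
    (hcan : vl * (G.z (y0 + δ) - G.z y0) + vr * (G.z (y0 + 2 * δ) - G.z (y0 + δ)) = 0)
    (hh : G.h < δ) (hp : |(y0 + δ) - p| < 2 * δ) :
    ‖Psi G τ y0 δ vl vr p‖ ≤ 312 * G.M ^ 2 * V * δ := by
  have hM := G.hM
  have key : ∀ y ∈ Icc y0 (y0 + 2 * δ), ‖G.W τ p y * (Lg (G.W τ p y) - (Real.log δ : ℂ))‖
      ≤ 78 * G.M ^ 2 * δ := by
    intro y hy
    apply near_term hδ hM (G.W_pos hτ p y)
    have h1 := G.N3 hτ p y
    have h2 := abs_sub_le_of_mem hy
    have h3 : |y - p| ≤ 3 * δ := by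
      have : y - p = (y - (y0 + δ)) + ((y0 + δ) - p) := by ring
      rw [this]
      exact (abs_add_le _ _).trans (by linarith)
    nlinarith
  have k0 := key y0 ⟨le_refl _, by linarith⟩
  have k1 := key (y0 + δ) ⟨by linarith, by linarith⟩
  have k2 := key (y0 + 2 * δ) ⟨by linarith, le_refl _⟩
  set R : ℂ → ℂ := fun w => w * (Lg w - (Real.log δ : ℂ)) with hR
  have hexp : Psi G τ y0 δ vl vr p
      = vl * (R (G.W τ p (y0 + δ)) - R (G.W τ p y0))
        + vr * (R (G.W τ p (y0 + 2 * δ)) - R (G.W τ p (y0 + δ))) := by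
    have h3 : vl * (G.W τ p (y0 + δ) - G.W τ p y0)
        + vr * (G.W τ p (y0 + 2 * δ) - G.W τ p (y0 + δ)) = 0 := by
      rw [W_sub, W_sub]
      linear_combination (τ : ℂ) * hcan
    unfold Psi
    simp only [hR, La]
    linear_combination ((Real.log δ : ℂ) - 1) * h3
  rw [hexp]
  have e1 : ‖vl * (R (G.W τ p (y0 + δ)) - R (G.W τ p y0))‖
      ≤ V * (78 * G.M ^ 2 * δ + 78 * G.M ^ 2 * δ) := by
    rw [norm_mul]
    refine mul_le_mul hvl ((norm_sub_le _ _).trans (add_le_add k1 k0)) (norm_nonneg _) hV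
  have e2 : ‖vr * (R (G.W τ p (y0 + 2 * δ)) - R (G.W τ p (y0 + δ)))‖
      ≤ V * (78 * G.M ^ 2 * δ + 78 * G.M ^ 2 * δ) := by
    rw [norm_mul]
    refine mul_le_mul hvr ((norm_sub_le _ _).trans (add_le_add k2 k1)) (norm_nonneg _) hV
  refine (norm_add_le _ _).trans ((add_le_add e1 e2).trans (le_of_eq (by ring)))

include hτ in
lemma Psi1 (y0 δ p V : ℝ) (vl vr : ℂ) (hδ : 0 < δ) (hV : 0 ≤ V)
    (hvl : ‖vl‖ ≤ V) (hvr : ‖vr‖ ≤ V)
    (hcan : vl * (G.z (y0 + δ) - G.z y0) + vr * (G.z (y0 + 2 * δ) - G.z (y0 + δ)) = 0) :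
    ‖Psi G τ y0 δ vl vr p‖ ≤ 1000 * G.M ^ 3 * V * δ * (1 / (1 + |(y0 + δ) - p| / δ)) := by
  have hM := G.hM
  have hM2 : 1 ≤ G.M ^ 2 := one_le_pow₀ hM
  have hM23 : G.M ^ 2 ≤ G.M ^ 3 := pow_le_pow_right₀ hM (by norm_num)
  have hconv : 1000 * G.M ^ 3 * V * δ * (1 / (1 + |(y0 + δ) - p| / δ))
      = 1000 * G.M ^ 3 * V * δ ^ 2 / (δ + |(y0 + δ) - p|) := by
    have : 0 ≤ |(y0 + δ) - p| := abs_nonneg _
    field_simp
  rw [hconv]
  rcases le_or_gt (2 * δ) |(y0 + δ) - p| with hfar | hnear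
  · have h1 := Psi_taylor G hτ y0 δ p (|(y0 + δ) - p| / 2) V vl vr hδ (by linarith) hV hvl hvr hcan
      (by
        intro y hy
        refine le_trans ?_ (G.N1 hτ p y)
        have h2 := abs_sub_le_of_mem hy
        have h3 : |(y0 + δ) - p| ≤ |y - (y0 + δ)| + |y - p| := by
          have : (y0 + δ) - p = -(y - (y0 + δ)) + (y - p) := by ring
          rw [this]
          refine (abs_add_le _ _).trans (by rw [abs_neg])
        linarith)
    refine h1.trans ?_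
    set r := |(y0 + δ) - p| with hr
    have hr0 : 0 < r := by linarith
    rw [div_le_div_iff₀ (by linarith) (by linarith)]
    have h5 : δ + r ≤ 3 / 2 * r := by linarith
    have h6 : 0 ≤ V * δ ^ 2 := by positivity
    calc 8 * G.M ^ 2 * V * δ ^ 2 * (δ + r) = 8 * G.M ^ 2 * (V * δ ^ 2) * (δ + r) := by ring
      _ ≤ 8 * G.M ^ 3 * (V * δ ^ 2) * (3 / 2 * r) := by gcongr
      _ ≤ 1000 * G.M ^ 3 * V * δ ^ 2 * (r / 2) := by
          have h7 : 0 ≤ G.M ^ 3 * (V * δ ^ 2) * r := by positivity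
          nlinarith
  · have hgoal : ∀ X : ℝ, X ≤ 312 * G.M ^ 3 * V * δ →
        X ≤ 1000 * G.M ^ 3 * V * δ ^ 2 / (δ + |(y0 + δ) - p|) := by
      intro X hX
      have h0 : 0 ≤ |(y0 + δ) - p| := abs_nonneg _
      rw [le_div_iff₀ (by linarith)]
      have h7 : 0 ≤ G.M ^ 3 * V * δ := by positivity
      calc X * (δ + |(y0 + δ) - p|) ≤ (312 * G.M ^ 3 * V * δ) * (δ + |(y0 + δ) - p|) :=
            mul_le_mul_of_nonneg_right hX (by linarith)
        _ ≤ (312 * G.M ^ 3 * V * δ) * (3 * δ) := by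
            apply mul_le_mul_of_nonneg_left (by linarith) (by positivity)
        _ ≤ 1000 * G.M ^ 3 * V * δ ^ 2 := by nlinarith
    apply hgoal
    rcases le_or_gt δ G.h with hh | hh
    · have h1 := Psi_taylor G hτ y0 δ p (δ / (2 * G.M)) V vl vr hδ (by positivity) hV hvl hvr hcan
        (by
          intro y _
          have := G.N2 hτ p y
          rw [div_le_iff₀ (by positivity)]
          linarith)
      refine h1.trans ?_
      have h8 : 8 * G.M ^ 2 * V * δ ^ 2 / (δ / (2 * G.M)) = 16 * G.M ^ 3 * V * δ := by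
        field_simp; ring
      rw [h8]
      have h7 : 0 ≤ G.M ^ 3 * V * δ := by positivity
      nlinarith
    · have h1 := Psi_near G hτ y0 δ p V vl vr hδ hV hvl hvr hcan hh hnear
      refine h1.trans ?_
      have h6 : 0 ≤ V * δ := by positivity
      nlinarith

include hτ in
lemma Psi2 (y0 δ p p' D V : ℝ) (vl vr : ℂ) (hδ : 0 < δ) (hD : 0 < D) (hV : 0 ≤ V)
    (hvl : ‖vl‖ ≤ V) (hvr : ‖vr‖ ≤ V)
    (hcan : vl * (G.z (y0 + δ) - G.z y0) + vr * (G.z (y0 + 2 * δ) - G.z (y0 + δ)) = 0)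
    (hW : ∀ q ∈ uIcc p p', ∀ y ∈ Icc y0 (y0 + 2 * δ), D ≤ ‖G.W τ q y‖) :
    ‖Psi G τ y0 δ vl vr p' - Psi G τ y0 δ vl vr p‖
      ≤ 16 * G.M ^ 3 * V * δ ^ 2 / D ^ 2 * |p' - p| := by
  have hM := G.hM
  apply mvt (fun q => Psi G τ y0 δ vl vr q)
    (fun q => -((τ : ℂ) * G.b q) *
      (vl * (Lg (G.W τ q (y0 + δ)) - Lg (G.W τ q y0))
        + vr * (Lg (G.W τ q (y0 + 2 * δ)) - Lg (G.W τ q (y0 + δ)))))
  · intro q _
    unfold Psi
    have a0 := hasDerivAt_LaW_p G hτ q y0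
    have a1 := hasDerivAt_LaW_p G hτ q (y0 + δ)
    have a2 := hasDerivAt_LaW_p G hτ q (y0 + 2 * δ)
    have := ((a1.sub a0).const_mul vl).add ((a2.sub a1).const_mul vr)
    exact this.congr_deriv (by ring)
  · intro q hq
    have hWq := hW q hq
    set y1 := y0 + δ with hy1
    have hW1 : D ≤ ‖G.W τ q y1‖ := hWq y1 ⟨by linarith, by linarith⟩
    set c := (G.W τ q y1)⁻¹ with hc
    have hne : ∀ y, G.W τ q y ≠ 0 := fun y => norm_pos_iff.1 (G.W_pos hτ q y)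
    have hbL : ∀ y ∈ Icc y0 (y0 + 2 * δ), ‖(G.W τ q y)⁻¹ - c‖ ≤ 2 * G.M * δ / D ^ 2 := by
      intro y hy
      have h1 : (G.W τ q y)⁻¹ - c
          = (G.W τ q y1 - G.W τ q y) * ((G.W τ q y)⁻¹ * (G.W τ q y1)⁻¹) := by
        rw [hc, sub_mul]
        have e1 := mul_inv_cancel₀ (hne y)
        have e2 := mul_inv_cancel₀ (hne y1)
        linear_combination (G.W τ q y1)⁻¹ * e1 - (G.W τ q y)⁻¹ * e2
      rw [h1, norm_mul, norm_mul, norm_inv, norm_inv]
      have h2 := norm_W_sub_le G hτ q y1 y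
      have h3 := abs_sub_le_of_mem hy
      rw [abs_sub_comm] at h3
      have h4 : ‖G.W τ q y1 - G.W τ q y‖ ≤ 2 * G.M * δ :=
        h2.trans (mul_le_mul_of_nonneg_left h3 (by positivity))
      have h5 : ‖G.W τ q y‖⁻¹ * ‖G.W τ q y1‖⁻¹ ≤ D⁻¹ * D⁻¹ :=
        mul_le_mul (inv_anti₀ hD (hWq y hy)) (inv_anti₀ hD hW1) (inv_nonneg.2 (norm_nonneg _))
          (inv_nonneg.2 hD.le)
      calc _ ≤ (2 * G.M * δ) * (D⁻¹ * D⁻¹) := mul_le_mul h4 h5 (by positivity) (by positivity)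
        _ = 2 * G.M * δ / D ^ 2 := by field_simp
    have hR : ∀ y ∈ Icc y0 (y0 + 2 * δ),
        ‖(Lg (G.W τ q y) - c * G.W τ q y) - (Lg (G.W τ q y1) - c * G.W τ q y1)‖
          ≤ 4 * G.M ^ 2 * δ ^ 2 / D ^ 2 := by
      intro y hy
      have h1 := mvt (fun t => Lg (G.W τ q t) - c * G.W τ q t)
        (fun t => (τ : ℂ) * G.b t * ((G.W τ q t)⁻¹ - c))
        y1 y (2 * G.M * (2 * G.M * δ / D ^ 2)) (fun t _ => by
          have h2 := (hasDerivAt_LgW_t G hτ q t).sub ((hasDerivAt_W_t G (τ := τ) q t).const_mul c)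
          exact h2.congr_deriv (by ring)) (fun t ht => by
          rw [norm_mul]
          exact mul_le_mul (norm_tb G hτ t) (hbL t (uIcc_sub hδ.le hy t ht).1) (norm_nonneg _)
            (by positivity))
      refine h1.trans ?_
      have h3 := abs_sub_le_of_mem hy
      calc 2 * G.M * (2 * G.M * δ / D ^ 2) * |y - y1| ≤ 2 * G.M * (2 * G.M * δ / D ^ 2) * δ :=
            mul_le_mul_of_nonneg_left h3 (by positivity)
        _ = 4 * G.M ^ 2 * δ ^ 2 / D ^ 2 := by ring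
    have h0 := hR y0 ⟨le_refl _, by linarith⟩
    have h2 := hR (y0 + 2 * δ) ⟨by linarith, le_refl _⟩
    have hexp : vl * (Lg (G.W τ q y1) - Lg (G.W τ q y0))
        + vr * (Lg (G.W τ q (y0 + 2 * δ)) - Lg (G.W τ q y1))
        = vl * (-((Lg (G.W τ q y0) - c * G.W τ q y0) - (Lg (G.W τ q y1) - c * G.W τ q y1)))
          + vr * ((Lg (G.W τ q (y0 + 2 * δ)) - c * G.W τ q (y0 + 2 * δ))
            - (Lg (G.W τ q y1) - c * G.W τ q y1)) := by
      have h3 : vl * (G.W τ q y1 - G.W τ q y0)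
          + vr * (G.W τ q (y0 + 2 * δ) - G.W τ q y1) = 0 := by
        rw [W_sub, W_sub]
        linear_combination (τ : ℂ) * hcan
      linear_combination c * h3
    rw [norm_mul, norm_neg, hexp]
    have h4 : ‖vl * (-((Lg (G.W τ q y0) - c * G.W τ q y0)
        - (Lg (G.W τ q y1) - c * G.W τ q y1)))‖ ≤ V * (4 * G.M ^ 2 * δ ^ 2 / D ^ 2) := by
      rw [norm_mul, norm_neg]
      exact mul_le_mul hvl h0 (norm_nonneg _) hV
    have h5 : ‖vr * ((Lg (G.W τ q (y0 + 2 * δ)) - c * G.W τ q (y0 + 2 * δ))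
            - (Lg (G.W τ q y1) - c * G.W τ q y1))‖ ≤ V * (4 * G.M ^ 2 * δ ^ 2 / D ^ 2) := by
      rw [norm_mul]
      exact mul_le_mul hvr h2 (norm_nonneg _) hV
    calc _ ≤ (2 * G.M) * (V * (4 * G.M ^ 2 * δ ^ 2 / D ^ 2) + V * (4 * G.M ^ 2 * δ ^ 2 / D ^ 2)) :=
          mul_le_mul (norm_tb G hτ q) ((norm_add_le _ _).trans (add_le_add h4 h5)) (norm_nonneg _)
            (by positivity)
      _ = 16 * G.M ^ 3 * V * δ ^ 2 / D ^ 2 := by ring

/-- decay factor -/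
noncomputable def lam (T u : ℝ) : ℝ := 1 / (1 + u) * min 1 (T / (1 + u))

include hτ in
lemma entry_bound (x0 Δ y0 δ V Wb : ℝ) (vl vr wl wr : ℂ) (hδ : 0 < δ) (hΔ : δ ≤ Δ)
    (hV : 0 ≤ V) (hWb : 0 ≤ Wb)
    (hvl : ‖vl‖ ≤ V) (hvr : ‖vr‖ ≤ V) (hwl : ‖wl‖ ≤ Wb) (hwr : ‖wr‖ ≤ Wb)
    (hcan : vl * (G.z (y0 + δ) - G.z y0) + vr * (G.z (y0 + 2 * δ) - G.z (y0 + δ)) = 0) :
    ‖wl * (Psi G τ y0 δ vl vr x0 - Psi G τ y0 δ vl vr (x0 + Δ))
      + wr * (Psi G τ y0 δ vl vr (x0 + Δ) - Psi G τ y0 δ vl vr (x0 + 2 * Δ))‖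
      ≤ 2000 * G.M ^ 3 * Wb * V * δ *
        (lam (8 * Δ / δ) (|(y0 + δ) - x0| / δ) + lam (8 * Δ / δ) (|(y0 + δ) - (x0 + Δ)| / δ)
          + lam (8 * Δ / δ) (|(y0 + δ) - (x0 + 2 * Δ)| / δ)) := by
  have hM := G.hM
  have hΔ0 : 0 < Δ := lt_of_lt_of_le hδ hΔ
  have hlam0 : ∀ u : ℝ, 0 ≤ u → 0 ≤ lam (8 * Δ / δ) u := by
    intro u hu
    unfold lam
    have : 0 ≤ 8 * Δ / δ := by positivity
    positivity
  rcases le_or_gt |(y0 + δ) - (x0 + Δ)| (3 * Δ) with hnear | hfar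
  · have hl : ∀ x : ℝ, |(y0 + δ) - x| ≤ 4 * Δ →
        lam (8 * Δ / δ) (|(y0 + δ) - x| / δ) = 1 / (1 + |(y0 + δ) - x| / δ) := by
      intro x hx
      unfold lam
      rw [min_eq_left, mul_one]
      rw [le_div_iff₀ (by positivity), one_mul]
      have h1 : |(y0 + δ) - x| / δ ≤ 4 * Δ / δ := by gcongr
      have h2 : 1 ≤ Δ / δ := by rw [le_div_iff₀ hδ]; linarith
      have h3 : 4 * Δ / δ = 4 * (Δ / δ) := by ring
      have h4 : 8 * Δ / δ = 8 * (Δ / δ) := by ring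
      rw [h4]; rw [h3] at h1; linarith
    rw [hl x0 (by
        have : (y0 + δ) - x0 = ((y0 + δ) - (x0 + Δ)) + Δ := by ring
        rw [this]
        refine (abs_add_le _ _).trans ?_
        rw [abs_of_pos hΔ0]; linarith), hl (x0 + Δ) (by linarith), hl (x0 + 2 * Δ) (by
        have : (y0 + δ) - (x0 + 2 * Δ) = ((y0 + δ) - (x0 + Δ)) + (-Δ) := by ring
        rw [this]
        refine (abs_add_le _ _).trans ?_
        rw [abs_neg, abs_of_pos hΔ0]; linarith)]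
    have p0 := Psi1 G hτ y0 δ x0 V vl vr hδ hV hvl hvr hcan
    have p1 := Psi1 G hτ y0 δ (x0 + Δ) V vl vr hδ hV hvl hvr hcan
    have p2 := Psi1 G hτ y0 δ (x0 + 2 * Δ) V vl vr hδ hV hvl hvr hcan
    set P0 := 1 / (1 + |(y0 + δ) - x0| / δ)
    set P1 := 1 / (1 + |(y0 + δ) - (x0 + Δ)| / δ)
    set P2 := 1 / (1 + |(y0 + δ) - (x0 + 2 * Δ)| / δ)
    have hP0 : 0 ≤ P0 := by positivity
    have hP2 : 0 ≤ P2 := by positivity
    refine (norm_add_le _ _).trans ?_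
    rw [norm_mul, norm_mul]
    have c1 : 0 ≤ 1000 * G.M ^ 3 * V * δ := by positivity
    calc _ ≤ Wb * (1000 * G.M ^ 3 * V * δ * P0 + 1000 * G.M ^ 3 * V * δ * P1)
          + Wb * (1000 * G.M ^ 3 * V * δ * P1 + 1000 * G.M ^ 3 * V * δ * P2) := by
          apply add_le_add
          · exact mul_le_mul hwl ((norm_sub_le _ _).trans (add_le_add p0 p1)) (norm_nonneg _) hWb
          · exact mul_le_mul hwr ((norm_sub_le _ _).trans (add_le_add p1 p2)) (norm_nonneg _) hWb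
      _ = 1000 * G.M ^ 3 * Wb * V * δ * (P0 + 2 * P1 + P2) := by ring
      _ ≤ 1000 * G.M ^ 3 * Wb * V * δ * (2 * (P0 + P1 + P2)) := by
          apply mul_le_mul_of_nonneg_left _ (by positivity)
          linarith
      _ = _ := by ring
  · set r := |(y0 + δ) - (x0 + Δ)| with hr
    have hr0 : 0 < r := by linarith
    have hWq : ∀ q ∈ Icc x0 (x0 + 2 * Δ), ∀ y ∈ Icc y0 (y0 + 2 * δ), r / 3 ≤ ‖G.W τ q y‖ := by
      intro q hq y hy
      refine le_trans ?_ (G.N1 hτ q y)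
      have h2 := abs_sub_le_of_mem hy
      have h3 := abs_sub_le_of_mem hq
      have h4 : r ≤ |y - (y0 + δ)| + |y - q| + |q - (x0 + Δ)| := by
        have : (y0 + δ) - (x0 + Δ) = -(y - (y0 + δ)) + (y - q) + (q - (x0 + Δ)) := by ring
        rw [hr, this]
        refine (abs_add_le _ _).trans ?_
        refine add_le_add ?_ le_rfl
        refine (abs_add_le _ _).trans (by rw [abs_neg])
      linarith
    have s1 := Psi2 G hτ y0 δ (x0 + Δ) x0 (r / 3) V vl vr hδ (by linarith) hV hvl hvr hcan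
      (fun q hq y hy => hWq q (by
        rw [mem_uIcc] at hq
        rcases hq with ⟨h1, h2⟩ | ⟨h1, h2⟩ <;> exact ⟨by linarith, by linarith⟩) y hy)
    have s2 := Psi2 G hτ y0 δ (x0 + 2 * Δ) (x0 + Δ) (r / 3) V vl vr hδ (by linarith) hV hvl hvr hcan
      (fun q hq y hy => hWq q (by
        rw [mem_uIcc] at hq
        rcases hq with ⟨h1, h2⟩ | ⟨h1, h2⟩ <;> exact ⟨by linarith, by linarith⟩) y hy)
    have e1 : |x0 - (x0 + Δ)| = Δ := by
      rw [show x0 - (x0 + Δ) = -Δ by ring, abs_neg, abs_of_pos hΔ0]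
    have e2 : |x0 + Δ - (x0 + 2 * Δ)| = Δ := by
      rw [show x0 + Δ - (x0 + 2 * Δ) = -Δ by ring, abs_neg, abs_of_pos hΔ0]
    rw [e1] at s1
    rw [e2] at s2
    set u := r / δ with hu
    have hu3 : 3 * (Δ / δ) < u := by
      rw [hu, ← mul_div_assoc]
      exact div_lt_div_of_pos_right hfar hδ
    have h1Δ : 1 ≤ Δ / δ := by rw [le_div_iff₀ hδ]; linarith
    have hu0 : 0 < u := by linarith
    have hlamu : (Δ / δ) / u ^ 2 ≤ lam (8 * Δ / δ) u := by
      unfold lam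
      have h8 : 8 * Δ / δ = 8 * (Δ / δ) := by ring
      rw [h8]
      set K := Δ / δ
      rcases min_choice (1 : ℝ) (8 * K / (1 + u)) with hmin | hmin
      · rw [hmin, mul_one, div_le_div_iff₀ (by positivity) (by positivity)]
        nlinarith
      · have e : 1 / (1 + u) * (8 * K / (1 + u)) = 8 * K / ((1 + u) * (1 + u)) := by
          field_simp
        rw [hmin, e, div_le_div_iff₀ (by positivity) (by positivity)]
        have : (1 + u) * (1 + u) ≤ 8 * u ^ 2 := by nlinarith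
        calc K * ((1 + u) * (1 + u)) ≤ K * (8 * u ^ 2) :=
              mul_le_mul_of_nonneg_left this (by linarith)
          _ = 8 * K * u ^ 2 := by ring
    have hconst : 16 * G.M ^ 3 * V * δ ^ 2 / (r / 3) ^ 2 * Δ
        = 144 * G.M ^ 3 * V * δ * ((Δ / δ) / u ^ 2) := by
      rw [hu]; field_simp; ring
    refine (norm_add_le _ _).trans ?_
    rw [norm_mul, norm_mul]
    have c1 : 0 ≤ G.M ^ 3 * Wb * V * δ := by positivity
    have hl0 : 0 ≤ lam (8 * Δ / δ) (|(y0 + δ) - x0| / δ) := hlam0 _ (by positivity)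
    have hl2 : 0 ≤ lam (8 * Δ / δ) (|(y0 + δ) - (x0 + 2 * Δ)| / δ) := hlam0 _ (by positivity)
    have hl1 : 0 ≤ lam (8 * Δ / δ) u := hlam0 _ (by positivity)
    calc _ ≤ Wb * (16 * G.M ^ 3 * V * δ ^ 2 / (r / 3) ^ 2 * Δ)
          + Wb * (16 * G.M ^ 3 * V * δ ^ 2 / (r / 3) ^ 2 * Δ) := by
          apply add_le_add
          · exact mul_le_mul hwl s1 (norm_nonneg _) hWb
          · exact mul_le_mul hwr s2 (norm_nonneg _) hWb
      _ = 288 * (G.M ^ 3 * Wb * V * δ) * ((Δ / δ) / u ^ 2) := by rw [hconst]; ring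
      _ ≤ 288 * (G.M ^ 3 * Wb * V * δ) * lam (8 * Δ / δ) u := by
          apply mul_le_mul_of_nonneg_left hlamu (by positivity)
      _ ≤ 2000 * (G.M ^ 3 * Wb * V * δ) * lam (8 * Δ / δ) u := by
          apply mul_le_mul_of_nonneg_right _ hl1
          linarith
      _ ≤ 2000 * (G.M ^ 3 * Wb * V * δ) * (lam (8 * Δ / δ) (|(y0 + δ) - x0| / δ)
            + lam (8 * Δ / δ) u + lam (8 * Δ / δ) (|(y0 + δ) - (x0 + 2 * Δ)| / δ)) := by
          apply mul_le_mul_of_nonneg_left _ (by positivity)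
          linarith
      _ = _ := by ring

end CJS
end Pool.Agent.Helper311.Nev

namespace Pool.Agent.Helper311.Nev
namespace CJS

/-- decay profile -/
noncomputable def sg (u : ℝ) : ℝ := (1 + u) ^ (-(3 / 2 : ℝ))

lemma sg_pos {u : ℝ} (hu : 0 ≤ u) : 0 < sg u := Real.rpow_pos_of_pos (by linarith) _

lemma sg_anti {u v : ℝ} (hu : 0 ≤ u) (huv : u ≤ v) : sg v ≤ sg u := by
  unfold sg
  exact Real.rpow_le_rpow_of_nonpos (by linarith) (by linarith) (by norm_num)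

lemma sg_summable : Summable (fun q : ℕ => sg (q : ℝ)) := by
  have h1 := (Real.summable_one_div_nat_add_rpow 1 (3 / 2)).2 (by norm_num)
  refine h1.congr fun n => ?_
  have h0 : (0 : ℝ) ≤ n := Nat.cast_nonneg n
  rw [abs_of_nonneg (by linarith), one_div]
  unfold sg
  rw [add_comm, Real.rpow_neg (by linarith)]

/-- total mass -/
noncomputable def S0 : ℝ := ∑' q : ℕ, sg (q : ℝ)

lemma S0_pos : 0 < S0 := by
  unfold S0
  exact sg_summable.tsum_pos (fun q => (sg_pos (Nat.cast_nonneg q)).le) 0 (sg_pos (by simp))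

lemma sum_inj_le (s : Finset ℕ) (F : ℕ → ℕ) (hF : Set.InjOn F s) :
    ∑ j ∈ s, sg (F j : ℝ) ≤ S0 := by
  rw [← Finset.sum_image (f := fun q : ℕ => sg (q : ℝ)) hF]
  exact sg_summable.sum_le_tsum _ (fun q _ => (sg_pos (Nat.cast_nonneg q)).le)

lemma sum_sg (n : ℕ) (c : ℝ) : ∑ j ∈ Finset.range n, sg |2 * (j : ℝ) - c| ≤ 2 * S0 := by
  classical
  rw [← Finset.sum_filter_add_sum_filter_not (Finset.range n) (fun j : ℕ => c ≤ 2 * (j : ℝ))]
  have h1 : ∑ j ∈ (Finset.range n).filter (fun j : ℕ => c ≤ 2 * (j : ℝ)), sg |2 * (j : ℝ) - c|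
      ≤ S0 := by
    refine le_trans (Finset.sum_le_sum ?_)
      (sum_inj_le _ (fun j : ℕ => ⌊2 * (j : ℝ) - c⌋₊) ?_)
    · intro j hj
      rw [Finset.mem_filter] at hj
      have h2 : 0 ≤ 2 * (j : ℝ) - c := by linarith [hj.2]
      rw [abs_of_nonneg h2]
      exact sg_anti (Nat.cast_nonneg _) (Nat.floor_le h2)
    · intro a ha b hb hab
      simp only [Finset.coe_filter, Finset.mem_range, Set.mem_ofPred_eq] at ha hb
      have ha2 : 0 ≤ 2 * (a : ℝ) - c := by linarith [ha.2]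
      have hb2 : 0 ≤ 2 * (b : ℝ) - c := by linarith [hb.2]
      simp only at hab
      have e1 := Nat.floor_le ha2
      have e2 := Nat.lt_floor_add_one (2 * (a : ℝ) - c)
      have e3 := Nat.floor_le hb2
      have e4 := Nat.lt_floor_add_one (2 * (b : ℝ) - c)
      rw [hab] at e1 e2
      have e5 : 2 * (a : ℝ) < 2 * (b : ℝ) + 1 := by linarith
      have e6 : 2 * (b : ℝ) < 2 * (a : ℝ) + 1 := by linarith
      have e7 : 2 * a < 2 * b + 1 := by exact_mod_cast e5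
      have e8 : 2 * b < 2 * a + 1 := by exact_mod_cast e6
      omega
  have h2 : ∑ j ∈ (Finset.range n).filter (fun j : ℕ => ¬ c ≤ 2 * (j : ℝ)), sg |2 * (j : ℝ) - c|
      ≤ S0 := by
    refine le_trans (Finset.sum_le_sum ?_)
      (sum_inj_le _ (fun j : ℕ => ⌊c - 2 * (j : ℝ)⌋₊) ?_)
    · intro j hj
      rw [Finset.mem_filter] at hj
      have h2 : 0 ≤ c - 2 * (j : ℝ) := by linarith [not_le.1 hj.2]
      rw [abs_sub_comm, abs_of_nonneg h2]
      exact sg_anti (Nat.cast_nonneg _) (Nat.floor_le h2)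
    · intro a ha b hb hab
      simp only [Finset.coe_filter, Finset.mem_range, Set.mem_ofPred_eq] at ha hb
      have ha2 : 0 ≤ c - 2 * (a : ℝ) := by linarith [not_le.1 ha.2]
      have hb2 : 0 ≤ c - 2 * (b : ℝ) := by linarith [not_le.1 hb.2]
      simp only at hab
      have e1 := Nat.floor_le ha2
      have e2 := Nat.lt_floor_add_one (c - 2 * (a : ℝ))
      have e3 := Nat.floor_le hb2
      have e4 := Nat.lt_floor_add_one (c - 2 * (b : ℝ))
      rw [hab] at e1 e2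
      have e5 : 2 * (a : ℝ) < 2 * (b : ℝ) + 1 := by linarith
      have e6 : 2 * (b : ℝ) < 2 * (a : ℝ) + 1 := by linarith
      have e7 : 2 * a < 2 * b + 1 := by exact_mod_cast e5
      have e8 : 2 * b < 2 * a + 1 := by exact_mod_cast e6
      omega
  linarith

lemma min_le_sqrt {x : ℝ} (hx : 0 ≤ x) : min 1 x ≤ √x := by
  rcases le_or_gt x 1 with h | h
  · rw [min_eq_right h]
    exact Real.le_sqrt_of_sq_le (by nlinarith)
  · rw [min_eq_left h.le]
    exact Real.one_le_sqrt.2 h.le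

lemma lam_row {T u : ℝ} (hT : 0 ≤ T) (hu : 0 ≤ u) : lam T u ≤ √T * sg u := by
  unfold lam sg
  have h1 : 0 < 1 + u := by linarith
  have h2 := min_le_sqrt (x := T / (1 + u)) (by positivity)
  calc 1 / (1 + u) * min 1 (T / (1 + u)) ≤ 1 / (1 + u) * √(T / (1 + u)) :=
        mul_le_mul_of_nonneg_left h2 (by positivity)
    _ = √T * (1 + u) ^ (-(3 / 2 : ℝ)) := by
        rw [Real.sqrt_div hT, Real.sqrt_eq_rpow (1 + u)]
        have e : (1 + u) ^ (-(3 / 2 : ℝ)) = (1 + u) ^ (-(1 : ℝ)) * (1 + u) ^ (-(1 / 2 : ℝ)) := by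
          rw [← Real.rpow_add h1]; norm_num
        rw [e, Real.rpow_neg h1.le, Real.rpow_neg h1.le, Real.rpow_one]
        field_simp

lemma lam_col (K : ℕ) {x : ℝ} (hx : 0 ≤ x) : lam (8 * 2 ^ K) (2 ^ K * x) ≤ 32 * sg x := by
  have h2K : (1 : ℝ) ≤ 2 ^ K := one_le_pow₀ (by norm_num)
  have h1x : 0 < 1 + x := by linarith
  have hsg : 1 / (1 + x) ^ 2 ≤ sg x := by
    unfold sg
    rw [one_div, ← Real.rpow_natCast, ← Real.rpow_neg h1x.le]
    exact Real.rpow_le_rpow_of_exponent_le (by linarith) (by norm_num)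
  have hu : 0 ≤ 2 ^ K * x := by positivity
  rcases le_or_gt x 1 with h | h
  · have h3 : lam (8 * 2 ^ K) (2 ^ K * x) ≤ 1 := by
      unfold lam
      have h4 : 1 / (1 + 2 ^ K * x) ≤ 1 := by
        rw [div_le_one (by linarith)]; linarith
      have h5 : min 1 (8 * 2 ^ K / (1 + 2 ^ K * x)) ≤ 1 := min_le_left _ _
      have h6 : 0 ≤ min 1 (8 * 2 ^ K / (1 + 2 ^ K * x)) := by positivity
      nlinarith
    have h7 : 1 / 4 ≤ 1 / (1 + x) ^ 2 := by
      apply one_div_le_one_div_of_le (by positivity)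
      nlinarith
    linarith
  · have hx0 : 0 < x := by linarith
    have h3 : lam (8 * 2 ^ K) (2 ^ K * x) ≤ 8 / x ^ 2 := by
      unfold lam
      have hpos : (0 : ℝ) < 2 ^ K := by positivity
      calc 1 / (1 + 2 ^ K * x) * min 1 (8 * 2 ^ K / (1 + 2 ^ K * x))
          ≤ 1 / (1 + 2 ^ K * x) * (8 * 2 ^ K / (1 + 2 ^ K * x)) :=
            mul_le_mul_of_nonneg_left (min_le_right _ _) (by positivity)
        _ ≤ 1 / (2 ^ K * x) * (8 * 2 ^ K / (2 ^ K * x)) := by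
            gcongr <;> linarith
        _ = 8 / (2 ^ K * x ^ 2) := by field_simp
        _ ≤ 8 / x ^ 2 := by
            apply div_le_div_of_nonneg_left (by norm_num) (by positivity)
            nlinarith [sq_nonneg x]
    have h7 : 1 / (4 * x ^ 2) ≤ 1 / (1 + x) ^ 2 := by
      apply one_div_le_one_div_of_le (by positivity)
      nlinarith
    have h8 : 8 / x ^ 2 = 32 * (1 / (4 * x ^ 2)) := by field_simp; norm_num
    rw [h8] at h3
    linarith

lemma schur (s t : Finset ℕ) (a c : ℕ → ℝ) (l : ℕ → ℕ → ℝ) (R C : ℝ)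
    (_ha : ∀ i, 0 ≤ a i) (_hc : ∀ j, 0 ≤ c j)
    (hl : ∀ i j, 0 ≤ l i j) (hR : ∀ i ∈ s, ∑ j ∈ t, l i j ≤ R) (hC : ∀ j ∈ t, ∑ i ∈ s, l i j ≤ C) :
    ∑ i ∈ s, ∑ j ∈ t, a i * c j * l i j
      ≤ √(R * ∑ i ∈ s, a i ^ 2) * √(C * ∑ j ∈ t, c j ^ 2) := by
  have h1 : ∑ i ∈ s, ∑ j ∈ t, a i * c j * l i j
      = ∑ p ∈ s ×ˢ t, (a p.1 * √(l p.1 p.2)) * (c p.2 * √(l p.1 p.2)) := by
    rw [Finset.sum_product]
    refine Finset.sum_congr rfl fun i _ => Finset.sum_congr rfl fun j _ => ?_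
    have := Real.mul_self_sqrt (hl i j)
    simp only
    calc a i * c j * l i j = a i * c j * (√(l i j) * √(l i j)) := by rw [this]
      _ = _ := by ring
  rw [h1]
  refine (Real.sum_mul_le_sqrt_mul_sqrt _ _ _).trans ?_
  apply mul_le_mul
  · apply Real.sqrt_le_sqrt
    rw [Finset.sum_product, Finset.mul_sum]
    apply Finset.sum_le_sum
    intro i hi
    have : ∑ j ∈ t, (a (i, j).1 * √(l (i, j).1 (i, j).2)) ^ 2 = a i ^ 2 * ∑ j ∈ t, l i j := by
      rw [Finset.mul_sum]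
      refine Finset.sum_congr rfl fun j _ => ?_
      simp only
      rw [mul_pow, Real.sq_sqrt (hl i j)]
    rw [this, mul_comm]
    exact mul_le_mul_of_nonneg_right (hR i hi) (by positivity)
  · apply Real.sqrt_le_sqrt
    rw [Finset.sum_product_right, Finset.mul_sum]
    apply Finset.sum_le_sum
    intro j hj
    have : ∑ i ∈ s, (c (i, j).2 * √(l (i, j).1 (i, j).2)) ^ 2 = c j ^ 2 * ∑ i ∈ s, l i j := by
      rw [Finset.mul_sum]
      refine Finset.sum_congr rfl fun i _ => ?_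
      simp only
      rw [mul_pow, Real.sq_sqrt (hl i j)]
    rw [this, mul_comm]
    exact mul_le_mul_of_nonneg_right (hC j hj) (by positivity)
  · positivity
  · positivity

/-- the ratio -/
noncomputable def qq : ℝ := √(√(1 / 2))

lemma qq_sq : qq ^ 2 = √(1 / 2) := Real.sq_sqrt (Real.sqrt_nonneg _)
lemma qq_nonneg : 0 ≤ qq := Real.sqrt_nonneg _
lemma qq_lt_one : qq < 1 := by
  unfold qq
  rw [Real.sqrt_lt' one_pos, one_pow, Real.sqrt_lt' one_pos]
  norm_num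
lemma qq_pow4 : qq ^ 4 = 1 / 2 := by
  rw [show (4 : ℕ) = 2 * 2 by norm_num, pow_mul, qq_sq, Real.sq_sqrt (by norm_num)]

/-- sum over a level pair -/
lemma level_sum (n m : ℕ) (hnm : n ≤ m) (a c : ℕ → ℝ) (ha : ∀ i, 0 ≤ a i) (hc : ∀ j, 0 ≤ c j)
    (e : ℝ) :
    ∑ i ∈ Finset.range (2 ^ n), ∑ j ∈ Finset.range (2 ^ m),
      a i * c j * lam (8 * 2 ^ (m - n)) |(2 * (j : ℝ) + 1) - (2 * (i : ℝ) + e) * 2 ^ (m - n)|
      ≤ 20 * S0 * qq ^ (m - n) * 2 ^ (m : ℝ) *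
        √((1 / 2) ^ n * ∑ i ∈ Finset.range (2 ^ n), a i ^ 2) *
        √((1 / 2) ^ m * ∑ j ∈ Finset.range (2 ^ m), c j ^ 2) := by
  set K := m - n with hK
  have hmK : m = n + K := by omega
  have hS := S0_pos
  have h2K : (0 : ℝ) < 2 ^ K := by positivity
  have h1 := schur (Finset.range (2 ^ n)) (Finset.range (2 ^ m)) a c
    (fun i j => lam (8 * 2 ^ K) |(2 * (j : ℝ) + 1) - (2 * (i : ℝ) + e) * 2 ^ K|)
    (√(8 * 2 ^ K) * (2 * S0)) (32 * (2 * S0)) ha hc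
    (fun i j => by unfold lam; positivity)
    (fun i _ => by
      refine (Finset.sum_le_sum fun j _ => lam_row (by positivity) (abs_nonneg _)).trans ?_
      rw [← Finset.mul_sum]
      apply mul_le_mul_of_nonneg_left _ (Real.sqrt_nonneg _)
      have := sum_sg (2 ^ m) ((2 * (i : ℝ) + e) * 2 ^ K - 1)
      refine le_trans (le_of_eq ?_) this
      refine Finset.sum_congr rfl fun j _ => ?_
      congr 2
      ring)
    (fun j _ => by
      have h3 : ∀ i : ℕ, |(2 * (j : ℝ) + 1) - (2 * (i : ℝ) + e) * 2 ^ K|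
          = 2 ^ K * |2 * (i : ℝ) - ((2 * (j : ℝ) + 1) / 2 ^ K - e)| := by
        intro i
        rw [← abs_of_pos h2K, ← abs_mul, abs_of_pos h2K, abs_sub_comm]
        congr 1
        field_simp
        ring
      have h4 : ∑ i ∈ Finset.range (2 ^ n),
          lam (8 * 2 ^ K) |(2 * (j : ℝ) + 1) - (2 * (i : ℝ) + e) * 2 ^ K|
          ≤ ∑ i ∈ Finset.range (2 ^ n), 32 * sg |2 * (i : ℝ) - ((2 * (j : ℝ) + 1) / 2 ^ K - e)| := by
        apply Finset.sum_le_sum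
        intro i _
        rw [h3 i]
        exact lam_col K (abs_nonneg _)
      refine h4.trans ?_
      rw [← Finset.mul_sum]
      apply mul_le_mul_of_nonneg_left _ (by norm_num)
      exact sum_sg _ _)
  refine h1.trans ?_
  set X := ∑ i ∈ Finset.range (2 ^ n), a i ^ 2 with hX
  set Y := ∑ j ∈ Finset.range (2 ^ m), c j ^ 2 with hY
  have hX0 : 0 ≤ X := Finset.sum_nonneg fun i _ => by positivity
  have hY0 : 0 ≤ Y := Finset.sum_nonneg fun i _ => by positivity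
  have hRHS : 0 ≤ 20 * S0 * qq ^ K * 2 ^ (m : ℝ) * √((1 / 2) ^ n * X) * √((1 / 2) ^ m * Y) := by
    have := qq_nonneg
    positivity
  apply le_of_sq_le_sq _ hRHS
  rw [mul_pow, Real.sq_sqrt (by positivity), Real.sq_sqrt (by positivity)]
  rw [mul_pow, mul_pow, Real.sq_sqrt (by positivity), Real.sq_sqrt (by positivity)]
  rw [mul_pow, mul_pow, mul_pow, Real.rpow_natCast]
  -- √(8 2^K) ≤ 3 (√2)^K ; qq^(2K) 2^K = (√2)^K
  have hqK : (qq ^ K) ^ 2 * 2 ^ K = √(2 ^ K) := by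
    rw [← pow_mul, mul_comm K 2, pow_mul, qq_sq, ← mul_pow]
    have : √(1 / 2) * 2 = √2 := by
      have h5 : (2 : ℝ) = √2 * √2 := (Real.mul_self_sqrt (by norm_num)).symm
      rw [Real.sqrt_div (by norm_num), Real.sqrt_one]
      have h6 : √(2 : ℝ) ≠ 0 := by positivity
      field_simp
      rw [Real.sq_sqrt (by norm_num)]
    rw [this, Real.sqrt_eq_rpow, Real.sqrt_eq_rpow, ← Real.rpow_natCast, ← Real.rpow_natCast,
      ← Real.rpow_mul (by norm_num), ← Real.rpow_mul (by norm_num), mul_comm]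
  have h8 : √(8 * 2 ^ K) ≤ 3 * √(2 ^ K) := by
    rw [Real.sqrt_mul (by norm_num)]
    apply mul_le_mul_of_nonneg_right _ (Real.sqrt_nonneg _)
    rw [Real.sqrt_le_left (by norm_num)]
    norm_num
  have hhalf : ((1 : ℝ) / 2) ^ n * (1 / 2) ^ m * (2 ^ m) ^ 2 = 2 ^ K := by
    rw [hmK, pow_add, pow_add]
    rw [one_div, inv_pow, inv_pow]
    field_simp
  have key : √(8 * 2 ^ K) * (2 * S0) * X * (32 * (2 * S0) * Y)
      ≤ (3 * √(2 ^ K)) * (2 * S0) * X * (32 * (2 * S0) * Y) := by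
    gcongr
  refine key.trans ?_
  have e1 : 20 ^ 2 * S0 ^ 2 * (qq ^ K) ^ 2 * (2 ^ m) ^ 2 * ((1 / 2) ^ n * X) * ((1 / 2) ^ m * Y)
      = 400 * S0 ^ 2 * ((qq ^ K) ^ 2 * (((1 : ℝ) / 2) ^ n * (1 / 2) ^ m * (2 ^ m) ^ 2)) * X * Y := by
    ring
  rw [e1, hhalf, hqK]
  have e2 : 0 ≤ S0 ^ 2 * √(2 ^ K) * X * Y := by positivity
  nlinarith

end CJS
end Pool.Agent.Helper311.Nev
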