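import Mathlib
import Pool.Agent.Helper311.Nev.A2a

open MeasureTheory Set Filter Topology Metric
open scoped ENNReal NNReal

namespace Pool.Agent.Helper311.Nev

private theorem sf_sum2 (m : ℕ) (g : ℕ → ℝ) :
    ∑ j ∈ Finset.range (2 * m), g j = ∑ i ∈ Finset.range m, (g (2 * i) + g (2 * i + 1)) := by
  induction m with
  | zero => simp
  | succ k ih =>
    rw [show 2 * (k + 1) = 2 * k + 1 + 1 by ring, Finset.sum_range_succ, Finset.sum_range_succ,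
      Finset.sum_range_succ, ih]
    ring

private theorem sf_sum (n : ℕ) (g : ℕ → ℝ) :
    ∑ j ∈ Finset.range (2 ^ (n + 1)), g j
      = ∑ i ∈ Finset.range (2 ^ n), (g (2 * i) + g (2 * i + 1)) := by
  rw [pow_succ, mul_comm]; exact sf_sum2 _ g

private theorem sf_down (N : ℕ) (P : ℕ → ℕ → Prop) (hN : ∀ i < 2 ^ N, P N i)
    (hs : ∀ n < N, ∀ i < 2 ^ n, P (n + 1) (2 * i) → P (n + 1) (2 * i + 1) → P n i) :
    ∀ n ≤ N, ∀ i < 2 ^ n, P n i := by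
  intro n hn
  obtain ⟨k, rfl⟩ := Nat.exists_eq_add_of_le hn
  induction k generalizing n with
  | zero => simpa using hN
  | succ k ih =>
    intro i hi
    have e : n + (k + 1) = (n + 1) + k := by ring
    have h1 := ih (n + 1) (by rw [← e]; exact hN) (by rw [← e]; exact hs) (by omega)
    have hp : 2 ^ (n + 1) = 2 * 2 ^ n := by ring
    exact hs n (by omega) i hi (h1 _ (by omega)) (h1 _ (by omega))

private theorem sf_exists (N : ℕ) (c : ℕ → ℕ → ℝ) (g : ℕ → ℝ) :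
    ∃ A : ℕ → ℕ → ℝ, (∀ i, A N i = g i) ∧
      ∀ n < N, ∀ i, A n i = (A (n + 1) (2 * i) + A (n + 1) (2 * i + 1)) / 2 + c n i := by
  let R : ℕ → ℕ → ℝ := fun k => Nat.rec g (fun k r i => (r (2 * i) + r (2 * i + 1)) / 2 + c (N - (k + 1)) i) k
  refine ⟨fun n i => R (N - n) i, fun i => by simp [R], fun n hn i => ?_⟩
  have e : N - n = (N - (n + 1)) + 1 := by omega
  show R (N - n) i = (R (N - (n + 1)) (2 * i) + R (N - (n + 1)) (2 * i + 1)) / 2 + c n i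
  rw [e]
  show (R (N - (n + 1)) (2 * i) + R (N - (n + 1)) (2 * i + 1)) / 2
    + c (N - (N - (n + 1) + 1)) i = _
  congr 2
  omega

private theorem sf_bell (xl xr Gl Gr Al Ar c : ℝ) (hAl : 0 ≤ Al) (hAr : 0 ≤ Ar) (hc : 0 ≤ c)
    (hA : (Al + Ar) / 2 + c ≤ 1) :
    c * ((Gl + Gr) / 2) ^ 2 +
      (4 * (xl - Gl ^ 2 / (1 + Al)) + 4 * (xr - Gr ^ 2 / (1 + Ar))) / 2 ≤
      4 * ((xl + xr) / 2 - ((Gl + Gr) / 2) ^ 2 / (1 + ((Al + Ar) / 2 + c))) := by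
  set G := (Gl + Gr) / 2 with hG
  set A' := (Al + Ar) / 2 with hA'
  have h1 : 2 * (G ^ 2 / (1 + A')) ≤ Gl ^ 2 / (1 + Al) + Gr ^ 2 / (1 + Ar) := by
    have : 2 * (G ^ 2 / (1 + A')) = (Gl + Gr) ^ 2 / ((1 + Al) + (1 + Ar)) := by
      rw [hG, hA']; field_simp; ring
    rw [this, div_add_div _ _ (by positivity) (by positivity), div_le_div_iff₀ (by positivity) (by positivity)]
    nlinarith [sq_nonneg (Gl * (1 + Ar) - Gr * (1 + Al)), mul_nonneg hAl hAr]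
  have hA0 : 0 ≤ A' := by rw [hA']; positivity
  have h2 : c * G ^ 2 ≤ 4 * (G ^ 2 / (1 + A') - G ^ 2 / (1 + (A' + c))) := by
    have : 4 * (G ^ 2 / (1 + A') - G ^ 2 / (1 + (A' + c)))
        = 4 * (c * G ^ 2) / ((1 + A') * (1 + (A' + c))) := by
      field_simp; ring
    rw [this, le_div_iff₀ (by positivity)]
    have h3 : (1 + A') * (1 + (A' + c)) ≤ 4 := by nlinarith
    nlinarith [mul_nonneg hc (sq_nonneg G)]
  linarith

private theorem sf_par (u v : ℂ) : ‖u - v‖ ^ 2 / 4 + ‖(u + v) / 2‖ ^ 2 = (‖u‖ ^ 2 + ‖v‖ ^ 2) / 2 := by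
  have h := parallelogram_law_with_norm ℝ u v
  have h2 : ‖(u + v) / 2‖ = ‖u + v‖ / 2 := by simp
  rw [h2]
  nlinarith

private theorem sf_bessel (N : ℕ) (X : ℕ → ℕ → ℂ)
    (hX : ∀ n < N, ∀ i < 2 ^ n, X n i = (X (n + 1) (2 * i) + X (n + 1) (2 * i + 1)) / 2) :
    ∑ n ∈ Finset.range N, ∑ i ∈ Finset.range (2 ^ n),
      (1 / 2 : ℝ) ^ n * ‖X (n + 1) (2 * i) - X (n + 1) (2 * i + 1)‖ ^ 2
      ≤ 4 * ((1 / 2 : ℝ) ^ N * ∑ i ∈ Finset.range (2 ^ N), ‖X N i‖ ^ 2) := by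
  set Q : ℕ → ℝ := fun n => (1 / 2 : ℝ) ^ n * ∑ i ∈ Finset.range (2 ^ n), ‖X n i‖ ^ 2 with hQ
  have key : ∀ n < N, ∑ i ∈ Finset.range (2 ^ n),
      (1 / 2 : ℝ) ^ n * ‖X (n + 1) (2 * i) - X (n + 1) (2 * i + 1)‖ ^ 2 = 4 * Q (n + 1) - 4 * Q n := by
    intro n hn
    simp only [hQ]
    rw [sf_sum, Finset.mul_sum, Finset.mul_sum, Finset.mul_sum, Finset.mul_sum,
      ← Finset.sum_sub_distrib]
    refine Finset.sum_congr rfl fun i hi => ?_
    rw [Finset.mem_range] at hi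
    have h := sf_par (X (n + 1) (2 * i)) (X (n + 1) (2 * i + 1))
    rw [hX n hn i hi, pow_succ (1 / 2 : ℝ) n]
    have e : ‖X (n + 1) (2 * i) - X (n + 1) (2 * i + 1)‖ ^ 2 =
      2 * (‖X (n + 1) (2 * i)‖ ^ 2 + ‖X (n + 1) (2 * i + 1)‖ ^ 2) -
        4 * ‖(X (n + 1) (2 * i) + X (n + 1) (2 * i + 1)) / 2‖ ^ 2 := by linarith
    rw [e]; ring
  rw [Finset.sum_congr rfl (fun n hn => key n (Finset.mem_range.1 hn)),
    Finset.sum_range_sub (fun n => 4 * Q n)]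
  have : 0 ≤ Q 0 := by simp only [hQ]; positivity
  show 4 * Q N - 4 * Q 0 ≤ 4 * Q N
  linarith

/-- A1 -/
theorem square_fn :
    ∀ M : ℝ, 1 ≤ M → ∀ N : ℕ, ∀ b F : ℕ → ℕ → ℂ, ∀ f : ℕ → ℂ,
    (∀ n < N, ∀ i < 2 ^ n, b n i = b (n + 1) (2 * i) + b (n + 1) (2 * i + 1)) →
    (∀ n < N, ∀ i < 2 ^ n, F n i = F (n + 1) (2 * i) + F (n + 1) (2 * i + 1)) →
    (∀ i < 2 ^ N, (b N i).re = (1 / 2 : ℝ) ^ N) →
    (∀ i < 2 ^ N, ‖b N i‖ ≤ M * (1 / 2 : ℝ) ^ N) →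
    (∀ i < 2 ^ N, F N i = f i * b N i) →
    ∑ n ∈ Finset.range N, ∑ i ∈ Finset.range (2 ^ n),
      (1 / 2 : ℝ) ^ n * ‖F (n + 1) (2 * i) / b (n + 1) (2 * i)
        - F (n + 1) (2 * i + 1) / b (n + 1) (2 * i + 1)‖ ^ 2
      ≤ 200 * M ^ 4 * ∑ i ∈ Finset.range (2 ^ N), (1 / 2 : ℝ) ^ N * ‖f i‖ ^ 2 := by
  intro M hM N b F f hb hF hre hbM hFf
  have hM0 : 0 < M := by linarith
  set bt : ℕ → ℕ → ℂ := fun n i => 2 ^ n * b n i with hbt
  set Ft : ℕ → ℕ → ℂ := fun n i => 2 ^ n * F n i with hFt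
  have hbt1 : ∀ n < N, ∀ i < 2 ^ n, bt n i = (bt (n + 1) (2 * i) + bt (n + 1) (2 * i + 1)) / 2 := by
    intro n hn i hi
    simp only [hbt]; rw [hb n hn i hi]; ring
  have hFt1 : ∀ n < N, ∀ i < 2 ^ n, Ft n i = (Ft (n + 1) (2 * i) + Ft (n + 1) (2 * i + 1)) / 2 := by
    intro n hn i hi
    simp only [hFt]; rw [hF n hn i hi]; ring
  have hbtN : ∀ i < 2 ^ N, ‖bt N i‖ ≤ M := by
    intro i hi
    have := hbM i hi
    simp only [hbt, norm_mul, norm_pow, Complex.norm_ofNat]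
    calc (2 : ℝ) ^ N * ‖b N i‖ ≤ 2 ^ N * (M * (1 / 2 : ℝ) ^ N) := by gcongr
      _ = M * (2 * (1 / 2 : ℝ)) ^ N := by rw [mul_pow]; ring
      _ = M := by norm_num
  have hbtre : ∀ n ≤ N, ∀ i < 2 ^ n, (bt n i).re = 1 := by
    refine sf_down N _ ?_ ?_
    · intro i hi
      have h2 : bt N i = ((2 ^ N : ℝ) : ℂ) * b N i := by simp [hbt]
      rw [h2, Complex.re_ofReal_mul, hre i hi, ← mul_pow]; norm_num
    · intro n hn i hi h1 h2
      rw [hbt1 n hn i hi]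
      have : ((bt (n + 1) (2 * i) + bt (n + 1) (2 * i + 1)) / 2).re
        = ((bt (n + 1) (2 * i)).re + (bt (n + 1) (2 * i + 1)).re) / 2 := by simp
      rw [this, h1, h2]; norm_num
  have hbt_ge : ∀ n ≤ N, ∀ i < 2 ^ n, 1 ≤ ‖bt n i‖ := by
    intro n hn i hi
    calc (1 : ℝ) = |(bt n i).re| := by rw [hbtre n hn i hi]; simp
      _ ≤ ‖bt n i‖ := Complex.abs_re_le_norm _
  -- averages
  obtain ⟨G, hGN, hG⟩ := sf_exists N (fun _ _ => 0) (fun i => ‖Ft N i‖)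
  obtain ⟨x, hxN, hx⟩ := sf_exists N (fun _ _ => 0) (fun i => ‖Ft N i‖ ^ 2)
  set c : ℕ → ℕ → ℝ := fun n i => ‖bt (n + 1) (2 * i) - bt (n + 1) (2 * i + 1)‖ ^ 2 / (4 * M ^ 2) with hc
  obtain ⟨A, hAN, hA⟩ := sf_exists N c (fun _ => 0)
  have hc0 : ∀ n i, 0 ≤ c n i := fun n i => by simp only [hc]; positivity
  have hG0 : ∀ n ≤ N, ∀ i < 2 ^ n, 0 ≤ G n i := by
    refine sf_down N _ (fun i hi => by rw [hGN]; positivity) ?_
    intro n hn i hi h1 h2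
    rw [hG n hn i]; linarith
  have hGF : ∀ n ≤ N, ∀ i < 2 ^ n, ‖Ft n i‖ ≤ G n i := by
    refine sf_down N _ (fun i hi => by rw [hGN]) ?_
    intro n hn i hi h1 h2
    rw [hG n hn i, hFt1 n hn i hi]
    have h3 : ‖(Ft (n + 1) (2 * i) + Ft (n + 1) (2 * i + 1)) / 2‖
      = ‖Ft (n + 1) (2 * i) + Ft (n + 1) (2 * i + 1)‖ / 2 := by simp
    rw [h3]
    have := norm_add_le (Ft (n + 1) (2 * i)) (Ft (n + 1) (2 * i + 1))
    linarith
  have hA0 : ∀ n ≤ N, ∀ i < 2 ^ n, 0 ≤ A n i := by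
    refine sf_down N _ (fun i hi => by rw [hAN]) ?_
    intro n hn i hi h1 h2
    rw [hA n hn i]
    have := hc0 n i
    linarith
  have hA1 : ∀ n ≤ N, ∀ i < 2 ^ n, A n i + ‖bt n i‖ ^ 2 / M ^ 2 ≤ 1 := by
    refine sf_down N _ ?_ ?_
    · intro i hi
      rw [hAN, zero_add, div_le_one (by positivity)]
      exact pow_le_pow_left₀ (norm_nonneg _) (hbtN i hi) 2
    · intro n hn i hi h1 h2
      rw [hA n hn i, hbt1 n hn i hi]
      have h3 := sf_par (bt (n + 1) (2 * i)) (bt (n + 1) (2 * i + 1))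
      have h4 : c n i + ‖(bt (n + 1) (2 * i) + bt (n + 1) (2 * i + 1)) / 2‖ ^ 2 / M ^ 2
        = (‖bt (n + 1) (2 * i)‖ ^ 2 / M ^ 2 + ‖bt (n + 1) (2 * i + 1)‖ ^ 2 / M ^ 2) / 2 := by
        simp only [hc]
        have e5 : ‖bt (n + 1) (2 * i) - bt (n + 1) (2 * i + 1)‖ ^ 2 / (4 * M ^ 2)
            + ‖(bt (n + 1) (2 * i) + bt (n + 1) (2 * i + 1)) / 2‖ ^ 2 / M ^ 2
            = (‖bt (n + 1) (2 * i) - bt (n + 1) (2 * i + 1)‖ ^ 2 / 4
              + ‖(bt (n + 1) (2 * i) + bt (n + 1) (2 * i + 1)) / 2‖ ^ 2) / M ^ 2 := by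
          field_simp
        rw [e5, h3]
        ring
      linarith
  have hA1' : ∀ n ≤ N, ∀ i < 2 ^ n, A n i ≤ 1 := by
    intro n hn i hi
    have := hA1 n hn i hi
    have h2 : 0 ≤ ‖bt n i‖ ^ 2 / M ^ 2 := by positivity
    linarith
  set S : ℝ := ∑ i ∈ Finset.range (2 ^ N), (1 / 2 : ℝ) ^ N * ‖f i‖ ^ 2 with hS
  have hSb : (1 / 2 : ℝ) ^ N * ∑ i ∈ Finset.range (2 ^ N), ‖Ft N i‖ ^ 2 ≤ M ^ 2 * S := by
    rw [hS, Finset.mul_sum, Finset.mul_sum]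
    refine Finset.sum_le_sum fun i hi => ?_
    rw [Finset.mem_range] at hi
    have h1 : Ft N i = f i * bt N i := by
      simp only [hFt, hbt]; rw [hFf i hi]; ring
    rw [h1, norm_mul, mul_pow]
    have h2 : ‖bt N i‖ ^ 2 ≤ M ^ 2 := pow_le_pow_left₀ (norm_nonneg _) (hbtN i hi) 2
    calc (1 / 2 : ℝ) ^ N * (‖f i‖ ^ 2 * ‖bt N i‖ ^ 2) ≤ (1 / 2 : ℝ) ^ N * (‖f i‖ ^ 2 * M ^ 2) := by
          gcongr
      _ = _ := by ring
  -- x sums constant
  have hxs : ∀ n ≤ N, (1 / 2 : ℝ) ^ n * ∑ i ∈ Finset.range (2 ^ n), x n i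
      = (1 / 2 : ℝ) ^ N * ∑ i ∈ Finset.range (2 ^ N), x N i := by
    intro n hn
    obtain ⟨k, hk⟩ := Nat.exists_eq_add_of_le hn
    induction k generalizing n with
    | zero => simp only [add_zero] at hk; rw [hk]
    | succ k ih =>
      rw [← ih (n + 1) (by omega) (by omega), sf_sum, pow_succ, Finset.mul_sum, Finset.mul_sum]
      refine Finset.sum_congr rfl fun i hi => ?_
      rw [hx n (by omega) i]; ring
  -- Carleson
  set Phi : ℕ → ℝ := fun n => (1 / 2 : ℝ) ^ n * ∑ i ∈ Finset.range (2 ^ n),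
    4 * (x n i - (G n i) ^ 2 / (1 + A n i)) with hPhi
  have hstep : ∀ n < N, (∑ i ∈ Finset.range (2 ^ n), (1 / 2 : ℝ) ^ n * (c n i * (G n i) ^ 2))
      ≤ Phi n - Phi (n + 1) := by
    intro n hn
    simp only [hPhi]
    rw [sf_sum, Finset.mul_sum, Finset.mul_sum, ← Finset.sum_sub_distrib]
    refine Finset.sum_le_sum fun i hi => ?_
    rw [Finset.mem_range] at hi
    have hp : 2 ^ (n + 1) = 2 * 2 ^ n := by ring
    have hl := hA0 (n + 1) (by omega) (2 * i) (by omega)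
    have hr := hA0 (n + 1) (by omega) (2 * i + 1) (by omega)
    have hle := hA1' n hn.le i hi
    have hb := sf_bell (x (n + 1) (2 * i)) (x (n + 1) (2 * i + 1)) (G (n + 1) (2 * i))
      (G (n + 1) (2 * i + 1)) (A (n + 1) (2 * i)) (A (n + 1) (2 * i + 1)) (c n i) hl hr (hc0 n i)
      (by rw [← hA n hn i]; exact hle)
    rw [← hA n hn i] at hb
    have e1 : (G (n + 1) (2 * i) + G (n + 1) (2 * i + 1)) / 2 = G n i := by
      rw [hG n hn i]; ring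
    have e2 : (x (n + 1) (2 * i) + x (n + 1) (2 * i + 1)) / 2 = x n i := by
      rw [hx n hn i]; ring
    rw [e1, e2] at hb
    have hpos : (0 : ℝ) < (1 / 2 : ℝ) ^ n := by positivity
    rw [pow_succ (1 / 2 : ℝ) n]
    have := mul_le_mul_of_nonneg_left hb hpos.le
    linarith
  have hcarl : ∑ n ∈ Finset.range N, ∑ i ∈ Finset.range (2 ^ n),
      (1 / 2 : ℝ) ^ n * (c n i * (G n i) ^ 2) ≤ 4 * (M ^ 2 * S) := by
    calc _ ≤ ∑ n ∈ Finset.range N, (Phi n - Phi (n + 1)) :=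
          Finset.sum_le_sum fun n hn => hstep n (Finset.mem_range.1 hn)
      _ = Phi 0 - Phi N := Finset.sum_range_sub' _ _
      _ ≤ Phi 0 := by
          have : 0 ≤ Phi N := by
            simp only [hPhi]
            refine mul_nonneg (by positivity) (Finset.sum_nonneg fun i hi => ?_)
            rw [hAN, hxN, hGN]; simp
          linarith
      _ ≤ 4 * ((1 / 2 : ℝ) ^ 0 * ∑ i ∈ Finset.range (2 ^ 0), x 0 i) := by
          simp only [hPhi]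
          simp only [pow_zero, one_mul, Finset.sum_range_one]
          have h0 := hA0 0 (Nat.zero_le _) 0 (by norm_num)
          have : 0 ≤ (G 0 0) ^ 2 / (1 + A 0 0) := by positivity
          linarith
      _ = 4 * ((1 / 2 : ℝ) ^ N * ∑ i ∈ Finset.range (2 ^ N), x N i) := by
          rw [hxs 0 (Nat.zero_le _)]
      _ = 4 * ((1 / 2 : ℝ) ^ N * ∑ i ∈ Finset.range (2 ^ N), ‖Ft N i‖ ^ 2) := by
          simp only [hxN]
      _ ≤ _ := by linarith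
  have hbes := sf_bessel N Ft hFt1
  have hS0 : 0 ≤ S := by rw [hS]; positivity
  -- termwise
  have hterm : ∀ n < N, ∀ i < 2 ^ n,
      ‖F (n + 1) (2 * i) / b (n + 1) (2 * i) - F (n + 1) (2 * i + 1) / b (n + 1) (2 * i + 1)‖ ^ 2
      ≤ 2 * ‖Ft (n + 1) (2 * i) - Ft (n + 1) (2 * i + 1)‖ ^ 2 + 32 * M ^ 2 * (c n i * (G n i) ^ 2) := by
    intro n hn i hi
    have hp : 2 ^ (n + 1) = 2 * 2 ^ n := by ring
    have hl := hbt_ge (n + 1) (by omega) (2 * i) (by omega)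
    have hr := hbt_ge (n + 1) (by omega) (2 * i + 1) (by omega)
    have hl0 : bt (n + 1) (2 * i) ≠ 0 := by
      intro h; rw [h, norm_zero] at hl; linarith
    have hr0 : bt (n + 1) (2 * i + 1) ≠ 0 := by
      intro h; rw [h, norm_zero] at hr; linarith
    have q1 : F (n + 1) (2 * i) / b (n + 1) (2 * i) = Ft (n + 1) (2 * i) / bt (n + 1) (2 * i) := by
      simp only [hFt, hbt]
      rw [mul_div_mul_left _ _ (pow_ne_zero _ two_ne_zero)]
    have q2 : F (n + 1) (2 * i + 1) / b (n + 1) (2 * i + 1)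
        = Ft (n + 1) (2 * i + 1) / bt (n + 1) (2 * i + 1) := by
      simp only [hFt, hbt]
      rw [mul_div_mul_left _ _ (pow_ne_zero _ two_ne_zero)]
    rw [q1, q2]
    set u := Ft (n + 1) (2 * i)
    set v := Ft (n + 1) (2 * i + 1) with hv
    set p := bt (n + 1) (2 * i)
    set q := bt (n + 1) (2 * i + 1)
    have e : u / p - v / q = (u - v) / p + v * (q - p) / (p * q) := by
      field_simp; ring
    have n1 : ‖(u - v) / p‖ ≤ ‖u - v‖ := by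
      rw [norm_div]; exact div_le_self (norm_nonneg _) hl
    have n2 : ‖v * (q - p) / (p * q)‖ ≤ ‖v‖ * ‖p - q‖ := by
      rw [norm_div, norm_mul v, norm_mul p, norm_sub_rev p q]
      refine div_le_self (by positivity) ?_
      nlinarith
    have n3 : ‖u / p - v / q‖ ≤ ‖u - v‖ + ‖v‖ * ‖p - q‖ := by
      rw [e]; exact (norm_add_le _ _).trans (add_le_add n1 n2)
    have n4 : ‖u / p - v / q‖ ^ 2 ≤ 2 * ‖u - v‖ ^ 2 + 2 * (‖v‖ * ‖p - q‖) ^ 2 := by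
      calc _ ≤ (‖u - v‖ + ‖v‖ * ‖p - q‖) ^ 2 := pow_le_pow_left₀ (norm_nonneg _) n3 2
        _ ≤ _ := by nlinarith [sq_nonneg (‖u - v‖ - ‖v‖ * ‖p - q‖)]
    have n5 : ‖v‖ ≤ 2 * G n i := by
      have h1 := hGF (n + 1) (by omega) (2 * i + 1) (by omega)
      have h2 := hG0 (n + 1) (by omega) (2 * i) (by omega)
      have h3 := hG n hn i
      have h4 : ‖v‖ ≤ G (n + 1) (2 * i + 1) := h1
      linarith
    have n6 : ‖v‖ ^ 2 ≤ 4 * (G n i) ^ 2 := by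
      calc _ ≤ (2 * G n i) ^ 2 := pow_le_pow_left₀ (norm_nonneg _) n5 2
        _ = _ := by ring
    have n7 : ‖p - q‖ ^ 2 = 4 * M ^ 2 * c n i := by
      simp only [hc]; field_simp; rfl
    calc _ ≤ 2 * ‖u - v‖ ^ 2 + 2 * (‖v‖ * ‖p - q‖) ^ 2 := n4
      _ = 2 * ‖u - v‖ ^ 2 + 2 * (‖v‖ ^ 2 * ‖p - q‖ ^ 2) := by ring
      _ ≤ 2 * ‖u - v‖ ^ 2 + 2 * ((4 * (G n i) ^ 2) * ‖p - q‖ ^ 2) := by gcongr
      _ = _ := by rw [n7]; ring
  have hfin : ∑ n ∈ Finset.range N, ∑ i ∈ Finset.range (2 ^ n),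
      (1 / 2 : ℝ) ^ n * ‖F (n + 1) (2 * i) / b (n + 1) (2 * i)
        - F (n + 1) (2 * i + 1) / b (n + 1) (2 * i + 1)‖ ^ 2
      ≤ 2 * (∑ n ∈ Finset.range N, ∑ i ∈ Finset.range (2 ^ n),
      (1 / 2 : ℝ) ^ n * ‖Ft (n + 1) (2 * i) - Ft (n + 1) (2 * i + 1)‖ ^ 2) +
      32 * M ^ 2 * (∑ n ∈ Finset.range N, ∑ i ∈ Finset.range (2 ^ n),
      (1 / 2 : ℝ) ^ n * (c n i * (G n i) ^ 2)) := by
    rw [Finset.mul_sum, Finset.mul_sum, ← Finset.sum_add_distrib]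
    refine Finset.sum_le_sum fun n hn => ?_
    rw [Finset.mul_sum, Finset.mul_sum, ← Finset.sum_add_distrib]
    refine Finset.sum_le_sum fun i hi => ?_
    have hpos : (0 : ℝ) ≤ (1 / 2 : ℝ) ^ n := by positivity
    have := mul_le_mul_of_nonneg_left (hterm n (Finset.mem_range.1 hn) i (Finset.mem_range.1 hi)) hpos
    linarith
  have hM2 : M ^ 2 ≤ M ^ 4 := pow_le_pow_right₀ hM (by norm_num)
  have hM2' : 0 ≤ M ^ 2 := by positivity
  calc _ ≤ _ := hfin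
    _ ≤ 2 * (4 * (M ^ 2 * S)) + 32 * M ^ 2 * (4 * (M ^ 2 * S)) := by
        gcongr
        linarith
    _ = 8 * (M ^ 2 * S) + 128 * (M ^ 4 * S) := by ring
    _ ≤ 8 * (M ^ 4 * S) + 128 * (M ^ 4 * S) := by gcongr
    _ ≤ 200 * M ^ 4 * S := by
        have : 0 ≤ M ^ 4 * S := by positivity
        linarith

end Pool.Agent.Helper311.Nev

namespace Pool.Agent.Helper311.Nev
namespace CJS
variable (G : Gr)

noncomputable def kap (τ p1 p2 t1 t2 : ℝ) : ℂ :=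
  La (G.W τ p1 t2) - La (G.W τ p2 t2) - La (G.W τ p1 t1) + La (G.W τ p2 t1)

/-- dyadic version -/
noncomputable def kd (τ : ℝ) (n i m j : ℕ) : ℂ :=
  kap G τ ((i : ℝ) / 2 ^ n) (((i : ℝ) + 1) / 2 ^ n) ((j : ℝ) / 2 ^ m) (((j : ℝ) + 1) / 2 ^ m)

lemma W_symm (p t : ℝ) : G.W 1 p t = G.W (-1) t p := by
  unfold Gr.W
  push_cast
  ring

lemma kd_symm (n i m j : ℕ) : kd G 1 n i m j = kd G (-1) m j n i := by
  unfold kd kap
  simp only [W_symm G]
  ring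

lemma dy1 (n i : ℕ) : (((2 * i : ℕ) : ℝ)) / 2 ^ (n + 1) = (i : ℝ) / 2 ^ n := by
  push_cast; rw [pow_succ]; field_simp
lemma dy2 (n i : ℕ) : (((2 * i : ℕ) : ℝ) + 1) / 2 ^ (n + 1) = (i : ℝ) / 2 ^ n + 1 / 2 ^ (n + 1) := by
  push_cast; rw [pow_succ]; field_simp
lemma dy3 (n i : ℕ) : (((2 * i + 1 : ℕ) : ℝ)) / 2 ^ (n + 1) = (i : ℝ) / 2 ^ n + 1 / 2 ^ (n + 1) := by
  push_cast; rw [pow_succ]; field_simp
lemma dy4 (n i : ℕ) : (((2 * i + 1 : ℕ) : ℝ) + 1) / 2 ^ (n + 1) = ((i : ℝ) + 1) / 2 ^ n := by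
  push_cast; rw [pow_succ]; field_simp; ring
lemma dy5 (n i : ℕ) : ((i : ℝ) + 1) / 2 ^ n = (i : ℝ) / 2 ^ n + 2 * (1 / 2 ^ (n + 1)) := by
  rw [pow_succ]; field_simp

lemma kd_split1 (τ : ℝ) (n i m j : ℕ) :
    kd G τ n i m j = kd G τ (n + 1) (2 * i) m j + kd G τ (n + 1) (2 * i + 1) m j := by
  unfold kd
  rw [dy1, dy2, dy3, dy4]
  unfold kap
  ring

lemma kd_split2 (τ : ℝ) (n i m j : ℕ) :
    kd G τ n i m j = kd G τ n i (m + 1) (2 * j) + kd G τ n i (m + 1) (2 * j + 1) := by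
  unfold kd
  rw [dy1, dy2, dy3, dy4]
  unfold kap
  ring

lemma sum_double {E : Type*} [AddCommMonoid E] (N : ℕ) (g : ℕ → E) :
    ∑ i ∈ Finset.range (2 * N), g i = ∑ i ∈ Finset.range N, (g (2 * i) + g (2 * i + 1)) := by
  induction N with
  | zero => simp
  | succ N ih =>
    rw [show 2 * (N + 1) = 2 * N + 1 + 1 by ring, Finset.sum_range_succ, Finset.sum_range_succ, ih,
      Finset.sum_range_succ, add_assoc]

lemma sum_double' {E : Type*} [AddCommMonoid E] (n : ℕ) (g : ℕ → E) :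
    ∑ i ∈ Finset.range (2 ^ (n + 1)), g i
      = ∑ i ∈ Finset.range (2 ^ n), (g (2 * i) + g (2 * i + 1)) := by
  rw [pow_succ, mul_comm, sum_double]

/-- bilinear form at levels n, m -/
noncomputable def Bf (τ : ℝ) (n : ℕ) (w : ℕ → ℂ) (m : ℕ) (v : ℕ → ℂ) : ℂ :=
  ∑ i ∈ Finset.range (2 ^ n), ∑ j ∈ Finset.range (2 ^ m), w i * v j * kd G τ n i m j

lemma Bf_symm (n : ℕ) (w : ℕ → ℂ) (m : ℕ) (v : ℕ → ℂ) : Bf G 1 n w m v = Bf G (-1) m v n w := by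
  unfold Bf
  rw [Finset.sum_comm]
  refine Finset.sum_congr rfl fun j _ => Finset.sum_congr rfl fun i _ => ?_
  rw [kd_symm]; ring

lemma Bf_lift1 (τ : ℝ) (n : ℕ) (w : ℕ → ℂ) (m : ℕ) (v : ℕ → ℂ) :
    Bf G τ (n + 1) (fun i => w (i / 2)) m v = Bf G τ n w m v := by
  unfold Bf
  rw [sum_double']
  refine Finset.sum_congr rfl fun i _ => ?_
  rw [← Finset.sum_add_distrib]
  refine Finset.sum_congr rfl fun j _ => ?_
  rw [kd_split1 G τ n i m j]
  have h1 : 2 * i / 2 = i := by omega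
  have h2 : (2 * i + 1) / 2 = i := by omega
  simp only [h1, h2]
  ring

lemma Bf_lift2 (τ : ℝ) (n : ℕ) (w : ℕ → ℂ) (m : ℕ) (v : ℕ → ℂ) :
    Bf G τ n w (m + 1) (fun j => v (j / 2)) = Bf G τ n w m v := by
  unfold Bf
  refine Finset.sum_congr rfl fun i _ => ?_
  rw [sum_double']
  refine Finset.sum_congr rfl fun j _ => ?_
  rw [kd_split2 G τ n i m j]
  have h1 : 2 * j / 2 = j := by omega
  have h2 : (2 * j + 1) / 2 = j := by omega
  simp only [h1, h2]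
  ring

lemma Bf_liftk1 (τ : ℝ) (n : ℕ) (w : ℕ → ℂ) (m : ℕ) (v : ℕ → ℂ) (k : ℕ) :
    Bf G τ (n + k) (fun i => w (i / 2 ^ k)) m v = Bf G τ n w m v := by
  induction k with
  | zero => simp
  | succ k ih =>
    rw [← ih, ← Bf_lift1 G τ (n + k)]
    congr 1
    funext i
    rw [Nat.div_div_eq_div_mul, pow_succ, mul_comm]

lemma Bf_liftk2 (τ : ℝ) (n : ℕ) (w : ℕ → ℂ) (m : ℕ) (v : ℕ → ℂ) (k : ℕ) :
    Bf G τ n w (m + k) (fun i => v (i / 2 ^ k)) = Bf G τ n w m v := by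
  induction k with
  | zero => simp
  | succ k ih =>
    rw [← ih, ← Bf_lift2 G τ n w (m + k)]
    congr 1
    funext i
    rw [Nat.div_div_eq_div_mul, pow_succ, mul_comm]

/-- increments of z -/
noncomputable def bt (n i : ℕ) : ℂ := G.z (((i : ℝ) + 1) / 2 ^ n) - G.z ((i : ℝ) / 2 ^ n)

lemma bt_split (n i : ℕ) : bt G n i = bt G (n + 1) (2 * i) + bt G (n + 1) (2 * i + 1) := by
  unfold bt
  rw [dy1, dy2, dy3, dy4]
  ring

lemma bt_re (n i : ℕ) : (bt G n i).re = (1 / 2 : ℝ) ^ n := by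
  unfold bt Gr.z
  simp only [Complex.sub_re]
  rw [one_div, inv_pow]
  field_simp
  ring

lemma bt_norm (n i : ℕ) : ‖bt G n i‖ ≤ 2 * G.M * (1 / 2 : ℝ) ^ n := by
  unfold bt
  refine (G.z_lip _ _).trans (le_of_eq ?_)
  have : (((i : ℝ) + 1) / 2 ^ n) - ((i : ℝ) / 2 ^ n) = (1 / 2 : ℝ) ^ n := by
    rw [one_div, inv_pow]; field_simp; ring
  rw [this, abs_of_pos (by positivity)]

lemma entry_eq (τ : ℝ) (n m i j : ℕ) (w v : ℕ → ℂ) :
    (w (2 * i) * v (2 * j) * kd G τ (n + 1) (2 * i) (m + 1) (2 * j)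
      + w (2 * i) * v (2 * j + 1) * kd G τ (n + 1) (2 * i) (m + 1) (2 * j + 1))
    + (w (2 * i + 1) * v (2 * j) * kd G τ (n + 1) (2 * i + 1) (m + 1) (2 * j)
      + w (2 * i + 1) * v (2 * j + 1) * kd G τ (n + 1) (2 * i + 1) (m + 1) (2 * j + 1))
    = w (2 * i) * (Psi G τ ((j : ℝ) / 2 ^ m) (1 / 2 ^ (m + 1)) (v (2 * j)) (v (2 * j + 1))
          ((i : ℝ) / 2 ^ n)
        - Psi G τ ((j : ℝ) / 2 ^ m) (1 / 2 ^ (m + 1)) (v (2 * j)) (v (2 * j + 1))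
          ((i : ℝ) / 2 ^ n + 1 / 2 ^ (n + 1)))
      + w (2 * i + 1) * (Psi G τ ((j : ℝ) / 2 ^ m) (1 / 2 ^ (m + 1)) (v (2 * j)) (v (2 * j + 1))
          ((i : ℝ) / 2 ^ n + 1 / 2 ^ (n + 1))
        - Psi G τ ((j : ℝ) / 2 ^ m) (1 / 2 ^ (m + 1)) (v (2 * j)) (v (2 * j + 1))
          ((i : ℝ) / 2 ^ n + 2 * (1 / 2 ^ (n + 1)))) := by
  unfold kd
  rw [dy1, dy2, dy3, dy4, dy1, dy2, dy3, dy4, dy5 n i, dy5 m j]
  unfold kap Psi
  ring

lemma LP {τ : ℝ} (hτ : τ = 1 ∨ τ = -1) (n m : ℕ) (hnm : n ≤ m) (w v : ℕ → ℂ) (a c : ℕ → ℝ)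
    (ha : ∀ i, 0 ≤ a i) (hc : ∀ j, 0 ≤ c j)
    (hw : ∀ i, ‖w (2 * i)‖ ≤ a i ∧ ‖w (2 * i + 1)‖ ≤ a i)
    (hv : ∀ j, ‖v (2 * j)‖ ≤ c j ∧ ‖v (2 * j + 1)‖ ≤ c j)
    (hcan : ∀ j, v (2 * j) * bt G (m + 1) (2 * j) + v (2 * j + 1) * bt G (m + 1) (2 * j + 1) = 0) :
    ‖Bf G τ (n + 1) w (m + 1) v‖ ≤ 60000 * S0 * G.M ^ 3 * qq ^ (m - n) *
      √((1 / 2) ^ n * ∑ i ∈ Finset.range (2 ^ n), a i ^ 2) *
      √((1 / 2) ^ m * ∑ j ∈ Finset.range (2 ^ m), c j ^ 2) := by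
  have hM := G.hM
  set δ : ℝ := 1 / 2 ^ (m + 1) with hδ
  set Δ : ℝ := 1 / 2 ^ (n + 1) with hΔ
  have hδ0 : 0 < δ := by positivity
  have hΔ0 : 0 < Δ := by positivity
  have hmK : m = n + (m - n) := by omega
  have hratio : Δ = 2 ^ (m - n) * δ := by
    rw [hδ, hΔ]
    have : (2 : ℝ) ^ (m + 1) = 2 ^ (m - n) * 2 ^ (n + 1) := by
      rw [← pow_add]; congr 1; omega
    rw [this]; field_simp
  have h2K : (1 : ℝ) ≤ 2 ^ (m - n) := one_le_pow₀ (by norm_num)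
  have hδΔ : δ ≤ Δ := by rw [hratio]; nlinarith
  have hT : 8 * Δ / δ = 8 * 2 ^ (m - n) := by rw [hratio]; field_simp
  have hexp : Bf G τ (n + 1) w (m + 1) v
      = ∑ i ∈ Finset.range (2 ^ n), ∑ j ∈ Finset.range (2 ^ m),
        (w (2 * i) * (Psi G τ ((j : ℝ) / 2 ^ m) δ (v (2 * j)) (v (2 * j + 1)) ((i : ℝ) / 2 ^ n)
        - Psi G τ ((j : ℝ) / 2 ^ m) δ (v (2 * j)) (v (2 * j + 1)) ((i : ℝ) / 2 ^ n + Δ))
      + w (2 * i + 1) * (Psi G τ ((j : ℝ) / 2 ^ m) δ (v (2 * j)) (v (2 * j + 1))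
          ((i : ℝ) / 2 ^ n + Δ)
        - Psi G τ ((j : ℝ) / 2 ^ m) δ (v (2 * j)) (v (2 * j + 1))
          ((i : ℝ) / 2 ^ n + 2 * Δ))) := by
    unfold Bf
    rw [sum_double']
    refine Finset.sum_congr rfl fun i _ => ?_
    rw [sum_double', sum_double', ← Finset.sum_add_distrib]
    refine Finset.sum_congr rfl fun j _ => ?_
    exact entry_eq G τ n m i j w v
  have hs : ∀ (i j : ℕ) (e : ℝ), |((j : ℝ) / 2 ^ m + δ) - ((i : ℝ) / 2 ^ n + e * Δ)| / δ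
      = |(2 * (j : ℝ) + 1) - (2 * (i : ℝ) + e) * 2 ^ (m - n)| := by
    intro i j e
    rw [← abs_of_pos hδ0, ← abs_div, abs_of_pos hδ0]
    congr 1
    have e1 : (j : ℝ) / 2 ^ m = 2 * j * δ := by rw [hδ, pow_succ]; field_simp
    have e2 : (i : ℝ) / 2 ^ n = 2 * i * Δ := by rw [hΔ, pow_succ]; field_simp
    rw [e1, e2, hratio]
    field_simp
  have hentry : ∀ i j : ℕ,
      ‖w (2 * i) * (Psi G τ ((j : ℝ) / 2 ^ m) δ (v (2 * j)) (v (2 * j + 1)) ((i : ℝ) / 2 ^ n)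
        - Psi G τ ((j : ℝ) / 2 ^ m) δ (v (2 * j)) (v (2 * j + 1)) ((i : ℝ) / 2 ^ n + Δ))
      + w (2 * i + 1) * (Psi G τ ((j : ℝ) / 2 ^ m) δ (v (2 * j)) (v (2 * j + 1))
          ((i : ℝ) / 2 ^ n + Δ)
        - Psi G τ ((j : ℝ) / 2 ^ m) δ (v (2 * j)) (v (2 * j + 1))
          ((i : ℝ) / 2 ^ n + 2 * Δ))‖
      ≤ 2000 * G.M ^ 3 * δ *
        (a i * c j * lam (8 * 2 ^ (m - n)) |(2 * (j : ℝ) + 1) - (2 * (i : ℝ) + 0) * 2 ^ (m - n)|
        + a i * c j * lam (8 * 2 ^ (m - n)) |(2 * (j : ℝ) + 1) - (2 * (i : ℝ) + 1) * 2 ^ (m - n)|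
        + a i * c j * lam (8 * 2 ^ (m - n))
            |(2 * (j : ℝ) + 1) - (2 * (i : ℝ) + 2) * 2 ^ (m - n)|) := by
    intro i j
    have hcan' : v (2 * j) * (G.z ((j : ℝ) / 2 ^ m + δ) - G.z ((j : ℝ) / 2 ^ m))
        + v (2 * j + 1) * (G.z ((j : ℝ) / 2 ^ m + 2 * δ) - G.z ((j : ℝ) / 2 ^ m + δ)) = 0 := by
      have h3 := hcan j
      unfold bt at h3
      rw [dy1, dy2, dy3, dy4, dy5] at h3
      exact h3
    have h4 := entry_bound G hτ ((i : ℝ) / 2 ^ n) Δ ((j : ℝ) / 2 ^ m) δ (c j) (a i)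
      (v (2 * j)) (v (2 * j + 1)) (w (2 * i)) (w (2 * i + 1)) hδ0 hδΔ (hc j) (ha i)
      (hv j).1 (hv j).2 (hw i).1 (hw i).2 hcan'
    refine h4.trans (le_of_eq ?_)
    rw [← hs i j 0, ← hs i j 1, ← hs i j 2, hT, zero_mul, add_zero, one_mul]
    ring
  rw [hexp]
  refine (norm_sum_le _ _).trans ?_
  refine (Finset.sum_le_sum fun i _ => (norm_sum_le _ _).trans
    (Finset.sum_le_sum fun j _ => hentry i j)).trans ?_
  simp_rw [← Finset.mul_sum, Finset.sum_add_distrib]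
  have l0 := level_sum n m hnm a c ha hc 0
  have l1 := level_sum n m hnm a c ha hc 1
  have l2 := level_sum n m hnm a c ha hc 2
  have hM3 : 0 ≤ 2000 * G.M ^ 3 * δ := by positivity
  refine (mul_le_mul_of_nonneg_left (add_le_add (add_le_add l0 l1) l2) hM3).trans (le_of_eq ?_)
  rw [hδ, Real.rpow_natCast, pow_succ]
  field_simp
  ring

end CJS
end Pool.Agent.Helper311.Nev

namespace Pool.Agent.Helper311.Nev
namespace CJS
variable (G : Gr)

/-- sums over descendants of leaf data -/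
noncomputable def Tk (N : ℕ) (u : ℕ → ℂ) : ℕ → ℕ → ℂ
  | 0, i => u i * bt G N i
  | (k + 1), i => Tk N u k (2 * i) + Tk N u k (2 * i + 1)

noncomputable def Sn (N : ℕ) (u : ℕ → ℂ) (n i : ℕ) : ℂ := Tk G N u (N - n) i

/-- weighted averages -/
noncomputable def En (N : ℕ) (u : ℕ → ℂ) (n i : ℕ) : ℂ := Sn G N u n i / bt G n i

/-- martingale differences -/
noncomputable def dn (N : ℕ) (u : ℕ → ℂ) (n i : ℕ) : ℂ := En G N u (n + 1) i - En G N u n (i / 2)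

lemma bt_norm_ge (n i : ℕ) : (1 / 2 : ℝ) ^ n ≤ ‖bt G n i‖ := by
  have h1 := Complex.abs_re_le_norm (bt G n i)
  rw [bt_re, abs_of_pos (by positivity)] at h1
  exact h1

lemma bt_ne (n i : ℕ) : bt G n i ≠ 0 := by
  have h1 := bt_norm_ge G n i
  have h2 : (0 : ℝ) < (1 / 2) ^ n := by positivity
  exact norm_pos_iff.1 (by linarith)

lemma Sn_split (N : ℕ) (u : ℕ → ℂ) (n i : ℕ) (hn : n < N) :
    Sn G N u n i = Sn G N u (n + 1) (2 * i) + Sn G N u (n + 1) (2 * i + 1) := by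
  unfold Sn
  have : N - n = (N - (n + 1)) + 1 := by omega
  rw [this]
  rfl

lemma En_leaf (N : ℕ) (u : ℕ → ℂ) (i : ℕ) : En G N u N i = u i := by
  unfold En Sn
  rw [Nat.sub_self]
  simp only [Tk]
  rw [mul_div_assoc, div_self (bt_ne G N i), mul_one]

lemma telescope (N : ℕ) (u : ℕ → ℂ) (i : ℕ) :
    u i = En G N u 0 (i / 2 ^ N)
      + ∑ n ∈ Finset.range N, dn G N u n (i / 2 ^ (N - (n + 1))) := by
  have h1 : ∑ n ∈ Finset.range N, dn G N u n (i / 2 ^ (N - (n + 1)))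
      = ∑ n ∈ Finset.range N, (En G N u (n + 1) (i / 2 ^ (N - (n + 1)))
        - En G N u n (i / 2 ^ (N - n))) := by
    refine Finset.sum_congr rfl fun n hn => ?_
    rw [Finset.mem_range] at hn
    unfold dn
    congr 2
    rw [Nat.div_div_eq_div_mul, ← pow_succ]
    congr 2
    omega
  rw [h1, Finset.sum_range_sub (fun n => En G N u n (i / 2 ^ (N - n)))]
  simp [En_leaf]

lemma Bf_lin1 (τ : ℝ) (n : ℕ) (w0 : ℕ → ℂ) (s : Finset ℕ) (wk : ℕ → ℕ → ℂ) (m : ℕ) (v : ℕ → ℂ) :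
    Bf G τ n (fun i => w0 i + ∑ k ∈ s, wk k i) m v
      = Bf G τ n w0 m v + ∑ k ∈ s, Bf G τ n (wk k) m v := by
  unfold Bf
  rw [Finset.sum_comm (s := s), ← Finset.sum_add_distrib]
  refine Finset.sum_congr rfl fun i _ => ?_
  rw [Finset.sum_comm (s := s), ← Finset.sum_add_distrib]
  refine Finset.sum_congr rfl fun j _ => ?_
  rw [add_mul, add_mul, Finset.sum_mul, Finset.sum_mul]

lemma Bf_lin2 (τ : ℝ) (n : ℕ) (w : ℕ → ℂ) (m : ℕ) (v0 : ℕ → ℂ) (s : Finset ℕ)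
    (vk : ℕ → ℕ → ℂ) :
    Bf G τ n w m (fun i => v0 i + ∑ k ∈ s, vk k i)
      = Bf G τ n w m v0 + ∑ k ∈ s, Bf G τ n w m (vk k) := by
  unfold Bf
  rw [Finset.sum_comm (s := s), ← Finset.sum_add_distrib]
  refine Finset.sum_congr rfl fun i _ => ?_
  rw [Finset.sum_comm (s := s), ← Finset.sum_add_distrib]
  refine Finset.sum_congr rfl fun j _ => ?_
  rw [mul_add, add_mul, Finset.mul_sum, Finset.sum_mul]

lemma Bf_exp1 (τ : ℝ) (N : ℕ) (g : ℕ → ℂ) (m : ℕ) (v : ℕ → ℂ) :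
    Bf G τ N g m v = Bf G τ 0 (En G N g 0) m v
      + ∑ n ∈ Finset.range N, Bf G τ (n + 1) (dn G N g n) m v := by
  have h1 : Bf G τ N g m v = Bf G τ N (fun i => En G N g 0 (i / 2 ^ N)
      + ∑ n ∈ Finset.range N, dn G N g n (i / 2 ^ (N - (n + 1)))) m v := by
    congr 1
    funext i
    exact telescope G N g i
  rw [h1, Bf_lin1 G τ N _ _ (fun n i => dn G N g n (i / 2 ^ (N - (n + 1))))]
  congr 1
  · have := Bf_liftk1 G τ 0 (En G N g 0) m v N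
    rw [zero_add] at this
    exact this
  · refine Finset.sum_congr rfl fun n hn => ?_
    rw [Finset.mem_range] at hn
    have := Bf_liftk1 G τ (n + 1) (dn G N g n) m v (N - (n + 1))
    rw [show n + 1 + (N - (n + 1)) = N by omega] at this
    exact this

lemma Bf_exp2 (τ : ℝ) (n : ℕ) (w : ℕ → ℂ) (N : ℕ) (f : ℕ → ℂ) :
    Bf G τ n w N f = Bf G τ n w 0 (En G N f 0)
      + ∑ m ∈ Finset.range N, Bf G τ n w (m + 1) (dn G N f m) := by
  have h1 : Bf G τ n w N f = Bf G τ n w N (fun i => En G N f 0 (i / 2 ^ N)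
      + ∑ m ∈ Finset.range N, dn G N f m (i / 2 ^ (N - (m + 1)))) := by
    congr 1
    funext i
    exact telescope G N f i
  rw [h1, Bf_lin2 G τ n w N _ _ (fun m i => dn G N f m (i / 2 ^ (N - (m + 1))))]
  congr 1
  · have := Bf_liftk2 G τ n w 0 (En G N f 0) N
    rw [zero_add] at this
    exact this
  · refine Finset.sum_congr rfl fun m hm => ?_
    rw [Finset.mem_range] at hm
    have := Bf_liftk2 G τ n w (m + 1) (dn G N f m) (N - (m + 1))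
    rw [show m + 1 + (N - (m + 1)) = N by omega] at this
    exact this

/-- size of the differences -/
noncomputable def Dd (N : ℕ) (u : ℕ → ℂ) (n i : ℕ) : ℝ :=
  ‖En G N u (n + 1) (2 * i) - En G N u (n + 1) (2 * i + 1)‖

noncomputable def Qn (N : ℕ) (u : ℕ → ℂ) (n : ℕ) : ℝ :=
  √((1 / 2) ^ n * ∑ i ∈ Finset.range (2 ^ n), Dd G N u n i ^ 2)

lemma dn_cancel (N : ℕ) (u : ℕ → ℂ) (n j : ℕ) (hn : n < N) :
    dn G N u n (2 * j) * bt G (n + 1) (2 * j) + dn G N u n (2 * j + 1) * bt G (n + 1) (2 * j + 1)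
      = 0 := by
  unfold dn
  have h1 : 2 * j / 2 = j := by omega
  have h2 : (2 * j + 1) / 2 = j := by omega
  rw [h1, h2]
  have e1 : En G N u (n + 1) (2 * j) * bt G (n + 1) (2 * j) = Sn G N u (n + 1) (2 * j) := by
    unfold En; rw [div_mul_cancel₀ _ (bt_ne G _ _)]
  have e2 : En G N u (n + 1) (2 * j + 1) * bt G (n + 1) (2 * j + 1)
      = Sn G N u (n + 1) (2 * j + 1) := by
    unfold En; rw [div_mul_cancel₀ _ (bt_ne G _ _)]
  have e3 : En G N u n j * bt G n j = Sn G N u n j := by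
    unfold En; rw [div_mul_cancel₀ _ (bt_ne G _ _)]
  have e4 := Sn_split G N u n j hn
  have e5 := bt_split G n j
  rw [e5] at e3
  linear_combination e1 + e2 - e3 - e4

lemma dn_bound (N : ℕ) (u : ℕ → ℂ) (n j : ℕ) (hn : n < N) :
    ‖dn G N u n (2 * j)‖ ≤ G.M * Dd G N u n j ∧ ‖dn G N u n (2 * j + 1)‖ ≤ G.M * Dd G N u n j := by
  have hM := G.hM
  have hc := dn_cancel G N u n j hn
  have hd : dn G N u n (2 * j) - dn G N u n (2 * j + 1)
      = En G N u (n + 1) (2 * j) - En G N u (n + 1) (2 * j + 1) := by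
    unfold dn
    have h1 : 2 * j / 2 = j := by omega
    have h2 : (2 * j + 1) / 2 = j := by omega
    rw [h1, h2]; ring
  set X := dn G N u n (2 * j)
  set Y := dn G N u n (2 * j + 1)
  set βl := bt G (n + 1) (2 * j)
  set βr := bt G (n + 1) (2 * j + 1)
  have hβ : bt G n j = βl + βr := bt_split G n j
  have hb1 : (1 / 2 : ℝ) ^ n ≤ ‖βl + βr‖ := by rw [← hβ]; exact bt_norm_ge G n j
  have hl : ‖βl‖ ≤ G.M * (1 / 2 : ℝ) ^ n := by
    refine (bt_norm G (n + 1) (2 * j)).trans (le_of_eq ?_)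
    rw [pow_succ]; ring
  have hr : ‖βr‖ ≤ G.M * (1 / 2 : ℝ) ^ n := by
    refine (bt_norm G (n + 1) (2 * j + 1)).trans (le_of_eq ?_)
    rw [pow_succ]; ring
  have hDd : Dd G N u n j = ‖X - Y‖ := by unfold Dd; rw [hd]
  rw [hDd]
  have hpos : (0 : ℝ) < (1 / 2) ^ n := by positivity
  constructor
  · have h1 : X * (βl + βr) = (X - Y) * βr := by linear_combination hc
    have h2 : ‖X‖ * ‖βl + βr‖ = ‖X - Y‖ * ‖βr‖ := by rw [← norm_mul, h1, norm_mul]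
    have h3 : ‖X‖ * (1 / 2 : ℝ) ^ n ≤ ‖X - Y‖ * (G.M * (1 / 2 : ℝ) ^ n) := by
      calc ‖X‖ * (1 / 2 : ℝ) ^ n ≤ ‖X‖ * ‖βl + βr‖ := mul_le_mul_of_nonneg_left hb1 (norm_nonneg _)
        _ = ‖X - Y‖ * ‖βr‖ := h2
        _ ≤ _ := mul_le_mul_of_nonneg_left hr (norm_nonneg _)
    have h4 : ‖X‖ * (1 / 2 : ℝ) ^ n ≤ (G.M * ‖X - Y‖) * (1 / 2 : ℝ) ^ n := by
      refine h3.trans (le_of_eq (by ring))
    exact le_of_mul_le_mul_right h4 hpos
  · have h1 : Y * (βl + βr) = -((X - Y) * βl) := by linear_combination hc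
    have h2 : ‖Y‖ * ‖βl + βr‖ = ‖X - Y‖ * ‖βl‖ := by
      rw [← norm_mul, h1, norm_neg, norm_mul]
    have h3 : ‖Y‖ * (1 / 2 : ℝ) ^ n ≤ ‖X - Y‖ * (G.M * (1 / 2 : ℝ) ^ n) := by
      calc ‖Y‖ * (1 / 2 : ℝ) ^ n ≤ ‖Y‖ * ‖βl + βr‖ := mul_le_mul_of_nonneg_left hb1 (norm_nonneg _)
        _ = ‖X - Y‖ * ‖βl‖ := h2
        _ ≤ _ := mul_le_mul_of_nonneg_left hl (norm_nonneg _)
    have h4 : ‖Y‖ * (1 / 2 : ℝ) ^ n ≤ (G.M * ‖X - Y‖) * (1 / 2 : ℝ) ^ n := by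
      refine h3.trans (le_of_eq (by ring))
    exact le_of_mul_le_mul_right h4 hpos

lemma sqrt_scale (n : ℕ) (M : ℝ) (hM : 0 ≤ M) (D : ℕ → ℝ) :
    √((1 / 2) ^ n * ∑ i ∈ Finset.range (2 ^ n), (M * D i) ^ 2)
      = M * √((1 / 2) ^ n * ∑ i ∈ Finset.range (2 ^ n), D i ^ 2) := by
  have h1 : (1 / 2 : ℝ) ^ n * ∑ i ∈ Finset.range (2 ^ n), (M * D i) ^ 2
      = M ^ 2 * ((1 / 2) ^ n * ∑ i ∈ Finset.range (2 ^ n), D i ^ 2) := by
    rw [Finset.mul_sum, Finset.mul_sum, Finset.mul_sum]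
    refine Finset.sum_congr rfl fun i _ => ?_
    ring
  rw [h1, Real.sqrt_mul (by positivity), Real.sqrt_sq hM]

lemma LP_dd {τ : ℝ} (hτ : τ = 1 ∨ τ = -1) (N : ℕ) (g f : ℕ → ℂ) (n m : ℕ) (hnm : n ≤ m)
    (hm : m < N) :
    ‖Bf G τ (n + 1) (dn G N g n) (m + 1) (dn G N f m)‖
      ≤ 60000 * S0 * G.M ^ 5 * qq ^ (m - n) * Qn G N g n * Qn G N f m := by
  have hM := G.hM
  have hM0 : 0 ≤ G.M := by linarith
  have h1 := LP G hτ n m hnm (dn G N g n) (dn G N f m) (fun i => G.M * Dd G N g n i)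
    (fun i => G.M * Dd G N f m i) (fun i => mul_nonneg hM0 (norm_nonneg _))
    (fun i => mul_nonneg hM0 (norm_nonneg _)) (fun i => dn_bound G N g n i (by omega))
    (fun i => dn_bound G N f m i hm) (fun j => dn_cancel G N f m j hm)
  rw [sqrt_scale n G.M hM0, sqrt_scale m G.M hM0] at h1
  refine h1.trans (le_of_eq ?_)
  unfold Qn
  ring

lemma LP_ed {τ : ℝ} (hτ : τ = 1 ∨ τ = -1) (N : ℕ) (e : ℕ → ℂ) (f : ℕ → ℂ) (m : ℕ) (hm : m < N) :
    ‖Bf G τ 0 e (m + 1) (dn G N f m)‖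
      ≤ 60000 * S0 * G.M ^ 4 * qq ^ m * ‖e 0‖ * Qn G N f m := by
  have hM := G.hM
  have hM0 : 0 ≤ G.M := by linarith
  have h1 := LP G hτ 0 m (Nat.zero_le _) (fun i => e (i / 2)) (dn G N f m) (fun i => ‖e i‖)
    (fun i => G.M * Dd G N f m i) (fun i => norm_nonneg _)
    (fun i => mul_nonneg hM0 (norm_nonneg _)) (fun i => by
      have h1 : 2 * i / 2 = i := by omega
      have h2 : (2 * i + 1) / 2 = i := by omega
      simp only [h1, h2]
      exact ⟨le_refl _, le_refl _⟩)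
    (fun i => dn_bound G N f m i hm) (fun j => dn_cancel G N f m j hm)
  rw [sqrt_scale m G.M hM0, Bf_lift1] at h1
  refine h1.trans (le_of_eq ?_)
  have h2 : √((1 / 2) ^ 0 * ∑ i ∈ Finset.range (2 ^ 0), ‖e i‖ ^ 2) = ‖e 0‖ := by
    simp
  rw [h2, Nat.sub_zero]
  unfold Qn
  ring

lemma kd_top : ‖kd G 1 0 0 0 0‖ ≤ 312 * G.M ^ 3 := by
  have hM := G.hM
  have hτ : (1 : ℝ) = 1 ∨ (1 : ℝ) = -1 := Or.inl rfl
  have hM2 : 1 ≤ G.M ^ 2 := one_le_pow₀ hM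
  have hM23 : G.M ^ 2 ≤ G.M ^ 3 := pow_le_pow_right₀ hM (by norm_num)
  have hdef : kd G 1 0 0 0 0 = kap G 1 0 1 0 1 := by
    unfold kd; simp
  rw [hdef]
  unfold kap
  rcases lt_or_ge G.h 1 with hh | hh
  · have key : ∀ p t : ℝ, |t - p| ≤ 1 → ‖G.W 1 p t * (Lg (G.W 1 p t) - (Real.log 1 : ℂ))‖
        ≤ 78 * G.M ^ 2 * 1 := by
      intro p t hpt
      apply near_term one_pos hM (G.W_pos hτ p t)
      have h1 := G.N3 hτ p t
      nlinarith
    have k1 := key 0 1 (by norm_num)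
    have k2 := key 1 1 (by norm_num)
    have k3 := key 0 0 (by norm_num)
    have k4 := key 1 0 (by norm_num)
    simp only [Real.log_one, Complex.ofReal_zero, sub_zero, mul_one] at k1 k2 k3 k4
    have hexp : La (G.W 1 0 1) - La (G.W 1 1 1) - La (G.W 1 0 0) + La (G.W 1 1 0)
        = G.W 1 0 1 * Lg (G.W 1 0 1) - G.W 1 1 1 * Lg (G.W 1 1 1) - G.W 1 0 0 * Lg (G.W 1 0 0)
          + G.W 1 1 0 * Lg (G.W 1 1 0) := by
      unfold La
      have : G.W 1 0 1 - G.W 1 1 1 - G.W 1 0 0 + G.W 1 1 0 = 0 := by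
        unfold Gr.W; push_cast; ring
      linear_combination -this
    rw [hexp]
    refine (norm_add_le _ _).trans ?_
    have a1 := norm_sub_le (G.W 1 0 1 * Lg (G.W 1 0 1) - G.W 1 1 1 * Lg (G.W 1 1 1))
      (G.W 1 0 0 * Lg (G.W 1 0 0))
    have a2 := norm_sub_le (G.W 1 0 1 * Lg (G.W 1 0 1)) (G.W 1 1 1 * Lg (G.W 1 1 1))
    nlinarith
  · have hWi : ∀ p t : ℝ, ‖(G.W 1 p t)⁻¹‖ ≤ 2 * G.M := by
      intro p t
      rw [norm_inv]
      have h1 := G.N2 hτ p t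
      have h2 := G.W_pos hτ p t
      rw [inv_le_comm₀ h2 (by positivity)]
      rw [inv_le_iff_one_le_mul₀ (by positivity)]
      linarith
    have hF : ∀ t ∈ uIcc (0 : ℝ) 1, HasDerivAt (fun t => La (G.W 1 0 t) - La (G.W 1 1 t))
        (((1 : ℝ) : ℂ) * G.b t * (Lg (G.W 1 0 t) - Lg (G.W 1 1 t))) t := by
      intro t _
      exact ((hasDerivAt_LaW_t G hτ 0 t).sub (hasDerivAt_LaW_t G hτ 1 t)).congr_deriv (by ring)
    have hLd : ∀ t : ℝ, ‖Lg (G.W 1 0 t) - Lg (G.W 1 1 t)‖ ≤ 2 * G.M * (2 * G.M) := by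
      intro t
      have h1 := mvt (fun p => Lg (G.W 1 p t)) (fun p => -(((1 : ℝ) : ℂ) * G.b p * (G.W 1 p t)⁻¹))
        1 0 (2 * G.M * (2 * G.M)) (fun p _ => by
          have h2 := (hasDerivAt_Lg (G.W_slit hτ p t)).comp p (hasDerivAt_W_p G (τ := 1) p t)
          exact h2.congr_deriv (by ring)) (fun p _ => by
          rw [norm_neg, norm_mul]
          exact mul_le_mul (norm_tb G hτ p) (hWi p t) (norm_nonneg _) (by positivity))
      simpa using h1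
    have h3 := mvt _ _ 0 1 (2 * G.M * (2 * G.M * (2 * G.M))) hF (fun t _ => by
      rw [norm_mul]
      exact mul_le_mul (norm_tb G hτ t) (hLd t) (norm_nonneg _) (by positivity))
    have h4 : La (G.W 1 0 1) - La (G.W 1 1 1) - La (G.W 1 0 0) + La (G.W 1 1 0)
        = (fun t => La (G.W 1 0 t) - La (G.W 1 1 t)) 1
          - (fun t => La (G.W 1 0 t) - La (G.W 1 1 t)) 0 := by
      simp only; ring
    rw [h4]
    refine h3.trans ?_
    simp only [sub_zero, abs_one, mul_one]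
    have : 0 ≤ G.M ^ 3 := by positivity
    nlinarith

lemma Tk_bound (N : ℕ) (u : ℕ → ℂ) (k : ℕ) (i : ℕ) :
    ‖Tk G N u k i‖ ≤ ∑ l ∈ Finset.range (2 ^ k), ‖u (i * 2 ^ k + l)‖ * (2 * G.M * (1 / 2) ^ N) := by
  induction k generalizing i with
  | zero =>
    simp only [Tk, pow_zero, Finset.range_one, Finset.sum_singleton, mul_one, add_zero]
    rw [norm_mul]
    exact mul_le_mul_of_nonneg_left (bt_norm G N i) (norm_nonneg _)
  | succ k ih =>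
    simp only [Tk]
    refine (norm_add_le _ _).trans ?_
    have h1 := ih (2 * i)
    have h2 := ih (2 * i + 1)
    have h3 : ∑ l ∈ Finset.range (2 ^ (k + 1)), ‖u (i * 2 ^ (k + 1) + l)‖ * (2 * G.M * (1 / 2) ^ N)
        = ∑ l ∈ Finset.range (2 ^ k), ‖u (2 * i * 2 ^ k + l)‖ * (2 * G.M * (1 / 2) ^ N)
          + ∑ l ∈ Finset.range (2 ^ k), ‖u ((2 * i + 1) * 2 ^ k + l)‖ * (2 * G.M * (1 / 2) ^ N) := by
      rw [show 2 ^ (k + 1) = 2 ^ k + 2 ^ k by ring, Finset.sum_range_add]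
      congr 1
      · refine Finset.sum_congr rfl fun l _ => ?_
        congr 3; ring
      · refine Finset.sum_congr rfl fun l _ => ?_
        congr 3; ring
    rw [h3]
    exact add_le_add h1 h2

lemma E0_bound (N : ℕ) (u : ℕ → ℂ) :
    ‖En G N u 0 0‖ ≤ 2 * G.M * √(∑ j ∈ Finset.range (2 ^ N), ‖u j‖ ^ 2 / 2 ^ N) := by
  have hM := G.hM
  unfold En Sn
  rw [Nat.sub_zero, norm_div]
  have h1 := Tk_bound G N u N 0
  have h2 := bt_norm_ge G 0 0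
  rw [pow_zero] at h2
  have h3 : ‖Tk G N u N 0‖ / ‖bt G 0 0‖ ≤ ‖Tk G N u N 0‖ := div_le_self (norm_nonneg _) h2
  refine h3.trans (h1.trans ?_)
  simp only [zero_mul, zero_add]
  rw [← Finset.sum_mul]
  have h4 := Real.sum_mul_le_sqrt_mul_sqrt (Finset.range (2 ^ N)) (fun j => ‖u j‖) (fun _ => (1 : ℝ))
  simp only [mul_one, one_pow, Finset.sum_const, Finset.card_range, nsmul_eq_mul] at h4
  have h5 : √(∑ j ∈ Finset.range (2 ^ N), ‖u j‖ ^ 2 / 2 ^ N)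
      = √(∑ j ∈ Finset.range (2 ^ N), ‖u j‖ ^ 2) / √(2 ^ N) := by
    rw [← Finset.sum_div, Real.sqrt_div (Finset.sum_nonneg fun i _ => by positivity)]
  rw [h5]
  push_cast at h4
  have h6 : √((2 : ℝ) ^ N) * √((2 : ℝ) ^ N) = 2 ^ N := Real.mul_self_sqrt (by positivity)
  have h7 : (0 : ℝ) < √((2 : ℝ) ^ N) := by positivity
  calc (∑ j ∈ Finset.range (2 ^ N), ‖u j‖) * (2 * G.M * (1 / 2) ^ N)
      ≤ (√(∑ j ∈ Finset.range (2 ^ N), ‖u j‖ ^ 2) * √(2 ^ N)) * (2 * G.M * (1 / 2) ^ N) :=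
        mul_le_mul_of_nonneg_right h4 (by positivity)
    _ = 2 * G.M * (√(∑ j ∈ Finset.range (2 ^ N), ‖u j‖ ^ 2) / √(2 ^ N)) := by
        have h8 : ((1 : ℝ) / 2) ^ N = 1 / (√((2 : ℝ) ^ N) * √((2 : ℝ) ^ N)) := by
          rw [h6, one_div, one_div, inv_pow]
        rw [h8]
        generalize √((2 : ℝ) ^ N) = r at h7
        field_simp

end CJS
end Pool.Agent.Helper311.Nev

namespace Pool.Agent.Helper311.Nev
namespace CJS
variable (G : Gr)

/-- normalised l2 norm -/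
noncomputable def Xn (N : ℕ) (u : ℕ → ℂ) : ℝ := √(∑ j ∈ Finset.range (2 ^ N), ‖u j‖ ^ 2 / 2 ^ N)

lemma Qn_nonneg (N : ℕ) (u : ℕ → ℂ) (n : ℕ) : 0 ≤ Qn G N u n := Real.sqrt_nonneg _

lemma Qn_sum (N : ℕ) (u : ℕ → ℂ) :
    √(∑ n ∈ Finset.range N, Qn G N u n ^ 2) ≤ 60 * G.M ^ 2 * Xn N u := by
  have hM := G.hM
  have h1 := square_fn (2 * G.M) (by linarith) N (bt G) (Sn G N u) u
    (fun n _ i _ => bt_split G n i) (fun n hn i _ => Sn_split G N u n i hn)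
    (fun i _ => bt_re G N i) (fun i _ => bt_norm G N i) (fun i _ => by
      have := En_leaf G N u i
      unfold En at this
      rw [div_eq_iff (bt_ne G N i)] at this
      exact this)
  have h2 : ∑ n ∈ Finset.range N, Qn G N u n ^ 2
      = ∑ n ∈ Finset.range N, ∑ i ∈ Finset.range (2 ^ n),
      (1 / 2 : ℝ) ^ n * ‖Sn G N u (n + 1) (2 * i) / bt G (n + 1) (2 * i)
        - Sn G N u (n + 1) (2 * i + 1) / bt G (n + 1) (2 * i + 1)‖ ^ 2 := by
    refine Finset.sum_congr rfl fun n _ => ?_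
    unfold Qn
    rw [Real.sq_sqrt (by positivity), Finset.mul_sum]
    rfl
  have h3 : ∑ i ∈ Finset.range (2 ^ N), (1 / 2 : ℝ) ^ N * ‖u i‖ ^ 2 = Xn N u ^ 2 := by
    unfold Xn
    rw [Real.sq_sqrt (Finset.sum_nonneg fun i _ => by positivity)]
    refine Finset.sum_congr rfl fun i _ => ?_
    rw [one_div, inv_pow]; field_simp
  rw [h2]
  rw [h3] at h1
  have hX : 0 ≤ Xn N u := Real.sqrt_nonneg _
  apply Real.sqrt_le_iff.2
  refine ⟨by positivity, h1.trans ?_⟩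
  have : 0 ≤ G.M ^ 4 * Xn N u ^ 2 := by positivity
  nlinarith

lemma Qn_le (N : ℕ) (u : ℕ → ℂ) (n : ℕ) (hn : n < N) : Qn G N u n ≤ 60 * G.M ^ 2 * Xn N u := by
  refine le_trans ?_ (Qn_sum G N u)
  apply Real.le_sqrt_of_sq_le
  exact Finset.single_le_sum (f := fun n => Qn G N u n ^ 2) (fun i _ => by positivity)
    (Finset.mem_range.2 hn)

/-- 1/(1-q) -/
noncomputable def kq : ℝ := 1 / (1 - qq)

lemma kq_pos : 0 < kq := by
  unfold kq
  have := qq_lt_one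
  exact one_div_pos.2 (by linarith)

lemma geo (N : ℕ) : ∑ m ∈ Finset.range N, qq ^ m ≤ kq := by
  unfold kq
  have h0 := qq_nonneg
  have h1 := qq_lt_one
  have := (summable_geometric_of_lt_one h0 h1).sum_le_tsum (Finset.range N)
    (fun i _ => pow_nonneg h0 i)
  rw [tsum_geometric_of_lt_one h0 h1] at this
  simpa using this

lemma geo2 (N n : ℕ) : ∑ m ∈ Finset.range N, qq ^ ((m - n) + (n - m)) ≤ 2 * kq := by
  have h0 := qq_nonneg
  have h1 : ∀ m ∈ Finset.range N, qq ^ ((m - n) + (n - m))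
      ≤ (if n ≤ m then qq ^ (m - n) else 0) + (if m ≤ n then qq ^ (n - m) else 0) := by
    intro m _
    rcases le_total n m with h | h
    · have e : n - m = 0 := by omega
      rw [if_pos h, e, add_zero]
      split_ifs
      · have : 0 ≤ qq ^ 0 := by positivity
        linarith
      · linarith
    · have e : m - n = 0 := by omega
      rw [if_pos h, e, zero_add]
      split_ifs
      · have : 0 ≤ qq ^ 0 := by positivity
        linarith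
      · linarith
  refine (Finset.sum_le_sum h1).trans ?_
  rw [Finset.sum_add_distrib]
  have h2 : ∑ m ∈ Finset.range N, (if n ≤ m then qq ^ (m - n) else 0) ≤ kq := by
    rw [← Finset.sum_filter]
    have : ∑ m ∈ (Finset.range N).filter (fun m => n ≤ m), qq ^ (m - n)
        = ∑ k ∈ ((Finset.range N).filter (fun m => n ≤ m)).image (fun m => m - n), qq ^ k := by
      rw [Finset.sum_image]
      intro a ha b hb hab
      simp only [Finset.coe_filter, Finset.mem_range, Set.mem_ofPred_eq] at ha hb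
      simp only at hab
      omega
    rw [this]
    refine le_trans (Finset.sum_le_sum_of_subset_of_nonneg (t := Finset.range N) ?_ ?_) (geo N)
    · intro k hk
      rw [Finset.mem_image] at hk
      obtain ⟨m, hm, rfl⟩ := hk
      rw [Finset.mem_filter, Finset.mem_range] at hm
      rw [Finset.mem_range]; omega
    · intro i _ _; positivity
  have h3 : ∑ m ∈ Finset.range N, (if m ≤ n then qq ^ (n - m) else 0) ≤ kq := by
    rw [← Finset.sum_filter]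
    have : ∑ m ∈ (Finset.range N).filter (fun m => m ≤ n), qq ^ (n - m)
        = ∑ k ∈ ((Finset.range N).filter (fun m => m ≤ n)).image (fun m => n - m), qq ^ k := by
      rw [Finset.sum_image]
      intro a ha b hb hab
      simp only [Finset.coe_filter, Finset.mem_range, Set.mem_ofPred_eq] at ha hb
      simp only at hab
      omega
    rw [this]
    refine le_trans (Finset.sum_le_sum_of_subset_of_nonneg (t := Finset.range (n + 1)) ?_ ?_)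
      (geo (n + 1))
    · intro k hk
      rw [Finset.mem_image] at hk
      obtain ⟨m, hm, rfl⟩ := hk
      rw [Finset.mem_range]; omega
    · intro i _ _; positivity
  linarith

lemma T4 (N : ℕ) (g f : ℕ → ℂ) :
    ‖∑ n ∈ Finset.range N, ∑ m ∈ Finset.range N,
      Bf G 1 (n + 1) (dn G N g n) (m + 1) (dn G N f m)‖
      ≤ 60000 * S0 * G.M ^ 5 * (2 * kq) * (60 * G.M ^ 2 * Xn N g) * (60 * G.M ^ 2 * Xn N f) := by
  have hM := G.hM
  have hS := S0_pos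
  have hk := kq_pos
  have hterm : ∀ n ∈ Finset.range N, ∀ m ∈ Finset.range N,
      ‖Bf G 1 (n + 1) (dn G N g n) (m + 1) (dn G N f m)‖
        ≤ 60000 * S0 * G.M ^ 5 * (Qn G N g n * Qn G N f m * qq ^ ((m - n) + (n - m))) := by
    intro n hn m hm
    rw [Finset.mem_range] at hn hm
    rcases le_total n m with h | h
    · have := LP_dd G (Or.inl rfl : (1 : ℝ) = 1 ∨ (1 : ℝ) = -1) N g f n m h hm
      refine this.trans (le_of_eq ?_)
      rw [show n - m = 0 by omega, add_zero]; ring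
    · have := LP_dd G (Or.inr rfl : (-1 : ℝ) = 1 ∨ (-1 : ℝ) = -1) N f g m n h hn
      rw [Bf_symm]
      refine this.trans (le_of_eq ?_)
      rw [show m - n = 0 by omega, zero_add]; ring
  refine (norm_sum_le _ _).trans ?_
  refine (Finset.sum_le_sum fun n hn => (norm_sum_le _ _).trans
    (Finset.sum_le_sum fun m hm => hterm n hn m hm)).trans ?_
  simp_rw [← Finset.mul_sum]
  have h1 := schur (Finset.range N) (Finset.range N) (Qn G N g) (Qn G N f)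
    (fun n m => qq ^ ((m - n) + (n - m))) (2 * kq) (2 * kq) (Qn_nonneg G N g) (Qn_nonneg G N f)
    (fun n m => pow_nonneg qq_nonneg _) (fun n _ => geo2 N n) (fun m _ => by
      have := geo2 N m
      refine le_trans (le_of_eq ?_) this
      refine Finset.sum_congr rfl fun n _ => ?_
      rw [add_comm])
  have h2 := Qn_sum G N g
  have h3 := Qn_sum G N f
  have h4 : √(2 * kq * ∑ n ∈ Finset.range N, Qn G N g n ^ 2)
      * √(2 * kq * ∑ n ∈ Finset.range N, Qn G N f n ^ 2)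
      ≤ (2 * kq) * (60 * G.M ^ 2 * Xn N g) * (60 * G.M ^ 2 * Xn N f) := by
    rw [Real.sqrt_mul (by positivity) (∑ n ∈ Finset.range N, Qn G N g n ^ 2),
      Real.sqrt_mul (by positivity) (∑ n ∈ Finset.range N, Qn G N f n ^ 2)]
    have e : √(2 * kq) * √(2 * kq) = 2 * kq := Real.mul_self_sqrt (by positivity)
    have hXg : 0 ≤ Xn N g := Real.sqrt_nonneg _
    have hXf : 0 ≤ Xn N f := Real.sqrt_nonneg _
    calc _ = (√(2 * kq) * √(2 * kq)) * √(∑ n ∈ Finset.range N, Qn G N g n ^ 2)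
          * √(∑ n ∈ Finset.range N, Qn G N f n ^ 2) := by ring
      _ ≤ _ := by
          rw [e]
          gcongr
  calc _ ≤ 60000 * S0 * G.M ^ 5 * ((2 * kq) * (60 * G.M ^ 2 * Xn N g) * (60 * G.M ^ 2 * Xn N f)) :=
        mul_le_mul_of_nonneg_left (h1.trans h4) (by positivity)
    _ = _ := by ring

lemma T23 {τ : ℝ} (hτ : τ = 1 ∨ τ = -1) (N : ℕ) (g f : ℕ → ℂ) :
    ‖∑ m ∈ Finset.range N, Bf G τ 0 (En G N g 0) (m + 1) (dn G N f m)‖
      ≤ 60000 * S0 * G.M ^ 4 * kq * (2 * G.M * Xn N g) * (60 * G.M ^ 2 * Xn N f) := by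
  have hM := G.hM
  have hS := S0_pos
  have hk := kq_pos
  have hE : ‖En G N g 0 0‖ ≤ 2 * G.M * Xn N g := E0_bound G N g
  have hXg : 0 ≤ Xn N g := Real.sqrt_nonneg _
  have hXf : 0 ≤ Xn N f := Real.sqrt_nonneg _
  refine (norm_sum_le _ _).trans ?_
  have hterm : ∀ m ∈ Finset.range N, ‖Bf G τ 0 (En G N g 0) (m + 1) (dn G N f m)‖
      ≤ (60000 * S0 * G.M ^ 4 * (2 * G.M * Xn N g) * (60 * G.M ^ 2 * Xn N f)) * qq ^ m := by
    intro m hm
    rw [Finset.mem_range] at hm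
    have h1 := LP_ed G hτ N (En G N g 0) f m hm
    have h2 := Qn_le G N f m hm
    have h3 : 0 ≤ qq ^ m := pow_nonneg qq_nonneg m
    have h4 := Qn_nonneg G N f m
    calc _ ≤ 60000 * S0 * G.M ^ 4 * qq ^ m * ‖En G N g 0 0‖ * Qn G N f m := h1
      _ ≤ 60000 * S0 * G.M ^ 4 * qq ^ m * (2 * G.M * Xn N g) * (60 * G.M ^ 2 * Xn N f) := by
          gcongr
      _ = _ := by ring
  refine (Finset.sum_le_sum hterm).trans ?_
  rw [← Finset.mul_sum]
  calc _ ≤ (60000 * S0 * G.M ^ 4 * (2 * G.M * Xn N g) * (60 * G.M ^ 2 * Xn N f)) * kq :=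
        mul_le_mul_of_nonneg_left (geo N) (by positivity)
    _ = _ := by ring

/-- the constant -/
noncomputable def CB : ℝ := 1248 + 446400000 * S0 * kq

lemma CB_pos : 0 < CB := by
  unfold CB
  have := S0_pos
  have := kq_pos
  positivity

theorem Bf_main (N : ℕ) (g f : ℕ → ℂ) :
    ‖Bf G 1 N g N f‖ ≤ CB * G.M ^ 9 * Xn N f * Xn N g := by
  have hM := G.hM
  have hS := S0_pos
  have hk := kq_pos
  have hXg : 0 ≤ Xn N g := Real.sqrt_nonneg _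
  have hXf : 0 ≤ Xn N f := Real.sqrt_nonneg _
  rw [Bf_exp1 G 1 N g N f, Bf_exp2 G 1 0 (En G N g 0) N f]
  simp_rw [Bf_exp2 G 1 _ (dn G N g _) N f]
  rw [Finset.sum_add_distrib]
  have t1 : ‖Bf G 1 0 (En G N g 0) 0 (En G N f 0)‖
      ≤ (2 * G.M * Xn N g) * (2 * G.M * Xn N f) * (312 * G.M ^ 3) := by
    have e : Bf G 1 0 (En G N g 0) 0 (En G N f 0)
        = En G N g 0 0 * En G N f 0 0 * kd G 1 0 0 0 0 := by
      unfold Bf; simp
    rw [e, norm_mul, norm_mul]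
    have := kd_top G
    have h1 := E0_bound G N g
    have h2 := E0_bound G N f
    unfold Xn
    gcongr
  have t2 := T23 G (Or.inl rfl : (1 : ℝ) = 1 ∨ (1 : ℝ) = -1) N g f
  have t3 : ‖∑ n ∈ Finset.range N, Bf G 1 (n + 1) (dn G N g n) 0 (En G N f 0)‖
      ≤ 60000 * S0 * G.M ^ 4 * kq * (2 * G.M * Xn N f) * (60 * G.M ^ 2 * Xn N g) := by
    have := T23 G (Or.inr rfl : (-1 : ℝ) = 1 ∨ (-1 : ℝ) = -1) N f g
    simp_rw [Bf_symm]
    exact this
  have t4 := T4 G N g f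
  have hM5 : G.M ^ 5 ≤ G.M ^ 9 := pow_le_pow_right₀ hM (by norm_num)
  have hM7 : G.M ^ 7 ≤ G.M ^ 9 := pow_le_pow_right₀ hM (by norm_num)
  have hprod : 0 ≤ Xn N f * Xn N g := mul_nonneg hXf hXg
  have hSk : 0 < S0 * kq := mul_pos hS hk
  refine (norm_add_le _ _).trans ?_
  refine (add_le_add (norm_add_le _ _) (norm_add_le _ _)).trans ?_
  calc _ ≤ ((2 * G.M * Xn N g) * (2 * G.M * Xn N f) * (312 * G.M ^ 3)
        + 60000 * S0 * G.M ^ 4 * kq * (2 * G.M * Xn N g) * (60 * G.M ^ 2 * Xn N f))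
        + (60000 * S0 * G.M ^ 4 * kq * (2 * G.M * Xn N f) * (60 * G.M ^ 2 * Xn N g)
        + 60000 * S0 * G.M ^ 5 * (2 * kq) * (60 * G.M ^ 2 * Xn N g) * (60 * G.M ^ 2 * Xn N f)) :=
        add_le_add (add_le_add t1 t2) (add_le_add t3 t4)
    _ = (1248 * G.M ^ 5 + 14400000 * (S0 * kq) * G.M ^ 7 + 432000000 * (S0 * kq) * G.M ^ 9)
        * (Xn N f * Xn N g) := by ring
    _ ≤ (1248 * G.M ^ 9 + 14400000 * (S0 * kq) * G.M ^ 9 + 432000000 * (S0 * kq) * G.M ^ 9)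
        * (Xn N f * Xn N g) := by gcongr
    _ = CB * G.M ^ 9 * Xn N f * Xn N g := by unfold CB; ring

lemma kap_eq_integral (x1 x2 y1 y2 : ℝ) :
    ∫ x in x1..x2, ∫ y in y1..y2, G.b x * G.b y / G.W 1 x y = kap G 1 x1 x2 y1 y2 := by
  have hτ : (1 : ℝ) = 1 ∨ (1 : ℝ) = -1 := Or.inl rfl
  have hbc : Continuous G.b := by
    unfold Gr.b
    have h1 : Continuous (deriv G.A) := G.hA.continuous_deriv (by norm_num)
    fun_prop
  have hzc : Continuous G.z := continuous_iff_continuousAt.2 fun t => (G.hasDerivAt_z t).continuousAt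
  have hWt : ∀ x, Continuous (fun y => G.W 1 x y) := fun x => by unfold Gr.W; fun_prop
  have hWp : ∀ y, Continuous (fun x => G.W 1 x y) := fun x => by unfold Gr.W; fun_prop
  have hne : ∀ x y, G.W 1 x y ≠ 0 := fun x y => norm_pos_iff.1 (G.W_pos hτ x y)
  have hinner : ∀ x, ∫ y in y1..y2, G.b x * G.b y / G.W 1 x y
      = G.b x * (Lg (G.W 1 x y2) - Lg (G.W 1 x y1)) := by
    intro x
    have h1 : ∀ y ∈ uIcc y1 y2, HasDerivAt (fun y => G.b x * Lg (G.W 1 x y))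
        (G.b x * G.b y / G.W 1 x y) y := by
      intro y _
      exact ((hasDerivAt_LgW_t G hτ x y).const_mul (G.b x)).congr_deriv (by
        push_cast; rw [div_eq_mul_inv]; ring)
    rw [intervalIntegral.integral_eq_sub_of_hasDerivAt h1]
    · ring
    · apply Continuous.intervalIntegrable
      exact (continuous_const.mul hbc).div (hWt x) (hne x)
  simp_rw [hinner]
  have h2 : ∀ x ∈ uIcc x1 x2, HasDerivAt (fun x => La (G.W 1 x y1) - La (G.W 1 x y2))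
      (G.b x * (Lg (G.W 1 x y2) - Lg (G.W 1 x y1))) x := by
    intro x _
    exact ((hasDerivAt_LaW_p G hτ x y1).sub (hasDerivAt_LaW_p G hτ x y2)).congr_deriv (by
      push_cast; ring)
  rw [intervalIntegral.integral_eq_sub_of_hasDerivAt h2]
  · unfold kap; ring
  · apply Continuous.intervalIntegrable
    have hL : ∀ y, Continuous (fun x => Lg (G.W 1 x y)) := by
      intro y
      rw [continuous_iff_continuousAt]
      intro x
      have := (hasDerivAt_Lg (G.W_slit hτ x y)).continuousAt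
      exact ContinuousAt.comp (f := fun x => G.W 1 x y) this (hWp y).continuousAt
    exact hbc.mul ((hL y2).sub (hL y1))

end CJS

/-- A2 -/
theorem cjs_dyadic : ∃ C : ℝ, ∃ k : ℕ, 0 < C ∧ ∀ M : ℝ, 1 ≤ M → ∀ A : ℝ → ℝ,
    ContDiff ℝ 1 A → (∀ x, |deriv A x| ≤ M) → ∀ h : ℝ, 0 < h → ∀ N : ℕ, ∀ f g : ℕ → ℂ,
    ‖∑ i ∈ Finset.range (2 ^ N), ∑ j ∈ Finset.range (2 ^ N), g i * f j *
      ∫ x in ((i : ℝ) / 2 ^ N)..(((i : ℝ) + 1) / 2 ^ N),
        ∫ y in ((j : ℝ) / 2 ^ N)..(((j : ℝ) + 1) / 2 ^ N),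
          (1 + Complex.I * ((deriv A x : ℝ) : ℂ)) * (1 + Complex.I * ((deriv A y : ℝ) : ℂ)) /
            ((⟨y, A y⟩ : ℂ) - ⟨x, A x⟩ - Complex.I * (h : ℂ))‖
      ≤ C * M ^ k * √(∑ j ∈ Finset.range (2 ^ N), ‖f j‖ ^ 2 / 2 ^ N)
          * √(∑ i ∈ Finset.range (2 ^ N), ‖g i‖ ^ 2 / 2 ^ N) := by
  refine ⟨CJS.CB, 9, CJS.CB_pos, ?_⟩
  intro M hM A hA hA' h hh N f g
  let G : CJS.Gr := ⟨A, M, h, hM, hA, hA', hh⟩
  have h1 := CJS.Bf_main G N g f
  have h2 : CJS.Bf G 1 N g N f = ∑ i ∈ Finset.range (2 ^ N), ∑ j ∈ Finset.range (2 ^ N),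
      g i * f j * ∫ x in ((i : ℝ) / 2 ^ N)..(((i : ℝ) + 1) / 2 ^ N),
        ∫ y in ((j : ℝ) / 2 ^ N)..(((j : ℝ) + 1) / 2 ^ N),
          (1 + Complex.I * ((deriv A x : ℝ) : ℂ)) * (1 + Complex.I * ((deriv A y : ℝ) : ℂ)) /
            ((⟨y, A y⟩ : ℂ) - ⟨x, A x⟩ - Complex.I * (h : ℂ)) := by
    unfold CJS.Bf
    refine Finset.sum_congr rfl fun i _ => Finset.sum_congr rfl fun j _ => ?_
    congr 1
    unfold CJS.kd
    rw [← CJS.kap_eq_integral]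
    congr 1
    funext x
    congr 1
    funext y
    unfold CJS.Gr.b CJS.Gr.W CJS.Gr.z
    push_cast
    rw [one_mul]
  rw [← h2]
  exact h1

end Pool.Agent.Helper311.Nev
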