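import Mathlib

open MeasureTheory Set Filter Topology Metric
open scoped ENNReal NNReal

namespace Pool.Agent.Helper311.Nev

/-- Cauchy integral of the complex measure `f dν`. -/
noncomputable def CauchyInt (ν : Measure ℂ) (f : ℂ → ℂ) (z : ℂ) : ℂ :=
  (2 * Real.pi * Complex.I)⁻¹ * ∫ ζ, f ζ / (ζ - z) ∂ν

/-- `F` is a quotient of two bounded analytic functions in `Ω`. -/
def QuotientBdd (Ω : Set ℂ) (F : ℂ → ℂ) : Prop :=
  ∃ g h : ℂ → ℂ, DifferentiableOn ℂ g Ω ∧ DifferentiableOn ℂ h Ω ∧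
    (∃ B : ℝ, ∀ z ∈ Ω, ‖g z‖ ≤ B) ∧ (∃ B : ℝ, ∀ z ∈ Ω, ‖h z‖ ≤ B) ∧
    (∃ z ∈ Ω, h z ≠ 0) ∧ ∀ z ∈ Ω, F z * h z = g z

/-- Property (N) for a curve `Γ` with interior domain `Ω`: the Cauchy integral of every finite
complex Borel measure on `Γ` (written as `f dν` with `ν` a finite Borel measure carried by `Γ` and
`f` integrable) is a quotient of two bounded analytic functions in `Ω`. -/
def PropertyN (Γ Ω : Set ℂ) : Prop :=
  ∀ ν : Measure ℂ, IsFiniteMeasure ν → ν Γᶜ = 0 → ∀ f : ℂ → ℂ, Integrable f ν →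
    QuotientBdd Ω (CauchyInt ν f)

end Pool.Agent.Helper311.Nev
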