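import Mathlib
import Pool.Agent.Helper311.Nev.Defs

open MeasureTheory Set Filter Topology Metric
open scoped ENNReal NNReal

namespace Pool.Agent.Helper311.Nev

/-- smoothed Cauchy kernel -/
noncomputable def kr (ρ : ℝ) (w : ℂ) : ℂ :=
  (starRingEnd ℂ) w / ((‖w‖ ^ 2 + ρ ^ 2 : ℝ) : ℂ)

/-- smoothed Cauchy integral at `p` of the atomic measure with masses `m i` at the points `ζ i` -/
noncomputable def Tr {ι : Type} [Fintype ι] (ζ : ι → ℂ) (m : ι → ℝ) (ρ : ℝ) (p : ℂ) : ℂ :=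
  ∑ i, (m i : ℂ) * kr ρ (ζ i - p)

/-- Poisson-type average at `p` of the same measure -/
noncomputable def Nr {ι : Type} [Fintype ι] (ζ : ι → ℂ) (m : ι → ℝ) (ρ : ℝ) (p : ℂ) : ℝ :=
  ∑ i, m i * (ρ / (‖ζ i - p‖ ^ 2 + ρ ^ 2))

end Pool.Agent.Helper311.Nev
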