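import Mathlib
import Pool.Agent.Helper311.Nev.Ker

open MeasureTheory Set Filter Topology Metric
open scoped ENNReal NNReal

namespace Pool.Agent.Helper311.Nev
namespace P362


theorem c2_den_pos (ρ : ℝ) (hρ : 0 < ρ) (w : ℂ) : 0 < ‖w‖ ^ 2 + ρ ^ 2 := by positivity

theorem c2_kr_norm (ρ : ℝ) (hρ : 0 < ρ) (w : ℂ) : ‖kr ρ w‖ = ‖w‖ / (‖w‖ ^ 2 + ρ ^ 2) := by
  have h := c2_den_pos ρ hρ w
  unfold kr
  rw [norm_div, Complex.norm_real, Real.norm_of_nonneg h.le, RCLike.norm_conj]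

theorem c2_kr_norm_le (ρ : ℝ) (hρ : 0 < ρ) (w : ℂ) : ‖kr ρ w‖ ≤ 1 / ρ := by
  have h := c2_den_pos ρ hρ w
  rw [c2_kr_norm ρ hρ, div_le_div_iff₀ h hρ]
  nlinarith [norm_nonneg w, sq_nonneg (‖w‖ - ρ)]

theorem c2_kr_sub (ρ ρ' : ℝ) (hρ : 0 < ρ) (hρ' : 0 < ρ') (w w' : ℂ) :
    kr ρ w - kr ρ' w' =
      ((starRingEnd ℂ) w * ((‖w'‖ ^ 2 + ρ' ^ 2 : ℝ) : ℂ) -
        (starRingEnd ℂ) w' * ((‖w‖ ^ 2 + ρ ^ 2 : ℝ) : ℂ)) /
      (((‖w‖ ^ 2 + ρ ^ 2) * (‖w'‖ ^ 2 + ρ' ^ 2) : ℝ) : ℂ) := by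
  have h1 : ((‖w‖ ^ 2 + ρ ^ 2 : ℝ) : ℂ) ≠ 0 := by
    exact_mod_cast (c2_den_pos ρ hρ w).ne'
  have h2 : ((‖w'‖ ^ 2 + ρ' ^ 2 : ℝ) : ℂ) ≠ 0 := by
    exact_mod_cast (c2_den_pos ρ' hρ' w').ne'
  unfold kr
  rw [Complex.ofReal_mul, div_sub_div _ _ h1 h2]
  congr 1
  ring

theorem c2_kr_diff (ρ : ℝ) (hρ : 0 < ρ) (w w' : ℂ) (h : ‖w - w'‖ ≤ 2 * ρ) :
    ‖kr ρ w - kr ρ w'‖ ≤ 4 * (ρ / (‖w‖ ^ 2 + ρ ^ 2)) := by
  have h1 := c2_den_pos ρ hρ w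
  have h2 := c2_den_pos ρ hρ w'
  rw [c2_kr_sub ρ ρ hρ hρ, norm_div, Complex.norm_real, Real.norm_of_nonneg (mul_pos h1 h2).le,
    div_le_iff₀ (mul_pos h1 h2)]
  have hnum : (starRingEnd ℂ) w * ((‖w'‖ ^ 2 + ρ ^ 2 : ℝ) : ℂ) -
        (starRingEnd ℂ) w' * ((‖w‖ ^ 2 + ρ ^ 2 : ℝ) : ℂ) =
      (starRingEnd ℂ) w * (starRingEnd ℂ) w' * (w' - w) + ((ρ ^ 2 : ℝ) : ℂ) * (starRingEnd ℂ) (w - w') := by
    have e1 : (((‖w‖ ^ 2 : ℝ)) : ℂ) = (starRingEnd ℂ) w * w := by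
      rw [Complex.ofReal_pow, ← Complex.conj_mul']
    have e2 : (((‖w'‖ ^ 2 : ℝ)) : ℂ) = (starRingEnd ℂ) w' * w' := by
      rw [Complex.ofReal_pow, ← Complex.conj_mul']
    rw [Complex.ofReal_add, Complex.ofReal_add, e1, e2, map_sub]
    ring
  rw [hnum]
  have hn : ‖(starRingEnd ℂ) w * (starRingEnd ℂ) w' * (w' - w) +
      ((ρ ^ 2 : ℝ) : ℂ) * (starRingEnd ℂ) (w - w')‖ ≤ (‖w‖ * ‖w'‖ + ρ ^ 2) * ‖w - w'‖ := by
    refine (norm_add_le _ _).trans ?_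
    rw [norm_mul, norm_mul, norm_mul, RCLike.norm_conj, RCLike.norm_conj, RCLike.norm_conj,
      Complex.norm_real, Real.norm_of_nonneg (sq_nonneg ρ), norm_sub_rev w' w]
    linarith
  refine hn.trans ?_
  have h3 : ‖w‖ ≤ ‖w'‖ + 2 * ρ := by
    have : ‖w‖ ≤ ‖w'‖ + ‖w - w'‖ := by
      calc ‖w‖ = ‖w' + (w - w')‖ := by ring_nf
        _ ≤ _ := norm_add_le _ _
    linarith
  have h4 : ‖w‖ * ‖w'‖ + ρ ^ 2 ≤ 2 * (‖w'‖ ^ 2 + ρ ^ 2) := by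
    have h5 := norm_nonneg w'
    have h6 : ‖w‖ * ‖w'‖ ≤ (‖w'‖ + 2 * ρ) * ‖w'‖ := mul_le_mul_of_nonneg_right h3 h5
    nlinarith [sq_nonneg (‖w'‖ - ρ)]
  calc (‖w‖ * ‖w'‖ + ρ ^ 2) * ‖w - w'‖ ≤ (2 * (‖w'‖ ^ 2 + ρ ^ 2)) * (2 * ρ) :=
        mul_le_mul h4 h (norm_nonneg _) (by positivity)
    _ = 4 * (ρ / (‖w‖ ^ 2 + ρ ^ 2)) * ((‖w‖ ^ 2 + ρ ^ 2) * (‖w'‖ ^ 2 + ρ ^ 2)) := by
        field_simp
        ring

theorem c2_kr_far (ρ r : ℝ) (hρ : 0 < ρ) (hr : ρ ≤ r) (w : ℂ) (hw : r ≤ ‖w‖) :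
    ‖kr ρ w - kr r w‖ ≤ r / (‖w‖ ^ 2 + r ^ 2) := by
  have hr0 : 0 < r := lt_of_lt_of_le hρ hr
  have h1 := c2_den_pos ρ hρ w
  have h2 := c2_den_pos r hr0 w
  rw [c2_kr_sub ρ r hρ hr0, norm_div, Complex.norm_real, Real.norm_of_nonneg (mul_pos h1 h2).le,
    div_le_div_iff₀ (mul_pos h1 h2) h2]
  have hnum : (starRingEnd ℂ) w * ((‖w‖ ^ 2 + r ^ 2 : ℝ) : ℂ) -
        (starRingEnd ℂ) w * ((‖w‖ ^ 2 + ρ ^ 2 : ℝ) : ℂ) =
      ((r ^ 2 - ρ ^ 2 : ℝ) : ℂ) * (starRingEnd ℂ) w := by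
    push_cast
    ring
  have hnn : 0 ≤ r ^ 2 - ρ ^ 2 := by nlinarith
  rw [hnum, norm_mul, Complex.norm_real, Real.norm_of_nonneg hnn, RCLike.norm_conj]
  have hw0 := norm_nonneg w
  have h3 : (r ^ 2 - ρ ^ 2) * ‖w‖ ≤ r * (‖w‖ ^ 2 + ρ ^ 2) := by
    have h4 : r * (r * ‖w‖) ≤ r * (‖w‖ ^ 2) := by
      apply mul_le_mul_of_nonneg_left _ hr0.le
      nlinarith
    nlinarith [mul_nonneg (sq_nonneg ρ) hw0, mul_nonneg hr0.le (sq_nonneg ρ)]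
  calc (r ^ 2 - ρ ^ 2) * ‖w‖ * (‖w‖ ^ 2 + r ^ 2) ≤ r * (‖w‖ ^ 2 + ρ ^ 2) * (‖w‖ ^ 2 + r ^ 2) :=
        mul_le_mul_of_nonneg_right h3 h2.le
    _ = _ := by ring

theorem c2_Tr_diff {ι : Type} [Fintype ι] (ζ : ι → ℂ) (m : ι → ℝ) (hm : ∀ i, 0 ≤ m i)
    (p p0 : ℂ) (ρ : ℝ) (hρ : 0 < ρ) (hp : ‖p - p0‖ ≤ 2 * ρ) :
    ‖Tr ζ m ρ p - Tr ζ m ρ p0‖ ≤ 4 * Nr ζ m ρ p := by
  unfold Tr Nr
  rw [← Finset.sum_sub_distrib, Finset.mul_sum]
  refine norm_sum_le_of_le _ fun i _ => ?_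
  rw [← mul_sub, norm_mul, Complex.norm_real, Real.norm_of_nonneg (hm i)]
  have := c2_kr_diff ρ hρ (ζ i - p) (ζ i - p0) (by
    rw [show ζ i - p - (ζ i - p0) = -(p - p0) by ring, norm_neg]; exact hp)
  calc m i * ‖kr ρ (ζ i - p) - kr ρ (ζ i - p0)‖ ≤ m i * (4 * (ρ / (‖ζ i - p‖ ^ 2 + ρ ^ 2))) :=
        mul_le_mul_of_nonneg_left this (hm i)
    _ = _ := by ring

theorem c2_Tr_norm_le {ι : Type} [Fintype ι] (ζ : ι → ℂ) (m : ι → ℝ) (hm : ∀ i, 0 ≤ m i)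
    (p : ℂ) (ρ : ℝ) (hρ : 0 < ρ) : ‖Tr ζ m ρ p‖ ≤ (∑ i, m i) / ρ := by
  unfold Tr
  rw [Finset.sum_div]
  refine norm_sum_le_of_le _ fun i _ => ?_
  rw [norm_mul, Complex.norm_real, Real.norm_of_nonneg (hm i)]
  calc m i * ‖kr ρ (ζ i - p)‖ ≤ m i * (1 / ρ) :=
        mul_le_mul_of_nonneg_left (c2_kr_norm_le ρ hρ _) (hm i)
    _ = _ := by ring

theorem c2_pointwise {ι : Type} [Fintype ι] (ζ : ι → ℂ) (m : ι → ℝ) (hm : ∀ i, 0 ≤ m i)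
    (p p0 : ℂ) (r ρ0 α γ : ℝ) (hr : 0 < r) (hρ0 : 0 < ρ0)
    (hp : ‖p - p0‖ ≤ 2 * r) (h0 : ∀ ρ, ρ0 ≤ ρ → ‖Tr ζ m ρ p0‖ ≤ α)
    (hN : ∀ ρ, 0 < ρ → Nr ζ m ρ p ≤ γ) :
    (∑ i, (if ‖ζ i - p0‖ < 6 * r then m i else 0)) ≤ 65 * r * γ ∧
    ∀ ρ, ρ0 ≤ ρ → ‖Tr ζ m ρ p‖ ≤
      ‖Tr ζ (fun i => if ‖ζ i - p0‖ < 6 * r then m i else 0) ρ p‖ + α + 70 * γ := by
  classical
  set mn : ι → ℝ := fun i => if ‖ζ i - p0‖ < 6 * r then m i else 0 with hmn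
  set mf : ι → ℝ := fun i => if ‖ζ i - p0‖ < 6 * r then 0 else m i with hmf
  have hmn0 : ∀ i, 0 ≤ mn i := fun i => by
    simp only [hmn]; split_ifs
    · exact hm i
    · exact le_rfl
  have hmf0 : ∀ i, 0 ≤ mf i := fun i => by
    simp only [hmf]; split_ifs
    · exact le_rfl
    · exact hm i
  have hγ0 : 0 ≤ γ := by
    refine le_trans ?_ (hN 1 one_pos)
    unfold Nr
    exact Finset.sum_nonneg fun i _ => mul_nonneg (hm i) (by positivity)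
  have hα0 : 0 ≤ α := le_trans (norm_nonneg _) (h0 ρ0 le_rfl)
  have hsplit : ∀ ρ q, Tr ζ m ρ q = Tr ζ mn ρ q + Tr ζ mf ρ q := by
    intro ρ q
    unfold Tr
    rw [← Finset.sum_add_distrib]
    refine Finset.sum_congr rfl fun i _ => ?_
    simp only [hmn, hmf]
    split_ifs <;> simp
  have hnear : (∑ i, mn i) ≤ 65 * r * γ := by
    have h1 : (∑ i, mn i) ≤ 65 * r * Nr ζ m r p := by
      unfold Nr
      rw [Finset.mul_sum]
      refine Finset.sum_le_sum fun i _ => ?_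
      by_cases hi : ‖ζ i - p0‖ < 6 * r
      · simp only [hmn, if_pos hi]
        have h2 : ‖ζ i - p‖ ≤ 8 * r := by
          calc ‖ζ i - p‖ = ‖(ζ i - p0) - (p - p0)‖ := by ring_nf
            _ ≤ ‖ζ i - p0‖ + ‖p - p0‖ := norm_sub_le _ _
            _ ≤ _ := by linarith
        have h3 : 1 ≤ 65 * r * (r / (‖ζ i - p‖ ^ 2 + r ^ 2)) := by
          rw [mul_div_assoc', le_div_iff₀ (c2_den_pos r hr _)]
          nlinarith [norm_nonneg (ζ i - p)]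
        calc m i = m i * 1 := by ring
          _ ≤ m i * (65 * r * (r / (‖ζ i - p‖ ^ 2 + r ^ 2))) :=
            mul_le_mul_of_nonneg_left h3 (hm i)
          _ = _ := by ring
      · simp only [hmn, if_neg hi]
        have := hm i
        positivity
    have h2 := hN r hr
    have : 65 * r * Nr ζ m r p ≤ 65 * r * γ := mul_le_mul_of_nonneg_left h2 (by positivity)
    linarith
  refine ⟨hnear, fun ρ hρ => ?_⟩
  have hρp : 0 < ρ := lt_of_lt_of_le hρ0 hρ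
  -- comparison at scales at least r
  have hbig : ∀ s, r ≤ s → ρ0 ≤ s → ‖Tr ζ m s p‖ ≤ α + 4 * γ := by
    intro s hs hs0
    have hsp : 0 < s := lt_of_lt_of_le hr hs
    have h1 := c2_Tr_diff ζ m hm p p0 s hsp (by linarith)
    have h2 := hN s hsp
    have h3 := h0 s hs0
    calc ‖Tr ζ m s p‖ = ‖(Tr ζ m s p - Tr ζ m s p0) + Tr ζ m s p0‖ := by ring_nf
      _ ≤ ‖Tr ζ m s p - Tr ζ m s p0‖ + ‖Tr ζ m s p0‖ := norm_add_le _ _
      _ ≤ α + 4 * γ := by linarith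
  rcases le_or_gt r ρ with hcase | hcase
  · have h1 := hbig ρ hcase hρ
    have h2 := norm_nonneg (Tr ζ mn ρ p)
    linarith
  · have hr0 : ρ0 ≤ r := le_trans hρ hcase.le
    have h1 := hbig r le_rfl hr0
    have h2 : ‖Tr ζ mn r p‖ ≤ 65 * γ := by
      refine (c2_Tr_norm_le ζ mn hmn0 p r hr).trans ?_
      rw [div_le_iff₀ hr]
      linarith
    have h3 : ‖Tr ζ mf r p‖ ≤ α + 69 * γ := by
      have : Tr ζ mf r p = Tr ζ m r p - Tr ζ mn r p := by rw [hsplit]; ring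
      rw [this]
      refine (norm_sub_le _ _).trans ?_
      linarith
    have h4 : ‖Tr ζ mf ρ p - Tr ζ mf r p‖ ≤ γ := by
      refine le_trans ?_ (hN r hr)
      unfold Tr Nr
      rw [← Finset.sum_sub_distrib]
      refine norm_sum_le_of_le _ fun i _ => ?_
      rw [← mul_sub, norm_mul, Complex.norm_real, Real.norm_of_nonneg (hmf0 i)]
      by_cases hi : ‖ζ i - p0‖ < 6 * r
      · simp only [hmf, if_pos hi, zero_mul]
        have := hm i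
        positivity
      · simp only [hmf, if_neg hi]
        refine mul_le_mul_of_nonneg_left ?_ (hm i)
        refine c2_kr_far ρ r hρp hcase.le _ ?_
        push Not at hi
        have h5 : ‖ζ i - p0‖ ≤ ‖ζ i - p‖ + ‖p - p0‖ := by
          calc ‖ζ i - p0‖ = ‖(ζ i - p) + (p - p0)‖ := by ring_nf
            _ ≤ _ := norm_add_le _ _
        linarith
    have h5 : ‖Tr ζ mf ρ p‖ ≤ α + 70 * γ := by
      calc ‖Tr ζ mf ρ p‖ = ‖(Tr ζ mf ρ p - Tr ζ mf r p) + Tr ζ mf r p‖ := by ring_nf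
        _ ≤ ‖Tr ζ mf ρ p - Tr ζ mf r p‖ + ‖Tr ζ mf r p‖ := norm_add_le _ _
        _ ≤ _ := by linarith
    rw [hsplit ρ p]
    refine (norm_add_le _ _).trans ?_
    linarith

theorem c2_big_bound (C₀ : ℝ) (k₀ : ℕ)
    (hyp : ∀ M : ℝ, 1 ≤ M → ∀ A : ℝ → ℝ,
      (∀ x y, |A x - A y| ≤ M * |x - y|) →
      ∀ (ι : Type) [Fintype ι] (ζ : ι → ℂ) (m : ι → ℝ), (∀ i, 0 ≤ m i) → ∀ α : ℝ, 0 < α →
      volume {x : ℝ | ∃ ρ : ℝ, 0 < ρ ∧ α < ‖Tr ζ m ρ (⟨x, A x⟩ : ℂ)‖}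
        ≤ ENNReal.ofReal (C₀ * M ^ k₀ * (∑ i, m i) / α))
    (big_piece : ∀ (h : ℝ → ℂ) (a b u η : ℝ), a < b → u ∈ Icc a b → 0 < η →
      (∀ s ∈ Icc a b, ∀ t ∈ Icc a b, ‖h s - h t‖ ≤ |s - t|) →
      η * (b - a) ≤ ‖h u - h a‖ →
      ∃ G : Set ℝ, ∃ e : ℂ, IsCompact G ∧ G ⊆ Icc a b ∧ ‖e‖ = 1 ∧
        ENNReal.ofReal (η / 4 * (b - a)) ≤ volume G ∧
        ∀ s ∈ G, ∀ t ∈ G, s ≤ t → η / 2 * (t - s) ≤ (e * (h t - h s)).re)
    (A : ℝ) (hA : 1 ≤ A) (ℓ : ℝ) (h : ℝ → ℂ)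
    (hL : ∀ s ∈ Icc 0 ℓ, ∀ t ∈ Icc 0 ℓ, ‖h s - h t‖ ≤ |s - t|)
    (hR : ∀ (p : ℂ) (R : ℝ), 0 < R →
        volume {u ∈ Icc 0 ℓ | ‖h u - p‖ < R} ≤ ENNReal.ofReal (A * R))
    (a b : ℝ) (hab : a < b) (hsub : Icc a b ⊆ Icc 0 ℓ) :
    ∃ G : Set ℝ, IsCompact G ∧ G ⊆ Icc a b ∧ ENNReal.ofReal (1 / (8 * A) * (b - a)) ≤ volume G ∧
      ∀ (ι : Type) [Fintype ι] (ζ : ι → ℂ) (m : ι → ℝ), (∀ i, 0 ≤ m i) → ∀ β : ℝ, 0 < β →
        volume {t ∈ G | ∃ ρ : ℝ, 0 < ρ ∧ β < ‖Tr ζ m ρ (h t)‖} ≤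
          ENNReal.ofReal (C₀ * (4 * A) ^ (k₀ + 1) * (∑ i, m i) / β) := by
  have hA0 : 0 < A := by linarith
  have hba : 0 < b - a := by linarith
  have hηeq : (1 / (2 * A)) * (b - a) = (b - a) / (2 * A) := by ring
  obtain ⟨u, hu, hfar⟩ : ∃ u ∈ Icc a b, 1 / (2 * A) * (b - a) ≤ ‖h u - h a‖ := by
    by_contra hcon
    push Not at hcon
    have h1 := hR (h a) ((b - a) / (2 * A)) (by positivity)
    have h2 : Icc a b ⊆ {u ∈ Icc 0 ℓ | ‖h u - h a‖ < (b - a) / (2 * A)} := by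
      intro u hu
      refine ⟨hsub hu, ?_⟩
      rw [← hηeq]
      exact hcon u hu
    have h3 := (measure_mono h2).trans h1
    rw [Real.volume_Icc, show A * ((b - a) / (2 * A)) = (b - a) / 2 by field_simp] at h3
    rw [ENNReal.ofReal_le_ofReal_iff (by positivity)] at h3
    linarith
  obtain ⟨G, e, hGc, hGs, he, hGv, hG⟩ := big_piece h a b u (1 / (2 * A)) hab hu (by positivity)
    (fun s hs t ht => hL s (hsub hs) t (hsub ht)) hfar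
  refine ⟨G, hGc, hGs, ?_, ?_⟩
  · rw [show 1 / (8 * A) = 1 / (2 * A) / 4 by field_simp; norm_num]
    exact hGv
  intro ι _ ζ m hm β hβ
  -- coordinates
  set X : ℝ → ℝ := fun t => (e * h t).re with hX
  set Y : ℝ → ℝ := fun t => (e * h t).im with hY
  have hXG : ∀ s ∈ G, ∀ t ∈ G, |s - t| ≤ 4 * A * |X s - X t| := by
    have key : ∀ s ∈ G, ∀ t ∈ G, s ≤ t → t - s ≤ 4 * A * (X t - X s) := by
      intro s hs t ht hst
      have h1 := hG s hs t ht hst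
      have h2 : (e * (h t - h s)).re = X t - X s := by
        simp only [hX]
        rw [mul_sub, Complex.sub_re]
      rw [h2] at h1
      have h3 : t - s = 4 * A * (1 / (2 * A) / 2 * (t - s)) := by field_simp; ring
      rw [h3]
      exact mul_le_mul_of_nonneg_left h1 (by positivity)
    intro s hs t ht
    rcases le_total s t with hst | hst
    · have h1 := key s hs t ht hst
      rw [abs_of_nonpos (by linarith)]
      have h2 : X t - X s ≤ |X s - X t| := by rw [abs_sub_comm]; exact le_abs_self _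
      have h3 : 4 * A * (X t - X s) ≤ 4 * A * |X s - X t| :=
        mul_le_mul_of_nonneg_left h2 (by positivity)
      linarith
    · have h1 := key t ht s hs hst
      rw [abs_of_nonneg (by linarith)]
      have h2 : X s - X t ≤ |X s - X t| := le_abs_self _
      have h3 : 4 * A * (X s - X t) ≤ 4 * A * |X s - X t| :=
        mul_le_mul_of_nonneg_left h2 (by positivity)
      linarith
  have hYG : ∀ s ∈ G, ∀ t ∈ G, |Y s - Y t| ≤ 4 * A * |X s - X t| := by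
    intro s hs t ht
    refine le_trans ?_ (hXG s hs t ht)
    have h1 : Y s - Y t = (e * (h s - h t)).im := by
      simp only [hY]
      rw [mul_sub, Complex.sub_im]
    rw [h1]
    refine (Complex.abs_im_le_norm _).trans ?_
    rw [norm_mul, he, one_mul]
    exact hL s (hsub (hGs hs)) t (hsub (hGs ht))
  have hinj : InjOn X G := by
    intro s hs t ht hst
    have h1 := hXG s hs t ht
    rw [hst, sub_self, abs_zero, mul_zero] at h1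
    have := abs_nonpos_iff.mp h1
    linarith
  set g : ℝ → ℝ := Function.invFunOn X G with hg
  have hgX : ∀ t ∈ G, g (X t) = t := fun t ht => hinj.leftInvOn_invFunOn ht
  have hgmem : ∀ z ∈ X '' G, g z ∈ G ∧ X (g z) = z := by
    rintro z ⟨t, ht, rfl⟩
    rw [hgX t ht]
    exact ⟨ht, rfl⟩
  have hK : ((4 * A).toNNReal : ℝ) = 4 * A := Real.coe_toNNReal _ (by positivity)
  have hYlip : LipschitzOnWith (4 * A).toNNReal (fun z => Y (g z)) (X '' G) := by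
    refine LipschitzOnWith.of_dist_le_mul fun z hz z' hz' => ?_
    rw [Real.dist_eq, Real.dist_eq, hK]
    have h1 := hYG (g z) (hgmem z hz).1 (g z') (hgmem z' hz').1
    rwa [(hgmem z hz).2, (hgmem z' hz').2] at h1
  obtain ⟨Y', hY'lip, hY'eq⟩ := hYlip.extend_real
  have hhyp := hyp (4 * A) (by linarith) Y' (fun x y => by
    have := hY'lip.dist_le_mul x y
    rwa [Real.dist_eq, Real.dist_eq, hK] at this) ι (fun i => e * ζ i) m hm β hβ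
  set S : Set ℝ := {x : ℝ | ∃ ρ : ℝ, 0 < ρ ∧ β < ‖Tr (fun i => e * ζ i) m ρ (⟨x, Y' x⟩ : ℂ)‖} with hS
  have hTr : ∀ ρ : ℝ, ∀ p : ℂ, ‖Tr (fun i => e * ζ i) m ρ (e * p)‖ = ‖Tr ζ m ρ p‖ := by
    intro ρ p
    have h1 : Tr (fun i => e * ζ i) m ρ (e * p) = (starRingEnd ℂ) e * Tr ζ m ρ p := by
      unfold Tr
      rw [Finset.mul_sum]
      refine Finset.sum_congr rfl fun i _ => ?_
      unfold kr
      rw [← mul_sub, norm_mul, he, one_mul, map_mul]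
      ring
    rw [h1, norm_mul, RCLike.norm_conj, he, one_mul]
  have hsubset : {t ∈ G | ∃ ρ : ℝ, 0 < ρ ∧ β < ‖Tr ζ m ρ (h t)‖} ⊆ g '' (X '' G ∩ S) := by
    rintro t ⟨ht, ρ, hρ, hβt⟩
    refine ⟨X t, ⟨⟨t, ht, rfl⟩, ρ, hρ, ?_⟩, hgX t ht⟩
    have h1 : Y' (X t) = Y t := by
      rw [← hY'eq ⟨t, ht, rfl⟩]
      simp only
      rw [hgX t ht]
    have h2 : (⟨X t, Y' (X t)⟩ : ℂ) = e * h t := by
      rw [h1]
    rw [h2, hTr]
    exact hβt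
  have hglip : LipschitzOnWith (4 * A).toNNReal g (X '' G ∩ S) := by
    refine LipschitzOnWith.of_dist_le_mul fun z hz z' hz' => ?_
    rw [Real.dist_eq, Real.dist_eq, hK]
    have h1 := hXG (g z) (hgmem z hz.1).1 (g z') (hgmem z' hz'.1).1
    rwa [(hgmem z hz.1).2, (hgmem z' hz'.1).2] at h1
  have himg : volume (g '' (X '' G ∩ S)) ≤ ENNReal.ofReal (4 * A) * volume (X '' G ∩ S) := by
    have := hglip.hausdorffMeasure_image_le (d := 1) zero_le_one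
    rw [hausdorffMeasure_real, ENNReal.rpow_one] at this
    exact this
  calc volume {t ∈ G | ∃ ρ : ℝ, 0 < ρ ∧ β < ‖Tr ζ m ρ (h t)‖}
      ≤ volume (g '' (X '' G ∩ S)) := measure_mono hsubset
    _ ≤ ENNReal.ofReal (4 * A) * volume (X '' G ∩ S) := himg
    _ ≤ ENNReal.ofReal (4 * A) * ENNReal.ofReal (C₀ * (4 * A) ^ k₀ * (∑ i, m i) / β) := by
        gcongr
        exact (measure_mono inter_subset_right).trans hhyp
    _ = ENNReal.ofReal (C₀ * (4 * A) ^ (k₀ + 1) * (∑ i, m i) / β) := by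
        rw [← ENNReal.ofReal_mul (by positivity)]
        congr 1
        rw [pow_succ]
        ring

theorem c2_local {ι : Type} [Fintype ι] (ζ : ι → ℂ) (m : ι → ℝ) (hm : ∀ i, 0 ≤ m i)
    (ℓ : ℝ) (h : ℝ → ℂ)
    (hL : ∀ s ∈ Icc 0 ℓ, ∀ t ∈ Icc 0 ℓ, ‖h s - h t‖ ≤ |s - t|)
    (B θ : ℝ) (hB : 0 < B) (hθ : 0 < θ) (hθ1 : θ ≤ 1)
    (hbig : ∀ a b : ℝ, a < b → Icc a b ⊆ Icc 0 ℓ →
      ∃ G : Set ℝ, IsCompact G ∧ G ⊆ Icc a b ∧ ENNReal.ofReal (θ * (b - a)) ≤ volume G ∧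
      ∀ m' : ι → ℝ, (∀ i, 0 ≤ m' i) → ∀ β : ℝ, 0 < β →
        volume {t ∈ G | ∃ ρ : ℝ, 0 < ρ ∧ β < ‖Tr ζ m' ρ (h t)‖} ≤
          ENNReal.ofReal (B * (∑ i, m' i) / β))
    (ρ0 α ε γ : ℝ) (hρ0 : 0 < ρ0) (hα : 0 < α) (hε : 0 < ε) (hγ : 0 < γ)
    (h70 : 70 * γ ≤ ε / 2) (hBγ : 260 * B * γ / ε ≤ θ / 2)
    (u u0 r : ℝ) (hu : u ∈ Icc 0 ℓ) (hu0 : u0 ∈ Icc 0 ℓ) (hr0 : 0 < r) (hr : |u - u0| = r)
    (h0 : ∀ ρ, ρ0 ≤ ρ → ‖Tr ζ m ρ (h u0)‖ ≤ α) :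
    volume {v ∈ closedBall u (r / 2) ∩ Icc 0 ℓ |
      (∃ ρ, ρ0 ≤ ρ ∧ (1 + ε) * α < ‖Tr ζ m ρ (h v)‖) ∧ ∀ ρ, 0 < ρ → Nr ζ m ρ (h v) ≤ γ * α} ≤
      ENNReal.ofReal (1 - θ / 2) * volume (closedBall u (r / 2) ∩ Icc 0 ℓ) ∧
    ENNReal.ofReal (r / 2) ≤ volume (closedBall u (r / 2) ∩ Icc 0 ℓ) := by
  rw [Real.closedBall_eq_Icc, Icc_inter_Icc]
  set a := (u - r / 2) ⊔ 0 with ha
  set b := (u + r / 2) ⊓ ℓ with hb
  have hba : r / 2 ≤ b - a := by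
    rcases le_total u u0 with hcase | hcase
    · rw [abs_of_nonpos (by linarith)] at hr
      have h1 : b = u + r / 2 := min_eq_left (by linarith [hu0.2])
      have h2 : a ≤ u := max_le (by linarith) hu.1
      linarith
    · rw [abs_of_nonneg (by linarith)] at hr
      have h1 : a = u - r / 2 := max_eq_left (by linarith [hu0.1])
      have h2 : u ≤ b := le_min (by linarith) hu.2
      linarith
  have hab : a < b := by linarith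
  have hsub : Icc a b ⊆ Icc 0 ℓ := Icc_subset_Icc (le_max_right _ _) (min_le_right _ _)
  have hclose : ∀ v ∈ Icc a b, ‖h v - h u0‖ ≤ 2 * r := by
    intro v hv
    refine (hL v (hsub hv) u0 hu0).trans ?_
    have h1 : u - r / 2 ≤ v := le_trans (le_max_left _ _) hv.1
    have h2 : v ≤ u + r / 2 := le_trans hv.2 (min_le_left _ _)
    have h3 : |v - u| ≤ r / 2 := abs_le.mpr ⟨by linarith, by linarith⟩
    calc |v - u0| = |(v - u) + (u - u0)| := by ring_nf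
      _ ≤ |v - u| + |u - u0| := abs_add_le _ _
      _ ≤ 2 * r := by linarith
  refine ⟨?_, by rw [Real.volume_Icc]; exact ENNReal.ofReal_le_ofReal hba⟩
  set Q : Set ℝ := {v ∈ Icc a b |
      (∃ ρ, ρ0 ≤ ρ ∧ (1 + ε) * α < ‖Tr ζ m ρ (h v)‖) ∧ ∀ ρ, 0 < ρ → Nr ζ m ρ (h v) ≤ γ * α} with hQ
  rcases Q.eq_empty_or_nonempty with hQe | ⟨v1, hv1⟩
  · rw [hQe, measure_empty]
    exact zero_le
  obtain ⟨G, hGc, hGs, hGv, hG⟩ := hbig a b hab hsub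
  set mn : ι → ℝ := fun i => if ‖ζ i - h u0‖ < 6 * r then m i else 0 with hmn
  have hmn0 : ∀ i, 0 ≤ mn i := fun i => by
    simp only [hmn]; split_ifs
    · exact hm i
    · exact le_rfl
  have hmass : (∑ i, mn i) ≤ 65 * r * (γ * α) :=
    (c2_pointwise ζ m hm (h v1) (h u0) r ρ0 α (γ * α) hr0 hρ0 (hclose v1 hv1.1) h0 hv1.2.2).1
  have hsub2 : Q ⊆ (Icc a b \ G) ∪ {t ∈ G | ∃ ρ : ℝ, 0 < ρ ∧ ε / 2 * α < ‖Tr ζ mn ρ (h t)‖} := by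
    intro v hv
    by_cases hvG : v ∈ G
    · right
      obtain ⟨hvI, ⟨ρ, hρ, hbigv⟩, hNv⟩ := hv
      refine ⟨hvG, ρ, lt_of_lt_of_le hρ0 hρ, ?_⟩
      have h1 := (c2_pointwise ζ m hm (h v) (h u0) r ρ0 α (γ * α) hr0 hρ0 (hclose v hvI) h0 hNv).2
        ρ hρ
      have h2 : 70 * (γ * α) ≤ ε / 2 * α := by
        have := mul_le_mul_of_nonneg_right h70 hα.le
        linarith
      have h3 : (1 + ε) * α = α + ε * α := by ring
      rw [h3] at hbigv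
      linarith
    · left
      exact ⟨hv.1, hvG⟩
  have hfinG : volume G ≠ ∞ := hGc.measure_lt_top.ne
  have h1 : volume (Icc a b \ G) ≤ ENNReal.ofReal ((1 - θ) * (b - a)) := by
    rw [measure_sdiff hGs hGc.measurableSet.nullMeasurableSet hfinG, Real.volume_Icc]
    calc ENNReal.ofReal (b - a) - volume G ≤ ENNReal.ofReal (b - a) - ENNReal.ofReal (θ * (b - a)) :=
          tsub_le_tsub_left hGv _
      _ = ENNReal.ofReal (b - a - θ * (b - a)) :=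
          (ENNReal.ofReal_sub (b - a) (mul_nonneg hθ.le (by linarith))).symm
      _ = _ := by congr 1; ring
  have h2 : volume {t ∈ G | ∃ ρ : ℝ, 0 < ρ ∧ ε / 2 * α < ‖Tr ζ mn ρ (h t)‖} ≤
      ENNReal.ofReal (θ / 2 * (b - a)) := by
    refine (hG mn hmn0 (ε / 2 * α) (by positivity)).trans (ENNReal.ofReal_le_ofReal ?_)
    calc B * (∑ i, mn i) / (ε / 2 * α) ≤ B * (65 * r * (γ * α)) / (ε / 2 * α) := by
          gcongr
      _ = 260 * B * γ / ε * (r / 2) := by field_simp; ring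
      _ ≤ θ / 2 * (b - a) := mul_le_mul hBγ hba (by positivity) (by positivity)
  calc volume Q ≤ volume ((Icc a b \ G) ∪
        {t ∈ G | ∃ ρ : ℝ, 0 < ρ ∧ ε / 2 * α < ‖Tr ζ mn ρ (h t)‖}) := measure_mono hsub2
    _ ≤ volume (Icc a b \ G) + volume {t ∈ G | ∃ ρ : ℝ, 0 < ρ ∧ ε / 2 * α < ‖Tr ζ mn ρ (h t)‖} :=
        measure_union_le _ _
    _ ≤ ENNReal.ofReal ((1 - θ) * (b - a)) + ENNReal.ofReal (θ / 2 * (b - a)) := add_le_add h1 h2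
    _ = ENNReal.ofReal (1 - θ / 2) * volume (Icc a b) := by
        rw [Real.volume_Icc, ← ENNReal.ofReal_mul (by linarith),
          ← ENNReal.ofReal_add (mul_nonneg (by linarith) (by linarith))
            (mul_nonneg (by linarith) (by linarith))]
        congr 1
        ring

theorem c2_kr_continuous (ρ : ℝ) (hρ : 0 < ρ) : Continuous (kr ρ) := by
  unfold kr
  refine Continuous.div (by fun_prop) (by fun_prop) fun w => ?_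
  exact_mod_cast (c2_den_pos ρ hρ w).ne'

theorem c2_Tr_continuous {ι : Type} [Fintype ι] (ζ : ι → ℂ) (m : ι → ℝ) (ρ : ℝ) (hρ : 0 < ρ) :
    Continuous (Tr ζ m ρ) := by
  unfold Tr
  refine continuous_finsetSum _ fun i _ => ?_
  exact continuous_const.mul ((c2_kr_continuous ρ hρ).comp (by fun_prop))

theorem c2_goodlambda {ι : Type} [Fintype ι] (ζ : ι → ℂ) (m : ι → ℝ) (hm : ∀ i, 0 ≤ m i)
    (ℓ : ℝ) (hℓ : 0 < ℓ) (h : ℝ → ℂ)
    (hL : ∀ s ∈ Icc 0 ℓ, ∀ t ∈ Icc 0 ℓ, ‖h s - h t‖ ≤ |s - t|)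
    (B θ : ℝ) (hB : 0 < B) (hθ : 0 < θ) (hθ1 : θ ≤ 1)
    (hbig : ∀ a b : ℝ, a < b → Icc a b ⊆ Icc 0 ℓ →
      ∃ G : Set ℝ, IsCompact G ∧ G ⊆ Icc a b ∧ ENNReal.ofReal (θ * (b - a)) ≤ volume G ∧
      ∀ m' : ι → ℝ, (∀ i, 0 ≤ m' i) → ∀ β : ℝ, 0 < β →
        volume {t ∈ G | ∃ ρ : ℝ, 0 < ρ ∧ β < ‖Tr ζ m' ρ (h t)‖} ≤
          ENNReal.ofReal (B * (∑ i, m' i) / β))
    (ρ0 α ε γ : ℝ) (hρ0 : 0 < ρ0) (hα : 0 < α) (hε : 0 < ε) (hγ : 0 < γ)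
    (h70 : 70 * γ ≤ ε / 2) (hBγ : 260 * B * γ / ε ≤ θ / 2)
    (hne : {u ∈ Icc 0 ℓ | ∀ ρ, ρ0 ≤ ρ → ‖Tr ζ m ρ (h u)‖ ≤ α}.Nonempty) :
    (volume {u ∈ Icc 0 ℓ | ∃ ρ, ρ0 ≤ ρ ∧ (1 + ε) * α < ‖Tr ζ m ρ (h u)‖}).toReal ≤
      (volume {u ∈ Icc 0 ℓ | ∃ ρ, 0 < ρ ∧ γ * α < Nr ζ m ρ (h u)}).toReal +
      (1 - θ / 20) * (volume {u ∈ Icc 0 ℓ | ∃ ρ, ρ0 ≤ ρ ∧ α < ‖Tr ζ m ρ (h u)‖}).toReal := by
  set F : Set ℝ := {u ∈ Icc 0 ℓ | ∀ ρ, ρ0 ≤ ρ → ‖Tr ζ m ρ (h u)‖ ≤ α} with hF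
  set U : Set ℝ := {u ∈ Icc 0 ℓ | ∃ ρ, ρ0 ≤ ρ ∧ α < ‖Tr ζ m ρ (h u)‖} with hU
  set E : Set ℝ := {u ∈ Icc 0 ℓ | ∃ ρ, ρ0 ≤ ρ ∧ (1 + ε) * α < ‖Tr ζ m ρ (h u)‖} with hE
  set P : Set ℝ := {u ∈ Icc 0 ℓ | ∃ ρ, 0 < ρ ∧ γ * α < Nr ζ m ρ (h u)} with hP
  have hhc : ContinuousOn h (Icc 0 ℓ) := by
    have : LipschitzOnWith 1 h (Icc 0 ℓ) := LipschitzOnWith.of_dist_le_mul fun s hs t ht => by
      rw [dist_eq_norm, Real.dist_eq, NNReal.coe_one, one_mul]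
      exact hL s hs t ht
    exact this.continuousOn
  have hFclosed : IsClosed F := by
    have h1 : F = Icc 0 ℓ ∩ ⋂ ρ : {ρ : ℝ // ρ0 ≤ ρ}, (Icc 0 ℓ ∩ (fun u => ‖Tr ζ m ρ (h u)‖) ⁻¹' Iic α) := by
      ext u
      simp only [hF, Set.mem_ofPred_eq, mem_inter_iff, mem_iInter, mem_preimage, mem_Iic, Subtype.forall]
      constructor
      · rintro ⟨h1, h2⟩
        exact ⟨h1, fun ρ hρ => ⟨h1, h2 ρ hρ⟩⟩
      · rintro ⟨h1, h2⟩
        exact ⟨h1, fun ρ hρ => (h2 ρ hρ).2⟩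
    rw [h1]
    refine isClosed_Icc.inter (isClosed_iInter fun ρ => ?_)
    refine ContinuousOn.preimage_isClosed_of_isClosed ?_ isClosed_Icc isClosed_Iic
    exact ((c2_Tr_continuous ζ m ρ (lt_of_lt_of_le hρ0 ρ.2)).norm).comp_continuousOn hhc
  have hFcomp : IsCompact F := isCompact_Icc.of_isClosed_subset hFclosed (fun u hu => hu.1)
  have hUF : ∀ u ∈ Icc 0 ℓ, u ∉ F → u ∈ U := by
    intro u hu huF
    refine ⟨hu, ?_⟩
    by_contra hcon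
    push Not at hcon
    exact huF ⟨hu, hcon⟩
  have hUnF : ∀ u ∈ U, u ∉ F := by
    rintro u ⟨_, ρ, hρ, hlt⟩ hu
    exact absurd (hu.2 ρ hρ) (not_le.mpr hlt)
  have hUF' : U = Icc 0 ℓ \ F := by
    ext u
    exact ⟨fun hu => ⟨hu.1, hUnF u hu⟩, fun hu => hUF u hu.1 hu.2⟩
  have hUmeas : MeasurableSet U := by
    rw [hUF']
    exact measurableSet_Icc.diff hFclosed.measurableSet
  -- distances
  have hdist : ∀ u ∈ U, ∃ u0 ∈ F, infDist u F = |u - u0| ∧ 0 < infDist u F := by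
    intro u hu
    obtain ⟨u0, hu0, hd⟩ := hFcomp.exists_infDist_eq_dist hne u
    refine ⟨u0, hu0, by rw [hd, Real.dist_eq], ?_⟩
    rw [hd]
    refine dist_pos.mpr fun heq => hUnF u hu ?_
    rw [heq]
    exact hu0
  obtain ⟨T, hTU, hTdisj, hTcov⟩ := Vitali.exists_disjoint_subfamily_covering_enlargement_closedBall
    U (fun u => u) (fun u => infDist u F / 2) ℓ (fun u hu => by
      obtain ⟨u0, hu0, hd, _⟩ := hdist u hu
      have h1 : |u - u0| ≤ ℓ := by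
        rw [abs_le]
        constructor <;> linarith [hu.1.1, hu.1.2, hu0.1.1, hu0.1.2]
      rw [hd]
      linarith) 5 (by norm_num)
  have hTcount : T.Countable := by
    refine hTdisj.countable_of_nonempty_interior fun u hu => ?_
    obtain ⟨u0, hu0, hd, hpos⟩ := hdist u (hTU hu)
    refine ⟨u, ball_subset_interior_closedBall (mem_ball_self (by positivity))⟩
  set J : ℝ → Set ℝ := fun u => closedBall u (infDist u F / 2) ∩ Icc 0 ℓ with hJ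
  have hJmeas : ∀ u ∈ T, MeasurableSet (J u) := fun u _ =>
    measurableSet_closedBall.inter measurableSet_Icc
  have hJdisj : T.PairwiseDisjoint J := fun u hu v hv huv =>
    (hTdisj hu hv huv).mono inter_subset_left inter_subset_left
  have hJU : ∀ u ∈ T, J u ⊆ U := by
    intro u hu v hv
    obtain ⟨u0, hu0, hd, hpos⟩ := hdist u (hTU hu)
    refine hUF v hv.2 ?_
    have h1 : dist v u ≤ infDist u F / 2 := hv.1
    apply notMem_of_dist_lt_infDist (x := u)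
    rw [dist_comm]
    linarith
  set V : Set ℝ := ⋃ u ∈ T, J u with hV
  have hVmeas : MeasurableSet V := MeasurableSet.biUnion hTcount hJmeas
  have hVU : V ⊆ U := iUnion₂_subset hJU
  have hVvol : volume V = ∑' u : T, volume (J u) := measure_biUnion hTcount hJdisj hJmeas
  have hlocal : ∀ u ∈ T, volume {v ∈ J u |
      (∃ ρ, ρ0 ≤ ρ ∧ (1 + ε) * α < ‖Tr ζ m ρ (h v)‖) ∧ ∀ ρ, 0 < ρ → Nr ζ m ρ (h v) ≤ γ * α} ≤
      ENNReal.ofReal (1 - θ / 2) * volume (J u) ∧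
    ENNReal.ofReal (infDist u F / 2) ≤ volume (J u) := by
    intro u hu
    obtain ⟨u0, hu0, hd, hpos⟩ := hdist u (hTU hu)
    exact c2_local ζ m hm ℓ h hL B θ hB hθ hθ1 hbig ρ0 α ε γ hρ0 hα hε hγ h70 hBγ u u0 (infDist u F)
      (hTU hu).1 hu0.1 hpos hd.symm hu0.2
  -- volume U ≤ 10 volume V
  have hUV : volume U ≤ 10 * volume V := by
    have h1 : U ⊆ ⋃ u ∈ T, closedBall u (5 * (infDist u F / 2)) := by
      intro u hu
      obtain ⟨v, hv, hsubv⟩ := hTcov u hu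
      obtain ⟨u0, hu0, hd, hpos⟩ := hdist u hu
      exact mem_iUnion₂.mpr ⟨v, hv, hsubv (mem_closedBall_self (by positivity))⟩
    refine (measure_mono h1).trans ((measure_biUnion_le _ hTcount _).trans ?_)
    rw [hVvol, ← ENNReal.tsum_mul_left]
    refine ENNReal.tsum_le_tsum fun u => ?_
    rw [Real.volume_closedBall]
    refine le_trans ?_ (mul_le_mul_right (hlocal u u.2).2 10)
    rw [show (10 : ℝ≥0∞) = ENNReal.ofReal 10 by norm_num, ← ENNReal.ofReal_mul (by norm_num)]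
    apply ENNReal.ofReal_le_ofReal
    linarith
  -- decomposition
  set W : ℝ → Set ℝ := fun u => {v ∈ J u |
      (∃ ρ, ρ0 ≤ ρ ∧ (1 + ε) * α < ‖Tr ζ m ρ (h v)‖) ∧ ∀ ρ, 0 < ρ → Nr ζ m ρ (h v) ≤ γ * α} with hW
  have hEsub : E ⊆ P ∪ (U \ V) ∪ ⋃ u ∈ T, W u := by
    rintro v ⟨hvI, ρ, hρ, hlt⟩
    by_cases hvP : v ∈ P
    · exact Or.inl (Or.inl hvP)
    have hvU : v ∈ U := ⟨hvI, ρ, hρ, by nlinarith⟩
    by_cases hvV : v ∈ V
    · right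
      obtain ⟨u, hu, hvJ⟩ := mem_iUnion₂.mp hvV
      refine mem_iUnion₂.mpr ⟨u, hu, hvJ, ⟨ρ, hρ, hlt⟩, fun s hs => ?_⟩
      by_contra hcon
      push Not at hcon
      exact hvP ⟨hvI, s, hs, hcon⟩
    · exact Or.inl (Or.inr ⟨hvU, hvV⟩)
  have hWvol : volume (⋃ u ∈ T, W u) ≤ ENNReal.ofReal (1 - θ / 2) * volume V := by
    refine (measure_biUnion_le _ hTcount _).trans ?_
    rw [hVvol, ← ENNReal.tsum_mul_left]
    exact ENNReal.tsum_le_tsum fun u => (hlocal u u.2).1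
  have hEvol : volume E ≤ volume P + volume (U \ V) + ENNReal.ofReal (1 - θ / 2) * volume V := by
    refine (measure_mono hEsub).trans ((measure_union_le _ _).trans ?_)
    exact add_le_add (measure_union_le _ _) hWvol
  have hfin : ∀ S : Set ℝ, S ⊆ Icc 0 ℓ → volume S ≠ ∞ := fun S hS =>
    ((measure_mono hS).trans_lt (by rw [Real.volume_Icc]; exact ENNReal.ofReal_lt_top)).ne
  have hPfin := hfin P (fun u hu => hu.1)
  have hUfin := hfin U (fun u hu => hu.1)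
  have hVfin := hfin V (hVU.trans fun u hu => hu.1)
  have hDfin := hfin (U \ V) (sdiff_subset.trans fun u hu => hu.1)
  have hUsplit : volume U = volume (U \ V) + volume V := by
    rw [← measure_sdiff_add_inter U hVmeas, inter_eq_right.mpr hVU]
  have e1 : (volume E).toReal ≤ (volume P).toReal + (volume (U \ V)).toReal +
      (1 - θ / 2) * (volume V).toReal := by
    have h1 := ENNReal.toReal_mono (by finiteness) hEvol
    rw [ENNReal.toReal_add (by finiteness) (by finiteness), ENNReal.toReal_add hPfin hDfin,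
      ENNReal.toReal_mul, ENNReal.toReal_ofReal (by linarith)] at h1
    exact h1
  have e2 : (volume U).toReal = (volume (U \ V)).toReal + (volume V).toReal := by
    rw [hUsplit, ENNReal.toReal_add hDfin hVfin]
  have e3 : (volume U).toReal ≤ 10 * (volume V).toReal := by
    have h1 := ENNReal.toReal_mono (by finiteness) hUV
    rw [ENNReal.toReal_mul] at h1
    simpa using h1
  have e4 : θ / 20 * (volume U).toReal ≤ θ / 2 * (volume V).toReal := by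
    have := mul_le_mul_of_nonneg_left e3 (show 0 ≤ θ / 20 by positivity)
    linarith
  linarith

theorem c2_fixed {ι : Type} [Fintype ι] (ζ : ι → ℂ) (m : ι → ℝ) (hm : ∀ i, 0 ≤ m i)
    (ℓ : ℝ) (hℓ : 0 < ℓ) (h : ℝ → ℂ)
    (hL : ∀ s ∈ Icc 0 ℓ, ∀ t ∈ Icc 0 ℓ, ‖h s - h t‖ ≤ |s - t|)
    (B θ D : ℝ) (hB : 0 < B) (hθ : 0 < θ) (hθ1 : θ ≤ 1) (hD : 0 < D)
    (hbig : ∀ a b : ℝ, a < b → Icc a b ⊆ Icc 0 ℓ →
      ∃ G : Set ℝ, IsCompact G ∧ G ⊆ Icc a b ∧ ENNReal.ofReal (θ * (b - a)) ≤ volume G ∧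
      ∀ m' : ι → ℝ, (∀ i, 0 ≤ m' i) → ∀ β : ℝ, 0 < β →
        volume {t ∈ G | ∃ ρ : ℝ, 0 < ρ ∧ β < ‖Tr ζ m' ρ (h t)‖} ≤
          ENNReal.ofReal (B * (∑ i, m' i) / β))
    (hN : ∀ β : ℝ, 0 < β → volume {u ∈ Icc 0 ℓ | ∃ ρ : ℝ, 0 < ρ ∧ β < Nr ζ m ρ (h u)} ≤
      ENNReal.ofReal (D * (∑ i, m i) / β))
    (ρ0 : ℝ) (hρ0 : 0 < ρ0) (α : ℝ) (hα : 0 < α) :
    α * (volume {u ∈ Icc 0 ℓ | ∃ ρ, ρ0 ≤ ρ ∧ α < ‖Tr ζ m ρ (h u)‖}).toReal ≤
      40 / θ * (2 * (B / θ) + 2 * (D * (40000 * (1 + B)) / θ ^ 2)) * ∑ i, m i := by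
  set m0 : ℝ := ∑ i, m i with hm0
  have hm00 : 0 ≤ m0 := Finset.sum_nonneg fun i _ => hm i
  set ε : ℝ := θ / 40 with hε
  set γ : ℝ := θ ^ 2 / (40000 * (1 + B)) with hγ
  have hεp : 0 < ε := by positivity
  have hγp : 0 < γ := by positivity
  have h1B : 0 < 1 + B := by positivity
  have h70 : 70 * γ ≤ ε / 2 := by
    rw [hγ, hε, mul_div_assoc', div_le_iff₀ (by positivity)]
    have h2 : θ ^ 2 ≤ θ := by nlinarith
    have h3 : θ ≤ θ * (1 + B) := by nlinarith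
    nlinarith
  have hBγ : 260 * B * γ / ε ≤ θ / 2 := by
    rw [hγ, hε]
    have : 260 * B * (θ ^ 2 / (40000 * (1 + B))) / (θ / 40) = (260 / 1000) * (B / (1 + B)) * θ := by
      field_simp
      ring
    rw [this]
    have h2 : B / (1 + B) ≤ 1 := by
      rw [div_le_one h1B]; linarith
    have h3 : 0 ≤ B / (1 + B) := by positivity
    nlinarith
  set Us : ℝ → Set ℝ := fun α => {u ∈ Icc 0 ℓ | ∃ ρ, ρ0 ≤ ρ ∧ α < ‖Tr ζ m ρ (h u)‖} with hUs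
  set Φ : ℝ → ℝ := fun α => α * (volume (Us α)).toReal with hΦ
  have hfin : ∀ S : Set ℝ, S ⊆ Icc 0 ℓ → volume S ≠ ∞ := fun S hS =>
    ((measure_mono hS).trans_lt (by rw [Real.volume_Icc]; exact ENNReal.ofReal_lt_top)).ne
  have hvolℓ : ∀ S : Set ℝ, S ⊆ Icc 0 ℓ → (volume S).toReal ≤ ℓ := fun S hS => by
    have h1 := ENNReal.toReal_mono (by rw [Real.volume_Icc]; exact ENNReal.ofReal_ne_top)
      (measure_mono (μ := volume) hS)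
    rw [Real.volume_Icc, ENNReal.toReal_ofReal (by linarith)] at h1
    linarith
  -- a priori bound
  have hapri : ∀ a : ℝ, 0 < a → Φ a ≤ m0 / ρ0 * ℓ := by
    intro a ha
    rcases le_or_gt (m0 / ρ0) a with hcase | hcase
    · have hempty : Us a = ∅ := by
        rw [eq_empty_iff_forall_notMem]
        rintro u ⟨_, ρ, hρ, hlt⟩
        have h1 := c2_Tr_norm_le ζ m hm (h u) ρ (lt_of_lt_of_le hρ0 hρ)
        have h2 : (∑ i, m i) / ρ ≤ m0 / ρ0 := by gcongr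
        linarith
      simp only [hΦ, hempty, measure_empty, ENNReal.toReal_zero, mul_zero]
      positivity
    · exact mul_le_mul hcase.le (hvolℓ _ fun u hu => hu.1) ENNReal.toReal_nonneg (by positivity)
  set S : ℝ := ⨆ a : {a : ℝ // 0 < a}, Φ a with hS
  have hbdd : BddAbove (Set.range fun a : {a : ℝ // 0 < a} => Φ a) :=
    ⟨m0 / ρ0 * ℓ, by rintro _ ⟨a, rfl⟩; exact hapri a a.2⟩
  have hΦS : ∀ a : ℝ, 0 < a → Φ a ≤ S := fun a ha => le_ciSup hbdd ⟨a, ha⟩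
  have hΦ0 : ∀ a : ℝ, 0 < a → 0 ≤ Φ a := fun a ha => mul_nonneg ha.le ENNReal.toReal_nonneg
  have hS0 : 0 ≤ S := (hΦ0 1 one_pos).trans (hΦS 1 one_pos)
  set E1 : ℝ := 2 * (B * m0 / θ) with hE1
  set E2 : ℝ := 2 * (D * m0 / γ) with hE2
  have hE10 : 0 ≤ E1 := by positivity
  have hE20 : 0 ≤ E2 := by positivity
  have hε1 : 1 + ε ≤ 2 := by rw [hε]; linarith
  have hstep : ∀ a : ℝ, 0 < a → Φ ((1 + ε) * a) ≤ E1 + E2 + (1 - θ / 40) * S := by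
    intro a ha
    have hlast : 0 ≤ (1 - θ / 40) * S := mul_nonneg (by linarith) hS0
    by_cases hne : {u ∈ Icc 0 ℓ | ∀ ρ, ρ0 ≤ ρ → ‖Tr ζ m ρ (h u)‖ ≤ a}.Nonempty
    · have h1 := c2_goodlambda ζ m hm ℓ hℓ h hL B θ hB hθ hθ1 hbig ρ0 a ε γ hρ0 ha hεp hγp h70 hBγ hne
      have h2 : (volume {u ∈ Icc 0 ℓ | ∃ ρ, 0 < ρ ∧ γ * a < Nr ζ m ρ (h u)}).toReal ≤
          D * m0 / (γ * a) := by
        have h3 := ENNReal.toReal_mono ENNReal.ofReal_ne_top (hN (γ * a) (by positivity))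
        rwa [ENNReal.toReal_ofReal (by positivity)] at h3
      have h4 : Φ ((1 + ε) * a) ≤ (1 + ε) * a * (D * m0 / (γ * a) +
          (1 - θ / 20) * (volume (Us a)).toReal) := by
        refine mul_le_mul_of_nonneg_left ?_ (by positivity)
        exact h1.trans (by linarith)
      have h5 : (1 + ε) * a * (D * m0 / (γ * a) + (1 - θ / 20) * (volume (Us a)).toReal) =
          (1 + ε) * (D * m0 / γ) + (1 + ε) * (1 - θ / 20) * Φ a := by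
        simp only [hΦ]
        field_simp
      have h6 : (1 + ε) * (D * m0 / γ) ≤ E2 := by
        rw [hE2]
        exact mul_le_mul_of_nonneg_right hε1 (by positivity)
      have h7 : (1 + ε) * (1 - θ / 20) ≤ 1 - θ / 40 := by
        rw [hε]; nlinarith
      have h8 : (1 + ε) * (1 - θ / 20) * Φ a ≤ (1 - θ / 40) * S :=
        mul_le_mul h7 (hΦS a ha) (hΦ0 a ha) (by linarith)
      linarith
    · -- the level set is everything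
      have hall : ∀ u ∈ Icc 0 ℓ, ∃ ρ, ρ0 ≤ ρ ∧ a < ‖Tr ζ m ρ (h u)‖ := by
        intro u hu
        by_contra hcon
        push Not at hcon
        exact hne ⟨u, hu, hcon⟩
      obtain ⟨G, hGc, hGs, hGv, hG⟩ := hbig 0 ℓ hℓ Subset.rfl
      have h1 : G ⊆ {t ∈ G | ∃ ρ : ℝ, 0 < ρ ∧ a < ‖Tr ζ m ρ (h t)‖} := by
        intro t ht
        obtain ⟨ρ, hρ, hlt⟩ := hall t (hGs ht)
        exact ⟨ht, ρ, lt_of_lt_of_le hρ0 hρ, hlt⟩
      have h2 := hGv.trans ((measure_mono h1).trans (hG m hm a ha))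
      rw [ENNReal.ofReal_le_ofReal_iff (by positivity), sub_zero] at h2
      have h3 : (volume (Us ((1 + ε) * a))).toReal ≤ ℓ := hvolℓ _ fun u hu => hu.1
      have h4 : a * ℓ ≤ B * m0 / θ := by
        rw [le_div_iff₀ hθ]
        rw [le_div_iff₀ ha] at h2
        linarith
      have h5 : Φ ((1 + ε) * a) ≤ (1 + ε) * a * ℓ :=
        mul_le_mul_of_nonneg_left h3 (by positivity)
      have h6 : (1 + ε) * a * ℓ ≤ E1 := by
        rw [hE1, mul_assoc]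
        exact mul_le_mul hε1 h4 (by positivity) (by norm_num)
      linarith
  have hSle : S ≤ E1 + E2 + (1 - θ / 40) * S := by
    have : Nonempty {a : ℝ // 0 < a} := ⟨⟨1, one_pos⟩⟩
    refine ciSup_le fun a => ?_
    have h1 := hstep (a / (1 + ε)) (div_pos a.2 (by positivity))
    rwa [mul_div_cancel₀ _ (by positivity : (1 + ε) ≠ 0)] at h1
  have hfinal : S ≤ 40 / θ * (E1 + E2) := by
    have h1 : θ / 40 * S ≤ E1 + E2 := by linarith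
    calc S = 40 / θ * (θ / 40 * S) := by field_simp
      _ ≤ 40 / θ * (E1 + E2) := mul_le_mul_of_nonneg_left h1 (by positivity)
  refine (hΦS α hα).trans (hfinal.trans (le_of_eq ?_))
  rw [hE1, hE2, hγ]
  field_simp

/-- C2: weak type on upper regular 1-Lipschitz curves -/
theorem weak_curve (C₀ : ℝ) (k₀ : ℕ) (hC₀ : 0 < C₀)
    (hyp : ∀ M : ℝ, 1 ≤ M → ∀ A : ℝ → ℝ,
      (∀ x y, |A x - A y| ≤ M * |x - y|) →
      ∀ (ι : Type) [Fintype ι] (ζ : ι → ℂ) (m : ι → ℝ), (∀ i, 0 ≤ m i) → ∀ α : ℝ, 0 < α →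
      volume {x : ℝ | ∃ ρ : ℝ, 0 < ρ ∧ α < ‖Tr ζ m ρ (⟨x, A x⟩ : ℂ)‖}
        ≤ ENNReal.ofReal (C₀ * M ^ k₀ * (∑ i, m i) / α))
    (C₁ : ℝ) (hC₁ : 0 < C₁)
    (hN : ∀ (S : Set ℝ) (h : ℝ → ℂ) (A : ℝ), 0 < A →
    (∀ (p : ℂ) (R : ℝ), 0 < R → volume {u ∈ S | ‖h u - p‖ < R} ≤ ENNReal.ofReal (A * R)) →
    ∀ (ι : Type) [Fintype ι] (ζ : ι → ℂ) (m : ι → ℝ), (∀ i, 0 ≤ m i) → ∀ α : ℝ, 0 < α →
      volume {u ∈ S | ∃ ρ : ℝ, 0 < ρ ∧ α < Nr ζ m ρ (h u)}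
        ≤ ENNReal.ofReal (C₁ * A * (∑ i, m i) / α))
    (big_piece : ∀ (h : ℝ → ℂ) (a b u η : ℝ), a < b → u ∈ Icc a b → 0 < η →
      (∀ s ∈ Icc a b, ∀ t ∈ Icc a b, ‖h s - h t‖ ≤ |s - t|) →
      η * (b - a) ≤ ‖h u - h a‖ →
      ∃ G : Set ℝ, ∃ e : ℂ, IsCompact G ∧ G ⊆ Icc a b ∧ ‖e‖ = 1 ∧
        ENNReal.ofReal (η / 4 * (b - a)) ≤ volume G ∧
        ∀ s ∈ G, ∀ t ∈ G, s ≤ t → η / 2 * (t - s) ≤ (e * (h t - h s)).re) :
    ∃ C : ℝ, ∃ k : ℕ, 0 < C ∧ ∀ A : ℝ, 1 ≤ A → ∀ ℓ : ℝ, 0 < ℓ → ∀ h : ℝ → ℂ,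
      (∀ s ∈ Icc 0 ℓ, ∀ t ∈ Icc 0 ℓ, ‖h s - h t‖ ≤ |s - t|) →
      (∀ (p : ℂ) (R : ℝ), 0 < R →
        volume {u ∈ Icc 0 ℓ | ‖h u - p‖ < R} ≤ ENNReal.ofReal (A * R)) →
      ∀ (ι : Type) [Fintype ι] (ζ : ι → ℂ) (m : ι → ℝ), (∀ i, 0 ≤ m i) → ∀ α : ℝ, 0 < α →
      volume {u ∈ Icc 0 ℓ | ∃ ρ : ℝ, 0 < ρ ∧ α < ‖Tr ζ m ρ (h u)‖}
        ≤ ENNReal.ofReal (C * A ^ k * (∑ i, m i) / α) := by
  refine ⟨640 * (8 + 2560000 * C₁) * (1 + C₀ * 4 ^ (k₀ + 1)), k₀ + 5, by positivity, ?_⟩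
  intro A hA ℓ hℓ h hL hR ι _ ζ m hm α hα
  have hA0 : 0 < A := by linarith
  set B : ℝ := C₀ * (4 * A) ^ (k₀ + 1) with hB
  set θ : ℝ := 1 / (8 * A) with hθ
  set m0 : ℝ := ∑ i, m i with hm0
  have hm00 : 0 ≤ m0 := Finset.sum_nonneg fun i _ => hm i
  have hBp : 0 < B := by positivity
  have hθp : 0 < θ := by positivity
  have hθ1 : θ ≤ 1 := by
    rw [hθ, div_le_one (by positivity)]
    linarith
  have hfix := fun (ρ0 : ℝ) (hρ0 : 0 < ρ0) =>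
    c2_fixed ζ m hm ℓ hℓ h hL B θ (C₁ * A) hBp hθp hθ1 (by positivity)
    (fun a b hab hsub => by
      obtain ⟨G, h1, h2, h3, h4⟩ := c2_big_bound C₀ k₀ hyp big_piece A hA ℓ h hL hR a b hab hsub
      exact ⟨G, h1, h2, h3, fun m' hm' β hβ => h4 ι ζ m' hm' β hβ⟩)
    (fun β hβ => hN (Icc 0 ℓ) h A hA0 hR ι ζ m hm β hβ) ρ0 hρ0 α hα
  -- constants
  have hconst : 40 / θ * (2 * (B / θ) + 2 * (C₁ * A * (40000 * (1 + B)) / θ ^ 2)) ≤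
      640 * (8 + 2560000 * C₁) * (1 + C₀ * 4 ^ (k₀ + 1)) * A ^ (k₀ + 5) := by
    have h1 : 40 / θ * (2 * (B / θ) + 2 * (C₁ * A * (40000 * (1 + B)) / θ ^ 2)) =
        640 * (8 * (B * A ^ 2) + 2560000 * C₁ * ((1 + B) * A ^ 4)) := by
      rw [hθ]
      field_simp
      ring
    have h2 : 1 + B ≤ (1 + C₀ * 4 ^ (k₀ + 1)) * A ^ (k₀ + 1) := by
      have h3 : 1 ≤ A ^ (k₀ + 1) := one_le_pow₀ hA
      rw [hB, mul_pow]
      nlinarith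
    have h4 : B * A ^ 2 ≤ (1 + B) * A ^ 4 := by
      have h5 : A ^ 2 ≤ A ^ 4 := pow_le_pow_right₀ hA (by norm_num)
      exact mul_le_mul (by linarith) h5 (by positivity) (by positivity)
    rw [h1]
    calc 640 * (8 * (B * A ^ 2) + 2560000 * C₁ * ((1 + B) * A ^ 4))
        ≤ 640 * (8 * ((1 + B) * A ^ 4) + 2560000 * C₁ * ((1 + B) * A ^ 4)) := by gcongr
      _ = 640 * (8 + 2560000 * C₁) * ((1 + B) * A ^ 4) := by ring
      _ ≤ 640 * (8 + 2560000 * C₁) * ((1 + C₀ * 4 ^ (k₀ + 1)) * A ^ (k₀ + 1) * A ^ 4) := by gcongr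
      _ = _ := by
        rw [show k₀ + 5 = (k₀ + 1) + 4 by ring, pow_add A (k₀ + 1) 4]
        ring
  set K : ℝ := 640 * (8 + 2560000 * C₁) * (1 + C₀ * 4 ^ (k₀ + 1)) * A ^ (k₀ + 5) with hK
  have hvolK : ∀ n : ℕ, volume {u ∈ Icc 0 ℓ | ∃ ρ, 1 / ((n : ℝ) + 1) ≤ ρ ∧ α < ‖Tr ζ m ρ (h u)‖} ≤
      ENNReal.ofReal (K * m0 / α) := by
    intro n
    have h1 := hfix (1 / ((n : ℝ) + 1)) (by positivity)
    have h2 : (volume {u ∈ Icc 0 ℓ | ∃ ρ, 1 / ((n : ℝ) + 1) ≤ ρ ∧ α < ‖Tr ζ m ρ (h u)‖}).toReal ≤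
        K * m0 / α := by
      rw [le_div_iff₀ hα, mul_comm]
      exact h1.trans (mul_le_mul_of_nonneg_right hconst hm00)
    rw [← ENNReal.ofReal_toReal (a := volume {u ∈ Icc 0 ℓ | ∃ ρ, 1 / ((n : ℝ) + 1) ≤ ρ ∧
      α < ‖Tr ζ m ρ (h u)‖}) ((measure_mono (fun u hu => hu.1 : _ ⊆ Icc 0 ℓ)).trans_lt
        (by rw [Real.volume_Icc]; exact ENNReal.ofReal_lt_top)).ne]
    exact ENNReal.ofReal_le_ofReal h2
  have hunion : {u ∈ Icc 0 ℓ | ∃ ρ : ℝ, 0 < ρ ∧ α < ‖Tr ζ m ρ (h u)‖} =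
      ⋃ n : ℕ, {u ∈ Icc 0 ℓ | ∃ ρ, 1 / ((n : ℝ) + 1) ≤ ρ ∧ α < ‖Tr ζ m ρ (h u)‖} := by
    ext u
    simp only [Set.mem_ofPred_eq, mem_iUnion]
    constructor
    · rintro ⟨hu, ρ, hρ, hlt⟩
      obtain ⟨n, hn⟩ := exists_nat_one_div_lt hρ
      exact ⟨n, hu, ρ, hn.le, hlt⟩
    · rintro ⟨n, hu, ρ, hρ, hlt⟩
      exact ⟨hu, ρ, lt_of_lt_of_le (by positivity) hρ, hlt⟩
  have hmono : Monotone fun n : ℕ =>
      {u ∈ Icc 0 ℓ | ∃ ρ, 1 / ((n : ℝ) + 1) ≤ ρ ∧ α < ‖Tr ζ m ρ (h u)‖} := by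
    rintro n k hnk u ⟨hu, ρ, hρ, hlt⟩
    refine ⟨hu, ρ, le_trans ?_ hρ, hlt⟩
    have : (n : ℝ) ≤ k := by exact_mod_cast hnk
    gcongr
  rw [hunion, hmono.measure_iUnion]
  exact iSup_le hvolK

end P362
end Pool.Agent.Helper311.Nev
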