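import Mathlib
import Pool.Agent.Helper311.Nev.Ker

open MeasureTheory Set Filter Topology Metric
open scoped ENNReal NNReal

namespace Pool.Agent.Helper311.Nev
namespace P363


section B1

lemma b1_kr_norm (ρ : ℝ) (w : ℂ) : ‖kr ρ w‖ = ‖w‖ / (‖w‖ ^ 2 + ρ ^ 2) := by
  have h : 0 ≤ ‖w‖ ^ 2 + ρ ^ 2 := by positivity
  rw [kr, norm_div, RCLike.norm_conj, Complex.norm_real, Real.norm_of_nonneg h]

lemma b1_den_pos {ρ : ℝ} (hρ : 0 < ρ) (w : ℂ) : 0 < ‖w‖ ^ 2 + ρ ^ 2 := by positivity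

lemma b1_kr_mul_norm {ρ : ℝ} (hρ : 0 < ρ) (w : ℂ) : ‖kr ρ w‖ * ‖w‖ ≤ 1 := by
  rw [b1_kr_norm, div_mul_eq_mul_div, div_le_one (b1_den_pos hρ w)]
  nlinarith [sq_nonneg ρ]

lemma b1_kr_mul_rho {ρ : ℝ} (hρ : 0 < ρ) (w : ℂ) : ‖kr ρ w‖ * ρ ≤ 1 := by
  rw [b1_kr_norm, div_mul_eq_mul_div, div_le_one (b1_den_pos hρ w)]
  nlinarith [sq_nonneg (‖w‖ - ρ), sq_nonneg ρ, sq_nonneg ‖w‖, norm_nonneg w]

lemma b1_kr_diff {ρ : ℝ} (hρ : 0 < ρ) (w w' : ℂ) :
    ‖kr ρ w - kr ρ w'‖ ≤ ‖w - w'‖ * (‖w‖ * ‖w'‖ + ρ ^ 2) /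
      ((‖w‖ ^ 2 + ρ ^ 2) * (‖w'‖ ^ 2 + ρ ^ 2)) := by
  have h1 := b1_den_pos hρ w
  have h2 := b1_den_pos hρ w'
  have e1 : (((‖w‖ ^ 2 + ρ ^ 2 : ℝ)) : ℂ) ≠ 0 := by exact_mod_cast h1.ne'
  have e2 : (((‖w'‖ ^ 2 + ρ ^ 2 : ℝ)) : ℂ) ≠ 0 := by exact_mod_cast h2.ne'
  have key : kr ρ w - kr ρ w' = ((starRingEnd ℂ) w * (starRingEnd ℂ) w' * (w' - w) +
      (ρ ^ 2 : ℝ) * ((starRingEnd ℂ) w - (starRingEnd ℂ) w')) /
      (((‖w‖ ^ 2 + ρ ^ 2 : ℝ) : ℂ) * ((‖w'‖ ^ 2 + ρ ^ 2 : ℝ) : ℂ)) := by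
    unfold kr
    rw [div_sub_div _ _ e1 e2]
    congr 1
    have a1 : ((‖w‖ : ℂ)) ^ 2 = w * (starRingEnd ℂ) w := by
      rw [Complex.mul_conj, Complex.normSq_eq_norm_sq]; push_cast; rfl
    have a2 : ((‖w'‖ : ℂ)) ^ 2 = w' * (starRingEnd ℂ) w' := by
      rw [Complex.mul_conj, Complex.normSq_eq_norm_sq]; push_cast; rfl
    push_cast
    rw [a1, a2]
    ring
  rw [key, norm_div, norm_mul, Complex.norm_real, Complex.norm_real, Real.norm_of_nonneg h1.le,
    Real.norm_of_nonneg h2.le]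
  refine div_le_div_of_nonneg_right ?_ (by positivity)
  refine (norm_add_le _ _).trans ?_
  rw [norm_mul, norm_mul, norm_mul, RCLike.norm_conj, RCLike.norm_conj, ← map_sub,
    RCLike.norm_conj, Complex.norm_real, Real.norm_of_nonneg (sq_nonneg ρ), norm_sub_rev w' w]
  nlinarith

lemma b1_kr_diff1 {ρ : ℝ} (hρ : 0 < ρ) (w w' : ℂ) :
    ‖kr ρ w - kr ρ w'‖ * (‖w‖ * ‖w'‖) ≤ ‖w - w'‖ := by
  have h1 := b1_den_pos hρ w
  have h2 := b1_den_pos hρ w'
  have h := b1_kr_diff hρ w w'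
  have h3 : (‖w‖ * ‖w'‖ + ρ ^ 2) * (‖w‖ * ‖w'‖) ≤ (‖w‖ ^ 2 + ρ ^ 2) * (‖w'‖ ^ 2 + ρ ^ 2) := by
    have := sq_nonneg (‖w‖ - ‖w'‖)
    have h4 : ‖w‖ * ‖w'‖ ≤ ‖w‖ ^ 2 + ‖w'‖ ^ 2 := by nlinarith [norm_nonneg w, norm_nonneg w']
    nlinarith [mul_le_mul_of_nonneg_left h4 (sq_nonneg ρ), sq_nonneg (ρ ^ 2)]
  calc ‖kr ρ w - kr ρ w'‖ * (‖w‖ * ‖w'‖) ≤ (‖w - w'‖ * (‖w‖ * ‖w'‖ + ρ ^ 2) /
      ((‖w‖ ^ 2 + ρ ^ 2) * (‖w'‖ ^ 2 + ρ ^ 2))) * (‖w‖ * ‖w'‖) :=
        mul_le_mul_of_nonneg_right h (by positivity)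
    _ = ‖w - w'‖ * (((‖w‖ * ‖w'‖ + ρ ^ 2) * (‖w‖ * ‖w'‖)) /
      ((‖w‖ ^ 2 + ρ ^ 2) * (‖w'‖ ^ 2 + ρ ^ 2))) := by ring
    _ ≤ ‖w - w'‖ * 1 := by
        refine mul_le_mul_of_nonneg_left ?_ (norm_nonneg _)
        rw [div_le_one (by positivity)]
        exact h3
    _ = ‖w - w'‖ := mul_one _

lemma b1_kr_diff2 {ρ : ℝ} (hρ : 0 < ρ) (w w' : ℂ) :
    ‖kr ρ w - kr ρ w'‖ * ρ ^ 2 ≤ ‖w - w'‖ := by
  have h1 := b1_den_pos hρ w
  have h2 := b1_den_pos hρ w'
  have h := b1_kr_diff hρ w w'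
  have h3 : (‖w‖ * ‖w'‖ + ρ ^ 2) * ρ ^ 2 ≤ (‖w‖ ^ 2 + ρ ^ 2) * (‖w'‖ ^ 2 + ρ ^ 2) := by
    have h4 : ‖w‖ * ‖w'‖ ≤ ‖w‖ ^ 2 + ‖w'‖ ^ 2 := by
      nlinarith [norm_nonneg w, norm_nonneg w', sq_nonneg (‖w‖ - ‖w'‖)]
    nlinarith [mul_le_mul_of_nonneg_left h4 (sq_nonneg ρ), sq_nonneg (ρ ^ 2),
      sq_nonneg (‖w‖ * ‖w'‖)]
  calc ‖kr ρ w - kr ρ w'‖ * ρ ^ 2 ≤ (‖w - w'‖ * (‖w‖ * ‖w'‖ + ρ ^ 2) /
      ((‖w‖ ^ 2 + ρ ^ 2) * (‖w'‖ ^ 2 + ρ ^ 2))) * ρ ^ 2 :=
        mul_le_mul_of_nonneg_right h (by positivity)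
    _ = ‖w - w'‖ * (((‖w‖ * ‖w'‖ + ρ ^ 2) * ρ ^ 2) /
      ((‖w‖ ^ 2 + ρ ^ 2) * (‖w'‖ ^ 2 + ρ ^ 2))) := by ring
    _ ≤ ‖w - w'‖ * 1 := by
        refine mul_le_mul_of_nonneg_left ?_ (norm_nonneg _)
        rw [div_le_one (by positivity)]
        exact h3
    _ = ‖w - w'‖ := mul_one _

lemma b1_kr_cont {ρ : ℝ} (hρ : 0 < ρ) : Continuous (kr ρ) := by
  unfold kr
  refine Continuous.div (Complex.continuous_conj) (by fun_prop) ?_
  intro w
  exact_mod_cast (b1_den_pos hρ w).ne'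

/-- points on the graph -/
noncomputable def zg (A : ℝ → ℝ) (x : ℝ) : ℂ := ⟨x, A x⟩

lemma b1_zg_lower (A : ℝ → ℝ) (x y : ℝ) : |y - x| ≤ ‖zg A y - zg A x‖ := by
  have := Complex.abs_re_le_norm (zg A y - zg A x)
  simpa [zg] using this

lemma b1_norm_le (a b : ℝ) : ‖(⟨a, b⟩ : ℂ)‖ ≤ |a| + |b| := by
  have := Complex.norm_le_abs_re_add_abs_im (⟨a, b⟩ : ℂ)
  simpa using this

lemma b1_zg_upper {A : ℝ → ℝ} {M : ℝ} (hA : ∀ x y, |A x - A y| ≤ M * |x - y|) (x y : ℝ) :
    ‖zg A y - zg A x‖ ≤ (1 + M) * |y - x| := by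
  have h : zg A y - zg A x = ⟨y - x, A y - A x⟩ := by
    apply Complex.ext <;> simp [zg]
  rw [h]
  refine (b1_norm_le _ _).trans ?_
  have := hA y x
  linarith

lemma b1_A_cont {A : ℝ → ℝ} {M : ℝ} (hA : ∀ x y, |A x - A y| ≤ M * |x - y|) : Continuous A := by
  have hM : 0 ≤ M := by
    have := hA 1 0
    have h0 := abs_nonneg (A 1 - A 0)
    simp at this
    linarith
  refine (LipschitzWith.of_dist_le_mul (K := ⟨M, hM⟩) ?_).continuous
  intro x y
  rw [Real.dist_eq, Real.dist_eq]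
  exact hA x y

lemma b1_zg_cont {A : ℝ → ℝ} (hA : Continuous A) : Continuous (zg A) := by
  have h : zg A = fun x : ℝ => ((x : ℝ) : ℂ) + ((A x : ℝ) : ℂ) * Complex.I := by
    funext x
    apply Complex.ext <;> simp [zg]
  rw [h]
  fun_prop

/-- Poisson type function -/
noncomputable def Pf (s u : ℝ) : ℝ := s / (u ^ 2 + s ^ 2)

lemma Pf_nonneg {s : ℝ} (hs : 0 < s) (u : ℝ) : 0 ≤ Pf s u := by unfold Pf; positivity

lemma Pf_meas (s ξ : ℝ) : Measurable (fun x => Pf s (x - ξ)) := by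
  unfold Pf
  fun_prop

lemma Pf_lintegral {s : ℝ} (hs : 0 < s) (ξ : ℝ) :
    ∫⁻ x, ENNReal.ofReal (Pf s (x - ξ)) = ENNReal.ofReal Real.pi := by
  rw [lintegral_sub_right_eq_self (fun x => ENNReal.ofReal (Pf s x)) ξ]
  have h1 : ∀ x, Pf s x = s⁻¹ * (1 + (s⁻¹ * x) ^ 2)⁻¹ := by
    intro x
    unfold Pf
    field_simp
    ring
  have hint : Integrable (fun x : ℝ => (1 + (s⁻¹ * x) ^ 2)⁻¹) :=
    integrable_inv_one_add_sq.comp_mul_left' (inv_ne_zero hs.ne')
  have hI : Integrable (fun x => Pf s x) := by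
    simp only [h1]
    exact hint.const_mul _
  rw [← ofReal_integral_eq_lintegral_ofReal hI (Filter.Eventually.of_forall fun x => Pf_nonneg hs x)]
  congr 1
  simp only [h1]
  rw [integral_const_mul, Measure.integral_comp_mul_left (fun x => (1 + x ^ 2)⁻¹) s⁻¹,
    integral_univ_inv_one_add_sq, inv_inv, abs_of_pos hs, smul_eq_mul, ← mul_assoc,
    inv_mul_cancel₀ hs.ne', one_mul]

lemma b1_markov (φ : ℝ → ℝ) (hφ : Measurable φ) (K β : ℝ) (hβ : 0 < β)
    (h : ∫⁻ x, ENNReal.ofReal (φ x) ≤ ENNReal.ofReal K) :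
    volume {x | β < φ x} ≤ ENNReal.ofReal (K / β) := by
  have h1 : volume {x | β < φ x} ≤ volume {x | ENNReal.ofReal β ≤ ENNReal.ofReal (φ x)} := by
    refine measure_mono ?_
    intro x hx
    exact ENNReal.ofReal_le_ofReal (le_of_lt hx)
  refine h1.trans ?_
  refine (meas_ge_le_lintegral_div hφ.ennreal_ofReal.aemeasurable
    (by simpa using hβ) ENNReal.ofReal_ne_top).trans ?_
  rw [ENNReal.ofReal_div_of_pos hβ]
  exact ENNReal.div_le_div_right h _

lemma b1_lint_sum {ι : Type} [Fintype ι] (m : ι → ℝ) (hm : ∀ i, 0 ≤ m i) (φ : ι → ℝ → ℝ)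
    (hφ : ∀ i, Measurable (φ i)) (h0 : ∀ i x, 0 ≤ φ i x) (K : ℝ)
    (h : ∀ i, ∫⁻ x, ENNReal.ofReal (φ i x) ≤ ENNReal.ofReal K) :
    ∫⁻ x, ENNReal.ofReal (∑ i, m i * φ i x) ≤ ENNReal.ofReal (K * ∑ i, m i) := by
  have e1 : ∀ x, ENNReal.ofReal (∑ i, m i * φ i x) =
      ∑ i, ENNReal.ofReal (m i) * ENNReal.ofReal (φ i x) := by
    intro x
    rw [ENNReal.ofReal_sum_of_nonneg (fun i _ => mul_nonneg (hm i) (h0 i x))]
    refine Finset.sum_congr rfl fun i _ => ?_
    rw [ENNReal.ofReal_mul (hm i)]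
  simp only [e1]
  rw [lintegral_finsetSum _ (fun i _ => ((hφ i).ennreal_ofReal).const_mul _)]
  have e2 : ENNReal.ofReal (K * ∑ i, m i) = ∑ i, ENNReal.ofReal (m i) * ENNReal.ofReal K := by
    rw [← Finset.sum_mul, ← ENNReal.ofReal_sum_of_nonneg (fun i _ => hm i),
      ← ENNReal.ofReal_mul (Finset.sum_nonneg fun i _ => hm i), mul_comm]
  rw [e2]
  refine Finset.sum_le_sum fun i _ => ?_
  rw [lintegral_const_mul _ (hφ i).ennreal_ofReal]
  gcongr
  exact h i

lemma b1_k_cont {A : ℝ → ℝ} (hA : Continuous A) {ρ : ℝ} (hρ : 0 < ρ) (x : ℝ) :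
    Continuous (fun y => kr ρ (zg A y - zg A x)) :=
  (b1_kr_cont hρ).comp ((b1_zg_cont hA).sub continuous_const)

/-- far estimate for the difference of the kernels -/
lemma b1_far {A : ℝ → ℝ} {M : ℝ} (hM : 1 ≤ M) (hA : ∀ x y, |A x - A y| ≤ M * |x - y|) {ρ : ℝ}
    (hρ : 0 < ρ) (ζ : ℂ) (s : ℝ) (hs : 0 < s) (hd : |ζ.im - A ζ.re| ≤ s) (x y : ℝ)
    (hx : 2 * s ≤ |x - ζ.re|) (hy : |y - ζ.re| ≤ s) :
    ‖kr ρ (ζ - zg A x) - kr ρ (zg A y - zg A x)‖ ≤ 8 * (2 + M) * Pf s (x - ζ.re) := by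
  set u := |x - ζ.re| with hu
  have h1 := b1_kr_diff1 hρ (ζ - zg A x) (zg A y - zg A x)
  have h2 : u ≤ ‖ζ - zg A x‖ := by
    have := Complex.abs_re_le_norm (ζ - zg A x)
    rw [hu, abs_sub_comm]
    simpa [zg] using this
  have h3 : u / 2 ≤ ‖zg A y - zg A x‖ := by
    refine le_trans ?_ (b1_zg_lower A x y)
    have : u ≤ |y - x| + |y - ζ.re| := by
      rw [hu, abs_sub_comm y x]
      calc |x - ζ.re| = |(x - y) + (y - ζ.re)| := by ring_nf
        _ ≤ _ := abs_add_le _ _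
    linarith
  have h4 : ‖(ζ - zg A x) - (zg A y - zg A x)‖ ≤ (2 + M) * s := by
    have e : (ζ - zg A x) - (zg A y - zg A x) = (ζ - zg A ζ.re) + (zg A ζ.re - zg A y) := by ring
    rw [e]
    refine (norm_add_le _ _).trans ?_
    have e1 : ‖ζ - zg A ζ.re‖ ≤ s := by
      have : ζ - zg A ζ.re = ⟨0, ζ.im - A ζ.re⟩ := by apply Complex.ext <;> simp [zg]
      rw [this]
      refine (b1_norm_le _ _).trans ?_
      simpa using hd
    have e2 : ‖zg A ζ.re - zg A y‖ ≤ (1 + M) * s := by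
      refine (b1_zg_upper hA y ζ.re).trans ?_
      rw [abs_sub_comm]
      exact mul_le_mul_of_nonneg_left hy (by linarith)
    linarith
  have hu0 : 0 < u := by linarith
  have h5 : ‖kr ρ (ζ - zg A x) - kr ρ (zg A y - zg A x)‖ * (u * (u / 2)) ≤ (2 + M) * s := by
    refine le_trans ?_ (h1.trans h4)
    refine mul_le_mul_of_nonneg_left ?_ (norm_nonneg _)
    exact mul_le_mul h2 h3 (by positivity) (norm_nonneg _)
  have h6 : Pf s (x - ζ.re) = s / (u ^ 2 + s ^ 2) := by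
    unfold Pf; rw [hu, sq_abs]
  rw [h6]
  have h7 : ‖kr ρ (ζ - zg A x) - kr ρ (zg A y - zg A x)‖ ≤ (2 + M) * s / (u * (u / 2)) := by
    rw [le_div_iff₀ (by positivity)]; exact h5
  refine h7.trans ?_
  rw [div_le_iff₀ (by positivity)]
  have h8 : 8 * (2 + M) * (s / (u ^ 2 + s ^ 2)) * (u * (u / 2)) =
      (2 + M) * s * (4 * u ^ 2 / (u ^ 2 + s ^ 2)) := by ring
  rw [h8]
  have h9 : 1 ≤ 4 * u ^ 2 / (u ^ 2 + s ^ 2) := by
    rw [le_div_iff₀ (by positivity)]
    nlinarith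
  calc (2 + M) * s = (2 + M) * s * 1 := by ring
    _ ≤ _ := mul_le_mul_of_nonneg_left h9 (by positivity)

/-- averages over intervals -/
noncomputable def av (A : ℝ → ℝ) (ρ a b x : ℝ) : ℂ :=
  ((b - a)⁻¹ : ℝ) • ∫ y in a..b, kr ρ (zg A y - zg A x)

lemma b1_av_far {A : ℝ → ℝ} {M : ℝ} (hM : 1 ≤ M) (hA : ∀ x y, |A x - A y| ≤ M * |x - y|) {ρ : ℝ}
    (hρ : 0 < ρ) (ζ : ℂ) (s : ℝ) (hs : 0 < s) (hd : |ζ.im - A ζ.re| ≤ s) (x a b : ℝ)
    (hx : 2 * s ≤ |x - ζ.re|) (hab : a < b) (ha : ζ.re - s ≤ a) (hb : b ≤ ζ.re + s) :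
    ‖kr ρ (ζ - zg A x) - av A ρ a b x‖ ≤ 8 * (2 + M) * Pf s (x - ζ.re) := by
  have hba : 0 < b - a := by linarith
  have e : kr ρ (ζ - zg A x) - av A ρ a b x =
      ((b - a)⁻¹ : ℝ) • ∫ y in a..b, (kr ρ (ζ - zg A x) - kr ρ (zg A y - zg A x)) := by
    rw [intervalIntegral.integral_sub (by simp)
      ((b1_k_cont (b1_A_cont hA) hρ x).intervalIntegrable _ _), intervalIntegral.integral_const,
      smul_sub, smul_smul, inv_mul_cancel₀ hba.ne', one_smul]
    rfl
  rw [e, norm_smul, Real.norm_of_nonneg (by positivity)]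
  have h := intervalIntegral.norm_integral_le_of_norm_le_const (a := a) (b := b)
    (f := fun y => kr ρ (ζ - zg A x) - kr ρ (zg A y - zg A x))
    (C := 8 * (2 + M) * Pf s (x - ζ.re)) (by
      intro y hy
      rw [uIoc_of_le hab.le] at hy
      exact b1_far hM hA hρ ζ s hs hd x y hx (abs_le.mpr ⟨by linarith [hy.1], by linarith [hy.2]⟩))
  rw [abs_of_pos hba] at h
  calc (b - a)⁻¹ * ‖∫ y in a..b, (kr ρ (ζ - zg A x) - kr ρ (zg A y - zg A x))‖
      ≤ (b - a)⁻¹ * (8 * (2 + M) * Pf s (x - ζ.re) * (b - a)) :=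
        mul_le_mul_of_nonneg_left h (by positivity)
    _ = _ := by field_simp

/-- global estimate for the error -/
lemma b1_err {A : ℝ → ℝ} {M : ℝ} (hM : 1 ≤ M) (hA : ∀ x y, |A x - A y| ≤ M * |x - y|) {ρ : ℝ}
    (hρ : 0 < ρ) (ζ : ℂ) (s : ℝ) (hs : s = max |ζ.im - A ζ.re| ρ) (x : ℝ) :
    ‖kr ρ (ζ - zg A x) - av A ρ (ζ.re - s) (ζ.re + s) x‖ ≤ 8 * (2 + M) * Pf s (x - ζ.re) +
      s / 2 * ‖av A ρ (ζ.re - s) (ζ.re + s) x‖ ^ 2 := by
  have hs0 : 0 < s := by rw [hs]; exact lt_max_of_lt_right hρ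
  by_cases hx : 2 * s ≤ |x - ζ.re|
  · have h1 := b1_av_far hM hA hρ ζ s hs0 (hs ▸ le_max_left _ _) x (ζ.re - s) (ζ.re + s) hx
      (by linarith) le_rfl le_rfl
    have h2 : 0 ≤ s / 2 * ‖av A ρ (ζ.re - s) (ζ.re + s) x‖ ^ 2 := by positivity
    linarith
  · push Not at hx
    set t := ‖av A ρ (ζ.re - s) (ζ.re + s) x‖ with ht
    have h1 : ‖kr ρ (ζ - zg A x)‖ ≤ (1 + M) / s := by
      rw [le_div_iff₀ hs0]
      rcases le_total |ζ.im - A ζ.re| ρ with h | h
      · rw [max_eq_right h] at hs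
        rw [hs]
        exact (b1_kr_mul_rho hρ _).trans (by linarith)
      · rw [max_eq_left h] at hs
        have h3 : s ≤ (1 + M) * ‖ζ - zg A x‖ := by
          have e1 := Complex.abs_re_le_norm (ζ - zg A x)
          have e2 := Complex.abs_im_le_norm (ζ - zg A x)
          simp only [zg, Complex.sub_re, Complex.sub_im] at e1 e2
          have e3 : |ζ.im - A ζ.re| ≤ |ζ.im - A x| + M * |ζ.re - x| := by
            have := hA x ζ.re
            rw [abs_sub_comm x] at this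
            calc |ζ.im - A ζ.re| = |(ζ.im - A x) + (A x - A ζ.re)| := by ring_nf
              _ ≤ _ := abs_add_le _ _
              _ ≤ _ := by linarith
          rw [hs]
          have e4 : M * |ζ.re - x| ≤ M * ‖ζ - zg A x‖ :=
            mul_le_mul_of_nonneg_left e1 (by linarith)
          have e5 : |ζ.im - A x| ≤ ‖ζ - zg A x‖ := e2
          linarith
        have h4 := b1_kr_mul_norm hρ (ζ - zg A x)
        calc ‖kr ρ (ζ - zg A x)‖ * s ≤ ‖kr ρ (ζ - zg A x)‖ * ((1 + M) * ‖ζ - zg A x‖) :=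
              mul_le_mul_of_nonneg_left h3 (norm_nonneg _)
          _ = (1 + M) * (‖kr ρ (ζ - zg A x)‖ * ‖ζ - zg A x‖) := by ring
          _ ≤ (1 + M) * 1 := mul_le_mul_of_nonneg_left h4 (by linarith)
          _ = 1 + M := mul_one _
    have h2 : t ≤ 1 / (2 * s) + s / 2 * t ^ 2 := by
      have h3 := sq_nonneg (s * t - 1)
      have h4 : t * (2 * s) ≤ (1 / (2 * s) + s / 2 * t ^ 2) * (2 * s) := by
        have : (1 / (2 * s) + s / 2 * t ^ 2) * (2 * s) = 1 + s ^ 2 * t ^ 2 := by field_simp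
        rw [this]; nlinarith
      exact le_of_mul_le_mul_right h4 (by positivity)
    have h5 : 1 / (5 * s) ≤ Pf s (x - ζ.re) := by
      unfold Pf
      rw [div_le_div_iff₀ (by positivity) (by positivity)]
      have : (x - ζ.re) ^ 2 ≤ (2 * s) ^ 2 := by
        rw [← sq_abs (x - ζ.re)]
        exact pow_le_pow_left₀ (abs_nonneg _) hx.le 2
      nlinarith
    have h6 : (1 + M) / s + 1 / (2 * s) ≤ 8 * (2 + M) * (1 / (5 * s)) := by
      rw [div_add_div _ _ hs0.ne' (by positivity), mul_one_div,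
        div_le_div_iff₀ (by positivity) (by positivity)]
      nlinarith [mul_pos hs0 hs0]
    calc ‖kr ρ (ζ - zg A x) - av A ρ (ζ.re - s) (ζ.re + s) x‖
        ≤ ‖kr ρ (ζ - zg A x)‖ + t := norm_sub_le _ _
      _ ≤ (1 + M) / s + (1 / (2 * s) + s / 2 * t ^ 2) := add_le_add h1 h2
      _ ≤ 8 * (2 + M) * (1 / (5 * s)) + s / 2 * t ^ 2 := by linarith
      _ ≤ _ := by
        have := mul_le_mul_of_nonneg_left h5 (show 0 ≤ 8 * (2 + M) by linarith)
        linarith

/-- Riemann sums of Lipschitz functions -/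
lemma b1_riemann (φ : ℝ → ℂ) (K : ℝ) (hφ : ∀ x y, ‖φ x - φ y‖ ≤ K * |x - y|) (hc : Continuous φ)
    (a b : ℝ) (hab : a < b) (N : ℕ) (hN : 0 < N) (hK : 0 ≤ K) :
    ‖((b - a)⁻¹ : ℝ) • (∫ y in a..b, φ y) -
      ∑ j ∈ Finset.range N, ((1 / N : ℝ) : ℂ) * φ (a + (b - a) * (j / N))‖ ≤ K * (b - a) / N := by
  have hN' : (0 : ℝ) < N := by exact_mod_cast hN
  have hba : 0 < b - a := by linarith
  let t : ℕ → ℝ := fun j => a + (b - a) * (j / N)
  have ht : ∀ j, t (j + 1) - t j = (b - a) / N := by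
    intro j; simp only [t]; push_cast; ring
  have h0 : t 0 = a := by simp [t]
  have h1 : t N = b := by simp only [t]; rw [div_self hN'.ne']; ring
  have hI : ∫ y in a..b, φ y = ∑ j ∈ Finset.range N, ∫ y in t j..t (j + 1), φ y := by
    rw [intervalIntegral.sum_integral_adjacent_intervals
      (fun k _ => hc.intervalIntegrable _ _), h0, h1]
  have hS : ∀ j, ((1 / N : ℝ) : ℂ) * φ (t j) =
      ((b - a)⁻¹ : ℝ) • ∫ y in t j..t (j + 1), φ (t j) := by
    intro j
    rw [intervalIntegral.integral_const, ht, smul_smul, Complex.real_smul]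
    congr 2
    field_simp
  have e : ((b - a)⁻¹ : ℝ) • (∫ y in a..b, φ y) -
      ∑ j ∈ Finset.range N, ((1 / N : ℝ) : ℂ) * φ (a + (b - a) * (j / N)) =
      ((b - a)⁻¹ : ℝ) • ∑ j ∈ Finset.range N, ∫ y in t j..t (j + 1), (φ y - φ (t j)) := by
    have : ∑ j ∈ Finset.range N, ((1 / N : ℝ) : ℂ) * φ (a + (b - a) * (j / N)) =
        ((b - a)⁻¹ : ℝ) • ∑ j ∈ Finset.range N, ∫ y in t j..t (j + 1), φ (t j) := by
      rw [Finset.smul_sum]
      exact Finset.sum_congr rfl fun j _ => hS j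
    rw [this, hI, ← smul_sub, ← Finset.sum_sub_distrib]
    congr 1
    refine Finset.sum_congr rfl fun j _ => ?_
    rw [intervalIntegral.integral_sub (hc.intervalIntegrable _ _) (by simp)]
  rw [e, norm_smul, Real.norm_of_nonneg (by positivity)]
  have hj : ∀ j ∈ Finset.range N, ‖∫ y in t j..t (j + 1), (φ y - φ (t j))‖ ≤
      K * ((b - a) / N) * ((b - a) / N) := by
    intro j _
    have hlt : t j ≤ t (j + 1) := by
      have := ht j
      have : 0 < (b - a) / N := by positivity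
      linarith [ht j]
    have := intervalIntegral.norm_integral_le_of_norm_le_const (a := t j) (b := t (j + 1))
      (f := fun y => φ y - φ (t j)) (C := K * ((b - a) / N)) (by
        intro y hy
        rw [uIoc_of_le hlt] at hy
        refine (hφ _ _).trans (mul_le_mul_of_nonneg_left ?_ hK)
        rw [abs_of_nonneg (by linarith [hy.1])]
        linarith [hy.2, ht j])
    rwa [ht, abs_of_pos (by positivity)] at this
  calc (b - a)⁻¹ * ‖∑ j ∈ Finset.range N, ∫ y in t j..t (j + 1), (φ y - φ (t j))‖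
      ≤ (b - a)⁻¹ * ∑ j ∈ Finset.range N, K * ((b - a) / N) * ((b - a) / N) :=
        mul_le_mul_of_nonneg_left ((norm_sum_le _ _).trans (Finset.sum_le_sum hj)) (by positivity)
    _ = K * (b - a) / N := by
        rw [Finset.sum_const, Finset.card_range, nsmul_eq_mul]
        field_simp

/-- dyadic side lengths -/
noncomputable def dl (L : ℝ) (n : ℕ) : ℝ := L / 2 ^ n

/-- dyadic cell index -/
noncomputable def cl (L : ℝ) (n : ℕ) (x : ℝ) : ℤ := ⌊x / dl L n⌋

lemma dl_pos {L : ℝ} (hL : 0 < L) (n : ℕ) : 0 < dl L n := by unfold dl; positivity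

lemma cl_eq_iff {L : ℝ} (hL : 0 < L) (n : ℕ) (x : ℝ) (q : ℤ) :
    cl L n x = q ↔ q * dl L n ≤ x ∧ x < (q + 1) * dl L n := by
  unfold cl
  rw [Int.floor_eq_iff, le_div_iff₀ (dl_pos hL n), div_lt_iff₀ (dl_pos hL n)]

lemma cl_mono {L : ℝ} (hL : 0 < L) {n n' : ℕ} (h : n ≤ n') {x y : ℝ}
    (hxy : cl L n' x = cl L n' y) : cl L n x = cl L n y := by
  obtain ⟨k, rfl⟩ := Nat.exists_eq_add_of_le h
  have key : ∀ z : ℝ, cl L n z = cl L (n + k) z / ((2 ^ k : ℕ) : ℤ) := by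
    intro z
    unfold cl
    rw [← Int.floor_div_natCast]
    congr 1
    unfold dl
    push_cast
    rw [pow_add]
    field_simp
  rw [key, key, hxy]

lemma cl_dist {L : ℝ} (hL : 0 < L) {n : ℕ} {x y : ℝ} (h : cl L n x = cl L n y) :
    |x - y| < dl L n := by
  have h1 := (cl_eq_iff hL n x _).mp rfl
  have h2 := (cl_eq_iff hL n y _).mp rfl
  rw [h] at h1
  rw [abs_lt]
  constructor <;> nlinarith [h1.1, h1.2, h2.1, h2.2]

/-- weak type for atoms on the graph -/
lemma b1_graph {A : ℝ → ℝ} {M : ℝ} (hM : 1 ≤ M) (hA : ∀ x y, |A x - A y| ≤ M * |x - y|) {ρ : ℝ}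
    (hρ : 0 < ρ) (B : ℝ) (hB : 0 ≤ B)
    (hyp : ∀ f : ℝ → ℂ, Measurable f → (∃ B, ∀ x, ‖f x‖ ≤ B) → (∃ R, ∀ x, R < |x| → f x = 0) →
      ∫⁻ x, ‖∫ y, f y * kr ρ (zg A y - zg A x)‖ₑ ^ 2 ≤ ENNReal.ofReal B * ∫⁻ x, ‖f x‖ₑ ^ 2)
    {ι : Type} [Fintype ι] [Nonempty ι] (x : ι → ℝ) (m : ι → ℝ) (hm : ∀ i, 0 < m i) (α : ℝ)
    (hα : 0 < α) :
    volume {t : ℝ | α < ‖∑ i, (m i : ℂ) * kr ρ (zg A (x i) - zg A t)‖} ≤
      ENNReal.ofReal ((16 * (2 + M) * Real.pi + 8 * B) * (∑ i, m i) / α) := by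
  classical
  set S := ∑ i, m i with hS
  have hS0 : 0 < S := Finset.sum_pos (fun i _ => hm i) Finset.univ_nonempty
  set L := 2 * S / α with hLdef
  have hL : 0 < L := by positivity
  let μ : ℕ → ℝ → ℝ := fun n t => ∑ j, if cl L n (x j) = cl L n t then m j else 0
  have hμle : ∀ n t, μ n t ≤ S := by
    intro n t
    refine Finset.sum_le_sum fun j _ => ?_
    split_ifs
    · exact le_rfl
    · exact (hm j).le
  have hex : ∀ i, ∃ n, α * dl L n < μ n (x i) := by
    intro i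
    obtain ⟨n, hn⟩ := pow_unbounded_of_one_lt (α * L / m i) (one_lt_two)
    refine ⟨n, ?_⟩
    have h1 : m i ≤ μ n (x i) := by
      have := Finset.single_le_sum (f := fun j => if cl L n (x j) = cl L n (x i) then m j else 0)
        (fun j _ => by split_ifs; exacts [(hm j).le, le_rfl]) (Finset.mem_univ i)
      simpa using this
    refine lt_of_lt_of_le ?_ h1
    unfold dl
    rw [div_lt_iff₀ (hm i)] at hn
    rw [← mul_div_assoc, div_lt_iff₀ (by positivity)]
    linarith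
  let lev : ι → ℕ := fun i => Nat.find (hex i)
  have hlev : ∀ i, α * dl L (lev i) < μ (lev i) (x i) := fun i => Nat.find_spec (hex i)
  have hlevmin : ∀ i n, α * dl L n < μ n (x i) → lev i ≤ n := fun i n h => Nat.find_min' (hex i) h
  have hlev0 : ∀ i, 1 ≤ lev i := by
    intro i
    by_contra h
    have h0 : lev i = 0 := by omega
    have h1 := hlev i
    rw [h0] at h1
    have h2 := hμle 0 (x i)
    have h3 : α * dl L 0 = 2 * S := by
      unfold dl
      rw [hLdef]; field_simp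
    linarith
  have hup : ∀ i, μ (lev i) (x i) ≤ 2 * α * dl L (lev i) := by
    intro i
    obtain ⟨n, hn⟩ : ∃ n, lev i = n + 1 := ⟨lev i - 1, by have := hlev0 i; omega⟩
    have h1 : ¬ (α * dl L n < μ n (x i)) := by
      intro h
      have := hlevmin i n h
      omega
    push Not at h1
    have h2 : μ (lev i) (x i) ≤ μ n (x i) := by
      refine Finset.sum_le_sum fun j _ => ?_
      by_cases hj : cl L (lev i) (x j) = cl L (lev i) (x i)
      · rw [if_pos hj, if_pos (cl_mono hL (by omega) hj)]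
      · rw [if_neg hj]
        split_ifs
        · exact (hm j).le
        · exact le_rfl
    have h3 : dl L n = 2 * dl L (lev i) := by
      rw [hn]; unfold dl; rw [pow_succ]; field_simp
    rw [h3] at h1
    linarith
  have hsame : ∀ i j, cl L (lev i) (x j) = cl L (lev i) (x i) → lev j = lev i := by
    intro i j h
    have h1 : lev j ≤ lev i := by
      refine hlevmin j _ ?_
      have : μ (lev i) (x j) = μ (lev i) (x i) := by simp only [μ, h]
      rw [this]; exact hlev i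
    refine le_antisymm h1 (hlevmin i _ ?_)
    have h2 := cl_mono hL h1 h
    have : μ (lev j) (x i) = μ (lev j) (x j) := by simp only [μ, h2]
    rw [this]; exact hlev j
  let a : ι → ℝ := fun i => (cl L (lev i) (x i) : ℝ) * dl L (lev i)
  let b : ι → ℝ := fun i => ((cl L (lev i) (x i) : ℝ) + 1) * dl L (lev i)
  have hbj : ∀ i, b i - a i = dl L (lev i) := by intro i; simp only [a, b]; ring
  have hmemI : ∀ i y, y ∈ Ico (a i) (b i) ↔ cl L (lev i) y = cl L (lev i) (x i) := by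
    intro i y
    rw [cl_eq_iff hL]
    rfl
  have hxI : ∀ i, x i ∈ Ico (a i) (b i) := fun i => (hmemI i _).mpr rfl
  let g : ℝ → ℝ := fun y => ∑ i, (Ico (a i) (b i)).indicator (fun _ => m i / dl L (lev i)) y
  have hg0 : ∀ y, 0 ≤ g y := by
    intro y
    refine Finset.sum_nonneg fun i _ => Set.indicator_nonneg (fun _ _ => ?_) _
    exact div_nonneg (hm i).le (dl_pos hL _).le
  have hgle : ∀ y, g y ≤ 2 * α := by
    intro y
    by_cases h : ∃ i, y ∈ Ico (a i) (b i)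
    · obtain ⟨i, hi⟩ := h
      have h1 : g y ≤ ∑ j, (if cl L (lev i) (x j) = cl L (lev i) (x i) then m j else 0) /
          dl L (lev i) := by
        refine Finset.sum_le_sum fun j _ => ?_
        by_cases hj : y ∈ Ico (a j) (b j)
        · rw [Set.indicator_of_mem hj]
          rw [hmemI] at hi hj
          have h2 : cl L (lev i) (x j) = cl L (lev i) (x i) ∧ lev j = lev i := by
            rcases le_total (lev i) (lev j) with hij | hij
            · have h3 := cl_mono hL hij hj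
              have h4 : cl L (lev i) (x j) = cl L (lev i) (x i) := h3.symm.trans hi
              exact ⟨h4, hsame i j h4⟩
            · have h3 := cl_mono hL hij hi
              have h4 : cl L (lev j) (x i) = cl L (lev j) (x j) := h3.symm.trans hj
              have h5 := hsame j i h4
              rw [h5]
              exact ⟨h4.symm, rfl⟩
          rw [if_pos h2.1, h2.2]
        · rw [Set.indicator_of_notMem hj]
          refine div_nonneg ?_ (dl_pos hL _).le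
          split_ifs
          · exact (hm j).le
          · exact le_rfl
      rw [← Finset.sum_div] at h1
      refine h1.trans ?_
      rw [div_le_iff₀ (dl_pos hL _)]
      exact hup i
    · push Not at h
      have : g y = 0 := Finset.sum_eq_zero fun i _ => Set.indicator_of_notMem (h i) _
      rw [this]; positivity
  have hgm : Measurable g := by
    refine Finset.measurable_sum _ fun i _ => ?_
    exact measurable_const.indicator measurableSet_Ico
  have hgint : ∫⁻ y, ENNReal.ofReal (g y) = ENNReal.ofReal S := by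
    have e1 : ∀ y, ENNReal.ofReal (g y) =
        ∑ i, (Ico (a i) (b i)).indicator (fun _ => ENNReal.ofReal (m i / dl L (lev i))) y := by
      intro y
      rw [ENNReal.ofReal_sum_of_nonneg]
      · refine Finset.sum_congr rfl fun i _ => ?_
        by_cases hy : y ∈ Ico (a i) (b i)
        · rw [Set.indicator_of_mem hy, Set.indicator_of_mem hy]
        · rw [Set.indicator_of_notMem hy, Set.indicator_of_notMem hy, ENNReal.ofReal_zero]
      · intro i _
        exact Set.indicator_nonneg (fun _ _ => div_nonneg (hm i).le (dl_pos hL _).le) _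
    simp only [e1]
    rw [lintegral_finsetSum _ (fun i _ => measurable_const.indicator measurableSet_Ico), hS,
      ENNReal.ofReal_sum_of_nonneg (fun i _ => (hm i).le)]
    refine Finset.sum_congr rfl fun i _ => ?_
    rw [lintegral_indicator measurableSet_Ico, setLIntegral_const, Real.volume_Ico, hbj,
      ← ENNReal.ofReal_mul (div_nonneg (hm i).le (dl_pos hL _).le), div_mul_cancel₀]
    exact (dl_pos hL _).ne'
  have hgsupp : ∃ R, ∀ y, R < |y| → g y = 0 := by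
    refine ⟨∑ i, (|a i| + |b i|), fun y hy => Finset.sum_eq_zero fun i _ => ?_⟩
    refine Set.indicator_of_notMem ?_ _
    intro hyi
    have h1 : |a i| + |b i| ≤ ∑ i, (|a i| + |b i|) :=
      Finset.single_le_sum (f := fun i => |a i| + |b i|) (fun j _ => by positivity)
        (Finset.mem_univ i)
    have h2 : |y| ≤ |a i| + |b i| := by
      rw [abs_le]
      constructor
      · have := neg_abs_le (a i)
        have h3 := abs_nonneg (b i)
        linarith [hyi.1]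
      · have := le_abs_self (b i)
        have h3 := abs_nonneg (a i)
        linarith [hyi.2]
    linarith
  -- operator applied to g
  have hTg : ∀ t, ∫ y, ((g y : ℝ) : ℂ) * kr ρ (zg A y - zg A t) =
      ∑ i, (m i : ℂ) * av A ρ (a i) (b i) t := by
    intro t
    have hkc := b1_k_cont (b1_A_cont hA) hρ t
    have e1 : ∀ y, ((g y : ℝ) : ℂ) * kr ρ (zg A y - zg A t) =
        ∑ i, (Ico (a i) (b i)).indicator
          (fun y => ((m i / dl L (lev i) : ℝ) : ℂ) * kr ρ (zg A y - zg A t)) y := by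
      intro y
      simp only [g]
      push_cast
      rw [Finset.sum_mul]
      refine Finset.sum_congr rfl fun i _ => ?_
      by_cases hy : y ∈ Ico (a i) (b i)
      · rw [Set.indicator_of_mem hy, Set.indicator_of_mem hy]; push_cast; rfl
      · rw [Set.indicator_of_notMem hy, Set.indicator_of_notMem hy]; simp
    simp only [e1]
    have hint : ∀ i, IntegrableOn
        (fun y => ((m i / dl L (lev i) : ℝ) : ℂ) * kr ρ (zg A y - zg A t)) (Ico (a i) (b i)) := by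
      intro i
      have : Continuous (fun y => ((m i / dl L (lev i) : ℝ) : ℂ) * kr ρ (zg A y - zg A t)) :=
        continuous_const.mul hkc
      exact (this.continuousOn.integrableOn_Icc (a := a i) (b := b i)).mono_set Ico_subset_Icc_self
    rw [integral_finsetSum _ (fun i _ => (hint i).integrable_indicator measurableSet_Ico)]
    refine Finset.sum_congr rfl fun i _ => ?_
    have hab : a i ≤ b i := by have := hbj i; have := dl_pos hL (lev i); linarith
    rw [integral_indicator measurableSet_Ico, integral_const_mul, integral_Ico_eq_integral_Ioc,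
      ← intervalIntegral.integral_of_le hab]
    unfold av
    rw [hbj, Complex.real_smul]
    push_cast
    ring
  -- the majorant
  let Φ : ℝ → ℝ := fun t => ∑ i, m i * Pf (dl L (lev i)) (t - x i)
  have hΦm : Measurable Φ := Finset.measurable_sum _ fun i _ => (Pf_meas _ _).const_mul _
  have hΦint : ∫⁻ t, ENNReal.ofReal (Φ t) ≤ ENNReal.ofReal (Real.pi * S) :=
    b1_lint_sum m (fun i => (hm i).le) (fun i t => Pf (dl L (lev i)) (t - x i))
      (fun i => Pf_meas _ _) (fun i t => Pf_nonneg (dl_pos hL _) _) Real.pi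
      (fun i => (Pf_lintegral (dl_pos hL _) _).le)
  have hD : (0 : ℝ) < 8 * (2 + M) := by linarith
  have hincl : {t : ℝ | α < ‖∑ i, (m i : ℂ) * kr ρ (zg A (x i) - zg A t)‖} ⊆
      {t | α / (2 * (8 * (2 + M))) < Φ t} ∪
      {t | (α / 2) ^ 2 < ‖∫ y, ((g y : ℝ) : ℂ) * kr ρ (zg A y - zg A t)‖ ^ 2} := by
    intro t ht
    by_cases hΦt : α / (2 * (8 * (2 + M))) < Φ t
    · exact Or.inl hΦt
    refine Or.inr ?_
    push Not at hΦt
    have hfar : ∀ i, 2 * dl L (lev i) ≤ |t - x i| := by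
      intro i
      by_contra hlt
      push Not at hlt
      have hdp := dl_pos hL (lev i)
      have h1 : μ (lev i) (x i) / (10 * dl L (lev i)) ≤ Φ t := by
        simp only [μ, Φ]
        rw [Finset.sum_div]
        refine Finset.sum_le_sum fun j _ => ?_
        by_cases hj : cl L (lev i) (x j) = cl L (lev i) (x i)
        · rw [if_pos hj, hsame i j hj]
          have h2 := cl_dist hL hj
          have h3 : |t - x j| < 3 * dl L (lev i) := by
            calc |t - x j| = |(t - x i) + (x i - x j)| := by ring_nf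
              _ ≤ |t - x i| + |x i - x j| := abs_add_le _ _
              _ < _ := by rw [abs_sub_comm (x i)]; linarith
          have h4 : (t - x j) ^ 2 ≤ (3 * dl L (lev i)) ^ 2 := by
            rw [← sq_abs (t - x j)]
            exact pow_le_pow_left₀ (abs_nonneg _) h3.le 2
          have h5 : 1 / (10 * dl L (lev i)) ≤ Pf (dl L (lev i)) (t - x j) := by
            unfold Pf
            rw [div_le_div_iff₀ (by positivity) (by positivity)]
            nlinarith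
          calc m j / (10 * dl L (lev i)) = m j * (1 / (10 * dl L (lev i))) := by ring
            _ ≤ _ := mul_le_mul_of_nonneg_left h5 (hm j).le
        · rw [if_neg hj, zero_div]
          exact mul_nonneg (hm j).le (Pf_nonneg (dl_pos hL _) _)
      have h2 : α / 10 < μ (lev i) (x i) / (10 * dl L (lev i)) := by
        rw [div_lt_div_iff₀ (by norm_num) (by positivity)]
        have := hlev i
        linarith
      have h3 : α / (2 * (8 * (2 + M))) ≤ α / 10 :=
        div_le_div_of_nonneg_left hα.le (by norm_num) (by linarith)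
      linarith
    have hdiff : ‖(∑ i, (m i : ℂ) * kr ρ (zg A (x i) - zg A t)) -
        ∑ i, (m i : ℂ) * av A ρ (a i) (b i) t‖ ≤ α / 2 := by
      rw [← Finset.sum_sub_distrib]
      refine (norm_sum_le _ _).trans ?_
      have h1 : ∀ i ∈ Finset.univ, ‖(m i : ℂ) * kr ρ (zg A (x i) - zg A t) -
          (m i : ℂ) * av A ρ (a i) (b i) t‖ ≤ 8 * (2 + M) * (m i * Pf (dl L (lev i)) (t - x i)) := by
        intro i _
        rw [← mul_sub, norm_mul, Complex.norm_real, Real.norm_of_nonneg (hm i).le]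
        have h2 := b1_av_far hM hA hρ (zg A (x i)) (dl L (lev i)) (dl_pos hL _)
          (by simp [zg]; exact (dl_pos hL _).le) t (a i) (b i) (hfar i)
          (by have := hbj i; have := dl_pos hL (lev i); linarith)
          (by have := hbj i; have h3 := (hxI i).2; simp only [zg]; linarith)
          (by have := hbj i; have h3 := (hxI i).1; simp only [zg]; linarith)
        have h3 : (zg A (x i)).re = x i := rfl
        rw [h3] at h2
        calc m i * ‖kr ρ (zg A (x i) - zg A t) - av A ρ (a i) (b i) t‖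
            ≤ m i * (8 * (2 + M) * Pf (dl L (lev i)) (t - x i)) :=
              mul_le_mul_of_nonneg_left h2 (hm i).le
          _ = _ := by ring
      refine (Finset.sum_le_sum h1).trans ?_
      rw [← Finset.mul_sum]
      have h4 : 8 * (2 + M) * Φ t ≤ 8 * (2 + M) * (α / (2 * (8 * (2 + M)))) :=
        mul_le_mul_of_nonneg_left hΦt hD.le
      have h5 : 8 * (2 + M) * (α / (2 * (8 * (2 + M)))) = α / 2 := by field_simp
      linarith
    show (α / 2) ^ 2 < _
    rw [hTg]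
    refine pow_lt_pow_left₀ ?_ (by positivity) (by norm_num)
    have h6 : ‖∑ i, (m i : ℂ) * kr ρ (zg A (x i) - zg A t)‖ ≤
        ‖(∑ i, (m i : ℂ) * kr ρ (zg A (x i) - zg A t)) -
        ∑ i, (m i : ℂ) * av A ρ (a i) (b i) t‖ + ‖∑ i, (m i : ℂ) * av A ρ (a i) (b i) t‖ := by
      have := norm_add_le ((∑ i, (m i : ℂ) * kr ρ (zg A (x i) - zg A t)) -
        ∑ i, (m i : ℂ) * av A ρ (a i) (b i) t) (∑ i, (m i : ℂ) * av A ρ (a i) (b i) t)
      rwa [sub_add_cancel] at this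
    have h7 : α < ‖∑ i, (m i : ℂ) * kr ρ (zg A (x i) - zg A t)‖ := ht
    linarith
  refine (measure_mono hincl).trans ((measure_union_le _ _).trans ?_)
  have hb1 := b1_markov Φ hΦm (Real.pi * S) (α / (2 * (8 * (2 + M)))) (by positivity) hΦint
  have hTm : Measurable (fun t => ‖∫ y, ((g y : ℝ) : ℂ) * kr ρ (zg A y - zg A t)‖ ^ 2) := by
    have : Continuous (fun p : ℝ × ℝ => kr ρ (zg A p.2 - zg A p.1)) :=
      (b1_kr_cont hρ).comp (((b1_zg_cont (b1_A_cont hA)).comp continuous_snd).sub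
        ((b1_zg_cont (b1_A_cont hA)).comp continuous_fst))
    have hsm : StronglyMeasurable (fun p : ℝ × ℝ =>
        ((g p.2 : ℝ) : ℂ) * kr ρ (zg A p.2 - zg A p.1)) := by
      refine Measurable.stronglyMeasurable ?_
      exact (Complex.measurable_ofReal.comp (hgm.comp measurable_snd)).mul this.measurable
    exact (hsm.integral_prod_right'.measurable.norm).pow_const 2
  have hL2 : ∫⁻ t, ENNReal.ofReal (‖∫ y, ((g y : ℝ) : ℂ) * kr ρ (zg A y - zg A t)‖ ^ 2) ≤
      ENNReal.ofReal (B * (2 * α * S)) := by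
    have h1 := hyp (fun y => ((g y : ℝ) : ℂ)) (Complex.measurable_ofReal.comp hgm)
      ⟨2 * α, fun y => by
        rw [Complex.norm_real, Real.norm_of_nonneg (hg0 y)]; exact hgle y⟩
      (by obtain ⟨R, hR⟩ := hgsupp; exact ⟨R, fun y hy => by rw [hR y hy]; simp⟩)
    have h2 : ∀ t, ENNReal.ofReal (‖∫ y, ((g y : ℝ) : ℂ) * kr ρ (zg A y - zg A t)‖ ^ 2) =
        ‖∫ y, ((g y : ℝ) : ℂ) * kr ρ (zg A y - zg A t)‖ₑ ^ 2 := by
      intro t
      rw [ENNReal.ofReal_pow (norm_nonneg _), ofReal_norm]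
    simp only [h2]
    refine h1.trans ?_
    rw [ENNReal.ofReal_mul hB]
    gcongr
    have h3 : ∀ y, ‖((g y : ℝ) : ℂ)‖ₑ ^ 2 ≤ ENNReal.ofReal (2 * α) * ENNReal.ofReal (g y) := by
      intro y
      rw [← ofReal_norm, Complex.norm_real, Real.norm_of_nonneg (hg0 y),
        ← ENNReal.ofReal_pow (hg0 y), ← ENNReal.ofReal_mul (by positivity)]
      refine ENNReal.ofReal_le_ofReal ?_
      rw [sq]
      exact mul_le_mul_of_nonneg_right (hgle y) (hg0 y)
    refine (lintegral_mono h3).trans ?_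
    rw [lintegral_const_mul _ hgm.ennreal_ofReal, hgint, ← ENNReal.ofReal_mul (by positivity)]
  have hb2 := b1_markov _ hTm (B * (2 * α * S)) ((α / 2) ^ 2) (by positivity) hL2
  refine (add_le_add hb1 hb2).trans ?_
  rw [← ENNReal.ofReal_add (by positivity) (by positivity)]
  refine ENNReal.ofReal_le_ofReal (le_of_eq ?_)
  field_simp
  ring

lemma b1_av_cont {A : ℝ → ℝ} {M : ℝ} (hA : ∀ x y, |A x - A y| ≤ M * |x - y|) {ρ : ℝ}
    (hρ : 0 < ρ) (a b : ℝ) : Continuous (av A ρ a b) := by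
  have h : Continuous (Function.uncurry fun t y : ℝ => kr ρ (zg A y - zg A t)) :=
    (b1_kr_cont hρ).comp (((b1_zg_cont (b1_A_cont hA)).comp continuous_snd).sub
        ((b1_zg_cont (b1_A_cont hA)).comp continuous_fst))
  have h2 : Continuous (fun t => ∫ y in a..b, kr ρ (zg A y - zg A t)) :=
    intervalIntegral.continuous_parametric_intervalIntegral_of_continuous' h a b
  exact h2.const_smul ((b - a)⁻¹ : ℝ)

lemma b1_av_l2 {A : ℝ → ℝ} {ρ : ℝ} (B : ℝ) (hB : 0 ≤ B)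
    (hyp : ∀ f : ℝ → ℂ, Measurable f → (∃ B, ∀ x, ‖f x‖ ≤ B) → (∃ R, ∀ x, R < |x| → f x = 0) →
      ∫⁻ x, ‖∫ y, f y * kr ρ (zg A y - zg A x)‖ₑ ^ 2 ≤ ENNReal.ofReal B * ∫⁻ x, ‖f x‖ₑ ^ 2)
    (a b : ℝ) (hab : a < b) :
    ∫⁻ t, ENNReal.ofReal (‖av A ρ a b t‖ ^ 2) ≤ ENNReal.ofReal (B / (b - a)) := by
  have hba : 0 < b - a := by linarith
  have h1 := hyp ((Ioc a b).indicator (fun _ => (((b - a)⁻¹ : ℝ) : ℂ)))
    (measurable_const.indicator measurableSet_Ioc)
    ⟨(b - a)⁻¹, fun x => by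
      by_cases hx : x ∈ Ioc a b
      · rw [Set.indicator_of_mem hx, Complex.norm_real, Real.norm_of_nonneg (by positivity)]
      · rw [Set.indicator_of_notMem hx, norm_zero]; positivity⟩
    ⟨|a| + |b|, fun x hx => by
      refine Set.indicator_of_notMem ?_ _
      intro hxi
      have h2 : |x| ≤ |a| + |b| := by
        rw [abs_le]
        constructor
        · have := neg_abs_le a
          have h3 := abs_nonneg b
          linarith [hxi.1]
        · have := le_abs_self b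
          have h3 := abs_nonneg a
          linarith [hxi.2]
      linarith⟩
  have h2 : ∀ t, ENNReal.ofReal (‖av A ρ a b t‖ ^ 2) =
      ‖∫ y, (Ioc a b).indicator (fun _ => (((b - a)⁻¹ : ℝ) : ℂ)) y *
        kr ρ (zg A y - zg A t)‖ₑ ^ 2 := by
    intro t
    rw [ENNReal.ofReal_pow (norm_nonneg _), ofReal_norm]
    congr 2
    have e : ∀ y, (Ioc a b).indicator (fun _ => (((b - a)⁻¹ : ℝ) : ℂ)) y *
        kr ρ (zg A y - zg A t) = (Ioc a b).indicator
          (fun y => (((b - a)⁻¹ : ℝ) : ℂ) * kr ρ (zg A y - zg A t)) y := by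
      intro y
      by_cases hy : y ∈ Ioc a b
      · rw [Set.indicator_of_mem hy, Set.indicator_of_mem hy]
      · rw [Set.indicator_of_notMem hy, Set.indicator_of_notMem hy, zero_mul]
    simp only [e]
    rw [integral_indicator measurableSet_Ioc, integral_const_mul,
      ← intervalIntegral.integral_of_le hab.le]
    unfold av
    rw [Complex.real_smul]
  simp only [h2]
  refine h1.trans ?_
  have h3 : ∫⁻ x, ‖(Ioc a b).indicator (fun _ => (((b - a)⁻¹ : ℝ) : ℂ)) x‖ₑ ^ 2 =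
      ENNReal.ofReal (b - a)⁻¹ := by
    have e : ∀ x, ‖(Ioc a b).indicator (fun _ => (((b - a)⁻¹ : ℝ) : ℂ)) x‖ₑ ^ 2 =
        (Ioc a b).indicator (fun _ => ENNReal.ofReal ((b - a)⁻¹ ^ 2)) x := by
      intro x
      by_cases hx : x ∈ Ioc a b
      · rw [Set.indicator_of_mem hx, Set.indicator_of_mem hx, ← ofReal_norm, Complex.norm_real,
          Real.norm_of_nonneg (by positivity), ENNReal.ofReal_pow (by positivity)]
      · rw [Set.indicator_of_notMem hx, Set.indicator_of_notMem hx]; simp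
    simp only [e]
    rw [lintegral_indicator measurableSet_Ioc, setLIntegral_const, Real.volume_Ioc,
      ← ENNReal.ofReal_mul (by positivity)]
    congr 1
    field_simp
  rw [h3, ← ENNReal.ofReal_mul hB]
  exact ENNReal.ofReal_le_ofReal (le_of_eq (by field_simp))

lemma b1_pos {A : ℝ → ℝ} {M : ℝ} (hM : 1 ≤ M) (hA : ∀ x y, |A x - A y| ≤ M * |x - y|) {ρ : ℝ}
    (hρ : 0 < ρ) (B : ℝ) (hB : 0 ≤ B)
    (hyp : ∀ f : ℝ → ℂ, Measurable f → (∃ B, ∀ x, ‖f x‖ ≤ B) → (∃ R, ∀ x, R < |x| → f x = 0) →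
      ∫⁻ x, ‖∫ y, f y * kr ρ (zg A y - zg A x)‖ₑ ^ 2 ≤ ENNReal.ofReal B * ∫⁻ x, ‖f x‖ₑ ^ 2)
    {ι : Type} [Fintype ι] [Nonempty ι] (ζ : ι → ℂ) (m : ι → ℝ) (hm : ∀ i, 0 < m i) (α : ℝ)
    (hα : 0 < α) :
    volume {t : ℝ | α < ‖Tr ζ m ρ (zg A t)‖} ≤
      ENNReal.ofReal ((64 * (2 + M) * Real.pi + 17 * B) * (∑ i, m i) / α) := by
  classical
  set S := ∑ i, m i with hS
  have hS0 : 0 < S := Finset.sum_pos (fun i _ => hm i) Finset.univ_nonempty
  let s : ι → ℝ := fun i => max |(ζ i).im - A (ζ i).re| ρ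
  have hs : ∀ i, 0 < s i := fun i => lt_max_of_lt_right hρ
  let a : ι → ℝ := fun i => (ζ i).re - s i
  let b : ι → ℝ := fun i => (ζ i).re + s i
  have hba : ∀ i, b i - a i = 2 * s i := by intro i; simp only [a, b]; ring
  -- choose N
  obtain ⟨N, hN⟩ := exists_nat_gt ((∑ i, m i * ((1 + M) / ρ ^ 2 * (b i - a i))) / (α / 4))
  have hE0 : 0 ≤ ∑ i, m i * ((1 + M) / ρ ^ 2 * (b i - a i)) := by
    refine Finset.sum_nonneg fun i _ => ?_
    have := hm i; have := hs i; rw [hba]; positivity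
  have hNpos : (0 : ℝ) < N := lt_of_le_of_lt (by positivity) hN
  have hN0 : 0 < N := by exact_mod_cast hNpos
  have hNE : (∑ i, m i * ((1 + M) / ρ ^ 2 * (b i - a i))) / N ≤ α / 4 := by
    rw [div_lt_iff₀ (by positivity)] at hN
    rw [div_le_iff₀ hNpos]
    linarith
  let φ : ι → ℝ → ℝ := fun i t => 8 * (2 + M) * Pf (s i) (t - (ζ i).re) +
    s i / 2 * ‖av A ρ (a i) (b i) t‖ ^ 2
  have hφ0 : ∀ i t, 0 ≤ φ i t := by
    intro i t
    have h1 := Pf_nonneg (hs i) (t - (ζ i).re)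
    have h2 := hs i
    have h3 : 0 ≤ 8 * (2 + M) * Pf (s i) (t - (ζ i).re) := mul_nonneg (by linarith) h1
    have h4 : 0 ≤ s i / 2 * ‖av A ρ (a i) (b i) t‖ ^ 2 := by positivity
    exact add_nonneg h3 h4
  have hφm : ∀ i, Measurable (φ i) := by
    intro i
    refine ((Pf_meas _ _).const_mul _).add (Measurable.const_mul ?_ _)
    exact ((b1_av_cont hA hρ _ _).measurable.norm).pow_const 2
  have hφint : ∀ i, ∫⁻ t, ENNReal.ofReal (φ i t) ≤
      ENNReal.ofReal (8 * (2 + M) * Real.pi + B / 4) := by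
    intro i
    have e : ∀ t, ENNReal.ofReal (φ i t) = ENNReal.ofReal (8 * (2 + M)) *
        ENNReal.ofReal (Pf (s i) (t - (ζ i).re)) +
        ENNReal.ofReal (s i / 2) * ENNReal.ofReal (‖av A ρ (a i) (b i) t‖ ^ 2) := by
      intro t
      have h2 := hs i
      rw [← ENNReal.ofReal_mul (by linarith), ← ENNReal.ofReal_mul (by positivity),
        ← ENNReal.ofReal_add (mul_nonneg (by linarith) (Pf_nonneg (hs i) _)) (by positivity)]
    simp only [e]
    rw [lintegral_add_left (((Pf_meas _ _).ennreal_ofReal).const_mul _),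
      lintegral_const_mul _ (Pf_meas _ _).ennreal_ofReal, Pf_lintegral (hs i),
      lintegral_const_mul _ (((b1_av_cont hA hρ _ _).measurable.norm).pow_const 2).ennreal_ofReal]
    have h3 := b1_av_l2 B hB hyp (a i) (b i) (by have := hba i; have := hs i; linarith)
    have h4 := hs i
    calc ENNReal.ofReal (8 * (2 + M)) * ENNReal.ofReal Real.pi +
        ENNReal.ofReal (s i / 2) * ∫⁻ t, ENNReal.ofReal (‖av A ρ (a i) (b i) t‖ ^ 2)
        ≤ ENNReal.ofReal (8 * (2 + M)) * ENNReal.ofReal Real.pi +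
        ENNReal.ofReal (s i / 2) * ENNReal.ofReal (B / (b i - a i)) := by gcongr
      _ = ENNReal.ofReal (8 * (2 + M) * Real.pi + B / 4) := by
        rw [← ENNReal.ofReal_mul (by linarith), ← ENNReal.ofReal_mul (by positivity),
          ← ENNReal.ofReal_add (mul_nonneg (by linarith) Real.pi_pos.le)
            (by rw [hba]; positivity), hba]
        congr 2
        field_simp
        ring
  -- atoms on the graph
  let y : ι × Fin N → ℝ := fun p => a p.1 + (b p.1 - a p.1) * (((p.2 : ℕ) : ℝ) / N)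
  let m' : ι × Fin N → ℝ := fun p => m p.1 * (1 / N)
  have hm' : ∀ p, 0 < m' p := fun p => by have := hm p.1; simp only [m']; positivity
  have hsum' : ∑ p, m' p = S := by
    rw [Fintype.sum_prod_type, hS]
    refine Finset.sum_congr rfl fun i _ => ?_
    simp only [m']
    rw [Finset.sum_const, Finset.card_univ, Fintype.card_fin, nsmul_eq_mul]
    field_simp
  have : NeZero N := ⟨hN0.ne'⟩
  have : Nonempty (ι × Fin N) := inferInstance
  have hgr := b1_graph hM hA hρ B hB hyp y m' hm' (α / 2) (by positivity)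
  rw [hsum'] at hgr
  have hincl : {t : ℝ | α < ‖Tr ζ m ρ (zg A t)‖} ⊆
      {t | α / 4 < ∑ i, m i * φ i t} ∪
      {t | α / 2 < ‖∑ p, (m' p : ℂ) * kr ρ (zg A (y p) - zg A t)‖} := by
    intro t ht
    by_cases h1 : α / 4 < ∑ i, m i * φ i t
    · exact Or.inl h1
    refine Or.inr ?_
    push Not at h1
    have hE1 : ‖Tr ζ m ρ (zg A t) - ∑ i, (m i : ℂ) * av A ρ (a i) (b i) t‖ ≤ α / 4 := by
      unfold Tr
      rw [← Finset.sum_sub_distrib]
      refine (norm_sum_le _ _).trans (le_trans (Finset.sum_le_sum fun i _ => ?_) h1)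
      rw [← mul_sub, norm_mul, Complex.norm_real, Real.norm_of_nonneg (hm i).le]
      exact mul_le_mul_of_nonneg_left (b1_err hM hA hρ (ζ i) (s i) rfl t) (hm i).le
    have hE2 : ‖(∑ i, (m i : ℂ) * av A ρ (a i) (b i) t) -
        ∑ p, (m' p : ℂ) * kr ρ (zg A (y p) - zg A t)‖ ≤ α / 4 := by
      rw [Fintype.sum_prod_type, ← Finset.sum_sub_distrib]
      rw [Finset.sum_div] at hNE
      refine (norm_sum_le _ _).trans (le_trans (Finset.sum_le_sum fun i _ => ?_) hNE)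
      · have h2 : ∑ j : Fin N, (m' (i, j) : ℂ) * kr ρ (zg A (y (i, j)) - zg A t) =
            (m i : ℂ) * ∑ j ∈ Finset.range N, ((1 / N : ℝ) : ℂ) *
              kr ρ (zg A (a i + (b i - a i) * ((j : ℝ) / N)) - zg A t) := by
          rw [Finset.sum_range, Finset.mul_sum]
          refine Finset.sum_congr rfl fun j _ => ?_
          simp only [m', y]
          push_cast
          ring
        rw [h2, ← mul_sub, norm_mul, Complex.norm_real, Real.norm_of_nonneg (hm i).le]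
        have h3 := b1_riemann (fun y => kr ρ (zg A y - zg A t)) ((1 + M) / ρ ^ 2) (by
          intro u v
          have h4 := b1_kr_diff2 hρ (zg A u - zg A t) (zg A v - zg A t)
          have h5 := b1_zg_upper hA v u
          rw [sub_sub_sub_cancel_right] at h4
          rw [div_mul_eq_mul_div, le_div_iff₀ (by positivity)]
          exact h4.trans h5) (b1_k_cont (b1_A_cont hA) hρ t) (a i) (b i)
          (by have := hba i; have := hs i; linarith) N hN0 (by positivity)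
        rw [mul_div_assoc]
        exact mul_le_mul_of_nonneg_left h3 (hm i).le
    have h6 : α < ‖Tr ζ m ρ (zg A t)‖ := ht
    show α / 2 < ‖∑ p, (m' p : ℂ) * kr ρ (zg A (y p) - zg A t)‖
    have h7 : ‖Tr ζ m ρ (zg A t)‖ ≤
        ‖Tr ζ m ρ (zg A t) - ∑ i, (m i : ℂ) * av A ρ (a i) (b i) t‖ +
        ‖(∑ i, (m i : ℂ) * av A ρ (a i) (b i) t) -
        ∑ p, (m' p : ℂ) * kr ρ (zg A (y p) - zg A t)‖ +
        ‖∑ p, (m' p : ℂ) * kr ρ (zg A (y p) - zg A t)‖ := by
      have e : Tr ζ m ρ (zg A t) = (Tr ζ m ρ (zg A t) - ∑ i, (m i : ℂ) * av A ρ (a i) (b i) t) +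
        ((∑ i, (m i : ℂ) * av A ρ (a i) (b i) t) -
        ∑ p, (m' p : ℂ) * kr ρ (zg A (y p) - zg A t)) +
        ∑ p, (m' p : ℂ) * kr ρ (zg A (y p) - zg A t) := by ring
      conv_lhs => rw [e]
      exact norm_add₃_le
    linarith
  refine (measure_mono hincl).trans ((measure_union_le _ _).trans ?_)
  have hb1 := b1_markov (fun t => ∑ i, m i * φ i t)
    (Finset.measurable_sum _ fun i _ => (hφm i).const_mul _)
    ((8 * (2 + M) * Real.pi + B / 4) * S) (α / 4) (by positivity)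
    (b1_lint_sum m (fun i => (hm i).le) φ hφm hφ0 _ hφint)
  refine (add_le_add hb1 hgr).trans ?_
  have hpi := Real.pi_pos
  rw [← ENNReal.ofReal_add (by positivity) (by positivity)]
  refine ENNReal.ofReal_le_ofReal (le_of_eq ?_)
  field_simp
  ring

/-- B1: weak (1,1) for fixed ρ from plane measures to a Lipschitz graph -/
theorem weak_fixed (C₀ : ℝ) (k₀ : ℕ) (hC₀ : 0 < C₀)
    (hyp : ∀ M : ℝ, 1 ≤ M → ∀ A : ℝ → ℝ,
      (∀ x y, |A x - A y| ≤ M * |x - y|) → ∀ ρ : ℝ, 0 < ρ →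
      ∀ f : ℝ → ℂ, Measurable f → (∃ B, ∀ x, ‖f x‖ ≤ B) → (∃ R, ∀ x, R < |x| → f x = 0) →
      ∫⁻ x, ‖∫ y, f y * kr ρ ((⟨y, A y⟩ : ℂ) - ⟨x, A x⟩)‖ₑ ^ 2
        ≤ ENNReal.ofReal (C₀ * M ^ k₀) * ∫⁻ x, ‖f x‖ₑ ^ 2) :
    ∃ C : ℝ, ∃ k : ℕ, 0 < C ∧ ∀ M : ℝ, 1 ≤ M → ∀ A : ℝ → ℝ,
      (∀ x y, |A x - A y| ≤ M * |x - y|) → ∀ ρ : ℝ, 0 < ρ →
      ∀ (ι : Type) [Fintype ι] (ζ : ι → ℂ) (m : ι → ℝ), (∀ i, 0 ≤ m i) → ∀ α : ℝ, 0 < α →
      volume {x : ℝ | α < ‖Tr ζ m ρ (⟨x, A x⟩ : ℂ)‖}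
        ≤ ENNReal.ofReal (C * M ^ k * (∑ i, m i) / α) := by
  classical
  refine ⟨192 * Real.pi + 17 * C₀, k₀ + 1, by positivity, ?_⟩
  intro M hM A hA ρ hρ ι _ ζ m hm α hα
  have hMk : M ^ k₀ ≤ M ^ (k₀ + 1) := pow_le_pow_right₀ hM (by omega)
  have hM1 : M ≤ M ^ (k₀ + 1) := by
    calc M = M ^ 1 := (pow_one M).symm
      _ ≤ _ := pow_le_pow_right₀ hM (by omega)
  by_cases hne : ∃ i, 0 < m i
  · obtain ⟨i₀, hi₀⟩ := hne
    have : Nonempty {i // 0 < m i} := ⟨⟨i₀, hi₀⟩⟩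
    have hsub : ∀ {E : Type} [AddCommMonoid E] (f : ι → E), (∀ i, f i ≠ 0 → 0 < m i) →
        ∑ i : {i // 0 < m i}, f i = ∑ i, f i := by
      intro E _ f hf
      rw [← Finset.sum_filter_of_ne (s := Finset.univ) (p := fun i => 0 < m i)
        (fun i _ hi => hf i hi)]
      exact (Finset.sum_subtype _ (fun i => by simp) f).symm
    have hTr : ∀ p, Tr (fun i : {i // 0 < m i} => ζ i) (fun i => m i) ρ p = Tr ζ m ρ p := by
      intro p
      unfold Tr
      refine hsub (fun i => (m i : ℂ) * kr ρ (ζ i - p)) (fun i hi => ?_)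
      refine lt_of_le_of_ne (hm i) (fun h => hi ?_)
      simp [← h]
    have hSm : ∑ i : {i // 0 < m i}, m i = ∑ i, m i :=
      hsub m (fun i hi => lt_of_le_of_ne (hm i) (Ne.symm hi))
    have h := b1_pos hM hA hρ (C₀ * M ^ k₀) (by positivity) (hyp M hM A hA ρ hρ)
      (fun i : {i // 0 < m i} => ζ i) (fun i => m i) (fun i => i.2) α hα
    simp only [hTr] at h
    rw [hSm] at h
    refine h.trans (ENNReal.ofReal_le_ofReal ?_)
    have hS0 : 0 ≤ ∑ i, m i := Finset.sum_nonneg fun i _ => hm i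
    have hpi := Real.pi_pos
    gcongr
    have h1 : 64 * (2 + M) * Real.pi ≤ 192 * Real.pi * M ^ (k₀ + 1) := by
      have : 64 * (2 + M) ≤ 192 * M ^ (k₀ + 1) := by linarith
      nlinarith
    have h2 : 17 * (C₀ * M ^ k₀) ≤ 17 * C₀ * M ^ (k₀ + 1) := by nlinarith
    linarith
  · push Not at hne
    have h0 : ∀ i, m i = 0 := fun i => le_antisymm (hne i) (hm i)
    have : {x : ℝ | α < ‖Tr ζ m ρ (⟨x, A x⟩ : ℂ)‖} = ∅ := by
      ext x
      simp only [Set.mem_ofPred_eq, Set.mem_empty_iff_false, iff_false, not_lt]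
      unfold Tr
      simp [h0, hα.le]
    rw [this]
    simp

end B1

end P363
end Pool.Agent.Helper311.Nev
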