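import Mathlib
import Pool.Agent.Helper311.Nev.Ker

open MeasureTheory Set Filter Topology Metric
open scoped ENNReal NNReal

namespace Pool.Agent.Helper311.Nev
namespace P364


/-- two-sided comparison -/
def Cmp (M x : ℝ) : Prop := M⁻¹ ≤ x ∧ x ≤ M

lemma cmp_trans {C L x y : ℝ} (hC : 1 ≤ C) (_hL : 1 ≤ L) (h : Cmp L x) (h1 : y ≤ C * x)
    (h2 : x ≤ C * y) : Cmp (C * L) y := by
  constructor
  · have hx : L⁻¹ ≤ C * y := h.1.trans h2
    rw [mul_inv, inv_mul_le_iff₀ (by linarith)]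
    exact hx
  · exact h1.trans (mul_le_mul_of_nonneg_left h.2 (by linarith))

lemma cm_norm (t θ : ℝ) (ht : 0 ≤ t) : ‖circleMap 0 t θ‖ = t := by
  rw [norm_circleMap_zero, abs_of_nonneg ht]

lemma cm_sub_radial (s t θ : ℝ) : ‖circleMap 0 s θ - circleMap 0 t θ‖ = |s - t| := by
  have : circleMap 0 s θ - circleMap 0 t θ = circleMap 0 (s - t) θ := by
    simp only [circleMap, zero_add]
    push_cast
    ring
  rw [this, norm_circleMap_zero]

lemma cm_lip (t a b : ℝ) (ht : 0 ≤ t) : ‖circleMap 0 t a - circleMap 0 t b‖ ≤ t * |a - b| := by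
  have h := (lipschitzWith_circleMap 0 t).dist_le_mul a b
  rw [dist_eq_norm, Real.dist_eq] at h
  have h2 : ((Real.nnabs t : ℝ≥0) : ℝ) = t := by
    rw [Real.coe_nnabs, abs_of_nonneg ht]
  rwa [h2] at h

section region

variable {C₀ : ℝ} {φ : ℂ → ℂ} {L : ℝ} {G : Set ℝ}

/-- Koebe distortion step inside the unit disc -/
lemma koebe_step (hyp : ∀ (φ : ℂ → ℂ) (z : ℂ) (r : ℝ), 0 < r →
      DifferentiableOn ℂ φ (ball z r) → InjOn φ (ball z r) → ∀ w : ℂ, ‖w - z‖ ≤ r / 4 →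
      ‖deriv φ w‖ ≤ C₀ * ‖deriv φ z‖ ∧ ‖deriv φ z‖ ≤ C₀ * ‖deriv φ w‖)
    (hd : DifferentiableOn ℂ φ (ball 0 1)) (hi : InjOn φ (ball 0 1))
    (z w : ℂ) (r : ℝ) (hr : 0 < r) (hz : ‖z‖ + r ≤ 1) (hw : ‖w - z‖ ≤ r / 4) :
    ‖deriv φ w‖ ≤ C₀ * ‖deriv φ z‖ ∧ ‖deriv φ z‖ ≤ C₀ * ‖deriv φ w‖ := by
  have hsub : ball z r ⊆ ball (0 : ℂ) 1 := by
    intro x hx
    rw [mem_ball, dist_eq_norm] at hx
    rw [mem_ball_zero_iff]
    calc ‖x‖ = ‖(x - z) + z‖ := by ring_nf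
      _ ≤ ‖x - z‖ + ‖z‖ := norm_add_le _ _
      _ < 1 := by linarith
  exact hyp φ z r hr (hd.mono hsub) (hi.mono hsub) w hw

lemma isClosed_G (hd : DifferentiableOn ℂ φ (ball 0 1))
    (hG : G = {θ : ℝ | ∀ r ∈ Ico (0 : ℝ) 1, L⁻¹ ≤ ‖deriv φ (circleMap 0 r θ)‖ ∧
        ‖deriv φ (circleMap 0 r θ)‖ ≤ L}) : IsClosed G := by
  have : G = ⋂ r ∈ Ico (0 : ℝ) 1, {θ : ℝ | L⁻¹ ≤ ‖deriv φ (circleMap 0 r θ)‖ ∧
        ‖deriv φ (circleMap 0 r θ)‖ ≤ L} := by
    rw [hG]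
    ext θ
    simp only [Set.mem_ofPred_eq, mem_iInter]
  rw [this]
  refine isClosed_biInter fun r hr => ?_
  have hdc : ContinuousOn (deriv φ) (ball 0 1) := (hd.deriv isOpen_ball).continuousOn
  have hc : Continuous fun θ : ℝ => ‖deriv φ (circleMap 0 r θ)‖ := by
    refine Continuous.norm ?_
    refine hdc.comp_continuous (continuous_circleMap 0 r) fun θ => ?_
    rw [mem_ball_zero_iff, cm_norm _ _ hr.1]
    exact hr.2
  exact (isClosed_le continuous_const hc).inter (isClosed_le hc continuous_const)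

/-- region claim -/
lemma region (hC₀ : 1 ≤ C₀) (hyp : ∀ (φ : ℂ → ℂ) (z : ℂ) (r : ℝ), 0 < r →
      DifferentiableOn ℂ φ (ball z r) → InjOn φ (ball z r) → ∀ w : ℂ, ‖w - z‖ ≤ r / 4 →
      ‖deriv φ w‖ ≤ C₀ * ‖deriv φ z‖ ∧ ‖deriv φ z‖ ≤ C₀ * ‖deriv φ w‖)
    (hd : DifferentiableOn ℂ φ (ball 0 1)) (hi : InjOn φ (ball 0 1)) (hL : 1 ≤ L)
    (hG : G = {θ : ℝ | ∀ r ∈ Ico (0 : ℝ) 1, L⁻¹ ≤ ‖deriv φ (circleMap 0 r θ)‖ ∧
        ‖deriv φ (circleMap 0 r θ)‖ ≤ L}) (hne : G.Nonempty) (θ t : ℝ) (ht0 : 0 < t)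
    (ht1 : t < 1) (hdl : min (4 * infDist θ G) (1 / 2) ≤ t) :
    Cmp (C₀ ^ 3 * L) ‖deriv φ (circleMap 0 (1 - t) θ)‖ := by
  have hC0 : 0 < C₀ := by linarith
  have hCC : C₀ ≤ C₀ ^ 3 := by nlinarith [sq_nonneg C₀, mul_pos hC0 hC0]
  by_cases hA : infDist θ G ≤ t / 4
  · obtain ⟨θ', hθ', hdist⟩ := (isClosed_G hd hG).exists_infDist_eq_dist hne θ
    rw [hdist, Real.dist_eq] at hA
    have hz : ‖circleMap 0 (1 - t) θ - circleMap 0 (1 - t) θ'‖ ≤ t / 4 := by
      refine (cm_lip _ _ _ (by linarith)).trans ?_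
      have := abs_nonneg (θ - θ')
      nlinarith
    have hk := koebe_step hyp hd hi (circleMap 0 (1 - t) θ') (circleMap 0 (1 - t) θ) t ht0
      (by rw [cm_norm _ _ (by linarith)]; linarith) hz
    have hc : Cmp L ‖deriv φ (circleMap 0 (1 - t) θ')‖ := by
      rw [hG] at hθ'
      exact hθ' (1 - t) ⟨by linarith, by linarith⟩
    have h3 := cmp_trans hC₀ hL hc hk.1 hk.2
    constructor
    · refine le_trans ?_ h3.1
      apply inv_anti₀ (by positivity)
      exact mul_le_mul_of_nonneg_right hCC (by linarith)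
    · refine h3.2.trans ?_
      exact mul_le_mul_of_nonneg_right hCC (by linarith)
  · push Not at hA
    have hth : 1 / 2 ≤ t := by
      rcases min_le_iff.1 hdl with h | h
      · linarith
      · exact h
    set z := circleMap 0 (1 - t) θ with hz
    have hzn : ‖z‖ ≤ 1 / 2 := by
      rw [hz, cm_norm _ _ (by linarith)]
      linarith
    have h0 : Cmp L ‖deriv φ 0‖ := by
      obtain ⟨θ', hθ'⟩ := hne
      rw [hG] at hθ'
      have := hθ' 0 ⟨le_refl _, by norm_num⟩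
      simpa [circleMap, Cmp] using this
    have hz1 : ‖(1 / 2 : ℂ) * z‖ = 1 / 2 * ‖z‖ := by
      rw [norm_mul]; norm_num
    have hz2 : ‖(7 / 8 : ℂ) * z‖ = 7 / 8 * ‖z‖ := by
      rw [norm_mul]; norm_num
    have hz12 : ‖(7 / 8 : ℂ) * z - (1 / 2 : ℂ) * z‖ = 3 / 8 * ‖z‖ := by
      rw [← sub_mul, norm_mul]; norm_num
    have hz23 : ‖z - (7 / 8 : ℂ) * z‖ = 1 / 8 * ‖z‖ := by
      have : z - (7 / 8 : ℂ) * z = (1 / 8 : ℂ) * z := by ring
      rw [this, norm_mul]; norm_num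
    have k1 := koebe_step hyp hd hi 0 ((1 / 2 : ℂ) * z) 1 one_pos (by simp)
      (by rw [sub_zero, hz1]; linarith)
    have k2 := koebe_step hyp hd hi ((1 / 2 : ℂ) * z) ((7 / 8 : ℂ) * z) (3 / 4) (by norm_num)
      (by rw [hz1]; linarith) (by rw [hz12]; linarith)
    have k3 := koebe_step hyp hd hi ((7 / 8 : ℂ) * z) z (9 / 16) (by norm_num)
      (by rw [hz2]; linarith) (by rw [hz23]; linarith)
    have c1 := cmp_trans hC₀ hL h0 k1.1 k1.2
    have hL1 : 1 ≤ C₀ * L := by nlinarith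
    have c2 := cmp_trans hC₀ hL1 c1 k2.1 k2.2
    have hL2 : 1 ≤ C₀ * (C₀ * L) := by nlinarith
    have c3 := cmp_trans hC₀ hL2 c2 k3.1 k3.2
    have he : C₀ ^ 3 * L = C₀ * (C₀ * (C₀ * L)) := by ring
    rw [he]
    exact c3

end region

section radial

variable {φ : ℂ → ℂ} {M : ℝ} {d : ℝ → ℝ}

/-- radial mean value estimate -/
lemma radial (hc : ContinuousOn φ (closedBall 0 1)) (hd : DifferentiableOn ℂ φ (ball 0 1))
    (hd0 : ∀ θ, 0 ≤ d θ)
    (hreg : ∀ θ t : ℝ, 0 < t → t < 1 → d θ ≤ t → ‖deriv φ (circleMap 0 (1 - t) θ)‖ ≤ M)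
    (θ r s : ℝ) (hr : 0 < r) (hrs : r ≤ s) (hs : s ≤ 1 - d θ) :
    ‖φ (circleMap 0 s θ) - φ (circleMap 0 r θ)‖ ≤ M * (s - r) := by
  have hs1 : s ≤ 1 := by linarith [hd0 θ]
  have hcm : Continuous fun x : ℝ => circleMap 0 x θ := by
    unfold circleMap
    fun_prop
  have h1 : ContinuousOn (fun x : ℝ => φ (circleMap 0 x θ)) (Icc r s) := by
    refine hc.comp hcm.continuousOn ?_
    intro x hx
    rw [mem_closedBall_zero_iff, cm_norm _ _ (by linarith [hx.1])]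
    linarith [hx.2]
  have h2 : ∀ x ∈ Ico r s, HasDerivWithinAt (fun x : ℝ => φ (circleMap 0 x θ))
      (deriv φ (circleMap 0 x θ) * Complex.exp (θ * Complex.I)) (Ici x) x := by
    intro x hx
    have hx0 : 0 < x := by linarith [hx.1]
    have hxm : circleMap 0 x θ ∈ ball (0 : ℂ) 1 := by
      rw [mem_ball_zero_iff, cm_norm _ _ hx0.le]
      linarith [hx.2]
    have e1 : HasDerivAt φ (deriv φ (circleMap 0 x θ)) (circleMap 0 x θ) :=
      (hd.differentiableAt (isOpen_ball.mem_nhds hxm)).hasDerivAt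
    have e2 : HasDerivAt (fun x : ℝ => circleMap 0 x θ) (Complex.exp (θ * Complex.I)) x := by
      have h3 : HasDerivAt (fun x : ℝ => (x : ℂ) * Complex.exp (θ * Complex.I))
          (1 * Complex.exp (θ * Complex.I)) x := (Complex.ofRealCLM.hasDerivAt).mul_const _
      have h4 : (fun x : ℝ => circleMap 0 x θ) =
          fun x : ℝ => (x : ℂ) * Complex.exp (θ * Complex.I) := by
        funext y
        simp [circleMap]
      rw [h4]
      exact h3.congr_deriv (one_mul _)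
    exact (e1.comp x e2).hasDerivWithinAt
  have h3 : ∀ x ∈ Ico r s, ‖deriv φ (circleMap 0 x θ) * Complex.exp (θ * Complex.I)‖ ≤ M := by
    intro x hx
    rw [norm_mul, Complex.norm_exp_ofReal_mul_I, mul_one]
    have := hreg θ (1 - x) (by linarith [hx.2]) (by linarith [hx.1]) (by linarith [hx.2])
    rwa [sub_sub_cancel] at this
  exact norm_image_sub_le_of_norm_deriv_right_le_segment h1 h2 h3 s ⟨hrs, le_refl _⟩

/-- mean value estimate along an arc -/
lemma arc (hd : DifferentiableOn ℂ φ (ball 0 1)) (hM : 0 ≤ M)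
    (hreg : ∀ θ t : ℝ, 0 < t → t < 1 → d θ ≤ t → ‖deriv φ (circleMap 0 (1 - t) θ)‖ ≤ M)
    (a b t : ℝ) (ht0 : 0 < t) (ht1 : t < 1) (hab : a ≤ b) (hdt : ∀ θ ∈ Icc a b, d θ ≤ t) :
    ‖φ (circleMap 0 (1 - t) b) - φ (circleMap 0 (1 - t) a)‖ ≤ M * (b - a) := by
  have hder : ∀ x : ℝ, HasDerivAt (fun x : ℝ => φ (circleMap 0 (1 - t) x))
      (deriv φ (circleMap 0 (1 - t) x) * (circleMap 0 (1 - t) x * Complex.I)) x := by
    intro x
    have hxm : circleMap 0 (1 - t) x ∈ ball (0 : ℂ) 1 := by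
      rw [mem_ball_zero_iff, cm_norm _ _ (by linarith)]
      linarith
    have e1 : HasDerivAt φ (deriv φ (circleMap 0 (1 - t) x)) (circleMap 0 (1 - t) x) :=
      (hd.differentiableAt (isOpen_ball.mem_nhds hxm)).hasDerivAt
    exact e1.comp x (hasDerivAt_circleMap 0 (1 - t) x)
  refine norm_image_sub_le_of_norm_deriv_right_le_segment
    (fun x _ => (hder x).continuousAt.continuousWithinAt)
    (fun x _ => (hder x).hasDerivWithinAt) ?_ b ⟨hab, le_refl _⟩
  intro x hx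
  rw [norm_mul, norm_mul, Complex.norm_I, mul_one, cm_norm _ _ (by linarith)]
  have := hreg x t ht0 ht1 (hdt x ⟨hx.1, hx.2.le⟩)
  calc ‖deriv φ (circleMap 0 (1 - t) x)‖ * (1 - t) ≤ M * 1 :=
        mul_le_mul this (by linarith) (by linarith) hM
    _ = M := mul_one _

lemma lip_le (hc : ContinuousOn φ (closedBall 0 1)) (hd : DifferentiableOn ℂ φ (ball 0 1))
    (hd0 : ∀ θ, 0 ≤ d θ) (hd1 : ∀ θ, d θ ≤ 1 / 2) (hdlip : ∀ a b, |d a - d b| ≤ 4 * |a - b|)
    (hM : 0 ≤ M)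
    (hreg : ∀ θ t : ℝ, 0 < t → t < 1 → d θ ≤ t → ‖deriv φ (circleMap 0 (1 - t) θ)‖ ≤ M)
    (a b : ℝ) (hab : a < b) :
    ‖φ (circleMap 0 (1 - d b) b) - φ (circleMap 0 (1 - d a) a)‖ ≤ 17 * M * (b - a) := by
  set s := b - a with hs
  have hs0 : 0 < s := by rw [hs]; linarith
  have hab' : |d a - d b| ≤ 4 * s := by
    have := hdlip a b
    rwa [abs_sub_comm a b, abs_of_pos (by linarith : 0 < b - a)] at this
  have hab2 := abs_le.1 hab'
  set t := min (d a + 4 * s) (1 / 2) with ht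
  have ht0 : 0 < t := lt_min (by linarith [hd0 a]) (by norm_num)
  have ht1 : t ≤ 1 / 2 := min_le_right _ _
  have hta : t ≤ d a + 4 * s := min_le_left _ _
  have hdt : ∀ θ ∈ Icc a b, d θ ≤ t := by
    intro θ hθ
    refine le_min ?_ (hd1 θ)
    have h1 := (abs_le.1 (hdlip θ a)).2
    rw [abs_of_nonneg (by linarith [hθ.1])] at h1
    linarith [hθ.2]
  have hda : d a ≤ t := hdt a ⟨le_refl _, hab.le⟩
  have hdb : d b ≤ t := hdt b ⟨hab.le, le_refl _⟩
  have r1 := radial hc hd hd0 hreg a (1 - t) (1 - d a) (by linarith) (by linarith) le_rfl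
  have r2 := radial hc hd hd0 hreg b (1 - t) (1 - d b) (by linarith) (by linarith) le_rfl
  have r3 := arc hd hM hreg a b t ht0 (by linarith) hab.le hdt
  have e : φ (circleMap 0 (1 - d b) b) - φ (circleMap 0 (1 - d a) a) =
      (φ (circleMap 0 (1 - d b) b) - φ (circleMap 0 (1 - t) b)) +
      (φ (circleMap 0 (1 - t) b) - φ (circleMap 0 (1 - t) a)) -
      (φ (circleMap 0 (1 - d a) a) - φ (circleMap 0 (1 - t) a)) := by ring
  rw [e]
  have n1 := norm_sub_le ((φ (circleMap 0 (1 - d b) b) - φ (circleMap 0 (1 - t) b)) +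
      (φ (circleMap 0 (1 - t) b) - φ (circleMap 0 (1 - t) a)))
      (φ (circleMap 0 (1 - d a) a) - φ (circleMap 0 (1 - t) a))
  have n2 := norm_add_le (φ (circleMap 0 (1 - d b) b) - φ (circleMap 0 (1 - t) b))
      (φ (circleMap 0 (1 - t) b) - φ (circleMap 0 (1 - t) a))
  have m1 : M * (1 - d a - (1 - t)) ≤ M * (4 * s) :=
    mul_le_mul_of_nonneg_left (by linarith) hM
  have m2 : M * (1 - d b - (1 - t)) ≤ M * (8 * s) :=
    mul_le_mul_of_nonneg_left (by linarith) hM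
  have m3 : 0 ≤ M * s := mul_nonneg hM hs0.le
  linarith

lemma lip_all (hc : ContinuousOn φ (closedBall 0 1)) (hd : DifferentiableOn ℂ φ (ball 0 1))
    (hd0 : ∀ θ, 0 ≤ d θ) (hd1 : ∀ θ, d θ ≤ 1 / 2) (hdlip : ∀ a b, |d a - d b| ≤ 4 * |a - b|)
    (hM : 0 ≤ M)
    (hreg : ∀ θ t : ℝ, 0 < t → t < 1 → d θ ≤ t → ‖deriv φ (circleMap 0 (1 - t) θ)‖ ≤ M)
    (a b : ℝ) :
    ‖φ (circleMap 0 (1 - d a) a) - φ (circleMap 0 (1 - d b) b)‖ ≤ 17 * M * |a - b| := by
  rcases lt_trichotomy a b with h | h | h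
  · rw [norm_sub_rev, abs_sub_comm, abs_of_pos (by linarith)]
    exact lip_le hc hd hd0 hd1 hdlip hM hreg a b h
  · rw [h]; simp
  · rw [abs_of_pos (by linarith)]
    exact lip_le hc hd hd0 hd1 hdlip hM hreg b a h

end radial

section area

/-- real determinant of a complex derivative -/
lemma det_cplx (z : ℂ) :
    ((ContinuousLinearMap.toSpanSingleton ℂ z : ℂ →L[ℂ] ℂ).restrictScalars ℝ).det
      = ‖z‖ ^ 2 := by
  rw [ContinuousLinearMap.det]
  have h : ((ContinuousLinearMap.toSpanSingleton ℂ z : ℂ →L[ℂ] ℂ).restrictScalars ℝ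
      : ℂ →ₗ[ℝ] ℂ) = (LinearMap.toSpanSingleton ℂ ℂ z).restrictScalars ℝ := by
    ext <;> rfl
  rw [h, LinearMap.det_restrictScalars, Algebra.norm_complex_apply, Complex.normSq_eq_norm_sq]
  congr 2
  have : LinearMap.toSpanSingleton ℂ ℂ z = z • LinearMap.id := by
    ext; simp
  rw [this, LinearMap.det_smul]
  simp

/-- area of the image of a set under an injective holomorphic map -/
lemma area_image {ψ ψ' : ℂ → ℂ} {W : Set ℂ} (hW : MeasurableSet W)
    (hd : ∀ w ∈ W, HasDerivAt ψ (ψ' w) w) (hi : InjOn ψ W) (k : ℝ) (hk0 : 0 ≤ k)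
    (hk : ∀ w ∈ W, k ≤ ‖ψ' w‖) :
    ENNReal.ofReal (k ^ 2) * volume W ≤ volume (ψ '' W) := by
  have h := lintegral_abs_det_fderiv_eq_addHaar_image (μ := (volume : Measure ℂ)) (s := W)
    (f := ψ) (f' := fun w =>
      ((ContinuousLinearMap.toSpanSingleton ℂ (ψ' w) : ℂ →L[ℂ] ℂ).restrictScalars ℝ))
    hW (fun w hw => ((hd w hw).hasFDerivAt.restrictScalars ℝ).hasFDerivWithinAt) hi
  rw [← h]
  rw [← setLIntegral_const]
  refine setLIntegral_mono' hW fun w hw => ?_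
  apply ENNReal.ofReal_le_ofReal
  rw [det_cplx, abs_of_nonneg (by positivity)]
  exact pow_le_pow_left₀ hk0 (hk w hw) 2

/-- area of a strip-like region -/
lemma area_strip {E : Set ℝ} (hE : MeasurableSet E) (a : ℝ → ℝ) (ha : Measurable a) (s : ℝ) :
    MeasurableSet {w : ℂ | w.im ∈ E ∧ w.re ∈ Ioo (a w.im - s) (a w.im)} ∧
    volume {w : ℂ | w.im ∈ E ∧ w.re ∈ Ioo (a w.im - s) (a w.im)} =
      ENNReal.ofReal s * volume E := by
  have hmp : MeasurePreserving (fun w : ℂ => (w.im, w.re)) volume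
      ((volume : Measure ℝ).prod (volume : Measure ℝ)) := by
    have h1 := Complex.volume_preserving_equiv_real_prod
    have h2 : MeasurePreserving (Prod.swap : ℝ × ℝ → ℝ × ℝ)
        ((volume : Measure ℝ).prod (volume : Measure ℝ))
        ((volume : Measure ℝ).prod (volume : Measure ℝ)) := Measure.measurePreserving_swap
    exact h2.comp h1
  have hset : {w : ℂ | w.im ∈ E ∧ w.re ∈ Ioo (a w.im - s) (a w.im)} =
      (fun w : ℂ => (w.im, w.re)) ⁻¹' (regionBetween (fun x => a x - s) a E) := by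
    ext w
    simp [regionBetween]
  have hm : MeasurableSet (regionBetween (fun x => a x - s) a E) :=
    measurableSet_regionBetween (ha.sub_const s) ha hE
  rw [hset]
  refine ⟨hmp.measurable hm, ?_⟩
  rw [hmp.measure_preimage hm.nullMeasurableSet,
    volume_regionBetween_eq_lintegral (ha.sub_const s).aemeasurable ha.aemeasurable hE]
  simp

end area

section final

variable {φ : ℂ → ℂ} {M : ℝ} {d : ℝ → ℝ}

lemma exp_eq_cm (w : ℂ) : Complex.exp w = circleMap 0 (Real.exp w.re) w.im := by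
  rw [circleMap, zero_add, Complex.ofReal_exp, ← Complex.exp_add, Complex.re_add_im]

lemma exp_injOn (E : Set ℝ) (hE : E ⊆ Ico 0 (2 * Real.pi)) :
    InjOn Complex.exp {w : ℂ | w.im ∈ E} := by
  intro x hx y hy hxy
  rw [Complex.exp_eq_exp_iff_exists_int] at hxy
  obtain ⟨n, hn⟩ := hxy
  have hx' := hE hx
  have hy' := hE hy
  have him : x.im = y.im + n * (2 * Real.pi) := by
    have := congrArg Complex.im hn
    simpa using this
  have hpi := Real.pi_pos
  have h1 : (n : ℝ) < 1 := by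
    by_contra hcon
    push Not at hcon
    nlinarith [hx'.2, hy'.1]
  have h2 : (-1 : ℝ) < n := by
    by_contra hcon
    push Not at hcon
    nlinarith [hx'.1, hy'.2]
  have h3 : n = 0 := by
    have h1' : n < 1 := by exact_mod_cast h1
    have h2' : -1 < n := by exact_mod_cast h2
    omega
  rw [hn, h3]
  simp

lemma small_measure (hc : ContinuousOn φ (closedBall 0 1))
    (hd : DifferentiableOn ℂ φ (ball 0 1)) (hi : InjOn φ (ball 0 1))
    (hd0 : ∀ θ, 0 ≤ d θ) (hd1 : ∀ θ, d θ ≤ 1 / 2) (hdc : Continuous d)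
    (hhc : Continuous fun θ => φ (circleMap 0 (1 - d θ) θ)) (hM : 1 ≤ M)
    (hreg : ∀ θ t : ℝ, 0 < t → t < 1 → d θ ≤ t → ‖deriv φ (circleMap 0 (1 - t) θ)‖ ≤ M)
    (hreg2 : ∀ θ t : ℝ, 0 < t → t < 1 → d θ ≤ t → M⁻¹ ≤ ‖deriv φ (circleMap 0 (1 - t) θ)‖)
    (p : ℂ) (R : ℝ) (hR : 0 < R) (hR1 : R < 1 / 8) :
    volume {θ ∈ Icc 0 (2 * Real.pi) | ‖φ (circleMap 0 (1 - d θ) θ) - p‖ < R} ≤
      ENNReal.ofReal (90 * M ^ 4 * R) := by
  set h : ℝ → ℂ := fun θ => φ (circleMap 0 (1 - d θ) θ) with hh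
  set E : Set ℝ := {θ | θ ∈ Ico 0 (2 * Real.pi) ∧ ‖h θ - p‖ < R} with hE
  have hM0 : 0 < M := by linarith
  have hEm : MeasurableSet E :=
    measurableSet_Ico.inter (isOpen_lt ((hhc.sub continuous_const).norm)
      continuous_const).measurableSet
  have hEsub : E ⊆ Ico 0 (2 * Real.pi) := fun x hx => hx.1
  have hle : volume {θ ∈ Icc 0 (2 * Real.pi) | ‖h θ - p‖ < R} ≤ volume E := by
    have hs : {θ ∈ Icc 0 (2 * Real.pi) | ‖h θ - p‖ < R} ⊆ E ∪ {2 * Real.pi} := by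
      rintro θ ⟨h1, h2⟩
      by_cases h3 : θ = 2 * Real.pi
      · right; exact h3
      · left; exact ⟨⟨h1.1, lt_of_le_of_ne h1.2 h3⟩, h2⟩
    refine (measure_mono hs).trans ((measure_union_le _ _).trans ?_)
    simp
  refine hle.trans ?_
  have hlog : Measurable fun θ => Real.log (1 - d θ) :=
    Real.measurable_log.comp (measurable_const.sub hdc.measurable)
  obtain ⟨hWm, hWv⟩ := area_strip hEm (fun θ => Real.log (1 - d θ)) hlog R
  set W : Set ℂ := {w : ℂ | w.im ∈ E ∧ w.re ∈ Ioo (Real.log (1 - d w.im) - R)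
    (Real.log (1 - d w.im))} with hW
  have hbase : ∀ w ∈ W, Real.exp w.re < 1 - d w.im ∧ 3 / 8 ≤ Real.exp w.re ∧
      1 - d w.im - Real.exp w.re < R := by
    rintro w ⟨_, hw2, hw3⟩
    have hpos : 0 < 1 - d w.im := by linarith [hd1 w.im]
    have he : Real.exp (Real.log (1 - d w.im)) = 1 - d w.im := Real.exp_log hpos
    have h1 : Real.exp w.re < 1 - d w.im := by
      rw [← he]; exact Real.exp_lt_exp.2 hw3
    have h2 : Real.exp w.re =
        (1 - d w.im) * Real.exp (w.re - Real.log (1 - d w.im)) := by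
      rw [← he, ← Real.exp_add, he]
      congr 1; ring
    have h3 := Real.add_one_le_exp (w.re - Real.log (1 - d w.im))
    have h4 : (1 - d w.im) * (w.re - Real.log (1 - d w.im) + 1) ≤ Real.exp w.re := by
      rw [h2]; exact mul_le_mul_of_nonneg_left h3 hpos.le
    have h5 : (1 - d w.im) * (w.re - Real.log (1 - d w.im) + R) ≥ 0 :=
      mul_nonneg hpos.le (by linarith)
    have h6 := hd0 w.im
    have h7 := hd1 w.im
    refine ⟨h1, ?_, ?_⟩
    · nlinarith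
    · have h8 : (1 - d w.im) * (w.re - Real.log (1 - d w.im) + R) > 0 :=
        mul_pos hpos (by linarith)
      nlinarith
  have hder : ∀ w ∈ W, HasDerivAt (fun w => φ (Complex.exp w))
      (deriv φ (Complex.exp w) * Complex.exp w) w := by
    intro w hw
    have hb := hbase w hw
    have hm : Complex.exp w ∈ ball (0 : ℂ) 1 := by
      rw [mem_ball_zero_iff, Complex.norm_exp]
      linarith [hd0 w.im]
    have e1 : HasDerivAt φ (deriv φ (Complex.exp w)) (Complex.exp w) :=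
      (hd.differentiableAt (isOpen_ball.mem_nhds hm)).hasDerivAt
    exact e1.comp w (Complex.hasDerivAt_exp w)
  have hinj : InjOn (fun w => φ (Complex.exp w)) W := by
    intro x hx y hy hxy
    have hmx : Complex.exp x ∈ ball (0 : ℂ) 1 := by
      rw [mem_ball_zero_iff, Complex.norm_exp]
      linarith [hd0 x.im, (hbase x hx).1]
    have hmy : Complex.exp y ∈ ball (0 : ℂ) 1 := by
      rw [mem_ball_zero_iff, Complex.norm_exp]
      linarith [hd0 y.im, (hbase y hy).1]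
    exact exp_injOn E hEsub hx.1 hy.1 (hi hmx hmy hxy)
  have hk : ∀ w ∈ W, M⁻¹ * (3 / 8) ≤ ‖deriv φ (Complex.exp w) * Complex.exp w‖ := by
    intro w hw
    have hb := hbase w hw
    rw [norm_mul]
    have h1 := hreg2 w.im (1 - Real.exp w.re) (by linarith [hd0 w.im])
      (by linarith [Real.exp_pos w.re]) (by linarith)
    rw [sub_sub_cancel, ← exp_eq_cm] at h1
    have h2 : 3 / 8 ≤ ‖Complex.exp w‖ := by
      rw [Complex.norm_exp]; exact hb.2.1
    exact mul_le_mul h1 h2 (by norm_num) (norm_nonneg _)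
  have harea := area_image hWm hder hinj (M⁻¹ * (3 / 8)) (by positivity) hk
  have hball : (fun w => φ (Complex.exp w)) '' W ⊆ ball p ((1 + M) * R) := by
    rintro _ ⟨w, hw, rfl⟩
    have hb := hbase w hw
    have hr := radial hc hd hd0 hreg w.im (Real.exp w.re) (1 - d w.im) (Real.exp_pos _)
      hb.1.le le_rfl
    rw [← exp_eq_cm] at hr
    rw [mem_ball, dist_eq_norm]
    have hp : ‖h w.im - p‖ < R := hw.1.2
    have e : φ (Complex.exp w) - p = (h w.im - p) - (h w.im - φ (Complex.exp w)) := by ring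
    change ‖φ (Complex.exp w) - p‖ < (1 + M) * R
    rw [e]
    have n1 := norm_sub_le (h w.im - p) (h w.im - φ (Complex.exp w))
    have n2 : ‖h w.im - φ (Complex.exp w)‖ ≤ M * (1 - d w.im - Real.exp w.re) := hr
    nlinarith [hb.2.2]
  have hvol : ENNReal.ofReal ((M⁻¹ * (3 / 8)) ^ 2) * (ENNReal.ofReal R * volume E) ≤
      ENNReal.ofReal ((1 + M) * R) ^ 2 * NNReal.pi := by
    rw [← hWv]
    refine harea.trans ((measure_mono hball).trans ?_)
    rw [Complex.volume_ball]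
  have hEfin : volume E ≠ ⊤ := by
    refine ne_of_lt (lt_of_le_of_lt (measure_mono hEsub) ?_)
    rw [Real.volume_Ico]
    exact ENNReal.ofReal_lt_top
  have hpi : ((NNReal.pi : ℝ≥0) : ℝ≥0∞) = ENNReal.ofReal Real.pi := by
    rw [← NNReal.coe_real_pi, ENNReal.ofReal_coe_nnreal]
  rw [hpi, ← ENNReal.ofReal_toReal hEfin, ← ENNReal.ofReal_pow (by positivity),
    ← ENNReal.ofReal_mul hR.le, ← ENNReal.ofReal_mul (by positivity),
    ← ENNReal.ofReal_mul (by positivity),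
    ENNReal.ofReal_le_ofReal_iff (by positivity)] at hvol
  rw [← ENNReal.ofReal_toReal hEfin]
  apply ENNReal.ofReal_le_ofReal
  set v := (volume E).toReal with hv
  have hv0 : 0 ≤ v := ENNReal.toReal_nonneg
  have e1 : (M⁻¹ * (3 / 8)) ^ 2 * (R * v) = (9 / 64 * (R * v)) / M ^ 2 := by
    field_simp
    ring
  rw [e1, div_le_iff₀ (by positivity)] at hvol
  have e2 : 9 / 64 * v ≤ (1 + M) ^ 2 * R * Real.pi * M ^ 2 := by
    have : R * (9 / 64 * v) ≤ R * ((1 + M) ^ 2 * R * Real.pi * M ^ 2) := by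
      calc R * (9 / 64 * v) = 9 / 64 * (R * v) := by ring
        _ ≤ ((1 + M) * R) ^ 2 * Real.pi * M ^ 2 := hvol
        _ = R * ((1 + M) ^ 2 * R * Real.pi * M ^ 2) := by ring
    exact le_of_mul_le_mul_left this hR
  have e3 : (1 + M) ^ 2 ≤ 4 * M ^ 2 := by nlinarith
  have hpi4 : Real.pi < 3.15 := Real.pi_lt_d2
  have e4 : (1 + M) ^ 2 * R * Real.pi * M ^ 2 ≤ 4 * M ^ 2 * R * 3.15 * M ^ 2 := by
    have hpp := Real.pi_pos
    gcongr
  have e5 : 4 * M ^ 2 * R * 3.15 * M ^ 2 = 12.6 * (M ^ 4 * R) := by ring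
  have e6 : 0 ≤ M ^ 4 * R := by positivity
  nlinarith

end final

/-- E : sawtooth curve -/
theorem sawtooth (C₀ : ℝ) (hC₀ : 1 ≤ C₀)
    (hyp : ∀ (φ : ℂ → ℂ) (z : ℂ) (r : ℝ), 0 < r →
      DifferentiableOn ℂ φ (ball z r) → InjOn φ (ball z r) → ∀ w : ℂ, ‖w - z‖ ≤ r / 4 →
      ‖deriv φ w‖ ≤ C₀ * ‖deriv φ z‖ ∧ ‖deriv φ z‖ ≤ C₀ * ‖deriv φ w‖) :
    ∃ C : ℝ, 1 ≤ C ∧ ∀ φ : ℂ → ℂ, ContinuousOn φ (closedBall 0 1) →
      DifferentiableOn ℂ φ (ball 0 1) → InjOn φ (ball 0 1) →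
      ∀ L : ℝ, 1 ≤ L → ∀ G : Set ℝ,
      G = {θ : ℝ | ∀ r ∈ Ico (0 : ℝ) 1, L⁻¹ ≤ ‖deriv φ (circleMap 0 r θ)‖ ∧
        ‖deriv φ (circleMap 0 r θ)‖ ≤ L} → G.Nonempty →
      ∃ h : ℝ → ℂ, (∀ θ ∈ G, h θ = φ (circleMap 0 1 θ)) ∧
        (∀ s t, ‖h s - h t‖ ≤ C * L * |s - t|) ∧
        ∀ (p : ℂ) (R : ℝ), 0 < R →
          volume {θ ∈ Icc 0 (2 * Real.pi) | ‖h θ - p‖ < R} ≤ ENNReal.ofReal (C * L ^ 4 * R) := by
  have hC12 : 1 ≤ C₀ ^ 12 := one_le_pow₀ hC₀
  refine ⟨100 * C₀ ^ 12, by linarith, ?_⟩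
  intro φ hc hd hi L hL G hG hne
  have hC3 : 1 ≤ C₀ ^ 3 := one_le_pow₀ hC₀
  set M := C₀ ^ 3 * L with hMdef
  have hM : 1 ≤ M := by nlinarith
  set d : ℝ → ℝ := fun θ => min (4 * infDist θ G) (1 / 2) with hddef
  have hd0 : ∀ θ, 0 ≤ d θ := fun θ =>
    le_min (mul_nonneg (by norm_num) infDist_nonneg) (by norm_num)
  have hd1 : ∀ θ, d θ ≤ 1 / 2 := fun θ => min_le_right _ _
  have hdc : Continuous d := by
    have := continuous_infDist_pt G
    simp only [hddef]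
    fun_prop
  have hdlip : ∀ a b, |d a - d b| ≤ 4 * |a - b| := by
    intro a b
    have h1 : |d a - d b| ≤ max |4 * infDist a G - 4 * infDist b G| |(1 / 2 : ℝ) - 1 / 2| :=
      abs_min_sub_min_le_max _ _ _ _
    have h2 : |infDist a G - infDist b G| ≤ |a - b| := by
      have := (lipschitz_infDist_pt G).dist_le_mul a b
      rw [Real.dist_eq, Real.dist_eq] at this
      simpa using this
    refine h1.trans ?_
    rw [sub_self, abs_zero, ← mul_sub, abs_mul]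
    refine max_le ?_ (by positivity)
    rw [abs_of_pos (by norm_num : (0 : ℝ) < 4)]
    linarith
  have hreg : ∀ θ t : ℝ, 0 < t → t < 1 → d θ ≤ t → Cmp M ‖deriv φ (circleMap 0 (1 - t) θ)‖ :=
    fun θ t h0 h1 h2 => region hC₀ hyp hd hi hL hG hne θ t h0 h1 h2
  have hlip := lip_all hc hd hd0 hd1 hdlip (by linarith : 0 ≤ M)
    (fun θ t h0 h1 h2 => (hreg θ t h0 h1 h2).2)
  refine ⟨fun θ => φ (circleMap 0 (1 - d θ) θ), ?_, ?_, ?_⟩
  · intro θ hθ
    have : d θ = 0 := by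
      simp only [hddef]
      rw [infDist_zero_of_mem hθ]
      norm_num
    simp only [this, sub_zero]
  · intro s t
    refine (hlip s t).trans ?_
    refine mul_le_mul_of_nonneg_right ?_ (abs_nonneg _)
    rw [hMdef]
    have h1 : C₀ ^ 3 ≤ C₀ ^ 12 := pow_le_pow_right₀ hC₀ (by norm_num)
    have h2 : 0 ≤ C₀ ^ 3 * L := by positivity
    nlinarith
  · intro p R hR
    have hLM : M ^ 4 = C₀ ^ 12 * L ^ 4 := by rw [hMdef]; ring
    have hL4 : 1 ≤ L ^ 4 := one_le_pow₀ hL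
    by_cases hR1 : R < 1 / 8
    · have hhc : Continuous fun θ => φ (circleMap 0 (1 - d θ) θ) := by
        refine (LipschitzWith.of_dist_le_mul (K := ⟨17 * M, by positivity⟩) ?_).continuous
        intro x y
        rw [dist_eq_norm, Real.dist_eq]
        exact hlip x y
      refine (small_measure hc hd hi hd0 hd1 hdc hhc hM
        (fun θ t h0 h1 h2 => (hreg θ t h0 h1 h2).2)
        (fun θ t h0 h1 h2 => (hreg θ t h0 h1 h2).1) p R hR hR1).trans ?_
      apply ENNReal.ofReal_le_ofReal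
      rw [hLM]
      have : 0 ≤ C₀ ^ 12 * L ^ 4 * R := by positivity
      nlinarith
    · push Not at hR1
      have h1 : volume {θ ∈ Icc 0 (2 * Real.pi) | ‖φ (circleMap 0 (1 - d θ) θ) - p‖ < R} ≤
          volume (Icc 0 (2 * Real.pi)) := measure_mono (fun x hx => hx.1)
      refine h1.trans ?_
      rw [Real.volume_Icc]
      apply ENNReal.ofReal_le_ofReal
      have hpi4 : Real.pi < 3.15 := Real.pi_lt_d2
      have h2 : 1 ≤ C₀ ^ 12 * L ^ 4 := by nlinarith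
      nlinarith

end P364
end Pool.Agent.Helper311.Nev
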