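import Mathlib
import Pool.Agent.Helper311.Nev.Ker

open MeasureTheory Set Filter Topology Metric
open scoped ENNReal NNReal

namespace Pool.Agent.Helper311.Nev
namespace P365


namespace J365

/-- splitting a weighted integral -/
lemma split_sum (N : ℕ) (f : ℕ → ℂ) (v : ℝ → ℂ) :
    ∑ j ∈ Finset.range (2 ^ N), f j * ∫ y in ((j : ℝ) / 2 ^ N)..(((j : ℝ) + 1) / 2 ^ N), v y
      = ∑ j ∈ Finset.range (2 ^ N),
        ∫ y in ((j : ℝ) / 2 ^ N)..(((j : ℝ) + 1) / 2 ^ N), f j * v y := by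
  apply Finset.sum_congr rfl
  intro j _
  rw [intervalIntegral.integral_const_mul]

lemma sum_int (N : ℕ) (v : ℝ → ℂ) (hv : Continuous v) :
    ∑ j ∈ Finset.range (2 ^ N), ∫ y in ((j : ℝ) / 2 ^ N)..(((j : ℝ) + 1) / 2 ^ N), v y
      = ∫ y in (0 : ℝ)..1, v y := by
  have h := intervalIntegral.sum_integral_adjacent_intervals (μ := volume) (f := v)
    (a := fun j : ℕ => (j : ℝ) / 2 ^ N) (n := 2 ^ N) (fun k _ => hv.intervalIntegrable _ _)
  simp only [Nat.cast_add, Nat.cast_one] at h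
  rw [h]
  congr 1
  · simp
  · push_cast; rw [div_self (by positivity)]

lemma sum_intR (N : ℕ) (v : ℝ → ℝ) (hv : Continuous v) :
    ∑ j ∈ Finset.range (2 ^ N), ∫ y in ((j : ℝ) / 2 ^ N)..(((j : ℝ) + 1) / 2 ^ N), v y
      = ∫ y in (0 : ℝ)..1, v y := by
  have h := intervalIntegral.sum_integral_adjacent_intervals (μ := volume) (f := v)
    (a := fun j : ℕ => (j : ℝ) / 2 ^ N) (n := 2 ^ N) (fun k _ => hv.intervalIntegrable _ _)
  simp only [Nat.cast_add, Nat.cast_one] at h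
  rw [h]
  congr 1
  · simp
  · push_cast; rw [div_self (by positivity)]

/-- uniform modulus on cells -/
lemma modulus {E : Type*} [NormedAddCommGroup E] (F : ℝ → E) (hF : Continuous F) (ε : ℝ) (hε : 0 < ε) :
    ∀ᶠ N : ℕ in atTop, ∀ j ∈ Finset.range (2 ^ N), ∀ y ∈ Icc ((j : ℝ) / 2 ^ N) (((j : ℝ) + 1) / 2 ^ N),
      ‖F ((j : ℝ) / 2 ^ N) - F y‖ ≤ ε := by
  have huc : UniformContinuousOn F (Icc 0 1) :=
    isCompact_Icc.uniformContinuousOn_of_continuous hF.continuousOn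
  rw [Metric.uniformContinuousOn_iff] at huc
  obtain ⟨δ, hδ, h⟩ := huc ε hε
  have h1 : Tendsto (fun N : ℕ => (1 / 2 : ℝ) ^ N) atTop (𝓝 0) :=
    tendsto_pow_atTop_nhds_zero_of_lt_one (by norm_num) (by norm_num)
  filter_upwards [h1.eventually_lt_const hδ] with N hN j hj y hy
  have hj' : (j : ℝ) + 1 ≤ 2 ^ N := by
    have : j + 1 ≤ 2 ^ N := Finset.mem_range.1 hj
    exact_mod_cast this
  have hp : (0 : ℝ) < 2 ^ N := by positivity
  have hy1 : (j : ℝ) / 2 ^ N ∈ Icc (0 : ℝ) 1 :=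
    ⟨by positivity, by rw [div_le_one hp]; linarith⟩
  have hy2 : y ∈ Icc (0 : ℝ) 1 := ⟨hy1.1.trans hy.1, hy.2.trans (by rw [div_le_one hp]; exact hj')⟩
  have := h _ hy1 _ hy2 (by
    rw [Real.dist_eq, abs_sub_comm, abs_of_nonneg (by linarith [hy.1])]
    have h2 : ((j : ℝ) + 1) / 2 ^ N = (j : ℝ) / 2 ^ N + (1 / 2) ^ N := by
      rw [add_div, one_div_pow]
    rw [h2] at hy
    linarith [hy.2])
  rw [dist_eq_norm] at this
  exact this.le

/-- Riemann sums for a continuous real function -/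
lemma riemann (v : ℝ → ℝ) (hv : Continuous v) :
    Tendsto (fun N : ℕ => ∑ j ∈ Finset.range (2 ^ N), v ((j : ℝ) / 2 ^ N) / 2 ^ N) atTop
      (𝓝 (∫ y in (0 : ℝ)..1, v y)) := by
  rw [Metric.tendsto_atTop']
  intro ε hε
  obtain ⟨N₀, hN₀⟩ := eventually_atTop.1 (modulus v hv (ε / 2) (by positivity))
  refine ⟨N₀, fun N hN => ?_⟩
  have h := hN₀ N hN.le
  rw [Real.dist_eq, ← sum_intR N v hv, ← Finset.sum_sub_distrib]
  have hp : (0 : ℝ) < 2 ^ N := by positivity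
  have h2 : ∀ j : ℕ, v ((j : ℝ) / 2 ^ N) / 2 ^ N
      = ∫ y in ((j : ℝ) / 2 ^ N)..(((j : ℝ) + 1) / 2 ^ N), v ((j : ℝ) / 2 ^ N) := by
    intro j
    rw [intervalIntegral.integral_const, smul_eq_mul]
    field_simp
    ring
  calc |∑ j ∈ Finset.range (2 ^ N), (v ((j : ℝ) / 2 ^ N) / 2 ^ N
          - ∫ y in ((j : ℝ) / 2 ^ N)..(((j : ℝ) + 1) / 2 ^ N), v y)|
      ≤ ∑ j ∈ Finset.range (2 ^ N), |v ((j : ℝ) / 2 ^ N) / 2 ^ N
          - ∫ y in ((j : ℝ) / 2 ^ N)..(((j : ℝ) + 1) / 2 ^ N), v y| := Finset.abs_sum_le_sum_abs _ _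
    _ ≤ ∑ j ∈ Finset.range (2 ^ N), (ε / 2) * (1 / 2 ^ N) := by
        apply Finset.sum_le_sum
        intro j hj
        rw [h2 j, ← intervalIntegral.integral_sub (continuous_const.intervalIntegrable _ _)
          (hv.intervalIntegrable _ _)]
        have h3 := intervalIntegral.norm_integral_le_of_norm_le_const
          (a := (j : ℝ) / 2 ^ N) (b := ((j : ℝ) + 1) / 2 ^ N) (C := ε / 2)
          (f := fun y => v ((j : ℝ) / 2 ^ N) - v y) (by
            intro y hy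
            rw [uIoc_of_le (by gcongr; linarith)] at hy
            exact h j hj y ⟨hy.1.le, hy.2⟩)
        rw [Real.norm_eq_abs] at h3
        refine h3.trans (le_of_eq ?_)
        congr 1
        rw [← sub_div, add_sub_cancel_left, abs_of_pos (by positivity)]
    _ = ε / 2 := by
        rw [Finset.sum_const, Finset.card_range, nsmul_eq_mul]
        push_cast
        field_simp
    _ < ε := by linarith

/-- convergence of the bilinear dyadic sums -/
lemma bilin_tendsto (k : ℝ → ℝ → ℂ) (hk : Continuous (fun p : ℝ × ℝ => k p.1 p.2))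
    (F G : ℝ → ℂ) (hF : Continuous F) (hG : Continuous G) :
    Tendsto (fun N : ℕ => ∑ i ∈ Finset.range (2 ^ N), ∑ j ∈ Finset.range (2 ^ N),
      G ((i : ℝ) / 2 ^ N) * F ((j : ℝ) / 2 ^ N) *
      ∫ x in ((i : ℝ) / 2 ^ N)..(((i : ℝ) + 1) / 2 ^ N),
        ∫ y in ((j : ℝ) / 2 ^ N)..(((j : ℝ) + 1) / 2 ^ N), k x y) atTop
      (𝓝 (∫ x in (0 : ℝ)..1, ∫ y in (0 : ℝ)..1, G x * F y * k x y)) := by
  obtain ⟨B, hB⟩ := (isCompact_Icc.prod isCompact_Icc :
    IsCompact ((Icc (0 : ℝ) 1) ×ˢ (Icc (0 : ℝ) 1))).exists_bound_of_continuousOn hk.continuousOn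
  obtain ⟨BF, hBF⟩ := (isCompact_Icc : IsCompact (Icc (0 : ℝ) 1)).exists_bound_of_continuousOn
    hF.continuousOn
  obtain ⟨BG, hBG⟩ := (isCompact_Icc : IsCompact (Icc (0 : ℝ) 1)).exists_bound_of_continuousOn
    hG.continuousOn
  have hB0 : 0 ≤ B := (norm_nonneg _).trans (hB (0, 0) (by simp))
  have hBF0 : 0 ≤ BF := (norm_nonneg _).trans (hBF 0 (by simp))
  have hBG0 : 0 ≤ BG := (norm_nonneg _).trans (hBG 0 (by simp))
  rw [Metric.tendsto_atTop']
  intro ε hε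
  set η : ℝ := ε / (2 * ((BF + BG + 1) * (B + 1))) with hη
  have hηpos : 0 < η := by positivity
  obtain ⟨N₀, hN₀⟩ := eventually_atTop.1
    ((modulus F hF η hηpos).and (modulus G hG η hηpos))
  refine ⟨N₀, fun N hN => ?_⟩
  obtain ⟨hFm, hGm⟩ := hN₀ N hN.le
  have hp : (0 : ℝ) < 2 ^ N := by positivity
  have hcell : ∀ j ∈ Finset.range (2 ^ N), Icc ((j : ℝ) / 2 ^ N) (((j : ℝ) + 1) / 2 ^ N) ⊆ Icc 0 1 := by
    intro j hj y hy
    have hj' : (j : ℝ) + 1 ≤ 2 ^ N := by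
      have : j + 1 ≤ 2 ^ N := Finset.mem_range.1 hj
      exact_mod_cast this
    have h0 : (0 : ℝ) ≤ (j : ℝ) / 2 ^ N := by positivity
    exact ⟨h0.trans hy.1, hy.2.trans (by rw [div_le_one hp]; exact hj')⟩
  have hcont2 : ∀ a b : ℝ, ∀ q : ℝ → ℝ → ℂ, Continuous (fun p : ℝ × ℝ => q p.1 p.2) →
      Continuous (fun x => ∫ y in a..b, q x y) := by
    intro a b q hq
    exact intervalIntegral.continuous_parametric_intervalIntegral_of_continuous' hq a b
  have hI : ∫ x in (0 : ℝ)..1, ∫ y in (0 : ℝ)..1, G x * F y * k x y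
      = ∑ i ∈ Finset.range (2 ^ N), ∑ j ∈ Finset.range (2 ^ N),
        ∫ x in ((i : ℝ) / 2 ^ N)..(((i : ℝ) + 1) / 2 ^ N),
          ∫ y in ((j : ℝ) / 2 ^ N)..(((j : ℝ) + 1) / 2 ^ N), G x * F y * k x y := by
    have hq : Continuous (fun p : ℝ × ℝ => G p.1 * F p.2 * k p.1 p.2) := by fun_prop
    rw [← sum_int N _ (hcont2 0 1 _ hq)]
    apply Finset.sum_congr rfl
    intro i _
    rw [← intervalIntegral.integral_finsetSum]
    · apply intervalIntegral.integral_congr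
      intro x _
      simp only
      rw [sum_int N (fun y => G x * F y * k x y) (by fun_prop)]
    · intro j _
      exact (hcont2 _ _ _ hq).intervalIntegrable _ _
  rw [dist_eq_norm, hI, ← Finset.sum_sub_distrib]
  simp_rw [← Finset.sum_sub_distrib]
  have hterm : ∀ i ∈ Finset.range (2 ^ N), ∀ j ∈ Finset.range (2 ^ N),
      ‖G ((i : ℝ) / 2 ^ N) * F ((j : ℝ) / 2 ^ N) *
      (∫ x in ((i : ℝ) / 2 ^ N)..(((i : ℝ) + 1) / 2 ^ N),
        ∫ y in ((j : ℝ) / 2 ^ N)..(((j : ℝ) + 1) / 2 ^ N), k x y) -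
        ∫ x in ((i : ℝ) / 2 ^ N)..(((i : ℝ) + 1) / 2 ^ N),
          ∫ y in ((j : ℝ) / 2 ^ N)..(((j : ℝ) + 1) / 2 ^ N), G x * F y * k x y‖
        ≤ η * (BF + BG) * B * (1 / 2 ^ N) * (1 / 2 ^ N) := by
    intro i hi j hj
    have e1 : G ((i : ℝ) / 2 ^ N) * F ((j : ℝ) / 2 ^ N) *
      (∫ x in ((i : ℝ) / 2 ^ N)..(((i : ℝ) + 1) / 2 ^ N),
        ∫ y in ((j : ℝ) / 2 ^ N)..(((j : ℝ) + 1) / 2 ^ N), k x y) -
        ∫ x in ((i : ℝ) / 2 ^ N)..(((i : ℝ) + 1) / 2 ^ N),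
          ∫ y in ((j : ℝ) / 2 ^ N)..(((j : ℝ) + 1) / 2 ^ N), G x * F y * k x y
        = ∫ x in ((i : ℝ) / 2 ^ N)..(((i : ℝ) + 1) / 2 ^ N),
          ∫ y in ((j : ℝ) / 2 ^ N)..(((j : ℝ) + 1) / 2 ^ N),
            (G ((i : ℝ) / 2 ^ N) * F ((j : ℝ) / 2 ^ N) - G x * F y) * k x y := by
      rw [← intervalIntegral.integral_const_mul, ← intervalIntegral.integral_sub]
      · apply intervalIntegral.integral_congr
        intro x _
        simp only
        rw [← intervalIntegral.integral_const_mul, ← intervalIntegral.integral_sub]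
        · apply intervalIntegral.integral_congr
          intro y _
          simp only
          ring
        · exact Continuous.intervalIntegrable (by fun_prop) _ _
        · exact Continuous.intervalIntegrable (by fun_prop) _ _
      · exact ((hcont2 _ _ _ hk).const_mul _).intervalIntegrable _ _
      · exact (hcont2 _ _ (fun x y => G x * F y * k x y) (by fun_prop)).intervalIntegrable _ _
    rw [e1]
    have hlen : ∀ j : ℕ, |((j : ℝ) + 1) / 2 ^ N - (j : ℝ) / 2 ^ N| = 1 / 2 ^ N := by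
      intro j
      rw [← sub_div, add_sub_cancel_left, abs_of_pos (by positivity)]
    rw [← hlen i]
    apply intervalIntegral.norm_integral_le_of_norm_le_const
    intro x hx
    rw [uIoc_of_le (by gcongr; linarith)] at hx
    have hx' : x ∈ Icc ((i : ℝ) / 2 ^ N) (((i : ℝ) + 1) / 2 ^ N) := ⟨hx.1.le, hx.2⟩
    rw [hlen i, ← hlen j]
    apply intervalIntegral.norm_integral_le_of_norm_le_const
    intro y hy
    rw [uIoc_of_le (by gcongr; linarith)] at hy
    have hy' : y ∈ Icc ((j : ℝ) / 2 ^ N) (((j : ℝ) + 1) / 2 ^ N) := ⟨hy.1.le, hy.2⟩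
    rw [norm_mul]
    apply mul_le_mul _ (hB (x, y) ⟨hcell i hi hx', hcell j hj hy'⟩) (norm_nonneg _) (by positivity)
    have e2 : G ((i : ℝ) / 2 ^ N) * F ((j : ℝ) / 2 ^ N) - G x * F y
        = (G ((i : ℝ) / 2 ^ N) - G x) * F ((j : ℝ) / 2 ^ N) + G x * (F ((j : ℝ) / 2 ^ N) - F y) := by
      ring
    rw [e2]
    refine (norm_add_le _ _).trans ?_
    rw [norm_mul, norm_mul]
    have m1 := hGm i hi x hx'
    have m2 := hFm j hj y hy'
    have m3 := hBF ((j : ℝ) / 2 ^ N) (hcell j hj ⟨le_rfl, by gcongr; linarith⟩)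
    have m4 := hBG x (hcell i hi hx')
    calc ‖G ((i : ℝ) / 2 ^ N) - G x‖ * ‖F ((j : ℝ) / 2 ^ N)‖ + ‖G x‖ * ‖F ((j : ℝ) / 2 ^ N) - F y‖
        ≤ η * BF + BG * η := by gcongr
      _ = η * (BF + BG) := by ring
  calc ‖∑ i ∈ Finset.range (2 ^ N), ∑ j ∈ Finset.range (2 ^ N),
      (G ((i : ℝ) / 2 ^ N) * F ((j : ℝ) / 2 ^ N) *
      (∫ x in ((i : ℝ) / 2 ^ N)..(((i : ℝ) + 1) / 2 ^ N),
        ∫ y in ((j : ℝ) / 2 ^ N)..(((j : ℝ) + 1) / 2 ^ N), k x y) -
        ∫ x in ((i : ℝ) / 2 ^ N)..(((i : ℝ) + 1) / 2 ^ N),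
          ∫ y in ((j : ℝ) / 2 ^ N)..(((j : ℝ) + 1) / 2 ^ N), G x * F y * k x y)‖
      ≤ ∑ i ∈ Finset.range (2 ^ N), ∑ j ∈ Finset.range (2 ^ N),
        η * (BF + BG) * B * (1 / 2 ^ N) * (1 / 2 ^ N) := by
        refine (norm_sum_le _ _).trans (Finset.sum_le_sum fun i hi => ?_)
        exact (norm_sum_le _ _).trans (Finset.sum_le_sum fun j hj => hterm i hi j hj)
    _ = η * (BF + BG) * B := by
        simp only [Finset.sum_const, Finset.card_range, nsmul_eq_mul]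
        push_cast
        field_simp
    _ < ε := by
        have h1 : η * (BF + BG) * B ≤ η * ((BF + BG + 1) * (B + 1)) := by
          rw [mul_assoc]
          apply mul_le_mul_of_nonneg_left _ hηpos.le
          nlinarith
        have h2 : η * ((BF + BG + 1) * (B + 1)) = ε / 2 := by
          rw [hη]; field_simp
        linarith


/-- the curve -/
noncomputable def zz (A : ℝ → ℝ) (x : ℝ) : ℂ := ⟨x, A x⟩
noncomputable def bb (A : ℝ → ℝ) (x : ℝ) : ℂ := 1 + Complex.I * ((deriv A x : ℝ) : ℂ)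

lemma zz_cont {A : ℝ → ℝ} (hA : Continuous A) : Continuous (zz A) := by
  have : zz A = fun x : ℝ => (x : ℂ) + (A x : ℂ) * Complex.I := by
    ext x
    apply Complex.ext <;> simp [zz]
  rw [this]
  fun_prop

lemma bb_cont {A : ℝ → ℝ} (hA : ContDiff ℝ 1 A) : Continuous (bb A) := by
  have h := hA.continuous_deriv_one
  unfold bb
  fun_prop

lemma bb_norm (A : ℝ → ℝ) (x : ℝ) : 1 ≤ ‖bb A x‖ := by
  have h := Complex.abs_re_le_norm (bb A x)
  have : (bb A x).re = 1 := by simp [bb]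
  rw [this] at h
  simpa using h

lemma bb_ne (A : ℝ → ℝ) (x : ℝ) : bb A x ≠ 0 := by
  intro h
  have := bb_norm A x
  rw [h, norm_zero] at this
  linarith

lemma den_ne (A : ℝ → ℝ) (x y h : ℝ) (hh : 0 < h) : zz A y - zz A x - Complex.I * (h : ℂ) ≠ 0 := by
  intro h0
  have hre := congr_arg Complex.re h0
  have him := congr_arg Complex.im h0
  simp [zz] at hre him
  have : y = x := by linarith
  rw [this] at him
  simp at him
  exact hh.ne' him

lemma K_cont {A : ℝ → ℝ} (hA : Continuous A) (h : ℝ) (hh : 0 < h) :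
    Continuous (fun p : ℝ × ℝ => (zz A p.2 - zz A p.1 - Complex.I * (h : ℂ))⁻¹) := by
  have hz := zz_cont hA
  exact Continuous.inv₀ (by fun_prop) (fun p => den_ne A p.1 p.2 h hh)

def Hyp (C₀ : ℝ) (k₀ : ℕ) : Prop :=
    ∀ M : ℝ, 1 ≤ M → ∀ A : ℝ → ℝ,
    ContDiff ℝ 1 A → (∀ x, |deriv A x| ≤ M) → ∀ h : ℝ, 0 < h → ∀ N : ℕ, ∀ f g : ℕ → ℂ,
    ‖∑ i ∈ Finset.range (2 ^ N), ∑ j ∈ Finset.range (2 ^ N), g i * f j *
      ∫ x in ((i : ℝ) / 2 ^ N)..(((i : ℝ) + 1) / 2 ^ N),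
        ∫ y in ((j : ℝ) / 2 ^ N)..(((j : ℝ) + 1) / 2 ^ N),
          bb A x * bb A y / (zz A y - zz A x - Complex.I * (h : ℂ))‖
      ≤ C₀ * M ^ k₀ * √(∑ j ∈ Finset.range (2 ^ N), ‖f j‖ ^ 2 / 2 ^ N)
          * √(∑ i ∈ Finset.range (2 ^ N), ‖g i‖ ^ 2 / 2 ^ N)

lemma step1 (C₀ : ℝ) (k₀ : ℕ) (hyp : Hyp C₀ k₀) (M : ℝ) (hM : 1 ≤ M) (A : ℝ → ℝ)
    (hA : ContDiff ℝ 1 A) (hAM : ∀ x, |deriv A x| ≤ M) (h : ℝ) (hh : 0 < h)
    (F G : ℝ → ℂ) (hF : Continuous F) (hG : Continuous G) :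
    ‖∫ x in (0 : ℝ)..1, ∫ y in (0 : ℝ)..1,
      G x * F y * (bb A x * bb A y / (zz A y - zz A x - Complex.I * (h : ℂ)))‖
      ≤ C₀ * M ^ k₀ * √(∫ y in (0 : ℝ)..1, ‖F y‖ ^ 2) * √(∫ x in (0 : ℝ)..1, ‖G x‖ ^ 2) := by
  have hK := K_cont hA.continuous h hh
  have hb := bb_cont hA
  have h1 := (bilin_tendsto (fun x y => bb A x * bb A y / (zz A y - zz A x - Complex.I * (h : ℂ)))
    (by simp only [div_eq_mul_inv]; fun_prop) F G hF hG).norm
  have h2 := riemann (fun y => ‖F y‖ ^ 2) (by fun_prop)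
  have h3 := riemann (fun y => ‖G y‖ ^ 2) (by fun_prop)
  have h4 : Tendsto (fun N : ℕ => C₀ * M ^ k₀ *
      √(∑ j ∈ Finset.range (2 ^ N), ‖F ((j : ℝ) / 2 ^ N)‖ ^ 2 / 2 ^ N)
        * √(∑ j ∈ Finset.range (2 ^ N), ‖G ((j : ℝ) / 2 ^ N)‖ ^ 2 / 2 ^ N)) atTop
      (𝓝 (C₀ * M ^ k₀ * √(∫ y in (0 : ℝ)..1, ‖F y‖ ^ 2) * √(∫ x in (0 : ℝ)..1, ‖G x‖ ^ 2))) :=
    ((Real.continuous_sqrt.tendsto _).comp h2 |>.const_mul _).mul
      ((Real.continuous_sqrt.tendsto _).comp h3)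
  refine le_of_tendsto_of_tendsto' h1 h4 (fun N => ?_)
  exact hyp M hM A hA hAM h hh N (fun j => F ((j : ℝ) / 2 ^ N)) (fun i => G ((i : ℝ) / 2 ^ N))

/-- scaling -/
lemma step2 (C₀ : ℝ) (k₀ : ℕ) (hyp : Hyp C₀ k₀) (M : ℝ) (hM : 1 ≤ M) (A : ℝ → ℝ)
    (hA : ContDiff ℝ 1 A) (hAM : ∀ x, |deriv A x| ≤ M) (h : ℝ) (hh : 0 < h)
    (F G : ℝ → ℂ) (hF : Continuous F) (hG : Continuous G) (R : ℝ) (hR : 0 < R) :
    ‖∫ x in (-R)..R, ∫ y in (-R)..R,
      G x * F y * (bb A x * bb A y / (zz A y - zz A x - Complex.I * (h : ℂ)))‖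
      ≤ C₀ * M ^ k₀ * √(∫ y in (-R)..R, ‖F y‖ ^ 2) * √(∫ x in (-R)..R, ‖G x‖ ^ 2) := by
  set L : ℝ := 2 * R with hL
  have hLpos : 0 < L := by positivity
  have hLne : L ≠ 0 := hLpos.ne'
  set A' : ℝ → ℝ := fun x => A (L * x - R) / L with hA'
  have hA'd : ∀ x, HasDerivAt A' (deriv A (L * x - R)) x := by
    intro x
    have h1 : HasDerivAt A (deriv A (L * x - R)) (L * x - R) :=
      (hA.differentiable (by norm_num) _).hasDerivAt
    have h2 : HasDerivAt (fun x : ℝ => L * x - R) L x := by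
      simpa using ((hasDerivAt_id x).const_mul L).sub_const R
    have h3 := (h1.comp x h2).div_const L
    have h4 : deriv A (L * x - R) * L / L = deriv A (L * x - R) := by field_simp
    rw [h4] at h3
    exact h3
  have hA'c : ContDiff ℝ 1 A' := by
    simp only [hA']
    exact (hA.comp (by fun_prop)).div_const L
  have hA'deriv : ∀ x, deriv A' x = deriv A (L * x - R) := fun x => (hA'd x).deriv
  have key := step1 C₀ k₀ hyp M hM A' hA'c (fun x => by rw [hA'deriv]; exact hAM _) (h / L)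
    (by positivity) (fun y => F (L * y - R)) (fun x => G (L * x - R))
    (hF.comp (by fun_prop)) (hG.comp (by fun_prop))
  have hbb : ∀ x, bb A' x = bb A (L * x - R) := by
    intro x; simp only [bb, hA'deriv]
  have hzz : ∀ x, zz A' x = (zz A (L * x - R) + (R : ℂ)) / (L : ℂ) := by
    intro x
    have hLc : (L : ℂ) ≠ 0 := by exact_mod_cast hLne
    rw [eq_div_iff hLc]
    apply Complex.ext
    · simp [zz]; ring
    · simp [zz, hA']; field_simp
  have hker : ∀ x y, (bb A' x * bb A' y / (zz A' y - zz A' x - Complex.I * ((h / L : ℝ) : ℂ)))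
      = (L : ℂ) * (bb A (L * x - R) * bb A (L * y - R) /
        (zz A (L * y - R) - zz A (L * x - R) - Complex.I * (h : ℂ))) := by
    intro x y
    rw [hbb, hbb, hzz, hzz]
    have hLc : (L : ℂ) ≠ 0 := by exact_mod_cast hLne
    have hd := den_ne A (L * x - R) (L * y - R) h hh
    have e : (zz A (L * y - R) + (R : ℂ)) / (L : ℂ) - (zz A (L * x - R) + (R : ℂ)) / (L : ℂ)
        - Complex.I * ((h / L : ℝ) : ℂ)
        = (zz A (L * y - R) - zz A (L * x - R) - Complex.I * (h : ℂ)) / (L : ℂ) := by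
      push_cast
      field_simp
      ring
    rw [e, div_div_eq_mul_div]
    field_simp
  simp_rw [hker] at key
  have hsub : ∀ v : ℝ → ℂ, ∫ x in (0 : ℝ)..1, v (L * x - R) = (L⁻¹ : ℝ) • ∫ x in (-R)..R, v x := by
    intro v
    rw [intervalIntegral.integral_comp_mul_sub v hLne]
    congr 2 <;> simp [hL]; ring
  have hsubR : ∀ v : ℝ → ℝ, ∫ x in (0 : ℝ)..1, v (L * x - R) = (L⁻¹ : ℝ) • ∫ x in (-R)..R, v x := by
    intro v
    rw [intervalIntegral.integral_comp_mul_sub v hLne]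
    congr 2 <;> simp [hL]; ring
  have hinner : ∀ x : ℝ, (∫ y in (0 : ℝ)..1, G (L * x - R) * F (L * y - R) *
      ((L : ℂ) * (bb A (L * x - R) * bb A (L * y - R) /
        (zz A (L * y - R) - zz A (L * x - R) - Complex.I * (h : ℂ)))))
      = (fun X : ℝ => ∫ y in (-R)..R, G X * F y *
        (bb A X * bb A y / (zz A y - zz A X - Complex.I * (h : ℂ)))) (L * x - R) := by
    intro x
    rw [hsub (fun Y => G (L * x - R) * F Y * ((L : ℂ) * (bb A (L * x - R) * bb A Y /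
        (zz A Y - zz A (L * x - R) - Complex.I * (h : ℂ)))))]
    simp only
    rw [← intervalIntegral.integral_smul]
    apply intervalIntegral.integral_congr
    intro y _
    have hLc : (L : ℂ) ≠ 0 := by exact_mod_cast hLne
    simp only [Complex.real_smul]
    push_cast
    field_simp
  simp_rw [hinner] at key
  have hout := hsub (fun X : ℝ => ∫ y in (-R)..R, G X * F y *
        (bb A X * bb A y / (zz A y - zz A X - Complex.I * (h : ℂ))))
  rw [hout, hsubR (fun y => ‖F y‖ ^ 2), hsubR (fun y => ‖G y‖ ^ 2)] at key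
  rw [norm_smul, Real.norm_of_nonneg (by positivity), smul_eq_mul, smul_eq_mul,
    Real.sqrt_mul (by positivity), Real.sqrt_mul (by positivity)] at key
  have hs : √(L⁻¹) * √(L⁻¹) = L⁻¹ := Real.mul_self_sqrt (by positivity)
  have h5 : C₀ * M ^ k₀ * (√L⁻¹ * √(∫ y in (-R)..R, ‖F y‖ ^ 2)) *
      (√L⁻¹ * √(∫ x in (-R)..R, ‖G x‖ ^ 2))
      = L⁻¹ * (C₀ * M ^ k₀ * √(∫ y in (-R)..R, ‖F y‖ ^ 2) * √(∫ x in (-R)..R, ‖G x‖ ^ 2)) := by
    calc _ = (√L⁻¹ * √L⁻¹) * (C₀ * M ^ k₀ * √(∫ y in (-R)..R, ‖F y‖ ^ 2) * √(∫ x in (-R)..R, ‖G x‖ ^ 2)) := by ring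
      _ = _ := by rw [hs]
  rw [h5] at key
  exact le_of_mul_le_mul_left key (by positivity)


/-- removing `b` -/
lemma step3 (C₀ : ℝ) (k₀ : ℕ) (hC₀ : 0 < C₀) (hyp : Hyp C₀ k₀) (M : ℝ) (hM : 1 ≤ M) (A : ℝ → ℝ)
    (hA : ContDiff ℝ 1 A) (hAM : ∀ x, |deriv A x| ≤ M) (h : ℝ) (hh : 0 < h)
    (F G : ℝ → ℂ) (hF : Continuous F) (hG : Continuous G) (R : ℝ) (hR : 0 < R) :
    ‖∫ x in (-R)..R, ∫ y in (-R)..R, G x * F y * (zz A y - zz A x - Complex.I * (h : ℂ))⁻¹‖
      ≤ C₀ * M ^ k₀ * √(∫ y in (-R)..R, ‖F y‖ ^ 2) * √(∫ x in (-R)..R, ‖G x‖ ^ 2) := by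
  have hb := bb_cont hA
  have hFc : Continuous (fun y => F y / bb A y) := hF.div hb (bb_ne A)
  have hGc : Continuous (fun y => G y / bb A y) := hG.div hb (bb_ne A)
  have key := step2 C₀ k₀ hyp M hM A hA hAM h hh _ _ hFc hGc R hR
  have e1 : ∀ x y : ℝ, G x / bb A x * (F y / bb A y) *
      (bb A x * bb A y / (zz A y - zz A x - Complex.I * (h : ℂ)))
      = G x * F y * (zz A y - zz A x - Complex.I * (h : ℂ))⁻¹ := by
    intro x y
    have h1 := bb_ne A x
    have h2 := bb_ne A y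
    have h3 := den_ne A x y h hh
    field_simp
  simp_rw [e1] at key
  refine key.trans ?_
  have hmono : ∀ F : ℝ → ℂ, Continuous F →
      √(∫ y in (-R)..R, ‖F y / bb A y‖ ^ 2) ≤ √(∫ y in (-R)..R, ‖F y‖ ^ 2) := by
    intro F hF
    apply Real.sqrt_le_sqrt
    have hFc : Continuous (fun y => F y / bb A y) := hF.div hb (bb_ne A)
    apply intervalIntegral.integral_mono_on (by linarith)
      (Continuous.intervalIntegrable (by fun_prop) _ _)
      (Continuous.intervalIntegrable (by fun_prop) _ _)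
    intro y _
    rw [norm_div]
    have h1 := bb_norm A y
    have h2 : ‖F y‖ / ‖bb A y‖ ≤ ‖F y‖ := div_le_self (norm_nonneg _) h1
    exact pow_le_pow_left₀ (by positivity) h2 2
  have h1 := hmono F hF
  have h2 := hmono G hG
  have h0 : 0 ≤ C₀ * M ^ k₀ := by positivity
  calc _ ≤ C₀ * M ^ k₀ * √(∫ y in (-R)..R, ‖F y‖ ^ 2) * √(∫ x in (-R)..R, ‖G x / bb A x‖ ^ 2) := by
        gcongr
    _ ≤ _ := by gcongr

/-- duality on an interval -/
lemma step4 (C₀ : ℝ) (k₀ : ℕ) (hC₀ : 0 < C₀) (hyp : Hyp C₀ k₀) (M : ℝ) (hM : 1 ≤ M) (A : ℝ → ℝ)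
    (hA : ContDiff ℝ 1 A) (hAM : ∀ x, |deriv A x| ≤ M) (h : ℝ) (hh : 0 < h)
    (F : ℝ → ℂ) (hF : Continuous F) (R : ℝ) (hR : 0 < R) :
    ∫ x in (-R)..R, ‖∫ y in (-R)..R, F y * (zz A y - zz A x - Complex.I * (h : ℂ))⁻¹‖ ^ 2
      ≤ (C₀ * M ^ k₀) ^ 2 * ∫ y in (-R)..R, ‖F y‖ ^ 2 := by
  set u : ℝ → ℂ := fun x => ∫ y in (-R)..R, F y * (zz A y - zz A x - Complex.I * (h : ℂ))⁻¹ with hu
  have hK := K_cont hA.continuous h hh
  have huc : Continuous u :=
    intervalIntegral.continuous_parametric_intervalIntegral_of_continuous'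
      (f := fun x y => F y * (zz A y - zz A x - Complex.I * (h : ℂ))⁻¹)
      (by simp only [Function.uncurry_def]; fun_prop) (-R) R
  have key := step3 C₀ k₀ hC₀ hyp M hM A hA hAM h hh F (fun x => (starRingEnd ℂ) (u x)) hF
    (Complex.continuous_conj.comp huc) R hR
  have e1 : ∀ x : ℝ, ∫ y in (-R)..R, (starRingEnd ℂ) (u x) * F y *
      (zz A y - zz A x - Complex.I * (h : ℂ))⁻¹ = ((‖u x‖ ^ 2 : ℝ) : ℂ) := by
    intro x
    simp_rw [mul_assoc]
    rw [intervalIntegral.integral_const_mul]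
    have : (∫ y in (-R)..R, F y * (zz A y - zz A x - Complex.I * (h : ℂ))⁻¹) = u x := rfl
    rw [this, mul_comm, Complex.mul_conj, Complex.normSq_eq_norm_sq]
  simp_rw [e1] at key
  rw [intervalIntegral.integral_ofReal, Complex.norm_real] at key
  have hX0 : 0 ≤ ∫ x in (-R)..R, ‖u x‖ ^ 2 :=
    intervalIntegral.integral_nonneg (by linarith) (fun x _ => by positivity)
  have hF0 : 0 ≤ ∫ x in (-R)..R, ‖F x‖ ^ 2 :=
    intervalIntegral.integral_nonneg (by linarith) (fun x _ => by positivity)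
  rw [Real.norm_of_nonneg hX0] at key
  simp only [RCLike.norm_conj] at key
  set X := ∫ x in (-R)..R, ‖u x‖ ^ 2 with hX
  set Y := ∫ x in (-R)..R, ‖F x‖ ^ 2 with hY
  have h0 : 0 ≤ C₀ * M ^ k₀ := by positivity
  have hs : √X * √X = X := Real.mul_self_sqrt hX0
  have ht : √Y * √Y = Y := Real.mul_self_sqrt hF0
  by_cases hX' : √X = 0
  · rw [hX', mul_zero] at hs
    rw [← hs]
    positivity
  · have hXp : 0 < √X := lt_of_le_of_ne (Real.sqrt_nonneg _) (Ne.symm hX')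
    have h1 : √X ≤ C₀ * M ^ k₀ * √Y := by
      have : √X * √X ≤ (C₀ * M ^ k₀ * √Y) * √X := by rw [hs]; exact key
      exact le_of_mul_le_mul_right this hXp
    calc X = √X * √X := hs.symm
      _ ≤ (C₀ * M ^ k₀ * √Y) * (C₀ * M ^ k₀ * √Y) :=
        mul_le_mul h1 h1 (Real.sqrt_nonneg _) (by positivity)
      _ = (C₀ * M ^ k₀) ^ 2 * (√Y * √Y) := by ring
      _ = _ := by rw [ht]


/-- the lintegral form for continuous functions with bounded support -/
lemma step5 (C₀ : ℝ) (k₀ : ℕ) (hC₀ : 0 < C₀) (hyp : Hyp C₀ k₀) (M : ℝ) (hM : 1 ≤ M) (A : ℝ → ℝ)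
    (hA : ContDiff ℝ 1 A) (hAM : ∀ x, |deriv A x| ≤ M) (h : ℝ) (hh : 0 < h)
    (F : ℝ → ℂ) (hF : Continuous F) (R : ℝ) (hFR : ∀ x, R < |x| → F x = 0) :
    ∫⁻ x, ‖∫ y, F y * (zz A y - zz A x - Complex.I * (h : ℂ))⁻¹‖ₑ ^ 2
      ≤ ENNReal.ofReal ((C₀ * M ^ k₀) ^ 2) * ∫⁻ x, ‖F x‖ₑ ^ 2 := by
  have hK := K_cont hA.continuous h hh
  set u : ℝ → ℂ := fun x => ∫ y, F y * (zz A y - zz A x - Complex.I * (h : ℂ))⁻¹ with hu
  have hui : ∀ r : ℝ, R < r → 0 < r → ∀ x,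
      u x = ∫ y in (-r)..r, F y * (zz A y - zz A x - Complex.I * (h : ℂ))⁻¹ := by
    intro r hr hr0 x
    rw [intervalIntegral.integral_eq_integral_of_support_subset]
    intro y hy
    rw [Function.mem_support] at hy
    have h1 : |y| ≤ R := by
      by_contra hc
      push Not at hc
      exact hy (by rw [hFR y hc, zero_mul])
    rw [abs_le] at h1
    exact ⟨by linarith, by linarith⟩
  have hcov : AECover (volume : Measure ℝ) atTop (fun n : ℕ => Ioc (-(n : ℝ)) n) :=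
    aecover_Ioc (tendsto_neg_atTop_atBot.comp tendsto_natCast_atTop_atTop)
      tendsto_natCast_atTop_atTop
  obtain ⟨n₀, hn₀⟩ := exists_nat_gt (max R 0)
  have huc : Continuous u := by
    have h1 : ∀ x, u x = ∫ y in (-(n₀ : ℝ))..n₀, F y * (zz A y - zz A x - Complex.I * (h : ℂ))⁻¹ :=
      hui n₀ (lt_of_le_of_lt (le_max_left _ _) hn₀) (lt_of_le_of_lt (le_max_right _ _) hn₀)
    have h2 : u = fun x => ∫ y in (-(n₀ : ℝ))..n₀, F y * (zz A y - zz A x - Complex.I * (h : ℂ))⁻¹ :=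
      funext h1
    rw [h2]
    exact intervalIntegral.continuous_parametric_intervalIntegral_of_continuous'
      (f := fun x y => F y * (zz A y - zz A x - Complex.I * (h : ℂ))⁻¹)
      (by simp only [Function.uncurry_def]; fun_prop) _ _
  have hlim := hcov.lintegral_tendsto_of_countably_generated
    (f := fun x => ‖u x‖ₑ ^ 2) (by fun_prop)
  refine le_of_tendsto hlim ?_
  filter_upwards [eventually_ge_atTop n₀] with n hn
  have hn1 : R < (n : ℝ) := lt_of_lt_of_le (lt_of_le_of_lt (le_max_left _ _) hn₀) (by exact_mod_cast hn)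
  have hn2 : 0 < (n : ℝ) := lt_of_lt_of_le (lt_of_le_of_lt (le_max_right _ _) hn₀) (by exact_mod_cast hn)
  have conv : ∀ v : ℝ → ℂ, Continuous v →
      ∫⁻ x in Ioc (-(n : ℝ)) n, ‖v x‖ₑ ^ 2 = ENNReal.ofReal (∫ x in (-(n : ℝ))..n, ‖v x‖ ^ 2) := by
    intro v hv
    rw [intervalIntegral.integral_of_le (by linarith), ofReal_integral_eq_lintegral_ofReal]
    · apply lintegral_congr
      intro x
      rw [ENNReal.ofReal_pow (norm_nonneg _), ofReal_norm]
    · have hvc : Continuous (fun x => ‖v x‖ ^ 2) := by fun_prop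
      exact (hvc.integrableOn_Icc).mono_set Ioc_subset_Icc_self
    · exact Filter.Eventually.of_forall (fun x => by positivity)
  rw [conv u huc]
  have h4 := step4 C₀ k₀ hC₀ hyp M hM A hA hAM h hh F hF n hn2
  simp_rw [← hui n hn1 hn2] at h4
  calc ENNReal.ofReal (∫ x in (-(n : ℝ))..n, ‖u x‖ ^ 2)
      ≤ ENNReal.ofReal ((C₀ * M ^ k₀) ^ 2 * ∫ y in (-(n : ℝ))..n, ‖F y‖ ^ 2) :=
        ENNReal.ofReal_le_ofReal h4
    _ = ENNReal.ofReal ((C₀ * M ^ k₀) ^ 2) * ∫⁻ x in Ioc (-(n : ℝ)) n, ‖F x‖ₑ ^ 2 := by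
        rw [conv F hF, ENNReal.ofReal_mul (by positivity)]
    _ ≤ _ := by
        gcongr
        exact Measure.restrict_le_self

lemma eL2 (g : ℝ → ℂ) : eLpNorm g 2 volume ^ 2 = ∫⁻ x, ‖g x‖ₑ ^ 2 := by
  have h := eLpNorm_nnreal_pow_eq_lintegral (f := g) (p := 2) (μ := (volume : Measure ℝ)) (by norm_num)
  simpa using h

/-- approximation -/
lemma step6 (C₀ : ℝ) (k₀ : ℕ) (hC₀ : 0 < C₀) (hyp : Hyp C₀ k₀) (M : ℝ) (hM : 1 ≤ M) (A : ℝ → ℝ)
    (hA : ContDiff ℝ 1 A) (hAM : ∀ x, |deriv A x| ≤ M) (h : ℝ) (hh : 0 < h)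
    (f : ℝ → ℂ) (hf : Measurable f) (B : ℝ) (hB : ∀ x, ‖f x‖ ≤ B) (R : ℝ)
    (hfR : ∀ x, R < |x| → f x = 0) :
    ∫⁻ x, ‖∫ y, f y * (zz A y - zz A x - Complex.I * (h : ℂ))⁻¹‖ₑ ^ 2
      ≤ ENNReal.ofReal ((C₀ * M ^ k₀) ^ 2) * ∫⁻ x, ‖f x‖ₑ ^ 2 := by
  have hK := K_cont hA.continuous h hh
  -- cutoff
  set χ : ℝ → ℝ := fun x => max 0 (min 1 (|R| + 1 - |x|)) with hχ
  have hχc : Continuous χ := by fun_prop
  have hχ0 : ∀ x, 0 ≤ χ x := fun x => le_max_left _ _
  have hχ1 : ∀ x, χ x ≤ 1 := fun x => max_le zero_le_one (min_le_left _ _)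
  have hχR : ∀ x, |x| ≤ R → χ x = 1 := by
    intro x hx
    have h1 : 1 ≤ |R| + 1 - |x| := by linarith [le_abs_self R]
    simp [hχ, min_eq_left h1]
  have hχo : ∀ x, |R| + 1 < |x| → χ x = 0 := by
    intro x hx
    have h1 : min 1 (|R| + 1 - |x|) ≤ 0 := (min_le_right _ _).trans (by linarith)
    simp only [hχ]
    exact max_eq_left h1
  have hmem : MemLp f 2 volume := by
    have hIcc : ∀ x ∉ Icc (-|R|) |R|, f x = 0 := by
      intro x hx
      apply hfR
      by_contra hc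
      push Not at hc
      apply hx
      have := (abs_le.1 (hc.trans (le_abs_self R)))
      exact ⟨this.1, this.2⟩
    have h1 : MemLp f 2 (volume.restrict (Icc (-|R|) |R|)) :=
      MemLp.of_bound hf.aestronglyMeasurable B (Filter.Eventually.of_forall hB)
    have h2 : f = (Icc (-|R|) |R|).indicator f := by
      ext x
      by_cases hx : x ∈ Icc (-|R|) |R|
      · rw [indicator_of_mem hx]
      · rw [indicator_of_notMem hx, hIcc x hx]
    rw [h2]
    exact (memLp_indicator_iff_restrict measurableSet_Icc).2 h1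
  have happ : ∀ n : ℕ, ∃ g : ℝ → ℂ, Continuous g ∧
      eLpNorm (f - g) 2 volume ≤ ((n : ℝ≥0∞) + 1)⁻¹ := by
    intro n
    obtain ⟨g, _, hg, hgc, _⟩ := hmem.exists_hasCompactSupport_eLpNorm_sub_le (by norm_num)
      (ε := ((n : ℝ≥0∞) + 1)⁻¹) (by simp)
    exact ⟨g, hgc, hg⟩
  choose g hgc hg using happ
  set G : ℕ → ℝ → ℂ := fun n x => (χ x : ℂ) * g n x with hG
  have hGc : ∀ n, Continuous (G n) := fun n => by
    have := hgc n
    fun_prop
  have hG0 : ∀ n x, |R| + 1 < |x| → G n x = 0 := by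
    intro n x hx
    simp [hG, hχo x hx]
  have hdiff : ∀ n x, ‖f x - G n x‖ ≤ ‖(f - g n) x‖ := by
    intro n x
    have : f x - G n x = (χ x : ℂ) * (f - g n) x := by
      by_cases hx : |x| ≤ R
      · simp [hG, hχR x hx]
      · push Not at hx
        simp [hG, hfR x hx]
    rw [this, norm_mul, Complex.norm_real, Real.norm_of_nonneg (hχ0 x)]
    exact mul_le_of_le_one_left (norm_nonneg _) (hχ1 x)
  have hGL : ∀ n, eLpNorm (f - G n) 2 volume ≤ ((n : ℝ≥0∞) + 1)⁻¹ := fun n =>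
    (eLpNorm_mono (fun x => hdiff n x)).trans (hg n)
  have hinv : Tendsto (fun n : ℕ => ((n : ℝ≥0∞) + 1)⁻¹) atTop (𝓝 0) := by
    have h1 : Tendsto (fun n : ℕ => ((n + 1 : ℕ) : ℝ≥0∞)⁻¹) atTop (𝓝 0) :=
      ENNReal.tendsto_inv_nat_nhds_zero.comp (tendsto_add_atTop_nat 1)
    simpa using h1
  -- pointwise convergence of the transforms
  set D : ℝ≥0∞ := ENNReal.ofReal ((C₀ * M ^ k₀) ^ 2) with hD
  have hpt : ∀ x, Tendsto (fun n => ∫ y, G n y * (zz A y - zz A x - Complex.I * (h : ℂ))⁻¹) atTop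
      (𝓝 (∫ y, f y * (zz A y - zz A x - Complex.I * (h : ℂ))⁻¹)) := by
    intro x
    set J : Set ℝ := Icc (-(|R| + 1)) (|R| + 1) with hJ
    have hKx : Continuous (fun y => (zz A y - zz A x - Complex.I * (h : ℂ))⁻¹) :=
      hK.comp (by fun_prop : Continuous fun y : ℝ => (x, y))
    obtain ⟨BK, hBK⟩ := (isCompact_Icc : IsCompact J).exists_bound_of_continuousOn hKx.continuousOn
    have hBK0 : 0 ≤ BK := by
      refine (norm_nonneg _).trans (hBK 0 ?_)
      simp only [mem_Icc]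
      constructor <;> linarith [abs_nonneg R]
    have hout : ∀ n y, y ∉ J → f y - G n y = 0 := by
      intro n y hy
      have h1 : |R| + 1 < |y| := by
        by_contra hc
        push Not at hc
        apply hy
        exact ⟨(abs_le.1 hc).1, (abs_le.1 hc).2⟩
      rw [hG0 n y h1, hfR y (by linarith [le_abs_self R])]
      simp
    have hintf : Integrable (fun y => f y * (zz A y - zz A x - Complex.I * (h : ℂ))⁻¹) := by
      have h1 : IntegrableOn (fun y => f y * (zz A y - zz A x - Complex.I * (h : ℂ))⁻¹) J := by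
        refine Integrable.of_bound ((hf.mul hKx.measurable).aestronglyMeasurable) (B * BK) ?_
        filter_upwards [ae_restrict_mem measurableSet_Icc] with y hy
        rw [norm_mul]
        have hB0 : 0 ≤ B := (norm_nonneg _).trans (hB 0)
        exact mul_le_mul (hB y) (hBK y hy) (norm_nonneg _) hB0
      rw [← integrableOn_univ]
      refine h1.of_forall_sdiff_eq_zero MeasurableSet.univ ?_
      intro y hy
      have h1 : |R| + 1 < |y| := by
        by_contra hc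
        push Not at hc
        apply hy.2
        exact ⟨(abs_le.1 hc).1, (abs_le.1 hc).2⟩
      rw [hfR y (by linarith [le_abs_self R]), zero_mul]
    have hintG : ∀ n, Integrable (fun y => G n y * (zz A y - zz A x - Complex.I * (h : ℂ))⁻¹) := by
      intro n
      apply Continuous.integrable_of_hasCompactSupport ((hGc n).mul hKx)
      apply HasCompactSupport.mul_right
      apply HasCompactSupport.of_support_subset_isCompact (isCompact_Icc : IsCompact J)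
      intro y hy
      by_contra hc
      apply hy
      apply hG0 n y
      by_contra hc'
      push Not at hc'
      apply hc
      exact ⟨(abs_le.1 hc').1, (abs_le.1 hc').2⟩
    rw [tendsto_iff_edist_tendsto_0]
    have hbound : ∀ n, edist (∫ y, G n y * (zz A y - zz A x - Complex.I * (h : ℂ))⁻¹)
        (∫ y, f y * (zz A y - zz A x - Complex.I * (h : ℂ))⁻¹)
        ≤ ENNReal.ofReal BK * ((volume J) ^ (1 / 2 : ℝ) * ((n : ℝ≥0∞) + 1)⁻¹) := by
      intro n
      rw [edist_comm, edist_eq_enorm_sub, ← integral_sub hintf (hintG n)]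
      refine (enorm_integral_le_lintegral_enorm _).trans ?_
      calc ∫⁻ y, ‖f y * (zz A y - zz A x - Complex.I * (h : ℂ))⁻¹ -
            G n y * (zz A y - zz A x - Complex.I * (h : ℂ))⁻¹‖ₑ
          ≤ ∫⁻ y, ENNReal.ofReal BK * (J.indicator 1 y * ‖(f - G n) y‖ₑ) := by
            apply lintegral_mono
            intro y
            simp only
            by_cases hy : y ∈ J
            · rw [← sub_mul, enorm_mul, indicator_of_mem hy, Pi.one_apply, one_mul, mul_comm]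
              gcongr
              · rw [← ofReal_norm]
                exact ENNReal.ofReal_le_ofReal (hBK y hy)
              · exact le_of_eq rfl
            · rw [← sub_mul, hout n y hy]
              simp
        _ = ENNReal.ofReal BK * ∫⁻ y, (J.indicator 1 y * ‖(f - G n) y‖ₑ) :=
            lintegral_const_mul' _ _ ENNReal.ofReal_ne_top
        _ ≤ ENNReal.ofReal BK * ((volume J) ^ (1 / 2 : ℝ) * ((n : ℝ≥0∞) + 1)⁻¹) := by
            gcongr
            have hol := ENNReal.lintegral_mul_le_Lp_mul_Lq (μ := (volume : Measure ℝ))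
              (p := 2) (q := 2) (Real.HolderConjugate.two_two)
              (f := J.indicator (1 : ℝ → ℝ≥0∞)) (g := fun y => ‖(f - G n) y‖ₑ)
              ((measurable_one.indicator measurableSet_Icc).aemeasurable)
              ((hf.sub (hGc n).measurable).enorm.aemeasurable)
            refine hol.trans ?_
            gcongr
            · apply le_of_eq
              have : ∀ y, (J.indicator (1 : ℝ → ℝ≥0∞) y) ^ (2 : ℝ) = J.indicator 1 y := by
                intro y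
                by_cases hy : y ∈ J
                · simp [indicator_of_mem hy]
                · simp [indicator_of_notMem hy]
              simp_rw [this]
              rw [lintegral_indicator_one measurableSet_Icc]
            · have e1 := eL2 (f - G n)
              have e2 : (∫⁻ a, ‖(f - G n) a‖ₑ ^ (2 : ℝ)) ^ (1 / 2 : ℝ) = eLpNorm (f - G n) 2 volume := by
                have : ∫⁻ a, ‖(f - G n) a‖ₑ ^ (2 : ℝ) = ∫⁻ a, ‖(f - G n) a‖ₑ ^ 2 := by
                  apply lintegral_congr; intro a; norm_cast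
                rw [this, ← e1, ← ENNReal.rpow_natCast, ← ENNReal.rpow_mul]
                norm_num
              rw [e2]
              exact hGL n
    have hlim0 : Tendsto (fun n : ℕ => ENNReal.ofReal BK *
        ((volume J) ^ (1 / 2 : ℝ) * ((n : ℝ≥0∞) + 1)⁻¹)) atTop (𝓝 0) := by
      have hJf : (volume J) ^ (1 / 2 : ℝ) ≠ ⊤ := by
        apply ENNReal.rpow_ne_top_of_nonneg (by norm_num)
        exact isCompact_Icc.measure_lt_top.ne
      have h1 := ENNReal.Tendsto.const_mul (a := (volume J) ^ (1 / 2 : ℝ)) hinv (Or.inr hJf)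
      have h2 := ENNReal.Tendsto.const_mul (a := ENNReal.ofReal BK) h1 (Or.inr ENNReal.ofReal_ne_top)
      simpa using h2
    exact tendsto_of_tendsto_of_tendsto_of_le_of_le tendsto_const_nhds hlim0
      (fun _ => zero_le) hbound
  -- Fatou
  have hmeas : ∀ n, Measurable (fun x => ‖∫ y, G n y * (zz A y - zz A x - Complex.I * (h : ℂ))⁻¹‖ₑ ^ 2) := by
    intro n
    have hsm : StronglyMeasurable (Function.uncurry fun (x : ℝ) (y : ℝ) =>
        G n y * (zz A y - zz A x - Complex.I * (h : ℂ))⁻¹) := by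
      apply Continuous.stronglyMeasurable
      have := hGc n
      simp only [Function.uncurry_def]
      fun_prop
    exact (hsm.integral_prod_right.measurable.enorm).pow_const 2
  have hfatou := lintegral_liminf_le (μ := (volume : Measure ℝ)) (u := atTop) hmeas
  have hle1 : ∫⁻ x, ‖∫ y, f y * (zz A y - zz A x - Complex.I * (h : ℂ))⁻¹‖ₑ ^ 2
      ≤ liminf (fun n => ∫⁻ x, ‖∫ y, G n y * (zz A y - zz A x - Complex.I * (h : ℂ))⁻¹‖ₑ ^ 2) atTop := by
    refine le_trans (le_of_eq ?_) hfatou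
    apply lintegral_congr
    intro x
    have h1 : Tendsto (fun n => ‖∫ y, G n y * (zz A y - zz A x - Complex.I * (h : ℂ))⁻¹‖ₑ ^ 2) atTop
        (𝓝 (‖∫ y, f y * (zz A y - zz A x - Complex.I * (h : ℂ))⁻¹‖ₑ ^ 2)) :=
      ((ENNReal.continuous_pow 2).tendsto _).comp ((hpt x).enorm)
    exact h1.liminf_eq.symm
  refine hle1.trans ?_
  have hup : Tendsto (fun n : ℕ => D * (eLpNorm f 2 volume + ((n : ℝ≥0∞) + 1)⁻¹) ^ 2) atTop
      (𝓝 (D * (eLpNorm f 2 volume + 0) ^ 2)) := by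
    apply ENNReal.Tendsto.const_mul _ (Or.inr ENNReal.ofReal_ne_top)
    exact ((ENNReal.continuous_pow 2).tendsto _).comp (tendsto_const_nhds.add hinv)
  rw [add_zero, eL2] at hup
  rw [← hup.liminf_eq]
  refine liminf_le_liminf ?_ (by isBoundedDefault) (by isBoundedDefault)
  · filter_upwards with n
    refine (step5 C₀ k₀ hC₀ hyp M hM A hA hAM h hh (G n) (hGc n) (|R| + 1) (hG0 n)).trans ?_
    rw [← eL2]
    gcongr
    have h1 : G n = f - (f - G n) := by simp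
    calc eLpNorm (G n) 2 volume = eLpNorm (f - (f - G n)) 2 volume := by rw [← h1]
      _ ≤ eLpNorm f 2 volume + eLpNorm (f - G n) 2 volume :=
          eLpNorm_sub_le hf.aestronglyMeasurable
            (hf.sub (hGc n).measurable).aestronglyMeasurable (by norm_num)
      _ ≤ _ := by gcongr; exact hGL n

end J365

/-- A3a -/
theorem l2_C1 (C₀ : ℝ) (k₀ : ℕ) (hC₀ : 0 < C₀)
    (hyp : ∀ M : ℝ, 1 ≤ M → ∀ A : ℝ → ℝ,
    ContDiff ℝ 1 A → (∀ x, |deriv A x| ≤ M) → ∀ h : ℝ, 0 < h → ∀ N : ℕ, ∀ f g : ℕ → ℂ,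
    ‖∑ i ∈ Finset.range (2 ^ N), ∑ j ∈ Finset.range (2 ^ N), g i * f j *
      ∫ x in ((i : ℝ) / 2 ^ N)..(((i : ℝ) + 1) / 2 ^ N),
        ∫ y in ((j : ℝ) / 2 ^ N)..(((j : ℝ) + 1) / 2 ^ N),
          (1 + Complex.I * ((deriv A x : ℝ) : ℂ)) * (1 + Complex.I * ((deriv A y : ℝ) : ℂ)) /
            ((⟨y, A y⟩ : ℂ) - ⟨x, A x⟩ - Complex.I * (h : ℂ))‖
      ≤ C₀ * M ^ k₀ * √(∑ j ∈ Finset.range (2 ^ N), ‖f j‖ ^ 2 / 2 ^ N)
          * √(∑ i ∈ Finset.range (2 ^ N), ‖g i‖ ^ 2 / 2 ^ N)) :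
    ∃ C : ℝ, ∃ k : ℕ, 0 < C ∧ ∀ M : ℝ, 1 ≤ M → ∀ A : ℝ → ℝ,
      ContDiff ℝ 1 A → (∀ x, |deriv A x| ≤ M) → ∀ h : ℝ, 0 < h →
      ∀ f : ℝ → ℂ, Measurable f → (∃ B, ∀ x, ‖f x‖ ≤ B) → (∃ R, ∀ x, R < |x| → f x = 0) →
      ∫⁻ x, ‖∫ y, f y / ((⟨y, A y⟩ : ℂ) - ⟨x, A x⟩ - Complex.I * (h : ℂ))‖ₑ ^ 2
        ≤ ENNReal.ofReal (C * M ^ k) * ∫⁻ x, ‖f x‖ₑ ^ 2 := by
  refine ⟨C₀ ^ 2, 2 * k₀, by positivity, ?_⟩
  intro M hM A hA hAM h hh f hf hfB hfR
  obtain ⟨B, hB⟩ := hfB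
  obtain ⟨R, hR⟩ := hfR
  have key := J365.step6 C₀ k₀ hC₀ hyp M hM A hA hAM h hh f hf B hB R hR
  have e : (C₀ * M ^ k₀) ^ 2 = C₀ ^ 2 * M ^ (2 * k₀) := by ring
  rw [e] at key
  simpa only [div_eq_mul_inv, J365.zz] using key

end P365
end Pool.Agent.Helper311.Nev
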