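import Mathlib
import Pool.Agent.Helper311.Nev.Ker

open MeasureTheory Set Filter Topology Metric
open scoped ENNReal NNReal

namespace Pool.Agent.Helper311.Nev
namespace P366


theorem wg_kr_norm {ρ : ℝ} (hρ : 0 < ρ) (w : ℂ) : ‖kr ρ w‖ = ‖w‖ / (‖w‖ ^ 2 + ρ ^ 2) := by
  unfold kr
  rw [norm_div, RCLike.norm_conj, Complex.norm_real, Real.norm_of_nonneg (by positivity)]

theorem wg_kr_norm_le {ρ : ℝ} (hρ : 0 < ρ) (w : ℂ) : ‖kr ρ w‖ ≤ 1 / (2 * ρ) := by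
  rw [wg_kr_norm hρ, div_le_div_iff₀ (by positivity) (by positivity)]
  nlinarith [sq_nonneg (‖w‖ - ρ)]

theorem wg_kr_diff {ρ : ℝ} (hρ : 0 < ρ) (w w' : ℂ) :
    ‖kr ρ w - kr ρ w'‖ ≤
      ‖w - w'‖ * (‖w‖ * ‖w'‖ + ρ ^ 2) / ((‖w‖ ^ 2 + ρ ^ 2) * (‖w'‖ ^ 2 + ρ ^ 2)) := by
  have h1 : ((‖w‖ ^ 2 + ρ ^ 2 : ℝ) : ℂ) ≠ 0 := by
    have : (‖w‖ ^ 2 + ρ ^ 2 : ℝ) ≠ 0 := by positivity
    exact_mod_cast this
  have h2 : ((‖w'‖ ^ 2 + ρ ^ 2 : ℝ) : ℂ) ≠ 0 := by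
    have : (‖w'‖ ^ 2 + ρ ^ 2 : ℝ) ≠ 0 := by positivity
    exact_mod_cast this
  have key : kr ρ w - kr ρ w' =
      ((starRingEnd ℂ) w * (starRingEnd ℂ) w' * (w' - w) + (ρ : ℂ) ^ 2 * (starRingEnd ℂ) (w - w')) /
        (((‖w‖ ^ 2 + ρ ^ 2 : ℝ) : ℂ) * ((‖w'‖ ^ 2 + ρ ^ 2 : ℝ) : ℂ)) := by
    unfold kr
    rw [div_sub_div _ _ h1 h2]
    congr 1
    have e1 : (((‖w‖ ^ 2 + ρ ^ 2 : ℝ) : ℂ)) = w * (starRingEnd ℂ) w + (ρ : ℂ) ^ 2 := by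
      rw [Complex.mul_conj']; push_cast; ring
    have e2 : (((‖w'‖ ^ 2 + ρ ^ 2 : ℝ) : ℂ)) = w' * (starRingEnd ℂ) w' + (ρ : ℂ) ^ 2 := by
      rw [Complex.mul_conj']; push_cast; ring
    rw [e1, e2, map_sub]
    ring
  rw [key, norm_div, norm_mul, Complex.norm_real, Complex.norm_real,
    Real.norm_of_nonneg (by positivity), Real.norm_of_nonneg (by positivity)]
  apply div_le_div_of_nonneg_right _ (by positivity)
  calc ‖(starRingEnd ℂ) w * (starRingEnd ℂ) w' * (w' - w) + (ρ : ℂ) ^ 2 * (starRingEnd ℂ) (w - w')‖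
      ≤ ‖(starRingEnd ℂ) w * (starRingEnd ℂ) w' * (w' - w)‖ +
        ‖(ρ : ℂ) ^ 2 * (starRingEnd ℂ) (w - w')‖ := norm_add_le _ _
    _ = ‖w - w'‖ * (‖w‖ * ‖w'‖ + ρ ^ 2) := by
      rw [norm_mul, norm_mul, norm_mul, RCLike.norm_conj, RCLike.norm_conj, RCLike.norm_conj,
        norm_pow, Complex.norm_real, Real.norm_of_nonneg hρ.le, norm_sub_rev w' w]
      ring

theorem wg_kr_far {ρ ρ0 M : ℝ} (h0 : 0 < ρ0) (h : ρ0 ≤ ρ) (hM : 1 ≤ M) (w w' : ℂ)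
    (hw : 2 * (1 + M) * ρ ≤ ‖w‖) (hww : ‖w - w'‖ ≤ (1 + M) * ρ) :
    ‖kr ρ w - kr ρ0 w'‖ ≤ 8 * M * (ρ / (‖w‖ ^ 2 + ρ ^ 2)) := by
  have hρ : 0 < ρ := lt_of_lt_of_le h0 h
  have hw'1 : ‖w‖ ≤ 2 * ‖w'‖ := by
    have := norm_sub_norm_le w w'
    nlinarith
  have hw'2 : ρ ≤ ‖w'‖ := by nlinarith
  have hwpos : 0 < ‖w'‖ := lt_of_lt_of_le hρ hw'2
  have hwn := norm_nonneg w
  have hD : 0 < ‖w‖ ^ 2 + ρ ^ 2 := by positivity
  have hD' : 0 < ‖w'‖ ^ 2 + ρ ^ 2 := by positivity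
  have hDD : ‖w‖ ^ 2 + ρ ^ 2 ≤ 4 * (‖w'‖ ^ 2 + ρ ^ 2) := by nlinarith
  have a1 : ‖kr ρ w - kr ρ w'‖ ≤ 2 * (1 + M) * (ρ / (‖w‖ ^ 2 + ρ ^ 2)) := by
    refine (wg_kr_diff hρ w w').trans ?_
    have e1 : ‖w - w'‖ * (‖w‖ * ‖w'‖ + ρ ^ 2) / ((‖w‖ ^ 2 + ρ ^ 2) * (‖w'‖ ^ 2 + ρ ^ 2)) =
      (‖w - w'‖ * ((‖w‖ * ‖w'‖ + ρ ^ 2) / (‖w'‖ ^ 2 + ρ ^ 2))) / (‖w‖ ^ 2 + ρ ^ 2) := by
      field_simp
    have e3 : 2 * (1 + M) * (ρ / (‖w‖ ^ 2 + ρ ^ 2)) = (2 * (1 + M) * ρ) / (‖w‖ ^ 2 + ρ ^ 2) := by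
      ring
    rw [e1, e3]
    apply div_le_div_of_nonneg_right _ hD.le
    have e2 : (‖w‖ * ‖w'‖ + ρ ^ 2) / (‖w'‖ ^ 2 + ρ ^ 2) ≤ 2 := by
      rw [div_le_iff₀ hD']
      nlinarith [mul_le_mul_of_nonneg_right hw'1 hwpos.le, sq_nonneg ρ]
    calc ‖w - w'‖ * ((‖w‖ * ‖w'‖ + ρ ^ 2) / (‖w'‖ ^ 2 + ρ ^ 2)) ≤ ((1 + M) * ρ) * 2 := by
          apply mul_le_mul hww e2 (by positivity) (by positivity)
      _ = 2 * (1 + M) * ρ := by ring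
  have a2 : ‖kr ρ w' - kr ρ0 w'‖ ≤ 4 * (ρ / (‖w‖ ^ 2 + ρ ^ 2)) := by
    have e1 : kr ρ w' - kr ρ0 w' = (starRingEnd ℂ) w' *
        ((1 / (‖w'‖ ^ 2 + ρ ^ 2) - 1 / (‖w'‖ ^ 2 + ρ0 ^ 2) : ℝ) : ℂ) := by
      unfold kr
      push_cast
      ring
    rw [e1, norm_mul, RCLike.norm_conj, Complex.norm_real, Real.norm_eq_abs, abs_sub_comm]
    have hD0 : 0 < ‖w'‖ ^ 2 + ρ0 ^ 2 := by positivity
    have e2 : 1 / (‖w'‖ ^ 2 + ρ0 ^ 2) - 1 / (‖w'‖ ^ 2 + ρ ^ 2) =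
        (ρ ^ 2 - ρ0 ^ 2) / ((‖w'‖ ^ 2 + ρ0 ^ 2) * (‖w'‖ ^ 2 + ρ ^ 2)) := by
      field_simp
      ring
    have e3 : 0 ≤ ρ ^ 2 - ρ0 ^ 2 := by nlinarith
    rw [e2, abs_of_nonneg (by positivity), ← mul_div_assoc, ← mul_div_assoc,
      div_le_div_iff₀ (by positivity) (by positivity)]
    -- ‖w'‖ (ρ²-ρ0²) (‖w‖²+ρ²) ≤ 4 ρ ((‖w'‖²+ρ0²)(‖w'‖²+ρ²))
    have f1 : ‖w'‖ * (ρ ^ 2 - ρ0 ^ 2) ≤ ρ * (‖w'‖ ^ 2 + ρ0 ^ 2) := by
      nlinarith [mul_pos hwpos hρ, mul_le_mul_of_nonneg_right hw'2 (mul_pos hwpos hρ).le,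
        sq_nonneg ρ0, mul_nonneg hwpos.le (sq_nonneg ρ0), mul_nonneg hρ.le (sq_nonneg ρ0)]
    calc ‖w'‖ * (ρ ^ 2 - ρ0 ^ 2) * (‖w‖ ^ 2 + ρ ^ 2)
        ≤ (ρ * (‖w'‖ ^ 2 + ρ0 ^ 2)) * (4 * (‖w'‖ ^ 2 + ρ ^ 2)) := by
          apply mul_le_mul f1 hDD hD.le (by positivity)
      _ = 4 * ρ * ((‖w'‖ ^ 2 + ρ0 ^ 2) * (‖w'‖ ^ 2 + ρ ^ 2)) := by ring
  have hq : 0 ≤ ρ / (‖w‖ ^ 2 + ρ ^ 2) := by positivity
  calc ‖kr ρ w - kr ρ0 w'‖ = ‖(kr ρ w - kr ρ w') + (kr ρ w' - kr ρ0 w')‖ := by congr 1; ring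
    _ ≤ ‖kr ρ w - kr ρ w'‖ + ‖kr ρ w' - kr ρ0 w'‖ := norm_add_le _ _
    _ ≤ 2 * (1 + M) * (ρ / (‖w‖ ^ 2 + ρ ^ 2)) + 4 * (ρ / (‖w‖ ^ 2 + ρ ^ 2)) := add_le_add a1 a2
    _ ≤ 8 * M * (ρ / (‖w‖ ^ 2 + ρ ^ 2)) := by nlinarith

theorem wg_near {ρ M : ℝ} (hρ : 0 < ρ) (hM : 1 ≤ M) (w : ℂ) (hw : ‖w‖ < 2 * (1 + M) * ρ) :
    1 ≤ 17 * M ^ 2 * ρ * (ρ / (‖w‖ ^ 2 + ρ ^ 2)) := by
  have hwn := norm_nonneg w
  have hD : 0 < ‖w‖ ^ 2 + ρ ^ 2 := by positivity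
  rw [← mul_div_assoc, one_le_div hD]
  have h1 : ‖w‖ ^ 2 ≤ (2 * (1 + M) * ρ) ^ 2 := by gcongr
  have h2 : (2 * (1 + M) * ρ) ^ 2 ≤ 16 * M ^ 2 * ρ ^ 2 := by
    have : (2 * (1 + M) * ρ) ^ 2 = 4 * (1 + M) ^ 2 * ρ ^ 2 := by ring
    rw [this]
    apply mul_le_mul_of_nonneg_right _ (sq_nonneg ρ)
    nlinarith
  have h3 : ρ ^ 2 ≤ M ^ 2 * ρ ^ 2 := by
    have : 1 ≤ M ^ 2 := by nlinarith
    nlinarith [sq_nonneg ρ]
  nlinarith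

theorem wg_pointwise {ι : Type} [Fintype ι] (ζ : ι → ℂ) (m : ι → ℝ) (hm : ∀ i, 0 ≤ m i)
    {M ρ ρ0 : ℝ} (hM : 1 ≤ M) (h0 : 0 < ρ0) (h : ρ0 ≤ ρ) (p p' : ℂ)
    (hp : ‖p - p'‖ ≤ (1 + M) * ρ) :
    ‖Tr ζ m ρ p‖ ≤ ‖Tr ζ m ρ0 p'‖ +
      ‖Tr ζ (fun i => if ‖ζ i - p‖ < 2 * (1 + M) * ρ then m i else 0) ρ0 p'‖ +
      9 * M ^ 2 * Nr ζ m ρ p := by
  have hρ : 0 < ρ := lt_of_lt_of_le h0 h
  set m' : ι → ℝ := fun i => if ‖ζ i - p‖ < 2 * (1 + M) * ρ then m i else 0 with hm'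
  have key : ‖Tr ζ m ρ p - Tr ζ m ρ0 p' + Tr ζ m' ρ0 p'‖ ≤ 9 * M ^ 2 * Nr ζ m ρ p := by
    unfold Tr Nr
    rw [← Finset.sum_sub_distrib, ← Finset.sum_add_distrib, Finset.mul_sum]
    refine (norm_sum_le _ _).trans (Finset.sum_le_sum ?_)
    intro i _
    have hmi := hm i
    have hD : 0 < ‖ζ i - p‖ ^ 2 + ρ ^ 2 := by positivity
    have hq : 0 ≤ ρ / (‖ζ i - p‖ ^ 2 + ρ ^ 2) := by positivity
    by_cases hi : ‖ζ i - p‖ < 2 * (1 + M) * ρ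
    · have e : (m i : ℂ) * kr ρ (ζ i - p) - (m i : ℂ) * kr ρ0 (ζ i - p') +
          (m' i : ℂ) * kr ρ0 (ζ i - p') = (m i : ℂ) * kr ρ (ζ i - p) := by
        simp only [hm', if_pos hi]; ring
      rw [e, norm_mul, Complex.norm_real, Real.norm_of_nonneg hmi]
      have h1 := wg_kr_norm_le hρ (ζ i - p)
      have h2 := wg_near hρ hM (ζ i - p) hi
      have h3 : 1 / (2 * ρ) ≤ 9 * M ^ 2 * (ρ / (‖ζ i - p‖ ^ 2 + ρ ^ 2)) := by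
        rw [div_le_iff₀ (by positivity)]
        nlinarith [mul_nonneg (mul_nonneg (sq_nonneg M) hρ.le) hq]
      calc m i * ‖kr ρ (ζ i - p)‖ ≤ m i * (9 * M ^ 2 * (ρ / (‖ζ i - p‖ ^ 2 + ρ ^ 2))) :=
            mul_le_mul_of_nonneg_left (h1.trans h3) hmi
        _ = _ := by ring
    · have e : (m i : ℂ) * kr ρ (ζ i - p) - (m i : ℂ) * kr ρ0 (ζ i - p') +
          (m' i : ℂ) * kr ρ0 (ζ i - p') =
            (m i : ℂ) * (kr ρ (ζ i - p) - kr ρ0 (ζ i - p')) := by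
        simp only [hm', if_neg hi]; push_cast; ring
      rw [e, norm_mul, Complex.norm_real, Real.norm_of_nonneg hmi]
      have h1 := wg_kr_far h0 h hM (ζ i - p) (ζ i - p') (not_lt.mp hi)
        (by rw [sub_sub_sub_cancel_left, norm_sub_rev]; exact hp)
      have h3 : 8 * M * (ρ / (‖ζ i - p‖ ^ 2 + ρ ^ 2)) ≤
          9 * M ^ 2 * (ρ / (‖ζ i - p‖ ^ 2 + ρ ^ 2)) := by
        apply mul_le_mul_of_nonneg_right _ hq
        nlinarith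
      calc m i * ‖kr ρ (ζ i - p) - kr ρ0 (ζ i - p')‖
          ≤ m i * (9 * M ^ 2 * (ρ / (‖ζ i - p‖ ^ 2 + ρ ^ 2))) :=
            mul_le_mul_of_nonneg_left (h1.trans h3) hmi
        _ = _ := by ring
  have e2 : Tr ζ m ρ p = (Tr ζ m ρ p - Tr ζ m ρ0 p' + Tr ζ m' ρ0 p') + Tr ζ m ρ0 p' -
      Tr ζ m' ρ0 p' := by ring
  calc ‖Tr ζ m ρ p‖ = ‖(Tr ζ m ρ p - Tr ζ m ρ0 p' + Tr ζ m' ρ0 p') + Tr ζ m ρ0 p' -
      Tr ζ m' ρ0 p'‖ := by rw [← e2]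
    _ ≤ ‖(Tr ζ m ρ p - Tr ζ m ρ0 p' + Tr ζ m' ρ0 p') + Tr ζ m ρ0 p'‖ + ‖Tr ζ m' ρ0 p'‖ :=
        norm_sub_le _ _
    _ ≤ ‖Tr ζ m ρ p - Tr ζ m ρ0 p' + Tr ζ m' ρ0 p'‖ + ‖Tr ζ m ρ0 p'‖ + ‖Tr ζ m' ρ0 p'‖ := by
        gcongr; exact norm_add_le _ _
    _ ≤ 9 * M ^ 2 * Nr ζ m ρ p + ‖Tr ζ m ρ0 p'‖ + ‖Tr ζ m' ρ0 p'‖ := by gcongr
    _ = _ := by ring

theorem wg_nearmass {ι : Type} [Fintype ι] (ζ : ι → ℂ) (m : ι → ℝ) (hm : ∀ i, 0 ≤ m i)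
    {M ρ : ℝ} (hM : 1 ≤ M) (hρ : 0 < ρ) (p : ℂ) :
    ∑ i, (if ‖ζ i - p‖ < 2 * (1 + M) * ρ then m i else 0) ≤ 17 * M ^ 2 * ρ * Nr ζ m ρ p := by
  unfold Nr
  rw [Finset.mul_sum]
  apply Finset.sum_le_sum
  intro i _
  have hmi := hm i
  have hq : 0 ≤ ρ / (‖ζ i - p‖ ^ 2 + ρ ^ 2) := by positivity
  split_ifs with hi
  · have h2 := wg_near hρ hM (ζ i - p) hi
    calc m i = m i * 1 := by ring
      _ ≤ m i * (17 * M ^ 2 * ρ * (ρ / (‖ζ i - p‖ ^ 2 + ρ ^ 2))) :=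
        mul_le_mul_of_nonneg_left h2 hmi
      _ = _ := by ring
  · positivity

theorem wg_Tr_le {ι : Type} [Fintype ι] (ζ : ι → ℂ) (m : ι → ℝ) (hm : ∀ i, 0 ≤ m i)
    {ρ : ℝ} (hρ : 0 < ρ) (p : ℂ) : ‖Tr ζ m ρ p‖ ≤ (∑ i, m i) / (2 * ρ) := by
  unfold Tr
  refine (norm_sum_le _ _).trans ?_
  rw [Finset.sum_div]
  apply Finset.sum_le_sum
  intro i _
  rw [norm_mul, Complex.norm_real, Real.norm_of_nonneg (hm i)]
  calc m i * ‖kr ρ (ζ i - p)‖ ≤ m i * (1 / (2 * ρ)) :=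
        mul_le_mul_of_nonneg_left (wg_kr_norm_le hρ _) (hm i)
    _ = _ := by ring

theorem wg_Tr_cont {ι : Type} [Fintype ι] (ζ : ι → ℂ) (m : ι → ℝ) {ρ : ℝ} (hρ : 0 < ρ) :
    Continuous (Tr ζ m ρ) := by
  unfold Tr kr
  apply continuous_finsetSum
  intro i _
  apply Continuous.mul continuous_const
  apply Continuous.div
  · exact Complex.continuous_conj.comp (continuous_const.sub continuous_id)
  · apply Complex.continuous_ofReal.comp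
    exact ((continuous_const.sub continuous_id).norm.pow 2).add continuous_const
  · intro p
    have : (‖ζ i - p‖ ^ 2 + ρ ^ 2 : ℝ) ≠ 0 := by positivity
    exact_mod_cast this

theorem wg_graph_norm {M : ℝ} {A : ℝ → ℝ} (hA : ∀ x y, |A x - A y| ≤ M * |x - y|) (x y : ℝ) :
    ‖(⟨x, A x⟩ : ℂ) - ⟨y, A y⟩‖ ≤ (1 + M) * |x - y| := by
  have h1 := Complex.norm_le_abs_re_add_abs_im ((⟨x, A x⟩ : ℂ) - ⟨y, A y⟩)
  simp only [Complex.sub_re, Complex.sub_im] at h1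
  have := hA x y
  nlinarith

theorem wg_graph_cont {M : ℝ} {A : ℝ → ℝ} (hA : ∀ x y, |A x - A y| ≤ M * |x - y|) :
    Continuous (fun x : ℝ => (⟨x, A x⟩ : ℂ)) := by
  have hM : 0 ≤ M := by
    have := hA 1 0
    have h2 := abs_nonneg (A 1 - A 0)
    simp at this
    linarith
  have : LipschitzWith (1 + M).toNNReal (fun x : ℝ => (⟨x, A x⟩ : ℂ)) := by
    apply LipschitzWith.of_dist_le_mul
    intro x y
    rw [dist_eq_norm, Real.dist_eq, Real.coe_toNNReal _ (by linarith)]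
    exact wg_graph_norm hA x y
  exact this.continuous

theorem wg_fixed {ι : Type} [Fintype ι] (ζ : ι → ℂ) (m : ι → ℝ) (hm : ∀ i, 0 ≤ m i)
    (C₀ : ℝ) (k₀ : ℕ) (hC₀ : 0 < C₀) (M : ℝ) (hM : 1 ≤ M) (A : ℝ → ℝ)
    (hA : ∀ x y, |A x - A y| ≤ M * |x - y|)
    (hyp : ∀ ρ : ℝ, 0 < ρ → ∀ (m : ι → ℝ), (∀ i, 0 ≤ m i) → ∀ α : ℝ, 0 < α →
      volume {x : ℝ | α < ‖Tr ζ m ρ (⟨x, A x⟩ : ℂ)‖}
        ≤ ENNReal.ofReal (C₀ * M ^ k₀ * (∑ i, m i) / α))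
    (C₁ : ℝ) (hC₁ : 0 < C₁)
    (hN : ∀ α : ℝ, 0 < α →
      volume {u : ℝ | ∃ ρ : ℝ, 0 < ρ ∧ α < Nr ζ m ρ (⟨u, A u⟩ : ℂ)}
        ≤ ENNReal.ofReal (C₁ * 2 * (∑ i, m i) / α))
    (α : ℝ) (hα : 0 < α) (ρ0 : ℝ) (hρ0 : 0 < ρ0) :
      volume {x : ℝ | ∃ ρ : ℝ, ρ0 ≤ ρ ∧ α < ‖Tr ζ m ρ (⟨x, A x⟩ : ℂ)‖}
        ≤ ENNReal.ofReal ((20 * C₀ + 2 * C₁ * (100 + 136 * C₀)) * M ^ (k₀ + 2) * (∑ i, m i) / α) := by
  have hMpos : 0 < M := by linarith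
  have hm0 : 0 ≤ ∑ i, m i := Finset.sum_nonneg (fun i _ => hm i)
  set K : ℝ := 100 + 136 * C₀ with hK
  have hKpos : 0 < K := by positivity
  set γ : ℝ := 1 / (K * M ^ (k₀ + 2)) with hγ
  have hγpos : 0 < γ := by positivity
  set P : Set ℝ := {u : ℝ | ∃ ρ : ℝ, 0 < ρ ∧ γ * α < Nr ζ m ρ (⟨u, A u⟩ : ℂ)} with hP
  set E : Set ℝ := {x : ℝ | α / 2 < ‖Tr ζ m ρ0 (⟨x, A x⟩ : ℂ)‖} with hE
  set S : Set ℝ := {x : ℝ | ∃ ρ : ℝ, ρ0 ≤ ρ ∧ α < ‖Tr ζ m ρ (⟨x, A x⟩ : ℂ)‖} with hS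
  have hEmeas : MeasurableSet E := by
    apply IsOpen.measurableSet
    apply isOpen_lt continuous_const
    exact ((wg_Tr_cont ζ m hρ0).comp (wg_graph_cont hA)).norm
  have hEvol : volume E ≤ ENNReal.ofReal (2 * C₀ * M ^ k₀ * (∑ i, m i) / α) := by
    refine (hyp ρ0 hρ0 m hm (α / 2) (by positivity)).trans (le_of_eq ?_)
    congr 1
    field_simp
  have hPvol : volume P ≤ ENNReal.ofReal (2 * C₁ * K * M ^ (k₀ + 2) * (∑ i, m i) / α) := by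
    refine (hN (γ * α) (by positivity)).trans (le_of_eq ?_)
    congr 1
    rw [hγ]
    field_simp
  -- local estimate
  have hloc : ∀ x ∈ S \ P, ∃ ρ : ℝ, ρ0 ≤ ρ ∧ ρ ≤ (∑ i, m i) / (2 * α) ∧
      ENNReal.ofReal ρ ≤ volume (E ∩ closedBall x ρ) := by
    rintro x ⟨⟨ρ, hρ, hT⟩, hxP⟩
    have hρpos : 0 < ρ := lt_of_lt_of_le hρ0 hρ
    refine ⟨ρ, hρ, ?_, ?_⟩
    · have h1 := wg_Tr_le ζ m hm hρpos (⟨x, A x⟩ : ℂ)
      have h2 : α < (∑ i, m i) / (2 * ρ) := lt_of_lt_of_le hT h1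
      rw [lt_div_iff₀ (by positivity)] at h2
      rw [le_div_iff₀ (by positivity)]
      linarith
    · have hNx : Nr ζ m ρ (⟨x, A x⟩ : ℂ) ≤ γ * α := by
        by_contra hcon
        exact hxP ⟨ρ, hρpos, not_le.mp hcon⟩
      set m' : ι → ℝ := fun i =>
        if ‖ζ i - (⟨x, A x⟩ : ℂ)‖ < 2 * (1 + M) * ρ then m i else 0 with hm'
      have hm'n : ∀ i, 0 ≤ m' i := by
        intro i
        simp only [hm']
        split_ifs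
        · exact hm i
        · exact le_rfl
      set F : Set ℝ := {x' : ℝ | α / 4 < ‖Tr ζ m' ρ0 (⟨x', A x'⟩ : ℂ)‖} with hF
      have hmass : ∑ i, m' i ≤ 17 * M ^ 2 * ρ * (γ * α) := by
        refine (wg_nearmass ζ m hm hM hρpos _).trans ?_
        apply mul_le_mul_of_nonneg_left hNx (by positivity)
      have hFvol : volume F ≤ ENNReal.ofReal (ρ / 2) := by
        refine (hyp ρ0 hρ0 m' hm'n (α / 4) (by positivity)).trans ?_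
        apply ENNReal.ofReal_le_ofReal
        rw [div_le_iff₀ (by positivity)]
        have h1 : C₀ * M ^ k₀ * (∑ i, m' i) ≤ C₀ * M ^ k₀ * (17 * M ^ 2 * ρ * (γ * α)) := by
          apply mul_le_mul_of_nonneg_left hmass (by positivity)
        refine h1.trans ?_
        have h2 : C₀ * M ^ k₀ * (17 * M ^ 2 * ρ * (γ * α)) = 17 * C₀ / K * ρ * α := by
          rw [hγ, pow_add]
          field_simp
        rw [h2]
        have h3 : 17 * C₀ / K ≤ 1 / 8 := by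
          rw [div_le_div_iff₀ hKpos (by norm_num)]
          rw [hK]; linarith
        have h4 : 0 < ρ * α := by positivity
        nlinarith
      have hsub : closedBall x ρ \ F ⊆ E ∩ closedBall x ρ := by
        rintro x' ⟨hx', hx'F⟩
        refine ⟨?_, hx'⟩
        have hd : |x' - x| ≤ ρ := by
          rw [← Real.dist_eq]; exact hx'
        have h1 := wg_pointwise ζ m hm hM hρ0 hρ (⟨x, A x⟩ : ℂ) (⟨x', A x'⟩ : ℂ) (by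
          refine (wg_graph_norm hA x x').trans ?_
          rw [abs_sub_comm]
          exact mul_le_mul_of_nonneg_left hd (by linarith))
        have h2 : ‖Tr ζ m' ρ0 (⟨x', A x'⟩ : ℂ)‖ ≤ α / 4 := not_lt.mp hx'F
        have h3 : 9 * M ^ 2 * Nr ζ m ρ (⟨x, A x⟩ : ℂ) ≤ α / 4 := by
          have h4 : 9 * M ^ 2 * Nr ζ m ρ (⟨x, A x⟩ : ℂ) ≤ 9 * M ^ 2 * (γ * α) :=
            mul_le_mul_of_nonneg_left hNx (by positivity)
          refine h4.trans ?_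
          have h5 : 9 * M ^ 2 * (γ * α) = 9 / (K * M ^ k₀) * α := by
            rw [hγ, pow_add]
            field_simp
          rw [h5]
          have h6 : 9 / (K * M ^ k₀) ≤ 1 / 4 := by
            rw [div_le_div_iff₀ (by positivity) (by norm_num)]
            have : 1 ≤ M ^ k₀ := one_le_pow₀ hM
            nlinarith
          nlinarith
        show α / 2 < ‖Tr ζ m ρ0 (⟨x', A x'⟩ : ℂ)‖
        linarith
      have hvol1 : volume (closedBall x ρ) ≤ volume (E ∩ closedBall x ρ) + volume F := by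
        calc volume (closedBall x ρ) ≤ volume ((closedBall x ρ \ F) ∪ F) := by
              apply measure_mono
              intro y hy
              by_cases hyF : y ∈ F
              · exact Or.inr hyF
              · exact Or.inl ⟨hy, hyF⟩
          _ ≤ volume (closedBall x ρ \ F) + volume F := measure_union_le _ _
          _ ≤ _ := by gcongr
      rw [Real.volume_closedBall] at hvol1
      by_contra hcon
      push Not at hcon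
      have h7 : ENNReal.ofReal (2 * ρ) < ENNReal.ofReal ρ + ENNReal.ofReal (ρ / 2) := by
        refine lt_of_le_of_lt hvol1 ?_
        exact ENNReal.add_lt_add_of_lt_of_le (ne_top_of_le_ne_top ENNReal.ofReal_ne_top hFvol) hcon hFvol
      rw [← ENNReal.ofReal_add hρpos.le (by positivity), ENNReal.ofReal_lt_ofReal_iff (by positivity)] at h7
      linarith
  choose! r hr0 hr1 hr2 using hloc
  obtain ⟨u, huS, hudisj, hucov⟩ := Vitali.exists_disjoint_subfamily_covering_enlargement_closedBall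
    (S \ P) (fun x => x) r ((∑ i, m i) / (2 * α)) hr1 5 (by norm_num)
  have hucount : u.Countable := by
    apply hudisj.countable_of_nonempty_interior
    intro b hb
    have : 0 < r b := lt_of_lt_of_le hρ0 (hr0 b (huS hb))
    rw [interior_closedBall b this.ne']
    exact ⟨b, mem_ball_self this⟩
  have hcov : S ⊆ P ∪ ⋃ b ∈ u, closedBall b (5 * r b) := by
    intro x hx
    by_cases hxP : x ∈ P
    · exact Or.inl hxP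
    · right
      obtain ⟨b, hb, hsub⟩ := hucov x ⟨hx, hxP⟩
      rw [mem_iUnion₂]
      refine ⟨b, hb, hsub ?_⟩
      apply mem_closedBall_self
      exact le_trans hρ0.le (hr0 x ⟨hx, hxP⟩)
  have hsum : volume (⋃ b ∈ u, closedBall b (5 * r b)) ≤ 10 * volume E := by
    calc volume (⋃ b ∈ u, closedBall b (5 * r b)) ≤ ∑' b : u, volume (closedBall (b : ℝ) (5 * r b)) :=
          measure_biUnion_le _ hucount _
      _ ≤ ∑' b : u, 10 * volume (E ∩ closedBall (b : ℝ) (r b)) := by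
          apply ENNReal.tsum_le_tsum
          intro b
          rw [Real.volume_closedBall]
          have e : 2 * (5 * r (b : ℝ)) = 10 * r (b : ℝ) := by ring
          rw [e, ENNReal.ofReal_mul (by norm_num)]
          have h10 : ENNReal.ofReal 10 = 10 := by norm_num
          rw [h10]
          gcongr
          exact hr2 b (huS b.2)
      _ = 10 * ∑' b : u, volume (E ∩ closedBall (b : ℝ) (r b)) := ENNReal.tsum_mul_left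
      _ = 10 * volume (⋃ b ∈ u, E ∩ closedBall (b : ℝ) (r b)) := by
          rw [measure_biUnion hucount]
          · intro a ha b hb hab
            exact (hudisj ha hb hab).mono inter_subset_right inter_subset_right
          · intro b _
            exact hEmeas.inter measurableSet_closedBall
      _ ≤ 10 * volume E := by
          gcongr
          exact iUnion₂_subset (fun _ _ => inter_subset_left)
  have hMk : M ^ k₀ ≤ M ^ (k₀ + 2) := pow_le_pow_right₀ hM (by omega)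
  calc volume S ≤ volume (P ∪ ⋃ b ∈ u, closedBall b (5 * r b)) := measure_mono hcov
    _ ≤ volume P + volume (⋃ b ∈ u, closedBall b (5 * r b)) := measure_union_le _ _
    _ ≤ ENNReal.ofReal (2 * C₁ * K * M ^ (k₀ + 2) * (∑ i, m i) / α) +
        10 * ENNReal.ofReal (2 * C₀ * M ^ k₀ * (∑ i, m i) / α) := by
          gcongr
          exact hsum.trans (by gcongr)
    _ = ENNReal.ofReal (2 * C₁ * K * M ^ (k₀ + 2) * (∑ i, m i) / α +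
        10 * (2 * C₀ * M ^ k₀ * (∑ i, m i) / α)) := by
          rw [ENNReal.ofReal_add (by positivity) (by positivity), ENNReal.ofReal_mul (p := 10) (by norm_num)]
          norm_num
    _ ≤ _ := by
          apply ENNReal.ofReal_le_ofReal
          have h8 : 10 * (2 * C₀ * M ^ k₀ * (∑ i, m i) / α) ≤
              10 * (2 * C₀ * M ^ (k₀ + 2) * (∑ i, m i) / α) := by gcongr
          calc 2 * C₁ * K * M ^ (k₀ + 2) * (∑ i, m i) / α +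
                10 * (2 * C₀ * M ^ k₀ * (∑ i, m i) / α) ≤
              2 * C₁ * K * M ^ (k₀ + 2) * (∑ i, m i) / α +
                10 * (2 * C₀ * M ^ (k₀ + 2) * (∑ i, m i) / α) := by linarith
            _ = _ := by ring

/-- B2: maximal version -/
theorem weak_graph (C₀ : ℝ) (k₀ : ℕ) (hC₀ : 0 < C₀)
    (hyp : ∀ M : ℝ, 1 ≤ M → ∀ A : ℝ → ℝ,
      (∀ x y, |A x - A y| ≤ M * |x - y|) → ∀ ρ : ℝ, 0 < ρ →
      ∀ (ι : Type) [Fintype ι] (ζ : ι → ℂ) (m : ι → ℝ), (∀ i, 0 ≤ m i) → ∀ α : ℝ, 0 < α →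
      volume {x : ℝ | α < ‖Tr ζ m ρ (⟨x, A x⟩ : ℂ)‖}
        ≤ ENNReal.ofReal (C₀ * M ^ k₀ * (∑ i, m i) / α))
    (C₁ : ℝ) (hC₁ : 0 < C₁)
    (hN : ∀ (S : Set ℝ) (h : ℝ → ℂ) (A : ℝ), 0 < A →
    (∀ (p : ℂ) (R : ℝ), 0 < R → volume {u ∈ S | ‖h u - p‖ < R} ≤ ENNReal.ofReal (A * R)) →
    ∀ (ι : Type) [Fintype ι] (ζ : ι → ℂ) (m : ι → ℝ), (∀ i, 0 ≤ m i) → ∀ α : ℝ, 0 < α →
      volume {u ∈ S | ∃ ρ : ℝ, 0 < ρ ∧ α < Nr ζ m ρ (h u)}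
        ≤ ENNReal.ofReal (C₁ * A * (∑ i, m i) / α)) :
    ∃ C : ℝ, ∃ k : ℕ, 0 < C ∧ ∀ M : ℝ, 1 ≤ M → ∀ A : ℝ → ℝ,
      (∀ x y, |A x - A y| ≤ M * |x - y|) →
      ∀ (ι : Type) [Fintype ι] (ζ : ι → ℂ) (m : ι → ℝ), (∀ i, 0 ≤ m i) → ∀ α : ℝ, 0 < α →
      volume {x : ℝ | ∃ ρ : ℝ, 0 < ρ ∧ α < ‖Tr ζ m ρ (⟨x, A x⟩ : ℂ)‖}
        ≤ ENNReal.ofReal (C * M ^ k * (∑ i, m i) / α) := by
  refine ⟨20 * C₀ + 2 * C₁ * (100 + 136 * C₀), k₀ + 2, by positivity, ?_⟩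
  intro M hM A hA ι _ ζ m hm α hα
  have hN' : ∀ α : ℝ, 0 < α →
      volume {u : ℝ | ∃ ρ : ℝ, 0 < ρ ∧ α < Nr ζ m ρ (⟨u, A u⟩ : ℂ)}
        ≤ ENNReal.ofReal (C₁ * 2 * (∑ i, m i) / α) := by
    intro α hα
    have h1 := hN univ (fun u => (⟨u, A u⟩ : ℂ)) 2 (by norm_num) (by
      intro p R hR
      have hsub : {u ∈ (univ : Set ℝ) | ‖(⟨u, A u⟩ : ℂ) - p‖ < R} ⊆ ball p.re R := by
        rintro u ⟨_, hu⟩
        rw [mem_ball, Real.dist_eq]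
        have := Complex.abs_re_le_norm ((⟨u, A u⟩ : ℂ) - p)
        simp only [Complex.sub_re] at this
        linarith
      refine (measure_mono hsub).trans ?_
      rw [Real.volume_ball]) ι ζ m hm α hα
    refine le_trans (measure_mono ?_) h1
    intro u hu
    exact ⟨mem_univ u, hu⟩
  have hfix := wg_fixed ζ m hm C₀ k₀ hC₀ M hM A hA
    (fun ρ hρ m hm α hα => hyp M hM A hA ρ hρ ι ζ m hm α hα) C₁ hC₁ hN' α hα
  have hU : {x : ℝ | ∃ ρ : ℝ, 0 < ρ ∧ α < ‖Tr ζ m ρ (⟨x, A x⟩ : ℂ)‖} ⊆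
      ⋃ n : ℕ, {x : ℝ | ∃ ρ : ℝ, 1 / ((n : ℝ) + 1) ≤ ρ ∧ α < ‖Tr ζ m ρ (⟨x, A x⟩ : ℂ)‖} := by
    rintro x ⟨ρ, hρ, hT⟩
    obtain ⟨n, hn⟩ := exists_nat_one_div_lt hρ
    rw [mem_iUnion]
    exact ⟨n, ρ, hn.le, hT⟩
  refine (measure_mono hU).trans ?_
  rw [Monotone.measure_iUnion]
  · apply iSup_le
    intro n
    exact hfix _ (by positivity)
  · intro a b hab x hx
    obtain ⟨ρ, hρ, hT⟩ := hx
    refine ⟨ρ, le_trans ?_ hρ, hT⟩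
    apply one_div_le_one_div_of_le (by positivity)
    have : (a : ℝ) ≤ b := by exact_mod_cast hab
    linarith

end P366
end Pool.Agent.Helper311.Nev
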