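import Mathlib
import Pool.Agent.Helper311.Nev.Ker

open MeasureTheory Set Filter Topology Metric
open scoped ENNReal NNReal

namespace Pool.Agent.Helper311.Nev
namespace P367


theorem pk_pos {ρ : ℝ} (hρ : 0 < ρ) (w : ℂ) : 0 < ‖w‖ ^ 2 + ρ ^ 2 := by positivity

theorem kr_cont {ρ : ℝ} (hρ : 0 < ρ) : Continuous (kr ρ) := by
  unfold kr
  apply Continuous.div
  · exact Complex.continuous_conj
  · exact Complex.continuous_ofReal.comp (by fun_prop)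
  · intro w
    exact_mod_cast (pk_pos hρ w).ne'

theorem kr_norm_le {ρ : ℝ} (hρ : 0 < ρ) (w : ℂ) : ‖kr ρ w‖ ≤ 1 / (2 * ρ) := by
  unfold kr
  rw [norm_div, RCLike.norm_conj, Complex.norm_real, Real.norm_of_nonneg (pk_pos hρ w).le,
    div_le_div_iff₀ (pk_pos hρ w) (by positivity)]
  nlinarith [sq_nonneg (‖w‖ - ρ)]

/-- scalar Poisson kernel integral -/
theorem lint_poisson {h : ℝ} (hh : 0 < h) :
    ∫⁻ t : ℝ, ENNReal.ofReal (h / (t ^ 2 + h ^ 2)) = ENNReal.ofReal Real.pi := by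
  have e : ∀ t : ℝ, h / (t ^ 2 + h ^ 2) = (1 / h) * (1 + (t / h) ^ 2)⁻¹ := by
    intro t
    have h1 : (1 + (t / h) ^ 2) = (t ^ 2 + h ^ 2) / h ^ 2 := by
      field_simp
      ring
    rw [h1]
    have : 0 < t ^ 2 + h ^ 2 := by positivity
    field_simp
  have i1 : Integrable (fun t : ℝ => (1 + (t / h) ^ 2)⁻¹) :=
    (integrable_comp_div_iff (fun x : ℝ => (1 + x ^ 2)⁻¹) hh.ne').2 integrable_inv_one_add_sq
  have i2 : Integrable (fun t : ℝ => h / (t ^ 2 + h ^ 2)) := by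
    simp_rw [e]
    exact i1.const_mul _
  rw [← ofReal_integral_eq_lintegral_ofReal i2 (Eventually.of_forall fun t => by
    show (0:ℝ) ≤ _
    positivity)]
  congr 1
  simp_rw [e]
  rw [integral_const_mul, Measure.integral_comp_div (fun x : ℝ => (1 + x ^ 2)⁻¹),
    integral_univ_inv_one_add_sq, abs_of_pos hh, smul_eq_mul]
  field_simp


theorem cs_sq (g k : ℝ → ℝ≥0∞) (hg : Measurable g) (hk : Measurable k) :
    (∫⁻ y, g y * k y) ^ 2 ≤ (∫⁻ y, k y) * ∫⁻ y, g y ^ 2 * k y := by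
  have h := ENNReal.lintegral_mul_le_Lp_mul_Lq (volume : Measure ℝ)
    (Real.HolderConjugate.two_two) (f := fun y => g y * (k y) ^ (1 / 2 : ℝ))
    (g := fun y => (k y) ^ (1 / 2 : ℝ)) ((hg.mul (hk.pow_const _)).aemeasurable)
    ((hk.pow_const _).aemeasurable)
  have e1 : ∀ y, ((fun y => g y * (k y) ^ (1 / 2 : ℝ)) * (fun y => (k y) ^ (1 / 2 : ℝ))) y
      = g y * k y := by
    intro y
    simp only [Pi.mul_apply]
    rw [mul_assoc, ← ENNReal.rpow_add_of_nonneg _ _ (by norm_num) (by norm_num)]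
    norm_num
  have e2 : ∀ y, (g y * (k y) ^ (1 / 2 : ℝ)) ^ (2 : ℝ) = g y ^ 2 * k y := by
    intro y
    rw [ENNReal.mul_rpow_of_nonneg _ _ (by norm_num), ← ENNReal.rpow_mul]
    norm_num
  have e3 : ∀ y, ((k y) ^ (1 / 2 : ℝ)) ^ (2 : ℝ) = k y := by
    intro y
    rw [← ENNReal.rpow_mul]
    norm_num
  simp_rw [e1, e2, e3] at h
  calc (∫⁻ y, g y * k y) ^ 2
      ≤ ((∫⁻ y, g y ^ 2 * k y) ^ (1 / 2 : ℝ) * (∫⁻ y, k y) ^ (1 / 2 : ℝ)) ^ 2 := by
        gcongr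
    _ = (∫⁻ y, k y) * ∫⁻ y, g y ^ 2 * k y := by
        rw [mul_pow, ← ENNReal.rpow_natCast, ← ENNReal.rpow_natCast, ← ENNReal.rpow_mul,
          ← ENNReal.rpow_mul]
        norm_num
        rw [mul_comm]

theorem schur (g : ℝ → ℝ≥0∞) (k : ℝ → ℝ≥0∞) (hg : Measurable g) (hk : Measurable k) :
    ∫⁻ x, (∫⁻ y, g y * k (x - y)) ^ 2 ≤ (∫⁻ t, k t) ^ 2 * ∫⁻ y, g y ^ 2 := by
  have hm : Measurable (fun p : ℝ × ℝ => g p.2 ^ 2 * k (p.1 - p.2)) := by fun_prop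
  calc ∫⁻ x, (∫⁻ y, g y * k (x - y)) ^ 2
      ≤ ∫⁻ x, (∫⁻ y, k (x - y)) * ∫⁻ y, g y ^ 2 * k (x - y) :=
        lintegral_mono fun x => cs_sq g (fun y => k (x - y)) hg (by fun_prop)
    _ = ∫⁻ x, (∫⁻ t, k t) * ∫⁻ y, g y ^ 2 * k (x - y) := by
        congr 1
        ext x
        rw [lintegral_sub_left_eq_self (fun t => k t) x]
    _ = (∫⁻ t, k t) * ∫⁻ x, ∫⁻ y, g y ^ 2 * k (x - y) := by
        rw [lintegral_const_mul]
        exact Measurable.lintegral_prod_right' hm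
    _ = (∫⁻ t, k t) * ∫⁻ y, ∫⁻ x, g y ^ 2 * k (x - y) := by
        rw [lintegral_lintegral_swap]
        exact hm.aemeasurable
    _ = (∫⁻ t, k t) * ∫⁻ y, g y ^ 2 * ∫⁻ t, k t := by
        congr 1
        congr 1
        ext y
        rw [lintegral_const_mul _ (by fun_prop), lintegral_sub_right_eq_self (fun t => k t) y]
    _ = (∫⁻ t, k t) ^ 2 * ∫⁻ y, g y ^ 2 := by
        rw [lintegral_mul_const _ (by fun_prop)]
        ring

/-- pointwise kernel comparison -/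
theorem kernel_cmp {M h t s : ℝ} (hM : 1 ≤ M) (hh : 0 < h) (hs : |s| ≤ M * |t|) :
    ‖1 / ((⟨t, s⟩ : ℂ) - Complex.I * (h : ℂ)) - kr h ⟨t, s⟩‖
      ≤ 4 * (1 + M) * (h / (t ^ 2 + h ^ 2)) ∧
    h ≤ 4 * (1 + M) * ‖(⟨t, s⟩ : ℂ) - Complex.I * (h : ℂ)‖ := by
  set w : ℂ := ⟨t, s⟩ with hw
  have hre : w.re = t := rfl
  have him : w.im = s := rfl
  set u : ℂ := w - Complex.I * (h : ℂ) with hu
  have hure : u.re = t := by simp [hu, hre]
  have huim : u.im = s - h := by simp [hu, him]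
  have hnw : ‖w‖ ^ 2 = t ^ 2 + s ^ 2 := by
    rw [← Complex.normSq_eq_norm_sq, Complex.normSq_apply, hre, him]; ring
  have hnu : ‖u‖ ^ 2 = t ^ 2 + (s - h) ^ 2 := by
    rw [← Complex.normSq_eq_norm_sq, Complex.normSq_apply, hure, huim]; ring
  have htu : |t| ≤ ‖u‖ := by
    have := Complex.abs_re_le_norm u
    rwa [hure] at this
  have hsu : |s - h| ≤ ‖u‖ := by
    have := Complex.abs_im_le_norm u
    rwa [huim] at this
  have hwn : ‖w‖ ≤ |t| + |s| := by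
    have := Complex.norm_le_abs_re_add_abs_im w
    rwa [hre, him] at this
  have hut : 0 ≤ |t| := abs_nonneg t
  have key : ‖w‖ + h ≤ 4 * (1 + M) * ‖u‖ := by
    by_cases hc : 2 * |s| ≤ h
    · have h1 : h / 2 ≤ |s - h| := by
        have h2 : h - s ≤ |s - h| := by
          rw [abs_sub_comm]
          exact le_abs_self _
        have h3 : s ≤ |s| := le_abs_self s
        linarith
      nlinarith [norm_nonneg u]
    · push Not at hc
      have h1 : h ≤ 2 * M * |t| := by linarith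
      nlinarith [norm_nonneg u]
  have hu0 : 0 < ‖u‖ := by
    have : 0 < 4 * (1 + M) * ‖u‖ := by
      have := norm_nonneg w
      linarith
    by_contra hneg
    have h0 : ‖u‖ = 0 := le_antisymm (not_lt.1 hneg) (norm_nonneg u)
    rw [h0] at this
    simp at this
  have hune : u ≠ 0 := norm_pos_iff.1 hu0
  have hD : 0 < ‖w‖ ^ 2 + h ^ 2 := pk_pos hh w
  have hDne : ((‖w‖ ^ 2 + h ^ 2 : ℝ) : ℂ) ≠ 0 := by exact_mod_cast hD.ne'
  have hww : (starRingEnd ℂ) w * w = ((‖w‖ ^ 2 : ℝ) : ℂ) := by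
    rw [← Complex.normSq_eq_conj_mul_self, Complex.normSq_eq_norm_sq]
  have hid : 1 / u - kr h w
      = ((h : ℂ) * (Complex.I * (starRingEnd ℂ) w + h)) / (u * ((‖w‖ ^ 2 + h ^ 2 : ℝ) : ℂ)) := by
    unfold kr
    rw [div_sub_div _ _ hune hDne]
    congr 1
    rw [one_mul]
    have : ((‖w‖ ^ 2 + h ^ 2 : ℝ) : ℂ) = (starRingEnd ℂ) w * w + (h : ℂ) ^ 2 := by
      rw [hww]; push_cast; ring
    rw [this, hu]
    ring
  constructor
  · rw [hid, norm_div, norm_mul, norm_mul, Complex.norm_real, Complex.norm_real,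
      Real.norm_of_nonneg hh.le, Real.norm_of_nonneg hD.le]
    have h1 : ‖Complex.I * (starRingEnd ℂ) w + (h : ℂ)‖ ≤ ‖w‖ + h := by
      refine (norm_add_le _ _).trans ?_
      rw [norm_mul, Complex.norm_I, one_mul, RCLike.norm_conj, Complex.norm_real,
        Real.norm_of_nonneg hh.le]
    have h2 : t ^ 2 + h ^ 2 ≤ ‖w‖ ^ 2 + h ^ 2 := by
      rw [hnw]; nlinarith [sq_nonneg s]
    have h3 : 0 < t ^ 2 + h ^ 2 := by positivity
    calc h * ‖Complex.I * (starRingEnd ℂ) w + (h : ℂ)‖ / (‖u‖ * (‖w‖ ^ 2 + h ^ 2))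
        ≤ h * (4 * (1 + M) * ‖u‖) / (‖u‖ * (‖w‖ ^ 2 + h ^ 2)) := by
          gcongr
          exact h1.trans key
      _ = 4 * (1 + M) * (h / (‖w‖ ^ 2 + h ^ 2)) := by
          field_simp
      _ ≤ 4 * (1 + M) * (h / (t ^ 2 + h ^ 2)) := by
          gcongr
  · have := norm_nonneg w
    linarith


theorem ennreal_add_sq (a b : ℝ≥0∞) : (a + b) ^ 2 ≤ 2 * a ^ 2 + 2 * b ^ 2 := by
  have h := ENNReal.rpow_add_le_mul_rpow_add_rpow a b (p := 2) (by norm_num)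
  have e : ((2 : ℝ) - 1) = 1 := by norm_num
  rw [e, ENNReal.rpow_one] at h
  simp only [ENNReal.rpow_ofNat] at h
  calc (a + b) ^ 2 ≤ 2 * (a ^ 2 + b ^ 2) := h
    _ = 2 * a ^ 2 + 2 * b ^ 2 := by ring

theorem f_integrable {f : ℝ → ℂ} (hf : Measurable f) (hb : ∃ B, ∀ x, ‖f x‖ ≤ B)
    (hs : ∃ R, ∀ x, R < |x| → f x = 0) : Integrable f := by
  obtain ⟨B, hB⟩ := hb
  obtain ⟨R, hR⟩ := hs
  have h1 : IntegrableOn f (Icc (-R) R) := by
    apply Measure.integrableOn_of_bounded (M := B) (by simp) hf.aestronglyMeasurable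
    exact Eventually.of_forall hB
  refine (integrableOn_iff_integrable_of_support_subset ?_).1 h1
  intro x hx
  by_contra hc
  apply hx
  apply hR
  by_contra hle
  push Not at hle
  exact hc (abs_le.1 hle)

theorem mul_integrable {f g : ℝ → ℂ} (hf : Integrable f) (hg : Measurable g) (c : ℝ)
    (hc : ∀ x, ‖g x‖ ≤ c) : Integrable (fun x => f x * g x) := by
  exact hf.mul_bdd (c := c) hg.aestronglyMeasurable (Eventually.of_forall hc)

theorem l2_c1 (C₁ : ℝ≥0∞) (M : ℝ) (hM : 1 ≤ M) (A : ℝ → ℝ) (hA : ContDiff ℝ 1 A)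
    (hd : ∀ x, |deriv A x| ≤ M) (h : ℝ) (hh : 0 < h)
    (f : ℝ → ℂ) (hf : Measurable f) (hb : ∃ B, ∀ x, ‖f x‖ ≤ B)
    (hs : ∃ R, ∀ x, R < |x| → f x = 0)
    (hyp : ∫⁻ x, ‖∫ y, f y / ((⟨y, A y⟩ : ℂ) - ⟨x, A x⟩ - Complex.I * (h : ℂ))‖ₑ ^ 2
        ≤ C₁ * ∫⁻ x, ‖f x‖ₑ ^ 2) :
    ∫⁻ x, ‖∫ y, f y * kr h ((⟨y, A y⟩ : ℂ) - ⟨x, A x⟩)‖ₑ ^ 2
        ≤ (2 * C₁ + 2 * ENNReal.ofReal (4 * (1 + M) * Real.pi) ^ 2) * ∫⁻ x, ‖f x‖ₑ ^ 2 := by
  have hlip : ∀ x y, |A x - A y| ≤ M * |x - y| := by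
    intro x y
    have := Convex.norm_image_sub_le_of_norm_deriv_le (f := A) (s := univ) (C := M)
      (fun z _ => (hA.differentiable (by norm_num)) z) (fun z _ => by
        rw [Real.norm_eq_abs]; exact hd z) convex_univ (mem_univ y) (mem_univ x)
    simpa [Real.norm_eq_abs] using this
  have hAc : Continuous A := hA.continuous
  have hz : Continuous (fun y => (⟨y, A y⟩ : ℂ)) := by
    have : (fun y : ℝ => (⟨y, A y⟩ : ℂ)) = fun y : ℝ => ((y : ℂ) + (A y : ℂ) * Complex.I) := by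
      ext y
      rw [Complex.mk_eq_add_mul_I]
    rw [this]
    fun_prop
  have hfi := f_integrable hf hb hs
  have hw : ∀ x y, ((⟨y, A y⟩ : ℂ) - ⟨x, A x⟩) = ⟨y - x, A y - A x⟩ := by
    intro x y
    apply Complex.ext <;> simp
  have cmp := fun x y => kernel_cmp (M := M) (h := h) (t := y - x) (s := A y - A x) hM hh (hlip y x)
  have hune : ∀ x y, ((⟨y, A y⟩ : ℂ) - ⟨x, A x⟩ - Complex.I * (h : ℂ)) ≠ 0 := by
    intro x y h0
    have := (cmp x y).2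
    rw [← hw, h0] at this
    simp at this
    linarith
  have hki : ∀ x, Integrable (fun y => f y * kr h ((⟨y, A y⟩ : ℂ) - ⟨x, A x⟩)) := by
    intro x
    apply mul_integrable hfi _ (1 / (2 * h)) fun y => kr_norm_le hh _
    exact ((kr_cont hh).comp (hz.sub continuous_const)).measurable
  have hti : ∀ x, Integrable (fun y => f y * (1 / ((⟨y, A y⟩ : ℂ) - ⟨x, A x⟩
      - Complex.I * (h : ℂ)))) := by
    intro x
    apply mul_integrable hfi _ (4 * (1 + M) / h) fun y => ?_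
    · exact (continuous_const.div ((hz.sub continuous_const).sub continuous_const)
        (hune x)).measurable
    · have h1 := (cmp x y).2
      rw [← hw] at h1
      rw [norm_div, norm_one, div_le_div_iff₀ (norm_pos_iff.2 (hune x y)) hh]
      linarith
  set k : ℝ → ℝ≥0∞ := fun t => ENNReal.ofReal (4 * (1 + M) * (h / (t ^ 2 + h ^ 2))) with hk
  have hkm : Measurable k := by
    apply ENNReal.measurable_ofReal.comp
    fun_prop
  have hkint : ∫⁻ t, k t = ENNReal.ofReal (4 * (1 + M) * Real.pi) := by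
    have : ∀ t, k t = ENNReal.ofReal (4 * (1 + M)) * ENNReal.ofReal (h / (t ^ 2 + h ^ 2)) := by
      intro t
      rw [hk, ← ENNReal.ofReal_mul (by linarith)]
    simp_rw [this]
    rw [lintegral_const_mul _ (by
      apply ENNReal.measurable_ofReal.comp
      fun_prop), lint_poisson hh, ← ENNReal.ofReal_mul (by linarith)]
  have hdiff : ∀ x, ‖∫ y, f y * (1 / ((⟨y, A y⟩ : ℂ) - ⟨x, A x⟩ - Complex.I * (h : ℂ))
      - kr h ((⟨y, A y⟩ : ℂ) - ⟨x, A x⟩))‖ₑ ≤ ∫⁻ y, ‖f y‖ₑ * k (x - y) := by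
    intro x
    refine (enorm_integral_le_lintegral_enorm _).trans (lintegral_mono fun y => ?_)
    rw [enorm_mul]
    gcongr
    rw [← ofReal_norm, hk]
    apply ENNReal.ofReal_le_ofReal
    have h1 := (cmp x y).1
    rw [← hw] at h1
    have : (x - y) ^ 2 = (y - x) ^ 2 := by ring
    rw [this]
    exact h1
  have hpt : ∀ x, ‖∫ y, f y * kr h ((⟨y, A y⟩ : ℂ) - ⟨x, A x⟩)‖ₑ ^ 2
      ≤ 2 * ‖∫ y, f y / ((⟨y, A y⟩ : ℂ) - ⟨x, A x⟩ - Complex.I * (h : ℂ))‖ₑ ^ 2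
        + 2 * (∫⁻ y, ‖f y‖ₑ * k (x - y)) ^ 2 := by
    intro x
    have e : ∫ y, f y * kr h ((⟨y, A y⟩ : ℂ) - ⟨x, A x⟩)
        = (∫ y, f y / ((⟨y, A y⟩ : ℂ) - ⟨x, A x⟩ - Complex.I * (h : ℂ)))
          - ∫ y, f y * (1 / ((⟨y, A y⟩ : ℂ) - ⟨x, A x⟩ - Complex.I * (h : ℂ))
            - kr h ((⟨y, A y⟩ : ℂ) - ⟨x, A x⟩)) := by
      simp_rw [mul_sub]
      rw [integral_sub (hti x) (hki x)]
      simp_rw [mul_one_div]
      ring
    calc ‖∫ y, f y * kr h ((⟨y, A y⟩ : ℂ) - ⟨x, A x⟩)‖ₑ ^ 2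
        ≤ (‖∫ y, f y / ((⟨y, A y⟩ : ℂ) - ⟨x, A x⟩ - Complex.I * (h : ℂ))‖ₑ
          + ∫⁻ y, ‖f y‖ₑ * k (x - y)) ^ 2 := by
          gcongr
          rw [e]
          exact (enorm_sub_le).trans (by gcongr; exact hdiff x)
      _ ≤ _ := ennreal_add_sq _ _
  have hsch := schur (fun y => ‖f y‖ₑ) k hf.enorm hkm
  rw [hkint] at hsch
  have hm2 : Measurable (fun x => (∫⁻ y, ‖f y‖ₑ * k (x - y)) ^ 2) := by
    apply Measurable.pow_const
    exact Measurable.lintegral_prod_right' (f := fun p : ℝ × ℝ => ‖f p.2‖ₑ * k (p.1 - p.2))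
      (by fun_prop)
  calc ∫⁻ x, ‖∫ y, f y * kr h ((⟨y, A y⟩ : ℂ) - ⟨x, A x⟩)‖ₑ ^ 2
      ≤ ∫⁻ x, (2 * ‖∫ y, f y / ((⟨y, A y⟩ : ℂ) - ⟨x, A x⟩ - Complex.I * (h : ℂ))‖ₑ ^ 2
        + 2 * (∫⁻ y, ‖f y‖ₑ * k (x - y)) ^ 2) := lintegral_mono hpt
    _ = 2 * (∫⁻ x, ‖∫ y, f y / ((⟨y, A y⟩ : ℂ) - ⟨x, A x⟩ - Complex.I * (h : ℂ))‖ₑ ^ 2)
        + 2 * (∫⁻ x, (∫⁻ y, ‖f y‖ₑ * k (x - y)) ^ 2) := by
        rw [lintegral_add_right _ (hm2.const_mul _), lintegral_const_mul' _ _ (by norm_num),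
          lintegral_const_mul' _ _ (by norm_num)]
    _ ≤ 2 * (C₁ * ∫⁻ x, ‖f x‖ₑ ^ 2)
        + 2 * (ENNReal.ofReal (4 * (1 + M) * Real.pi) ^ 2 * ∫⁻ x, ‖f x‖ₑ ^ 2) := by
        gcongr
    _ = _ := by ring


/-- Steklov mean -/
noncomputable def stek (A : ℝ → ℝ) (δ : ℝ) (x : ℝ) : ℝ :=
  ((∫ t in (0:ℝ)..(x + δ), A t) - ∫ t in (0:ℝ)..x, A t) / δ

theorem stek_deriv {A : ℝ → ℝ} (hA : Continuous A) (δ x : ℝ) :
    HasDerivAt (stek A δ) ((A (x + δ) - A x) / δ) x := by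
  have h0 : ∀ y, HasDerivAt (fun u => ∫ t in (0:ℝ)..u, A t) (A y) y := fun y =>
    intervalIntegral.integral_hasDerivAt_right (hA.intervalIntegrable _ _)
      (hA.stronglyMeasurableAtFilter _ _) hA.continuousAt
  have h1 : HasDerivAt (fun u => ∫ t in (0:ℝ)..(u + δ), A t) (A (x + δ)) x := by
    have := (h0 (x + δ)).comp_add_const x δ
    exact this
  exact (h1.sub (h0 x)).div_const δ

theorem stek_contDiff {A : ℝ → ℝ} (hA : Continuous A) (δ : ℝ) : ContDiff ℝ 1 (stek A δ) := by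
  rw [contDiff_one_iff_deriv]
  constructor
  · exact fun x => (stek_deriv hA δ x).differentiableAt
  · have : deriv (stek A δ) = fun x => (A (x + δ) - A x) / δ := by
      ext x
      exact (stek_deriv hA δ x).deriv
    rw [this]
    fun_prop

theorem stek_bound {A : ℝ → ℝ} {M : ℝ} (hA : Continuous A)
    (hl : ∀ x y, |A x - A y| ≤ M * |x - y|) {δ : ℝ} (hδ : 0 < δ) (x : ℝ) :
    |deriv (stek A δ) x| ≤ M := by
  rw [(stek_deriv hA δ x).deriv, abs_div, abs_of_pos hδ, div_le_iff₀ hδ]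
  have := hl (x + δ) x
  rwa [add_sub_cancel_left, abs_of_pos hδ] at this

theorem stek_tendsto {A : ℝ → ℝ} (hA : Continuous A) (x : ℝ) :
    Tendsto (fun n : ℕ => stek A (1 / ((n : ℝ) + 1)) x) atTop (𝓝 (A x)) := by
  have h0 : HasDerivAt (fun u => ∫ t in (0:ℝ)..u, A t) (A x) x :=
    intervalIntegral.integral_hasDerivAt_right (hA.intervalIntegrable _ _)
      (hA.stronglyMeasurableAtFilter _ _) hA.continuousAt
  rw [hasDerivAt_iff_tendsto_slope_zero] at h0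
  have h1 : Tendsto (fun n : ℕ => 1 / ((n : ℝ) + 1)) atTop (𝓝[≠] 0) := by
    rw [tendsto_nhdsWithin_iff]
    refine ⟨tendsto_one_div_add_atTop_nhds_zero_nat, Eventually.of_forall fun n => ?_⟩
    have : (0 : ℝ) < 1 / ((n : ℝ) + 1) := by positivity
    exact this.ne'
  have h2 := h0.comp h1
  refine h2.congr fun n => ?_
  simp only [Function.comp, stek, smul_eq_mul]
  exact (div_eq_inv_mul _ _).symm

/-- A3b -/
theorem l2_kr (C₀ : ℝ) (k₀ : ℕ) (hC₀ : 0 < C₀)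
    (hyp : ∀ M : ℝ, 1 ≤ M → ∀ A : ℝ → ℝ,
      ContDiff ℝ 1 A → (∀ x, |deriv A x| ≤ M) → ∀ h : ℝ, 0 < h →
      ∀ f : ℝ → ℂ, Measurable f → (∃ B, ∀ x, ‖f x‖ ≤ B) → (∃ R, ∀ x, R < |x| → f x = 0) →
      ∫⁻ x, ‖∫ y, f y / ((⟨y, A y⟩ : ℂ) - ⟨x, A x⟩ - Complex.I * (h : ℂ))‖ₑ ^ 2
        ≤ ENNReal.ofReal (C₀ * M ^ k₀) * ∫⁻ x, ‖f x‖ₑ ^ 2) :
    ∃ C : ℝ, ∃ k : ℕ, 0 < C ∧ ∀ M : ℝ, 1 ≤ M → ∀ A : ℝ → ℝ,
      (∀ x y, |A x - A y| ≤ M * |x - y|) → ∀ ρ : ℝ, 0 < ρ →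
      ∀ f : ℝ → ℂ, Measurable f → (∃ B, ∀ x, ‖f x‖ ≤ B) → (∃ R, ∀ x, R < |x| → f x = 0) →
      ∫⁻ x, ‖∫ y, f y * kr ρ ((⟨y, A y⟩ : ℂ) - ⟨x, A x⟩)‖ₑ ^ 2
        ≤ ENNReal.ofReal (C * M ^ k) * ∫⁻ x, ‖f x‖ₑ ^ 2 := by
  refine ⟨2 * C₀ + 2 * (8 * Real.pi) ^ 2, k₀ + 2, by positivity, ?_⟩
  intro M hM A hl ρ hρ f hf hb hs
  have hM0 : 0 < M := by linarith
  have hAc : Continuous A := by
    have : LipschitzWith (Real.toNNReal M) A := by
      apply LipschitzWith.of_dist_le_mul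
      intro x y
      rw [Real.dist_eq, Real.dist_eq, Real.coe_toNNReal _ hM0.le]
      exact hl x y
    exact this.continuous
  have hconst : 2 * ENNReal.ofReal (C₀ * M ^ k₀) + 2 * ENNReal.ofReal (4 * (1 + M) * Real.pi) ^ 2
      ≤ ENNReal.ofReal ((2 * C₀ + 2 * (8 * Real.pi) ^ 2) * M ^ (k₀ + 2)) := by
    have e2 : (2 : ℝ≥0∞) = ENNReal.ofReal 2 := by simp
    rw [e2, ← ENNReal.ofReal_pow (by positivity), ← ENNReal.ofReal_mul (by norm_num),
      ← ENNReal.ofReal_mul (by norm_num), ← ENNReal.ofReal_add (by positivity) (by positivity)]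
    apply ENNReal.ofReal_le_ofReal
    have h1 : M ^ k₀ ≤ M ^ (k₀ + 2) := pow_le_pow_right₀ hM (by omega)
    have h2 : M ^ 2 ≤ M ^ (k₀ + 2) := pow_le_pow_right₀ hM (by omega)
    have h3 : (1 + M) ^ 2 ≤ 4 * M ^ 2 := by nlinarith
    have h4 : (4 * (1 + M) * Real.pi) ^ 2 ≤ (8 * Real.pi) ^ 2 * M ^ (k₀ + 2) := by
      have hpi := sq_nonneg Real.pi
      calc (4 * (1 + M) * Real.pi) ^ 2 = 16 * Real.pi ^ 2 * (1 + M) ^ 2 := by ring
        _ ≤ 16 * Real.pi ^ 2 * (4 * M ^ 2) := by gcongr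
        _ = (8 * Real.pi) ^ 2 * M ^ 2 := by ring
        _ ≤ _ := by gcongr
    nlinarith
  set An : ℕ → ℝ → ℝ := fun n => stek A (1 / ((n : ℝ) + 1)) with hAn
  have hδ : ∀ n : ℕ, (0 : ℝ) < 1 / ((n : ℝ) + 1) := fun n => by positivity
  have hbd : ∀ n, ∫⁻ x, ‖∫ y, f y * kr ρ ((⟨y, An n y⟩ : ℂ) - ⟨x, An n x⟩)‖ₑ ^ 2
      ≤ ENNReal.ofReal ((2 * C₀ + 2 * (8 * Real.pi) ^ 2) * M ^ (k₀ + 2))
        * ∫⁻ x, ‖f x‖ₑ ^ 2 := by
    intro n
    have hc := stek_contDiff hAc (1 / ((n : ℝ) + 1))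
    have hd := stek_bound hAc hl (hδ n)
    refine (l2_c1 _ M hM (An n) hc hd ρ hρ f hf hb hs
      (hyp M hM (An n) hc hd ρ hρ f hf hb hs)).trans ?_
    gcongr
  have hfi := f_integrable hf hb hs
  have hzm : ∀ B : ℝ → ℝ, Continuous B → Continuous (fun y : ℝ => (⟨y, B y⟩ : ℂ)) := by
    intro B hB
    have : (fun y : ℝ => (⟨y, B y⟩ : ℂ)) = fun y : ℝ => ((y : ℂ) + (B y : ℂ) * Complex.I) := by
      ext y
      rw [Complex.mk_eq_add_mul_I]
    rw [this]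
    fun_prop
  have hAnc : ∀ n, Continuous (An n) := fun n => (stek_contDiff hAc _).continuous
  have hmeas : ∀ n, Measurable (fun x => ‖∫ y, f y * kr ρ ((⟨y, An n y⟩ : ℂ)
      - ⟨x, An n x⟩)‖ₑ ^ 2) := by
    intro n
    apply Measurable.pow_const
    apply Measurable.enorm
    apply StronglyMeasurable.measurable
    apply StronglyMeasurable.integral_prod_right' (f := fun p : ℝ × ℝ =>
      f p.2 * kr ρ ((⟨p.2, An n p.2⟩ : ℂ) - ⟨p.1, An n p.1⟩))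
    apply Measurable.stronglyMeasurable
    apply Measurable.mul (hf.comp measurable_snd)
    apply (kr_cont hρ).measurable.comp
    exact (((hzm _ (hAnc n)).comp continuous_snd).sub
      ((hzm _ (hAnc n)).comp continuous_fst)).measurable
  have hlim : ∀ x, Tendsto (fun n => ‖∫ y, f y * kr ρ ((⟨y, An n y⟩ : ℂ) - ⟨x, An n x⟩)‖ₑ ^ 2)
      atTop (𝓝 (‖∫ y, f y * kr ρ ((⟨y, A y⟩ : ℂ) - ⟨x, A x⟩)‖ₑ ^ 2)) := by
    intro x
    have h1 : Tendsto (fun n => ∫ y, f y * kr ρ ((⟨y, An n y⟩ : ℂ) - ⟨x, An n x⟩)) atTop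
        (𝓝 (∫ y, f y * kr ρ ((⟨y, A y⟩ : ℂ) - ⟨x, A x⟩))) := by
      apply tendsto_integral_of_dominated_convergence (fun y => ‖f y‖ * (1 / (2 * ρ)))
      · intro n
        apply Measurable.aestronglyMeasurable
        apply Measurable.mul hf
        apply (kr_cont hρ).measurable.comp
        exact ((hzm _ (hAnc n)).sub continuous_const).measurable
      · exact hfi.norm.mul_const _
      · intro n
        apply Eventually.of_forall
        intro y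
        rw [norm_mul]
        gcongr
        exact kr_norm_le hρ _
      · apply Eventually.of_forall
        intro y
        apply Tendsto.mul tendsto_const_nhds
        apply ((kr_cont hρ).tendsto _).comp
        have e : ∀ B : ℝ → ℝ, ∀ y x : ℝ, ((⟨y, B y⟩ : ℂ) - ⟨x, B x⟩)
            = ((y - x : ℝ) : ℂ) + ((B y - B x : ℝ) : ℂ) * Complex.I := by
          intro B y x
          apply Complex.ext <;> simp
        simp_rw [e]
        apply Tendsto.add tendsto_const_nhds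
        apply Tendsto.mul _ tendsto_const_nhds
        apply (Complex.continuous_ofReal.tendsto _).comp
        exact (stek_tendsto hAc y).sub (stek_tendsto hAc x)
    exact ((ENNReal.continuous_pow 2).tendsto _).comp ((continuous_enorm.tendsto _).comp h1)
  calc ∫⁻ x, ‖∫ y, f y * kr ρ ((⟨y, A y⟩ : ℂ) - ⟨x, A x⟩)‖ₑ ^ 2
      = ∫⁻ x, liminf (fun n => ‖∫ y, f y * kr ρ ((⟨y, An n y⟩ : ℂ) - ⟨x, An n x⟩)‖ₑ ^ 2)
          atTop := by
        congr 1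
        ext x
        exact (hlim x).liminf_eq.symm
    _ ≤ liminf (fun n => ∫⁻ x, ‖∫ y, f y * kr ρ ((⟨y, An n y⟩ : ℂ) - ⟨x, An n x⟩)‖ₑ ^ 2)
          atTop := lintegral_liminf_le hmeas
    _ ≤ _ := by
        refine (liminf_le_liminf (Eventually.of_forall hbd)).trans ?_
        rw [liminf_const]

end P367
end Pool.Agent.Helper311.Nev
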