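import Mathlib
import Pool.Agent.Helper311.Nev.Ker

open MeasureTheory Set Filter Topology Metric
open scoped ENNReal NNReal

namespace Pool.Agent.Helper311.Nev
namespace P368


namespace UnivAux

variable {f : ℂ → ℂ} {U : Set ℂ}

/-- An injective holomorphic map is open, local form. -/
theorem nhds_le_map (hU : IsOpen U) (hf : DifferentiableOn ℂ f U) (hi : InjOn f U)
    {z : ℂ} (hz : z ∈ U) : 𝓝 (f z) ≤ map f (𝓝 z) := by
  have ha : AnalyticAt ℂ f z := hf.analyticAt (hU.mem_nhds hz)
  rcases ha.eventually_constant_or_nhds_le_map_nhds with h | h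
  · exfalso
    have h1 : ∀ᶠ w in 𝓝[≠] z, f w = f z ∧ w ∈ U :=
      (h.and (hU.mem_nhds hz)).filter_mono nhdsWithin_le_nhds
    have h2 : ∀ᶠ w in 𝓝[≠] z, w ≠ z := eventually_mem_nhdsWithin
    obtain ⟨w, hw, hw2⟩ := (h1.and h2).exists
    exact hw2 (hi hw.2 hz hw.1)
  · exact h

theorem map_nhds (hU : IsOpen U) (hf : DifferentiableOn ℂ f U) (hi : InjOn f U)
    {z : ℂ} (hz : z ∈ U) : map f (𝓝 z) = 𝓝 (f z) := by
  apply le_antisymm
  · exact (hf.analyticAt (hU.mem_nhds hz)).continuousAt
  · exact nhds_le_map hU hf hi hz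

theorem isOpen_image (hU : IsOpen U) (hf : DifferentiableOn ℂ f U) (hi : InjOn f U)
    {s : Set ℂ} (hs : IsOpen s) (hsU : s ⊆ U) : IsOpen (f '' s) := by
  rw [isOpen_iff_mem_nhds]
  rintro _ ⟨z, hz, rfl⟩
  rw [← map_nhds hU hf hi (hsU hz)]
  exact image_mem_map (hs.mem_nhds hz)

theorem invFunOn_left (hi : InjOn f U) {z : ℂ} (hz : z ∈ U) :
    Function.invFunOn f U (f z) = z :=
  hi.leftInvOn_invFunOn hz

theorem invFunOn_mem {w : ℂ} (hw : w ∈ f '' U) :
    Function.invFunOn f U w ∈ U :=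
  Function.invFunOn_mem (by simpa using hw)

theorem invFunOn_right {w : ℂ} (hw : w ∈ f '' U) :
    f (Function.invFunOn f U w) = w :=
  Function.invFunOn_eq (by simpa using hw)

theorem continuousAt_inv (hU : IsOpen U) (hf : DifferentiableOn ℂ f U) (hi : InjOn f U)
    {w : ℂ} (hw : w ∈ f '' U) : ContinuousAt (Function.invFunOn f U) w := by
  obtain ⟨z, hz, rfl⟩ := hw
  rw [ContinuousAt, invFunOn_left hi hz]
  intro V hV
  rw [mem_map]
  have h1 : V ∩ U ∈ 𝓝 z := inter_mem hV (hU.mem_nhds hz)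
  have h2 : f '' (V ∩ U) ∈ 𝓝 (f z) := by
    rw [← map_nhds hU hf hi hz]
    exact image_mem_map h1
  refine mem_of_superset h2 ?_
  rintro _ ⟨y, hy, rfl⟩
  simp only [mem_preimage]
  rw [invFunOn_left hi hy.2]
  exact hy.1

/-- the inverse is differentiable where the derivative does not vanish -/
theorem hasDerivAt_inv_of_ne (hU : IsOpen U) (hf : DifferentiableOn ℂ f U) (hi : InjOn f U)
    {z : ℂ} (hz : z ∈ U) (hd : deriv f z ≠ 0) :
    HasDerivAt (Function.invFunOn f U) (deriv f z)⁻¹ (f z) := by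
  have hzz : Function.invFunOn f U (f z) = z := invFunOn_left hi hz
  apply HasDerivAt.of_local_left_inverse (f := f)
  · exact continuousAt_inv hU hf hi (mem_image_of_mem f hz)
  · rw [hzz]
    exact (hf.differentiableAt (hU.mem_nhds hz)).hasDerivAt
  · exact hd
  · have : f '' U ∈ 𝓝 (f z) := (isOpen_image hU hf hi hU subset_rfl).mem_nhds (mem_image_of_mem f hz)
    filter_upwards [this] with w hw using invFunOn_right hw

/-- zeros of the derivative are isolated -/
theorem eventually_deriv_ne_zero (hU : IsOpen U) (hf : DifferentiableOn ℂ f U) (hi : InjOn f U)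
    {z : ℂ} (hz : z ∈ U) : ∀ᶠ y in 𝓝[≠] z, deriv f y ≠ 0 := by
  have ha : AnalyticAt ℂ f z := hf.analyticAt (hU.mem_nhds hz)
  rcases ha.deriv.eventually_eq_zero_or_eventually_ne_zero with h | h
  · exfalso
    obtain ⟨r, hr, hrs⟩ := Metric.eventually_nhds_iff_ball.mp (h.and (hU.mem_nhds hz))
    have hconst : ∀ y ∈ ball z r, f y = f z := by
      intro y hy
      have hdiff : DifferentiableOn ℂ f (ball z r) := hf.mono (fun x hx => (hrs x hx).2)
      refine (convex_ball z r).is_const_of_fderivWithin_eq_zero (𝕜 := ℂ) hdiff ?_ hy (mem_ball_self hr)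
      intro x hx
      rw [fderivWithin_of_isOpen isOpen_ball hx]
      ext
      simp [(hrs x hx).1]
    have h1 : z + (r/2 : ℝ) ∈ ball z r := by
      simp [abs_of_pos hr]
      linarith
    have h2 := hi (hrs _ h1).2 hz (hconst _ h1)
    have : ((r/2 : ℝ) : ℂ) = 0 := by
      simpa using h2
    have : r / 2 = 0 := by exact_mod_cast this
    linarith
  · exact h

theorem differentiableAt_inv (hU : IsOpen U) (hf : DifferentiableOn ℂ f U) (hi : InjOn f U)
    {w : ℂ} (hw : w ∈ f '' U) : DifferentiableAt ℂ (Function.invFunOn f U) w := by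
  obtain ⟨z, hz, rfl⟩ := hw
  refine (Complex.analyticAt_of_differentiable_on_punctured_nhds_of_continuousAt ?_
    (continuousAt_inv hU hf hi (mem_image_of_mem f hz))).differentiableAt
  have h1 : ∀ᶠ y in 𝓝 z, y ∈ U ∧ (y ≠ z → deriv f y ≠ 0) := by
    have := eventually_deriv_ne_zero hU hf hi hz
    rw [eventually_nhdsWithin_iff] at this
    exact (hU.mem_nhds hz |> fun h => (show ∀ᶠ y in 𝓝 z, y ∈ U from h)).and this
  have h2 : ∀ᶠ w in 𝓝 (f z), w ≠ f z → DifferentiableAt ℂ (Function.invFunOn f U) w := by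
    rw [← map_nhds hU hf hi hz, eventually_map]
    filter_upwards [h1] with y hy hne
    have hyz : y ≠ z := fun h => hne (by rw [h])
    exact (hasDerivAt_inv_of_ne hU hf hi hy.1 (hy.2 hyz)).differentiableAt
  rw [eventually_nhdsWithin_iff]
  exact h2

theorem deriv_ne_zero (hU : IsOpen U) (hf : DifferentiableOn ℂ f U) (hi : InjOn f U)
    {z : ℂ} (hz : z ∈ U) : deriv f z ≠ 0 := by
  have hzz : Function.invFunOn f U (f z) = z := invFunOn_left hi hz
  have hg := (differentiableAt_inv hU hf hi (mem_image_of_mem f hz)).hasDerivAt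
  have hf' : HasDerivAt f (deriv f z) z := (hf.differentiableAt (hU.mem_nhds hz)).hasDerivAt
  have hcomp : HasDerivAt (Function.invFunOn f U ∘ f)
      (deriv (Function.invFunOn f U) (f z) * deriv f z) z := HasDerivAt.comp z hg hf'
  have hid : HasDerivAt (Function.invFunOn f U ∘ f) 1 z := by
    refine (hasDerivAt_id z).congr_of_eventuallyEq ?_
    filter_upwards [hU.mem_nhds hz] with y hy
    simp [invFunOn_left hi hy]
  have := hcomp.unique hid
  intro h
  rw [h] at this
  simp at this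


end UnivAux


open InnerProductSpace

/-- Poisson kernel at `z` on the circle -/
lemma pk_nonneg {z w : ℂ} (hz : ‖z‖ < 1) (hw : ‖w‖ = 1) : 0 ≤ poissonKernel 0 z w := by
  rw [poissonKernel_def]
  apply div_nonneg _ (by positivity)
  simp only [sub_zero, hw]
  nlinarith [norm_nonneg z]

lemma pk_cont {z : ℂ} (hz : ‖z‖ < 1) {v : ℂ → ℝ} (hv : ContinuousOn v (sphere 0 1)) :
    Continuous fun t : ℝ => (poissonKernel 0 z • v) (circleMap 0 1 t) := by
  have h1 : Continuous fun t : ℝ => v (circleMap 0 1 t) :=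
    hv.comp_continuous (continuous_circleMap 0 1) fun t => circleMap_mem_sphere 0 zero_le_one t
  have h2 : Continuous fun t : ℝ => poissonKernel 0 z (circleMap 0 1 t) := by
    simp only [poissonKernel_def]
    apply Continuous.div
    · fun_prop
    · fun_prop
    · intro t
      have : circleMap 0 1 t - z ≠ 0 := by
        intro h
        have h3 : ‖circleMap 0 1 t‖ = 1 := by simp
        rw [sub_eq_zero.1 h] at h3
        linarith
      simpa using this
  exact h2.mul h1

lemma harm_nonneg {z : ℂ} (hz : ‖z‖ < 1) {v : ℂ → ℝ} (hv : HarmonicContOnCl v (ball 0 1))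
    (hv0 : ∀ w, ‖w‖ = 1 → 0 ≤ v w) : 0 ≤ v z := by
  have hzb : z ∈ ball (0:ℂ) 1 := by simpa using hz
  rw [← hv.circleAverage_poissonKernel_smul hzb]
  unfold Real.circleAverage
  apply smul_nonneg (by positivity)
  apply intervalIntegral.integral_nonneg (by positivity)
  intro t _
  have ht : ‖circleMap 0 1 t‖ = 1 := by simp
  exact mul_nonneg (pk_nonneg hz ht) (hv0 _ ht)

lemma harm_local {r θ : ℝ} (hr0 : 0 ≤ r) (hr1 : r < 1) {v : ℂ → ℝ}
    (hv : HarmonicContOnCl v (ball 0 1)) (hv0 : ∀ w, ‖w‖ = 1 → 0 ≤ v w) :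
    ∫ t in (θ - (1 - r))..(θ + (1 - r)), v (circleMap 0 1 t) ≤
      8 * Real.pi * (1 - r) * v (circleMap 0 r θ) := by
  set z := circleMap 0 r θ with hzdef
  have hznorm : ‖z‖ = r := by rw [hzdef, norm_circleMap_zero, abs_of_nonneg hr0]
  have hz : ‖z‖ < 1 := by rw [hznorm]; exact hr1
  have hzb : z ∈ ball (0:ℂ) 1 := by simpa using hz
  have hvc : ContinuousOn v (sphere 0 1) := hv.continuousOn_ball.mono sphere_subset_closedBall
  set F : ℝ → ℝ := fun t => (poissonKernel 0 z • v) (circleMap 0 1 t) with hF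
  have hFc : Continuous F := pk_cont hz hvc
  have hvcc : Continuous fun t : ℝ => v (circleMap 0 1 t) :=
    hvc.comp_continuous (continuous_circleMap 0 1) fun t => circleMap_mem_sphere 0 zero_le_one t
  have hF0 : ∀ t, 0 ≤ F t := fun t => by
    have ht : ‖circleMap 0 1 t‖ = 1 := by simp
    exact mul_nonneg (pk_nonneg hz ht) (hv0 _ ht)
  have hper : Function.Periodic F (2 * Real.pi) := fun t => by
    simp only [hF, periodic_circleMap 0 1 t]
  have h1 : ∫ t in (0)..(0 + 2 * Real.pi), F t = 2 * Real.pi * v z := by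
    have h := hv.circleAverage_poissonKernel_smul hzb
    unfold Real.circleAverage at h
    rw [← h, zero_add, smul_eq_mul, ← mul_assoc, mul_inv_cancel₀ (by positivity), one_mul]
  rw [hper.intervalIntegral_add_eq 0 (θ - (1 - r))] at h1
  have hpi : 3 < Real.pi := Real.pi_gt_three
  have h2 : ∫ t in (θ - (1 - r))..(θ + (1 - r)), F t ≤ 2 * Real.pi * v z := by
    rw [← h1]
    apply intervalIntegral.integral_mono_interval le_rfl (by linarith) (by linarith)
    · exact Filter.Eventually.of_forall fun t => hF0 t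
    · exact hFc.intervalIntegrable _ _
  have h3 : ∫ t in (θ - (1 - r))..(θ + (1 - r)), (1 / (4 * (1 - r))) * v (circleMap 0 1 t) ≤
      ∫ t in (θ - (1 - r))..(θ + (1 - r)), F t := by
    apply intervalIntegral.integral_mono_on (by linarith)
    · exact (hvcc.const_mul _).intervalIntegrable _ _
    · exact hFc.intervalIntegrable _ _
    · intro t ht
      have hn : ‖circleMap 0 1 t‖ = 1 := by simp
      have hd : 0 < 1 - r := by linarith
      apply mul_le_mul_of_nonneg_right _ (hv0 _ hn)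
      rw [poissonKernel_def]
      simp only [sub_zero, hn, hznorm]
      have hne : circleMap 0 1 t - z ≠ 0 := by
        intro h
        rw [sub_eq_zero.1 h] at hn
        linarith
      have hpos : 0 < ‖circleMap 0 1 t - z‖ := norm_pos_iff.2 hne
      have hle : ‖circleMap 0 1 t - z‖ ≤ 2 * (1 - r) := by
        have e1 : circleMap 0 1 t - z = (circleMap 0 1 t - circleMap 0 1 θ) +
            (1 - r : ℝ) • circleMap 0 1 θ := by
          rw [hzdef]
          simp only [circleMap, zero_add, Complex.real_smul]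
          push_cast
          ring
        rw [e1]
        refine (norm_add_le _ _).trans ?_
        have e2 : ‖(1 - r : ℝ) • circleMap 0 1 θ‖ = 1 - r := by
          rw [norm_smul, Real.norm_of_nonneg hd.le]
          simp
        have e3 : ‖circleMap 0 1 t - circleMap 0 1 θ‖ ≤ |t - θ| := by
          have := (lipschitzWith_circleMap 0 1).dist_le_mul t θ
          simpa [dist_eq_norm] using this
        have e4 : |t - θ| ≤ 1 - r := by
          rw [abs_le]
          constructor <;> linarith [ht.1, ht.2]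
        rw [e2]
        linarith
      rw [div_le_div_iff₀ (by positivity) (by positivity)]
      have : ‖circleMap 0 1 t - z‖ ^ 2 ≤ (2 * (1 - r)) ^ 2 := by gcongr
      nlinarith
  rw [intervalIntegral.integral_const_mul] at h3
  have hd : 0 < 1 - r := by linarith
  have h4 := h3.trans h2
  rw [one_div, inv_mul_le_iff₀ (by positivity)] at h4
  linarith

/-- D3 : near the boundary -/
theorem near_boundary (c : ℝ) (hc : 0 < c)
    (hyp : ∀ (φ : ℂ → ℂ) (z : ℂ) (r : ℝ), 0 < r →
    DifferentiableOn ℂ φ (ball z r) → InjOn φ (ball z r) → ∀ a : ℂ, a ∉ φ '' ball z r →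
    c * r * ‖deriv φ z‖ ≤ ‖φ z - a‖) :
    ∃ K : ℝ, 1 ≤ K ∧ ∀ φ : ℂ → ℂ, ContinuousOn φ (closedBall 0 1) →
      DifferentiableOn ℂ φ (ball 0 1) → InjOn φ (closedBall 0 1) →
      ∀ r θ : ℝ, 0 ≤ r → r < 1 →
      ∃ a ∈ φ '' sphere 0 1,
        ‖a - φ (circleMap 0 r θ)‖ ≤ 2 * (1 - r) * ‖deriv φ (circleMap 0 r θ)‖ ∧
        ENNReal.ofReal (1 - r) ≤ volume {t ∈ Icc (θ - (1 - r)) (θ + (1 - r)) |
          ‖φ (circleMap 0 1 t) - a‖ ≤ K * ((1 - r) * ‖deriv φ (circleMap 0 r θ)‖)} := by
  have hc1 : c ≤ 1 := by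
    have h := hyp id 0 1 one_pos differentiableOn_id (injOn_id _) 1 (by simp)
    simpa using h
  set L := Real.log (2 / c) with hL
  have hL0 : 0 < L := Real.log_pos (by rw [lt_div_iff₀ hc]; linarith)
  set K' := Real.exp (8 * Real.pi * L) with hK'
  have hK'0 : 0 < K' := Real.exp_pos _
  have hpi := Real.pi_pos
  refine ⟨K' + 2, by linarith, fun φ hφc hφd hφi r θ hr0 hr1 => ?_⟩
  set z := circleMap 0 r θ with hzdef
  have hznorm : ‖z‖ = r := by rw [hzdef, norm_circleMap_zero, abs_of_nonneg hr0]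
  have hz : ‖z‖ < 1 := by rw [hznorm]; exact hr1
  have hzb : z ∈ ball (0:ℂ) 1 := by simpa using hz
  set δ := 1 - r with hδ
  have hδ0 : 0 < δ := by linarith
  set D := ‖deriv φ z‖ with hD
  have hder : deriv φ z ≠ 0 :=
    UnivAux.deriv_ne_zero isOpen_ball hφd (hφi.mono ball_subset_closedBall) hzb
  have hD0 : 0 < D := norm_pos_iff.2 hder
  set d₀ := c * δ * D with hd₀
  have hd₀0 : 0 < d₀ := by positivity
  -- (1) Koebe
  have h1 : ∀ w : ℂ, ‖w‖ = 1 → d₀ ≤ ‖φ w - φ z‖ := by
    intro w hw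
    have hsub : ball z δ ⊆ ball 0 1 := by
      apply ball_subset_ball'
      rw [dist_zero_right, hznorm]
      linarith
    rw [norm_sub_rev]
    apply hyp φ z δ hδ0 (hφd.mono hsub) (hφi.mono (hsub.trans ball_subset_closedBall))
    rintro ⟨x, hx, hxw⟩
    have hx1 := hsub hx
    have := hφi (ball_subset_closedBall hx1) (by simp [hw]) hxw
    rw [this] at hx1
    simp [hw] at hx1
  -- (2) the function Q
  set Q : ℂ → ℂ := fun w => dslope φ z w * (1 - (starRingEnd ℂ) z * w) with hQ
  have hfac : ∀ w : ℂ, ‖w‖ ≤ 1 → 1 - (starRingEnd ℂ) z * w ≠ 0 := by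
    intro w hw h
    have e : (starRingEnd ℂ) z * w = 1 := by rw [sub_eq_zero] at h; exact h.symm
    have e2 : ‖(starRingEnd ℂ) z * w‖ ≤ r * 1 := by
      rw [norm_mul, RCLike.norm_conj, hznorm]
      gcongr
    rw [e, norm_one] at e2
    linarith
  have hsl : ∀ w : ℂ, ‖w‖ ≤ 1 → dslope φ z w ≠ 0 := by
    intro w hw
    by_cases hwz : w = z
    · rw [hwz, dslope_same]; exact hder
    · rw [dslope_of_ne _ hwz, slope_def_field]
      apply div_ne_zero _ (sub_ne_zero.2 hwz)
      rw [sub_ne_zero]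
      intro h
      exact hwz (hφi (by simpa using hw) (ball_subset_closedBall hzb) h)
  have hQ0 : ∀ w : ℂ, ‖w‖ ≤ 1 → Q w ≠ 0 := fun w hw => mul_ne_zero (hsl w hw) (hfac w hw)
  have hQd : DifferentiableOn ℂ Q (ball 0 1) := by
    apply DifferentiableOn.mul
    · exact (Complex.differentiableOn_dslope (isOpen_ball.mem_nhds hzb)).2 hφd
    · fun_prop
  have hQc : ContinuousOn Q (closedBall 0 1) := by
    apply ContinuousOn.mul
    · have hmem : closedBall (0:ℂ) 1 ∈ 𝓝 z :=
        Filter.mem_of_superset (isOpen_ball.mem_nhds hzb) ball_subset_closedBall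
      exact (continuousOn_dslope hmem).2
        ⟨hφc, (hφd.differentiableAt (isOpen_ball.mem_nhds hzb))⟩
    · fun_prop
  set u : ℂ → ℝ := fun w => Real.log ‖Q w‖ with hu
  have hharm : HarmonicContOnCl u (ball 0 1) := by
    apply HarmonicContOnCl.mk_ball
    · intro w hw
      apply AnalyticAt.harmonicAt_log_norm
      · exact hQd.analyticAt (isOpen_ball.mem_nhds hw)
      · exact hQ0 w (by simpa using (mem_ball_zero_iff.1 hw).le)
    · apply ContinuousOn.log hQc.norm
      intro w hw
      rw [norm_ne_zero_iff]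
      exact hQ0 w (by simpa using hw)
  have hus : ∀ w : ℂ, ‖w‖ = 1 → u w = Real.log ‖φ w - φ z‖ := by
    intro w hw
    have hwz : w ≠ z := by rintro rfl; linarith
    simp only [hu, hQ]
    congr 1
    rw [norm_mul, dslope_of_ne _ hwz, slope_def_field, norm_div]
    have e : ‖1 - (starRingEnd ℂ) z * w‖ = ‖w - z‖ := by
      have e1 : (starRingEnd ℂ) w * w = 1 := by
        rw [mul_comm, Complex.mul_conj, Complex.normSq_eq_norm_sq, hw]; simp
      have e2 : 1 - (starRingEnd ℂ) z * w = (starRingEnd ℂ) (w - z) * w := by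
        rw [map_sub, sub_mul, e1]
      rw [e2, norm_mul, RCLike.norm_conj, hw, mul_one]
    rw [e, div_mul_cancel₀]
    rw [norm_ne_zero_iff]
    exact sub_ne_zero.2 hwz
  have huz : u z = Real.log (D * (1 - r ^ 2)) := by
    simp only [hu, hQ, dslope_same]
    rw [norm_mul, mul_comm ((starRingEnd ℂ) z) z, Complex.mul_conj, Complex.normSq_eq_norm_sq, hznorm]
    have : (1 - ((r ^ 2 : ℝ) : ℂ)) = ((1 - r ^ 2 : ℝ) : ℂ) := by push_cast; ring
    rw [this, Complex.norm_real, Real.norm_of_nonneg (by nlinarith)]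
  have hr2 : 0 < 1 - r ^ 2 := by nlinarith
  -- (3) nearest point
  obtain ⟨w₀, hw₀, hmin⟩ := (isCompact_sphere (0:ℂ) 1).exists_isMinOn
    (f := fun w => ‖φ w - φ z‖) ⟨1, by simp⟩
    ((hφc.mono sphere_subset_closedBall).sub continuousOn_const).norm
  have hw₀1 : ‖w₀‖ = 1 := by simpa using hw₀
  set m₀ := ‖φ w₀ - φ z‖ with hm₀
  have hm₀0 : 0 < m₀ := lt_of_lt_of_le hd₀0 (h1 w₀ hw₀1)
  have h3 : m₀ ≤ D * (1 - r ^ 2) := by
    have h := harm_nonneg hz (v := u - fun _ => Real.log m₀) (hharm.sub_const _) (by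
      intro w hw
      simp only [Pi.sub_apply]
      rw [hus w hw, sub_nonneg]
      apply Real.log_le_log hm₀0
      exact hmin (by simpa using hw))
    simp only [Pi.sub_apply] at h
    rw [huz, sub_nonneg] at h
    exact (Real.log_le_log_iff hm₀0 (by positivity)).1 h
  have h3' : m₀ ≤ 2 * δ * D := by
    have : 1 - r ^ 2 ≤ 2 * δ := by rw [hδ]; nlinarith
    nlinarith
  refine ⟨φ w₀, ⟨w₀, hw₀, rfl⟩, h3', ?_⟩
  -- (4)
  have h4 := harm_local (θ := θ) hr0 hr1 (v := u - fun _ => Real.log d₀) (hharm.sub_const _) (by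
      intro w hw
      simp only [Pi.sub_apply]
      rw [hus w hw, sub_nonneg]
      exact Real.log_le_log hd₀0 (h1 w hw))
  simp only [Pi.sub_apply] at h4
  rw [← hzdef, ← hδ, huz, ← Real.log_div (by positivity) (by positivity)] at h4
  have h5 : Real.log (D * (1 - r ^ 2) / d₀) ≤ L := by
    apply Real.log_le_log (by positivity)
    rw [hd₀, div_le_div_iff₀ (by positivity) hc]
    have : 1 - r ^ 2 ≤ 2 * δ := by rw [hδ]; nlinarith
    have h6 : 0 < D * c := by positivity
    nlinarith
  set g : ℝ → ℝ := fun t => u (circleMap 0 1 t) - Real.log d₀ with hg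
  have hgc : Continuous g := by
    have hvc : ContinuousOn u (sphere 0 1) :=
      hharm.continuousOn_ball.mono sphere_subset_closedBall
    have : Continuous fun t : ℝ => u (circleMap 0 1 t) :=
      hvc.comp_continuous (continuous_circleMap 0 1) fun t => circleMap_mem_sphere 0 zero_le_one t
    exact this.sub continuous_const
  have hgs : ∀ t, g t = Real.log (‖φ (circleMap 0 1 t) - φ z‖ / d₀) := by
    intro t
    have hn : ‖circleMap 0 1 t‖ = 1 := by simp
    simp only [hg]
    rw [hus _ hn, Real.log_div (ne_of_gt (lt_of_lt_of_le hd₀0 (h1 _ hn))) hd₀0.ne']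
  have hg0 : ∀ t, 0 ≤ g t := by
    intro t
    have hn : ‖circleMap 0 1 t‖ = 1 := by simp
    simp only [hg]
    rw [hus _ hn, sub_nonneg]
    exact Real.log_le_log hd₀0 (h1 _ hn)
  have h7 : ∫ t in Icc (θ - δ) (θ + δ), g t ≤ 8 * Real.pi * δ * L := by
    rw [integral_Icc_eq_integral_Ioc, ← intervalIntegral.integral_of_le (by linarith)]
    refine h4.trans ?_
    gcongr
  have h8 := mul_meas_ge_le_integral_of_nonneg (μ := volume.restrict (Icc (θ - δ) (θ + δ)))
    (f := g) (Filter.Eventually.of_forall hg0) (hgc.continuousOn.integrableOn_compact isCompact_Icc)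
    (8 * Real.pi * L)
  set B := {t | 8 * Real.pi * L ≤ g t} with hB
  have h9 : (volume.restrict (Icc (θ - δ) (θ + δ))).real B ≤ δ := by
    have hpos : 0 < 8 * Real.pi * L := by positivity
    have h10 := h8.trans h7
    have h11 : 8 * Real.pi * L * (volume.restrict (Icc (θ - δ) (θ + δ))).real B ≤
      8 * Real.pi * L * δ := by linarith
    exact le_of_mul_le_mul_left h11 hpos
  have hBm : MeasurableSet B := measurableSet_le measurable_const hgc.measurable
  have h10 : volume (B ∩ Icc (θ - δ) (θ + δ)) ≤ ENNReal.ofReal δ := by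
    rw [← Measure.restrict_apply hBm]
    rw [Measure.real] at h9
    exact (ENNReal.le_ofReal_iff_toReal_le (measure_ne_top _ _) hδ0.le).2 h9
  set G := {t ∈ Icc (θ - δ) (θ + δ) |
          ‖φ (circleMap 0 1 t) - φ w₀‖ ≤ (K' + 2) * (δ * D)} with hG
  have h11 : Icc (θ - δ) (θ + δ) ⊆ G ∪ (B ∩ Icc (θ - δ) (θ + δ)) := by
    intro t ht
    by_cases htB : t ∈ B
    · exact Or.inr ⟨htB, ht⟩
    · left
      refine ⟨ht, ?_⟩
      have hn : ‖circleMap 0 1 t‖ = 1 := by simp
      have h12 : ‖φ (circleMap 0 1 t) - φ z‖ ≤ K' * d₀ := by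
        have h13 : g t < 8 * Real.pi * L := not_le.1 htB
        rw [hgs, Real.log_lt_iff_lt_exp
          (div_pos (lt_of_lt_of_le hd₀0 (h1 _ hn)) hd₀0), div_lt_iff₀ hd₀0] at h13
        exact h13.le
      have h14 : K' * d₀ ≤ K' * (δ * D) := by
        have : d₀ ≤ δ * D := by
          rw [hd₀]
          have : 0 < δ * D := by positivity
          nlinarith
        gcongr
      calc ‖φ (circleMap 0 1 t) - φ w₀‖ = ‖(φ (circleMap 0 1 t) - φ z) - (φ w₀ - φ z)‖ := by
            congr 1; ring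
        _ ≤ ‖φ (circleMap 0 1 t) - φ z‖ + m₀ := norm_sub_le _ _
        _ ≤ K' * (δ * D) + 2 * δ * D := by linarith
        _ = (K' + 2) * (δ * D) := by ring
  have h12 : volume (Icc (θ - δ) (θ + δ)) ≤ volume G + ENNReal.ofReal δ :=
    (measure_mono h11).trans ((measure_union_le _ _).trans (by gcongr))
  rw [Real.volume_Icc, show θ + δ - (θ - δ) = δ + δ by ring,
    ENNReal.ofReal_add hδ0.le hδ0.le] at h12
  exact (ENNReal.add_le_add_iff_right ENNReal.ofReal_ne_top).1 h12

end P368
end Pool.Agent.Helper311.Nev
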