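import Mathlib
import Pool.Agent.Helper311.Nev.Ker

open MeasureTheory Set Filter Topology Metric
open scoped ENNReal NNReal

namespace Pool.Agent.Helper311.Nev
namespace P370


/-- difference kernel -/
noncomputable def rmK (z ζ : ℂ) : ℂ :=
  ((ζ - z)⁻¹) ^ 2 - ((starRingEnd ℂ) z / (1 - (starRingEnd ℂ) z * ζ)) ^ 2

theorem rm_repr (φ : ℂ → ℂ) (hc : ContinuousOn φ (closedBall 0 1))
    (hd : DifferentiableOn ℂ φ (ball 0 1)) (z : ℂ) (hz : z ∈ ball (0 : ℂ) 1) (c : ℂ) :
    (∮ ζ in C(0, 1), (φ ζ - c) * rmK z ζ) = (2 * Real.pi * Complex.I) * deriv φ z := by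
  have hzn : ‖z‖ < 1 := by simpa using hz
  have hzb : closedBall (0 : ℂ) 1 ∈ 𝓝 z := closedBall_mem_nhds_of_mem hz
  have hdz : DifferentiableAt ℂ φ z := hd.differentiableAt (isOpen_ball.mem_nhds hz)
  have hsub : sphere (0 : ℂ) 1 ⊆ closedBall 0 1 := sphere_subset_closedBall
  have hne1 : ∀ ζ ∈ sphere (0 : ℂ) 1, ζ - z ≠ 0 := by
    intro ζ hζ h
    rw [sub_eq_zero] at h
    rw [h] at hζ
    simp at hζ
    linarith
  have hne2 : ∀ ζ ∈ closedBall (0 : ℂ) 1, 1 - (starRingEnd ℂ) z * ζ ≠ 0 := by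
    intro ζ hζ h
    rw [sub_eq_zero] at h
    have h2 : ‖(starRingEnd ℂ) z * ζ‖ = 1 := by rw [← h]; simp
    rw [norm_mul, RCLike.norm_conj] at h2
    have h3 : ‖ζ‖ ≤ 1 := by simpa using hζ
    have := norm_nonneg z
    have := norm_nonneg ζ
    nlinarith
  have hds : ContinuousOn (dslope φ z) (closedBall 0 1) := (continuousOn_dslope hzb).mpr ⟨hc, hdz⟩
  have h1 : (∮ ζ in C(0, 1), (ζ - z)⁻¹ • dslope φ z ζ) = (2 * Real.pi * Complex.I) * deriv φ z := by
    have := Complex.circleIntegral_sub_inv_smul_of_differentiable_on_off_countable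
      (f := dslope φ z) (countable_singleton z) hz hds (by
        rintro x ⟨hx, hxz⟩
        rw [differentiableAt_dslope_of_ne (by simpa using hxz)]
        exact hd.differentiableAt (isOpen_ball.mem_nhds hx))
    rw [dslope_same, smul_eq_mul] at this
    exact this
  have h2 : (∮ ζ in C(0, 1), (φ z - c) * (ζ - z) ^ (-2 : ℤ)) = 0 := by
    rw [circleIntegral.integral_const_mul, circleIntegral.integral_sub_zpow_of_ne (by norm_num)]
    simp
  have h3 : (∮ ζ in C(0, 1), (φ ζ - c) *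
      ((starRingEnd ℂ) z / (1 - (starRingEnd ℂ) z * ζ)) ^ 2) = 0 := by
    apply Complex.circleIntegral_eq_zero_of_differentiable_on_off_countable zero_le_one
      countable_empty
    · apply (hc.sub continuousOn_const).mul
      apply ContinuousOn.pow
      apply continuousOn_const.div _ hne2
      exact (continuous_const.sub (continuous_const.mul continuous_id)).continuousOn
    · rintro x ⟨hx, -⟩
      have hn := hne2 x (ball_subset_closedBall hx)
      have hφx : DifferentiableAt ℂ φ x := hd.differentiableAt (isOpen_ball.mem_nhds hx)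
      fun_prop (disch := exact hn)
  have c1 : ContinuousOn (fun ζ => (ζ - z)⁻¹ • dslope φ z ζ) (sphere 0 1) := by
    have h5 : ContinuousOn (fun ζ : ℂ => (ζ - z)⁻¹) (sphere 0 1) :=
      ((continuous_id.sub continuous_const).continuousOn).inv₀ hne1
    exact ContinuousOn.fun_smul h5 (hds.mono hsub)
  have c2 : ContinuousOn (fun ζ : ℂ => (φ z - c) * (ζ - z) ^ (-2 : ℤ)) (sphere 0 1) := by
    apply continuousOn_const.mul
    apply ContinuousOn.zpow₀ ((continuous_id.sub continuous_const).continuousOn)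
    intro a ha
    exact Or.inl (hne1 a ha)
  have c3 : ContinuousOn (fun ζ : ℂ => (φ ζ - c) *
      ((starRingEnd ℂ) z / (1 - (starRingEnd ℂ) z * ζ)) ^ 2) (sphere 0 1) := by
    apply ((hc.mono hsub).sub continuousOn_const).mul
    apply ContinuousOn.pow
    apply continuousOn_const.div _ (fun ζ hζ => hne2 ζ (hsub hζ))
    exact (continuous_const.sub (continuous_const.mul continuous_id)).continuousOn
  have i1 := c1.circleIntegrable zero_le_one
  have i2 := c2.circleIntegrable zero_le_one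
  have i3 := c3.circleIntegrable zero_le_one
  have e : (∮ ζ in C(0, 1), (φ ζ - c) * rmK z ζ) =
      (∮ ζ in C(0, 1), ((ζ - z)⁻¹ • dslope φ z ζ + (φ z - c) * (ζ - z) ^ (-2 : ℤ)) -
        (φ ζ - c) * ((starRingEnd ℂ) z / (1 - (starRingEnd ℂ) z * ζ)) ^ 2) := by
    apply circleIntegral.integral_congr zero_le_one
    intro ζ hζ
    have hn := hne1 ζ hζ
    have hn' : ζ ≠ z := sub_ne_zero.mp hn
    simp only [rmK, smul_eq_mul]
    rw [dslope_of_ne _ hn', slope_def_field]
    have : (ζ - z) ^ (-2 : ℤ) = ((ζ - z)⁻¹) ^ 2 := by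
      rw [zpow_neg, inv_pow]; norm_cast
    rw [this]
    field_simp
    ring
  have j1 := circleIntegral.integral_sub (i1.add i2) i3
  simp only [Pi.add_apply] at j1
  rw [e, j1, circleIntegral.integral_add i1 i2, h1, h2, h3]
  ring

theorem rm_kernel (z ζ : ℂ) (hz : ‖z‖ < 1) (hζ : ‖ζ‖ = 1) :
    ‖rmK z ζ‖ ≤ 4 * (1 - ‖z‖) / ‖ζ - z‖ ^ 3 := by
  have hne1 : ζ - z ≠ 0 := by
    intro h
    rw [sub_eq_zero] at h
    rw [h] at hζ
    linarith
  have hzz : ζ * (starRingEnd ℂ) ζ = 1 := by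
    rw [Complex.mul_conj']; rw [hζ]; norm_num
  have e1 : 1 - (starRingEnd ℂ) z * ζ = ζ * (starRingEnd ℂ) (ζ - z) := by
    rw [map_sub, mul_sub, hzz]; ring
  have hζ0 : ζ ≠ 0 := by
    intro h; rw [h] at hζ; simp at hζ
  have hne2 : 1 - (starRingEnd ℂ) z * ζ ≠ 0 := by
    rw [e1]
    apply mul_ne_zero hζ0
    rwa [Ne, map_eq_zero]
  have n1 : ‖1 - (starRingEnd ℂ) z * ζ‖ = ‖ζ - z‖ := by
    rw [e1, norm_mul, hζ, RCLike.norm_conj, one_mul]
  have hD : 0 < ‖ζ - z‖ := norm_pos_iff.mpr hne1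
  have e2 : rmK z ζ = ((1 - ‖z‖ ^ 2 : ℝ) : ℂ) / ((ζ - z) * (1 - (starRingEnd ℂ) z * ζ)) *
      ((ζ - z)⁻¹ - (starRingEnd ℂ) z / (1 - (starRingEnd ℂ) z * ζ)) := by
    have e3 : ((1 - ‖z‖ ^ 2 : ℝ) : ℂ) = 1 - z * (starRingEnd ℂ) z := by
      rw [Complex.mul_conj']; push_cast; ring
    rw [e3]
    unfold rmK
    set x := (ζ - z)⁻¹ with hx
    set a := 1 - (starRingEnd ℂ) z * ζ with ha
    have hxy : (1 - z * (starRingEnd ℂ) z) / ((ζ - z) * a) = x + (starRingEnd ℂ) z / a := by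
      rw [hx]
      field_simp
      rw [ha]
      ring
    rw [hxy]
    ring
  rw [e2, norm_mul, norm_div, Complex.norm_real, norm_mul, n1, Real.norm_of_nonneg (by
    have := norm_nonneg z
    nlinarith)]
  have h4 : ‖(ζ - z)⁻¹ - (starRingEnd ℂ) z / (1 - (starRingEnd ℂ) z * ζ)‖ ≤ 2 / ‖ζ - z‖ := by
    refine (norm_sub_le _ _).trans ?_
    rw [norm_inv, norm_div, RCLike.norm_conj, n1]
    have : ‖z‖ / ‖ζ - z‖ ≤ 1 / ‖ζ - z‖ := by gcongr
    calc ‖ζ - z‖⁻¹ + ‖z‖ / ‖ζ - z‖ ≤ ‖ζ - z‖⁻¹ + 1 / ‖ζ - z‖ := by linarith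
      _ = 2 / ‖ζ - z‖ := by ring
  have h5 : 1 - ‖z‖ ^ 2 ≤ 2 * (1 - ‖z‖) := by
    have := norm_nonneg z
    nlinarith [sq_nonneg (1 - ‖z‖)]
  calc (1 - ‖z‖ ^ 2) / (‖ζ - z‖ * ‖ζ - z‖) *
        ‖(ζ - z)⁻¹ - (starRingEnd ℂ) z / (1 - (starRingEnd ℂ) z * ζ)‖
      ≤ (2 * (1 - ‖z‖)) / (‖ζ - z‖ * ‖ζ - z‖) * (2 / ‖ζ - z‖) := by
        apply mul_le_mul _ h4 (norm_nonneg _) _
        · gcongr
        · apply div_nonneg
          · linarith
          · positivity
    _ = 4 * (1 - ‖z‖) / ‖ζ - z‖ ^ 3 := by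
        field_simp
        ring

theorem rm_dist (r θ t : ℝ) (hr0 : 0 ≤ r) (hr1 : r < 1) (ht : |t - θ| ≤ Real.pi) :
    1 - r ≤ ‖circleMap 0 1 t - circleMap 0 r θ‖ ∧
    |t - θ| ≤ Real.pi * ‖circleMap 0 1 t - circleMap 0 r θ‖ := by
  have h1 : 1 - r ≤ ‖circleMap 0 1 t - circleMap 0 r θ‖ := by
    have := norm_sub_norm_le (circleMap 0 1 t) (circleMap 0 r θ)
    simp only [norm_circleMap_zero] at this
    rw [abs_one, abs_of_nonneg hr0] at this
    exact this
  refine ⟨h1, ?_⟩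
  have h2 : ‖circleMap 0 r θ - circleMap 0 1 θ‖ = 1 - r := by
    simp only [circleMap, zero_add]
    rw [← sub_mul, norm_mul, Complex.norm_exp_ofReal_mul_I, mul_one, ← Complex.ofReal_sub,
      Complex.norm_real, Real.norm_eq_abs, abs_sub_comm, abs_of_nonneg (by linarith)]
  have h3 : ‖circleMap 0 1 t - circleMap 0 1 θ‖ = 2 * |Real.sin ((t - θ) / 2)| := by
    simp only [circleMap, zero_add, Complex.ofReal_one, one_mul]
    have e : Complex.exp (t * Complex.I) - Complex.exp (θ * Complex.I) =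
        Complex.exp (θ * Complex.I) * (Complex.exp (Complex.I * ((t - θ : ℝ) : ℂ)) - 1) := by
      rw [mul_sub, ← Complex.exp_add, mul_one]
      congr 2
      push_cast; ring
    rw [e, norm_mul, Complex.norm_exp_ofReal_mul_I, one_mul,
      Complex.norm_exp_I_mul_ofReal_sub_one]
    rw [Real.norm_eq_abs, abs_mul, abs_of_pos (by norm_num : (0:ℝ) < 2)]
  have h4 : 2 / Real.pi * |(t - θ) / 2| ≤ |Real.sin ((t - θ) / 2)| := by
    apply Real.mul_abs_le_abs_sin
    rw [abs_div, abs_of_pos (by norm_num : (0:ℝ) < 2)]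
    linarith
  have h5 : ‖circleMap 0 1 t - circleMap 0 1 θ‖ ≤
      ‖circleMap 0 1 t - circleMap 0 r θ‖ + ‖circleMap 0 r θ - circleMap 0 1 θ‖ := by
    have := norm_add_le (circleMap 0 1 t - circleMap 0 r θ) (circleMap 0 r θ - circleMap 0 1 θ)
    simpa using this
  rw [h3, h2] at h5
  rw [abs_div, abs_of_pos (by norm_num : (0:ℝ) < 2)] at h4
  have hpi := Real.pi_pos
  have h6 : 2 / Real.pi * (|t - θ| / 2) = |t - θ| / Real.pi := by
    field_simp
  rw [h6, div_le_iff₀ hpi] at h4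
  nlinarith

theorem rm_integral (δ θ : ℝ) (hδ : 0 < δ) :
    ∫ t in (θ - Real.pi)..(θ + Real.pi), δ / (δ ^ 2 + ((t - θ) / Real.pi) ^ 2) ≤
      Real.pi ^ 2 := by
  have hpi := Real.pi_pos
  have e1 : ∫ t in (θ - Real.pi)..(θ + Real.pi), δ / (δ ^ 2 + ((t - θ) / Real.pi) ^ 2) =
      ∫ t in (-Real.pi)..Real.pi, δ / (δ ^ 2 + (t / Real.pi) ^ 2) := by
    have := intervalIntegral.integral_comp_sub_right (a := θ - Real.pi) (b := θ + Real.pi)
      (fun t => δ / (δ ^ 2 + (t / Real.pi) ^ 2)) θ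
    rw [this]
    congr 1 <;> ring
  have e2 : ∫ t in (-Real.pi)..Real.pi, δ / (δ ^ 2 + (t / Real.pi) ^ 2) =
      Real.pi * ∫ y in (-Real.pi / (Real.pi * δ))..(Real.pi / (Real.pi * δ)), (1 + y ^ 2)⁻¹ := by
    have h3 := intervalIntegral.integral_comp_div (a := -Real.pi) (b := Real.pi)
      (fun y => δ⁻¹ * (1 + y ^ 2)⁻¹) (c := Real.pi * δ) (by positivity)
    have h4 : ∫ t in (-Real.pi)..Real.pi, δ / (δ ^ 2 + (t / Real.pi) ^ 2) =
        ∫ t in (-Real.pi)..Real.pi, (fun y => δ⁻¹ * (1 + y ^ 2)⁻¹) (t / (Real.pi * δ)) := by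
      apply intervalIntegral.integral_congr
      intro t _
      simp only
      have hne : δ ^ 2 + (t / Real.pi) ^ 2 ≠ 0 := by positivity
      have hne2 : 1 + (t / (Real.pi * δ)) ^ 2 ≠ 0 := by positivity
      field_simp
    rw [h4, h3, intervalIntegral.integral_const_mul, smul_eq_mul]
    field_simp
  rw [e1, e2, integral_inv_one_add_sq]
  have h1 := Real.arctan_lt_pi_div_two (Real.pi / (Real.pi * δ))
  have h2 := Real.neg_pi_div_two_lt_arctan (-Real.pi / (Real.pi * δ))
  nlinarith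

theorem rm_deriv_bound (φ : ℂ → ℂ) (hc : ContinuousOn φ (closedBall 0 1))
    (hd : DifferentiableOn ℂ φ (ball 0 1)) (r θ : ℝ) (hr0 : 0 ≤ r) (hr1 : r < 1) (L : ℝ)
    (hL : 0 ≤ L) (hγ : ∀ t, |t - θ| ≤ Real.pi →
      ‖φ (circleMap 0 1 t) - φ (circleMap 0 1 θ)‖ ≤ L * |t - θ|) :
    ‖deriv φ (circleMap 0 r θ)‖ ≤ 4 * Real.pi ^ 2 * L := by
  have hpi := Real.pi_pos
  set z := circleMap 0 r θ with hz
  set c := φ (circleMap 0 1 θ) with hcdef
  have hzn : ‖z‖ = r := by
    rw [hz, norm_circleMap_zero, abs_of_nonneg hr0]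
  have hzb : z ∈ ball (0 : ℂ) 1 := by simp [hzn, hr1]
  have h := rm_repr φ hc hd z hzb c
  set F : ℝ → ℂ := fun t => deriv (circleMap 0 1) t •
    ((φ (circleMap 0 1 t) - c) * rmK z (circleMap 0 1 t)) with hF
  have hper : Function.Periodic F (2 * Real.pi) := by
    intro t
    simp only [hF, deriv_circleMap, (periodic_circleMap 0 1) t]
  have h1 : (∮ ζ in C(0, 1), (φ ζ - c) * rmK z ζ) =
      ∫ t in (θ - Real.pi)..(θ + Real.pi), F t := by
    have h2 := hper.intervalIntegral_add_eq 0 (θ - Real.pi)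
    rw [zero_add, show θ - Real.pi + 2 * Real.pi = θ + Real.pi by ring] at h2
    rw [← h2]
    rfl
  rw [h1] at h
  set δ := 1 - r with hδ
  have hδpos : 0 < δ := by linarith
  set g : ℝ → ℝ := fun t => 8 * Real.pi * L * (δ / (δ ^ 2 + ((t - θ) / Real.pi) ^ 2)) with hg
  have hbound : ∀ t, |t - θ| ≤ Real.pi → ‖F t‖ ≤ g t := by
    intro t ht
    obtain ⟨hD1, hD2⟩ := rm_dist r θ t hr0 hr1 ht
    set D := ‖circleMap 0 1 t - circleMap 0 r θ‖ with hD
    have hDpos : 0 < D := lt_of_lt_of_le hδpos hD1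
    have hK := rm_kernel z (circleMap 0 1 t) (by rw [hzn]; exact hr1) (by simp)
    rw [hzn] at hK
    have hn : ‖F t‖ = ‖φ (circleMap 0 1 t) - c‖ * ‖rmK z (circleMap 0 1 t)‖ := by
      simp only [hF, norm_smul, norm_mul, deriv_circleMap, norm_circleMap_zero, Complex.norm_I]
      norm_num
    rw [hn]
    have hq : ((t - θ) / Real.pi) ^ 2 ≤ D ^ 2 := by
      rw [div_pow, ← sq_abs (t - θ), ← div_pow]
      apply pow_le_pow_left₀ (by positivity)
      rw [div_le_iff₀ hpi]
      linarith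
    have hden : 0 < δ ^ 2 + ((t - θ) / Real.pi) ^ 2 := by positivity
    have hDsq : δ ^ 2 + ((t - θ) / Real.pi) ^ 2 ≤ 2 * D ^ 2 := by nlinarith
    calc ‖φ (circleMap 0 1 t) - c‖ * ‖rmK z (circleMap 0 1 t)‖
        ≤ (L * (Real.pi * D)) * (4 * δ / D ^ 3) := by
          apply mul_le_mul _ hK (norm_nonneg _) (by positivity)
          exact (hγ t ht).trans (mul_le_mul_of_nonneg_left hD2 hL)
      _ = 8 * Real.pi * L * (δ / (2 * D ^ 2)) := by
          field_simp
          ring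
      _ ≤ 8 * Real.pi * L * (δ / (δ ^ 2 + ((t - θ) / Real.pi) ^ 2)) := by
          gcongr
  have hgc : Continuous g := by
    simp only [hg]
    apply continuous_const.mul
    apply continuous_const.div
    · fun_prop
    · intro t
      positivity
  have h3 : ‖∫ t in (θ - Real.pi)..(θ + Real.pi), F t‖ ≤
      ∫ t in (θ - Real.pi)..(θ + Real.pi), g t := by
    apply intervalIntegral.norm_integral_le_of_norm_le (by linarith)
    · apply Filter.Eventually.of_forall
      intro t ht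
      apply hbound
      rw [abs_le]
      constructor
      · linarith [ht.1]
      · linarith [ht.2]
    · exact hgc.intervalIntegrable _ _
  have h4 : ∫ t in (θ - Real.pi)..(θ + Real.pi), g t ≤ 8 * Real.pi * L * Real.pi ^ 2 := by
    simp only [hg]
    rw [intervalIntegral.integral_const_mul]
    exact mul_le_mul_of_nonneg_left (rm_integral δ θ hδpos) (by positivity)
  have h5 : ‖(2 * Real.pi * Complex.I) * deriv φ z‖ = 2 * Real.pi * ‖deriv φ z‖ := by
    rw [norm_mul, norm_mul, norm_mul, Complex.norm_I, Complex.norm_real,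
      Real.norm_of_nonneg hpi.le]
    norm_num
  rw [h] at h3
  rw [h5] at h3
  have h6 : 2 * Real.pi * ‖deriv φ z‖ ≤ 2 * Real.pi * (4 * Real.pi ^ 2 * L) := by
    calc 2 * Real.pi * ‖deriv φ z‖ ≤ 8 * Real.pi * L * Real.pi ^ 2 := h3.trans h4
      _ = _ := by ring
  exact le_of_mul_le_mul_left h6 (by positivity)

theorem rm_bv (γ : ℝ → ℂ) (hper : Function.Periodic γ (2 * Real.pi)) (B : ℝ≥0∞)
    (hB : eVariationOn γ (Icc 0 (2 * Real.pi)) ≤ B) :
    eVariationOn γ (Icc (-(2 * Real.pi)) (4 * Real.pi)) ≤ 3 * B := by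
  have hpi := Real.pi_pos
  have e1 : eVariationOn γ (Icc (-(2 * Real.pi)) 0) = eVariationOn γ (Icc 0 (2 * Real.pi)) := by
    have h := eVariationOn.comp_eq_of_monotoneOn γ (t := Icc 0 (2 * Real.pi))
      (fun t => t - 2 * Real.pi) (fun a _ b _ hab => by simpa using hab)
    have h2 : γ ∘ (fun t => t - 2 * Real.pi) = γ := by
      funext t
      simp only [Function.comp]
      exact hper.sub_eq t
    rw [h2, image_sub_const_Icc] at h
    rw [h]
    congr 2 <;> ring
  have e2 : eVariationOn γ (Icc (2 * Real.pi) (4 * Real.pi)) =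
      eVariationOn γ (Icc 0 (2 * Real.pi)) := by
    have h := eVariationOn.comp_eq_of_monotoneOn γ (t := Icc 0 (2 * Real.pi))
      (fun t => t + 2 * Real.pi) (fun a _ b _ hab => by simpa using hab)
    have h2 : γ ∘ (fun t => t + 2 * Real.pi) = γ := by
      funext t
      simp only [Function.comp]
      exact hper t
    rw [h2, image_add_const_Icc] at h
    rw [h]
    congr 2 <;> ring
  have s1 := eVariationOn.Icc_add_Icc γ (s := univ) (a := -(2 * Real.pi)) (b := 0)
    (c := 2 * Real.pi) (by linarith) (by linarith) (mem_univ _)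
  have s2 := eVariationOn.Icc_add_Icc γ (s := univ) (a := -(2 * Real.pi)) (b := 2 * Real.pi)
    (c := 4 * Real.pi) (by linarith) (by linarith) (mem_univ _)
  simp only [univ_inter] at s1 s2
  rw [← s2, ← s1, e1, e2]
  calc eVariationOn γ (Icc 0 (2 * Real.pi)) + eVariationOn γ (Icc 0 (2 * Real.pi)) +
      eVariationOn γ (Icc 0 (2 * Real.pi)) ≤ B + B + B := by gcongr
    _ = 3 * B := by ring

/-- F : radial maximal function of the derivative -/
theorem radial_max : ∃ C : ℝ, 0 < C ∧ ∀ φ : ℂ → ℂ, ContinuousOn φ (closedBall 0 1) →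
    DifferentiableOn ℂ φ (ball 0 1) → ∀ V : ℝ, 0 ≤ V →
    eVariationOn (fun t : ℝ => φ (circleMap 0 1 t)) (Icc 0 (2 * Real.pi)) ≤ ENNReal.ofReal V →
    ∀ Λ : ℝ, 0 < Λ →
      volume {θ ∈ Icc 0 (2 * Real.pi) | ∃ r ∈ Ico (0 : ℝ) 1,
        Λ < ‖deriv φ (circleMap 0 r θ)‖} ≤ ENNReal.ofReal (C * V / Λ) := by
  have hpi := Real.pi_pos
  refine ⟨120 * Real.pi ^ 2, by positivity, ?_⟩
  intro φ hc hd V hV hvar Λ hΛ
  set γ : ℝ → ℂ := fun t => φ (circleMap 0 1 t) with hγdef
  have hper : Function.Periodic γ (2 * Real.pi) := by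
    intro t
    simp only [hγdef, (periodic_circleMap 0 1) t]
  have hbv := rm_bv γ hper _ hvar
  have hfin : eVariationOn γ (Icc (-(2 * Real.pi)) (4 * Real.pi)) ≠ ∞ :=
    ne_top_of_le_ne_top (ENNReal.mul_ne_top (by norm_num) ENNReal.ofReal_ne_top) hbv
  set v : ℝ → ℝ := fun t => (eVariationOn γ (Icc (-(2 * Real.pi)) t)).toReal with hv
  have hvfin : ∀ t, t ≤ 4 * Real.pi → eVariationOn γ (Icc (-(2 * Real.pi)) t) ≠ ∞ := by
    intro t ht
    exact ne_top_of_le_ne_top hfin (eVariationOn.mono γ (Icc_subset_Icc le_rfl ht))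
  have hvmono : ∀ s t, s ≤ t → t ≤ 4 * Real.pi → v s ≤ v t := by
    intro s t hst ht
    simp only [hv]
    exact ENNReal.toReal_mono (hvfin t ht) (eVariationOn.mono γ (Icc_subset_Icc le_rfl hst))
  have hvinc : ∀ a b s t, -(2 * Real.pi) ≤ a → a ≤ b → b ≤ 4 * Real.pi → s ∈ Icc a b → t ∈ Icc a b →
      ‖γ t - γ s‖ ≤ v b - v a := by
    intro a b s t ha hab hb hs ht
    have h1 := eVariationOn.Icc_add_Icc γ (s := univ) ha hab (mem_univ _)
    simp only [univ_inter] at h1
    have h2 : v b = v a + (eVariationOn γ (Icc a b)).toReal := by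
      simp only [hv]
      rw [← h1, ENNReal.toReal_add (hvfin a (by linarith))]
      exact ne_top_of_le_ne_top hfin (eVariationOn.mono γ (Icc_subset_Icc ha hb))
    have h3 := eVariationOn.edist_le γ ht hs
    have h4 : eVariationOn γ (Icc a b) ≠ ∞ :=
      ne_top_of_le_ne_top hfin (eVariationOn.mono γ (Icc_subset_Icc ha hb))
    rw [edist_dist, dist_eq_norm] at h3
    have h5 := (ENNReal.ofReal_le_iff_le_toReal h4).mp h3
    linarith
  have hvtot : v (4 * Real.pi) - v (-(2 * Real.pi)) ≤ 3 * V := by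
    have h1 : v (-(2 * Real.pi)) = 0 := by
      simp only [hv, Icc_self]
      rw [eVariationOn.subsingleton γ subsingleton_singleton]
      simp
    rw [h1, sub_zero]
    simp only [hv]
    apply ENNReal.toReal_le_of_le_ofReal (by positivity)
    refine hbv.trans (le_of_eq ?_)
    rw [ENNReal.ofReal_mul (by norm_num)]
    norm_num
  set S : Set ℝ := {θ ∈ Icc 0 (2 * Real.pi) | ∃ r ∈ Ico (0 : ℝ) 1,
        Λ < ‖deriv φ (circleMap 0 r θ)‖} with hS
  set L : ℝ := Λ / (4 * Real.pi ^ 2) with hL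
  have hLpos : 0 < L := by positivity
  have hloc : ∀ θ ∈ S, ∃ ρ : ℝ, 0 < ρ ∧ ρ ≤ Real.pi ∧ L * ρ ≤ v (θ + ρ) - v (θ - ρ) := by
    rintro θ ⟨⟨hθ0, hθ1⟩, r, ⟨hr0, hr1⟩, hr⟩
    by_contra hcon
    push Not at hcon
    have hb := rm_deriv_bound φ hc hd r θ hr0 hr1 L hLpos.le (by
      intro t ht
      by_cases htθ : t = θ
      · rw [htθ]; simp
      · have hρ : 0 < |t - θ| := abs_pos.mpr (sub_ne_zero.mpr htθ)
        have h1 := hcon |t - θ| hρ ht
        have h2 := hvinc (θ - |t - θ|) (θ + |t - θ|) θ t (by linarith) (by linarith) (by linarith)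
          ⟨by linarith, by linarith⟩ ⟨by linarith [neg_abs_le (t - θ)], by linarith [le_abs_self (t - θ)]⟩
        exact h2.trans h1.le)
    have h6 : 4 * Real.pi ^ 2 * L = Λ := by
      rw [hL]; field_simp
    rw [h6] at hb
    linarith
  choose! ρ hρ0 hρ1 hρ2 using hloc
  obtain ⟨u, huS, hudisj, hucov⟩ := Vitali.exists_disjoint_subfamily_covering_enlargement_closedBall
    S (fun x => x) ρ Real.pi hρ1 5 (by norm_num)
  have hucount : u.Countable := by
    apply hudisj.countable_of_nonempty_interior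
    intro b hb
    have : 0 < ρ b := hρ0 b (huS hb)
    rw [interior_closedBall b this.ne']
    exact ⟨b, mem_ball_self this⟩
  have hcov : S ⊆ ⋃ b ∈ u, closedBall b (5 * ρ b) := by
    intro x hx
    obtain ⟨b, hb, hsub⟩ := hucov x hx
    rw [mem_iUnion₂]
    exact ⟨b, hb, hsub (mem_closedBall_self (hρ0 x hx).le)⟩
  have hbd : ∀ b ∈ u, -(2 * Real.pi) ≤ b - ρ b ∧ b + ρ b ≤ 4 * Real.pi := by
    intro b hb
    have h1 := (huS hb).1
    have h2 := hρ1 b (huS hb)
    constructor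
    · linarith [h1.1]
    · linarith [h1.2]
  have hdisj2 : u.PairwiseDisjoint (fun b => Ioo (v (b - ρ b)) (v (b + ρ b))) := by
    intro a ha b hb hab
    have h1 := hudisj ha hb hab
    simp only [Function.onFun] at h1 ⊢
    have hρa := hρ0 a (huS ha)
    have hρb := hρ0 b (huS hb)
    rcases lt_trichotomy (a + ρ a) (b - ρ b) with h2 | h2 | h2
    · rw [Set.disjoint_left]
      intro x hx1 hx2
      have := hvmono _ _ h2.le (by linarith [(hbd b hb).2])
      linarith [hx1.2, hx2.1]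
    · exfalso
      rw [Set.disjoint_left] at h1
      apply h1 (a := a + ρ a)
      · rw [mem_closedBall, Real.dist_eq]; rw [abs_le]; constructor <;> linarith
      · rw [mem_closedBall, Real.dist_eq]; rw [abs_le]; constructor <;> linarith
    · rcases lt_or_ge (b + ρ b) (a - ρ a) with h3 | h3
      · rw [Set.disjoint_left]
        intro x hx1 hx2
        have := hvmono _ _ h3.le (by linarith [(hbd a ha).2])
        linarith [hx1.1, hx2.2]
      · exfalso
        rw [Set.disjoint_left] at h1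
        rcases le_total (a - ρ a) (b - ρ b) with h4 | h4
        · apply h1 (a := b - ρ b)
          · rw [mem_closedBall, Real.dist_eq]; rw [abs_le]; constructor <;> linarith
          · rw [mem_closedBall, Real.dist_eq]; rw [abs_le]; constructor <;> linarith
        · apply h1 (a := a - ρ a)
          · rw [mem_closedBall, Real.dist_eq]; rw [abs_le]; constructor <;> linarith
          · rw [mem_closedBall, Real.dist_eq]; rw [abs_le]; constructor <;> linarith
  have hsum : ∑' b : u, ENNReal.ofReal (v ((b : ℝ) + ρ b) - v ((b : ℝ) - ρ b)) ≤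
      ENNReal.ofReal (3 * V) := by
    calc ∑' b : u, ENNReal.ofReal (v ((b : ℝ) + ρ b) - v ((b : ℝ) - ρ b))
        = ∑' b : u, volume (Ioo (v ((b : ℝ) - ρ b)) (v ((b : ℝ) + ρ b))) := by
          simp only [Real.volume_Ioo]
      _ = volume (⋃ b ∈ u, Ioo (v (b - ρ b)) (v (b + ρ b))) := by
          rw [measure_biUnion hucount hdisj2 (fun _ _ => measurableSet_Ioo)]
      _ ≤ volume (Icc (v (-(2 * Real.pi))) (v (4 * Real.pi))) := by
          apply measure_mono
          apply iUnion₂_subset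
          intro b hb x hx
          obtain ⟨h1, h2⟩ := hbd b hb
          have hρb := hρ0 b (huS hb)
          have h3 := hvmono _ _ h1 (by linarith)
          have h4 := hvmono _ _ h2 le_rfl
          exact ⟨h3.trans hx.1.le, hx.2.le.trans h4⟩
      _ ≤ _ := by
          rw [Real.volume_Icc]
          exact ENNReal.ofReal_le_ofReal hvtot
  calc volume S ≤ volume (⋃ b ∈ u, closedBall b (5 * ρ b)) := measure_mono hcov
    _ ≤ ∑' b : u, volume (closedBall (b : ℝ) (5 * ρ b)) := measure_biUnion_le _ hucount _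
    _ ≤ ∑' b : u, ENNReal.ofReal (10 / L) *
          ENNReal.ofReal (v ((b : ℝ) + ρ b) - v ((b : ℝ) - ρ b)) := by
        apply ENNReal.tsum_le_tsum
        intro b
        rw [Real.volume_closedBall, ← ENNReal.ofReal_mul (by positivity)]
        apply ENNReal.ofReal_le_ofReal
        have h1 := hρ2 b (huS b.2)
        rw [div_mul_eq_mul_div, le_div_iff₀ hLpos]
        nlinarith
    _ = ENNReal.ofReal (10 / L) *
          ∑' b : u, ENNReal.ofReal (v ((b : ℝ) + ρ b) - v ((b : ℝ) - ρ b)) :=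
        ENNReal.tsum_mul_left
    _ ≤ ENNReal.ofReal (10 / L) * ENNReal.ofReal (3 * V) := by gcongr
    _ = ENNReal.ofReal (120 * Real.pi ^ 2 * V / Λ) := by
        rw [← ENNReal.ofReal_mul (by positivity)]
        congr 1
        rw [hL]
        field_simp
        ring

end P370
end Pool.Agent.Helper311.Nev
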