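import Mathlib
import Pool.Agent.Helper311.Nev.Ker

open MeasureTheory Set Filter Topology Metric
open scoped ENNReal NNReal

namespace Pool.Agent.Helper311.Nev
namespace P371


/-- Bloch type lemma -/
lemma koebe_bloch (G g : ℂ → ℂ) (z : ℂ) (r : ℝ) (hr : 0 < r)
    (hG : ∀ w ∈ ball z r, HasDerivAt G (g w) w) (hg : DifferentiableOn ℂ g (ball z r)) (hgz : g z ≠ 0) :
    ∃ ζ : ℂ, ball ζ (3 * r * ‖g z‖ / 512) ⊆ G '' ball z r := by
  have hsub : closedBall z (r / 2) ⊆ ball z r := closedBall_subset_ball (by linarith)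
  have hcont : ContinuousOn (fun w => (r / 2 - dist w z) * ‖g w‖) (closedBall z (r / 2)) := by
    apply ContinuousOn.mul
    · exact continuousOn_const.sub (continuous_id.dist continuous_const).continuousOn
    · exact (hg.continuousOn.mono hsub).norm
  obtain ⟨w0, hw0, hmax⟩ := (isCompact_closedBall z (r / 2)).exists_isMaxOn
    ⟨z, mem_closedBall_self (by linarith)⟩ hcont
  have hmaxz : r / 2 * ‖g z‖ ≤ (r / 2 - dist w0 z) * ‖g w0‖ := by
    have := hmax (mem_closedBall_self (by linarith) : z ∈ closedBall z (r / 2))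
    simpa using this
  have hgzpos : 0 < ‖g z‖ := norm_pos_iff.mpr hgz
  have hpos : 0 < (r / 2 - dist w0 z) * ‖g w0‖ := lt_of_lt_of_le (by positivity) hmaxz
  rw [mem_closedBall] at hw0
  have hD : 0 < ‖g w0‖ := by
    rcases (norm_nonneg (g w0)).eq_or_lt with h | h
    · rw [← h, mul_zero] at hpos
      exact absurd hpos (lt_irrefl _)
    · exact h
  have hd : 0 < r / 2 - dist w0 z := pos_of_mul_pos_left hpos hD.le
  obtain ⟨t, ht⟩ : ∃ t : ℝ, t = (r / 2 - dist w0 z) / 2 := ⟨_, rfl⟩
  have ht0 : 0 < t := by rw [ht]; linarith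
  obtain ⟨D, hDD⟩ : ∃ D : ℝ, D = ‖g w0‖ := ⟨_, rfl⟩
  rw [← hDD] at hD
  have hDt : r / 4 * ‖g z‖ ≤ D * t := by
    rw [ht, hDD]; nlinarith
  have hball : ∀ w ∈ closedBall w0 t, dist w z ≤ r / 2 - t := by
    intro w hw
    rw [mem_closedBall] at hw
    have := dist_triangle w w0 z
    linarith
  have hb2 : ∀ w ∈ closedBall w0 t, ‖g w‖ ≤ 2 * D := by
    intro w hw
    have h1 := hball w hw
    have h2 : (r / 2 - dist w z) * ‖g w‖ ≤ (r / 2 - dist w0 z) * ‖g w0‖ :=
      hmax (mem_closedBall.mpr (by linarith) : w ∈ closedBall z (r / 2))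
    have h3 : r / 2 - dist w0 z = 2 * t := by rw [ht]; ring
    rw [h3, ← hDD] at h2
    have h4 : t * ‖g w‖ ≤ (r / 2 - dist w z) * ‖g w‖ :=
      mul_le_mul_of_nonneg_right (by linarith) (norm_nonneg _)
    have h5 : t * ‖g w‖ ≤ t * (2 * D) := by linarith
    exact le_of_mul_le_mul_left h5 ht0
  have hsubt : closedBall w0 t ⊆ ball z r := by
    intro w hw
    rw [mem_ball]
    have := hball w hw
    linarith
  have hschw : ∀ w ∈ ball w0 t, ‖g w - g w0‖ ≤ 3 * D / t * ‖w - w0‖ := by
    intro w hw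
    have := Complex.dist_le_div_mul_dist_of_mapsTo_ball (f := g) (c := w0) (R₁ := t) (R₂ := 3 * D)
      (hg.mono (ball_subset_closedBall.trans hsubt)) (by
        intro v hv
        rw [mem_closedBall, dist_eq_norm]
        have h1 := hb2 v (ball_subset_closedBall hv)
        have h2 := norm_sub_le (g v) (g w0)
        rw [← hDD] at h2
        linarith) hw
    rwa [dist_eq_norm, dist_eq_norm] at this
  obtain ⟨s, hs⟩ : ∃ s : ℝ, s = t / 12 := ⟨_, rfl⟩
  have hs0 : 0 < s := by rw [hs]; linarith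
  have hst : closedBall w0 s ⊆ ball w0 t := closedBall_subset_ball (by rw [hs]; linarith)
  have hsr : closedBall w0 s ⊆ ball z r := hst.trans (ball_subset_closedBall.trans hsubt)
  have hcirc : ∀ w ∈ sphere w0 s, 3 / 4 * D * s ≤ ‖G w - G w0‖ := by
    intro w hw
    have hb : ∀ v ∈ closedBall w0 s, ‖g v - g w0‖ ≤ D / 4 := by
      intro v hv
      have h1 := hschw v (hst hv)
      rw [mem_closedBall, dist_eq_norm, hs] at hv
      have h2 : 3 * D / t * ‖v - w0‖ ≤ 3 * D / t * (t / 12) :=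
        mul_le_mul_of_nonneg_left hv (by positivity)
      have h3 : 3 * D / t * (t / 12) = D / 4 := by field_simp; ring
      linarith
    have hmv := Convex.norm_image_sub_le_of_norm_hasDerivWithin_le
      (f := fun v => G v - g w0 * v) (f' := fun v => g v - g w0) (s := closedBall w0 s) (C := D / 4)
      (fun v hv => by
        have h1 := (hG v (hsr hv))
        have h2 : HasDerivAt (fun v => G v - g w0 * v) (g v - g w0 * 1) v :=
          h1.sub ((hasDerivAt_id v).const_mul (g w0))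
        rw [mul_one] at h2
        exact h2.hasDerivWithinAt) hb (convex_closedBall w0 s)
      (mem_closedBall_self hs0.le) (sphere_subset_closedBall hw)
    rw [mem_sphere, dist_eq_norm] at hw
    rw [hw] at hmv
    have h4 : ‖g w0 * (w - w0)‖ = D * s := by rw [norm_mul, hw, hDD]
    have h5 : g w0 * (w - w0) = (G w - G w0) - ((G w - g w0 * w) - (G w0 - g w0 * w0)) := by ring
    have h6 := norm_sub_le (G w - G w0) ((G w - g w0 * w) - (G w0 - g w0 * w0))
    rw [← h5, h4] at h6
    linarith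
  have hGd : DifferentiableOn ℂ G (ball z r) := fun w hw => (hG w hw).differentiableAt.differentiableWithinAt
  have hdc : DiffContOnCl ℂ G (ball w0 s) := by
    apply DifferentiableOn.diffContOnCl
    rw [closure_ball _ hs0.ne']
    exact hGd.mono hsr
  have hfreq : ∃ᶠ w in 𝓝 w0, G w ≠ G w0 := by
    have h1 : HasDerivAt G (g w0) w0 := hG w0 (hsr (mem_closedBall_self hs0.le))
    have h2 : g w0 ≠ 0 := by
      intro h
      rw [h, norm_zero] at hDD
      linarith
    have h3 := (h1.eventually_ne h2 (c := G w0)).frequently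
    exact h3.filter_mono nhdsWithin_le_nhds
  have hfin := hdc.ball_subset_image_closedBall hs0 hcirc hfreq
  refine ⟨G w0, ?_⟩
  refine Subset.trans (ball_subset_ball ?_) (hfin.trans (image_mono hsr))
  rw [hs]
  nlinarith

/-- D1 : Koebe (non sharp) -/
theorem koebe_omit : ∃ c : ℝ, 0 < c ∧ ∀ (φ : ℂ → ℂ) (z : ℂ) (r : ℝ), 0 < r →
    DifferentiableOn ℂ φ (ball z r) → InjOn φ (ball z r) → ∀ a : ℂ, a ∉ φ '' ball z r →
    c * r * ‖deriv φ z‖ ≤ ‖φ z - a‖ := by
  refine ⟨3 / 512 / Real.pi / 2, by positivity, ?_⟩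
  intro φ z r hr hφ hinj a ha
  have hne : ∀ w ∈ ball z r, φ w - a ≠ 0 := by
    intro w hw h
    exact ha ⟨w, hw, sub_eq_zero.mp h⟩
  have hzb : z ∈ ball z r := mem_ball_self hr
  by_cases hdz : deriv φ z = 0
  · rw [hdz]; simp
  obtain ⟨g, hg⟩ : ∃ g : ℂ → ℂ, g = fun w => deriv φ w / (φ w - a) := ⟨_, rfl⟩
  have hgd : DifferentiableOn ℂ g (ball z r) := by
    rw [hg]
    exact (hφ.deriv isOpen_ball).div (hφ.sub_const a) hne
  obtain ⟨G, hG⟩ := hgd.isExactOn_ball
  have hgz : g z ≠ 0 := by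
    rw [hg]
    exact div_ne_zero hdz (hne z hzb)
  obtain ⟨ζ, hζ⟩ := koebe_bloch G g z r hr hG hgd hgz
  -- exponential
  have hconst : ∀ w ∈ ball z r, (φ w - a) * Complex.exp (-(G w)) = (φ z - a) * Complex.exp (-(G z)) := by
    intro w hw
    have hmv := Convex.norm_image_sub_le_of_norm_hasDerivWithin_le
      (f := fun v => (φ v - a) * Complex.exp (-(G v))) (f' := fun _ => 0) (s := ball z r) (C := 0)
      (fun v hv => by
        have h1 : HasDerivAt φ (deriv φ v) v := (hφ.differentiableAt (isOpen_ball.mem_nhds hv)).hasDerivAt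
        have h2 := (hG v hv).neg.cexp
        have h3 := (h1.sub_const a).mul h2
        have h4 : deriv φ v * Complex.exp (-(G v)) + (φ v - a) * (Complex.exp (-(G v)) * -(g v)) = 0 := by
          rw [hg]
          have := hne v hv
          field_simp
          ring
        have h5 : HasDerivAt (fun v => (φ v - a) * Complex.exp (-(G v))) 0 v := by
          rw [← h4]
          exact h3
        exact h5.hasDerivWithinAt) (fun v _ => by simp) (convex_ball z r) hzb hw
    rw [zero_mul] at hmv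
    exact sub_eq_zero.mp (norm_le_zero_iff.mp hmv)
  by_contra hcon
  push Not at hcon
  have hnz : 0 < ‖φ z - a‖ := norm_pos_iff.mpr (hne z hzb)
  have hbig : Real.pi < 3 * r * ‖g z‖ / 512 := by
    have h1 : ‖g z‖ = ‖deriv φ z‖ / ‖φ z - a‖ := by rw [hg]; exact norm_div _ _
    rw [h1]
    have hpi := Real.pi_pos
    have h2 : ‖φ z - a‖ * Real.pi < 3 * r * ‖deriv φ z‖ / 512 := by
      calc ‖φ z - a‖ * Real.pi < (3 / 512 / Real.pi / 2 * r * ‖deriv φ z‖) * Real.pi :=
            mul_lt_mul_of_pos_right hcon hpi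
        _ = 3 * r * ‖deriv φ z‖ / 512 / 2 := by field_simp
        _ ≤ 3 * r * ‖deriv φ z‖ / 512 := by
            have : 0 ≤ 3 * r * ‖deriv φ z‖ / 512 := by positivity
            linarith
    rw [show 3 * r * (‖deriv φ z‖ / ‖φ z - a‖) / 512 = (3 * r * ‖deriv φ z‖ / 512) / ‖φ z - a‖ by ring]
    rw [lt_div_iff₀ hnz]
    linarith
  have hpi := Real.pi_pos
  have h1 : ζ + Real.pi * Complex.I ∈ ball ζ (3 * r * ‖g z‖ / 512) := by
    rw [mem_ball, dist_eq_norm, add_sub_cancel_left, norm_mul, Complex.norm_I, mul_one,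
      Complex.norm_real, Real.norm_of_nonneg hpi.le]
    exact hbig
  have h2 : ζ - Real.pi * Complex.I ∈ ball ζ (3 * r * ‖g z‖ / 512) := by
    rw [mem_ball, dist_eq_norm, sub_sub_cancel_left, norm_neg, norm_mul, Complex.norm_I, mul_one,
      Complex.norm_real, Real.norm_of_nonneg hpi.le]
    exact hbig
  obtain ⟨w1, hw1, hGw1⟩ := hζ h1
  obtain ⟨w2, hw2, hGw2⟩ := hζ h2
  have h3 := (hconst w1 hw1).trans (hconst w2 hw2).symm
  have hexp : Complex.exp (-(G w1)) = Complex.exp (-(G w2)) := by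
    rw [hGw1, hGw2, Complex.exp_eq_exp_iff_exists_int]
    exact ⟨-1, by push_cast; ring⟩
  rw [hexp] at h3
  have h4 := mul_right_cancel₀ (Complex.exp_ne_zero _) h3
  have h5 : w1 = w2 := hinj hw1 hw2 (sub_left_injective h4)
  rw [h5, hGw2] at hGw1
  have h6 : (2 * Real.pi * Complex.I : ℂ) = 0 := by linear_combination -hGw1
  exact Complex.two_pi_I_ne_zero h6

end P371
end Pool.Agent.Helper311.Nev
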