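import Mathlib
import Pool.Agent.Helper311.Nev.Ker

open MeasureTheory Set Filter Topology Metric
open scoped ENNReal NNReal

namespace Pool.Agent.Helper311.Nev
namespace P372


section Univ

variable {f : ℂ → ℂ} {U : Set ℂ}

/-- An injective holomorphic map is open, local form. -/
theorem nhds_le_map (hU : IsOpen U) (hf : DifferentiableOn ℂ f U) (hi : InjOn f U)
    {z : ℂ} (hz : z ∈ U) : 𝓝 (f z) ≤ map f (𝓝 z) := by
  have ha : AnalyticAt ℂ f z := hf.analyticAt (hU.mem_nhds hz)
  rcases ha.eventually_constant_or_nhds_le_map_nhds with h | h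
  · exfalso
    have h1 : ∀ᶠ w in 𝓝[≠] z, f w = f z ∧ w ∈ U :=
      (h.and (hU.mem_nhds hz)).filter_mono nhdsWithin_le_nhds
    have h2 : ∀ᶠ w in 𝓝[≠] z, w ≠ z := eventually_mem_nhdsWithin
    obtain ⟨w, hw, hw2⟩ := (h1.and h2).exists
    exact hw2 (hi hw.2 hz hw.1)
  · exact h

theorem map_nhds (hU : IsOpen U) (hf : DifferentiableOn ℂ f U) (hi : InjOn f U)
    {z : ℂ} (hz : z ∈ U) : map f (𝓝 z) = 𝓝 (f z) := by
  apply le_antisymm
  · exact (hf.analyticAt (hU.mem_nhds hz)).continuousAt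
  · exact nhds_le_map hU hf hi hz

theorem isOpen_image (hU : IsOpen U) (hf : DifferentiableOn ℂ f U) (hi : InjOn f U)
    {s : Set ℂ} (hs : IsOpen s) (hsU : s ⊆ U) : IsOpen (f '' s) := by
  rw [isOpen_iff_mem_nhds]
  rintro _ ⟨z, hz, rfl⟩
  rw [← map_nhds hU hf hi (hsU hz)]
  exact image_mem_map (hs.mem_nhds hz)

theorem invFunOn_left (hi : InjOn f U) {z : ℂ} (hz : z ∈ U) :
    Function.invFunOn f U (f z) = z :=
  hi.leftInvOn_invFunOn hz

theorem invFunOn_mem {w : ℂ} (hw : w ∈ f '' U) :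
    Function.invFunOn f U w ∈ U :=
  Function.invFunOn_mem (by simpa using hw)

theorem invFunOn_right {w : ℂ} (hw : w ∈ f '' U) :
    f (Function.invFunOn f U w) = w :=
  Function.invFunOn_eq (by simpa using hw)

theorem continuousAt_inv (hU : IsOpen U) (hf : DifferentiableOn ℂ f U) (hi : InjOn f U)
    {w : ℂ} (hw : w ∈ f '' U) : ContinuousAt (Function.invFunOn f U) w := by
  obtain ⟨z, hz, rfl⟩ := hw
  rw [ContinuousAt, invFunOn_left hi hz]
  intro V hV
  rw [mem_map]
  have h1 : V ∩ U ∈ 𝓝 z := inter_mem hV (hU.mem_nhds hz)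
  have h2 : f '' (V ∩ U) ∈ 𝓝 (f z) := by
    rw [← map_nhds hU hf hi hz]
    exact image_mem_map h1
  refine mem_of_superset h2 ?_
  rintro _ ⟨y, hy, rfl⟩
  simp only [mem_preimage]
  rw [invFunOn_left hi hy.2]
  exact hy.1

/-- the inverse is differentiable where the derivative does not vanish -/
theorem hasDerivAt_inv_of_ne (hU : IsOpen U) (hf : DifferentiableOn ℂ f U) (hi : InjOn f U)
    {z : ℂ} (hz : z ∈ U) (hd : deriv f z ≠ 0) :
    HasDerivAt (Function.invFunOn f U) (deriv f z)⁻¹ (f z) := by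
  have hzz : Function.invFunOn f U (f z) = z := invFunOn_left hi hz
  apply HasDerivAt.of_local_left_inverse (f := f)
  · exact continuousAt_inv hU hf hi (mem_image_of_mem f hz)
  · rw [hzz]
    exact (hf.differentiableAt (hU.mem_nhds hz)).hasDerivAt
  · exact hd
  · have : f '' U ∈ 𝓝 (f z) := (isOpen_image hU hf hi hU subset_rfl).mem_nhds (mem_image_of_mem f hz)
    filter_upwards [this] with w hw using invFunOn_right hw

/-- zeros of the derivative are isolated -/
theorem eventually_deriv_ne_zero (hU : IsOpen U) (hf : DifferentiableOn ℂ f U) (hi : InjOn f U)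
    {z : ℂ} (hz : z ∈ U) : ∀ᶠ y in 𝓝[≠] z, deriv f y ≠ 0 := by
  have ha : AnalyticAt ℂ f z := hf.analyticAt (hU.mem_nhds hz)
  rcases ha.deriv.eventually_eq_zero_or_eventually_ne_zero with h | h
  · exfalso
    obtain ⟨r, hr, hrs⟩ := Metric.eventually_nhds_iff_ball.mp (h.and (hU.mem_nhds hz))
    have hconst : ∀ y ∈ ball z r, f y = f z := by
      intro y hy
      have hdiff : DifferentiableOn ℂ f (ball z r) := hf.mono (fun x hx => (hrs x hx).2)
      refine (convex_ball z r).is_const_of_fderivWithin_eq_zero (𝕜 := ℂ) hdiff ?_ hy (mem_ball_self hr)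
      intro x hx
      rw [fderivWithin_of_isOpen isOpen_ball hx]
      ext
      simp [(hrs x hx).1]
    have h1 : z + (r/2 : ℝ) ∈ ball z r := by
      simp [abs_of_pos hr]
      linarith
    have h2 := hi (hrs _ h1).2 hz (hconst _ h1)
    have : ((r/2 : ℝ) : ℂ) = 0 := by
      simpa using h2
    have : r / 2 = 0 := by exact_mod_cast this
    linarith
  · exact h

theorem differentiableAt_inv (hU : IsOpen U) (hf : DifferentiableOn ℂ f U) (hi : InjOn f U)
    {w : ℂ} (hw : w ∈ f '' U) : DifferentiableAt ℂ (Function.invFunOn f U) w := by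
  obtain ⟨z, hz, rfl⟩ := hw
  refine (Complex.analyticAt_of_differentiable_on_punctured_nhds_of_continuousAt ?_
    (continuousAt_inv hU hf hi (mem_image_of_mem f hz))).differentiableAt
  have h1 : ∀ᶠ y in 𝓝 z, y ∈ U ∧ (y ≠ z → deriv f y ≠ 0) := by
    have := eventually_deriv_ne_zero hU hf hi hz
    rw [eventually_nhdsWithin_iff] at this
    exact (hU.mem_nhds hz |> fun h => (show ∀ᶠ y in 𝓝 z, y ∈ U from h)).and this
  have h2 : ∀ᶠ w in 𝓝 (f z), w ≠ f z → DifferentiableAt ℂ (Function.invFunOn f U) w := by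
    rw [← map_nhds hU hf hi hz, eventually_map]
    filter_upwards [h1] with y hy hne
    have hyz : y ≠ z := fun h => hne (by rw [h])
    exact (hasDerivAt_inv_of_ne hU hf hi hy.1 (hy.2 hyz)).differentiableAt
  rw [eventually_nhdsWithin_iff]
  exact h2

theorem deriv_ne_zero (hU : IsOpen U) (hf : DifferentiableOn ℂ f U) (hi : InjOn f U)
    {z : ℂ} (hz : z ∈ U) : deriv f z ≠ 0 := by
  have hzz : Function.invFunOn f U (f z) = z := invFunOn_left hi hz
  have hg := (differentiableAt_inv hU hf hi (mem_image_of_mem f hz)).hasDerivAt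
  have hf' : HasDerivAt f (deriv f z) z := (hf.differentiableAt (hU.mem_nhds hz)).hasDerivAt
  have hcomp : HasDerivAt (Function.invFunOn f U ∘ f)
      (deriv (Function.invFunOn f U) (f z) * deriv f z) z := HasDerivAt.comp z hg hf'
  have hid : HasDerivAt (Function.invFunOn f U ∘ f) 1 z := by
    refine (hasDerivAt_id z).congr_of_eventuallyEq ?_
    filter_upwards [hU.mem_nhds hz] with y hy
    simp [invFunOn_left hi hy]
  have := hcomp.unique hid
  intro h
  rw [h] at this
  simp at this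

theorem hasDerivAt_inv (hU : IsOpen U) (hf : DifferentiableOn ℂ f U) (hi : InjOn f U)
    {z : ℂ} (hz : z ∈ U) :
    HasDerivAt (Function.invFunOn f U) (deriv f z)⁻¹ (f z) :=
  hasDerivAt_inv_of_ne hU hf hi hz (deriv_ne_zero hU hf hi hz)

end Univ

/-- one-sided distortion on half the ball -/
theorem distortion_half (c : ℝ) (hc : 0 < c)
    (hyp : ∀ (φ : ℂ → ℂ) (z : ℂ) (r : ℝ), 0 < r →
    DifferentiableOn ℂ φ (ball z r) → InjOn φ (ball z r) → ∀ a : ℂ, a ∉ φ '' ball z r →
    c * r * ‖deriv φ z‖ ≤ ‖φ z - a‖) (φ : ℂ → ℂ) (z : ℂ) (r : ℝ) (hr : 0 < r)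
    (hd : DifferentiableOn ℂ φ (ball z r)) (hi : InjOn φ (ball z r)) (w : ℂ)
    (hw : ‖w - z‖ < r / 2) :
    ‖deriv φ w‖ ≤ max 1 (Real.exp (2 + 1 / c) / c) * ‖deriv φ z‖ := by
  have hzr : z ∈ ball z r := mem_ball_self hr
  have hnhds : ball z r ∈ 𝓝 z := isOpen_ball.mem_nhds hzr
  by_cases hwz : w = z
  · subst hwz
    exact le_mul_of_one_le_left (norm_nonneg _) (le_max_left _ _)
  set g := dslope φ z with hg
  have hgd : DifferentiableOn ℂ g (ball z r) := (Complex.differentiableOn_dslope hnhds).mpr hd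
  have hgne : ∀ x ∈ ball z r, g x ≠ 0 := by
    intro x hx
    by_cases hxz : x = z
    · rw [hxz, hg, dslope_same]
      exact deriv_ne_zero isOpen_ball hd hi hzr
    · rw [hg, dslope_of_ne _ hxz, slope_def_field]
      apply div_ne_zero
      · intro h
        exact hxz (hi hx hzr (sub_eq_zero.mp h))
      · exact sub_ne_zero.mpr hxz
  have hgat : ∀ x ∈ ball z r, DifferentiableAt ℂ g x := fun x hx =>
    hgd.differentiableAt (isOpen_ball.mem_nhds hx)
  have hφat : ∀ x ∈ ball z r, DifferentiableAt ℂ φ x := fun x hx =>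
    hd.differentiableAt (isOpen_ball.mem_nhds hx)
  -- `φ x = φ z + (x - z) g x`
  have hφg : ∀ x, φ x = φ z + (x - z) * g x := by
    intro x
    by_cases hxz : x = z
    · rw [hxz]; ring
    · rw [hg, dslope_of_ne _ hxz, slope_def_field]
      have : x - z ≠ 0 := sub_ne_zero.mpr hxz
      field_simp
      ring
  have hderiv : ∀ x ∈ ball z r, deriv φ x = g x + (x - z) * deriv g x := by
    intro x hx
    have h1 : HasDerivAt (fun y => φ z + (y - z) * g y) (1 * g x + (x - z) * deriv g x) x :=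
      (((hasDerivAt_id x).sub_const z).mul (hgat x hx).hasDerivAt).const_add (φ z)
    rw [one_mul] at h1
    have h2 : φ = fun y => φ z + (y - z) * g y := funext hφg
    rw [h2]
    exact h1.deriv
  -- logarithmic derivative
  set u : ℂ → ℂ := fun x => deriv g x / g x with hu
  have hderg : DifferentiableOn ℂ (deriv g) (ball z r) := hgd.deriv isOpen_ball
  have hud : DifferentiableOn ℂ u (ball z r) := hderg.div hgd hgne
  set v : ℂ → ℂ := fun x => (x - z) * u x with hv
  have hvd : DifferentiableOn ℂ v (ball z r) :=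
    (differentiableOn_id.sub (differentiableOn_const z)).mul hud
  have hv0 : v z = 0 := by rw [hv]; simp
  have hv1 : ∀ x ∈ ball z r, deriv φ x = g x * (1 + v x) := by
    intro x hx
    rw [hderiv x hx, hv, hu]
    have := hgne x hx
    field_simp
  have hbound : ∀ x, x ≠ z → ‖x - z‖ < r / 2 → ‖1 + v x‖ ≤ 1 / c := by
    intro x hxz hxr
    have hx : x ∈ ball z r := by
      rw [mem_ball, dist_eq_norm]; linarith
    have hpos : 0 < ‖x - z‖ := norm_pos_iff.mpr (sub_ne_zero.mpr hxz)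
    have hsub : ball x ‖x - z‖ ⊆ ball z r := by
      intro y hy
      rw [mem_ball, dist_eq_norm] at hy ⊢
      calc ‖y - z‖ = ‖(y - x) + (x - z)‖ := by congr 1; ring
        _ ≤ ‖y - x‖ + ‖x - z‖ := norm_add_le _ _
        _ < r := by linarith
    have h1 := hyp φ x ‖x - z‖ hpos (hd.mono hsub) (hi.mono hsub) (φ z) (by
      rintro ⟨y, hy, hyz⟩
      have h2 := hi (hsub hy) hzr hyz
      rw [h2, mem_ball, dist_eq_norm, norm_sub_rev] at hy
      exact lt_irrefl _ hy)
    have h2 : φ x - φ z = (x - z) * g x := by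
      have := hφg x
      rw [this]; ring
    rw [h2, hv1 x hx, norm_mul, norm_mul] at h1
    have hgpos : 0 < ‖g x‖ := norm_pos_iff.mpr (hgne x hx)
    rw [le_div_iff₀ hc]
    have h3 : (‖x - z‖ * ‖g x‖) * (‖1 + v x‖ * c) ≤ (‖x - z‖ * ‖g x‖) * 1 := by
      nlinarith [h1]
    exact le_of_mul_le_mul_left h3 (mul_pos hpos hgpos)
  set M := 2 + 1 / c with hM
  have hMpos : 0 < M := by positivity
  have hmaps : MapsTo v (ball z (r / 2)) (closedBall (v z) M) := by
    intro x hx
    rw [mem_ball, dist_eq_norm] at hx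
    rw [hv0, mem_closedBall, dist_zero_right]
    by_cases hxz : x = z
    · rw [hxz, hv0, norm_zero]; exact hMpos.le
    · have h1 := hbound x hxz hx
      calc ‖v x‖ = ‖(1 + v x) - 1‖ := by congr 1; ring
        _ ≤ ‖1 + v x‖ + ‖(1 : ℂ)‖ := norm_sub_le _ _
        _ ≤ M := by rw [norm_one, hM]; linarith
  have hhalf : ball z (r / 2) ⊆ ball z r := ball_subset_ball (by linarith)
  have hub : ∀ x ∈ ball z (r / 2), ‖u x‖ ≤ M / (r / 2) := by
    intro x hx
    have h1 := Complex.norm_dslope_le_div_of_mapsTo_ball (hvd.mono hhalf) hmaps hx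
    have h2 : dslope v z x = u x := by
      by_cases hxz : x = z
      · rw [hxz, dslope_same]
        have hut : DifferentiableAt ℂ u z := hud.differentiableAt hnhds
        have h3 : HasDerivAt v (1 * u z + (z - z) * deriv u z) z :=
          ((hasDerivAt_id z).sub_const z).mul hut.hasDerivAt
        rw [sub_self, zero_mul, add_zero, one_mul] at h3
        exact h3.deriv
      · rw [dslope_of_ne _ hxz, slope_def_field, hv0, sub_zero, hv]
        have : x - z ≠ 0 := sub_ne_zero.mpr hxz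
        field_simp
    rwa [h2] at h1
  -- Gronwall along the segment
  have hseg : ∀ t : ℝ, t ∈ Icc (0 : ℝ) 1 → z + (t : ℂ) * (w - z) ∈ ball z (r / 2) := by
    intro t ht
    rw [mem_ball, dist_eq_norm, add_sub_cancel_left, norm_mul, Complex.norm_real, Real.norm_eq_abs,
      abs_of_nonneg ht.1]
    calc t * ‖w - z‖ ≤ 1 * ‖w - z‖ := by gcongr; exact ht.2
      _ < r / 2 := by rw [one_mul]; exact hw
  have hder : ∀ t ∈ Icc (0 : ℝ) 1, HasDerivAt (fun s : ℝ => g (z + (s : ℂ) * (w - z)))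
      (deriv g (z + (t : ℂ) * (w - z)) * (w - z)) t := by
    intro t ht
    have h1 : HasDerivAt (fun s : ℝ => z + (s : ℂ) * (w - z)) (w - z) t := by
      have h2 : HasDerivAt (fun s : ℝ => (s : ℂ)) 1 t := Complex.ofRealCLM.hasDerivAt
      have h3 := (h2.mul_const (w - z)).const_add z
      rwa [one_mul] at h3
    exact (hgat _ (hhalf (hseg t ht))).hasDerivAt.comp_of_eq t h1 rfl
  have hgron := norm_le_gronwallBound_of_norm_deriv_right_le
    (f := fun s : ℝ => g (z + (s : ℂ) * (w - z)))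
    (f' := fun t : ℝ => deriv g (z + (t : ℂ) * (w - z)) * (w - z)) (δ := ‖g z‖) (K := M) (ε := 0)
    (a := 0) (b := 1)
    (fun t ht => (hder t ht).continuousAt.continuousWithinAt)
    (fun t ht => (hder t (Ico_subset_Icc_self ht)).hasDerivWithinAt)
    (by simp)
    (by
      intro t ht
      have h1 := hub _ (hseg t (Ico_subset_Icc_self ht))
      have h2 := hgne _ (hhalf (hseg t (Ico_subset_Icc_self ht)))
      rw [hu] at h1
      simp only at h1
      rw [norm_div, div_le_iff₀ (norm_pos_iff.mpr h2)] at h1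
      rw [norm_mul, add_zero]
      calc ‖deriv g (z + (t : ℂ) * (w - z))‖ * ‖w - z‖
          ≤ (M / (r / 2) * ‖g (z + (t : ℂ) * (w - z))‖) * (r / 2) := by gcongr
        _ = M * ‖g (z + (t : ℂ) * (w - z))‖ := by field_simp)
    1 (right_mem_Icc.mpr zero_le_one)
  rw [gronwallBound_ε0] at hgron
  have e1 : z + ((1 : ℝ) : ℂ) * (w - z) = w := by push_cast; ring
  simp only [e1, sub_zero, mul_one] at hgron
  have hgz : g z = deriv φ z := by rw [hg, dslope_same]
  rw [hgz] at hgron
  have hwr : w ∈ ball z r := by rw [mem_ball, dist_eq_norm]; linarith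
  rw [hv1 w hwr, norm_mul]
  calc ‖g w‖ * ‖1 + v w‖ ≤ (‖deriv φ z‖ * Real.exp M) * (1 / c) := by
        gcongr
        exact hbound w hwz hw
    _ = (Real.exp M / c) * ‖deriv φ z‖ := by ring
    _ ≤ _ := by
        gcongr
        exact le_max_right _ _

/-- D2 : distortion -/
theorem distortion (c : ℝ) (hc : 0 < c)
    (hyp : ∀ (φ : ℂ → ℂ) (z : ℂ) (r : ℝ), 0 < r →
    DifferentiableOn ℂ φ (ball z r) → InjOn φ (ball z r) → ∀ a : ℂ, a ∉ φ '' ball z r →
    c * r * ‖deriv φ z‖ ≤ ‖φ z - a‖) :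
    ∃ C : ℝ, 1 ≤ C ∧ ∀ (φ : ℂ → ℂ) (z : ℂ) (r : ℝ), 0 < r →
      DifferentiableOn ℂ φ (ball z r) → InjOn φ (ball z r) → ∀ w : ℂ, ‖w - z‖ ≤ r / 4 →
      ‖deriv φ w‖ ≤ C * ‖deriv φ z‖ ∧ ‖deriv φ z‖ ≤ C * ‖deriv φ w‖ := by
  refine ⟨max 1 (Real.exp (2 + 1 / c) / c), le_max_left _ _, ?_⟩
  intro φ z r hr hd hi w hw
  refine ⟨distortion_half c hc hyp φ z r hr hd hi w (by linarith), ?_⟩
  have hsub : ball w (3 * r / 4) ⊆ ball z r := by
    intro y hy
    rw [mem_ball, dist_eq_norm] at hy ⊢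
    calc ‖y - z‖ = ‖(y - w) + (w - z)‖ := by congr 1; ring
      _ ≤ ‖y - w‖ + ‖w - z‖ := norm_add_le _ _
      _ < r := by linarith
  refine distortion_half c hc hyp φ w (3 * r / 4) (by positivity) (hd.mono hsub) (hi.mono hsub) z ?_
  rw [norm_sub_rev]
  linarith

end P372
end Pool.Agent.Helper311.Nev
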