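import Mathlib
import Pool.Agent.Helper311.Nev.Ker

open MeasureTheory Set Filter Topology Metric
open scoped ENNReal NNReal

namespace Pool.Agent.Helper311.Nev
namespace P373


/-- the sign -/
noncomputable def sg (b : Bool) : ℂ := if b then 1 else -1

lemma sg_not (b : Bool) : sg (!b) = -sg b := by cases b <;> simp [sg]

lemma norm_sg (b : Bool) : ‖sg b‖ = 1 := by cases b <;> simp [sg]

lemma flip_sum {u : ℕ → ℂ} (hu : Summable fun n => ‖u n‖) (ε : ℕ → Bool) (n₀ : ℕ) :
    ‖u n₀‖ ≤ max ‖∑' n, sg (ε n) * u n‖ ‖∑' n, sg (Function.update ε n₀ (!ε n₀) n) * u n‖ := by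
  have hs : ∀ ε : ℕ → Bool, Summable fun n => sg (ε n) * u n := by
    intro ε
    refine Summable.of_norm ?_
    refine hu.congr fun n => ?_
    rw [norm_mul, norm_sg, one_mul]
  have h1 : (∑' n, sg (ε n) * u n) - ∑' n, sg (Function.update ε n₀ (!ε n₀) n) * u n =
      2 * sg (ε n₀) * u n₀ := by
    rw [← (hs ε).tsum_sub (hs _), tsum_eq_single n₀]
    · rw [Function.update_self, sg_not]; ring
    · intro n hn
      rw [Function.update_of_ne hn]; ring
  have h2 : 2 * ‖u n₀‖ ≤ ‖∑' n, sg (ε n) * u n‖ +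
      ‖∑' n, sg (Function.update ε n₀ (!ε n₀) n) * u n‖ := by
    have h3 := norm_sub_le (∑' n, sg (ε n) * u n)
      (∑' n, sg (Function.update ε n₀ (!ε n₀) n) * u n)
    rw [h1, norm_mul, norm_mul, norm_sg] at h3
    simpa using h3
  by_contra hcon
  rw [not_le, max_lt_iff] at hcon
  linarith [hcon.1, hcon.2]

/-- the sign pattern of a set -/
def pat (S : Finset ℕ) (ε₀ : ℕ → Bool) (T : Finset ℕ) (n : ℕ) : Bool :=
  if n ∈ S then decide (n ∈ T) else ε₀ n

lemma pat_flip (S : Finset ℕ) (ε₀ : ℕ → Bool) (T : Finset ℕ) {n₀ : ℕ} (hn : n₀ ∈ S) :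
    pat S ε₀ (symmDiff T {n₀}) = Function.update (pat S ε₀ T) n₀ (!pat S ε₀ T n₀) := by
  funext n
  by_cases h : n = n₀
  · subst h
    rw [Function.update_self]
    simp only [pat, hn, if_true]
    by_cases hT : n ∈ T <;> simp [Finset.mem_symmDiff, hT]
  · rw [Function.update_of_ne h]
    simp only [pat]
    split_ifs
    · simp [Finset.mem_symmDiff, h]
    · rfl

lemma avg_sum {u : ℕ → ℂ} (hu : Summable fun n => ‖u n‖) (S : Finset ℕ) (ε₀ : ℕ → Bool) {n₀ : ℕ}
    (hn : n₀ ∈ S) : Real.posLog ‖u n₀‖ ≤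
      2 / 2 ^ S.card * ∑ T ∈ S.powerset, Real.posLog ‖∑' n, sg (pat S ε₀ T n) * u n‖ := by
  have h1 : ∑ T ∈ S.powerset, Real.posLog ‖∑' n, sg (pat S ε₀ (symmDiff T {n₀}) n) * u n‖ =
      ∑ T ∈ S.powerset, Real.posLog ‖∑' n, sg (pat S ε₀ T n) * u n‖ := by
    refine Finset.sum_nbij' (fun T => symmDiff T {n₀}) (fun T => symmDiff T {n₀}) ?_ ?_ ?_ ?_ ?_
    · intro T hT
      rw [Finset.mem_powerset] at hT ⊢
      intro x hx
      rw [Finset.mem_symmDiff] at hx
      rcases hx with hx | hx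
      · exact hT hx.1
      · rw [Finset.mem_singleton.1 hx.1]; exact hn
    · intro T hT
      rw [Finset.mem_powerset] at hT ⊢
      intro x hx
      rw [Finset.mem_symmDiff] at hx
      rcases hx with hx | hx
      · exact hT hx.1
      · rw [Finset.mem_singleton.1 hx.1]; exact hn
    · intro T _; exact symmDiff_symmDiff_cancel_right _ _
    · intro T _; exact symmDiff_symmDiff_cancel_right _ _
    · intro T _; rfl
  have h2 : ∀ T ∈ S.powerset, Real.posLog ‖u n₀‖ ≤
      Real.posLog ‖∑' n, sg (pat S ε₀ T n) * u n‖ +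
      Real.posLog ‖∑' n, sg (pat S ε₀ (symmDiff T {n₀}) n) * u n‖ := by
    intro T _
    have h3 := flip_sum hu (pat S ε₀ T) n₀
    rw [← pat_flip S ε₀ T hn] at h3
    rcases le_max_iff.1 h3 with h4 | h4
    · have h5 := Real.posLog_le_posLog (norm_nonneg _) h4
      have h6 := Real.posLog_nonneg
        (x := ‖∑' n, sg (pat S ε₀ (symmDiff T {n₀}) n) * u n‖)
      linarith
    · have h5 := Real.posLog_le_posLog (norm_nonneg _) h4
      have h6 := Real.posLog_nonneg (x := ‖∑' n, sg (pat S ε₀ T n) * u n‖)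
      linarith
  have h3 := Finset.sum_le_sum h2
  rw [Finset.sum_const, Finset.sum_add_distrib, h1, Finset.card_powerset, nsmul_eq_mul] at h3
  push_cast at h3
  have h4 : (0 : ℝ) < 2 ^ S.card := by positivity
  rw [div_mul_eq_mul_div, le_div_iff₀ h4]
  linarith

lemma posLog_le_self {x : ℝ} (hx : 0 ≤ x) : Real.posLog x ≤ x := by
  rw [Real.posLog_apply]
  refine max_le hx ?_
  rcases eq_or_lt_of_le hx with h | h
  · rw [← h]; simp
  · have := Real.log_le_sub_one_of_pos h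
    linarith

section

variable {φ : ℂ → ℂ} (hφc : ContinuousOn φ (closedBall 0 1))
    (hφi : InjOn φ (closedBall 0 1)) {a : ℕ → ℂ} (ha : ∀ n, a n ∈ φ '' sphere 0 1)

include hφc hφi ha

lemma dpos {r : ℝ} (hr0 : 0 ≤ r) (hr1 : r < 1) :
    ∃ δ : ℝ, 0 < δ ∧ ∀ n θ, δ ≤ ‖a n - φ (circleMap 0 r θ)‖ := by
  have hK1 : IsCompact (φ '' sphere (0 : ℂ) 1) :=
    (isCompact_sphere 0 1).image_of_continuousOn (hφc.mono sphere_subset_closedBall)
  have hsub : sphere (0 : ℂ) r ⊆ closedBall 0 1 :=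
    sphere_subset_closedBall.trans (closedBall_subset_closedBall hr1.le)
  have hK2 : IsCompact (φ '' sphere (0 : ℂ) r) :=
    (isCompact_sphere 0 r).image_of_continuousOn (hφc.mono hsub)
  have hmem : ∀ θ, circleMap (0 : ℂ) r θ ∈ sphere (0 : ℂ) r := fun θ => circleMap_mem_sphere 0 hr0 θ
  have hne : ((φ '' sphere (0 : ℂ) 1) ×ˢ (φ '' sphere (0 : ℂ) r)).Nonempty :=
    ⟨(a 0, φ (circleMap 0 r 0)), ha 0, mem_image_of_mem _ (hmem 0)⟩
  obtain ⟨⟨x, y⟩, ⟨hx, hy⟩, hmin⟩ := (hK1.prod hK2).exists_isMinOn hne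
    (continuous_dist.continuousOn (s := (φ '' sphere (0 : ℂ) 1) ×ˢ (φ '' sphere (0 : ℂ) r)))
  refine ⟨dist x y, ?_, ?_⟩
  · rw [dist_pos]
    rintro rfl
    obtain ⟨z, hz, hzx⟩ := hx
    obtain ⟨z', hz', hzx'⟩ := hy
    have h1 := hφi (sphere_subset_closedBall hz) (hsub hz') (hzx.trans hzx'.symm)
    rw [mem_sphere_zero_iff_norm] at hz hz'
    rw [h1, hz'] at hz
    linarith
  · intro n θ
    rw [← dist_eq_norm]
    exact hmin (show (a n, φ (circleMap 0 r θ)) ∈
      (φ '' sphere (0 : ℂ) 1) ×ˢ (φ '' sphere (0 : ℂ) r) from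
        ⟨ha n, mem_image_of_mem φ (hmem θ)⟩)

end

lemma cont_phi {φ : ℂ → ℂ} (hφc : ContinuousOn φ (closedBall 0 1)) {r : ℝ} (hr0 : 0 ≤ r)
    (hr1 : r ≤ 1) : Continuous fun θ => φ (circleMap 0 r θ) := by
  refine hφc.comp_continuous (continuous_circleMap 0 r) fun θ => ?_
  exact closedBall_subset_closedBall hr1 (circleMap_mem_closedBall 0 hr0 θ)

/-- the estimate at a fixed radius -/
lemma fixed_radius (φ : ℂ → ℂ) (hφc : ContinuousOn φ (closedBall 0 1))
    (hφi : InjOn φ (closedBall 0 1))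
    (a : ℕ → ℂ) (ha : ∀ n, a n ∈ φ '' sphere 0 1) (c : ℕ → ℝ) (hc0 : ∀ n, 0 ≤ c n)
    (hcs : Summable c) (S : Finset ℕ) (ε₀ : ℕ → Bool) (C r : ℝ) (hr0 : 0 ≤ r) (hr1 : r < 1)
    (h : ∀ T ∈ S.powerset, ∫ θ in (0 : ℝ)..(2 * Real.pi),
      Real.posLog ‖∑' n, sg (pat S ε₀ T n) * ((c n : ℂ) / (a n - φ (circleMap 0 r θ)))‖ ≤ C) :
    ∫⁻ θ in Icc 0 (2 * Real.pi), ⨆ n : ℕ, ⨆ _ : n ∈ S,
      ENNReal.ofReal (Real.posLog (c n / ‖a n - φ (circleMap 0 r θ)‖)) ≤
        ENNReal.ofReal (2 * C) := by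
  obtain ⟨δ, hδ, hdist⟩ := dpos hφc hφi ha hr0 hr1
  have hne : ∀ n θ, a n - φ (circleMap 0 r θ) ≠ 0 := fun n θ =>
    norm_pos_iff.1 (hδ.trans_le (hdist n θ))
  have hnorm : ∀ n θ, ‖(c n : ℂ) / (a n - φ (circleMap 0 r θ))‖ =
      c n / ‖a n - φ (circleMap 0 r θ)‖ := by
    intro n θ
    rw [norm_div, Complex.norm_real, Real.norm_eq_abs, abs_of_nonneg (hc0 n)]
  have hb : ∀ n θ, ‖(c n : ℂ) / (a n - φ (circleMap 0 r θ))‖ ≤ c n / δ := by
    intro n θ
    rw [hnorm]
    exact div_le_div_of_nonneg_left (hc0 n) hδ (hdist n θ)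
  have hsum : ∀ θ, Summable fun n => ‖(c n : ℂ) / (a n - φ (circleMap 0 r θ))‖ := fun θ =>
    Summable.of_nonneg_of_le (fun n => norm_nonneg _) (fun n => hb n θ) (hcs.div_const δ)
  have hcont : ∀ ε : ℕ → Bool, Continuous fun θ =>
      ∑' n, sg (ε n) * ((c n : ℂ) / (a n - φ (circleMap 0 r θ))) := by
    intro ε
    refine continuous_tsum (fun n => ?_) (hcs.div_const δ) (fun n θ => ?_)
    · exact continuous_const.mul (continuous_const.div
        (continuous_const.sub (cont_phi hφc hr0 hr1.le)) (hne n))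
    · rw [norm_mul, norm_sg, one_mul]; exact hb n θ
  set H : ℝ → ℝ := fun θ => 2 / 2 ^ S.card * ∑ T ∈ S.powerset,
    Real.posLog ‖∑' n, sg (pat S ε₀ T n) * ((c n : ℂ) / (a n - φ (circleMap 0 r θ)))‖ with hH
  have hHc : Continuous H := by
    refine continuous_const.mul (continuous_finsetSum _ fun T _ => ?_)
    exact Real.continuous_posLog.comp (hcont _).norm
  have hHnn : ∀ θ, 0 ≤ H θ := fun θ =>
    mul_nonneg (by positivity) (Finset.sum_nonneg fun T _ => Real.posLog_nonneg)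
  have h1 : ∫⁻ θ in Icc 0 (2 * Real.pi), ⨆ n : ℕ, ⨆ _ : n ∈ S,
      ENNReal.ofReal (Real.posLog (c n / ‖a n - φ (circleMap 0 r θ)‖)) ≤
      ∫⁻ θ in Icc 0 (2 * Real.pi), ENNReal.ofReal (H θ) := by
    refine lintegral_mono fun θ => ?_
    refine iSup₂_le fun n hn => ENNReal.ofReal_le_ofReal ?_
    have h2 := avg_sum (hsum θ) S ε₀ hn
    rw [hnorm] at h2
    exact h2
  refine h1.trans ?_
  have hint : IntegrableOn H (Icc 0 (2 * Real.pi)) := hHc.integrableOn_Icc
  rw [← ofReal_integral_eq_lintegral_ofReal hint (Eventually.of_forall hHnn)]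
  apply ENNReal.ofReal_le_ofReal
  have hpi : (0 : ℝ) ≤ 2 * Real.pi := by positivity
  rw [integral_Icc_eq_integral_Ioc, ← intervalIntegral.integral_of_le hpi, hH,
    intervalIntegral.integral_const_mul, intervalIntegral.integral_finsetSum]
  · have h3 := Finset.sum_le_sum h
    rw [Finset.sum_const, Finset.card_powerset, nsmul_eq_mul] at h3
    push_cast at h3
    have h4 : (0 : ℝ) < 2 ^ S.card := by positivity
    calc _ ≤ 2 / 2 ^ S.card * (2 ^ S.card * C) := mul_le_mul_of_nonneg_left h3 (by positivity)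
      _ = 2 * C := by field_simp
  · intro T _
    exact (Real.continuous_posLog.comp (hcont _).norm).intervalIntegrable _ _

/-- H1 : random signs + Baire -/
theorem signs (φ : ℂ → ℂ) (hφc : ContinuousOn φ (closedBall 0 1))
    (hφi : InjOn φ (closedBall 0 1)) (hφd : DifferentiableOn ℂ φ (ball 0 1))
    (a : ℕ → ℂ) (ha : ∀ n, a n ∈ φ '' sphere 0 1) (c : ℕ → ℝ) (hc0 : ∀ n, 0 ≤ c n)
    (hcs : Summable c)
    (hyp : ∀ ε : ℕ → Bool, ∃ C : ℝ, ∀ r ∈ Ico (1 / 2 : ℝ) 1, ∫ θ in (0 : ℝ)..(2 * Real.pi),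
      Real.posLog ‖∑' n, (if ε n then (1 : ℂ) else -1) * (c n : ℂ) /
        (a n - φ (circleMap 0 r θ))‖ ≤ C) :
    ∃ J : ℕ, ∫⁻ θ in Icc 0 (2 * Real.pi), ⨆ n : ℕ, ⨆ _ : J ≤ n,
      ENNReal.ofReal (Real.posLog (c n / ‖a n - φ (circleMap 0 1 θ)‖)) < ∞ := by
  classical
  have hsgn : ∀ (ε : ℕ → Bool) (r θ : ℝ),
      (∑' n, (if ε n then (1 : ℂ) else -1) * (c n : ℂ) / (a n - φ (circleMap 0 r θ))) =
      ∑' n, sg (ε n) * ((c n : ℂ) / (a n - φ (circleMap 0 r θ))) := by
    intro ε r θ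
    refine tsum_congr fun n => ?_
    rw [mul_div_assoc]; rfl
  simp only [hsgn] at hyp
  -- continuity in the signs
  have hcontε : ∀ r, 0 ≤ r → r < 1 → Continuous fun ε : ℕ → Bool =>
      ∫ θ in (0 : ℝ)..(2 * Real.pi),
        Real.posLog ‖∑' n, sg (ε n) * ((c n : ℂ) / (a n - φ (circleMap 0 r θ)))‖ := by
    intro r hr0 hr1
    obtain ⟨δ, hδ, hdist⟩ := dpos hφc hφi ha hr0 hr1
    have hne : ∀ n θ, a n - φ (circleMap 0 r θ) ≠ 0 := fun n θ =>
      norm_pos_iff.1 (hδ.trans_le (hdist n θ))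
    have hb : ∀ n θ, ‖(c n : ℂ) / (a n - φ (circleMap 0 r θ))‖ ≤ c n / δ := by
      intro n θ
      rw [norm_div, Complex.norm_real, Real.norm_eq_abs, abs_of_nonneg (hc0 n)]
      exact div_le_div_of_nonneg_left (hc0 n) hδ (hdist n θ)
    refine intervalIntegral.continuous_of_dominated_interval
      (bound := fun _ => ∑' n, c n / δ) ?_ ?_ ?_ ?_
    · intro ε
      have h1 : Continuous fun θ =>
          ∑' n, sg (ε n) * ((c n : ℂ) / (a n - φ (circleMap 0 r θ))) := by
        refine continuous_tsum (fun n => ?_) (hcs.div_const δ) (fun n θ => ?_)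
        · exact continuous_const.mul (continuous_const.div
            (continuous_const.sub (cont_phi hφc hr0 hr1.le)) (hne n))
        · rw [norm_mul, norm_sg, one_mul]; exact hb n θ
      exact (Real.continuous_posLog.comp h1.norm).aestronglyMeasurable
    · intro ε
      refine Eventually.of_forall fun θ _ => ?_
      rw [Real.norm_eq_abs, abs_of_nonneg Real.posLog_nonneg]
      refine (posLog_le_self (norm_nonneg _)).trans ?_
      refine tsum_of_norm_bounded (hcs.div_const δ).hasSum fun n => ?_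
      rw [norm_mul, norm_sg, one_mul]; exact hb n θ
    · exact intervalIntegrable_const
    · refine Eventually.of_forall fun θ _ => ?_
      refine Real.continuous_posLog.comp (Continuous.norm ?_)
      refine continuous_tsum (fun n => ?_) (hcs.div_const δ) (fun n ε => ?_)
      · exact ((continuous_of_discreteTopology (f := sg)).comp (continuous_apply n)).mul
          continuous_const
      · rw [norm_mul, norm_sg, one_mul]; exact hb n θ
  -- Baire
  obtain ⟨C, ⟨ε₀, hε₀⟩⟩ := nonempty_interior_of_iUnion_of_closed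
    (f := fun C : ℕ => {ε : ℕ → Bool | ∀ r ∈ Ico (1 / 2 : ℝ) 1, ∫ θ in (0 : ℝ)..(2 * Real.pi),
      Real.posLog ‖∑' n, sg (ε n) * ((c n : ℂ) / (a n - φ (circleMap 0 r θ)))‖ ≤ C})
    (by
      intro C
      have : {ε : ℕ → Bool | ∀ r ∈ Ico (1 / 2 : ℝ) 1, ∫ θ in (0 : ℝ)..(2 * Real.pi),
          Real.posLog ‖∑' n, sg (ε n) * ((c n : ℂ) / (a n - φ (circleMap 0 r θ)))‖ ≤ C} =
          ⋂ r ∈ Ico (1 / 2 : ℝ) 1, {ε : ℕ → Bool | ∫ θ in (0 : ℝ)..(2 * Real.pi),
          Real.posLog ‖∑' n, sg (ε n) * ((c n : ℂ) / (a n - φ (circleMap 0 r θ)))‖ ≤ C} := by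
        ext ε; simp only [mem_ofPred_eq, mem_iInter]
      rw [this]
      refine isClosed_biInter fun r hr => ?_
      exact isClosed_le (hcontε r (by linarith [hr.1]) hr.2) continuous_const)
    (by
      refine eq_univ_of_forall fun ε => mem_iUnion.2 ?_
      obtain ⟨C, hC⟩ := hyp ε
      obtain ⟨N, hN⟩ := exists_nat_ge C
      exact ⟨N, fun r hr => (hC r hr).trans hN⟩)
  obtain ⟨I, u, hu1, hu2⟩ := isOpen_pi_iff.1 isOpen_interior ε₀ hε₀
  obtain ⟨J, hJ⟩ : ∃ J, ∀ n ∈ I, n < J := ⟨I.sup id + 1, fun n hn =>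
    Nat.lt_succ_of_le (Finset.le_sup (f := id) hn)⟩
  have hcyl : ∀ ε : ℕ → Bool, (∀ n < J, ε n = ε₀ n) → ∀ r ∈ Ico (1 / 2 : ℝ) 1,
      ∫ θ in (0 : ℝ)..(2 * Real.pi),
      Real.posLog ‖∑' n, sg (ε n) * ((c n : ℂ) / (a n - φ (circleMap 0 r θ)))‖ ≤ C := by
    intro ε hε
    have h1 : ε ∈ (I : Set ℕ).pi u := by
      intro n hn
      rw [hε n (hJ n hn)]
      exact (hu1 n hn).2
    exact interior_subset (hu2 h1)
  refine ⟨J, ?_⟩
  -- the bound at the radius one for finitely many terms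
  have hfin : ∀ J' : ℕ, ∫⁻ θ in Icc 0 (2 * Real.pi), ⨆ n : ℕ, ⨆ _ : n ∈ Finset.Ico J J',
      ENNReal.ofReal (Real.posLog (c n / ‖a n - φ (circleMap 0 1 θ)‖)) ≤
        ENNReal.ofReal (2 * C) := by
    intro J'
    set ρ : ℕ → ℝ := fun k => 1 - 1 / ((k : ℝ) + 2) with hρ
    have hρ1 : ∀ k, ρ k ∈ Ico (1 / 2 : ℝ) 1 := by
      intro k
      have hk : (0 : ℝ) ≤ k := Nat.cast_nonneg k
      constructor
      · simp only [hρ]
        have : 1 / ((k : ℝ) + 2) ≤ 1 / 2 := one_div_le_one_div_of_le (by norm_num) (by linarith)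
        linarith
      · simp only [hρ]
        have : 0 < 1 / ((k : ℝ) + 2) := by positivity
        linarith
    have hρ0 : ∀ k, 0 ≤ ρ k := fun k => by linarith [(hρ1 k).1]
    have hρt : Tendsto ρ atTop (𝓝 1) := by
      have h1 : Tendsto (fun k : ℕ => 1 / ((k : ℝ) + 2)) atTop (𝓝 0) := by
        have h2 : Tendsto (fun k : ℕ => (k : ℝ) + 2) atTop atTop :=
          tendsto_atTop_add_const_right _ _ tendsto_natCast_atTop_atTop
        refine h2.inv_tendsto_atTop.congr fun k => ?_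
        rw [Pi.inv_apply, one_div]
      have h3 := (tendsto_const_nhds (x := (1 : ℝ)) (f := (atTop : Filter ℕ))).sub h1
      rw [sub_zero] at h3
      exact h3
    have hmeas : ∀ k n, Measurable fun θ : ℝ =>
        ENNReal.ofReal (Real.posLog (c n / ‖a n - φ (circleMap 0 (ρ k) θ)‖)) := by
      intro k n
      have h1 := cont_phi hφc (hρ0 k) (hρ1 k).2.le
      exact (Real.continuous_posLog.measurable.comp
        (measurable_const.div (continuous_const.sub h1).norm.measurable)).ennreal_ofReal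
    have h1 : ∀ k, ∫⁻ θ in Icc 0 (2 * Real.pi), ⨆ n : ℕ, ⨆ _ : n ∈ Finset.Ico J J',
        ENNReal.ofReal (Real.posLog (c n / ‖a n - φ (circleMap 0 (ρ k) θ)‖)) ≤
          ENNReal.ofReal (2 * C) := by
      intro k
      refine fixed_radius φ hφc hφi a ha c hc0 hcs _ ε₀ C (ρ k) (hρ0 k) (hρ1 k).2 ?_
      intro T _
      refine hcyl _ (fun n hn => ?_) (ρ k) (hρ1 k)
      simp only [pat]
      rw [if_neg (by simp only [Finset.mem_Ico]; omega)]
    calc _ ≤ ∫⁻ θ in Icc 0 (2 * Real.pi), liminf (fun k => ⨆ n : ℕ, ⨆ _ : n ∈ Finset.Ico J J',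
          ENNReal.ofReal (Real.posLog (c n / ‖a n - φ (circleMap 0 (ρ k) θ)‖))) atTop := by
          refine lintegral_mono fun θ => iSup₂_le fun n hn => ?_
          have h2 : ENNReal.ofReal (Real.posLog (c n / ‖a n - φ (circleMap 0 1 θ)‖)) ≤
              liminf (fun k => ENNReal.ofReal
                (Real.posLog (c n / ‖a n - φ (circleMap 0 (ρ k) θ)‖))) atTop := by
            by_cases h0 : a n - φ (circleMap 0 1 θ) = 0
            · rw [h0]; simp
            · have h3 : Tendsto (fun k => φ (circleMap 0 (ρ k) θ)) atTop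
                  (𝓝 (φ (circleMap 0 1 θ))) := by
                have h4 : Tendsto (fun k => circleMap 0 (ρ k) θ) atTop
                    (𝓝[closedBall 0 1] (circleMap 0 1 θ)) := by
                  refine tendsto_nhdsWithin_iff.2 ⟨?_, Eventually.of_forall fun k => ?_⟩
                  · have h5 : Continuous fun r : ℝ => circleMap 0 r θ := by
                      unfold circleMap; fun_prop
                    exact (h5.tendsto 1).comp hρt
                  · exact closedBall_subset_closedBall (hρ1 k).2.le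
                      (circleMap_mem_closedBall 0 (hρ0 k) θ)
                have h6 := hφc (circleMap 0 1 θ) (circleMap_mem_closedBall 0 zero_le_one θ)
                exact h6.tendsto.comp h4
              have h7 : Tendsto (fun k => ENNReal.ofReal
                  (Real.posLog (c n / ‖a n - φ (circleMap 0 (ρ k) θ)‖))) atTop
                  (𝓝 (ENNReal.ofReal (Real.posLog (c n / ‖a n - φ (circleMap 0 1 θ)‖)))) := by
                refine ENNReal.tendsto_ofReal ?_
                refine (Real.continuous_posLog.tendsto _).comp ?_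
                exact tendsto_const_nhds.div (tendsto_const_nhds.sub h3).norm (norm_ne_zero_iff.2 h0)
              rw [h7.liminf_eq]
          refine h2.trans ?_
          refine liminf_le_liminf (Eventually.of_forall fun k => ?_)
          exact le_iSup₂_of_le n hn le_rfl
      _ ≤ liminf (fun k => ∫⁻ θ in Icc 0 (2 * Real.pi), ⨆ n : ℕ, ⨆ _ : n ∈ Finset.Ico J J',
          ENNReal.ofReal (Real.posLog (c n / ‖a n - φ (circleMap 0 (ρ k) θ)‖))) atTop := by
          refine lintegral_liminf_le fun k => ?_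
          exact Measurable.iSup fun n => Measurable.iSup_Prop _ (hmeas k n)
      _ ≤ liminf (fun _ : ℕ => ENNReal.ofReal (2 * C)) atTop :=
          liminf_le_liminf (Eventually.of_forall h1)
      _ = ENNReal.ofReal (2 * C) := liminf_const _
  have hmeas1 : ∀ n, Measurable fun θ : ℝ =>
      ENNReal.ofReal (Real.posLog (c n / ‖a n - φ (circleMap 0 1 θ)‖)) := by
    intro n
    have h1 := cont_phi hφc zero_le_one le_rfl
    exact (Real.continuous_posLog.measurable.comp
      (measurable_const.div (continuous_const.sub h1).norm.measurable)).ennreal_ofReal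
  have hmono : Monotone fun (J' : ℕ) (θ : ℝ) => ⨆ n : ℕ, ⨆ _ : n ∈ Finset.Ico J J',
      ENNReal.ofReal (Real.posLog (c n / ‖a n - φ (circleMap 0 1 θ)‖)) := by
    intro K K' hK θ
    refine iSup₂_le fun n hn => ?_
    exact le_iSup₂_of_le n (Finset.Ico_subset_Ico_right hK hn) le_rfl
  have hle : ∫⁻ θ in Icc 0 (2 * Real.pi), ⨆ n : ℕ, ⨆ _ : J ≤ n,
      ENNReal.ofReal (Real.posLog (c n / ‖a n - φ (circleMap 0 1 θ)‖)) ≤
      ENNReal.ofReal (2 * C) := by
    calc _ ≤ ∫⁻ θ in Icc 0 (2 * Real.pi), ⨆ J' : ℕ, ⨆ n : ℕ, ⨆ _ : n ∈ Finset.Ico J J',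
          ENNReal.ofReal (Real.posLog (c n / ‖a n - φ (circleMap 0 1 θ)‖)) := by
          refine lintegral_mono fun θ => iSup₂_le fun n hn => ?_
          refine le_iSup_of_le (n + 1) ?_
          exact le_iSup₂_of_le n (Finset.mem_Ico.2 ⟨hn, Nat.lt_succ_self n⟩) le_rfl
      _ = ⨆ J' : ℕ, ∫⁻ θ in Icc 0 (2 * Real.pi), ⨆ n : ℕ, ⨆ _ : n ∈ Finset.Ico J J',
          ENNReal.ofReal (Real.posLog (c n / ‖a n - φ (circleMap 0 1 θ)‖)) := by
          refine lintegral_iSup (fun J' => ?_) hmono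
          exact Measurable.iSup fun n => Measurable.iSup_Prop _ (hmeas1 n)
      _ ≤ _ := iSup_le hfin
  exact lt_of_le_of_lt hle ENNReal.ofReal_lt_top

end P373
end Pool.Agent.Helper311.Nev
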