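import Mathlib
import Pool.Agent.Helper311.Nev.Ker

open MeasureTheory Set Filter Topology Metric
open scoped ENNReal NNReal

namespace Pool.Agent.Helper311.Nev
namespace P374


theorem h2_per (U : ℝ → ℝ≥0∞) (hU : ∀ t, U (t + 2 * Real.pi) = U t) :
    ∫⁻ t in Icc (-(2 * Real.pi)) (4 * Real.pi), U t ≤ 3 * ∫⁻ t in Icc 0 (2 * Real.pi), U t := by
  have hp := Real.pi_pos
  have h1 : ∫⁻ t in Icc (-(2 * Real.pi)) 0, U t = ∫⁻ t in Icc 0 (2 * Real.pi), U t := by
    rw [← (measurePreserving_add_right volume (2 * Real.pi)).setLIntegral_comp_preimage_emb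
      (measurableEmbedding_addRight _) U (Icc 0 (2 * Real.pi))]
    have : (fun x : ℝ => x + 2 * Real.pi) ⁻¹' Icc 0 (2 * Real.pi) = Icc (-(2 * Real.pi)) 0 := by
      ext x
      simp only [mem_preimage, mem_Icc]
      constructor
      · rintro ⟨h1, h2⟩; constructor <;> linarith
      · rintro ⟨h1, h2⟩; constructor <;> linarith
    rw [this]
    simp only [hU]
  have h2 : ∫⁻ t in Icc 0 (2 * Real.pi), U t = ∫⁻ t in Icc (2 * Real.pi) (4 * Real.pi), U t := by
    rw [← (measurePreserving_add_right volume (2 * Real.pi)).setLIntegral_comp_preimage_emb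
      (measurableEmbedding_addRight _) U (Icc (2 * Real.pi) (4 * Real.pi))]
    have : (fun x : ℝ => x + 2 * Real.pi) ⁻¹' Icc (2 * Real.pi) (4 * Real.pi) =
        Icc 0 (2 * Real.pi) := by
      ext x
      simp only [mem_preimage, mem_Icc]
      constructor
      · rintro ⟨h1, h2⟩; constructor <;> linarith
      · rintro ⟨h1, h2⟩; constructor <;> linarith
    rw [this]
    simp only [hU]
  have h3 : Icc (-(2 * Real.pi)) (4 * Real.pi) =
      (Icc (-(2 * Real.pi)) 0 ∪ Icc 0 (2 * Real.pi)) ∪ Icc (2 * Real.pi) (4 * Real.pi) := by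
    rw [Icc_union_Icc_eq_Icc (by linarith) (by linarith),
      Icc_union_Icc_eq_Icc (by linarith) (by linarith)]
  rw [h3]
  refine (lintegral_union_le _ _ _).trans ?_
  refine (add_le_add_left (lintegral_union_le _ _ _) _).trans ?_
  rw [h1, ← h2]
  apply le_of_eq
  ring

theorem h2_count (D : ℕ → Set ℝ) (t : ℝ) (V : ℝ≥0∞) (h : ∀ k, t ∈ D k → (k : ℝ≥0∞) ≤ V) :
    ∑' k, (D k).indicator (fun _ => (1 : ℝ≥0∞)) t ≤ V + 1 := by
  by_cases hV : V = ∞
  · rw [hV, top_add]
    exact le_top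
  have h0 : ∀ k, k ∉ Finset.range (⌊V.toReal⌋₊ + 1) →
      (D k).indicator (fun _ => (1 : ℝ≥0∞)) t = 0 := by
    intro k hk
    rw [Finset.mem_range, not_lt] at hk
    apply indicator_of_notMem
    intro htk
    have h1 := h k htk
    have h2 : (k : ℝ) ≤ V.toReal := by
      have := ENNReal.toReal_mono hV h1
      rwa [ENNReal.toReal_natCast] at this
    have h3 : k ≤ ⌊V.toReal⌋₊ := Nat.le_floor h2
    omega
  rw [tsum_eq_sum h0]
  calc ∑ k ∈ Finset.range (⌊V.toReal⌋₊ + 1), (D k).indicator (fun _ => (1 : ℝ≥0∞)) t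
      ≤ ∑ k ∈ Finset.range (⌊V.toReal⌋₊ + 1), (1 : ℝ≥0∞) :=
        Finset.sum_le_sum fun k _ => indicator_le_self' (fun _ _ => zero_le) t
    _ = (⌊V.toReal⌋₊ : ℝ≥0∞) + 1 := by
        rw [Finset.sum_const, Finset.card_range, nsmul_eq_mul, mul_one]
        push_cast
        rfl
    _ ≤ V + 1 := by
        gcongr
        rw [← ENNReal.ofReal_toReal hV, ← ENNReal.ofReal_natCast, ENNReal.toReal_ofReal ENNReal.toReal_nonneg]
        exact ENNReal.ofReal_le_ofReal (Nat.floor_le ENNReal.toReal_nonneg)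

theorem h2_vit (D : Set ℝ) (hD : D ⊆ Icc 0 (2 * Real.pi)) (ρ : ℝ → ℝ)
    (hρ : ∀ θ ∈ D, 0 < ρ θ ∧ ρ θ ≤ 1) :
    ∃ u ⊆ D, u.Countable ∧ (u.PairwiseDisjoint fun θ => closedBall θ (ρ θ)) ∧
      volume D ≤ 10 * ∑' θ : u, ENNReal.ofReal (ρ θ) ∧
      ∑' θ : u, ENNReal.ofReal (ρ θ) ≤ ENNReal.ofReal (2 * Real.pi + 2) := by
  obtain ⟨u, huD, hdisj, hcov⟩ := Vitali.exists_disjoint_subfamily_covering_enlargement_closedBall
    D (fun θ => θ) ρ 1 (fun θ hθ => (hρ θ hθ).2) 5 (by norm_num)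
  have huc : u.Countable := hdisj.countable_of_nonempty_interior (fun θ hθ => by
    refine ⟨θ, ?_⟩
    exact ball_subset_interior_closedBall (mem_ball_self (hρ θ (huD hθ)).1))
  have : Countable u := huc.to_subtype
  refine ⟨u, huD, huc, hdisj, ?_, ?_⟩
  · have h1 : D ⊆ ⋃ θ ∈ u, closedBall θ (5 * ρ θ) := by
      intro θ hθ
      obtain ⟨b, hb, hsub⟩ := hcov θ hθ
      exact mem_biUnion hb (hsub (mem_closedBall_self (hρ θ hθ).1.le))
    calc volume D ≤ volume (⋃ θ ∈ u, closedBall θ (5 * ρ θ)) := measure_mono h1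
      _ ≤ ∑' θ : u, volume (closedBall (θ : ℝ) (5 * ρ θ)) := measure_biUnion_le _ huc _
      _ = ∑' θ : u, 10 * ENNReal.ofReal (ρ θ) := by
          refine tsum_congr fun θ => ?_
          rw [Real.volume_closedBall, ← ENNReal.ofReal_ofNat 10, ← ENNReal.ofReal_mul (by norm_num)]
          congr 1
          ring
      _ = 10 * ∑' θ : u, ENNReal.ofReal (ρ θ) := ENNReal.tsum_mul_left
  · calc ∑' θ : u, ENNReal.ofReal (ρ θ) ≤ ∑' θ : u, volume (closedBall (θ : ℝ) (ρ θ)) := by
          refine ENNReal.tsum_le_tsum fun θ => ?_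
          rw [Real.volume_closedBall]
          exact ENNReal.ofReal_le_ofReal (by linarith [(hρ θ (huD θ.2)).1])
      _ = volume (⋃ θ : u, closedBall (θ : ℝ) (ρ θ)) := by
          rw [measure_iUnion]
          · intro a b hab
            exact hdisj a.2 b.2 (fun h => hab (Subtype.ext h))
          · exact fun θ => measurableSet_closedBall
      _ ≤ volume (Icc (-1) (2 * Real.pi + 1)) := by
          apply measure_mono
          refine iUnion_subset fun θ => ?_
          rw [Real.closedBall_eq_Icc]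
          have h1 := hD (huD θ.2)
          have h2 := hρ θ (huD θ.2)
          exact Icc_subset_Icc (by linarith [h1.1]) (by linarith [h1.2])
      _ = ENNReal.ofReal (2 * Real.pi + 2) := by
          rw [Real.volume_Icc]
          congr 1
          ring

/-- H2 : necessity core -/
theorem necessity_core (K : ℝ) (hK : 1 ≤ K) (φ : ℂ → ℂ)
    (hφc : ContinuousOn φ (closedBall 0 1))
    (hφi : InjOn φ (closedBall 0 1)) (hφd : DifferentiableOn ℂ φ (ball 0 1))
    (hyp : ∀ r θ : ℝ, 0 ≤ r → r < 1 →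
      ∃ a ∈ φ '' sphere 0 1,
        ‖a - φ (circleMap 0 r θ)‖ ≤ 2 * (1 - r) * ‖deriv φ (circleMap 0 r θ)‖ ∧
        ENNReal.ofReal (1 - r) ≤ volume {t ∈ Icc (θ - (1 - r)) (θ + (1 - r)) |
          ‖φ (circleMap 0 1 t) - a‖ ≤ K * ((1 - r) * ‖deriv φ (circleMap 0 r θ)‖)})
    (hsigns : ∀ (a : ℕ → ℂ) (c : ℕ → ℝ), (∀ n, a n ∈ φ '' sphere 0 1) → (∀ n, 0 ≤ c n) →
      Summable c → ∃ J : ℕ, ∫⁻ θ in Icc 0 (2 * Real.pi), ⨆ n : ℕ, ⨆ _ : J ≤ n,
      ENNReal.ofReal (Real.posLog (c n / ‖a n - φ (circleMap 0 1 θ)‖)) < ∞) :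
    ∫⁻ θ in Icc 0 (2 * Real.pi), ⨆ r ∈ Ico (0 : ℝ) 1,
      ENNReal.ofReal (Real.posLog (‖deriv φ (circleMap 0 r θ)‖⁻¹)) < ∞ := by
  classical
  have hpi := Real.pi_gt_three
  -- notation
  set g : ℝ → ℝ → ℝ := fun r θ => ‖deriv φ (circleMap 0 r θ)‖ with hg
  have hcirc : ∀ t : ℝ, circleMap 0 1 t ∈ closedBall (0 : ℂ) 1 := fun t =>
    circleMap_mem_closedBall 0 zero_le_one t
  have hsph : ∀ t : ℝ, circleMap 0 1 t ∈ sphere (0 : ℂ) 1 := fun t =>
    circleMap_mem_sphere 0 zero_le_one t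
  have hψc : Continuous fun t : ℝ => φ (circleMap 0 1 t) :=
    hφc.comp_continuous (continuous_circleMap 0 1) hcirc
  have hball : ∀ r θ : ℝ, 0 ≤ r → r < 1 → circleMap 0 r θ ∈ ball (0 : ℂ) 1 := by
    intro r θ h0 h1
    rw [mem_ball_zero_iff, norm_circleMap_zero, abs_of_nonneg h0]
    exact h1
  have hgc : ∀ r : ℝ, 0 ≤ r → r < 1 → Continuous (g r) := by
    intro r h0 h1
    have hd : ContinuousOn (deriv φ) (ball 0 1) := (hφd.deriv isOpen_ball).continuousOn
    exact (hd.comp_continuous (continuous_circleMap 0 r) (fun θ => hball r θ h0 h1)).norm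
  -- the sets D
  let D : ℕ → Set ℝ := fun k => {θ | ∃ r ∈ Ico (0 : ℝ) 1, g r θ < Real.exp (-(k : ℝ))}
  have hDopen : ∀ k, IsOpen (D k) := by
    intro k
    have : D k = ⋃ r ∈ Ico (0 : ℝ) 1, {θ | g r θ < Real.exp (-(k : ℝ))} := by
      ext θ
      simp only [D, mem_iUnion, exists_prop]
      rfl
    rw [this]
    exact isOpen_biUnion fun r hr => isOpen_lt (hgc r hr.1 hr.2) continuous_const
  have hMle : ∀ θ : ℝ, (⨆ r ∈ Ico (0 : ℝ) 1, ENNReal.ofReal (Real.posLog (g r θ)⁻¹)) ≤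
      ∑' k, (D k).indicator (fun _ => (1 : ℝ≥0∞)) θ := by
    intro θ
    refine iSup₂_le fun r hr => ?_
    set x := Real.posLog (g r θ)⁻¹ with hx
    have hmem : ∀ k : ℕ, k < ⌈x⌉₊ → θ ∈ D k := by
      intro k hk
      rw [Nat.lt_ceil] at hk
      refine ⟨r, hr, ?_⟩
      have hx0 : 0 < x := lt_of_le_of_lt (Nat.cast_nonneg k) hk
      have hlog : x = Real.log (g r θ)⁻¹ := by
        rw [hx, Real.posLog_def]
        show max 0 (Real.log (g r θ)⁻¹) = _
        refine max_eq_right ?_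
        by_contra hneg
        rw [not_le] at hneg
        have : x = 0 := by
          rw [hx, Real.posLog_def]
          exact max_eq_left hneg.le
        exact hx0.ne' this
      have hpos : 0 < g r θ := by
        rcases (norm_nonneg (deriv φ (circleMap 0 r θ))).eq_or_lt with h | h
        · exfalso
          have : g r θ = 0 := h.symm
          rw [this, inv_zero, Real.log_zero] at hlog
          exact hx0.ne' hlog
        · exact h
      rw [Real.log_inv] at hlog
      rw [← Real.log_lt_iff_lt_exp hpos]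
      linarith
    calc ENNReal.ofReal x ≤ (⌈x⌉₊ : ℝ≥0∞) := by
          rw [← ENNReal.ofReal_natCast]
          exact ENNReal.ofReal_le_ofReal (Nat.le_ceil x)
      _ = ∑ k ∈ Finset.range ⌈x⌉₊, (1 : ℝ≥0∞) := by simp
      _ = ∑ k ∈ Finset.range ⌈x⌉₊, (D k).indicator (fun _ => (1 : ℝ≥0∞)) θ := by
          refine Finset.sum_congr rfl fun k hk => ?_
          rw [indicator_of_mem (hmem k (Finset.mem_range.1 hk))]
      _ ≤ _ := ENNReal.sum_le_tsum _
  have hMint : ∫⁻ θ in Icc 0 (2 * Real.pi), (⨆ r ∈ Ico (0 : ℝ) 1,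
      ENNReal.ofReal (Real.posLog (g r θ)⁻¹)) ≤ ∑' k, volume (D k ∩ Icc 0 (2 * Real.pi)) := by
    refine (lintegral_mono hMle).trans ?_
    rw [lintegral_tsum (fun k =>
      (measurable_const.indicator (hDopen k).measurableSet).aemeasurable)]
    refine ENNReal.tsum_le_tsum fun k => ?_
    rw [lintegral_indicator (hDopen k).measurableSet, setLIntegral_one,
      Measure.restrict_apply (hDopen k).measurableSet]
  -- choices
  have hch : ∀ (k : ℕ) (θ : ℝ), ∃ r : ℝ, θ ∈ D k → (0 ≤ r ∧ r < 1 ∧ g r θ < Real.exp (-(k : ℝ))) := by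
    intro k θ
    by_cases h : θ ∈ D k
    · obtain ⟨r, hr, h'⟩ := h
      exact ⟨r, fun _ => ⟨hr.1, hr.2, h'⟩⟩
    · exact ⟨0, fun h' => absurd h' h⟩
  choose r hr using hch
  choose! a ha1 ha2 ha3 using hyp
  have hvit : ∀ k, ∃ u ⊆ D k ∩ Icc 0 (2 * Real.pi), u.Countable ∧
      (u.PairwiseDisjoint fun θ => closedBall θ (1 - r k θ)) ∧
      volume (D k ∩ Icc 0 (2 * Real.pi)) ≤ 10 * ∑' θ : u, ENNReal.ofReal (1 - r k θ) ∧
      ∑' θ : u, ENNReal.ofReal (1 - r k θ) ≤ ENNReal.ofReal (2 * Real.pi + 2) := by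
    intro k
    exact h2_vit (D k ∩ Icc 0 (2 * Real.pi)) inter_subset_right (fun θ => 1 - r k θ)
      (fun θ hθ => ⟨by linarith [(hr k θ hθ.1).2.1], by linarith [(hr k θ hθ.1).1]⟩)
  choose u huD huc hudisj huvol husum using hvit
  have hcount : ∀ k, Countable (u k) := fun k => (huc k).to_subtype
  let I := Σ k : ℕ, (u k)
  have hIc : Countable I := inferInstance
  let hIe : Encodable I := Encodable.ofCountable I
  have hrI : ∀ i : I, 0 ≤ r i.1 i.2 ∧ r i.1 i.2 < 1 ∧ g (r i.1 i.2) i.2 < Real.exp (-(i.1 : ℝ)) :=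
    fun i => hr i.1 i.2 (huD i.1 i.2.2).1
  let m : I → ℝ := fun i => (1 - r i.1 i.2) * g (r i.1 i.2) i.2
  let c : I → ℝ := fun i => Real.exp (i.1 / 2) * m i
  let A : I → ℂ := fun i => a (r i.1 i.2) i.2
  have hm0 : ∀ i, 0 ≤ m i := fun i => mul_nonneg (by linarith [(hrI i).2.1]) (norm_nonneg _)
  have hc0 : ∀ i, 0 ≤ c i := fun i => mul_nonneg (Real.exp_pos _).le (hm0 i)
  have hcle : ∀ i : I, c i ≤ Real.exp (-(i.1 / 2 : ℝ)) * (1 - r i.1 i.2) := by
    intro i
    obtain ⟨h0, h1, h2⟩ := hrI i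
    have h3 : 0 ≤ 1 - r i.1 i.2 := by linarith
    have h4 : Real.exp (i.1 / 2 : ℝ) * Real.exp (-(i.1 : ℝ)) = Real.exp (-(i.1 / 2 : ℝ)) := by
      rw [← Real.exp_add]
      congr 1
      ring
    calc c i = Real.exp (i.1 / 2 : ℝ) * ((1 - r i.1 i.2) * g (r i.1 i.2) i.2) := rfl
      _ ≤ Real.exp (i.1 / 2 : ℝ) * ((1 - r i.1 i.2) * Real.exp (-(i.1 : ℝ))) := by
          gcongr
      _ = Real.exp (-(i.1 / 2 : ℝ)) * (1 - r i.1 i.2) := by
          rw [← h4]
          ring
  have hcs : Summable c := by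
    have h1 : ∑' i : I, ENNReal.ofReal (c i) ≤
        ∑' k : ℕ, ENNReal.ofReal (Real.exp (-(k / 2 : ℝ))) * ENNReal.ofReal (2 * Real.pi + 2) := by
      calc ∑' i : I, ENNReal.ofReal (c i)
          ≤ ∑' i : I, ENNReal.ofReal (Real.exp (-(i.1 / 2 : ℝ))) * ENNReal.ofReal (1 - r i.1 i.2) := by
            refine ENNReal.tsum_le_tsum fun i => ?_
            rw [← ENNReal.ofReal_mul (Real.exp_pos _).le]
            exact ENNReal.ofReal_le_ofReal (hcle i)
        _ = ∑' (k : ℕ) (θ : u k), ENNReal.ofReal (Real.exp (-(k / 2 : ℝ))) *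
              ENNReal.ofReal (1 - r k θ) :=
            ENNReal.tsum_sigma (fun (k : ℕ) (θ : u k) => ENNReal.ofReal (Real.exp (-(k / 2 : ℝ))) *
              ENNReal.ofReal (1 - r k θ))
        _ ≤ _ := by
            refine ENNReal.tsum_le_tsum fun k => ?_
            rw [ENNReal.tsum_mul_left]
            gcongr
            exact husum k
    have h2 : ∑' k : ℕ, ENNReal.ofReal (Real.exp (-(k / 2 : ℝ))) * ENNReal.ofReal (2 * Real.pi + 2) ≠ ∞ := by
      rw [ENNReal.tsum_mul_right]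
      refine ENNReal.mul_ne_top ?_ ENNReal.ofReal_ne_top
      have hsum : Summable fun k : ℕ => Real.exp (-(k / 2 : ℝ)) := by
        have h := summable_geometric_of_lt_one (r := Real.exp (-(1 / 2))) (Real.exp_pos _).le
          (by rw [Real.exp_lt_one_iff]; norm_num)
        refine h.congr fun k => ?_
        rw [← Real.exp_nat_mul]
        congr 1
        ring
      rw [← ENNReal.ofReal_tsum_of_nonneg (fun k => (Real.exp_pos _).le) hsum]
      exact ENNReal.ofReal_ne_top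
    have h3 := ENNReal.summable_toReal (ne_top_of_le_ne_top h2 h1)
    refine h3.congr fun i => ?_
    exact ENNReal.toReal_ofReal (hc0 i)
  have hencinj : Function.Injective (Encodable.encode : I → ℕ) := Encodable.encode_injective
  let C : ℕ → ℝ := Function.extend (Encodable.encode : I → ℕ) c (fun _ => 0)
  let AA : ℕ → ℂ := Function.extend (Encodable.encode : I → ℕ) A (fun _ => φ 1)
  have hCe : ∀ i : I, C (Encodable.encode i) = c i := fun i => hencinj.extend_apply _ _ i
  have hAe : ∀ i : I, AA (Encodable.encode i) = A i := fun i => hencinj.extend_apply _ _ i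
  have hCout : ∀ n, n ∉ range (Encodable.encode : I → ℕ) → C n = 0 := fun n hn =>
    Function.extend_apply' _ _ _ (fun h => hn h)
  have hAout : ∀ n, n ∉ range (Encodable.encode : I → ℕ) → AA n = φ 1 := fun n hn =>
    Function.extend_apply' _ _ _ (fun h => hn h)
  have hAi : ∀ i : I, A i ∈ φ '' sphere 0 1 := fun i => ha1 _ _ (hrI i).1 (hrI i).2.1
  obtain ⟨J, hJ⟩ := hsigns AA C (by
      intro n
      by_cases hn : n ∈ range (Encodable.encode : I → ℕ)
      · obtain ⟨i, rfl⟩ := hn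
        rw [hAe]
        exact hAi i
      · rw [hAout n hn]
        exact ⟨1, by simp, rfl⟩)
    (by
      intro n
      by_cases hn : n ∈ range (Encodable.encode : I → ℕ)
      · obtain ⟨i, rfl⟩ := hn
        rw [hCe]
        exact hc0 i
      · rw [hCout n hn])
    (by
      rw [← hencinj.summable_iff hCout]
      refine hcs.congr fun i => ?_
      exact (hCe i).symm)
  set U : ℝ → ℝ≥0∞ := fun θ => ⨆ n : ℕ, ⨆ _ : J ≤ n,
      ENNReal.ofReal (Real.posLog (C n / ‖AA n - φ (circleMap 0 1 θ)‖)) with hU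
  have hUper : ∀ t, U (t + 2 * Real.pi) = U t := by
    intro t
    simp only [hU, periodic_circleMap 0 1 t]
  -- large indices
  have hfin : {i : I | Encodable.encode i < J}.Finite :=
    (Set.finite_Iio J).preimage hencinj.injOn
  obtain ⟨B, hB⟩ := (hfin.image Sigma.fst).bddAbove
  have hbig : ∀ i : I, B + 1 ≤ i.1 → J ≤ Encodable.encode i := by
    intro i hi
    by_contra hlt
    rw [not_le] at hlt
    have := hB ⟨i, hlt, rfl⟩
    omega
  -- the sets E
  let E : I → Set ℝ := fun i => {t ∈ Icc ((i.2 : ℝ) - (1 - r i.1 i.2)) ((i.2 : ℝ) + (1 - r i.1 i.2)) |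
    ‖φ (circleMap 0 1 t) - A i‖ ≤ K * m i}
  have hEm : ∀ i, MeasurableSet (E i) := by
    intro i
    have : IsClosed (E i) :=
      isClosed_Icc.inter (isClosed_le (hψc.sub continuous_const).norm continuous_const)
    exact this.measurableSet
  have hEv : ∀ i : I, ENNReal.ofReal (1 - r i.1 i.2) ≤ volume (E i) := fun i =>
    ha3 _ _ (hrI i).1 (hrI i).2.1
  let N : I → Set ℝ := fun i => {t | φ (circleMap 0 1 t) = A i}
  have hNc : ∀ i, (N i).Countable := by
    intro i
    obtain ⟨b, hb, hbA⟩ := hAi i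
    have h1 := (countable_singleton b).preimage_circleMap 0 (R := 1) one_ne_zero
    refine h1.mono fun t ht => ?_
    refine hφi (hcirc t) (sphere_subset_closedBall hb) ?_
    rw [hbA]
    exact ht
  have hNm : ∀ i, MeasurableSet (N i) := fun i => (hNc i).measurableSet
  have hN0 : ∀ i, volume (N i) = 0 := fun i => (hNc i).measure_zero _
  have hKpos : 0 < K := by linarith
  have hlogK : 0 ≤ Real.log K := Real.log_nonneg hK
  have hUbig : ∀ i : I, B + 1 ≤ i.1 → ∀ t ∈ E i \ N i,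
      (i.1 : ℝ≥0∞) ≤ 2 * U t + ENNReal.ofReal (2 * Real.log K) := by
    intro i hi t ht
    have hne : φ (circleMap 0 1 t) ≠ A i := ht.2
    have hnorm : 0 < ‖A i - φ (circleMap 0 1 t)‖ := by
      rw [norm_pos_iff, sub_ne_zero]
      exact hne.symm
    have hle : ‖A i - φ (circleMap 0 1 t)‖ ≤ K * m i := by
      rw [norm_sub_rev]
      exact ht.1.2
    have hmpos : 0 < m i := by
      by_contra h
      have : m i = 0 := le_antisymm (not_lt.1 h) (hm0 i)
      rw [this, mul_zero] at hle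
      linarith
    have h1 : Real.exp (i.1 / 2 : ℝ) / K ≤ c i / ‖A i - φ (circleMap 0 1 t)‖ := by
      rw [div_le_div_iff₀ hKpos hnorm]
      calc Real.exp (i.1 / 2 : ℝ) * ‖A i - φ (circleMap 0 1 t)‖
          ≤ Real.exp (i.1 / 2 : ℝ) * (K * m i) := by gcongr
        _ = c i * K := by
            show _ = Real.exp (i.1 / 2 : ℝ) * m i * K
            ring
    have h2 : (i.1 / 2 : ℝ) - Real.log K ≤ Real.posLog (c i / ‖A i - φ (circleMap 0 1 t)‖) := by
      calc (i.1 / 2 : ℝ) - Real.log K = Real.log (Real.exp (i.1 / 2 : ℝ) / K) := by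
            rw [Real.log_div (Real.exp_pos _).ne' hKpos.ne', Real.log_exp]
        _ ≤ Real.log (c i / ‖A i - φ (circleMap 0 1 t)‖) :=
            Real.log_le_log (by positivity) h1
        _ ≤ _ := le_max_right _ _
    have h3 : ENNReal.ofReal ((i.1 / 2 : ℝ) - Real.log K) ≤ U t := by
      refine (ENNReal.ofReal_le_ofReal h2).trans ?_
      rw [← hCe i, ← hAe i]
      exact le_iSup₂_of_le (f := fun (n : ℕ) (_ : J ≤ n) =>
        ENNReal.ofReal (Real.posLog (C n / ‖AA n - φ (circleMap 0 1 t)‖)))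
        (Encodable.encode i) (hbig i hi) le_rfl
    calc (i.1 : ℝ≥0∞) = ENNReal.ofReal (2 * ((i.1 / 2 : ℝ) - Real.log K) + 2 * Real.log K) := by
          rw [← ENNReal.ofReal_natCast]
          congr 1
          ring
      _ ≤ ENNReal.ofReal (2 * ((i.1 / 2 : ℝ) - Real.log K)) + ENNReal.ofReal (2 * Real.log K) :=
          ENNReal.ofReal_add_le
      _ ≤ 2 * U t + ENNReal.ofReal (2 * Real.log K) := by
          gcongr
          rw [ENNReal.ofReal_mul (by norm_num), ENNReal.ofReal_ofNat]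
          gcongr
  -- the sets D'
  let D' : ℕ → Set ℝ := fun k => ⋃ θ : u k, (E ⟨k, θ⟩ \ N ⟨k, θ⟩)
  have hD'm : ∀ k, MeasurableSet (D' k) := fun k =>
    MeasurableSet.iUnion fun θ => (hEm _).diff (hNm _)
  have hEsub : ∀ (k : ℕ) (θ : u k), E ⟨k, θ⟩ \ N ⟨k, θ⟩ ⊆ closedBall (θ : ℝ) (1 - r k θ) := by
    intro k θ t ht
    rw [Real.closedBall_eq_Icc]
    exact ht.1.1
  have hD'v : ∀ k, ∑' θ : u k, ENNReal.ofReal (1 - r k θ) ≤ volume (D' k) := by
    intro k
    have h1 : volume (D' k) = ∑' θ : u k, volume (E ⟨k, θ⟩ \ N ⟨k, θ⟩) := by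
      refine measure_iUnion ?_ (fun θ => (hEm _).diff (hNm _))
      intro x y hxy
      have := hudisj k x.2 y.2 (fun h => hxy (Subtype.ext h))
      exact this.mono (hEsub k x) (hEsub k y)
    rw [h1]
    refine ENNReal.tsum_le_tsum fun θ => ?_
    rw [measure_sdiff_null (hN0 _)]
    exact hEv ⟨k, θ⟩
  have hD'sub : ∀ k, D' k ⊆ Icc (-(2 * Real.pi)) (4 * Real.pi) := by
    intro k
    refine iUnion_subset fun θ => (hEsub k θ).trans ?_
    rw [Real.closedBall_eq_Icc]
    have h1 := (huD k θ.2).2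
    have h2 := hr k θ (huD k θ.2).1
    exact Icc_subset_Icc (by linarith [h1.1, h2.1]) (by linarith [h1.2, h2.1])
  have hfinal : ∑' k, volume (D' (k + (B + 1))) < ∞ := by
    have h1 : ∀ t : ℝ, ∑' k, (D' (k + (B + 1))).indicator (fun _ => (1 : ℝ≥0∞)) t ≤
        (2 * U t + ENNReal.ofReal (2 * Real.log K)) + 1 := by
      intro t
      refine h2_count (fun k => D' (k + (B + 1))) t _ ?_
      intro k hk
      obtain ⟨θ, hθ⟩ := mem_iUnion.1 hk
      refine le_trans ?_ (hUbig ⟨k + (B + 1), θ⟩ (Nat.le_add_left _ _) t hθ)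
      exact_mod_cast Nat.le_add_right k (B + 1)
    have h2 : ∑' k, volume (D' (k + (B + 1))) =
        ∫⁻ t in Icc (-(2 * Real.pi)) (4 * Real.pi),
          ∑' k, (D' (k + (B + 1))).indicator (fun _ => (1 : ℝ≥0∞)) t := by
      rw [lintegral_tsum (fun k =>
        (measurable_const.indicator (hD'm _)).aemeasurable)]
      refine tsum_congr fun k => ?_
      rw [lintegral_indicator (hD'm _), setLIntegral_one, Measure.restrict_apply (hD'm _),
        inter_eq_left.2 (hD'sub _)]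
    rw [h2]
    refine (lintegral_mono h1).trans_lt ?_
    have h3 : ∫⁻ t in Icc (-(2 * Real.pi)) (4 * Real.pi),
        (2 * U t + ENNReal.ofReal (2 * Real.log K) + 1) =
        2 * (∫⁻ t in Icc (-(2 * Real.pi)) (4 * Real.pi), U t) +
        (ENNReal.ofReal (2 * Real.log K) + 1) * volume (Icc (-(2 * Real.pi)) (4 * Real.pi)) := by
      simp_rw [add_assoc]
      rw [lintegral_add_right _ measurable_const, lintegral_const_mul' _ _ (by norm_num),
        setLIntegral_const]
    rw [h3]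
    have h4 : ∫⁻ t in Icc (-(2 * Real.pi)) (4 * Real.pi), U t < ∞ :=
      (h2_per U hUper).trans_lt (ENNReal.mul_lt_top (by norm_num) hJ)
    refine ENNReal.add_lt_top.2 ⟨ENNReal.mul_lt_top (by norm_num) h4, ?_⟩
    refine ENNReal.mul_lt_top (ENNReal.add_lt_top.2 ⟨ENNReal.ofReal_lt_top, by norm_num⟩) ?_
    rw [Real.volume_Icc]
    exact ENNReal.ofReal_lt_top
  refine hMint.trans_lt ?_
  rw [← Summable.sum_add_tsum_nat_add' (k := B + 1) ENNReal.summable]
  refine ENNReal.add_lt_top.2 ⟨?_, ?_⟩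
  · refine ENNReal.sum_lt_top.2 fun k _ => ?_
    refine (measure_mono inter_subset_right).trans_lt ?_
    rw [Real.volume_Icc]
    exact ENNReal.ofReal_lt_top
  · calc ∑' k, volume (D (k + (B + 1)) ∩ Icc 0 (2 * Real.pi))
        ≤ ∑' k, 10 * volume (D' (k + (B + 1))) := by
          refine ENNReal.tsum_le_tsum fun k => (huvol _).trans ?_
          gcongr
          exact hD'v _
      _ = 10 * ∑' k, volume (D' (k + (B + 1))) := ENNReal.tsum_mul_left
      _ < ∞ := ENNReal.mul_lt_top (by norm_num) hfinal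

end P374
end Pool.Agent.Helper311.Nev
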