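import Mathlib
import Pool.Agent.Helper311.Nev.Ker

open MeasureTheory Set Filter Topology Metric
open scoped ENNReal NNReal

namespace Pool.Agent.Helper311.Nev
namespace P375



theorem g1_span (g : C(AddCircle (1 : ℝ), ℂ))
    (hg : g ∈ Submodule.span ℂ (Set.range (@fourier (1 : ℝ)))) :
    ∃ P Q : ℂ → ℂ, Differentiable ℂ P ∧ Differentiable ℂ Q ∧ ∀ x : AddCircle (1 : ℝ),
      g x = P (AddCircle.toCircle x) + (starRingEnd ℂ) (Q (AddCircle.toCircle x)) := by
  induction hg using Submodule.span_induction with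
  | mem x hx =>
    obtain ⟨n, rfl⟩ := hx
    rcases Int.eq_nat_or_neg n with ⟨m, rfl | rfl⟩
    · refine ⟨fun z => z ^ m, fun _ => 0, differentiable_id.pow m, differentiable_const _, fun x => ?_⟩
      simp only [map_zero, add_zero]
      rw [fourier_apply, AddCircle.toCircle_zsmul]
      simp
    · refine ⟨fun _ => 0, fun z => z ^ m, differentiable_const _, differentiable_id.pow m, fun x => ?_⟩
      simp only [zero_add]
      rw [fourier_neg, fourier_apply, AddCircle.toCircle_zsmul]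
      simp
  | zero => exact ⟨fun _ => 0, fun _ => 0, differentiable_const _, differentiable_const _, by simp⟩
  | add x y hx hy ihx ihy =>
    obtain ⟨P, Q, hP, hQ, h⟩ := ihx
    obtain ⟨P', Q', hP', hQ', h'⟩ := ihy
    refine ⟨fun z => P z + P' z, fun z => Q z + Q' z, hP.add hP', hQ.add hQ', fun t => ?_⟩
    rw [ContinuousMap.add_apply, h, h', map_add]
    ring
  | smul a x hx ihx =>
    obtain ⟨P, Q, hP, hQ, h⟩ := ihx
    refine ⟨fun z => a * P z, fun z => (starRingEnd ℂ) a * Q z, hP.const_mul a, hQ.const_mul _,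
      fun t => ?_⟩
    rw [ContinuousMap.smul_apply, h, map_mul, Complex.conj_conj, smul_eq_mul]
    ring

theorem g1_approx (u : ℂ → ℝ) (hu : ContinuousOn u (sphere 0 1)) :
    ∃ A : ℂ → ℂ, Differentiable ℂ A ∧ ∀ z ∈ sphere (0 : ℂ) 1, u z ≤ (A z).re ∧ (A z).re ≤ u z + 1 := by
  have hc : Continuous (fun x : AddCircle (1 : ℝ) => ((u (AddCircle.toCircle x) + 1 / 2 : ℝ) : ℂ)) := by
    refine Complex.continuous_ofReal.comp (Continuous.add ?_ continuous_const)
    refine hu.comp_continuous (continuous_subtype_val.comp AddCircle.continuous_toCircle) fun x => ?_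
    simp
  set f : C(AddCircle (1 : ℝ), ℂ) := ⟨_, hc⟩ with hf
  have hmem : f ∈ closure ((Submodule.span ℂ (Set.range (@fourier (1 : ℝ))) : Submodule ℂ _) :
      Set C(AddCircle (1 : ℝ), ℂ)) := by
    have := span_fourier_closure_eq_top (T := (1 : ℝ))
    rw [← Submodule.topologicalClosure_coe, this]
    trivial
  obtain ⟨g, hg, hd⟩ := Metric.mem_closure_iff.1 hmem (1 / 2) (by norm_num)
  obtain ⟨P, Q, hP, hQ, h⟩ := g1_span g hg
  refine ⟨fun z => P z + Q z, hP.add hQ, fun z hz => ?_⟩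
  rw [mem_sphere_zero_iff_norm] at hz
  obtain ⟨x, hx⟩ : ∃ x : AddCircle (1 : ℝ), (AddCircle.toCircle x : ℂ) = z := by
    refine ⟨(AddCircle.homeomorphCircle one_ne_zero).symm ⟨z, mem_sphere_zero_iff_norm.2 hz⟩, ?_⟩
    rw [← AddCircle.homeomorphCircle_apply one_ne_zero, Homeomorph.apply_symm_apply]
  have h1 : dist (f x) (g x) ≤ dist f g := ContinuousMap.dist_apply_le_dist x
  have h2 : ‖f x - g x‖ < 1 / 2 := by
    rw [← dist_eq_norm]
    exact lt_of_le_of_lt h1 hd
  have h3 : |(f x - g x).re| < 1 / 2 := lt_of_le_of_lt (Complex.abs_re_le_norm _) h2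
  have h4 : (f x).re = u z + 1 / 2 := by
    rw [hf]
    simp only [ContinuousMap.coe_mk, Complex.ofReal_re]
    rw [hx]
  have h5 : (g x).re = (P z + Q z).re := by
    rw [h, hx, Complex.add_re, Complex.add_re, Complex.conj_re]
  rw [Complex.sub_re, h4, h5, abs_lt] at h3
  constructor
  · show u z ≤ (P z + Q z).re
    linarith [h3.1, h3.2]
  · show (P z + Q z).re ≤ u z + 1
    linarith [h3.1, h3.2]

/-- uniformly bounded holomorphic functions converging pointwise have a holomorphic limit -/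
theorem g1_limit {l : Filter ℕ} [l.NeBot] {F : ℕ → ℂ → ℂ} {f : ℂ → ℂ}
    (hd : ∀ i, DifferentiableOn ℂ (F i) (ball 0 1)) (hb : ∀ i, ∀ z ∈ ball (0 : ℂ) 1, ‖F i z‖ ≤ 1)
    (hp : ∀ z ∈ ball (0 : ℂ) 1, Tendsto (fun i => F i z) l (𝓝 (f z))) :
    DifferentiableOn ℂ f (ball 0 1) := by
  have htl : TendstoLocallyUniformlyOn F f l (ball 0 1) := by
    rw [Metric.tendstoLocallyUniformlyOn_iff]
    intro ε hε x hx
    obtain ⟨R, hR, hRU⟩ := Metric.isOpen_iff.1 isOpen_ball x hx
    have key : ∀ i, ∀ z ∈ ball x R, dist (F i z) (F i x) ≤ 3 / R * dist z x := by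
      intro i z hz
      apply Complex.dist_le_div_mul_dist_of_mapsTo_ball ((hd i).mono hRU) _ hz
      intro w hw
      rw [mem_closedBall, dist_eq_norm]
      have h1 := hb i w (hRU hw)
      have h2 := hb i x hx
      have h3 := norm_sub_le (F i w) (F i x)
      linarith
    set L : ℝ := 3 / R with hL
    have hLp : 0 < L := by positivity
    have keyf : ∀ z ∈ ball x R, dist (f z) (f x) ≤ L * dist z x := by
      intro z hz
      have h1 : Tendsto (fun i => dist (F i z) (F i x)) l (𝓝 (dist (f z) (f x))) :=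
        (hp z (hRU hz)).dist (hp x hx)
      exact le_of_tendsto h1 (Eventually.of_forall fun i => key i z hz)
    refine ⟨ball x (min R (ε / (4 * L))),
      mem_nhdsWithin_of_mem_nhds (ball_mem_nhds _ (by positivity)), ?_⟩
    have hx' : ∀ᶠ i in l, dist (F i x) (f x) < ε / 4 :=
      (Metric.tendsto_nhds.1 (hp x hx)) _ (by positivity)
    filter_upwards [hx'] with i hi y hy
    have hy1 : y ∈ ball x R := ball_subset_ball (min_le_left _ _) hy
    have hy2 : dist y x < ε / (4 * L) := lt_of_lt_of_le hy (min_le_right _ _)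
    have hy3 : L * dist y x < ε / 4 := by
      calc L * dist y x < L * (ε / (4 * L)) := by gcongr
        _ = ε / 4 := by field_simp
    have h1 := key i y hy1
    have h2 := keyf y hy1
    calc dist (f y) (F i y) ≤ dist (f y) (f x) + dist (f x) (F i x) + dist (F i x) (F i y) :=
          dist_triangle4 _ _ _ _
      _ < ε := by
          rw [dist_comm (f x), dist_comm (F i x) (F i y)]
          linarith
  exact htl.differentiableOn (Eventually.of_forall hd) isOpen_ball

theorem g1_step (F : ℂ → ℂ) (hF : DifferentiableOn ℂ F (ball 0 1)) (C : ℝ)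
    (hC : ∀ r ∈ Ioo (0 : ℝ) 1, ∫ θ in (0 : ℝ)..(2 * Real.pi),
      Real.posLog ‖F (circleMap 0 r θ)‖ ≤ C) (r : ℝ) (hr : r ∈ Ioo (0 : ℝ) 1) :
    ∃ g h : ℂ → ℂ, DifferentiableOn ℂ g (ball 0 1) ∧ DifferentiableOn ℂ h (ball 0 1) ∧
      (∀ z ∈ ball (0 : ℂ) 1, ‖g z‖ ≤ 1) ∧ (∀ z ∈ ball (0 : ℂ) 1, ‖h z‖ ≤ 1) ∧
      Real.exp (-(C / (2 * Real.pi) + 1)) ≤ ‖h 0‖ ∧
      ∀ z ∈ ball (0 : ℂ) 1, F (r * z) * h z = g z := by
  obtain ⟨hr0, hr1⟩ := hr
  have hmaps : ∀ z ∈ closedBall (0 : ℂ) 1, (r : ℂ) * z ∈ ball (0 : ℂ) 1 := by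
    intro z hz
    rw [mem_closedBall_zero_iff] at hz
    rw [mem_ball_zero_iff, norm_mul, Complex.norm_real, Real.norm_eq_abs, abs_of_pos hr0]
    nlinarith [norm_nonneg z]
  have hdiff : ∀ z ∈ closedBall (0 : ℂ) 1, DifferentiableAt ℂ (fun z => F (r * z)) z := by
    intro z hz
    have h1 : DifferentiableAt ℂ F (r * z) :=
      (hF _ (hmaps z hz)).differentiableAt (isOpen_ball.mem_nhds (hmaps z hz))
    exact h1.comp z ((differentiableAt_id).const_mul (r : ℂ))
  have hcont : ContinuousOn (fun z => F (r * z)) (closedBall 0 1) := fun z hz =>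
    (hdiff z hz).continuousAt.continuousWithinAt
  obtain ⟨A, hA, hA2⟩ := g1_approx (fun z => Real.posLog ‖F (r * z)‖)
    (Real.continuous_posLog.comp_continuousOn (hcont.mono sphere_subset_closedBall).norm)
  have hfr : frontier (ball (0 : ℂ) 1) = sphere 0 1 := frontier_ball _ one_ne_zero
  have hcl : closure (ball (0 : ℂ) 1) = closedBall 0 1 := closure_ball _ one_ne_zero
  have hh : DiffContOnCl ℂ (fun z => Complex.exp (-A z)) (ball 0 1) :=
    (hA.neg.cexp).diffContOnCl
  have hFd : DiffContOnCl ℂ (fun z => F (r * z)) (ball 0 1) := by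
    refine ⟨fun z hz => (hdiff z (ball_subset_closedBall hz)).differentiableWithinAt, ?_⟩
    rw [hcl]
    exact hcont
  have hg : DiffContOnCl ℂ (fun z => F (r * z) * Complex.exp (-A z)) (ball 0 1) := hFd.smul hh
  have hre : ∀ z, ‖Complex.exp (-A z)‖ = Real.exp (-(A z).re) := fun z => by
    rw [Complex.norm_exp, Complex.neg_re]
  refine ⟨fun z => F (r * z) * Complex.exp (-A z), fun z => Complex.exp (-A z), hg.differentiableOn,
    hh.differentiableOn, ?_, ?_, ?_, fun z _ => rfl⟩
  · intro z hz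
    refine Complex.norm_le_of_forall_mem_frontier_norm_le isBounded_ball hg (fun w hw => ?_)
      (subset_closure hz)
    rw [hfr] at hw
    obtain ⟨h1, h2⟩ := hA2 w hw
    rw [norm_mul, hre]
    by_cases h0 : ‖F (r * w)‖ = 0
    · rw [h0, zero_mul]
      exact zero_le_one
    have hpos : 0 < ‖F (r * w)‖ := lt_of_le_of_ne (norm_nonneg _) (Ne.symm h0)
    have h3 : Real.log ‖F (r * w)‖ ≤ Real.posLog ‖F (r * w)‖ := by
      rw [Real.posLog_apply]
      exact le_max_right _ _
    calc ‖F (r * w)‖ * Real.exp (-(A w).re) = Real.exp (Real.log ‖F (r * w)‖) * Real.exp (-(A w).re) := by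
          rw [Real.exp_log hpos]
      _ = Real.exp (Real.log ‖F (r * w)‖ - (A w).re) := by rw [← Real.exp_add]; rfl
      _ ≤ Real.exp 0 := Real.exp_le_exp.2 (by linarith)
      _ = 1 := Real.exp_zero
  · intro z hz
    refine Complex.norm_le_of_forall_mem_frontier_norm_le isBounded_ball hh (fun w hw => ?_)
      (subset_closure hz)
    rw [hfr] at hw
    obtain ⟨h1, h2⟩ := hA2 w hw
    rw [hre]
    have h3 : (0 : ℝ) ≤ Real.posLog ‖F (r * w)‖ := Real.posLog_nonneg
    calc Real.exp (-(A w).re) ≤ Real.exp 0 := Real.exp_le_exp.2 (by linarith)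
      _ = 1 := Real.exp_zero
  · show Real.exp (-(C / (2 * Real.pi) + 1)) ≤ ‖Complex.exp (-A 0)‖
    rw [hre]
    apply Real.exp_le_exp.2
    apply neg_le_neg
    have hAavg : Real.circleAverage A 0 1 = A 0 := by
      apply DiffContOnCl.circleAverage
      exact hA.diffContOnCl
    have hci : CircleIntegrable A 0 1 := hA.continuous.continuousOn.circleIntegrable zero_le_one
    have h1 : (A 0).re = Real.circleAverage (fun z => (A z).re) 0 1 := by
      have := Complex.reCLM.circleAverage_comp_comm hci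
      rw [← hAavg]
      exact this.symm
    have hci1 : CircleIntegrable (fun z => (A z).re) 0 1 :=
      (Complex.continuous_re.comp hA.continuous).continuousOn.circleIntegrable zero_le_one
    have hci2 : CircleIntegrable (fun z => Real.posLog ‖F (r * z)‖ + 1) 0 1 := by
      refine ContinuousOn.circleIntegrable zero_le_one ?_
      exact (Real.continuous_posLog.comp_continuousOn
        (hcont.mono sphere_subset_closedBall).norm).add continuousOn_const
    have hci3 : CircleIntegrable (fun z => Real.posLog ‖F (r * z)‖) 0 1 := by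
      refine ContinuousOn.circleIntegrable zero_le_one ?_
      exact (Real.continuous_posLog.comp_continuousOn
        (hcont.mono sphere_subset_closedBall).norm)
    have h2 : Real.circleAverage (fun z => (A z).re) 0 1 ≤
        Real.circleAverage (fun z => Real.posLog ‖F (r * z)‖ + 1) 0 1 := by
      refine Real.circleAverage_mono hci1 hci2 fun z hz => ?_
      rw [abs_one] at hz
      exact (hA2 z hz).2
    have h3 : Real.circleAverage (fun z => Real.posLog ‖F (r * z)‖ + 1) 0 1 =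
        Real.circleAverage (fun z => Real.posLog ‖F (r * z)‖) 0 1 + 1 := by
      rw [Real.circleAverage_fun_add hci3 (circleIntegrable_const _ _ _), Real.circleAverage_const]
    have h4 : Real.circleAverage (fun z => Real.posLog ‖F (r * z)‖) 0 1 ≤ C / (2 * Real.pi) := by
      rw [Real.circleAverage_def, smul_eq_mul]
      have h5 := hC r ⟨hr0, hr1⟩
      have h6 : ∀ θ : ℝ, (r : ℂ) * circleMap 0 1 θ = circleMap 0 r θ := by
        intro θ
        simp [circleMap]
      simp only [h6]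
      rw [div_eq_inv_mul]
      gcongr
    linarith

/-- G1 -/
theorem nevanlinna_of_bound (F : ℂ → ℂ) (hF : DifferentiableOn ℂ F (ball 0 1)) (C : ℝ)
    (hC : ∀ r ∈ Ioo (0 : ℝ) 1, ∫ θ in (0 : ℝ)..(2 * Real.pi),
      Real.posLog ‖F (circleMap 0 r θ)‖ ≤ C) :
    ∃ g h : ℂ → ℂ, DifferentiableOn ℂ g (ball 0 1) ∧ DifferentiableOn ℂ h (ball 0 1) ∧
      (∀ z ∈ ball (0 : ℂ) 1, ‖g z‖ ≤ 1) ∧ (∀ z ∈ ball (0 : ℂ) 1, ‖h z‖ ≤ 1) ∧
      h 0 ≠ 0 ∧ ∀ z ∈ ball (0 : ℂ) 1, F z * h z = g z := by
  set rr : ℕ → ℝ := fun n => 1 - 1 / ((n : ℝ) + 2) with hrr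
  have hrr1 : ∀ n, rr n ∈ Ioo (0 : ℝ) 1 := by
    intro n
    have hn : (0 : ℝ) ≤ n := Nat.cast_nonneg n
    have h1 : 1 / ((n : ℝ) + 2) < 1 := by
      rw [div_lt_one (by linarith)]
      linarith
    have h2 : 0 < 1 / ((n : ℝ) + 2) := by positivity
    exact ⟨by rw [hrr]; simp only; linarith, by rw [hrr]; simp only; linarith⟩
  have hrrl : Tendsto rr atTop (𝓝 1) := by
    have h1 : Tendsto (fun n : ℕ => 1 / ((n : ℝ) + 2)) atTop (𝓝 0) := by
      have := (tendsto_natCast_atTop_atTop (R := ℝ)).atTop_add (tendsto_const_nhds (x := (2 : ℝ)))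
      refine this.inv_tendsto_atTop.congr fun n => ?_
      simp [one_div]
    have h2 := h1.const_sub 1
    rwa [sub_zero] at h2
  choose g h hg hh hgb hhb hh0 hgh using fun n => g1_step F hF C hC (rr n) (hrr1 n)
  have hlim : ∀ f : ℕ → ℂ → ℂ, (∀ n, ∀ z ∈ ball (0 : ℂ) 1, ‖f n z‖ ≤ 1) →
      ∃ φ : ℂ → ℂ, ∀ z ∈ ball (0 : ℂ) 1,
        Tendsto (fun n => f n z) (hyperfilter ℕ : Filter ℕ) (𝓝 (φ z)) := by
    intro f hf
    have : ∀ z, ∃ a, z ∈ ball (0 : ℂ) 1 → Tendsto (fun n => f n z) (hyperfilter ℕ : Filter ℕ) (𝓝 a) := by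
      intro z
      by_cases hz : z ∈ ball (0 : ℂ) 1
      · have hc : IsCompact (closedBall (0 : ℂ) 1) := isCompact_closedBall _ _
        rw [isCompact_iff_ultrafilter_le_nhds] at hc
        obtain ⟨a, -, ha⟩ := hc ((hyperfilter ℕ).map fun n => f n z) (by
          rw [Filter.le_principal_iff]
          exact Filter.mem_map.2 (Filter.univ_mem' fun n => mem_closedBall_zero_iff.2 (hf n z hz)))
        exact ⟨a, fun _ => ha⟩
      · exact ⟨0, fun h => absurd h hz⟩
    choose φ hφ using this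
    exact ⟨φ, hφ⟩
  obtain ⟨G, hG⟩ := hlim g hgb
  obtain ⟨H, hH⟩ := hlim h hhb
  have h0 : (0 : ℂ) ∈ ball (0 : ℂ) 1 := mem_ball_self one_pos
  refine ⟨G, H, g1_limit hg hgb hG, g1_limit hh hhb hH, ?_, ?_, ?_, ?_⟩
  · exact fun z hz => le_of_tendsto (hG z hz).norm (Eventually.of_forall fun n => hgb n z hz)
  · exact fun z hz => le_of_tendsto (hH z hz).norm (Eventually.of_forall fun n => hhb n z hz)
  · have h1 : Real.exp (-(C / (2 * Real.pi) + 1)) ≤ ‖H 0‖ :=
      ge_of_tendsto (hH 0 h0).norm (Eventually.of_forall fun n => hh0 n)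
    intro h2
    rw [h2, norm_zero] at h1
    exact absurd h1 (not_le.2 (Real.exp_pos _))
  · intro z hz
    have hrl : Tendsto rr (hyperfilter ℕ : Filter ℕ) (𝓝 1) :=
      hrrl.mono_left Nat.hyperfilter_le_atTop
    have h1 : Tendsto (fun n => ((rr n : ℝ) : ℂ) * z) (hyperfilter ℕ : Filter ℕ) (𝓝 z) := by
      have := ((Complex.continuous_ofReal.tendsto 1).comp hrl).mul_const z
      simpa using this
    have hFc : ContinuousAt F z := (hF z hz).differentiableAt (isOpen_ball.mem_nhds hz) |>.continuousAt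
    have h2 : Tendsto (fun n => F (rr n * z) * h n z) (hyperfilter ℕ : Filter ℕ) (𝓝 (F z * H z)) :=
      (hFc.tendsto.comp h1).mul (hH z hz)
    have h3 : Tendsto (fun n => g n z) (hyperfilter ℕ : Filter ℕ) (𝓝 (F z * H z)) :=
      h2.congr fun n => hgh n z hz
    exact tendsto_nhds_unique h3 (hG z hz)

end P375
end Pool.Agent.Helper311.Nev
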