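import Mathlib
import Pool.Agent.Helper311.Nev.Ker

open MeasureTheory Set Filter Topology Metric
open scoped ENNReal NNReal

namespace Pool.Agent.Helper311.Nev
namespace P376


/-- G2 -/
theorem bound_of_nevanlinna (F g h : ℂ → ℂ) (hg : DifferentiableOn ℂ g (ball 0 1))
    (hh : DifferentiableOn ℂ h (ball 0 1)) (hF : ContinuousOn F (ball 0 1))
    (hgb : ∃ B, ∀ z ∈ ball (0 : ℂ) 1, ‖g z‖ ≤ B) (hhb : ∃ B, ∀ z ∈ ball (0 : ℂ) 1, ‖h z‖ ≤ B)
    (hne : ∃ z ∈ ball (0 : ℂ) 1, h z ≠ 0) (heq : ∀ z ∈ ball (0 : ℂ) 1, F z * h z = g z) :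
    ∃ C : ℝ, ∀ r ∈ Ico (1 / 2 : ℝ) 1, ∫ θ in (0 : ℝ)..(2 * Real.pi),
      Real.posLog ‖F (circleMap 0 r θ)‖ ≤ C := by
  classical
  obtain ⟨B1, hB1⟩ := hgb
  obtain ⟨B2, hB2⟩ := hhb
  set B : ℝ := max 1 (max B1 B2) with hBdef
  have hB1' : 1 ≤ B := le_max_left _ _
  have hBpos : 0 < B := lt_of_lt_of_le one_pos hB1'
  have hgB : ∀ z ∈ ball (0 : ℂ) 1, ‖g z‖ ≤ B := fun z hz =>
    (hB1 z hz).trans ((le_max_left _ _).trans (le_max_right _ _))
  have hhB : ∀ z ∈ ball (0 : ℂ) 1, ‖h z‖ ≤ B := fun z hz =>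
    (hB2 z hz).trans ((le_max_right _ _).trans (le_max_right _ _))
  have hlogB : 0 ≤ Real.log B := Real.log_nonneg hB1'
  have hhan : AnalyticOnNhd ℂ h (ball 0 1) := hh.analyticOnNhd isOpen_ball
  have hcod : ∀ᶠ z in codiscreteWithin (ball (0 : ℂ) 1), h z ≠ 0 := by
    rcases hhan.eqOn_zero_or_eventually_ne_zero_of_preconnected
      (convex_ball 0 1).isPreconnected with h0 | h0
    · obtain ⟨z, hz, hz0⟩ := hne
      exact absurd (h0 hz) hz0
    · exact h0
  set m : ℤ := (meromorphicOrderAt h 0).untop₀ with hm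
  have hm0 : 0 ≤ m := by
    have h1 := (hhan 0 (mem_ball_self one_pos)).meromorphicOrderAt_nonneg
    rw [hm]
    exact WithTop.untop₀_nonneg.mpr h1
  set L : ℝ := Real.log ‖meromorphicTrailingCoeffAt h 0‖ with hL
  refine ⟨2 * Real.pi * (Real.log B + m * Real.log 2 - L), ?_⟩
  intro r hr
  have hr0 : 0 < r := by linarith [hr.1]
  have hrabs : |r| = r := abs_of_pos hr0
  have hsub : closedBall (0 : ℂ) |r| ⊆ ball 0 1 := by
    rw [hrabs]
    exact closedBall_subset_ball hr.2
  have hsph : sphere (0 : ℂ) |r| ⊆ ball 0 1 := sphere_subset_closedBall.trans hsub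
  have hcb : AnalyticOnNhd ℂ h (closedBall 0 |r|) := hhan.mono hsub
  have hJ := MeromorphicOn.circleAverage_log_norm hr0.ne' hcb.meromorphicOn
  have hdiv0 : MeromorphicOn.divisor h (closedBall 0 |r|) 0 = m := by
    rw [MeromorphicOn.divisor_apply hcb.meromorphicOn (mem_closedBall_self (abs_nonneg r))]
  have hfin : 0 ≤ ∑ᶠ u, (MeromorphicOn.divisor h (closedBall 0 |r|) u : ℝ) *
      Real.log (r * ‖(0 : ℂ) - u‖⁻¹) := by
    apply finsum_nonneg
    intro u
    have hnn := MeromorphicOn.AnalyticOnNhd.divisor_nonneg hcb u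
    by_cases hu : u ∈ closedBall (0 : ℂ) |r|
    · apply mul_nonneg
      · exact_mod_cast hnn
      · by_cases hu0 : u = 0
        · simp [hu0]
        · apply Real.log_nonneg
          rw [zero_sub, norm_neg, ← div_eq_mul_inv, one_le_div (norm_pos_iff.mpr hu0)]
          rw [mem_closedBall, dist_zero_right, hrabs] at hu
          exact hu
    · have : MeromorphicOn.divisor h (closedBall 0 |r|) u = 0 := by
        rw [MeromorphicOn.divisor_def, if_neg (fun h => hu h.2)]
      rw [this]
      simp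
  have hlow : -((m : ℝ) * Real.log 2) + L ≤ Real.circleAverage (fun z => Real.log ‖h z‖) 0 r := by
    rw [hJ, hdiv0, ← hL]
    have h1 : -((m : ℝ) * Real.log 2) ≤ m * Real.log r := by
      rw [← mul_neg]
      apply mul_le_mul_of_nonneg_left _ (by exact_mod_cast hm0)
      rw [← Real.log_inv]
      apply Real.log_le_log (by norm_num)
      have := hr.1
      norm_num at this ⊢
      exact this
    linarith
  -- integrability
  have hcodS : ∀ᶠ z in codiscreteWithin (sphere (0 : ℂ) |r|), h z ≠ 0 :=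
    codiscreteWithin_mono hsph hcod
  have hFint : CircleIntegrable (fun z => Real.posLog ‖F z‖) 0 r := by
    apply ContinuousOn.circleIntegrable'
    exact (Real.continuous_posLog.comp_continuousOn (hF.mono hsph).norm)
  set F2 : ℂ → ℝ := fun z => if h z = 0 then 0 else Real.posLog ‖F z‖ with hF2
  have hFF2 : (fun z => Real.posLog ‖F z‖) =ᶠ[codiscreteWithin (sphere (0 : ℂ) |r|)] F2 := by
    filter_upwards [hcodS] with z hz
    simp only [hF2, if_neg hz]
  have hF2int : CircleIntegrable F2 0 r := hFint.congr_codiscreteWithin hFF2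
  have hlogint : CircleIntegrable (fun z => Real.log ‖h z‖) 0 r :=
    MeromorphicOn.circleIntegrable_log_norm (hhan.mono hsph).meromorphicOn
  have hconst : CircleIntegrable (fun _ : ℂ => Real.log B) 0 r := circleIntegrable_const _ _ _
  have hmono : Real.circleAverage F2 0 r ≤
      Real.circleAverage (fun z => Real.log B - Real.log ‖h z‖) 0 r := by
    apply Real.circleAverage_mono hF2int (hconst.sub hlogint)
    intro z hz
    have hzb : z ∈ ball (0 : ℂ) 1 := hsph hz
    show (if h z = 0 then 0 else Real.posLog ‖F z‖) ≤ Real.log B - Real.log ‖h z‖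
    by_cases hz0 : h z = 0
    · rw [if_pos hz0, hz0]
      simp [hlogB]
    · rw [if_neg hz0]
      have hzpos : 0 < ‖h z‖ := norm_pos_iff.mpr hz0
      have hle1 : Real.log ‖h z‖ ≤ Real.log B := Real.log_le_log hzpos (hhB z hzb)
      rw [Real.posLog]
      apply max_le (by linarith)
      have hFn : ‖F z‖ * ‖h z‖ = ‖g z‖ := by
        rw [← norm_mul, heq z hzb]
      by_cases hFz : ‖F z‖ = 0
      · rw [hFz, Real.log_zero]
        linarith
      · have hFpos : 0 < ‖F z‖ := lt_of_le_of_ne (norm_nonneg _) (Ne.symm hFz)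
        have h2 : Real.log ‖F z‖ + Real.log ‖h z‖ = Real.log ‖g z‖ := by
          rw [← Real.log_mul hFpos.ne' hzpos.ne', hFn]
        have h3 : Real.log ‖g z‖ ≤ Real.log B := by
          apply Real.log_le_log _ (hgB z hzb)
          rw [← hFn]
          positivity
        linarith
  have hsubavg : Real.circleAverage (fun z => Real.log B - Real.log ‖h z‖) 0 r =
      Real.log B - Real.circleAverage (fun z => Real.log ‖h z‖) 0 r := by
    rw [Real.circleAverage_fun_sub hconst hlogint, Real.circleAverage_const]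
  have hcong : Real.circleAverage (fun z => Real.posLog ‖F z‖) 0 r = Real.circleAverage F2 0 r :=
    Real.circleAverage_congr_codiscreteWithin hFF2 hr0.ne'
  have hfinal : Real.circleAverage (fun z => Real.posLog ‖F z‖) 0 r ≤
      Real.log B + m * Real.log 2 - L := by
    rw [hcong]
    linarith
  rw [Real.circleAverage_def, smul_eq_mul, inv_mul_le_iff₀ (by positivity)] at hfinal
  exact hfinal

end P376
end Pool.Agent.Helper311.Nev
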