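import Mathlib
import Pool.Agent.Helper311.Nev.Ker

open MeasureTheory Set Filter Topology Metric
open scoped ENNReal NNReal

namespace Pool.Agent.Helper311.Nev
namespace P377


open Classical in
/-- mass of the open ball -/
noncomputable def mass {ι : Type} [Fintype ι] (ζ : ι → ℂ) (m : ι → ℝ) (p : ℂ) (R : ℝ) : ℝ :=
  ∑ i, if ‖ζ i - p‖ < R then m i else 0

theorem kernel_dyadic (x ρ : ℝ) (hx : 0 ≤ x) (hρ : 0 < ρ) (J : ℕ) (hJ : x < 2 ^ J * ρ) :
    ρ / (x ^ 2 + ρ ^ 2) ≤ ∑ j ∈ Finset.range (J + 1),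
      if x < 2 ^ j * ρ then 4 / 4 ^ j / ρ else 0 := by
  classical
  have hex : ∃ j : ℕ, x < 2 ^ j * ρ := ⟨J, hJ⟩
  set j := Nat.find hex with hj
  have hj1 : x < 2 ^ j * ρ := Nat.find_spec hex
  have hjJ : j ≤ J := Nat.find_min' hex hJ
  have hterm : ρ / (x ^ 2 + ρ ^ 2) ≤ 4 / 4 ^ j / ρ := by
    rcases Nat.eq_zero_or_pos j with h0 | h0
    · rw [h0, pow_zero, div_one, div_le_div_iff₀ (by positivity) hρ]
      nlinarith [sq_nonneg x, sq_nonneg ρ]
    · have h2 : ¬ x < 2 ^ (j - 1) * ρ := Nat.find_min hex (by omega)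
      push Not at h2
      obtain ⟨i, hi⟩ : ∃ i, j = i + 1 := ⟨j - 1, by omega⟩
      rw [hi] at h2 ⊢
      rw [Nat.add_sub_cancel] at h2
      have h3 : (4 : ℝ) ^ i * ρ ^ 2 ≤ x ^ 2 := by
        have : (4 : ℝ) ^ i * ρ ^ 2 = (2 ^ i * ρ) ^ 2 := by
          rw [mul_pow, ← pow_mul, mul_comm i 2, pow_mul]; norm_num
        rw [this]
        exact pow_le_pow_left₀ (by positivity) h2 2
      have h4 : (4 : ℝ) / 4 ^ (i + 1) / ρ = 1 / (4 ^ i * ρ) := by
        rw [pow_succ]; field_simp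
      rw [h4, div_le_div_iff₀ (by positivity) (by positivity)]
      nlinarith [sq_nonneg ρ]
  refine hterm.trans ?_
  have : (if x < 2 ^ j * ρ then 4 / 4 ^ j / ρ else 0) ≤ ∑ j ∈ Finset.range (J + 1),
      if x < 2 ^ j * ρ then 4 / 4 ^ j / ρ else 0 := by
    apply Finset.single_le_sum (f := fun j : ℕ => if x < 2 ^ j * ρ then 4 / 4 ^ j / ρ else 0)
    · intro i _
      split_ifs <;> positivity
    · exact Finset.mem_range.mpr (by omega)
  rwa [if_pos hj1] at this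

theorem exists_scale {ι : Type} [Fintype ι] (ζ : ι → ℂ) (m : ι → ℝ) (hm : ∀ i, 0 ≤ m i)
    (α ρ : ℝ) (hα : 0 < α) (hρ : 0 < ρ) (p : ℂ) (h : α < Nr ζ m ρ p) :
    ∃ R, 0 < R ∧ α * R ≤ 8 * mass ζ m p R := by
  classical
  by_contra hcon
  push Not at hcon
  obtain ⟨J, hJ⟩ : ∃ J : ℕ, ∀ i, ‖ζ i - p‖ < 2 ^ J * ρ := by
    have h1 : ∀ i, ∃ J : ℕ, ‖ζ i - p‖ / ρ < 2 ^ J := fun i => by
      obtain ⟨J, hJ⟩ := pow_unbounded_of_one_lt (‖ζ i - p‖ / ρ) (one_lt_two (α := ℝ))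
      exact ⟨J, hJ⟩
    choose Ji hJi using h1
    refine ⟨Finset.univ.sup Ji, fun i => ?_⟩
    have h2 := hJi i
    rw [div_lt_iff₀ hρ] at h2
    refine h2.trans_le ?_
    apply mul_le_mul_of_nonneg_right _ hρ.le
    exact pow_le_pow_right₀ (by norm_num) (Finset.le_sup (Finset.mem_univ i))
  have h2 : Nr ζ m ρ p ≤ ∑ j ∈ Finset.range (J + 1), 4 / 4 ^ j / ρ * mass ζ m p (2 ^ j * ρ) := by
    unfold Nr mass
    simp only [Finset.mul_sum]
    rw [Finset.sum_comm]
    refine Finset.sum_le_sum fun i _ => ?_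
    have h3 := mul_le_mul_of_nonneg_left (kernel_dyadic ‖ζ i - p‖ ρ (norm_nonneg _) hρ J (hJ i))
      (hm i)
    refine h3.trans (le_of_eq ?_)
    rw [Finset.mul_sum]
    refine Finset.sum_congr rfl fun j _ => ?_
    split_ifs
    · ring
    · ring
  have h4 : ∑ j ∈ Finset.range (J + 1), 4 / 4 ^ j / ρ * mass ζ m p (2 ^ j * ρ) ≤
      ∑ j ∈ Finset.range (J + 1), α / 2 * (1 / 2) ^ j := by
    refine Finset.sum_le_sum fun j _ => ?_
    have h5 := (hcon (2 ^ j * ρ) (by positivity)).le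
    have h6 : 4 / 4 ^ j / ρ * mass ζ m p (2 ^ j * ρ) =
        (1 / 2 / 4 ^ j / ρ) * (8 * mass ζ m p (2 ^ j * ρ)) := by ring
    rw [h6]
    refine (mul_le_mul_of_nonneg_left h5 (by positivity)).trans (le_of_eq ?_)
    have h7 : (4 : ℝ) ^ j = 2 ^ j * 2 ^ j := by rw [← mul_pow]; norm_num
    rw [h7, one_div_pow]
    field_simp
  have h8 : ∑ j ∈ Finset.range (J + 1), α / 2 * (1 / 2) ^ j ≤ α := by
    rw [← Finset.mul_sum]
    have h9 : ∑ j ∈ Finset.range (J + 1), (1 / 2 : ℝ) ^ j ≤ 2 := sum_geometric_two_le _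
    nlinarith
  linarith

theorem mass_le {ι : Type} [Fintype ι] (ζ : ι → ℂ) (m : ι → ℝ) (hm : ∀ i, 0 ≤ m i) (p : ℂ)
    (R : ℝ) : mass ζ m p R ≤ ∑ i, m i := by
  classical
  unfold mass
  refine Finset.sum_le_sum fun i _ => ?_
  split_ifs
  · exact le_rfl
  · exact hm i

/-- NW: weak type of the Poisson-type maximal function -/
theorem Nr_weak : ∃ C : ℝ, 0 < C ∧ ∀ (S : Set ℝ) (h : ℝ → ℂ) (A : ℝ), 0 < A →
    (∀ (p : ℂ) (R : ℝ), 0 < R → volume {u ∈ S | ‖h u - p‖ < R} ≤ ENNReal.ofReal (A * R)) →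
    ∀ (ι : Type) [Fintype ι] (ζ : ι → ℂ) (m : ι → ℝ), (∀ i, 0 ≤ m i) → ∀ α : ℝ, 0 < α →
      volume {u ∈ S | ∃ ρ : ℝ, 0 < ρ ∧ α < Nr ζ m ρ (h u)}
        ≤ ENNReal.ofReal (C * A * (∑ i, m i) / α) := by
  classical
  refine ⟨48, by norm_num, ?_⟩
  intro S h A hA hreg ι _ ζ m hm α hα
  set T : Set ℝ := {u ∈ S | ∃ ρ : ℝ, 0 < ρ ∧ α < Nr ζ m ρ (h u)} with hT
  have hR : ∀ u ∈ T, ∃ R, 0 < R ∧ α * R ≤ 8 * mass ζ m (h u) R := by
    rintro u ⟨_, ρ, hρ, hu⟩
    exact exists_scale ζ m hm α ρ hα hρ (h u) hu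
  choose! R hR0 hR1 using hR
  have hbd : ∀ u ∈ T, R u ≤ 8 * (∑ i, m i) / α := by
    intro u hu
    rw [le_div_iff₀ hα]
    have h1 := hR1 u hu
    have h2 := mass_le ζ m hm (h u) (R u)
    linarith
  obtain ⟨U, hUT, hdisj, hcov⟩ := Vitali.exists_disjoint_subfamily_covering_enlargement_closedBall
    T h R _ hbd 5 (by norm_num)
  -- each ball contains an atom
  have hatom : ∀ u ∈ U, ∃ i, ζ i ∈ closedBall (h u) (R u) := by
    intro u hu
    by_contra hcon
    push Not at hcon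
    have h1 := hR1 u (hUT hu)
    have h2 : mass ζ m (h u) (R u) = 0 := by
      unfold mass
      refine Finset.sum_eq_zero fun i _ => ?_
      rw [if_neg]
      intro hlt
      apply hcon i
      rw [mem_closedBall, dist_eq_norm]
      exact hlt.le
    have h3 := hR0 u (hUT hu)
    have h4 : 0 < α * R u := mul_pos hα h3
    linarith
  have hatom' : ∀ u : U, ∃ i, ζ i ∈ closedBall (h u) (R u) := fun u => hatom u u.2
  choose idx hidx using hatom'
  have hfin : U.Finite := by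
    have hinj : Function.Injective idx := by
      intro u v huv
      by_contra hne
      have h1 := hdisj u.2 v.2 (fun e => hne (Subtype.ext e))
      exact Set.disjoint_left.mp h1 (hidx u) (huv ▸ hidx v)
    have : Finite U := Finite.of_injective idx hinj
    exact Set.toFinite U
  have hsum : ∑ u ∈ hfin.toFinset, mass ζ m (h u) (R u) ≤ ∑ i, m i := by
    unfold mass
    rw [Finset.sum_comm]
    refine Finset.sum_le_sum fun i _ => ?_
    by_cases hi : ∃ u ∈ U, ‖ζ i - h u‖ < R u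
    · obtain ⟨u, hu, hui⟩ := hi
      rw [Finset.sum_eq_single u]
      · rw [if_pos hui]
      · intro v hv hvu
        rw [if_neg]
        intro hvi
        have h1 := hdisj (hfin.mem_toFinset.mp hv) hu hvu
        have h5 : ζ i ∈ closedBall (h v) (R v) := by
          rw [mem_closedBall, dist_eq_norm]; exact hvi.le
        have h6 : ζ i ∈ closedBall (h u) (R u) := by
          rw [mem_closedBall, dist_eq_norm]; exact hui.le
        exact Set.disjoint_left.mp h1 h5 h6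
      · intro hnu
        exact absurd (hfin.mem_toFinset.mpr hu) hnu
    · push Not at hi
      rw [Finset.sum_eq_zero]
      · exact hm i
      · intro u hu
        rw [if_neg (not_lt.mpr (hi u (hfin.mem_toFinset.mp hu)))]
  have hsumR : ∑ u ∈ hfin.toFinset, A * (6 * R u) ≤ 48 * A * (∑ i, m i) / α := by
    have h1 : ∀ u ∈ hfin.toFinset, A * (6 * R u) ≤ 48 * A / α * mass ζ m (h u) (R u) := by
      intro u hu
      have h2 := hR1 u (hUT (hfin.mem_toFinset.mp hu))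
      have h3 : R u ≤ 8 / α * mass ζ m (h u) (R u) := by
        rw [div_mul_eq_mul_div, le_div_iff₀ hα]; linarith
      have h4 := mul_le_mul_of_nonneg_left h3 (show 0 ≤ 6 * A by positivity)
      calc A * (6 * R u) = 6 * A * R u := by ring
        _ ≤ _ := h4
        _ = _ := by ring
    refine (Finset.sum_le_sum h1).trans ?_
    rw [← Finset.mul_sum]
    refine (mul_le_mul_of_nonneg_left hsum (by positivity)).trans (le_of_eq ?_)
    ring
  have hsub : T ⊆ ⋃ u ∈ hfin.toFinset, {t ∈ S | ‖h t - h u‖ < 6 * R u} := by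
    intro t ht
    obtain ⟨b, hb, hsubb⟩ := hcov t ht
    have h1 : h t ∈ closedBall (h b) (5 * R b) :=
      hsubb (mem_closedBall_self (hR0 t ht).le)
    rw [mem_closedBall, dist_eq_norm] at h1
    have h2 := hR0 b (hUT hb)
    refine Set.mem_biUnion (hfin.mem_toFinset.mpr hb) ⟨ht.1, ?_⟩
    linarith
  calc volume T ≤ volume (⋃ u ∈ hfin.toFinset, {t ∈ S | ‖h t - h u‖ < 6 * R u}) :=
        measure_mono hsub
    _ ≤ ∑ u ∈ hfin.toFinset, volume {t ∈ S | ‖h t - h u‖ < 6 * R u} :=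
        measure_biUnion_finset_le _ _
    _ ≤ ∑ u ∈ hfin.toFinset, ENNReal.ofReal (A * (6 * R u)) := by
        refine Finset.sum_le_sum fun u hu => ?_
        have h2 := hR0 u (hUT (hfin.mem_toFinset.mp hu))
        exact hreg (h u) (6 * R u) (by positivity)
    _ = ENNReal.ofReal (∑ u ∈ hfin.toFinset, A * (6 * R u)) := by
        rw [ENNReal.ofReal_sum_of_nonneg]
        intro u hu
        have h2 := hR0 u (hUT (hfin.mem_toFinset.mp hu))
        positivity
    _ ≤ ENNReal.ofReal (48 * A * (∑ i, m i) / α) := ENNReal.ofReal_le_ofReal hsumR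

end P377
end Pool.Agent.Helper311.Nev
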