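import Mathlib
import Pool.Agent.Helper311.Nev.Ker

open MeasureTheory Set Filter Topology Metric
open scoped ENNReal NNReal

namespace Pool.Agent.Helper311.Nev
namespace P378


/-- C1: big piece with large slope -/
theorem big_piece (h : ℝ → ℂ) (a b u η : ℝ) (hab : a < b) (hu : u ∈ Icc a b) (hη : 0 < η)
    (hLip : ∀ s ∈ Icc a b, ∀ t ∈ Icc a b, ‖h s - h t‖ ≤ |s - t|)
    (hbig : η * (b - a) ≤ ‖h u - h a‖) :
    ∃ G : Set ℝ, ∃ e : ℂ, IsCompact G ∧ G ⊆ Icc a b ∧ ‖e‖ = 1 ∧
      ENNReal.ofReal (η / 4 * (b - a)) ≤ volume G ∧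
      ∀ s ∈ G, ∀ t ∈ G, s ≤ t → η / 2 * (t - s) ≤ (e * (h t - h s)).re := by
  have hba : 0 < b - a := sub_pos.2 hab
  have haa : a ∈ Icc a b := ⟨le_refl _, hab.le⟩
  have hpos : 0 < ‖h u - h a‖ := lt_of_lt_of_le (mul_pos hη hba) hbig
  have hne : h u - h a ≠ 0 := norm_pos_iff.1 hpos
  have hnr : ((‖h u - h a‖ : ℝ) : ℂ) ≠ 0 := by exact_mod_cast hpos.ne'
  have hη1 : η ≤ 1 := by
    have h1 := hLip u hu a haa
    rw [abs_of_nonneg (sub_nonneg.2 hu.1)] at h1
    have h2 : η * (b - a) ≤ 1 * (b - a) := by linarith [hu.2]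
    exact le_of_mul_le_mul_right h2 hba
  let e : ℂ := (starRingEnd ℂ) (h u - h a) / ((‖h u - h a‖ : ℝ) : ℂ)
  have he : ‖e‖ = 1 := by
    show ‖(starRingEnd ℂ) (h u - h a) / ((‖h u - h a‖ : ℝ) : ℂ)‖ = 1
    rw [norm_div, RCLike.norm_conj, Complex.norm_real, norm_norm]
    exact div_self hpos.ne'
  have hxu : (e * (h u - h a)).re = ‖h u - h a‖ := by
    have h1 : e * (h u - h a) = ((‖h u - h a‖ : ℝ) : ℂ) := by
      show (starRingEnd ℂ) (h u - h a) / ((‖h u - h a‖ : ℝ) : ℂ) * (h u - h a) = _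
      rw [div_mul_eq_mul_div, div_eq_iff hnr, mul_comm, Complex.mul_conj, Complex.normSq_eq_norm_sq]
      push_cast
      ring
    rw [h1, Complex.ofReal_re]
  let f : ℝ → ℝ := fun t => (e * (h t - h a)).re - η / 2 * (t - a)
  have hfl : LipschitzOnWith 2 f (Icc a b) := by
    apply LipschitzOnWith.of_dist_le_mul
    intro s hs t ht
    rw [Real.dist_eq, Real.dist_eq]
    have h1 : f s - f t = (e * (h s - h t)).re - η / 2 * (s - t) := by
      have : e * (h s - h t) = e * (h s - h a) - e * (h t - h a) := by ring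
      rw [this, Complex.sub_re]
      show (e * (h s - h a)).re - η / 2 * (s - a) - ((e * (h t - h a)).re - η / 2 * (t - a)) = _
      ring
    have h2 : |(e * (h s - h t)).re| ≤ |s - t| := by
      refine (Complex.abs_re_le_norm _).trans ?_
      rw [norm_mul, he, one_mul]
      exact hLip s hs t ht
    have h3 : |η / 2 * (s - t)| ≤ |s - t| := by
      rw [abs_mul, abs_of_pos (by linarith : (0:ℝ) < η / 2)]
      have := abs_nonneg (s - t)
      nlinarith
    rw [h1]
    calc |(e * (h s - h t)).re - η / 2 * (s - t)|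
        ≤ |(e * (h s - h t)).re| + |η / 2 * (s - t)| := abs_sub _ _
      _ ≤ ((2 : ℝ≥0) : ℝ) * |s - t| := by
          push_cast
          linarith
  obtain ⟨g, hg, hfg⟩ := hfl.extend_real
  have hgc : Continuous g := hg.continuous
  have hga : g a = 0 := by
    rw [← hfg haa]
    simp [f]
  have hgu : η / 2 * (b - a) ≤ g u := by
    rw [← hfg hu]
    show η / 2 * (b - a) ≤ (e * (h u - h a)).re - η / 2 * (u - a)
    rw [hxu]
    have h2 : η / 2 * (u - a) ≤ η / 2 * (b - a) :=
      mul_le_mul_of_nonneg_left (by linarith [hu.2]) (by linarith)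
    linarith
  let G : Set ℝ := Icc a u ∩ ⋂ s ∈ Icc a u, {t | g (min s t) ≤ g t}
  have hGcl : IsClosed G := by
    refine isClosed_Icc.inter ?_
    refine isClosed_biInter (fun s _ => ?_)
    exact isClosed_le (hgc.comp (continuous_const.min continuous_id)) hgc
  have hGc : IsCompact G := isCompact_Icc.of_isClosed_subset hGcl inter_subset_left
  refine ⟨G, e, hGc, ?_, he, ?_, ?_⟩
  · intro t ht
    exact ⟨ht.1.1, ht.1.2.trans hu.2⟩
  · have hsub : Icc 0 (g u) ⊆ g '' G := by
      intro c hc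
      let S : Set ℝ := Icc a u ∩ {t | c ≤ g t}
      have hS : IsClosed S := isClosed_Icc.inter (isClosed_le continuous_const hgc)
      have hSn : S.Nonempty := ⟨u, ⟨hu.1, le_refl _⟩, hc.2⟩
      have hSb : BddBelow S := ⟨a, fun t ht => ht.1.1⟩
      have hm : sInf S ∈ S := hS.csInf_mem hSn hSb
      have hlt : ∀ s ∈ Icc a u, s < sInf S → g s < c := by
        intro s hs hs'
        by_contra hcon
        exact absurd (csInf_le hSb ⟨hs, not_lt.1 hcon⟩) (not_le.2 hs')
      have heq : g (sInf S) = c := by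
        refine le_antisymm ?_ hm.2
        by_contra hcon
        have hcon' : c < g (sInf S) := not_le.1 hcon
        have h1 : c ∈ Icc (g a) (g (sInf S)) := ⟨by rw [hga]; exact hc.1, hcon'.le⟩
        obtain ⟨s, hs, hsc⟩ := intermediate_value_Icc hm.1.1 hgc.continuousOn h1
        have h2 : s ≠ sInf S := by
          rintro rfl
          exact absurd hsc hcon'.ne'
        have h3 := hlt s ⟨hs.1, hs.2.trans hm.1.2⟩ (lt_of_le_of_ne hs.2 h2)
        exact absurd hsc h3.ne
      refine ⟨sInf S, ⟨hm.1, ?_⟩, heq⟩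
      simp only [mem_iInter, mem_ofPred_eq]
      intro s hs
      rcases lt_or_ge s (sInf S) with h1 | h1
      · rw [min_eq_left h1.le, heq]
        exact (hlt s hs h1).le
      · rw [min_eq_right h1]
    have hH : volume (g '' G) ≤ 2 * volume G := by
      have h1 := (hg.lipschitzOnWith (s := G)).hausdorffMeasure_image_le (d := 1) zero_le_one
      rw [hausdorffMeasure_real] at h1
      simpa using h1
    have h2 : ENNReal.ofReal (η / 2 * (b - a)) ≤ 2 * volume G := by
      calc ENNReal.ofReal (η / 2 * (b - a)) ≤ ENNReal.ofReal (g u - 0) := by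
            rw [sub_zero]; exact ENNReal.ofReal_le_ofReal hgu
        _ = volume (Icc 0 (g u)) := (Real.volume_Icc).symm
        _ ≤ volume (g '' G) := measure_mono hsub
        _ ≤ 2 * volume G := hH
    have h3 : ENNReal.ofReal (η / 2 * (b - a)) = 2 * ENNReal.ofReal (η / 4 * (b - a)) := by
      rw [← ENNReal.ofReal_ofNat, ← ENNReal.ofReal_mul (by norm_num)]
      congr 1
      ring
    rw [h3] at h2
    exact (ENNReal.mul_le_mul_iff_right (by norm_num) (by norm_num)).1 h2
  · intro s hs t ht hst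
    have h1 : g s ≤ g t := by
      have := ht.2
      simp only [mem_iInter, mem_ofPred_eq] at this
      have h2 := this s hs.1
      rwa [min_eq_left hst] at h2
    have hs' : s ∈ Icc a b := ⟨hs.1.1, hs.1.2.trans hu.2⟩
    have ht' : t ∈ Icc a b := ⟨ht.1.1, ht.1.2.trans hu.2⟩
    rw [← hfg hs', ← hfg ht'] at h1
    have h2 : (e * (h s - h a)).re - η / 2 * (s - a) ≤ (e * (h t - h a)).re - η / 2 * (t - a) := h1
    have h3 : (e * (h t - h s)).re = (e * (h t - h a)).re - (e * (h s - h a)).re := by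
      rw [← Complex.sub_re]
      congr 1
      ring
    rw [h3]
    linarith

end P378
end Pool.Agent.Helper311.Nev
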