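import Mathlib
import Pool.Agent.Helper311.Nev.Ker

open MeasureTheory Set Filter Topology Metric
open scoped ENNReal NNReal

namespace Pool.Agent.Helper311.Nev
namespace P510


section univ


variable {f : ℂ → ℂ} {U : Set ℂ}

/-- An injective holomorphic map is open, local form. -/
theorem univ_nhds_le_map (hU : IsOpen U) (hf : DifferentiableOn ℂ f U) (hi : InjOn f U)
    {z : ℂ} (hz : z ∈ U) : 𝓝 (f z) ≤ map f (𝓝 z) := by
  have ha : AnalyticAt ℂ f z := hf.analyticAt (hU.mem_nhds hz)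
  rcases ha.eventually_constant_or_nhds_le_map_nhds with h | h
  · exfalso
    have h1 : ∀ᶠ w in 𝓝[≠] z, f w = f z ∧ w ∈ U :=
      (h.and (hU.mem_nhds hz)).filter_mono nhdsWithin_le_nhds
    have h2 : ∀ᶠ w in 𝓝[≠] z, w ≠ z := eventually_mem_nhdsWithin
    obtain ⟨w, hw, hw2⟩ := (h1.and h2).exists
    exact hw2 (hi hw.2 hz hw.1)
  · exact h

theorem univ_map_nhds (hU : IsOpen U) (hf : DifferentiableOn ℂ f U) (hi : InjOn f U)
    {z : ℂ} (hz : z ∈ U) : map f (𝓝 z) = 𝓝 (f z) := by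
  apply le_antisymm
  · exact (hf.analyticAt (hU.mem_nhds hz)).continuousAt
  · exact univ_nhds_le_map hU hf hi hz

theorem univ_isOpen_image (hU : IsOpen U) (hf : DifferentiableOn ℂ f U) (hi : InjOn f U)
    {s : Set ℂ} (hs : IsOpen s) (hsU : s ⊆ U) : IsOpen (f '' s) := by
  rw [isOpen_iff_mem_nhds]
  rintro _ ⟨z, hz, rfl⟩
  rw [← univ_map_nhds hU hf hi (hsU hz)]
  exact image_mem_map (hs.mem_nhds hz)

theorem univ_invFunOn_left (hi : InjOn f U) {z : ℂ} (hz : z ∈ U) :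
    Function.invFunOn f U (f z) = z :=
  hi.leftInvOn_invFunOn hz

theorem univ_invFunOn_mem {w : ℂ} (hw : w ∈ f '' U) :
    Function.invFunOn f U w ∈ U :=
  Function.invFunOn_mem (by simpa using hw)

theorem univ_invFunOn_right {w : ℂ} (hw : w ∈ f '' U) :
    f (Function.invFunOn f U w) = w :=
  Function.invFunOn_eq (by simpa using hw)

theorem univ_continuousAt_inv (hU : IsOpen U) (hf : DifferentiableOn ℂ f U) (hi : InjOn f U)
    {w : ℂ} (hw : w ∈ f '' U) : ContinuousAt (Function.invFunOn f U) w := by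
  obtain ⟨z, hz, rfl⟩ := hw
  rw [ContinuousAt, univ_invFunOn_left hi hz]
  intro V hV
  rw [mem_map]
  have h1 : V ∩ U ∈ 𝓝 z := inter_mem hV (hU.mem_nhds hz)
  have h2 : f '' (V ∩ U) ∈ 𝓝 (f z) := by
    rw [← univ_map_nhds hU hf hi hz]
    exact image_mem_map h1
  refine mem_of_superset h2 ?_
  rintro _ ⟨y, hy, rfl⟩
  simp only [mem_preimage]
  rw [univ_invFunOn_left hi hy.2]
  exact hy.1

/-- the inverse is differentiable where the derivative does not vanish -/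
theorem univ_hasDerivAt_inv_of_ne (hU : IsOpen U) (hf : DifferentiableOn ℂ f U) (hi : InjOn f U)
    {z : ℂ} (hz : z ∈ U) (hd : deriv f z ≠ 0) :
    HasDerivAt (Function.invFunOn f U) (deriv f z)⁻¹ (f z) := by
  have hzz : Function.invFunOn f U (f z) = z := univ_invFunOn_left hi hz
  apply HasDerivAt.of_local_left_inverse (f := f)
  · exact univ_continuousAt_inv hU hf hi (mem_image_of_mem f hz)
  · rw [hzz]
    exact (hf.differentiableAt (hU.mem_nhds hz)).hasDerivAt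
  · exact hd
  · have : f '' U ∈ 𝓝 (f z) := (univ_isOpen_image hU hf hi hU subset_rfl).mem_nhds (mem_image_of_mem f hz)
    filter_upwards [this] with w hw using univ_invFunOn_right hw

/-- zeros of the derivative are isolated -/
theorem univ_eventually_deriv_ne_zero (hU : IsOpen U) (hf : DifferentiableOn ℂ f U) (hi : InjOn f U)
    {z : ℂ} (hz : z ∈ U) : ∀ᶠ y in 𝓝[≠] z, deriv f y ≠ 0 := by
  have ha : AnalyticAt ℂ f z := hf.analyticAt (hU.mem_nhds hz)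
  rcases ha.deriv.eventually_eq_zero_or_eventually_ne_zero with h | h
  · exfalso
    obtain ⟨r, hr, hrs⟩ := Metric.eventually_nhds_iff_ball.mp (h.and (hU.mem_nhds hz))
    have hconst : ∀ y ∈ ball z r, f y = f z := by
      intro y hy
      have hdiff : DifferentiableOn ℂ f (ball z r) := hf.mono (fun x hx => (hrs x hx).2)
      refine (convex_ball z r).is_const_of_fderivWithin_eq_zero (𝕜 := ℂ) hdiff ?_ hy (mem_ball_self hr)
      intro x hx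
      rw [fderivWithin_of_isOpen isOpen_ball hx]
      ext
      simp [(hrs x hx).1]
    have h1 : z + (r/2 : ℝ) ∈ ball z r := by
      simp [abs_of_pos hr]
      linarith
    have h2 := hi (hrs _ h1).2 hz (hconst _ h1)
    have : ((r/2 : ℝ) : ℂ) = 0 := by
      simpa using h2
    have : r / 2 = 0 := by exact_mod_cast this
    linarith
  · exact h

theorem univ_differentiableAt_inv (hU : IsOpen U) (hf : DifferentiableOn ℂ f U) (hi : InjOn f U)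
    {w : ℂ} (hw : w ∈ f '' U) : DifferentiableAt ℂ (Function.invFunOn f U) w := by
  obtain ⟨z, hz, rfl⟩ := hw
  refine (Complex.analyticAt_of_differentiable_on_punctured_nhds_of_continuousAt ?_
    (univ_continuousAt_inv hU hf hi (mem_image_of_mem f hz))).differentiableAt
  have h1 : ∀ᶠ y in 𝓝 z, y ∈ U ∧ (y ≠ z → deriv f y ≠ 0) := by
    have := univ_eventually_deriv_ne_zero hU hf hi hz
    rw [eventually_nhdsWithin_iff] at this
    exact (hU.mem_nhds hz |> fun h => (show ∀ᶠ y in 𝓝 z, y ∈ U from h)).and this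
  have h2 : ∀ᶠ w in 𝓝 (f z), w ≠ f z → DifferentiableAt ℂ (Function.invFunOn f U) w := by
    rw [← univ_map_nhds hU hf hi hz, eventually_map]
    filter_upwards [h1] with y hy hne
    have hyz : y ≠ z := fun h => hne (by rw [h])
    exact (univ_hasDerivAt_inv_of_ne hU hf hi hy.1 (hy.2 hyz)).differentiableAt
  rw [eventually_nhdsWithin_iff]
  exact h2

theorem univ_deriv_ne_zero (hU : IsOpen U) (hf : DifferentiableOn ℂ f U) (hi : InjOn f U)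
    {z : ℂ} (hz : z ∈ U) : deriv f z ≠ 0 := by
  have hzz : Function.invFunOn f U (f z) = z := univ_invFunOn_left hi hz
  have hg := (univ_differentiableAt_inv hU hf hi (mem_image_of_mem f hz)).hasDerivAt
  have hf' : HasDerivAt f (deriv f z) z := (hf.differentiableAt (hU.mem_nhds hz)).hasDerivAt
  have hcomp : HasDerivAt (Function.invFunOn f U ∘ f)
      (deriv (Function.invFunOn f U) (f z) * deriv f z) z := HasDerivAt.comp z hg hf'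
  have hid : HasDerivAt (Function.invFunOn f U ∘ f) 1 z := by
    refine (hasDerivAt_id z).congr_of_eventuallyEq ?_
    filter_upwards [hU.mem_nhds hz] with y hy
    simp [univ_invFunOn_left hi hy]
  have := hcomp.unique hid
  intro h
  rw [h] at this
  simp at this


end univ

section tools

lemma scale_vol (P : ℝ → Prop) (c : ℝ) (hc : 0 < c) :
    volume {u ∈ Icc 0 (2 * Real.pi * c) | P (u * c⁻¹)} =
      ENNReal.ofReal c * volume {θ ∈ Icc 0 (2 * Real.pi) | P θ} := by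
  have h := Real.volume_preimage_mul_right (inv_ne_zero hc.ne')
    {θ | θ ∈ Icc 0 (2 * Real.pi) ∧ P θ}
  rw [inv_inv, abs_of_pos hc] at h
  rw [← h]
  congr 1
  ext u
  have h1 : 0 ≤ u ↔ 0 ≤ u * c⁻¹ := by
    rw [mul_nonneg_iff_of_pos_right (inv_pos.2 hc)]
  have h2 : u ≤ 2 * Real.pi * c ↔ u * c⁻¹ ≤ 2 * Real.pi := by
    rw [← div_eq_mul_inv, div_le_iff₀ hc]
  simp only [Set.mem_ofPred_eq, mem_Icc, mem_preimage]
  rw [h1, h2]

lemma count_le (x : ℝ) :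
    ENNReal.ofReal x ≤ ∑' n : ℕ, (if (n : ℝ) < x then (1 : ℝ≥0∞) else 0) := by
  have h1 : ∑ n ∈ Finset.range ⌈x⌉₊, (if (n : ℝ) < x then (1 : ℝ≥0∞) else 0) = ⌈x⌉₊ := by
    rw [Finset.sum_congr rfl (g := fun _ => (1 : ℝ≥0∞))]
    · simp
    · intro n hn
      rw [if_pos (Nat.lt_ceil.1 (Finset.mem_range.1 hn))]
  calc ENNReal.ofReal x ≤ ENNReal.ofReal (⌈x⌉₊ : ℝ) := ENNReal.ofReal_le_ofReal (Nat.le_ceil x)
    _ = (⌈x⌉₊ : ℝ≥0∞) := ENNReal.ofReal_natCast _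
    _ = ∑ n ∈ Finset.range ⌈x⌉₊, (if (n : ℝ) < x then (1 : ℝ≥0∞) else 0) := h1.symm
    _ ≤ _ := ENNReal.sum_le_tsum _

lemma count_ge (κ : ℝ) (hκ : 0 < κ) (y : ℝ≥0∞) :
    ∑' n : ℕ, (if ENNReal.ofReal (κ * n) < y then (1 : ℝ≥0∞) else 0) ≤
      ENNReal.ofReal κ⁻¹ * y + 1 := by
  by_cases hy : y = ⊤
  · rw [hy, ENNReal.mul_top (by simpa using hκ)]
    simp
  · obtain ⟨t, rfl⟩ : ∃ t : ℝ≥0, y = t := ⟨y.toNNReal, (ENNReal.coe_toNNReal hy).symm⟩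
    have h1 : ∀ n : ℕ, (ENNReal.ofReal (κ * n) < (t : ℝ≥0∞)) ↔ n < ⌈κ⁻¹ * (t : ℝ)⌉₊ := by
      intro n
      rw [Nat.lt_ceil, ← ENNReal.ofReal_coe_nnreal, ENNReal.ofReal_lt_ofReal_iff_of_nonneg
        (by positivity), lt_inv_mul_iff₀ hκ]
    have h2 : ∑' n : ℕ, (if ENNReal.ofReal (κ * n) < (t : ℝ≥0∞) then (1 : ℝ≥0∞) else 0) =
        ∑ n ∈ Finset.range ⌈κ⁻¹ * (t : ℝ)⌉₊, (1 : ℝ≥0∞) := by
      rw [tsum_eq_sum (s := Finset.range ⌈κ⁻¹ * (t : ℝ)⌉₊)]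
      · refine Finset.sum_congr rfl fun n hn => ?_
        rw [if_pos ((h1 n).2 (Finset.mem_range.1 hn))]
      · intro n hn
        rw [if_neg]
        rw [h1]
        simpa using hn
    rw [h2]
    have h3 : (⌈κ⁻¹ * (t : ℝ)⌉₊ : ℝ) ≤ κ⁻¹ * t + 1 :=
      (Nat.ceil_lt_add_one (by positivity)).le
    calc ∑ n ∈ Finset.range ⌈κ⁻¹ * (t : ℝ)⌉₊, (1 : ℝ≥0∞) = (⌈κ⁻¹ * (t : ℝ)⌉₊ : ℝ≥0∞) := by simp
      _ = ENNReal.ofReal (⌈κ⁻¹ * (t : ℝ)⌉₊ : ℝ) := (ENNReal.ofReal_natCast _).symm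
      _ ≤ ENNReal.ofReal (κ⁻¹ * t + 1) := ENNReal.ofReal_le_ofReal h3
      _ = ENNReal.ofReal κ⁻¹ * t + 1 := by
          rw [ENNReal.ofReal_add (by positivity) zero_le_one, ENNReal.ofReal_mul (by positivity),
            ENNReal.ofReal_coe_nnreal, ENNReal.ofReal_one]

lemma lintegral_le_tsum (μ : Measure ℝ) (g : ℝ → ℝ) (hg : Measurable g) :
    ∫⁻ θ, ENNReal.ofReal (g θ) ∂μ ≤ ∑' n : ℕ, μ {θ | (n : ℝ) < g θ} := by
  have hm : ∀ n : ℕ, MeasurableSet {θ | (n : ℝ) < g θ} := fun n =>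
    measurableSet_lt measurable_const hg
  calc ∫⁻ θ, ENNReal.ofReal (g θ) ∂μ
      ≤ ∫⁻ θ, ∑' n : ℕ, ({θ | (n : ℝ) < g θ}.indicator (fun _ => (1 : ℝ≥0∞)) θ) ∂μ := by
        refine lintegral_mono fun θ => ?_
        refine (count_le (g θ)).trans (le_of_eq ?_)
        refine tsum_congr fun n => ?_
        simp only [indicator, Set.mem_ofPred_eq]
    _ = ∑' n : ℕ, ∫⁻ θ, ({θ | (n : ℝ) < g θ}.indicator (fun _ => (1 : ℝ≥0∞)) θ) ∂μ :=
        lintegral_tsum fun n => (measurable_const.indicator (hm n)).aemeasurable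
    _ = ∑' n : ℕ, μ {θ | (n : ℝ) < g θ} := by
        refine tsum_congr fun n => ?_
        rw [lintegral_indicator_const (hm n), one_mul]

lemma tsum_le_lintegral (μ : Measure ℝ) (κ : ℝ) (hκ : 0 < κ) (g : ℝ → ℝ≥0∞)
    (hg : Measurable g) :
    ∑' n : ℕ, μ {θ | ENNReal.ofReal (κ * n) < g θ} ≤
      ENNReal.ofReal κ⁻¹ * (∫⁻ θ, g θ ∂μ) + μ univ := by
  have hm : ∀ n : ℕ, MeasurableSet {θ | ENNReal.ofReal (κ * n) < g θ} := fun n =>
    measurableSet_lt measurable_const hg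
  calc ∑' n : ℕ, μ {θ | ENNReal.ofReal (κ * n) < g θ}
      = ∑' n : ℕ, ∫⁻ θ, ({θ | ENNReal.ofReal (κ * n) < g θ}.indicator
          (fun _ => (1 : ℝ≥0∞)) θ) ∂μ := by
        refine tsum_congr fun n => ?_
        rw [lintegral_indicator_const (hm n), one_mul]
    _ = ∫⁻ θ, ∑' n : ℕ, ({θ | ENNReal.ofReal (κ * n) < g θ}.indicator
          (fun _ => (1 : ℝ≥0∞)) θ) ∂μ :=
        (lintegral_tsum fun n => (measurable_const.indicator (hm n)).aemeasurable).symm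
    _ ≤ ∫⁻ θ, (ENNReal.ofReal κ⁻¹ * g θ + 1) ∂μ := by
        refine lintegral_mono fun θ => ?_
        refine le_trans (le_of_eq ?_) (count_ge κ hκ (g θ))
        refine tsum_congr fun n => ?_
        simp only [indicator, Set.mem_ofPred_eq]
    _ = ENNReal.ofReal κ⁻¹ * (∫⁻ θ, g θ ∂μ) + μ univ := by
        rw [lintegral_add_right _ measurable_const, lintegral_const_mul _ hg,
          lintegral_const, one_mul]

end tools

section stepA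

variable {C₁ : ℝ} {k : ℕ} {φ : ℂ → ℂ}

lemma stepA (hC₁ : 1 ≤ C₁)
    (hsaw : ∀ L : ℝ, 1 ≤ L → ∀ G : Set ℝ,
      G = {θ : ℝ | ∀ r ∈ Ico (0 : ℝ) 1, L⁻¹ ≤ ‖deriv φ (circleMap 0 r θ)‖ ∧
        ‖deriv φ (circleMap 0 r θ)‖ ≤ L} → G.Nonempty →
      ∃ h : ℝ → ℂ, (∀ θ ∈ G, h θ = φ (circleMap 0 1 θ)) ∧
        (∀ s t, ‖h s - h t‖ ≤ C₁ * L * |s - t|) ∧
        ∀ (p : ℂ) (R : ℝ), 0 < R →
          volume {θ ∈ Icc 0 (2 * Real.pi) | ‖h θ - p‖ < R} ≤ ENNReal.ofReal (C₁ * L ^ 4 * R))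
    (hcurve : ∀ A : ℝ, 1 ≤ A → ∀ ℓ : ℝ, 0 < ℓ → ∀ h : ℝ → ℂ,
      (∀ s ∈ Icc 0 ℓ, ∀ t ∈ Icc 0 ℓ, ‖h s - h t‖ ≤ |s - t|) →
      (∀ (p : ℂ) (R : ℝ), 0 < R →
        volume {u ∈ Icc 0 ℓ | ‖h u - p‖ < R} ≤ ENNReal.ofReal (A * R)) →
      ∀ (ι : Type) [Fintype ι] (ζ : ι → ℂ) (m : ι → ℝ), (∀ i, 0 ≤ m i) → ∀ α : ℝ, 0 < α →
      volume {u ∈ Icc 0 ℓ | ∃ ρ : ℝ, 0 < ρ ∧ α < ‖Tr ζ m ρ (h u)‖}
        ≤ ENNReal.ofReal (C₁ * A ^ k * (∑ i, m i) / α))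
    (hN : ∀ (S : Set ℝ) (h : ℝ → ℂ) (A : ℝ), 0 < A →
      (∀ (p : ℂ) (R : ℝ), 0 < R → volume {u ∈ S | ‖h u - p‖ < R} ≤ ENNReal.ofReal (A * R)) →
      ∀ (ι : Type) [Fintype ι] (ζ : ι → ℂ) (m : ι → ℝ), (∀ i, 0 ≤ m i) → ∀ α : ℝ, 0 < α →
      volume {u ∈ S | ∃ ρ : ℝ, 0 < ρ ∧ α < Nr ζ m ρ (h u)}
        ≤ ENNReal.ofReal (C₁ * A * (∑ i, m i) / α))
    (hcomp : ∀ L : ℝ, 1 ≤ L → ∀ θ : ℝ,
      (∀ r ∈ Ico (0 : ℝ) 1, L⁻¹ ≤ ‖deriv φ (circleMap 0 r θ)‖ ∧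
        ‖deriv φ (circleMap 0 r θ)‖ ≤ L) →
      ∀ r ∈ Ico (0 : ℝ) 1, ∃ ρ : ℝ, 0 < ρ ∧
        ∀ (ι : Type) [Fintype ι] (ζ : ι → ℂ) (m : ι → ℝ), (∀ i, ζ i ∈ φ '' sphere 0 1) →
          (∀ i, 0 ≤ m i) →
          ‖∑ i, (m i : ℂ) / (ζ i - φ (circleMap 0 r θ))‖
            ≤ ‖Tr ζ m ρ (φ (circleMap 0 1 θ))‖
              + C₁ * L ^ 2 * Nr ζ m ρ (φ (circleMap 0 1 θ)))
    (L : ℝ) (hL : 1 ≤ L) (ι : Type) [Fintype ι] (ζ : ι → ℂ) (m : ι → ℝ)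
    (hζ : ∀ i, ζ i ∈ φ '' sphere 0 1) (hm : ∀ i, 0 ≤ m i) (r : ℝ) (hr : r ∈ Ico (0 : ℝ) 1)
    (α : ℝ) (hα : 0 < α) :
    volume {θ ∈ Icc 0 (2 * Real.pi) | (∀ r ∈ Ico (0 : ℝ) 1,
      L⁻¹ ≤ ‖deriv φ (circleMap 0 r θ)‖ ∧ ‖deriv φ (circleMap 0 r θ)‖ ≤ L) ∧
      α < ‖∑ i, (m i : ℂ) / (ζ i - φ (circleMap 0 r θ))‖} ≤
      ENNReal.ofReal (4 * C₁ ^ (2 * k + 3) * L ^ (5 * k + 6) * (∑ i, m i) / α) := by
  have hC0 : 0 < C₁ := by linarith
  have hL0 : 0 < L := by linarith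
  have hm0 : 0 ≤ ∑ i, m i := Finset.sum_nonneg fun i _ => hm i
  set G : Set ℝ := {θ : ℝ | ∀ r ∈ Ico (0 : ℝ) 1, L⁻¹ ≤ ‖deriv φ (circleMap 0 r θ)‖ ∧
        ‖deriv φ (circleMap 0 r θ)‖ ≤ L} with hGdef
  rcases G.eq_empty_or_nonempty with hGe | hGne
  · have : {θ ∈ Icc 0 (2 * Real.pi) | (∀ r ∈ Ico (0 : ℝ) 1,
      L⁻¹ ≤ ‖deriv φ (circleMap 0 r θ)‖ ∧ ‖deriv φ (circleMap 0 r θ)‖ ≤ L) ∧
      α < ‖∑ i, (m i : ℂ) / (ζ i - φ (circleMap 0 r θ))‖} = ∅ := by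
      rw [eq_empty_iff_forall_notMem]
      rintro θ ⟨_, h2, _⟩
      have h3 : θ ∈ G := h2
      rw [hGe] at h3
      exact h3
    rw [this, measure_empty]
    exact zero_le
  obtain ⟨h, hh1, hh2, hh3⟩ := hsaw L hL G hGdef hGne
  set c := C₁ * L with hc
  have hc0 : 0 < c := by positivity
  have hc1 : 1 ≤ c := by nlinarith
  set A := C₁ ^ 2 * L ^ 5 with hA
  have hA1 : 1 ≤ A := by
    have h1 : 1 ≤ C₁ ^ 2 := one_le_pow₀ hC₁
    have h2 : 1 ≤ L ^ 5 := one_le_pow₀ hL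
    nlinarith
  -- the scaled curve
  have hTr := hcurve A hA1 (2 * Real.pi * c) (by positivity) (fun u => h (u * c⁻¹))
    (by
      intro s _ t _
      refine (hh2 _ _).trans ?_
      rw [← sub_mul, abs_mul, abs_of_pos (inv_pos.2 hc0)]
      apply le_of_eq
      field_simp)
    (by
      intro p R hR
      rw [scale_vol (fun θ => ‖h θ - p‖ < R) c hc0]
      refine (mul_le_mul_right (hh3 p R hR) (ENNReal.ofReal c)).trans ?_
      rw [← ENNReal.ofReal_mul hc0.le]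
      apply ENNReal.ofReal_le_ofReal
      rw [hc, hA]
      apply le_of_eq
      ring)
    ι ζ m hm (α / 2) (by positivity)
  rw [scale_vol (fun θ => ∃ ρ : ℝ, 0 < ρ ∧ α / 2 < ‖Tr ζ m ρ (h θ)‖) c hc0] at hTr
  have hTr2 : volume {θ ∈ Icc 0 (2 * Real.pi) | ∃ ρ : ℝ, 0 < ρ ∧ α / 2 < ‖Tr ζ m ρ (h θ)‖}
      ≤ ENNReal.ofReal (C₁ * A ^ k * (∑ i, m i) / (α / 2)) := by
    refine le_trans ?_ hTr
    calc volume {θ ∈ Icc 0 (2 * Real.pi) | ∃ ρ : ℝ, 0 < ρ ∧ α / 2 < ‖Tr ζ m ρ (h θ)‖}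
        = 1 * volume {θ ∈ Icc 0 (2 * Real.pi) | ∃ ρ : ℝ, 0 < ρ ∧ α / 2 < ‖Tr ζ m ρ (h θ)‖} :=
          (one_mul _).symm
      _ ≤ _ := by
          refine mul_le_mul_left ?_ _
          rw [← ENNReal.ofReal_one]
          exact ENNReal.ofReal_le_ofReal hc1
  have hNr := hN (Icc 0 (2 * Real.pi)) h (C₁ * L ^ 4) (by positivity) hh3 ι ζ m hm
    (α / (2 * (C₁ * L ^ 2))) (by positivity)
  refine (measure_mono (t := {θ ∈ Icc 0 (2 * Real.pi) | ∃ ρ : ℝ, 0 < ρ ∧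
    α / 2 < ‖Tr ζ m ρ (h θ)‖} ∪ {θ ∈ Icc 0 (2 * Real.pi) | ∃ ρ : ℝ, 0 < ρ ∧
    α / (2 * (C₁ * L ^ 2)) < Nr ζ m ρ (h θ)}) ?_).trans ?_
  · rintro θ ⟨h1, h2, h3⟩
    obtain ⟨ρ, hρ, hρ2⟩ := hcomp L hL θ h2 r hr
    have h4 := hρ2 ι ζ m hζ hm
    have h5 : h θ = φ (circleMap 0 1 θ) := hh1 θ h2
    rw [← h5] at h4
    by_cases h6 : α / 2 < ‖Tr ζ m ρ (h θ)‖
    · left
      exact ⟨h1, ρ, hρ, h6⟩
    · right
      refine ⟨h1, ρ, hρ, ?_⟩
      push Not at h6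
      rw [div_lt_iff₀ (by positivity)]
      nlinarith
  · refine (measure_union_le _ _).trans ((add_le_add hTr2 hNr).trans ?_)
    rw [← ENNReal.ofReal_add (by positivity) (by positivity)]
    apply ENNReal.ofReal_le_ofReal
    have e1 : C₁ * A ^ k * (∑ i, m i) / (α / 2) =
        (2 * C₁ ^ (2 * k + 1) * L ^ (5 * k)) * ((∑ i, m i) / α) := by
      rw [hA, mul_pow, ← pow_mul, ← pow_mul, pow_succ]
      field_simp
    have e2 : C₁ * (C₁ * L ^ 4) * (∑ i, m i) / (α / (2 * (C₁ * L ^ 2))) =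
        (2 * C₁ ^ 3 * L ^ 6) * ((∑ i, m i) / α) := by
      field_simp
    rw [e1, e2, ← add_mul, mul_div_assoc]
    refine mul_le_mul_of_nonneg_right ?_ (by positivity)
    have f1 : C₁ ^ (2 * k + 1) ≤ C₁ ^ (2 * k + 3) := pow_le_pow_right₀ hC₁ (by omega)
    have f2 : L ^ (5 * k) ≤ L ^ (5 * k + 6) := pow_le_pow_right₀ hL (by omega)
    have f3 : C₁ ^ 3 ≤ C₁ ^ (2 * k + 3) := pow_le_pow_right₀ hC₁ (by omega)
    have f4 : L ^ 6 ≤ L ^ (5 * k + 6) := pow_le_pow_right₀ hL (by omega)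
    have g1 : C₁ ^ (2 * k + 1) * L ^ (5 * k) ≤ C₁ ^ (2 * k + 3) * L ^ (5 * k + 6) :=
      mul_le_mul f1 f2 (by positivity) (by positivity)
    have g2 : C₁ ^ 3 * L ^ 6 ≤ C₁ ^ (2 * k + 3) * L ^ (5 * k + 6) :=
      mul_le_mul f3 f4 (by positivity) (by positivity)
    linarith

end stepA

/-- I2 -/
theorem atomic_bound
    (C₁ : ℝ) (hC₁ : 1 ≤ C₁) (k : ℕ)
    (φ : ℂ → ℂ) (hφc : ContinuousOn φ (closedBall 0 1))
    (hφi : InjOn φ (closedBall 0 1)) (hφd : DifferentiableOn ℂ φ (ball 0 1))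
    (V : ℝ) (hV : 0 ≤ V)
    (hsaw : ∀ L : ℝ, 1 ≤ L → ∀ G : Set ℝ,
      G = {θ : ℝ | ∀ r ∈ Ico (0 : ℝ) 1, L⁻¹ ≤ ‖deriv φ (circleMap 0 r θ)‖ ∧
        ‖deriv φ (circleMap 0 r θ)‖ ≤ L} → G.Nonempty →
      ∃ h : ℝ → ℂ, (∀ θ ∈ G, h θ = φ (circleMap 0 1 θ)) ∧
        (∀ s t, ‖h s - h t‖ ≤ C₁ * L * |s - t|) ∧
        ∀ (p : ℂ) (R : ℝ), 0 < R →
          volume {θ ∈ Icc 0 (2 * Real.pi) | ‖h θ - p‖ < R} ≤ ENNReal.ofReal (C₁ * L ^ 4 * R))
    (hcurve : ∀ A : ℝ, 1 ≤ A → ∀ ℓ : ℝ, 0 < ℓ → ∀ h : ℝ → ℂ,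
      (∀ s ∈ Icc 0 ℓ, ∀ t ∈ Icc 0 ℓ, ‖h s - h t‖ ≤ |s - t|) →
      (∀ (p : ℂ) (R : ℝ), 0 < R →
        volume {u ∈ Icc 0 ℓ | ‖h u - p‖ < R} ≤ ENNReal.ofReal (A * R)) →
      ∀ (ι : Type) [Fintype ι] (ζ : ι → ℂ) (m : ι → ℝ), (∀ i, 0 ≤ m i) → ∀ α : ℝ, 0 < α →
      volume {u ∈ Icc 0 ℓ | ∃ ρ : ℝ, 0 < ρ ∧ α < ‖Tr ζ m ρ (h u)‖}
        ≤ ENNReal.ofReal (C₁ * A ^ k * (∑ i, m i) / α))
    (hN : ∀ (S : Set ℝ) (h : ℝ → ℂ) (A : ℝ), 0 < A →
      (∀ (p : ℂ) (R : ℝ), 0 < R → volume {u ∈ S | ‖h u - p‖ < R} ≤ ENNReal.ofReal (A * R)) →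
      ∀ (ι : Type) [Fintype ι] (ζ : ι → ℂ) (m : ι → ℝ), (∀ i, 0 ≤ m i) → ∀ α : ℝ, 0 < α →
      volume {u ∈ S | ∃ ρ : ℝ, 0 < ρ ∧ α < Nr ζ m ρ (h u)}
        ≤ ENNReal.ofReal (C₁ * A * (∑ i, m i) / α))
    (hrad : ∀ Λ : ℝ, 0 < Λ →
      volume {θ ∈ Icc 0 (2 * Real.pi) | ∃ r ∈ Ico (0 : ℝ) 1,
        Λ < ‖deriv φ (circleMap 0 r θ)‖} ≤ ENNReal.ofReal (C₁ * V / Λ))
    (hcomp : ∀ L : ℝ, 1 ≤ L → ∀ θ : ℝ,
      (∀ r ∈ Ico (0 : ℝ) 1, L⁻¹ ≤ ‖deriv φ (circleMap 0 r θ)‖ ∧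
        ‖deriv φ (circleMap 0 r θ)‖ ≤ L) →
      ∀ r ∈ Ico (0 : ℝ) 1, ∃ ρ : ℝ, 0 < ρ ∧
        ∀ (ι : Type) [Fintype ι] (ζ : ι → ℂ) (m : ι → ℝ), (∀ i, ζ i ∈ φ '' sphere 0 1) →
          (∀ i, 0 ≤ m i) →
          ‖∑ i, (m i : ℂ) / (ζ i - φ (circleMap 0 r θ))‖
            ≤ ‖Tr ζ m ρ (φ (circleMap 0 1 θ))‖
              + C₁ * L ^ 2 * Nr ζ m ρ (φ (circleMap 0 1 θ)))
    (hlog : ∫⁻ θ in Icc 0 (2 * Real.pi), ⨆ r ∈ Ico (0 : ℝ) 1,
      ENNReal.ofReal (Real.posLog (‖deriv φ (circleMap 0 r θ)‖⁻¹)) < ∞) (m₀ : ℝ) :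
    ∃ C : ℝ, ∀ (ι : Type) [Fintype ι] (ζ : ι → ℂ) (m : ι → ℝ),
      (∀ i, ζ i ∈ φ '' sphere 0 1) → (∀ i, 0 ≤ m i) → ∑ i, m i ≤ m₀ →
      ∀ r ∈ Ioo (0 : ℝ) 1, ∫ θ in (0 : ℝ)..(2 * Real.pi),
        Real.posLog ‖∑ i, (m i : ℂ) / (ζ i - φ (circleMap 0 r θ))‖ ≤ C := by
  obtain ⟨q, hq0, hq⟩ : ∃ q : ℕ, 0 < q ∧ q = 5 * k + 6 := ⟨5 * k + 6, by omega, rfl⟩
  have hq1 : (0 : ℝ) < q := by exact_mod_cast hq0
  set κ : ℝ := 1 / (2 * q) with hκdef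
  have hκ : 0 < κ := by positivity
  have hC0 : 0 < C₁ := by linarith
  set B : ℝ := 4 * C₁ ^ (2 * k + 3) with hB
  have hB0 : 0 < B := by positivity
  set mp : ℝ := max m₀ 0 with hmp
  have hmp0 : 0 ≤ mp := le_max_right _ _
  have hsphere : ∀ {r : ℝ}, r ∈ Ico (0 : ℝ) 1 → ∀ θ, circleMap 0 r θ ∈ ball (0 : ℂ) 1 := by
    intro r hr θ
    rw [mem_ball_zero_iff, norm_circleMap_zero, abs_of_nonneg hr.1]
    exact hr.2
  have hne : ∀ z ∈ ball (0 : ℂ) 1, deriv φ z ≠ 0 := fun z hz =>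
    univ_deriv_ne_zero isOpen_ball hφd (hφi.mono ball_subset_closedBall) hz
  set Mx : ℝ → ℝ≥0∞ := fun θ => ⨆ r ∈ Ico (0 : ℝ) 1,
      ENNReal.ofReal (Real.posLog (‖deriv φ (circleMap 0 r θ)‖⁻¹)) with hMx
  have hMxm : Measurable Mx := by
    apply LowerSemicontinuous.measurable
    refine lowerSemicontinuous_biSup fun r hr => ?_
    apply Continuous.lowerSemicontinuous
    have hdc : ContinuousOn (deriv φ) (ball 0 1) := (hφd.deriv isOpen_ball).continuousOn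
    have h1 : Continuous fun θ : ℝ => deriv φ (circleMap 0 r θ) :=
      hdc.comp_continuous (continuous_circleMap 0 r) (hsphere hr)
    have h2 : Continuous fun θ : ℝ => ‖deriv φ (circleMap 0 r θ)‖⁻¹ :=
      h1.norm.inv₀ fun θ => norm_ne_zero_iff.2 (hne _ (hsphere hr θ))
    exact ENNReal.continuous_ofReal.comp (Real.continuous_posLog.comp h2)
  set μ : Measure ℝ := volume.restrict (Icc 0 (2 * Real.pi)) with hμ
  set b : ℕ → ℝ≥0∞ := fun n => ENNReal.ofReal (B * mp * Real.exp (-(n : ℝ) / 2)) +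
    ENNReal.ofReal (C₁ * V * Real.exp (-κ * n)) + μ {θ | ENNReal.ofReal (κ * n) < Mx θ} with hb
  have hbsum : ∑' n, b n ≠ ⊤ := by
    have s1 : Summable fun n : ℕ => B * mp * Real.exp (-(n : ℝ) / 2) := by
      have h1 : Summable fun n : ℕ => Real.exp (n * (-(1 / 2 : ℝ))) :=
        Real.summable_exp_nat_mul_iff.2 (by norm_num)
      refine (h1.mul_left (B * mp)).congr fun n => ?_
      congr 2; ring
    have s2 : Summable fun n : ℕ => C₁ * V * Real.exp (-κ * n) := by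
      have h1 : Summable fun n : ℕ => Real.exp (n * (-κ)) :=
        Real.summable_exp_nat_mul_iff.2 (by linarith)
      refine (h1.mul_left (C₁ * V)).congr fun n => ?_
      congr 2; ring
    have s3 : ∑' n : ℕ, μ {θ | ENNReal.ofReal (κ * n) < Mx θ} ≠ ⊤ := by
      refine ne_top_of_le_ne_top ?_ (tsum_le_lintegral μ κ hκ Mx hMxm)
      refine ENNReal.add_ne_top.2 ⟨ENNReal.mul_ne_top ENNReal.ofReal_ne_top hlog.ne, ?_⟩
      rw [hμ, Measure.restrict_apply_univ, Real.volume_Icc]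
      exact ENNReal.ofReal_ne_top
    rw [hb, ENNReal.tsum_add, ENNReal.tsum_add]
    exact ENNReal.add_ne_top.2 ⟨ENNReal.add_ne_top.2 ⟨s1.tsum_ofReal_ne_top,
      s2.tsum_ofReal_ne_top⟩, s3⟩
  refine ⟨(∑' n, b n).toReal, ?_⟩
  intro ι _ ζ m hζ hm hmm r hr
  have hr' : r ∈ Ico (0 : ℝ) 1 := ⟨hr.1.le, hr.2⟩
  have hm0 : 0 ≤ ∑ i, m i := Finset.sum_nonneg fun i _ => hm i
  have hmmp : ∑ i, m i ≤ mp := hmm.trans (le_max_left _ _)
  have hFm : Measurable fun θ : ℝ => ‖∑ i, (m i : ℂ) / (ζ i - φ (circleMap 0 r θ))‖ := by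
    have h1 : Continuous fun θ : ℝ => φ (circleMap 0 r θ) :=
      hφc.comp_continuous (continuous_circleMap 0 r)
        fun θ => ball_subset_closedBall (hsphere hr' θ)
    have h2 := h1.measurable
    refine Measurable.norm ?_
    refine Finset.measurable_fun_sum _ fun i _ => ?_
    exact measurable_const.div (measurable_const.sub h2)
  have hgm : Measurable fun θ : ℝ =>
      Real.posLog ‖∑ i, (m i : ℂ) / (ζ i - φ (circleMap 0 r θ))‖ :=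
    Real.continuous_posLog.measurable.comp hFm
  rw [intervalIntegral.integral_of_le (by positivity), ← integral_Icc_eq_integral_Ioc,
    integral_eq_lintegral_of_nonneg_ae (ae_of_all _ fun θ => Real.posLog_nonneg)
      hgm.aestronglyMeasurable]
  refine ENNReal.toReal_mono hbsum ?_
  refine (lintegral_le_tsum μ _ hgm).trans ?_
  refine ENNReal.tsum_le_tsum fun n => ?_
  have hLn : 1 ≤ Real.exp (κ * n) := Real.one_le_exp (by positivity)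
  have hA := stepA hC₁ hsaw hcurve hN hcomp (Real.exp (κ * n)) hLn ι ζ m hζ hm r hr'
    (Real.exp n) (Real.exp_pos _)
  have hR := hrad (Real.exp (κ * n)) (Real.exp_pos _)
  have hset : {θ | (n : ℝ) < Real.posLog ‖∑ i, (m i : ℂ) / (ζ i - φ (circleMap 0 r θ))‖} ∩
      Icc 0 (2 * Real.pi) ⊆
      ({θ ∈ Icc 0 (2 * Real.pi) | (∀ r ∈ Ico (0 : ℝ) 1,
      (Real.exp (κ * n))⁻¹ ≤ ‖deriv φ (circleMap 0 r θ)‖ ∧
        ‖deriv φ (circleMap 0 r θ)‖ ≤ Real.exp (κ * n)) ∧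
      Real.exp n < ‖∑ i, (m i : ℂ) / (ζ i - φ (circleMap 0 r θ))‖} ∪
      {θ ∈ Icc 0 (2 * Real.pi) | ∃ r ∈ Ico (0 : ℝ) 1,
        Real.exp (κ * n) < ‖deriv φ (circleMap 0 r θ)‖}) ∪
      ({θ | ENNReal.ofReal (κ * n) < Mx θ} ∩ Icc 0 (2 * Real.pi)) := by
    rintro θ ⟨h1, h2⟩
    have h3 : Real.exp n < ‖∑ i, (m i : ℂ) / (ζ i - φ (circleMap 0 r θ))‖ := by
      have h1' : (n : ℝ) < max 0 (Real.log ‖∑ i, (m i : ℂ) / (ζ i - φ (circleMap 0 r θ))‖) := h1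
      rcases lt_max_iff.1 h1' with h | h
      · exact absurd h (not_lt.2 (Nat.cast_nonneg n))
      · by_contra hcon
        push Not at hcon
        rcases (norm_nonneg (∑ i, (m i : ℂ) / (ζ i - φ (circleMap 0 r θ)))).eq_or_lt with h0 | h0
        · rw [← h0, Real.log_zero] at h
          exact absurd h (not_lt.2 (Nat.cast_nonneg n))
        · have := Real.log_le_log h0 hcon
          rw [Real.log_exp] at this
          linarith
    by_cases hg : ∀ r ∈ Ico (0 : ℝ) 1, (Real.exp (κ * n))⁻¹ ≤ ‖deriv φ (circleMap 0 r θ)‖ ∧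
        ‖deriv φ (circleMap 0 r θ)‖ ≤ Real.exp (κ * n)
    · left; left
      exact ⟨h2, hg, h3⟩
    · push Not at hg
      obtain ⟨s, hs, hs2⟩ := hg
      by_cases hs3 : (Real.exp (κ * n))⁻¹ ≤ ‖deriv φ (circleMap 0 s θ)‖
      · left; right
        exact ⟨h2, s, hs, hs2 hs3⟩
      · right
        refine ⟨?_, h2⟩
        push Not at hs3
        have hpos : 0 < ‖deriv φ (circleMap 0 s θ)‖ := norm_pos_iff.2 (hne _ (hsphere hs θ))
        have h4 : Real.exp (κ * n) < ‖deriv φ (circleMap 0 s θ)‖⁻¹ := by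
          rw [lt_inv_comm₀ (Real.exp_pos _) hpos]
          exact hs3
        have h5 : κ * n < Real.posLog (‖deriv φ (circleMap 0 s θ)‖⁻¹) := by
          have h6 : κ * n < Real.log (‖deriv φ (circleMap 0 s θ)‖⁻¹) := by
            rw [Real.lt_log_iff_exp_lt (inv_pos.2 hpos)]
            exact h4
          exact lt_of_lt_of_le h6 (le_max_right _ _)
        have h7 : ENNReal.ofReal (κ * n) <
            ENNReal.ofReal (Real.posLog (‖deriv φ (circleMap 0 s θ)‖⁻¹)) :=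
          (ENNReal.ofReal_lt_ofReal_iff_of_nonneg (by positivity)).2 h5
        refine lt_of_lt_of_le h7 ?_
        exact le_iSup₂ (f := fun (r : ℝ) (_ : r ∈ Ico (0 : ℝ) 1) =>
          ENNReal.ofReal (Real.posLog (‖deriv φ (circleMap 0 r θ)‖⁻¹))) s hs
  have hgmeas : MeasurableSet {θ | (n : ℝ) <
      Real.posLog ‖∑ i, (m i : ℂ) / (ζ i - φ (circleMap 0 r θ))‖} :=
    measurableSet_lt measurable_const hgm
  rw [hμ, Measure.restrict_apply hgmeas]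
  refine (measure_mono hset).trans ?_
  refine (measure_union_le _ _).trans ?_
  rw [hb]
  refine add_le_add ((measure_union_le _ _).trans (add_le_add (hA.trans ?_) (hR.trans ?_))) ?_
  · apply ENNReal.ofReal_le_ofReal
    rw [← hB, ← hq]
    have e1 : Real.exp (κ * n) ^ q = Real.exp ((n : ℝ) / 2) := by
      rw [← Real.exp_nat_mul]
      congr 1
      rw [hκdef]
      field_simp
    have e2 : Real.exp (-(n : ℝ) / 2) = Real.exp ((n : ℝ) / 2) / Real.exp n := by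
      rw [← Real.exp_sub]
      congr 1; ring
    rw [e1, e2]
    have h1 : B * Real.exp ((n : ℝ) / 2) * (∑ i, m i) ≤ B * Real.exp ((n : ℝ) / 2) * mp :=
      mul_le_mul_of_nonneg_left hmmp (by positivity)
    calc B * Real.exp ((n : ℝ) / 2) * (∑ i, m i) / Real.exp n
        ≤ B * Real.exp ((n : ℝ) / 2) * mp / Real.exp n :=
          div_le_div_of_nonneg_right h1 (Real.exp_pos _).le
      _ = B * mp * (Real.exp ((n : ℝ) / 2) / Real.exp n) := by ring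
  · apply ENNReal.ofReal_le_ofReal
    apply le_of_eq
    rw [div_eq_mul_inv, ← Real.exp_neg]
    congr 2; ring
  · rw [hμ, Measure.restrict_apply (measurableSet_lt measurable_const hMxm)]

end P510
end Pool.Agent.Helper311.Nev
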