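import Mathlib
import Pool.Agent.Helper311.Nev.Ker

open MeasureTheory Set Filter Topology Metric
open scoped ENNReal NNReal

namespace Pool.Agent.Helper311.Nev
namespace P511



theorem int_simple (f : SimpleFunc ℂ ℂ) (ν : Measure ℂ) [IsFiniteMeasure ν] (g : ℂ → ℂ) :
    ∫ ζ, g (f ζ) ∂ν = ∑ y : {y // y ∈ f.range}, ((ν.real (f ⁻¹' {y.1}) : ℝ) : ℂ) * g y.1 := by
  have h1 : ∀ ζ, g (f ζ) = ∑ y ∈ f.range, (f ⁻¹' {y}).indicator (fun _ => g y) ζ := by
    intro ζ
    rw [Finset.sum_eq_single (f ζ)]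
    · simp
    · intro y _ hy
      rw [indicator_of_notMem]
      simpa using Ne.symm hy
    · intro h
      exact absurd (f.mem_range_self ζ) h
  simp_rw [h1]
  rw [integral_finsetSum]
  · rw [← Finset.sum_coe_sort f.range]
    refine Finset.sum_congr rfl fun y _ => ?_
    rw [integral_indicator_const _ (f.measurableSet_fiber y.1), Complex.real_smul]
  · intro y _
    exact (integrable_const _).indicator (f.measurableSet_fiber _)

theorem sep {φ : ℂ → ℂ} (hφc : ContinuousOn φ (closedBall 0 1))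
    (hφi : InjOn φ (closedBall 0 1)) {S : Set ℂ} (hS : IsCompact S) (hS1 : S ⊆ ball 0 1) :
    ∃ δ : ℝ, 0 < δ ∧ ∀ z ∈ S, ∀ ζ ∈ φ '' sphere 0 1, δ < ‖ζ - φ z‖ := by
  have h1 : IsCompact (φ '' S) :=
    hS.image_of_continuousOn (hφc.mono (hS1.trans ball_subset_closedBall))
  have h2 : IsClosed (φ '' sphere 0 1) :=
    ((isCompact_sphere (0 : ℂ) 1).image_of_continuousOn
      (hφc.mono sphere_subset_closedBall)).isClosed
  have h3 : Disjoint (φ '' S) (φ '' sphere 0 1) := by
    rw [Set.disjoint_left]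
    rintro _ ⟨z, hz, rfl⟩ ⟨w, hw, hwz⟩
    have h4 := hφi (sphere_subset_closedBall hw) (ball_subset_closedBall (hS1 hz)) hwz
    rw [h4] at hw
    have h5 := hS1 hz
    rw [mem_ball] at h5
    rw [mem_sphere] at hw
    linarith
  obtain ⟨δ, hδ, h⟩ := exists_pos_forall_lt_edist h1 h2 h3
  refine ⟨δ, by exact_mod_cast hδ, fun z hz ζ hζ => ?_⟩
  have h6 := h (φ z) (mem_image_of_mem _ hz) ζ hζ
  rw [edist_nndist, ENNReal.coe_lt_coe] at h6
  rw [← dist_eq_norm, dist_comm, dist_nndist]
  exact_mod_cast h6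

/-- I3 -/
theorem general_measure (φ : ℂ → ℂ) (hφc : ContinuousOn φ (closedBall 0 1))
    (hφi : InjOn φ (closedBall 0 1)) (hφd : DifferentiableOn ℂ φ (ball 0 1))
    (hyp : ∀ m₀ : ℝ, ∃ C : ℝ, ∀ (ι : Type) [Fintype ι] (ζ : ι → ℂ) (m : ι → ℝ),
      (∀ i, ζ i ∈ φ '' sphere 0 1) → (∀ i, 0 ≤ m i) → ∑ i, m i ≤ m₀ →
      ∀ r ∈ Ioo (0 : ℝ) 1, ∫ θ in (0 : ℝ)..(2 * Real.pi),
        Real.posLog ‖∑ i, (m i : ℂ) / (ζ i - φ (circleMap 0 r θ))‖ ≤ C)
    (ν : Measure ℂ) [IsFiniteMeasure ν] (hν : ν (φ '' sphere 0 1)ᶜ = 0) :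
    DifferentiableOn ℂ (fun z => ∫ ζ, 1 / (ζ - φ z) ∂ν) (ball 0 1) ∧
    ∃ C : ℝ, ∀ r ∈ Ioo (0 : ℝ) 1, ∫ θ in (0 : ℝ)..(2 * Real.pi),
        Real.posLog ‖∫ ζ, 1 / (ζ - φ (circleMap 0 r θ)) ∂ν‖ ≤ C := by
  have hae : ∀ᵐ ζ ∂ν, ζ ∈ φ '' sphere 0 1 := by
    rw [ae_iff]
    exact hν
  have hmeas1 : ∀ w : ℂ, Measurable fun ζ : ℂ => 1 / (ζ - w) := fun w => by fun_prop
  constructor
  · intro z hz
    obtain ⟨δ, hδ, hsep⟩ := sep hφc hφi (isCompact_singleton (x := z)) (singleton_subset_iff.2 hz)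
    have hsep' := hsep z rfl
    have hφz : DifferentiableAt ℂ φ z := (hφd z hz).differentiableAt (isOpen_ball.mem_nhds hz)
    have hlow : ∀ ζ ∈ φ '' sphere 0 1, ∀ w ∈ ball (φ z) (δ / 2), δ / 2 < ‖ζ - w‖ := by
      intro ζ hζ w hw
      have h1 := hsep' ζ hζ
      rw [mem_ball, dist_eq_norm] at hw
      have h2 : ‖ζ - φ z‖ ≤ ‖ζ - w‖ + ‖w - φ z‖ := by
        calc ‖ζ - φ z‖ = ‖(ζ - w) + (w - φ z)‖ := by congr 1; ring
          _ ≤ _ := norm_add_le _ _
      linarith
    have hz0 : φ z ∈ ball (φ z) (δ / 2) := mem_ball_self (by positivity)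
    have key := hasDerivAt_integral_of_dominated_loc_of_deriv_le (μ := ν) (x₀ := φ z)
      (s := ball (φ z) (δ / 2)) (F := fun w ζ => 1 / (ζ - w)) (F' := fun w ζ => 1 / (ζ - w) ^ 2)
      (bound := fun _ => 1 / (δ / 2) ^ 2) (ball_mem_nhds _ (by positivity))
      (Filter.Eventually.of_forall fun w => (hmeas1 w).aestronglyMeasurable)
      (Integrable.of_bound (hmeas1 _).aestronglyMeasurable (1 / (δ / 2)) (by
        filter_upwards [hae] with ζ hζ
        have h1 := hlow ζ hζ _ hz0
        rw [norm_div, norm_one]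
        gcongr))
      (by
        have : Measurable fun ζ : ℂ => 1 / (ζ - φ z) ^ 2 := by fun_prop
        exact this.aestronglyMeasurable)
      (by
        filter_upwards [hae] with ζ hζ
        intro w hw
        have h1 := hlow ζ hζ _ hw
        rw [norm_div, norm_one, norm_pow]
        gcongr)
      (integrable_const _)
      (by
        filter_upwards [hae] with ζ hζ
        intro w hw
        have h1 := hlow ζ hζ _ hw
        have hne : ζ - w ≠ 0 := by
          intro h0
          rw [h0, norm_zero] at h1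
          linarith
        have h2 : HasDerivAt (fun w : ℂ => ζ - w) (-1) w := by
          simpa using (hasDerivAt_id w).const_sub ζ
        have h3 : HasDerivAt (fun w : ℂ => (ζ - w)⁻¹) (-(-1) / (ζ - w) ^ 2) w := h2.inv hne
        rw [neg_neg] at h3
        simp only [one_div] at h3 ⊢
        exact h3)
    exact (key.2.differentiableAt.comp z hφz).differentiableWithinAt
  · obtain ⟨C, hC⟩ := hyp (ν.real univ)
    refine ⟨C, fun r hr => ?_⟩
    have hsub : sphere (0 : ℂ) r ⊆ ball 0 1 := by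
      intro z hz
      rw [mem_sphere] at hz
      rw [mem_ball, hz]
      exact hr.2
    obtain ⟨δ, hδ, hsep⟩ := sep hφc hφi (isCompact_sphere (0 : ℂ) r) hsub
    have hcirc : ∀ θ : ℝ, circleMap 0 r θ ∈ sphere (0 : ℂ) r := fun θ =>
      circleMap_mem_sphere 0 hr.1.le θ
    have h1mem : φ 1 ∈ φ '' sphere (0 : ℂ) 1 := mem_image_of_mem _ (by simp)
    set f : ℕ → SimpleFunc ℂ ℂ := SimpleFunc.approxOn id measurable_id (φ '' sphere 0 1) (φ 1) h1mem
      with hf
    have hfmem : ∀ n ζ, f n ζ ∈ φ '' sphere 0 1 := fun n ζ => SimpleFunc.approxOn_mem _ _ n ζ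
    have hflim : ∀ ζ ∈ φ '' sphere 0 1, Tendsto (fun n => f n ζ) atTop (𝓝 ζ) := fun ζ hζ =>
      SimpleFunc.tendsto_approxOn measurable_id h1mem (subset_closure hζ)
    have hcont : Continuous fun θ : ℝ => φ (circleMap 0 r θ) := by
      refine continuous_iff_continuousAt.2 fun θ => ?_
      have h2 : circleMap 0 r θ ∈ ball (0 : ℂ) 1 := hsub (hcirc θ)
      have h3 : ContinuousAt φ (circleMap 0 r θ) :=
        (hφc.mono ball_subset_closedBall).continuousAt (isOpen_ball.mem_nhds h2)
      exact h3.comp (f := fun θ => circleMap 0 r θ) (continuous_circleMap 0 r).continuousAt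
    -- finite sums
    have hsum : ∀ n θ, ∫ ζ, 1 / (f n ζ - φ (circleMap 0 r θ)) ∂ν
        = ∑ y : {y // y ∈ (f n).range}, ((ν.real ((f n) ⁻¹' {y.1}) : ℝ) : ℂ)
          / (y.1 - φ (circleMap 0 r θ)) := by
      intro n θ
      rw [int_simple (f n) ν (fun y => 1 / (y - φ (circleMap 0 r θ)))]
      refine Finset.sum_congr rfl fun y _ => ?_
      rw [mul_one_div]
    have hrange : ∀ n, ∀ y : {y // y ∈ (f n).range}, y.1 ∈ φ '' sphere 0 1 := by
      rintro n ⟨y, hy⟩
      obtain ⟨ζ, rfl⟩ := SimpleFunc.mem_range.1 hy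
      exact hfmem n ζ
    have hle : ∀ n, ∫ θ in (0 : ℝ)..(2 * Real.pi),
        Real.posLog ‖∫ ζ, 1 / (f n ζ - φ (circleMap 0 r θ)) ∂ν‖ ≤ C := by
      intro n
      simp_rw [hsum n]
      refine hC {y // y ∈ (f n).range} (fun y => y.1) (fun y => ν.real ((f n) ⁻¹' {y.1}))
        (hrange n) (fun y => measureReal_nonneg) ?_ r hr
      rw [Finset.sum_coe_sort (f n).range (fun y => ν.real ((f n) ⁻¹' {y}))]
      have h4 := SimpleFunc.sum_range_measure_preimage_singleton (f n) ν
      simp only [measureReal_def]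
      rw [← ENNReal.toReal_sum (fun y _ => measure_ne_top _ _), h4]
    have hbd : ∀ n θ, ‖∫ ζ, 1 / (f n ζ - φ (circleMap 0 r θ)) ∂ν‖ ≤ 1 / δ * ν.real univ := by
      intro n θ
      refine norm_integral_le_of_norm_le_const (Filter.Eventually.of_forall fun ζ => ?_)
      have h5 := hsep _ (hcirc θ) _ (hfmem n ζ)
      rw [norm_div, norm_one]
      gcongr
    have hlim : Tendsto (fun n => ∫ θ in (0 : ℝ)..(2 * Real.pi),
        Real.posLog ‖∫ ζ, 1 / (f n ζ - φ (circleMap 0 r θ)) ∂ν‖) atTop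
        (𝓝 (∫ θ in (0 : ℝ)..(2 * Real.pi),
        Real.posLog ‖∫ ζ, 1 / (ζ - φ (circleMap 0 r θ)) ∂ν‖)) := by
      refine intervalIntegral.tendsto_integral_filter_of_dominated_convergence
        (fun _ => Real.posLog (1 / δ * ν.real univ)) ?_ ?_ ?_ ?_
      · refine Filter.Eventually.of_forall fun n => ?_
        simp_rw [hsum n]
        apply Continuous.aestronglyMeasurable
        refine Real.continuous_posLog.comp (Continuous.norm ?_)
        refine continuous_finsetSum _ fun y _ => ?_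
        refine continuous_const.div (continuous_const.sub hcont) fun θ => ?_
        intro h0
        have h5 := hsep _ (hcirc θ) _ (hrange n y)
        rw [h0, norm_zero] at h5
        linarith
      · refine Filter.Eventually.of_forall fun n => Filter.Eventually.of_forall fun θ _ => ?_
        rw [Real.norm_of_nonneg Real.posLog_nonneg]
        exact Real.posLog_le_posLog (norm_nonneg _) (hbd n θ)
      · exact intervalIntegrable_const
      · refine Filter.Eventually.of_forall fun θ _ => ?_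
        refine (Real.continuous_posLog.tendsto _).comp (Tendsto.norm ?_)
        refine tendsto_integral_of_dominated_convergence (fun _ => 1 / δ) ?_ (integrable_const _) ?_ ?_
        · intro n
          exact ((hmeas1 _).comp (f n).measurable).aestronglyMeasurable
        · intro n
          refine Filter.Eventually.of_forall fun ζ => ?_
          have h5 := hsep _ (hcirc θ) _ (hfmem n ζ)
          rw [norm_div, norm_one]
          gcongr
        · filter_upwards [hae] with ζ hζ
          have h5 := hsep _ (hcirc θ) ζ hζ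
          have hne : ζ - φ (circleMap 0 r θ) ≠ 0 := by
            intro h0
            rw [h0, norm_zero] at h5
            linarith
          exact tendsto_const_nhds.div ((hflim ζ hζ).sub tendsto_const_nhds) hne
    exact le_of_tendsto' hlim hle

end P511
end Pool.Agent.Helper311.Nev
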