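import Mathlib
import Pool.Agent.Helper311.Nev.Ker

open MeasureTheory Set Filter Topology Metric
open scoped ENNReal NNReal

namespace Pool.Agent.Helper311.Nev
namespace P512


section Univ

variable {f : ℂ → ℂ} {U : Set ℂ}

/-- An injective holomorphic map is open, local form. -/
theorem nhds_le_map (hU : IsOpen U) (hf : DifferentiableOn ℂ f U) (hi : InjOn f U)
    {z : ℂ} (hz : z ∈ U) : 𝓝 (f z) ≤ map f (𝓝 z) := by
  have ha : AnalyticAt ℂ f z := hf.analyticAt (hU.mem_nhds hz)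
  rcases ha.eventually_constant_or_nhds_le_map_nhds with h | h
  · exfalso
    have h1 : ∀ᶠ w in 𝓝[≠] z, f w = f z ∧ w ∈ U :=
      (h.and (hU.mem_nhds hz)).filter_mono nhdsWithin_le_nhds
    have h2 : ∀ᶠ w in 𝓝[≠] z, w ≠ z := eventually_mem_nhdsWithin
    obtain ⟨w, hw, hw2⟩ := (h1.and h2).exists
    exact hw2 (hi hw.2 hz hw.1)
  · exact h

theorem map_nhds (hU : IsOpen U) (hf : DifferentiableOn ℂ f U) (hi : InjOn f U)
    {z : ℂ} (hz : z ∈ U) : map f (𝓝 z) = 𝓝 (f z) := by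
  apply le_antisymm
  · exact (hf.analyticAt (hU.mem_nhds hz)).continuousAt
  · exact nhds_le_map hU hf hi hz

theorem isOpen_image (hU : IsOpen U) (hf : DifferentiableOn ℂ f U) (hi : InjOn f U)
    {s : Set ℂ} (hs : IsOpen s) (hsU : s ⊆ U) : IsOpen (f '' s) := by
  rw [isOpen_iff_mem_nhds]
  rintro _ ⟨z, hz, rfl⟩
  rw [← map_nhds hU hf hi (hsU hz)]
  exact image_mem_map (hs.mem_nhds hz)

theorem invFunOn_left (hi : InjOn f U) {z : ℂ} (hz : z ∈ U) :
    Function.invFunOn f U (f z) = z :=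
  hi.leftInvOn_invFunOn hz

theorem invFunOn_mem {w : ℂ} (hw : w ∈ f '' U) :
    Function.invFunOn f U w ∈ U :=
  Function.invFunOn_mem (by simpa using hw)

theorem invFunOn_right {w : ℂ} (hw : w ∈ f '' U) :
    f (Function.invFunOn f U w) = w :=
  Function.invFunOn_eq (by simpa using hw)

theorem continuousAt_inv (hU : IsOpen U) (hf : DifferentiableOn ℂ f U) (hi : InjOn f U)
    {w : ℂ} (hw : w ∈ f '' U) : ContinuousAt (Function.invFunOn f U) w := by
  obtain ⟨z, hz, rfl⟩ := hw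
  rw [ContinuousAt, invFunOn_left hi hz]
  intro V hV
  rw [mem_map]
  have h1 : V ∩ U ∈ 𝓝 z := inter_mem hV (hU.mem_nhds hz)
  have h2 : f '' (V ∩ U) ∈ 𝓝 (f z) := by
    rw [← map_nhds hU hf hi hz]
    exact image_mem_map h1
  refine mem_of_superset h2 ?_
  rintro _ ⟨y, hy, rfl⟩
  simp only [mem_preimage]
  rw [invFunOn_left hi hy.2]
  exact hy.1

/-- the inverse is differentiable where the derivative does not vanish -/
theorem hasDerivAt_inv_of_ne (hU : IsOpen U) (hf : DifferentiableOn ℂ f U) (hi : InjOn f U)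
    {z : ℂ} (hz : z ∈ U) (hd : deriv f z ≠ 0) :
    HasDerivAt (Function.invFunOn f U) (deriv f z)⁻¹ (f z) := by
  have hzz : Function.invFunOn f U (f z) = z := invFunOn_left hi hz
  apply HasDerivAt.of_local_left_inverse (f := f)
  · exact continuousAt_inv hU hf hi (mem_image_of_mem f hz)
  · rw [hzz]
    exact (hf.differentiableAt (hU.mem_nhds hz)).hasDerivAt
  · exact hd
  · have : f '' U ∈ 𝓝 (f z) := (isOpen_image hU hf hi hU subset_rfl).mem_nhds (mem_image_of_mem f hz)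
    filter_upwards [this] with w hw using invFunOn_right hw

/-- zeros of the derivative are isolated -/
theorem eventually_deriv_ne_zero (hU : IsOpen U) (hf : DifferentiableOn ℂ f U) (hi : InjOn f U)
    {z : ℂ} (hz : z ∈ U) : ∀ᶠ y in 𝓝[≠] z, deriv f y ≠ 0 := by
  have ha : AnalyticAt ℂ f z := hf.analyticAt (hU.mem_nhds hz)
  rcases ha.deriv.eventually_eq_zero_or_eventually_ne_zero with h | h
  · exfalso
    obtain ⟨r, hr, hrs⟩ := Metric.eventually_nhds_iff_ball.mp (h.and (hU.mem_nhds hz))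
    have hconst : ∀ y ∈ ball z r, f y = f z := by
      intro y hy
      have hdiff : DifferentiableOn ℂ f (ball z r) := hf.mono (fun x hx => (hrs x hx).2)
      refine (convex_ball z r).is_const_of_fderivWithin_eq_zero (𝕜 := ℂ) hdiff ?_ hy (mem_ball_self hr)
      intro x hx
      rw [fderivWithin_of_isOpen isOpen_ball hx]
      ext
      simp [(hrs x hx).1]
    have h1 : z + (r/2 : ℝ) ∈ ball z r := by
      simp [abs_of_pos hr]
      linarith
    have h2 := hi (hrs _ h1).2 hz (hconst _ h1)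
    have : ((r/2 : ℝ) : ℂ) = 0 := by
      simpa using h2
    have : r / 2 = 0 := by exact_mod_cast this
    linarith
  · exact h

theorem differentiableAt_inv (hU : IsOpen U) (hf : DifferentiableOn ℂ f U) (hi : InjOn f U)
    {w : ℂ} (hw : w ∈ f '' U) : DifferentiableAt ℂ (Function.invFunOn f U) w := by
  obtain ⟨z, hz, rfl⟩ := hw
  refine (Complex.analyticAt_of_differentiable_on_punctured_nhds_of_continuousAt ?_
    (continuousAt_inv hU hf hi (mem_image_of_mem f hz))).differentiableAt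
  have h1 : ∀ᶠ y in 𝓝 z, y ∈ U ∧ (y ≠ z → deriv f y ≠ 0) := by
    have := eventually_deriv_ne_zero hU hf hi hz
    rw [eventually_nhdsWithin_iff] at this
    exact (hU.mem_nhds hz |> fun h => (show ∀ᶠ y in 𝓝 z, y ∈ U from h)).and this
  have h2 : ∀ᶠ w in 𝓝 (f z), w ≠ f z → DifferentiableAt ℂ (Function.invFunOn f U) w := by
    rw [← map_nhds hU hf hi hz, eventually_map]
    filter_upwards [h1] with y hy hne
    have hyz : y ≠ z := fun h => hne (by rw [h])
    exact (hasDerivAt_inv_of_ne hU hf hi hy.1 (hy.2 hyz)).differentiableAt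
  rw [eventually_nhdsWithin_iff]
  exact h2


end Univ

/-- the pairing of a bounded kernel with a real density -/
theorem withDensity_int (ν : Measure ℂ) [IsFiniteMeasure ν] (r : ℂ → ℝ) (hr : Integrable r ν)
    (hr0 : ∀ x, 0 ≤ r x) (k : ℂ → ℂ) :
    ∫ ζ, k ζ ∂(ν.withDensity fun x => ENNReal.ofReal (r x)) = ∫ ζ, (r ζ : ℂ) * k ζ ∂ν := by
  rw [integral_withDensity_eq_integral_toReal_smul₀ hr.aemeasurable.ennreal_ofReal
    (Eventually.of_forall fun x => ENNReal.ofReal_lt_top)]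
  apply integral_congr_ae
  filter_upwards with x
  rw [ENNReal.toReal_ofReal (hr0 x), Complex.real_smul]

/-- I4 -/
theorem sufficiency_final (φ : ℂ → ℂ) (hφc : ContinuousOn φ (closedBall 0 1))
    (hφi : InjOn φ (closedBall 0 1)) (hφd : DifferentiableOn ℂ φ (ball 0 1))
    (hyp : ∀ (ν : Measure ℂ) [IsFiniteMeasure ν], ν (φ '' sphere 0 1)ᶜ = 0 →
      ∃ g h : ℂ → ℂ, DifferentiableOn ℂ g (ball 0 1) ∧ DifferentiableOn ℂ h (ball 0 1) ∧
      (∀ z ∈ ball (0 : ℂ) 1, ‖g z‖ ≤ 1) ∧ (∀ z ∈ ball (0 : ℂ) 1, ‖h z‖ ≤ 1) ∧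
      h 0 ≠ 0 ∧ ∀ z ∈ ball (0 : ℂ) 1, (∫ ζ, 1 / (ζ - φ z) ∂ν) * h z = g z) :
    PropertyN (φ '' sphere 0 1) (φ '' ball 0 1) := by
  classical
  intro ν hνf hν f hf
  have hUo : IsOpen (ball (0 : ℂ) 1) := isOpen_ball
  have hi : InjOn φ (ball 0 1) := hφi.mono ball_subset_closedBall
  set Γ : Set ℂ := φ '' sphere 0 1 with hΓ
  have hΓc : IsCompact Γ := (isCompact_sphere (0 : ℂ) 1).image_of_continuousOn
    (hφc.mono sphere_subset_closedBall)
  -- the four densities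
  let r0 : ℂ → ℝ := fun x => max (f x).re 0
  let r1 : ℂ → ℝ := fun x => max (-(f x).re) 0
  let r2 : ℂ → ℝ := fun x => max (f x).im 0
  let r3 : ℂ → ℝ := fun x => max (-(f x).im) 0
  have h0 : Integrable r0 ν := hf.re.pos_part
  have h1 : Integrable r1 ν := hf.re.neg_part
  have h2 : Integrable r2 ν := hf.im.pos_part
  have h3 : Integrable r3 ν := hf.im.neg_part
  have hdec : ∀ x, f x = (r0 x : ℂ) - r1 x + Complex.I * (r2 x - r3 x) := by
    intro x
    have e1 : r0 x - r1 x = (f x).re := by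
      simp only [r0, r1]
      rcases le_total 0 (f x).re with h | h
      · rw [max_eq_left h, max_eq_right (by linarith)]; ring
      · rw [max_eq_right h, max_eq_left (by linarith)]; ring
    have e2 : r2 x - r3 x = (f x).im := by
      simp only [r2, r3]
      rcases le_total 0 (f x).im with h | h
      · rw [max_eq_left h, max_eq_right (by linarith)]; ring
      · rw [max_eq_right h, max_eq_left (by linarith)]; ring
    rw [← Complex.ofReal_sub, ← Complex.ofReal_sub, e1, e2, mul_comm]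
    exact (Complex.re_add_im (f x)).symm
  have hmeas : ∀ r : ℂ → ℝ, Integrable r ν → (∀ x, 0 ≤ r x) →
      ∃ g h : ℂ → ℂ, DifferentiableOn ℂ g (ball 0 1) ∧ DifferentiableOn ℂ h (ball 0 1) ∧
      (∀ z ∈ ball (0 : ℂ) 1, ‖g z‖ ≤ 1) ∧ (∀ z ∈ ball (0 : ℂ) 1, ‖h z‖ ≤ 1) ∧
      h 0 ≠ 0 ∧ ∀ z ∈ ball (0 : ℂ) 1, (∫ ζ, (r ζ : ℂ) * (1 / (ζ - φ z)) ∂ν) * h z = g z := by
    intro r hr hr0
    have hfin : IsFiniteMeasure (ν.withDensity fun x => ENNReal.ofReal (r x)) :=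
      isFiniteMeasure_withDensity_ofReal hr.2
    have hnull : (ν.withDensity fun x => ENNReal.ofReal (r x)) Γᶜ = 0 :=
      withDensity_absolutelyContinuous ν _ hν
    obtain ⟨g, h, a1, a2, a3, a4, a5, a6⟩ := hyp (ν.withDensity fun x => ENNReal.ofReal (r x)) hnull
    refine ⟨g, h, a1, a2, a3, a4, a5, fun z hz => ?_⟩
    rw [← a6 z hz, withDensity_int ν r hr hr0]
  obtain ⟨g0, k0, a01, a02, a03, a04, a05, a06⟩ := hmeas r0 h0 (fun x => le_max_right _ _)
  obtain ⟨g1, k1, a11, a12, a13, a14, a15, a16⟩ := hmeas r1 h1 (fun x => le_max_right _ _)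
  obtain ⟨g2, k2, a21, a22, a23, a24, a25, a26⟩ := hmeas r2 h2 (fun x => le_max_right _ _)
  obtain ⟨g3, k3, a31, a32, a33, a34, a35, a36⟩ := hmeas r3 h3 (fun x => le_max_right _ _)
  -- integrability against the kernel
  have hker : ∀ z ∈ ball (0 : ℂ) 1, ∀ r : ℂ → ℝ, Integrable r ν →
      Integrable (fun ζ => (r ζ : ℂ) * (1 / (ζ - φ z))) ν := by
    intro z hz r hr
    have hzΓ : φ z ∉ Γ := by
      rintro ⟨w, hw, hwz⟩
      have := hφi (sphere_subset_closedBall hw) (ball_subset_closedBall hz) hwz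
      rw [this] at hw
      rw [mem_sphere_zero_iff_norm] at hw
      rw [mem_ball_zero_iff] at hz
      linarith
    have hd : ∃ δ : ℝ, 0 < δ ∧ ∀ ζ ∈ Γ, δ ≤ ‖ζ - φ z‖ := by
      rcases Γ.eq_empty_or_nonempty with he | hne
      · exact ⟨1, one_pos, fun ζ hζ => by rw [he] at hζ; exact absurd hζ (notMem_empty _)⟩
      · have h1 : 0 < infDist (φ z) Γ := (hΓc.isClosed.notMem_iff_infDist_pos hne).1 hzΓ
        refine ⟨infDist (φ z) Γ, h1, fun ζ hζ => ?_⟩
        rw [← dist_eq_norm, dist_comm]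
        exact infDist_le_dist_of_mem hζ
    obtain ⟨δ, hδ, hδ'⟩ := hd
    have hr' : Integrable (fun ζ => (r ζ : ℂ)) ν := hr.ofReal
    refine hr'.mul_bdd (c := 1 / δ) ?_ ?_
    · exact (measurable_const.div (measurable_id.sub_const _)).aestronglyMeasurable
    · have : ∀ᵐ ζ ∂ν, ζ ∈ Γ := by rw [ae_iff]; exact hν
      filter_upwards [this] with ζ hζ
      rw [norm_div, norm_one]
      exact one_div_le_one_div_of_le hδ (hδ' ζ hζ)
  have hint : ∀ z ∈ ball (0 : ℂ) 1, ∫ ζ, f ζ / (ζ - φ z) ∂ν =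
      (∫ ζ, (r0 ζ : ℂ) * (1 / (ζ - φ z)) ∂ν) - (∫ ζ, (r1 ζ : ℂ) * (1 / (ζ - φ z)) ∂ν) +
      Complex.I * ((∫ ζ, (r2 ζ : ℂ) * (1 / (ζ - φ z)) ∂ν) - (∫ ζ, (r3 ζ : ℂ) * (1 / (ζ - φ z)) ∂ν)) := by
    intro z hz
    have hA : Integrable (fun ζ => (r0 ζ : ℂ) * (1 / (ζ - φ z)) - (r1 ζ : ℂ) * (1 / (ζ - φ z))) ν :=
      (hker z hz r0 h0).sub (hker z hz r1 h1)
    have hB : Integrable (fun ζ => Complex.I * ((r2 ζ : ℂ) * (1 / (ζ - φ z)) -
        (r3 ζ : ℂ) * (1 / (ζ - φ z)))) ν :=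
      ((hker z hz r2 h2).sub (hker z hz r3 h3)).const_mul _
    rw [← integral_sub (hker z hz r0 h0) (hker z hz r1 h1),
      ← integral_sub (hker z hz r2 h2) (hker z hz r3 h3), ← integral_const_mul,
      ← integral_add hA hB]
    apply integral_congr_ae
    filter_upwards with ζ
    rw [hdec ζ]
    ring
  -- holomorphic functions on the ball
  let C : ℂ := (2 * Real.pi * Complex.I)⁻¹
  let Gf : ℂ → ℂ := fun z => C * (g0 z * k1 z * k2 z * k3 z - k0 z * g1 z * k2 z * k3 z +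
    Complex.I * (k0 z * k1 z * g2 z * k3 z - k0 z * k1 z * k2 z * g3 z))
  let Hf : ℂ → ℂ := fun z => k0 z * k1 z * k2 z * k3 z
  have hGd : DifferentiableOn ℂ Gf (ball 0 1) := by
    apply DifferentiableOn.const_mul
    exact (((a01.mul a12).mul a22).mul a32 |>.sub (((a02.mul a11).mul a22).mul a32)).add
      (((((a02.mul a12).mul a21).mul a32).sub (((a02.mul a12).mul a22).mul a31)).const_mul _)
  have hHd : DifferentiableOn ℂ Hf (ball 0 1) := ((a02.mul a12).mul a22).mul a32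
  have hm4 : ∀ a b c d : ℂ, ‖a‖ ≤ 1 → ‖b‖ ≤ 1 → ‖c‖ ≤ 1 → ‖d‖ ≤ 1 → ‖a * b * c * d‖ ≤ 1 := by
    intro a b c d ha hb hc hd
    rw [norm_mul, norm_mul, norm_mul]
    have e1 : ‖a‖ * ‖b‖ ≤ 1 := mul_le_one₀ ha (norm_nonneg _) hb
    have e2 : ‖a‖ * ‖b‖ * ‖c‖ ≤ 1 := mul_le_one₀ e1 (norm_nonneg _) hc
    exact mul_le_one₀ e2 (norm_nonneg _) hd
  have hGb : ∀ z ∈ ball (0 : ℂ) 1, ‖Gf z‖ ≤ ‖C‖ * 4 := by
    intro z hz
    change ‖C * _‖ ≤ _
    rw [norm_mul]
    apply mul_le_mul_of_nonneg_left _ (norm_nonneg _)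
    have b0 := hm4 _ _ _ _ (a03 z hz) (a14 z hz) (a24 z hz) (a34 z hz)
    have b1 := hm4 _ _ _ _ (a04 z hz) (a13 z hz) (a24 z hz) (a34 z hz)
    have b2 := hm4 _ _ _ _ (a04 z hz) (a14 z hz) (a23 z hz) (a34 z hz)
    have b3 := hm4 _ _ _ _ (a04 z hz) (a14 z hz) (a24 z hz) (a33 z hz)
    calc _ ≤ ‖g0 z * k1 z * k2 z * k3 z - k0 z * g1 z * k2 z * k3 z‖ +
          ‖Complex.I * (k0 z * k1 z * g2 z * k3 z - k0 z * k1 z * k2 z * g3 z)‖ := norm_add_le _ _
      _ ≤ (‖g0 z * k1 z * k2 z * k3 z‖ + ‖k0 z * g1 z * k2 z * k3 z‖) +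
          (‖k0 z * k1 z * g2 z * k3 z‖ + ‖k0 z * k1 z * k2 z * g3 z‖) := by
        rw [norm_mul, Complex.norm_I, one_mul]
        exact add_le_add (norm_sub_le _ _) (norm_sub_le _ _)
      _ ≤ 4 := by linarith
  have hHb : ∀ z ∈ ball (0 : ℂ) 1, ‖Hf z‖ ≤ 1 := fun z hz =>
    hm4 _ _ _ _ (a04 z hz) (a14 z hz) (a24 z hz) (a34 z hz)
  have hGH : ∀ z ∈ ball (0 : ℂ) 1, (C * ∫ ζ, f ζ / (ζ - φ z) ∂ν) * Hf z = Gf z := by
    intro z hz
    rw [hint z hz]
    change _ = C * _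
    rw [← a06 z hz, ← a16 z hz, ← a26 z hz, ← a36 z hz]
    change C * _ * (k0 z * k1 z * k2 z * k3 z) = _
    ring
  let ψ : ℂ → ℂ := Function.invFunOn φ (ball 0 1)
  have hψd : ∀ z ∈ φ '' ball 0 1, DifferentiableAt ℂ ψ z := fun z hz =>
    differentiableAt_inv hUo hφd hi hz
  have hψm : ∀ z ∈ φ '' ball 0 1, ψ z ∈ ball (0 : ℂ) 1 := fun z hz => invFunOn_mem hz
  have hψr : ∀ z ∈ φ '' ball 0 1, φ (ψ z) = z := fun z hz => invFunOn_right hz
  refine ⟨Gf ∘ ψ, Hf ∘ ψ, ?_, ?_, ⟨‖C‖ * 4, fun z hz => hGb _ (hψm z hz)⟩,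
    ⟨1, fun z hz => hHb _ (hψm z hz)⟩, ⟨φ 0, ⟨0, by simp, rfl⟩, ?_⟩, ?_⟩
  · intro z hz
    exact ((hGd.differentiableAt (hUo.mem_nhds (hψm z hz))).comp z (hψd z hz)).differentiableWithinAt
  · intro z hz
    exact ((hHd.differentiableAt (hUo.mem_nhds (hψm z hz))).comp z (hψd z hz)).differentiableWithinAt
  · have : ψ (φ 0) = 0 := invFunOn_left hi (by simp)
    change Hf (ψ (φ 0)) ≠ 0
    rw [this]
    exact mul_ne_zero (mul_ne_zero (mul_ne_zero a05 a15) a25) a35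
  · intro z hz
    have := hGH (ψ z) (hψm z hz)
    rw [hψr z hz] at this
    exact this

end P512
end Pool.Agent.Helper311.Nev
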