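import Mathlib
import Pool.Agent.Helper311.Nev.Ker

open MeasureTheory Set Filter Topology Metric
open scoped ENNReal NNReal

namespace Pool.Agent.Helper311.Nev
namespace P513


section I5

lemma i5_dist_pos {Γ : Set ℂ} (hΓ : IsCompact Γ) (hne : Γ.Nonempty) {z : ℂ} (hz : z ∉ Γ) :
    0 < infDist z Γ :=
  (hΓ.isClosed.notMem_iff_infDist_pos hne).mp hz

lemma i5_le_norm {Γ : Set ℂ} {z ζ : ℂ} (hζ : ζ ∈ Γ) : infDist z Γ ≤ ‖ζ - z‖ := by
  rw [← dist_eq_norm, dist_comm]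
  exact infDist_le_dist_of_mem hζ

lemma i5_measure (Γ : Set ℂ) (hΓ : IsCompact Γ) (a : ℕ → ℂ) (ha : ∀ n, a n ∈ Γ) (c : ℕ → ℝ)
    (hc0 : ∀ n, 0 ≤ c n) (hcs : Summable c) :
    ∃ ν : Measure ℂ, IsFiniteMeasure ν ∧ ν Γᶜ = 0 ∧ ∀ z ∉ Γ,
      CauchyInt ν (fun _ => 1) z = (2 * Real.pi * Complex.I)⁻¹ * ∑' n, (c n : ℂ) / (a n - z) := by
  let μ : ℕ → Measure ℂ := fun n => ENNReal.ofReal (c n) • Measure.dirac (a n)
  have hfin : IsFiniteMeasure (Measure.sum μ) := by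
    refine ⟨?_⟩
    rw [Measure.sum_apply _ MeasurableSet.univ]
    simp only [μ, Measure.smul_apply, measure_univ, smul_eq_mul, mul_one]
    rw [← ENNReal.ofReal_tsum_of_nonneg hc0 hcs]
    exact ENNReal.ofReal_lt_top
  have hnull : (Measure.sum μ) Γᶜ = 0 := by
    rw [Measure.sum_apply _ hΓ.isClosed.measurableSet.compl]
    simp only [μ, Measure.smul_apply, smul_eq_mul]
    rw [ENNReal.tsum_eq_zero]
    intro n
    rw [Measure.dirac_apply' _ hΓ.isClosed.measurableSet.compl]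
    simp [ha n]
  refine ⟨Measure.sum μ, hfin, hnull, ?_⟩
  intro z hz
  unfold CauchyInt
  congr 1
  have hne : Γ.Nonempty := ⟨_, ha 0⟩
  have hδ := i5_dist_pos hΓ hne hz
  have hint : Integrable (fun ζ : ℂ => 1 / (ζ - z)) (Measure.sum μ) := by
    refine Integrable.of_bound (C := 1 / infDist z Γ) ?_ ?_
    · exact (measurable_const.div (measurable_id.sub measurable_const)).aestronglyMeasurable
    · have h1 : ∀ᵐ ζ ∂(Measure.sum μ), ζ ∈ Γ := by
        rw [ae_iff]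
        exact hnull
      filter_upwards [h1] with ζ hζ
      rw [norm_div, norm_one]
      gcongr
      exact i5_le_norm hζ
  have h2 := hasSum_integral_measure hint
  rw [← h2.tsum_eq]
  refine tsum_congr fun n => ?_
  simp only [μ]
  rw [integral_smul_measure, integral_dirac, ENNReal.toReal_ofReal (hc0 n)]
  rw [Complex.real_smul]
  ring

lemma i5_summable {Γ : Set ℂ} {z : ℂ} (hδ : 0 < infDist z Γ) (a : ℕ → ℂ) (ha : ∀ n, a n ∈ Γ)
    (c : ℕ → ℝ) (hc0 : ∀ n, 0 ≤ c n) (hcs : Summable c) :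
    Summable (fun n => (c n : ℂ) / (a n - z)) := by
  refine Summable.of_norm_bounded (hcs.mul_right (infDist z Γ)⁻¹) fun n => ?_
  rw [norm_div, Complex.norm_real, Real.norm_of_nonneg (hc0 n), div_eq_mul_inv]
  have := hc0 n
  gcongr
  exact i5_le_norm (ha n)

end I5

/-- I5 -/
theorem necessity_final (φ : ℂ → ℂ) (hφc : ContinuousOn φ (closedBall 0 1))
    (hφi : InjOn φ (closedBall 0 1)) (hφd : DifferentiableOn ℂ φ (ball 0 1))
    (hN : PropertyN (φ '' sphere 0 1) (φ '' ball 0 1))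
    (hbound : ∀ (F g h : ℂ → ℂ), DifferentiableOn ℂ g (ball 0 1) →
      DifferentiableOn ℂ h (ball 0 1) → ContinuousOn F (ball 0 1) →
      (∃ B, ∀ z ∈ ball (0 : ℂ) 1, ‖g z‖ ≤ B) → (∃ B, ∀ z ∈ ball (0 : ℂ) 1, ‖h z‖ ≤ B) →
      (∃ z ∈ ball (0 : ℂ) 1, h z ≠ 0) → (∀ z ∈ ball (0 : ℂ) 1, F z * h z = g z) →
      ∃ C : ℝ, ∀ r ∈ Ico (1 / 2 : ℝ) 1, ∫ θ in (0 : ℝ)..(2 * Real.pi),
        Real.posLog ‖F (circleMap 0 r θ)‖ ≤ C)
    (a : ℕ → ℂ) (ha : ∀ n, a n ∈ φ '' sphere 0 1) (c : ℕ → ℝ) (hc0 : ∀ n, 0 ≤ c n)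
    (hcs : Summable c) (ε : ℕ → Bool) :
    ∃ C : ℝ, ∀ r ∈ Ico (1 / 2 : ℝ) 1, ∫ θ in (0 : ℝ)..(2 * Real.pi),
      Real.posLog ‖∑' n, (if ε n then (1 : ℂ) else -1) * (c n : ℂ) /
        (a n - φ (circleMap 0 r θ))‖ ≤ C := by
  classical
  set Γ := φ '' sphere 0 1 with hΓdef
  set Ω := φ '' ball 0 1 with hΩdef
  have hΓ : IsCompact Γ := (isCompact_sphere 0 1).image_of_continuousOn
    (hφc.mono sphere_subset_closedBall)
  have hne : Γ.Nonempty := ⟨_, ha 0⟩
  have hnot : ∀ w ∈ ball (0 : ℂ) 1, φ w ∉ Γ := by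
    rintro w hw ⟨v, hv, hvw⟩
    have := hφi (sphere_subset_closedBall hv) (ball_subset_closedBall hw) hvw
    rw [this] at hv
    rw [mem_ball_zero_iff] at hw
    rw [mem_sphere_zero_iff_norm] at hv
    linarith
  let c1 : ℕ → ℝ := fun n => if ε n then c n else 0
  let c2 : ℕ → ℝ := fun n => if ε n then 0 else c n
  have h10 : ∀ n, 0 ≤ c1 n := by
    intro n; simp only [c1]; split_ifs
    · exact hc0 n
    · exact le_rfl
  have h20 : ∀ n, 0 ≤ c2 n := by
    intro n; simp only [c2]; split_ifs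
    · exact le_rfl
    · exact hc0 n
  have h1s : Summable c1 := Summable.of_nonneg_of_le h10 (fun n => by
    simp only [c1]; split_ifs
    · exact le_rfl
    · exact hc0 n) hcs
  have h2s : Summable c2 := Summable.of_nonneg_of_le h20 (fun n => by
    simp only [c2]; split_ifs
    · exact hc0 n
    · exact le_rfl) hcs
  obtain ⟨ν1, hf1, hn1, hC1⟩ := i5_measure Γ hΓ a ha c1 h10 h1s
  obtain ⟨ν2, hf2, hn2, hC2⟩ := i5_measure Γ hΓ a ha c2 h20 h2s
  obtain ⟨g1, k1, hg1, hk1, ⟨B1, hB1⟩, ⟨D1, hD1⟩, ⟨z1, hz1, hz1'⟩, he1⟩ :=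
    hN ν1 hf1 hn1 (fun _ => 1) (integrable_const _)
  obtain ⟨g2, k2, hg2, hk2, ⟨B2, hB2⟩, ⟨D2, hD2⟩, ⟨z2, hz2, hz2'⟩, he2⟩ :=
    hN ν2 hf2 hn2 (fun _ => 1) (integrable_const _)
  have hmaps : MapsTo φ (ball 0 1) Ω := mapsTo_image φ (ball 0 1)
  have hg1' := hg1.comp hφd hmaps
  have hg2' := hg2.comp hφd hmaps
  have hk1' := hk1.comp hφd hmaps
  have hk2' := hk2.comp hφd hmaps
  let F : ℂ → ℂ := fun w => ∑' n, (if ε n then (1 : ℂ) else -1) * (c n : ℂ) / (a n - φ w)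
  have hF : ∀ w ∈ ball (0 : ℂ) 1, F w = (2 * Real.pi * Complex.I) *
      (CauchyInt ν1 (fun _ => 1) (φ w) - CauchyInt ν2 (fun _ => 1) (φ w)) := by
    intro w hw
    have hδ := i5_dist_pos hΓ hne (hnot w hw)
    rw [hC1 _ (hnot w hw), hC2 _ (hnot w hw)]
    rw [← mul_sub, ← mul_assoc, mul_inv_cancel₀ Complex.two_pi_I_ne_zero, one_mul]
    rw [← (i5_summable hδ a ha c1 h10 h1s).tsum_sub (i5_summable hδ a ha c2 h20 h2s)]
    refine tsum_congr fun n => ?_
    simp only [c1, c2]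
    split_ifs <;> simp [sub_eq_add_neg, neg_div]
  have hFc : ContinuousOn F (ball 0 1) := by
    intro w0 hw0
    have hδ := i5_dist_pos hΓ hne (hnot w0 hw0)
    set δ := infDist (φ w0) Γ with hδdef
    let U : Set ℂ := {w ∈ ball (0 : ℂ) 1 | δ / 2 < infDist (φ w) Γ}
    have hU : U ∈ 𝓝[ball 0 1] w0 := by
      have h1 : ContinuousOn (fun w => infDist (φ w) Γ) (ball 0 1) :=
        (continuous_infDist_pt Γ).comp_continuousOn (hφc.mono ball_subset_closedBall)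
      have h2 := (h1 w0 hw0).eventually_const_lt (show δ / 2 < infDist (φ w0) Γ by linarith)
      filter_upwards [h2, self_mem_nhdsWithin] with w hw hw'
      exact ⟨hw', hw⟩
    have hcU : ContinuousOn F U := by
      refine continuousOn_tsum (u := fun n => c n / (δ / 2)) ?_ (hcs.div_const _) ?_
      · intro n
        refine ContinuousOn.div continuousOn_const ?_ ?_
        · exact continuousOn_const.sub (hφc.mono (fun w hw => ball_subset_closedBall hw.1))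
        · intro w hw h0
          rw [sub_eq_zero] at h0
          exact hnot w hw.1 (h0 ▸ ha n)
      · intro n w hw
        rw [norm_div, norm_mul, Complex.norm_real, Real.norm_of_nonneg (hc0 n)]
        have h1 : ‖(if ε n then (1 : ℂ) else -1)‖ = 1 := by split_ifs <;> simp
        rw [h1, one_mul]
        have := hc0 n
        gcongr
        exact hw.2.le.trans (i5_le_norm (ha n))
    exact ((hcU w0 ⟨hw0, by show δ / 2 < infDist (φ w0) Γ; linarith⟩)).mono_of_mem_nhdsWithin hU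
  refine hbound F (fun w => (2 * Real.pi * Complex.I) * (g1 (φ w) * k2 (φ w) - g2 (φ w) * k1 (φ w)))
    (fun w => k1 (φ w) * k2 (φ w)) ?_ ?_ hFc ?_ ?_ ?_ ?_
  · exact ((hg1'.mul hk2').sub (hg2'.mul hk1')).const_mul _
  · exact hk1'.mul hk2'
  · refine ⟨‖(2 * Real.pi * Complex.I : ℂ)‖ * (B1 * D2 + B2 * D1), ?_⟩
    intro w hw
    have m := hmaps hw
    rw [norm_mul]
    refine mul_le_mul_of_nonneg_left ?_ (norm_nonneg _)
    refine (norm_sub_le _ _).trans ?_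
    rw [norm_mul, norm_mul]
    exact add_le_add
      (mul_le_mul (hB1 _ m) (hD2 _ m) (norm_nonneg _) ((norm_nonneg _).trans (hB1 _ m)))
      (mul_le_mul (hB2 _ m) (hD1 _ m) (norm_nonneg _) ((norm_nonneg _).trans (hB2 _ m)))
  · refine ⟨D1 * D2, ?_⟩
    intro w hw
    have m := hmaps hw
    rw [norm_mul]
    exact mul_le_mul (hD1 _ m) (hD2 _ m) (norm_nonneg _) ((norm_nonneg _).trans (hD1 _ m))
  · by_contra hcon
    push Not at hcon
    obtain ⟨w1, hw1, rfl⟩ := hz1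
    obtain ⟨w2, hw2, rfl⟩ := hz2
    have han2 : AnalyticOnNhd ℂ (k2 ∘ φ) (ball 0 1) := hk2'.analyticOnNhd isOpen_ball
    have hcont : ContinuousAt (k1 ∘ φ) w1 :=
      (hk1'.differentiableAt (isOpen_ball.mem_nhds hw1)).continuousAt
    have hev : ∀ᶠ w in 𝓝 w1, (k1 ∘ φ) w ≠ 0 := hcont.eventually_ne hz1'
    have hev2 : (k2 ∘ φ) =ᶠ[𝓝 w1] 0 := by
      filter_upwards [hev, isOpen_ball.mem_nhds hw1] with w h1 h2
      have := hcon w h2
      rcases mul_eq_zero.mp this with h | h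
      · exact absurd h h1
      · exact h
    have h3 := han2.eqOn_zero_of_preconnected_of_eventuallyEq_zero
      (convex_ball (0 : ℂ) 1).isPreconnected hw1 hev2
    exact hz2' (h3 hw2)
  · intro w hw
    have m := hmaps hw
    have e1 := he1 _ m
    have e2 := he2 _ m
    rw [hF w hw]
    rw [← e1, ← e2]
    ring

end P513
end Pool.Agent.Helper311.Nev
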