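import Mathlib
import Pool.Agent.Helper311.Nev.Ker

open MeasureTheory Set Filter Topology Metric
open scoped ENNReal NNReal

namespace Pool.Agent.Helper311.Nev
namespace P514


theorem kernel_cmp (ρ K : ℝ) (hρ : 0 < ρ) (u v : ℂ) (huv : ‖u - v‖ ≤ ρ) (hv : v ≠ 0)
    (hK : ‖u‖ + ρ ≤ K * ‖v‖) :
    ‖1 / v - kr ρ u‖ ≤ K * (ρ / (‖u‖ ^ 2 + ρ ^ 2)) := by
  have hD : 0 < ‖u‖ ^ 2 + ρ ^ 2 := by positivity
  set D : ℝ := ‖u‖ ^ 2 + ρ ^ 2 with hDdef
  have hDc : ((D : ℝ) : ℂ) ≠ 0 := by exact_mod_cast hD.ne'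
  have hDe : ((D : ℝ) : ℂ) = (starRingEnd ℂ) u * u + (ρ : ℂ) ^ 2 := by
    rw [hDdef, ← Complex.normSq_eq_conj_mul_self, Complex.normSq_eq_norm_sq]
    push_cast; ring
  have h1 : 1 / v - kr ρ u = ((starRingEnd ℂ) u * (u - v) + (ρ : ℂ) ^ 2) / (v * (D : ℂ)) := by
    unfold kr
    rw [← hDdef, div_sub_div _ _ hv hDc, one_mul, hDe]
    congr 1
    ring
  have hvn : 0 < ‖v‖ := norm_pos_iff.mpr hv
  rw [h1, norm_div, norm_mul, Complex.norm_real, Real.norm_of_nonneg hD.le]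
  have h2 : ‖(starRingEnd ℂ) u * (u - v) + (ρ : ℂ) ^ 2‖ ≤ ρ * (‖u‖ + ρ) := by
    calc ‖(starRingEnd ℂ) u * (u - v) + (ρ : ℂ) ^ 2‖
        ≤ ‖(starRingEnd ℂ) u * (u - v)‖ + ‖(ρ : ℂ) ^ 2‖ := norm_add_le _ _
      _ = ‖u‖ * ‖u - v‖ + ρ ^ 2 := by
          rw [norm_mul, RCLike.norm_conj, norm_pow, Complex.norm_real,
            Real.norm_of_nonneg hρ.le]
      _ ≤ ‖u‖ * ρ + ρ ^ 2 := by
          have := mul_le_mul_of_nonneg_left huv (norm_nonneg u)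
          linarith
      _ = ρ * (‖u‖ + ρ) := by ring
  rw [div_le_iff₀ (by positivity)]
  have h3 : K * (ρ / D) * (‖v‖ * D) = ρ * (K * ‖v‖) := by field_simp
  rw [h3]
  exact h2.trans (mul_le_mul_of_nonneg_left hK hρ.le)

/-- I1 -/
theorem compare (c : ℝ) (hc : 0 < c)
    (hyp : ∀ (φ : ℂ → ℂ) (z : ℂ) (r : ℝ), 0 < r →
    DifferentiableOn ℂ φ (ball z r) → InjOn φ (ball z r) → ∀ a : ℂ, a ∉ φ '' ball z r →
    c * r * ‖deriv φ z‖ ≤ ‖φ z - a‖) :
    ∃ C : ℝ, 1 ≤ C ∧ ∀ φ : ℂ → ℂ, ContinuousOn φ (closedBall 0 1) →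
      DifferentiableOn ℂ φ (ball 0 1) → InjOn φ (closedBall 0 1) →
      ∀ L : ℝ, 1 ≤ L → ∀ θ : ℝ,
      (∀ r ∈ Ico (0 : ℝ) 1, L⁻¹ ≤ ‖deriv φ (circleMap 0 r θ)‖ ∧
        ‖deriv φ (circleMap 0 r θ)‖ ≤ L) →
      ∀ r ∈ Ico (0 : ℝ) 1, ∃ ρ : ℝ, 0 < ρ ∧
        ∀ (ι : Type) [Fintype ι] (ζ : ι → ℂ) (m : ι → ℝ), (∀ i, ζ i ∈ φ '' sphere 0 1) →
          (∀ i, 0 ≤ m i) →
          ‖∑ i, (m i : ℂ) / (ζ i - φ (circleMap 0 r θ))‖
            ≤ ‖Tr ζ m ρ (φ (circleMap 0 1 θ))‖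
              + C * L ^ 2 * Nr ζ m ρ (φ (circleMap 0 1 θ)) := by
  refine ⟨1 + 2 / c, by have : 0 < 2 / c := by positivity
                        linarith, ?_⟩
  intro φ hφc hφd hφi L hL θ hder r hr
  have hL0 : 0 < L := by linarith
  have hr1 : 0 < 1 - r := by linarith [hr.2]
  have hρ : 0 < L * (1 - r) := mul_pos hL0 hr1
  refine ⟨L * (1 - r), hρ, ?_⟩
  intro ι _ ζ m hζ hm
  set ρ : ℝ := L * (1 - r) with hρdef
  have hnorm : ∀ s : ℝ, 0 ≤ s → ‖circleMap 0 s θ‖ = s := by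
    intro s hs
    rw [norm_circleMap_zero, abs_of_nonneg hs]
  -- mean value
  have hmv : ‖φ (circleMap 0 1 θ) - φ (circleMap 0 r θ)‖ ≤ ρ := by
    have hcm : ∀ s : ℝ, circleMap 0 s θ = (s : ℂ) * Complex.exp (θ * Complex.I) := by
      intro s; rw [circleMap, zero_add]
    have h1 := norm_image_sub_le_of_norm_deriv_right_le_segment (a := r) (b := 1)
      (f := fun s : ℝ => φ (circleMap 0 s θ))
      (f' := fun s : ℝ => deriv φ (circleMap 0 s θ) * Complex.exp (θ * Complex.I)) (C := L)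
      ?_ ?_ ?_ 1 ⟨hr.2.le, le_rfl⟩
    · simpa [hρdef] using h1
    · have hcont : Continuous fun s : ℝ => circleMap 0 s θ := by
        simp only [hcm]; fun_prop
      refine hφc.comp hcont.continuousOn ?_
      intro s hs
      rw [mem_closedBall, dist_zero_right, hnorm s (hr.1.trans hs.1)]
      exact hs.2
    · intro s hs
      have h2 : HasDerivAt (fun w : ℂ => w * Complex.exp (θ * Complex.I))
          (Complex.exp (θ * Complex.I)) (s : ℂ) := by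
        simpa using (hasDerivAt_id (s : ℂ)).mul_const (Complex.exp (θ * Complex.I))
      have hmem : (s : ℂ) * Complex.exp (θ * Complex.I) ∈ ball (0 : ℂ) 1 := by
        rw [← hcm, mem_ball, dist_zero_right, hnorm s (hr.1.trans hs.1)]
        exact hs.2
      have h3 : HasDerivAt φ (deriv φ ((s : ℂ) * Complex.exp (θ * Complex.I)))
          ((s : ℂ) * Complex.exp (θ * Complex.I)) :=
        (hφd.differentiableAt (isOpen_ball.mem_nhds hmem)).hasDerivAt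
      have h4 := (h3.comp (s : ℂ) h2).comp_ofReal
      simp only [hcm]
      exact h4.hasDerivWithinAt
    · intro s hs
      rw [norm_mul, Complex.norm_exp_ofReal_mul_I, mul_one]
      exact (hder s ⟨hr.1.trans hs.1, hs.2⟩).2
  -- lower bound
  have hlow : ∀ i, c * ρ ≤ L ^ 2 * ‖ζ i - φ (circleMap 0 r θ)‖ := by
    intro i
    obtain ⟨w, hw, hwi⟩ := hζ i
    have hsub : ball (circleMap 0 r θ) (1 - r) ⊆ ball (0 : ℂ) 1 := by
      apply ball_subset_ball'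
      rw [dist_zero_right, hnorm r hr.1]; linarith
    have hnot : ζ i ∉ φ '' ball (circleMap 0 r θ) (1 - r) := by
      rintro ⟨w', hw', hw'i⟩
      have h1 : w' = w := hφi (ball_subset_closedBall (hsub hw')) (sphere_subset_closedBall hw)
        (hw'i.trans hwi.symm)
      have h2 := hsub hw'
      rw [h1, mem_ball] at h2
      rw [mem_sphere] at hw
      linarith
    have h3 := hyp φ (circleMap 0 r θ) (1 - r) hr1 (hφd.mono hsub)
      (hφi.mono (hsub.trans ball_subset_closedBall)) (ζ i) hnot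
    have h4 := (hder r hr).1
    have h5 : c * (1 - r) * L⁻¹ ≤ ‖φ (circleMap 0 r θ) - ζ i‖ :=
      (mul_le_mul_of_nonneg_left h4 (by positivity)).trans h3
    rw [norm_sub_rev]
    calc c * ρ = L ^ 2 * (c * (1 - r) * L⁻¹) := by rw [hρdef]; field_simp
      _ ≤ L ^ 2 * ‖φ (circleMap 0 r θ) - ζ i‖ := mul_le_mul_of_nonneg_left h5 (by positivity)
  -- termwise
  have hterm : ∀ i, ‖1 / (ζ i - φ (circleMap 0 r θ)) - kr ρ (ζ i - φ (circleMap 0 1 θ))‖ ≤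
      (1 + 2 / c) * L ^ 2 * (ρ / (‖ζ i - φ (circleMap 0 1 θ)‖ ^ 2 + ρ ^ 2)) := by
    intro i
    have h1 := hlow i
    have hv : ζ i - φ (circleMap 0 r θ) ≠ 0 := by
      intro h0
      rw [h0, norm_zero, mul_zero] at h1
      have : 0 < c * ρ := mul_pos hc hρ
      linarith
    have huv : ‖(ζ i - φ (circleMap 0 1 θ)) - (ζ i - φ (circleMap 0 r θ))‖ ≤ ρ := by
      have : (ζ i - φ (circleMap 0 1 θ)) - (ζ i - φ (circleMap 0 r θ)) =
          -(φ (circleMap 0 1 θ) - φ (circleMap 0 r θ)) := by ring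
      rw [this, norm_neg]; exact hmv
    apply kernel_cmp ρ _ hρ _ _ huv hv
    have h2 : ‖ζ i - φ (circleMap 0 1 θ)‖ ≤ ‖ζ i - φ (circleMap 0 r θ)‖ + ρ := by
      calc ‖ζ i - φ (circleMap 0 1 θ)‖ = ‖(ζ i - φ (circleMap 0 r θ)) +
            ((ζ i - φ (circleMap 0 1 θ)) - (ζ i - φ (circleMap 0 r θ)))‖ := by congr 1; ring
        _ ≤ _ := (norm_add_le _ _).trans (by linarith)
    set V : ℝ := ‖ζ i - φ (circleMap 0 r θ)‖ with hV
    have hV0 : 0 ≤ V := norm_nonneg _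
    have h3 : ρ ≤ L ^ 2 * V / c := by
      rw [le_div_iff₀ hc]; linarith
    have h4 : (1 : ℝ) ≤ L ^ 2 := one_le_pow₀ hL
    have h5 : (1 + 2 / c) * L ^ 2 * V = L ^ 2 * V + 2 * (L ^ 2 * V / c) := by field_simp
    rw [h5]
    nlinarith
  -- sum
  have hsum : ∑ i, (m i : ℂ) / (ζ i - φ (circleMap 0 r θ)) =
      Tr ζ m ρ (φ (circleMap 0 1 θ)) + ∑ i, (m i : ℂ) *
        (1 / (ζ i - φ (circleMap 0 r θ)) - kr ρ (ζ i - φ (circleMap 0 1 θ))) := by
    unfold Tr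
    rw [← Finset.sum_add_distrib]
    refine Finset.sum_congr rfl fun i _ => ?_
    ring
  rw [hsum]
  refine (norm_add_le _ _).trans ?_
  gcongr
  refine (norm_sum_le _ _).trans ?_
  unfold Nr
  rw [Finset.mul_sum]
  refine Finset.sum_le_sum fun i _ => ?_
  rw [norm_mul, Complex.norm_real, Real.norm_of_nonneg (hm i)]
  calc m i * ‖1 / (ζ i - φ (circleMap 0 r θ)) - kr ρ (ζ i - φ (circleMap 0 1 θ))‖
      ≤ m i * ((1 + 2 / c) * L ^ 2 * (ρ / (‖ζ i - φ (circleMap 0 1 θ)‖ ^ 2 + ρ ^ 2))) :=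
        mul_le_mul_of_nonneg_left (hterm i) (hm i)
    _ = _ := by ring

end P514
end Pool.Agent.Helper311.Nev
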