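import Mathlib
import Pool.Agent.Helper311.Nev.A2b
import Pool.Agent.Helper311.Nev.J362
import Pool.Agent.Helper311.Nev.J363
import Pool.Agent.Helper311.Nev.J364
import Pool.Agent.Helper311.Nev.J365
import Pool.Agent.Helper311.Nev.J366
import Pool.Agent.Helper311.Nev.J367
import Pool.Agent.Helper311.Nev.J368
import Pool.Agent.Helper311.Nev.J370
import Pool.Agent.Helper311.Nev.J371
import Pool.Agent.Helper311.Nev.J372
import Pool.Agent.Helper311.Nev.J373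
import Pool.Agent.Helper311.Nev.J374
import Pool.Agent.Helper311.Nev.J375
import Pool.Agent.Helper311.Nev.J376
import Pool.Agent.Helper311.Nev.J377
import Pool.Agent.Helper311.Nev.J378
import Pool.Agent.Helper311.Nev.J510
import Pool.Agent.Helper311.Nev.J511
import Pool.Agent.Helper311.Nev.J512
import Pool.Agent.Helper311.Nev.J513
import Pool.Agent.Helper311.Nev.J514

open MeasureTheory Set Filter Topology Metric
open scoped ENNReal NNReal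

namespace Pool.Agent.Helper311.Nev

/-- weak type bound on curves, all ingredients assembled -/
theorem curve_bound : ∃ C : ℝ, ∃ k : ℕ, 0 < C ∧ ∀ A : ℝ, 1 ≤ A → ∀ ℓ : ℝ, 0 < ℓ → ∀ h : ℝ → ℂ,
      (∀ s ∈ Icc 0 ℓ, ∀ t ∈ Icc 0 ℓ, ‖h s - h t‖ ≤ |s - t|) →
      (∀ (p : ℂ) (R : ℝ), 0 < R →
        volume {u ∈ Icc 0 ℓ | ‖h u - p‖ < R} ≤ ENNReal.ofReal (A * R)) →
      ∀ (ι : Type) [Fintype ι] (ζ : ι → ℂ) (m : ι → ℝ), (∀ i, 0 ≤ m i) → ∀ α : ℝ, 0 < α →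
      volume {u ∈ Icc 0 ℓ | ∃ ρ : ℝ, 0 < ρ ∧ α < ‖Tr ζ m ρ (h u)‖}
        ≤ ENNReal.ofReal (C * A ^ k * (∑ i, m i) / α) := by
  obtain ⟨C1, k1, hC1, h1⟩ := cjs_dyadic
  obtain ⟨C2, k2, hC2, h2⟩ := P365.l2_C1 C1 k1 hC1 h1
  obtain ⟨C3, k3, hC3, h3⟩ := P367.l2_kr C2 k2 hC2 h2
  obtain ⟨C4, k4, hC4, h4⟩ := P363.weak_fixed C3 k3 hC3 h3
  obtain ⟨C5, hC5, h5⟩ := P377.Nr_weak
  obtain ⟨C6, k6, hC6, h6⟩ := P366.weak_graph C4 k4 hC4 h4 C5 hC5 h5
  exact P362.weak_curve C6 k6 hC6 h6 C5 hC5 h5 P378.big_piece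

theorem necessity (φ : ℂ → ℂ) (hφc : ContinuousOn φ (closedBall 0 1))
    (hφi : InjOn φ (closedBall 0 1)) (hφd : DifferentiableOn ℂ φ (ball 0 1))
    (hN : PropertyN (φ '' sphere 0 1) (φ '' ball 0 1)) :
    ∫⁻ θ in Icc 0 (2 * Real.pi), ⨆ r ∈ Ico (0 : ℝ) 1,
      ENNReal.ofReal (Real.posLog (‖deriv φ (circleMap 0 r θ)‖⁻¹)) < ∞ := by
  obtain ⟨c, hc, hk⟩ := P371.koebe_omit
  obtain ⟨K, hK, hnb⟩ := P368.near_boundary c hc hk
  refine P374.necessity_core K hK φ hφc hφi hφd (hnb φ hφc hφd hφi) ?_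
  intro a c ha hc0 hcs
  refine P373.signs φ hφc hφi hφd a ha c hc0 hcs ?_
  intro ε
  exact P513.necessity_final φ hφc hφi hφd hN
    (fun F g h hg hh hF hgb hhb hne heq => P376.bound_of_nevanlinna F g h hg hh hF hgb hhb hne heq)
    a ha c hc0 hcs ε

theorem sufficiency (φ : ℂ → ℂ) (hφc : ContinuousOn φ (closedBall 0 1))
    (hφi : InjOn φ (closedBall 0 1)) (hφd : DifferentiableOn ℂ φ (ball 0 1))
    (hrect : eVariationOn (fun t : ℝ => φ (circleMap 0 1 t)) (Icc 0 (2 * Real.pi)) < ∞)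
    (hlog : ∫⁻ θ in Icc 0 (2 * Real.pi), ⨆ r ∈ Ico (0 : ℝ) 1,
      ENNReal.ofReal (Real.posLog (‖deriv φ (circleMap 0 r θ)‖⁻¹)) < ∞) :
    PropertyN (φ '' sphere 0 1) (φ '' ball 0 1) := by
  have hφi' : InjOn φ (ball 0 1) := hφi.mono ball_subset_closedBall
  obtain ⟨c, hc, hk⟩ := P371.koebe_omit
  obtain ⟨Cd, hCd, hd⟩ := P372.distortion c hc hk
  obtain ⟨Cs, hCs, hs⟩ := P364.sawtooth Cd hCd hd
  obtain ⟨Cc, k, hCc, hcv⟩ := curve_bound
  obtain ⟨Cn, hCn, hn⟩ := P377.Nr_weak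
  obtain ⟨Cr, hCr, hr⟩ := P370.radial_max
  obtain ⟨Cm, hCm, hm⟩ := P514.compare c hc hk
  set V : ℝ := (eVariationOn (fun t : ℝ => φ (circleMap 0 1 t)) (Icc 0 (2 * Real.pi))).toReal
    with hV
  have hV0 : 0 ≤ V := ENNReal.toReal_nonneg
  have hVe : eVariationOn (fun t : ℝ => φ (circleMap 0 1 t)) (Icc 0 (2 * Real.pi))
      ≤ ENNReal.ofReal V := by
    rw [hV, ENNReal.ofReal_toReal hrect.ne]
  set C₁ : ℝ := Cs + Cc + Cn + Cr + Cm with hC₁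
  have hC₁1 : 1 ≤ C₁ := by rw [hC₁]; linarith
  have hs1 : Cs ≤ C₁ := by rw [hC₁]; linarith
  have hc1 : Cc ≤ C₁ := by rw [hC₁]; linarith
  have hn1 : Cn ≤ C₁ := by rw [hC₁]; linarith
  have hr1 : Cr ≤ C₁ := by rw [hC₁]; linarith
  have hm1 : Cm ≤ C₁ := by rw [hC₁]; linarith
  refine P512.sufficiency_final φ hφc hφi hφd ?_
  intro ν hνf hν
  have hat := P510.atomic_bound C₁ hC₁1 k φ hφc hφi hφd V hV0
    (by
      intro L hL G hG hGn
      obtain ⟨h, h1, h2, h3⟩ := hs φ hφc hφd hφi' L hL G hG hGn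
      have hL0 : 0 < L := by linarith
      refine ⟨h, h1, fun s t => (h2 s t).trans ?_, fun p R hR => (h3 p R hR).trans ?_⟩
      · gcongr
      · apply ENNReal.ofReal_le_ofReal
        gcongr)
    (by
      intro A hA ℓ hℓ h h1 h2 ι _ ζ m hm0 α hα
      refine (hcv A hA ℓ hℓ h h1 h2 ι ζ m hm0 α hα).trans ?_
      apply ENNReal.ofReal_le_ofReal
      have : 0 ≤ ∑ i, m i := Finset.sum_nonneg fun i _ => hm0 i
      gcongr)
    (by
      intro S h A hA h1 ι _ ζ m hm0 α hα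
      refine (hn S h A hA h1 ι ζ m hm0 α hα).trans ?_
      apply ENNReal.ofReal_le_ofReal
      have : 0 ≤ ∑ i, m i := Finset.sum_nonneg fun i _ => hm0 i
      gcongr)
    (by
      intro Λ hΛ
      refine (hr φ hφc hφd V hV0 hVe Λ hΛ).trans ?_
      apply ENNReal.ofReal_le_ofReal
      gcongr)
    (by
      intro L hL θ h1 r hr'
      obtain ⟨ρ, hρ, h2⟩ := hm φ hφc hφd hφi L hL θ h1 r hr'
      refine ⟨ρ, hρ, ?_⟩
      intro ι _ ζ m hζ hm0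
      refine (h2 ι ζ m hζ hm0).trans ?_
      have hN0 : 0 ≤ Nr ζ m ρ (φ (circleMap 0 1 θ)) := by
        unfold Nr
        apply Finset.sum_nonneg
        intro i _
        have := hm0 i
        positivity
      gcongr)
    hlog
  obtain ⟨hdiff, C, hC⟩ := P511.general_measure φ hφc hφi hφd hat ν hν
  obtain ⟨g, h, hg, hh, hgb, hhb, hne, heq⟩ := P375.nevanlinna_of_bound _ hdiff C hC
  exact ⟨g, h, hg, hh, hgb, hhb, hne, heq⟩

end Pool.Agent.Helper311.Nev
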